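import Pool.Agent.Lib.MP_dd84fd_nt.T7.Defs

/-!
T7-45 VarL. Abel summation: sum_{n<=X} d(n) w(n) = S(X) w(X) - sum_{1<=n<X} S(n) (w(n+1) - w(n)), S(n) = sum_{m<=n} d(m).
-/

set_option autoImplicit false

namespace Pool.MP_dd84fd_nt.T7

open Finset Pool.MP_67663b_nt.Odd Pool.MP_dd84fd_nt.L2G

private theorem VarL_abel (d ω : ℕ → ℂ) (X : ℕ) (hX : 1 ≤ X) :
    ∑ n ∈ Icc 1 X, d n * ω n = (∑ n ∈ Icc 1 X, d n) * ω X -
      ∑ n ∈ Ico 1 X, (∑ m ∈ Icc 1 n, d m) * (ω (n + 1) - ω n) := by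
  induction X, hX using Nat.le_induction with
  | base => simp
  | succ X hX ih =>
    rw [Finset.sum_Icc_succ_top (by omega), ih, Finset.sum_Ico_succ_top hX,
      Finset.sum_Icc_succ_top (f := d) (by omega)]
    ring

theorem abel_var (X : ℕ) (hX : 1 ≤ X) (d ω : ℕ → ℂ) (E W V : ℝ)
    (hE : ∀ M ≤ X, ‖∑ n ∈ Icc 1 M, d n‖ ≤ E) (hW : ∀ n ∈ Icc 1 X, ‖ω n‖ ≤ W)
    (hV : ∑ n ∈ Ico 1 X, ‖ω (n + 1) - ω n‖ ≤ V) :
    ‖∑ n ∈ Icc 1 X, d n * ω n‖ ≤ E * (W + V) := by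
  have hE0 : 0 ≤ E := (norm_nonneg _).trans (hE 0 (Nat.zero_le _))
  rw [VarL_abel d ω X hX]
  refine (norm_sub_le _ _).trans ?_
  have h1 : ‖(∑ n ∈ Icc 1 X, d n) * ω X‖ ≤ E * W := by
    rw [norm_mul]
    exact mul_le_mul (hE X le_rfl) (hW X (Finset.mem_Icc.2 ⟨hX, le_rfl⟩)) (norm_nonneg _) hE0
  have h2 : ‖∑ n ∈ Ico 1 X, (∑ m ∈ Icc 1 n, d m) * (ω (n + 1) - ω n)‖ ≤ E * V := by
    refine (norm_sum_le _ _).trans ?_
    calc ∑ n ∈ Ico 1 X, ‖(∑ m ∈ Icc 1 n, d m) * (ω (n + 1) - ω n)‖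
        ≤ ∑ n ∈ Ico 1 X, E * ‖ω (n + 1) - ω n‖ := by
          refine Finset.sum_le_sum fun n hn => ?_
          rw [norm_mul]
          exact mul_le_mul_of_nonneg_right (hE n (Finset.mem_Ico.1 hn).2.le) (norm_nonneg _)
      _ = E * ∑ n ∈ Ico 1 X, ‖ω (n + 1) - ω n‖ := by rw [Finset.mul_sum]
      _ ≤ E * V := mul_le_mul_of_nonneg_left hV hE0
  calc _ ≤ E * W + E * V := add_le_add h1 h2
    _ = E * (W + V) := by ring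

theorem ee_var (X : ℕ) (β : ℝ) :
    ∑ n ∈ Ico 1 X, ‖ee (((n + 1 : ℕ) : ℝ) * β) - ee ((n : ℝ) * β)‖ ≤ 7 * (|β| * X) := by
  have h1 : ∀ n ∈ Ico 1 X, ‖ee (((n + 1 : ℕ) : ℝ) * β) - ee ((n : ℝ) * β)‖ ≤ 7 * |β| := by
    intro n _
    refine (norm_ee_sub_ee_le _ _).trans ?_
    have h2 : ((n + 1 : ℕ) : ℝ) * β - (n : ℝ) * β = β := by
      push_cast
      ring
    rw [h2]
    have h3 := Real.pi_lt_d2
    have h4 := abs_nonneg β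
    nlinarith
  refine (Finset.sum_le_sum h1).trans ?_
  rw [Finset.sum_const, Nat.card_Ico, nsmul_eq_mul]
  have h2 : ((X - 1 : ℕ) : ℝ) ≤ X := by
    exact_mod_cast Nat.sub_le X 1
  have h4 := abs_nonneg β
  nlinarith

end Pool.MP_dd84fd_nt.T7
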