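import Pool.Agent.Lib.MP_dd84fd_nt.T7.Defs
import Pool.Agent.Lib.MP_dd84fd_nt.L2G.ClassAlg
import Pool.Agent.Lib.MP_dd84fd_nt.L2G.Avg

/-!
T7-48 Fz2Basic (compare Fz_eq, Fz_le_VA in L2G/ClassAlg). Fz2_eq as Fz_eq; Fz2_sq: Cauchy (b -> a - b is a bijection). Fz2_pars: parseval (L2G/Avg) with s = the filter set (2X < gr X).
-/

set_option autoImplicit false

namespace Pool.MP_dd84fd_nt.T7

open Finset Pool.MP_67663b_nt.Odd Pool.MP_dd84fd_nt.L2G

private theorem Fz2Basic_fz (X q : ℕ) (f : ℕ → ℝ) (θ : ℝ) (b : ZMod q) :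
    fz X q f θ b = ∑ n ∈ Icc 1 X, if (n : ZMod q) = b then (f n : ℂ) * ee (n * θ) else 0 := by
  unfold fz
  rw [Finset.sum_filter]

theorem Fz2_eq (X q : ℕ) [NeZero q] (f g : ℕ → ℝ) (θ : ℝ) (a : ZMod q) :
    Fz2 X q f g θ a = ∑ b : ZMod q, fz X q f θ b * fz X q g θ (a - b) := by
  have hL : Fz2 X q f g θ a = ∑ m ∈ Icc 1 X, ∑ k ∈ Icc 1 X,
      if (m : ZMod q) + (k : ZMod q) = a then
        ((f m : ℂ) * ee (m * θ)) * ((g k : ℂ) * ee (k * θ)) else 0 := by
    unfold Fz2 cv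
    have h1 : ∀ n ∈ (range (2 * X + 1)).filter (fun n : ℕ => (n : ZMod q) = a),
        ((∑ m ∈ Icc 1 X, ∑ k ∈ Icc 1 X, if m + k = n then f m * g k else 0 : ℝ) : ℂ) *
          ee (n * θ) = ∑ m ∈ Icc 1 X, ∑ k ∈ Icc 1 X, if m + k = n then
            ((f m : ℂ) * ee (m * θ)) * ((g k : ℂ) * ee (k * θ)) else 0 := by
      intro n _
      push_cast
      rw [Finset.sum_mul]
      refine Finset.sum_congr rfl fun m _ => ?_
      rw [Finset.sum_mul]
      refine Finset.sum_congr rfl fun k _ => ?_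
      by_cases h : m + k = n
      · rw [if_pos h, if_pos h]
        have h2 : ee ((n : ℝ) * θ) = ee (m * θ) * ee (k * θ) := by
          rw [← ee_add, ← h]
          congr 1
          push_cast
          ring
        rw [h2]
        push_cast
        ring
      · rw [if_neg h, if_neg h]
        simp
    rw [Finset.sum_congr rfl h1, Finset.sum_comm]
    refine Finset.sum_congr rfl fun m hm => ?_
    rw [Finset.sum_comm]
    refine Finset.sum_congr rfl fun k hk => ?_
    rw [Finset.sum_ite_eq]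
    rw [Finset.mem_Icc] at hm hk
    have h3 : m + k ∈ (range (2 * X + 1)).filter (fun n : ℕ => (n : ZMod q) = a) ↔
        (m : ZMod q) + (k : ZMod q) = a := by
      rw [Finset.mem_filter, Finset.mem_range]
      push_cast
      constructor
      · exact fun h => h.2
      · exact fun h => ⟨by omega, h⟩
    by_cases h : (m : ZMod q) + (k : ZMod q) = a
    · rw [if_pos h, if_pos (h3.2 h)]
    · rw [if_neg h, if_neg (fun h4 => h (h3.1 h4))]
  rw [hL]
  have hR : ∀ b : ZMod q, fz X q f θ b * fz X q g θ (a - b) =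
      ∑ m ∈ Icc 1 X, ∑ k ∈ Icc 1 X, if (m : ZMod q) = b then
        (if (m : ZMod q) + (k : ZMod q) = a then
        ((f m : ℂ) * ee (m * θ)) * ((g k : ℂ) * ee (k * θ)) else 0) else 0 := by
    intro b
    rw [Fz2Basic_fz, Fz2Basic_fz, Finset.sum_mul_sum]
    refine Finset.sum_congr rfl fun m _ => Finset.sum_congr rfl fun k _ => ?_
    by_cases h1 : (m : ZMod q) = b
    · rw [if_pos h1, if_pos h1]
      by_cases h2 : (m : ZMod q) + (k : ZMod q) = a
      · rw [if_pos h2, if_pos (by rw [← h1, ← h2]; ring)]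
      · rw [if_neg h2, if_neg (fun h3 => h2 (by rw [h3, h1]; ring)), mul_zero]
    · rw [if_neg h1, if_neg h1, zero_mul]
  rw [Finset.sum_congr rfl fun b _ => hR b]
  symm
  rw [Finset.sum_comm]
  refine Finset.sum_congr rfl fun m _ => ?_
  rw [Finset.sum_comm]
  refine Finset.sum_congr rfl fun k _ => ?_
  rw [Finset.sum_ite_eq]
  simp

theorem Fz2_sq (X q : ℕ) [NeZero q] (f g : ℕ → ℝ) (θ : ℝ) (a : ZMod q) :
    ‖Fz2 X q f g θ a‖ ^ 2 ≤ VA X q f θ * VA X q g θ := by
  rw [Fz2_eq]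
  have h1 : ∑ b : ZMod q, ‖fz X q g θ (a - b)‖ ^ 2 = VA X q g θ := by
    unfold VA
    exact Fintype.sum_equiv (Equiv.subLeft a) _ _ fun b => rfl
  rw [← h1]
  unfold VA
  calc ‖∑ b : ZMod q, fz X q f θ b * fz X q g θ (a - b)‖ ^ 2
      ≤ (∑ b : ZMod q, ‖fz X q f θ b‖ * ‖fz X q g θ (a - b)‖) ^ 2 := by
        refine pow_le_pow_left₀ (norm_nonneg _) ?_ 2
        refine (norm_sum_le _ _).trans (le_of_eq ?_)
        exact Finset.sum_congr rfl fun b _ => norm_mul _ _
    _ ≤ _ := Finset.sum_mul_sq_le_sq_mul_sq univ _ _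

theorem Fz2_pars (X q : ℕ) [NeZero q] (f g f' g' : ℕ → ℝ) (a : ZMod q) :
    ∑ n ∈ (range (2 * X + 1)).filter (fun n : ℕ => (n : ZMod q) = a),
      (cv X f g n - cv X f' g' n) ^ 2 =
      av (gr X) (fun θ => ‖Fz2 X q f g θ a - Fz2 X q f' g' θ a‖ ^ 2) := by
  have h := parseval (N := gr X) ((range (2 * X + 1)).filter (fun n : ℕ => (n : ZMod q) = a))
    (fun n hn => by
      have h1 := Finset.mem_range.1 (Finset.mem_filter.1 hn).1
      have h2 := lt_gr X
      omega) (fun n => ((cv X f g n - cv X f' g' n : ℝ) : ℂ))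
  have h3 : ∀ θ : ℝ, Fz2 X q f g θ a - Fz2 X q f' g' θ a =
      ∑ n ∈ (range (2 * X + 1)).filter (fun n : ℕ => (n : ZMod q) = a),
        ((cv X f g n - cv X f' g' n : ℝ) : ℂ) * ee (n * θ) := by
    intro θ
    unfold Fz2
    rw [← Finset.sum_sub_distrib]
    refine Finset.sum_congr rfl fun n _ => ?_
    push_cast
    ring
  simp only [h3]
  rw [h]
  refine Finset.sum_congr rfl fun n _ => ?_
  rw [Complex.norm_real, Real.norm_eq_abs, sq_abs]

end Pool.MP_dd84fd_nt.T7
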