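import Pool.Agent.Lib.MP_dd84fd_nt.T7.FourInt
import Pool.Agent.Lib.MP_dd84fd_nt.L2G.PV

/-!
T7-04 FourW (uses FourInt; compare L2G/PV for the same reductions). n = c mod r in [M,N): n = c' + r j, j < J, J <= N-M (if the set is empty the sum is 0); chi(n) = chi(r) chi(j+s) with
s = c' r^-1 mod q (natural representative), |chi(r)| = 1: so the unweighted sums over the first/last terms are sums over intervals of at most N-M consecutive integers: four_int.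
Weights: with n_0 < n_1 < ... < n_{J-1} the elements, D_0 = g(n_0) >= 0, D_j = g(n_j)-g(n_{j-1}) >= 0, sum_j D_j <= G: sum g(n_j)chi(n_j) = sum_j D_j T_j(chi), T_j = sum_{i>=j} chi(n_i), and
|sum_j D_j T_j|^4 <= (sum D_j)^3 sum D_j |T_j|^4 (Hoelder/Jensen). Sum over chi.
-/

set_option autoImplicit false

namespace Pool.MP_dd84fd_nt.T7

open Finset Pool.MP_67663b_nt.Odd Pool.MP_dd84fd_nt.L2G

private theorem FourW_tel (w : ℕ → ℝ) (j : ℕ) :
    ∑ i ∈ Ico 0 (j + 1), (w i - if i = 0 then 0 else w (i - 1)) = w j := by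
  induction j with
  | zero => simp
  | succ j ih =>
    rw [Finset.sum_Ico_succ_top (by omega), ih]
    simp

private theorem FourW_abel (L : ℕ) (w : ℕ → ℝ) (a : ℕ → ℂ) :
    ∑ j ∈ Ico 0 L, (w j : ℂ) * a j =
      ∑ i ∈ Ico 0 L, ((w i - if i = 0 then 0 else w (i - 1) : ℝ) : ℂ) * ∑ j ∈ Ico i L, a j := by
  simp_rw [Finset.mul_sum]
  rw [Finset.sum_Ico_Ico_comm]
  refine Finset.sum_congr rfl fun j _ => ?_
  rw [← Finset.sum_mul, ← Complex.ofReal_sum, FourW_tel]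

private theorem FourW_jensen (s : Finset ℕ) (D x : ℕ → ℝ) (hD : ∀ i ∈ s, 0 ≤ D i) :
    (∑ i ∈ s, D i * x i) ^ 4 ≤ (∑ i ∈ s, D i) ^ 3 * ∑ i ∈ s, D i * x i ^ 4 := by
  have h1 : (∑ i ∈ s, D i * x i) ^ 2 ≤ (∑ i ∈ s, D i) * ∑ i ∈ s, D i * x i ^ 2 :=
    Finset.sum_sq_le_sum_mul_sum_of_sq_eq_mul s hD
      (fun i hi => mul_nonneg (hD i hi) (by positivity)) (fun i _ => by ring)
  have h2 : (∑ i ∈ s, D i * x i ^ 2) ^ 2 ≤ (∑ i ∈ s, D i) * ∑ i ∈ s, D i * x i ^ 4 :=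
    Finset.sum_sq_le_sum_mul_sum_of_sq_eq_mul s hD
      (fun i hi => mul_nonneg (hD i hi) (by positivity)) (fun i _ => by ring)
  have h3 : 0 ≤ ∑ i ∈ s, D i := Finset.sum_nonneg hD
  have h4 : 0 ≤ ∑ i ∈ s, D i * x i ^ 2 :=
    Finset.sum_nonneg fun i hi => mul_nonneg (hD i hi) (by positivity)
  calc (∑ i ∈ s, D i * x i) ^ 4 = ((∑ i ∈ s, D i * x i) ^ 2) ^ 2 := by ring
    _ ≤ ((∑ i ∈ s, D i) * ∑ i ∈ s, D i * x i ^ 2) ^ 2 :=
        pow_le_pow_left₀ (by positivity) h1 2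
    _ = (∑ i ∈ s, D i) ^ 2 * (∑ i ∈ s, D i * x i ^ 2) ^ 2 := by ring
    _ ≤ (∑ i ∈ s, D i) ^ 2 * ((∑ i ∈ s, D i) * ∑ i ∈ s, D i * x i ^ 4) :=
        mul_le_mul_of_nonneg_left h2 (by positivity)
    _ = _ := by ring

private theorem FourW_ceil (A d m : ℕ) (hd : 0 < d) : (A + d - 1) / d ≤ m ↔ A ≤ d * m := by
  rw [Nat.div_le_iff_le_mul_add_pred hd]
  omega

/-- the progression -/
private theorem FourW_prog (r c M N : ℕ) (hr : 1 ≤ r)
    (h : ((Ico M N).filter (fun n => n % r = c)).Nonempty) :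
    ∃ n₀ L : ℕ, M ≤ n₀ ∧ 1 ≤ L ∧ L ≤ N - M ∧ (∀ i, i < L ↔ n₀ + r * i < N) ∧
      ∀ F : ℕ → ℂ, ∑ n ∈ (Ico M N).filter (fun n => n % r = c), F n =
        ∑ i ∈ Ico 0 L, F (n₀ + r * i) := by
  obtain ⟨n₀, hn₀⟩ : ∃ n₀, n₀ = ((Ico M N).filter (fun n => n % r = c)).min' h := ⟨_, rfl⟩
  have hmem : n₀ ∈ (Ico M N).filter (fun n => n % r = c) := by
    rw [hn₀]
    exact Finset.min'_mem _ _
  have hmin : ∀ n ∈ (Ico M N).filter (fun n => n % r = c), n₀ ≤ n := by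
    intro n hn
    rw [hn₀]
    exact Finset.min'_le _ _ hn
  rw [Finset.mem_filter, Finset.mem_Ico] at hmem
  obtain ⟨⟨hM, hN⟩, hc⟩ := hmem
  have hL : ∀ i, i < (N - n₀ + r - 1) / r ↔ n₀ + r * i < N := by
    intro i
    rw [← not_le, FourW_ceil _ _ _ hr]
    omega
  refine ⟨n₀, (N - n₀ + r - 1) / r, hM, ?_, ?_, hL, ?_⟩
  · have := (hL 0).2 (by omega)
    omega
  · rw [FourW_ceil _ _ _ hr]
    calc N - n₀ ≤ N - M := by omega
      _ = 1 * (N - M) := by ring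
      _ ≤ r * (N - M) := Nat.mul_le_mul_right _ hr
  · intro F
    symm
    refine Finset.sum_bij (fun i _ => n₀ + r * i) ?_ ?_ ?_ ?_
    · intro i hi
      rw [Finset.mem_Ico, hL] at hi
      rw [Finset.mem_filter, Finset.mem_Ico]
      refine ⟨⟨by omega, hi.2⟩, ?_⟩
      rw [Nat.add_mul_mod_self_left]
      exact hc
    · intro i _ j _ hij
      have h1 : r * i = r * j := Nat.add_left_cancel hij
      exact Nat.eq_of_mul_eq_mul_left hr h1
    · intro n hn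
      have h1 := hmin n hn
      rw [Finset.mem_filter, Finset.mem_Ico] at hn
      obtain ⟨⟨h2, h3⟩, h4⟩ := hn
      have h5 : r ∣ n - n₀ := (Nat.modEq_iff_dvd' h1).1 (by
        unfold Nat.ModEq
        rw [hc, h4])
      obtain ⟨k, hk⟩ := h5
      have h6 : n₀ + r * k = n := by omega
      refine ⟨k, ?_, h6⟩
      rw [Finset.mem_Ico, hL]
      exact ⟨Nat.zero_le _, by omega⟩
    · intro i _
      rfl

theorem four_prog : ∃ C : ℕ, ∀ (q : ℕ) [NeZero q] (r c M N : ℕ) (g : ℕ → ℝ) (G : ℝ),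
    Nat.Coprime r q → 1 ≤ r → 0 ≤ G → MonotoneOn g (Set.Ico M N) →
    (∀ n ∈ Ico M N, 0 ≤ g n ∧ g n ≤ G) →
    ∑ χ ∈ univ.filter (fun χ : DirichletCharacter ℂ q => χ ≠ 1),
      ‖∑ n ∈ (Ico M N).filter (fun n => n % r = c), (g n : ℂ) * χ n‖ ^ 4 ≤
      C * G ^ 4 * (q.divisors.card : ℝ) ^ 4 * (1 + Real.log q) ^ C *
        ((q : ℝ) ^ 2 + q * ((N - M : ℕ) : ℝ) ^ 2) := by
  obtain ⟨C, hC⟩ := four_int
  refine ⟨C, ?_⟩
  intro q hqz r c M N g G hrq hr hG hmono hg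
  have hq1 : (1 : ℝ) ≤ q := by exact_mod_cast NeZero.one_le
  have hlog : 0 ≤ Real.log q := Real.log_nonneg hq1
  rcases ((Ico M N).filter (fun n => n % r = c)).eq_empty_or_nonempty with h0 | h0
  · rw [h0]
    simp only [Finset.sum_empty, norm_zero, ne_eq, OfNat.ofNat_ne_zero, not_false_eq_true,
      zero_pow, Finset.sum_const_zero]
    positivity
  obtain ⟨n₀, L, hM, hL1, hLN, hL, hsum⟩ := FourW_prog r c M N hr h0
  -- the weights
  obtain ⟨w, hw⟩ : ∃ w : ℕ → ℝ, w = fun i => g (n₀ + r * i) := ⟨_, rfl⟩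
  obtain ⟨D, hD⟩ : ∃ D : ℕ → ℝ, D = fun i => w i - if i = 0 then 0 else w (i - 1) := ⟨_, rfl⟩
  have hin : ∀ i, i < L → n₀ + r * i ∈ Ico M N := by
    intro i hi
    rw [Finset.mem_Ico]
    exact ⟨by omega, (hL i).1 hi⟩
  have hD0 : ∀ i ∈ Ico 0 L, 0 ≤ D i := by
    intro i hi
    rw [Finset.mem_Ico] at hi
    rw [hD]
    simp only
    split_ifs with h
    · rw [hw, sub_zero]
      exact (hg _ (hin i hi.2)).1
    · rw [hw, sub_nonneg]
      simp only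
      apply hmono
      · have := hin (i - 1) (by omega)
        rwa [← Finset.coe_Ico, Finset.mem_coe]
      · have := hin i hi.2
        rwa [← Finset.coe_Ico, Finset.mem_coe]
      · have : r * (i - 1) ≤ r * i := Nat.mul_le_mul_left r (by omega)
        omega
  have hDsum : ∑ i ∈ Ico 0 L, D i ≤ G := by
    obtain ⟨l, rfl⟩ : ∃ l, L = l + 1 := ⟨L - 1, by omega⟩
    rw [hD, FourW_tel, hw]
    exact (hg _ (hin l (by omega))).2
  have hDs0 : 0 ≤ ∑ i ∈ Ico 0 L, D i := Finset.sum_nonneg hD0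
  -- the shift
  obtain ⟨s, hs⟩ : ∃ s : ℕ, s = ((r : ZMod q)⁻¹ * (n₀ : ZMod q)).val + q := ⟨_, rfl⟩
  have hs1 : 1 ≤ s := by
    have : 1 ≤ q := NeZero.one_le
    omega
  have hrs : (r : ZMod q) * (s : ZMod q) = (n₀ : ZMod q) := by
    rw [hs, Nat.cast_add, ZMod.natCast_zmod_val, ZMod.natCast_self, add_zero, ← mul_assoc,
      ZMod.coe_mul_inv_eq_one r hrq, one_mul]
  obtain ⟨B, hB⟩ : ∃ B : ℝ, B = C * (q.divisors.card : ℝ) ^ 4 * (1 + Real.log q) ^ C *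
        ((q : ℝ) ^ 2 + q * ((N - M : ℕ) : ℝ) ^ 2) := ⟨_, rfl⟩
  have hB0 : 0 ≤ B := by
    rw [hB]
    positivity
  have hT : ∀ i ∈ Ico 0 L, ∑ χ ∈ univ.filter (fun χ : DirichletCharacter ℂ q => χ ≠ 1),
      ‖∑ j ∈ Ico i L, χ ((n₀ + r * j : ℕ) : ZMod q)‖ ^ 4 ≤ B := by
    intro i hi
    rw [Finset.mem_Ico] at hi
    have h1 := hC q (i + s - 1) (L - i)
    have h2 : ∀ χ : DirichletCharacter ℂ q, ‖∑ j ∈ Ico i L, χ ((n₀ + r * j : ℕ) : ZMod q)‖ ≤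
        ‖∑ n ∈ Ioc (i + s - 1) (i + s - 1 + (L - i)), (χ n : ℂ)‖ := by
      intro χ
      have e1 : ∑ j ∈ Ico i L, χ ((n₀ + r * j : ℕ) : ZMod q) =
          χ r * ∑ j ∈ Ico i L, χ ((j + s : ℕ) : ZMod q) := by
        rw [Finset.mul_sum]
        refine Finset.sum_congr rfl fun j _ => ?_
        rw [← map_mul]
        congr 1
        push_cast
        rw [← hrs]
        ring
      have e2 : ∑ j ∈ Ico i L, χ ((j + s : ℕ) : ZMod q) =
          ∑ n ∈ Ioc (i + s - 1) (i + s - 1 + (L - i)), (χ n : ℂ) := by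
        rw [Finset.sum_Ico_add' (fun n : ℕ => χ (n : ZMod q)) i L s]
        refine Finset.sum_congr ?_ fun _ _ => rfl
        ext n
        rw [Finset.mem_Ico, Finset.mem_Ioc]
        omega
      rw [e1, norm_mul, e2]
      exact mul_le_of_le_one_left (norm_nonneg _) (DirichletCharacter.norm_le_one χ _)
    refine (Finset.sum_le_sum fun χ _ => pow_le_pow_left₀ (norm_nonneg _) (h2 χ) 4).trans
      (h1.trans ?_)
    rw [hB]
    have h3 : ((L - i : ℕ) : ℝ) ≤ ((N - M : ℕ) : ℝ) := by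
      have : L - i ≤ N - M := by omega
      exact_mod_cast this
    have h4 : ((L - i : ℕ) : ℝ) ^ 2 ≤ ((N - M : ℕ) : ℝ) ^ 2 :=
      pow_le_pow_left₀ (Nat.cast_nonneg _) h3 2
    apply mul_le_mul_of_nonneg_left _ (by positivity)
    have h5 := mul_le_mul_of_nonneg_left h4 (by positivity : (0 : ℝ) ≤ q)
    linarith
  have hχ : ∀ χ : DirichletCharacter ℂ q,
      ‖∑ n ∈ (Ico M N).filter (fun n => n % r = c), (g n : ℂ) * χ n‖ ^ 4 ≤
      (∑ i ∈ Ico 0 L, D i) ^ 3 *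
        ∑ i ∈ Ico 0 L, D i * ‖∑ j ∈ Ico i L, χ ((n₀ + r * j : ℕ) : ZMod q)‖ ^ 4 := by
    intro χ
    refine le_trans ?_ (FourW_jensen (Ico 0 L) D
      (fun i => ‖∑ j ∈ Ico i L, χ ((n₀ + r * j : ℕ) : ZMod q)‖) hD0)
    apply pow_le_pow_left₀ (norm_nonneg _)
    rw [hsum (fun n => (g n : ℂ) * χ n)]
    have e1 := FourW_abel L w (fun j => χ ((n₀ + r * j : ℕ) : ZMod q))
    rw [hw] at e1
    simp only at e1
    rw [e1]
    refine (norm_sum_le _ _).trans (Finset.sum_le_sum fun i hi => ?_)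
    rw [norm_mul, Complex.norm_real]
    apply mul_le_mul_of_nonneg_right _ (norm_nonneg _)
    have h1 := hD0 i hi
    rw [hD, hw] at h1 ⊢
    simp only at h1 ⊢
    rw [Real.norm_of_nonneg h1]
  calc ∑ χ ∈ univ.filter (fun χ : DirichletCharacter ℂ q => χ ≠ 1),
        ‖∑ n ∈ (Ico M N).filter (fun n => n % r = c), (g n : ℂ) * χ n‖ ^ 4
      ≤ ∑ χ ∈ univ.filter (fun χ : DirichletCharacter ℂ q => χ ≠ 1),
        (∑ i ∈ Ico 0 L, D i) ^ 3 *
        ∑ i ∈ Ico 0 L, D i * ‖∑ j ∈ Ico i L, χ ((n₀ + r * j : ℕ) : ZMod q)‖ ^ 4 :=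
        Finset.sum_le_sum fun χ _ => hχ χ
    _ = (∑ i ∈ Ico 0 L, D i) ^ 3 * ∑ i ∈ Ico 0 L, D i *
        ∑ χ ∈ univ.filter (fun χ : DirichletCharacter ℂ q => χ ≠ 1),
          ‖∑ j ∈ Ico i L, χ ((n₀ + r * j : ℕ) : ZMod q)‖ ^ 4 := by
        rw [← Finset.mul_sum, Finset.sum_comm]
        congr 1
        refine Finset.sum_congr rfl fun i _ => ?_
        rw [Finset.mul_sum]
    _ ≤ (∑ i ∈ Ico 0 L, D i) ^ 3 * ∑ i ∈ Ico 0 L, D i * B := by
        apply mul_le_mul_of_nonneg_left _ (by positivity)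
        exact Finset.sum_le_sum fun i hi => mul_le_mul_of_nonneg_left (hT i hi) (hD0 i hi)
    _ = (∑ i ∈ Ico 0 L, D i) ^ 4 * B := by
        rw [← Finset.sum_mul]
        ring
    _ ≤ G ^ 4 * B := mul_le_mul_of_nonneg_right (pow_le_pow_left₀ hDs0 hDsum 4) hB0
    _ = _ := by
        rw [hB]
        ring

end Pool.MP_dd84fd_nt.T7
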