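import Pool.Agent.Lib.MP_dd84fd_nt.L2G.ChDefs
import Pool.Agent.Lib.MP_dd84fd_nt.En.Defs

/-!
# A lower bound of the right order for the number of Goldbach representations in all progressions
to moduli up to `X^(4/5-ε)`: definitions
-/

set_option autoImplicit false

namespace Pool.MP_dd84fd_nt.T7

open Finset Pool.MP_67663b_nt.Odd Pool.MP_dd84fd_nt.L2G

/-- upper sifting level `⌈X^(1/5)⌉` -/
noncomputable def zS (X : ℕ) : ℕ := ⌈(X : ℝ) ^ (1 / 5 : ℝ)⌉₊

/-- lower sifting level `⌈exp (log X / (log log X)^2)⌉` -/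
noncomputable def wS (X : ℕ) : ℕ := ⌈Real.exp (Real.log X / Real.log (Real.log X) ^ 2)⌉₊

/-- indicator function of the `n ≥ 1` all of whose prime factors are `≥ z` -/
noncomputable def rg (z : ℕ) : ArithmeticFunction ℝ :=
  ⟨fun n => if n ≠ 0 ∧ ∀ p ∈ n.primeFactors, z ≤ p then 1 else 0, by simp⟩

/-- `1` at `1`, `-1` at the primes `p` with `zS X ≤ p` and `p^2 ≤ X` -/
noncomputable def kS (X : ℕ) : ArithmeticFunction ℝ :=
  ⟨fun n => if n = 1 then 1 else if n.Prime ∧ zS X ≤ n ∧ n ^ 2 ≤ X then -1 else 0, by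
    simp [Nat.not_prime_zero]⟩

/-- the minorant of the indicator function of the primes -/
noncomputable def Sv (X : ℕ) : ArithmeticFunction ℝ := kS X * rg (zS X)

/-- the Möbius function on the numbers `≤ X^(1/40)` without prime factors `≥ wS X` -/
noncomputable def lS (X : ℕ) : ArithmeticFunction ℝ :=
  ⟨fun n => if n ≠ 0 ∧ (n : ℝ) ≤ (X : ℝ) ^ (1 / 40 : ℝ) ∧ ∀ p ∈ n.primeFactors, p < wS X then
    ((ArithmeticFunction.moebius n : ℤ) : ℝ) else 0, by simp⟩

/-- indicator function of the primes in `[wS X, zS X)` -/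
noncomputable def aS (X : ℕ) : ArithmeticFunction ℝ :=
  ⟨fun n => if n.Prime ∧ wS X ≤ n ∧ n < zS X then 1 else 0, by simp [Nat.not_prime_zero]⟩

/-- `1 / (N(n) + 1)` on the `n` without prime factors `< wS X`, where `N(n)` is the number of prime
factors of `n` below `zS X` -/
noncomputable def gS (X : ℕ) : ArithmeticFunction ℝ :=
  ⟨fun n => if n ≠ 0 ∧ ∀ p ∈ n.primeFactors, wS X ≤ p then
    1 / (((n.primeFactors.filter (fun p => p < zS X)).card : ℝ) + 1) else 0, by simp⟩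

/-- the constant function 1 as a real arithmetic function -/
noncomputable def ze : ArithmeticFunction ℝ :=
  ((ArithmeticFunction.zeta : ArithmeticFunction ℕ) : ArithmeticFunction ℝ)

/-- the smooth density of `Sv X` -/
noncomputable def sd (X n : ℕ) : ℝ :=
  ∑ f ∈ Icc 1 X, (kS X * lS X) f / f -
    ∑ k ∈ Icc 1 X, if wS X * k ≤ n ∧ n < zS X * k then
      (kS X * gS X) k / (k * Real.log ((n : ℝ) / k)) else 0

/-- the model of `Sv X` -/
noncomputable def snu (X q n : ℕ) : ℝ := sd X n * nu X (Rm X) q n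

/-- `∑_{n ≡ a mod q} (f * g)(n) e(nθ)` (additive convolution of `f` and `g` on `[1, X]`) -/
noncomputable def Fz2 (X q : ℕ) (f g : ℕ → ℝ) (θ : ℝ) (a : ZMod q) : ℂ :=
  ∑ n ∈ (range (2 * X + 1)).filter (fun n : ℕ => (n : ZMod q) = a), (cv X f g n : ℂ) * ee (n * θ)

/-- `∑_{b mod q} χ(b) e(hb/q)` -/
noncomputable def tG (q : ℕ) [NeZero q] (χ : DirichletCharacter ℂ q) (h : ℕ) : ℂ :=
  ∑ b : ZMod q, χ b * ee ((h : ℝ) * (b.val : ℝ) / q)

end Pool.MP_dd84fd_nt.T7
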