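import Pool.Agent.Lib.MP_dd84fd_nt.T7.Defs

/-!
T7-21 SvBasic. Elementary. zS_pow: zS X >= X^(1/5). sv_formula: Sv X n = sum_{k | n} kS(k) rg(n/k). If n is zS-rough (all prime factors >= zS) so are all n/k, and the sum is 1 - #{p | n : p^2 <= X}
(p >= zS automatic). If n is not rough: rg n = 0 and rg(n/p) = 1 with p >= zS prime would make n rough: all terms 0.
sv_le: n = prime: 1 - [n^2 <= X] <= 1; n composite, rough: the least prime factor p has p^2 <= n <= X: value <= 0. sv_abs: five distinct primes >= zS have product > zS^5 >= X >= n: at most four distinct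
prime factors, so -3 <= Sv <= 1. sv_supp from the formula. sv_one: Sv X 1 = 1. ks_abs etc.: |kS| <= 1, |lS| <= 1, 0 <= aS <= 1, 0 <= gS <= 1, and |(f*g) n| <= tau(n) for |f|,|g| <= 1.
-/

set_option autoImplicit false

namespace Pool.MP_dd84fd_nt.T7

open Finset Pool.MP_67663b_nt.Odd Pool.MP_dd84fd_nt.L2G

theorem zS_pow (X : ℕ) : (X : ℝ) ≤ (zS X : ℝ) ^ 5 := by
  have h1 : (X : ℝ) ^ (1 / 5 : ℝ) ≤ (zS X : ℝ) := Nat.le_ceil _
  have h2 : (0 : ℝ) ≤ (X : ℝ) ^ (1 / 5 : ℝ) := by positivity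
  calc (X : ℝ) = ((X : ℝ) ^ (1 / 5 : ℝ)) ^ 5 := by
        rw [← Real.rpow_natCast, ← Real.rpow_mul (Nat.cast_nonneg X)]
        norm_num
    _ ≤ (zS X : ℝ) ^ 5 := pow_le_pow_left₀ h2 h1 5

private theorem SvBasic_rg (z n : ℕ) :
    rg z n = if n ≠ 0 ∧ ∀ p ∈ n.primeFactors, z ≤ p then 1 else 0 := rfl

private theorem SvBasic_ks (X n : ℕ) :
    kS X n = if n = 1 then 1 else if n.Prime ∧ zS X ≤ n ∧ n ^ 2 ≤ X then -1 else 0 := rfl

private theorem SvBasic_sum (X n : ℕ) :
    Sv X n = ∑ a ∈ n.divisors, kS X a * rg (zS X) (n / a) := by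
  unfold Sv
  rw [ArithmeticFunction.mul_apply]
  exact Nat.sum_divisorsAntidiagonal (fun a b => kS X a * rg (zS X) b)

theorem sv_formula (X n : ℕ) (h1 : 1 ≤ n) : Sv X n =
    if (∀ p ∈ n.primeFactors, zS X ≤ p) then
      1 - ((n.primeFactors.filter (fun p => p ^ 2 ≤ X)).card : ℝ) else 0 := by
  classical
  rw [SvBasic_sum]
  have hn0 : n ≠ 0 := by omega
  split_ifs with hr
  · have h2 : ∀ a ∈ n.divisors, kS X a * rg (zS X) (n / a) =
        (if a = 1 then 1 else 0) - (if a ∈ n.primeFactors.filter (fun p => p ^ 2 ≤ X) then 1 else 0) := by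
      intro a ha
      have had : a ∣ n := Nat.dvd_of_mem_divisors ha
      have h3 : rg (zS X) (n / a) = 1 := by
        rw [SvBasic_rg, if_pos]
        refine ⟨(Nat.div_pos (Nat.le_of_dvd h1 had) (Nat.pos_of_mem_divisors ha)).ne', ?_⟩
        intro p hp
        exact hr p (Nat.primeFactors_mono (Nat.div_dvd_of_dvd had) hn0 hp)
      rw [h3, mul_one, SvBasic_ks]
      by_cases ha1 : a = 1
      · rw [if_pos ha1, if_pos ha1, if_neg, sub_zero]
        rw [ha1, Finset.mem_filter, Nat.mem_primeFactors]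
        rintro ⟨⟨h4, _⟩, _⟩
        exact Nat.not_prime_one h4
      · rw [if_neg ha1, if_neg ha1]
        by_cases hap : a.Prime ∧ zS X ≤ a ∧ a ^ 2 ≤ X
        · rw [if_pos hap, if_pos, zero_sub]
          rw [Finset.mem_filter, Nat.mem_primeFactors]
          exact ⟨⟨hap.1, had, hn0⟩, hap.2.2⟩
        · rw [if_neg hap, if_neg, sub_zero]
          rw [Finset.mem_filter]
          rintro ⟨h4, h5⟩
          exact hap ⟨(Nat.mem_primeFactors.mp h4).1, hr a h4, h5⟩
    rw [Finset.sum_congr rfl h2, Finset.sum_sub_distrib, Finset.sum_ite_eq', if_pos (by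
      rw [Nat.mem_divisors]; exact ⟨one_dvd _, hn0⟩)]
    congr 1
    rw [Finset.sum_ite_mem, Finset.sum_const, nsmul_eq_mul, mul_one]
    congr 2
    refine Finset.inter_eq_right.mpr ?_
    intro a ha
    rw [Finset.mem_filter, Nat.mem_primeFactors] at ha
    rw [Nat.mem_divisors]
    exact ⟨ha.1.2.1, hn0⟩
  · refine Finset.sum_eq_zero fun a ha => ?_
    by_contra hne
    apply hr
    have had : a ∣ n := Nat.dvd_of_mem_divisors ha
    have hk : kS X a ≠ 0 := left_ne_zero_of_mul hne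
    have hg : rg (zS X) (n / a) ≠ 0 := right_ne_zero_of_mul hne
    rw [SvBasic_rg] at hg
    have hg1 : n / a ≠ 0 ∧ ∀ p ∈ (n / a).primeFactors, zS X ≤ p := by
      by_contra h
      rw [if_neg h] at hg
      exact hg rfl
    rw [SvBasic_ks] at hk
    intro p hp
    have hpp := (Nat.mem_primeFactors.mp hp).1
    have hpd : p ∣ a * (n / a) := by
      rw [Nat.mul_div_cancel' had]
      exact (Nat.mem_primeFactors.mp hp).2.1
    rcases (Nat.Prime.dvd_mul hpp).mp hpd with h3 | h3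
    · by_cases ha1 : a = 1
      · rw [ha1] at h3
        exact absurd (Nat.dvd_one.mp h3) hpp.one_lt.ne'
      · rw [if_neg ha1] at hk
        have h4 : a.Prime ∧ zS X ≤ a ∧ a ^ 2 ≤ X := by
          by_contra h
          rw [if_neg h] at hk
          exact hk rfl
        have h5 : p = a := (Nat.prime_dvd_prime_iff_eq hpp h4.1).mp h3
        rw [h5]
        exact h4.2.1
    · exact hg1.2 p (Nat.mem_primeFactors.mpr ⟨hpp, h3, hg1.1⟩)

theorem sv_one (X : ℕ) : Sv X 1 = 1 := by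
  rw [sv_formula X 1 le_rfl]
  simp

theorem sv_le (X n : ℕ) (h2 : 2 ≤ n) (hn : n ≤ X) : Sv X n ≤ if n.Prime then 1 else 0 := by
  rw [sv_formula X n (by omega)]
  by_cases hr : ∀ p ∈ n.primeFactors, zS X ≤ p
  · rw [if_pos hr]
    by_cases hp : n.Prime
    · rw [if_pos hp]
      have : (0 : ℝ) ≤ ((n.primeFactors.filter (fun p => p ^ 2 ≤ X)).card : ℝ) :=
        Nat.cast_nonneg _
      linarith
    · rw [if_neg hp]
      have h3 : n.minFac ^ 2 ≤ n := Nat.minFac_sq_le_self (by omega) hp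
      have h4 : n.minFac ∈ n.primeFactors.filter (fun p => p ^ 2 ≤ X) := by
        rw [Finset.mem_filter, Nat.mem_primeFactors]
        exact ⟨⟨Nat.minFac_prime (by omega), Nat.minFac_dvd n, by omega⟩, h3.trans hn⟩
      have h5 : 1 ≤ (n.primeFactors.filter (fun p => p ^ 2 ≤ X)).card :=
        Finset.card_pos.mpr ⟨_, h4⟩
      have h6 : (1 : ℝ) ≤ ((n.primeFactors.filter (fun p => p ^ 2 ≤ X)).card : ℝ) := by
        exact_mod_cast h5
      linarith
  · rw [if_neg hr]
    split_ifs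
    · exact zero_le_one
    · exact le_rfl

private theorem SvBasic_card (X n : ℕ) (h1 : 1 ≤ n) (hn : n ≤ X)
    (hr : ∀ p ∈ n.primeFactors, zS X ≤ p) : n.primeFactors.card ≤ 5 := by
  by_contra hc
  push Not at hc
  have h2 : (X : ℝ) ≤ (zS X : ℝ) ^ 5 := zS_pow X
  have h3 : X ≤ (zS X) ^ 5 := by exact_mod_cast h2
  have h4 : (zS X) ^ n.primeFactors.card ≤ n := by
    calc (zS X) ^ n.primeFactors.card ≤ ∏ p ∈ n.primeFactors, p :=
          Finset.pow_card_le_prod _ _ _ hr
      _ ≤ n := Nat.le_of_dvd h1 (Nat.prod_primeFactors_dvd n)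
  by_cases hz : 2 ≤ zS X
  · have h5 : (zS X) ^ 5 < (zS X) ^ n.primeFactors.card :=
      Nat.pow_lt_pow_right (by omega) hc
    omega
  · have h5 : (zS X) ^ 5 ≤ 1 := by
      have : zS X ≤ 1 := by omega
      calc (zS X) ^ 5 ≤ 1 ^ 5 := Nat.pow_le_pow_left this 5
        _ = 1 := by norm_num
    have h6 : n = 1 := by omega
    rw [h6, Nat.primeFactors_one] at hc
    simp at hc

theorem sv_abs (X n : ℕ) (hn : n ≤ X) : |Sv X n| ≤ 4 := by
  rcases Nat.eq_zero_or_pos n with h0 | h0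
  · rw [h0, ArithmeticFunction.map_zero, abs_zero]
    norm_num
  · rw [sv_formula X n h0]
    split_ifs with hr
    · have h1 := SvBasic_card X n h0 hn hr
      have h2 : (n.primeFactors.filter (fun p => p ^ 2 ≤ X)).card ≤ 5 :=
        (Finset.card_filter_le _ _).trans h1
      have h3 : ((n.primeFactors.filter (fun p => p ^ 2 ≤ X)).card : ℝ) ≤ 5 := by
        exact_mod_cast h2
      have h4 : (0 : ℝ) ≤ ((n.primeFactors.filter (fun p => p ^ 2 ≤ X)).card : ℝ) :=
        Nat.cast_nonneg _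
      rw [abs_le]
      constructor <;> linarith
    · rw [abs_zero]
      norm_num

theorem sv_supp (X n : ℕ) (h : Sv X n ≠ 0) : ∀ p ∈ n.primeFactors, zS X ≤ p := by
  rcases Nat.eq_zero_or_pos n with h0 | h0
  · rw [h0, ArithmeticFunction.map_zero] at h
    exact absurd rfl h
  · rw [sv_formula X n h0] at h
    by_contra hr
    rw [if_neg hr] at h
    exact h rfl

theorem conv_abs (f g : ArithmeticFunction ℝ) (hf : ∀ n, |f n| ≤ 1) (hg : ∀ n, |g n| ≤ 1) (n : ℕ) :
    |(f * g) n| ≤ (n.divisors.card : ℝ) := by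
  have h1 : (f * g) n = ∑ a ∈ n.divisors, f a * g (n / a) := by
    rw [ArithmeticFunction.mul_apply]
    exact Nat.sum_divisorsAntidiagonal (fun a b => f a * g b)
  rw [h1]
  refine (Finset.abs_sum_le_sum_abs _ _).trans ?_
  calc ∑ a ∈ n.divisors, |f a * g (n / a)| ≤ ∑ a ∈ n.divisors, (1 : ℝ) := by
        refine Finset.sum_le_sum fun a _ => ?_
        rw [abs_mul]
        exact mul_le_one₀ (hf a) (abs_nonneg _) (hg _)
    _ = (n.divisors.card : ℝ) := by
        rw [Finset.sum_const, nsmul_eq_mul, mul_one]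

theorem coef_abs (X n : ℕ) : |kS X n| ≤ 1 ∧ |lS X n| ≤ 1 ∧ |aS X n| ≤ 1 ∧ |gS X n| ≤ 1 := by
  refine ⟨?_, ?_, ?_, ?_⟩
  · rw [SvBasic_ks]
    split_ifs <;> simp
  · have h1 : lS X n = if n ≠ 0 ∧ (n : ℝ) ≤ (X : ℝ) ^ (1 / 40 : ℝ) ∧ ∀ p ∈ n.primeFactors, p < wS X then
        ((ArithmeticFunction.moebius n : ℤ) : ℝ) else 0 := rfl
    rw [h1]
    split_ifs
    · have h2 : |ArithmeticFunction.moebius n| ≤ 1 := ArithmeticFunction.abs_moebius_le_one
      have h3 : ((|ArithmeticFunction.moebius n| : ℤ) : ℝ) ≤ ((1 : ℤ) : ℝ) := by exact_mod_cast h2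
      rwa [Int.cast_abs, Int.cast_one] at h3
    · simp
  · have h1 : aS X n = if n.Prime ∧ wS X ≤ n ∧ n < zS X then 1 else 0 := rfl
    rw [h1]
    split_ifs <;> simp
  · have h1 : gS X n = if n ≠ 0 ∧ ∀ p ∈ n.primeFactors, wS X ≤ p then
        1 / (((n.primeFactors.filter (fun p => p < zS X)).card : ℝ) + 1) else 0 := rfl
    rw [h1]
    split_ifs
    · have h2 : (0 : ℝ) ≤ ((n.primeFactors.filter (fun p => p < zS X)).card : ℝ) :=
        Nat.cast_nonneg _
      rw [abs_of_nonneg (by positivity), div_le_one (by positivity)]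
      linarith
    · simp

end Pool.MP_dd84fd_nt.T7
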