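import Pool.Agent.Lib.MP_dd84fd_nt.L2G.ModelAux
import Pool.Agent.Lib.MP_dd84fd_nt.T7.SvBasic
import Pool.Agent.Lib.MP_dd84fd_nt.L2G.SpecSmall
import Pool.Agent.Lib.MP_dd84fd_nt.L2G.CvBasic
import Pool.Agent.Lib.MP_dd84fd_nt.L2G.GHL
import Pool.Agent.Lib.MP_dd84fd_nt.En.Sing
import Pool.Agent.Lib.MP_dd84fd_nt.L2G.ChDefs

/-!
T7-60 T7Final: the final theorem (as L2G/SpecFinal with `4/5` in place of `2/3`).
-/

set_option autoImplicit false

namespace Pool.MP_dd84fd_nt.T7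

open Finset Pool.MP_67663b_nt.Odd Pool.MP_dd84fd_nt.L2G

/-- the exceptional integers -/
private def T7Final_Bd (n : ℕ) : Prop :=
  Even n ∧ 20 * (Pool.MP_dd84fd_nt.En.g n : ℝ) < Pool.MP_dd84fd_nt.En.HL n

private theorem T7Final_split (X n : ℕ) (hn : n ≤ X) (k : ℕ) :
    n ≤ X / 2 ^ k ∨ ∃ i, i < k ∧ n ≤ X / 2 ^ i ∧ X / 2 ^ i < 2 * n := by
  induction k with
  | zero => left; simpa using hn
  | succ k ih =>
    rcases ih with h | ⟨i, hi, h⟩
    · by_cases h2 : X / 2 ^ k < 2 * n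
      · exact Or.inr ⟨k, Nat.lt_succ_self k, h, h2⟩
      · left
        rw [pow_succ, ← Nat.div_div_eq_div_mul, Nat.le_div_iff_mul_le (by norm_num)]
        omega
    · exact Or.inr ⟨i, hi.trans (Nat.lt_succ_self k), h⟩

private theorem T7Final_inner (X n : ℕ) (c : ℕ → ℝ) (m : ℕ) :
    (∑ k ∈ Icc 1 X, if m + k = n then c k else 0) =
      if m ≤ n ∧ n - m ∈ Icc 1 X then c (n - m) else 0 := by
  by_cases h : m ≤ n ∧ n - m ∈ Icc 1 X
  · rw [if_pos h, sum_eq_single (n - m)]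
    · rw [if_pos (by omega)]
    · intro k _ hk
      rw [if_neg (by omega)]
    · intro hk
      exact absurd h.2 hk
  · rw [if_neg h]
    refine sum_eq_zero fun k hk => ?_
    rw [if_neg]
    intro hmk
    apply h
    refine ⟨by omega, ?_⟩
    have : n - m = k := by omega
    rw [this]
    exact hk

private theorem T7Final_la_nonneg (X n : ℕ) : 0 ≤ la X n := by
  unfold la
  split_ifs
  · exact Real.log_natCast_nonneg n
  · exact le_rfl

/-- the convolution of the minorant with the primes -/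
private theorem T7Final_cv (Y n : ℕ) (hn : n ≤ Y) :
    cv Y (fun n => Sv Y n) (la Y) n ≤ ((Pool.MP_dd84fd_nt.En.g n : ℝ) + 1) * Real.log n := by
  unfold cv
  have hlog : 0 ≤ Real.log n := Real.log_natCast_nonneg n
  have h1 : ∀ m ∈ Icc 1 Y, (∑ k ∈ Icc 1 Y, if m + k = n then Sv Y m * la Y k else 0) ≤
      (if m ∈ (Finset.range (n + 1)).filter (fun p => Nat.Prime p ∧ Nat.Prime (n - p)) then
        Real.log n else 0) + (if m = 1 then Real.log n else 0) := by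
    intro m hm
    rw [T7Final_inner Y n (fun k => Sv Y m * la Y k) m]
    have hm1 : 1 ≤ m := (mem_Icc.1 hm).1
    have hnn1 : (0 : ℝ) ≤ (if m ∈ (Finset.range (n + 1)).filter
        (fun p => Nat.Prime p ∧ Nat.Prime (n - p)) then Real.log n else 0) := by
      split_ifs
      · exact hlog
      · exact le_rfl
    have hnn2 : (0 : ℝ) ≤ (if m = 1 then Real.log n else 0) := by
      split_ifs
      · exact hlog
      · exact le_rfl
    by_cases h : m ≤ n ∧ n - m ∈ Icc 1 Y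
    · rw [if_pos h]
      have hla0 := T7Final_la_nonneg Y (n - m)
      have hla : la Y (n - m) ≤ if (n - m).Prime then Real.log n else 0 := by
        unfold la
        by_cases hp : (n - m).Prime
        · rw [if_pos hp]
          split_ifs
          · exact Real.log_le_log (by exact_mod_cast hp.pos) (by exact_mod_cast Nat.sub_le n m)
          · exact hlog
        · rw [if_neg hp, if_neg (fun hh => hp hh.1)]
      rcases Nat.lt_or_ge m 2 with h2 | h2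
      · have hm2 : m = 1 := by omega
        have h3 : la Y (n - m) ≤ Real.log n := by
          refine hla.trans ?_
          split_ifs
          · exact le_rfl
          · exact hlog
        have h4 : Sv Y m = 1 := by rw [hm2]; exact sv_one Y
        rw [h4, one_mul, if_pos hm2]
        linarith
      · have h3 := sv_le Y m h2 (h.1.trans hn)
        have h4 : Sv Y m * la Y (n - m) ≤ (if m.Prime then 1 else 0) *
            (if (n - m).Prime then Real.log n else 0) := by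
          refine (mul_le_mul_of_nonneg_right h3 hla0).trans ?_
          refine mul_le_mul_of_nonneg_left hla ?_
          split_ifs <;> norm_num
        refine h4.trans ?_
        by_cases hp : m.Prime ∧ (n - m).Prime
        · have hmem : m ∈ (Finset.range (n + 1)).filter
              (fun p => Nat.Prime p ∧ Nat.Prime (n - p)) := by
            rw [Finset.mem_filter, Finset.mem_range]
            exact ⟨by omega, hp⟩
          rw [if_pos hmem, if_pos hp.1, if_pos hp.2]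
          linarith
        · rcases not_and_or.mp hp with hp | hp
          · rw [if_neg hp, zero_mul]
            linarith
          · rw [if_neg hp, mul_zero]
            linarith
    · rw [if_neg h]
      linarith
  refine (Finset.sum_le_sum h1).trans ?_
  rw [Finset.sum_add_distrib, ← Finset.sum_filter, ← Finset.sum_filter, Finset.sum_const,
    Finset.sum_const, nsmul_eq_mul, nsmul_eq_mul, add_mul, one_mul]
  refine add_le_add ?_ ?_
  · refine mul_le_mul_of_nonneg_right ?_ hlog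
    unfold Pool.MP_dd84fd_nt.En.g
    have : (Finset.filter (fun m => m ∈ (Finset.range (n + 1)).filter
        (fun p => Nat.Prime p ∧ Nat.Prime (n - p))) (Icc 1 Y)).card ≤
        ((Finset.range (n + 1)).filter (fun p => Nat.Prime p ∧ Nat.Prime (n - p))).card := by
      apply Finset.card_le_card
      intro m hm
      exact (Finset.mem_filter.mp hm).2
    exact_mod_cast this
  · have h2 : ((Icc 1 Y).filter (fun m => m = 1)).card ≤ 1 := by
      refine (Finset.card_le_card (t := {1}) ?_).trans (by simp)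
      intro m hm
      rw [Finset.mem_filter] at hm
      exact Finset.mem_singleton.2 hm.2
    have h3 : (((Icc 1 Y).filter (fun m => m = 1)).card : ℝ) ≤ 1 := by exact_mod_cast h2
    calc (((Icc 1 Y).filter (fun m => m = 1)).card : ℝ) * Real.log n ≤ 1 * Real.log n :=
          mul_le_mul_of_nonneg_right h3 hlog
      _ = Real.log n := one_mul _

private theorem T7Final_r1 (m e L : ℝ) (h : m ≤ e / 2 * L) (he : e ≤ 1 / 8) (hL : 0 ≤ L) :
    m ≤ L := by nlinarith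

private theorem T7Final_r2 (e L x : ℝ) (h : (1 - e) * L ≤ x) (he : e ≤ 1 / 8) (hL : 0 ≤ L) :
    L / 2 ≤ x := by nlinarith

private theorem T7Final_r3 (e ε₀ : ℝ) (h0 : 0 < e) (h : 2 * e ≤ ε₀) :
    4 / 5 - ε₀ ≤ (1 - e) * (4 / 5 - e) := by nlinarith

/-- the real inequality behind the block lemma -/
private theorem T7Final_real (S n ℓ lY g c Y : ℝ) (hc : 0 < c) (hS : 2 * c ≤ S) (hn : 0 < n)
    (hlY : 0 < lY) (hℓ : 0 < ℓ) (h1 : (99 / 100) * lY ≤ ℓ) (h2 : ℓ ≤ lY)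
    (hg : 20 * g < S * n / ℓ ^ 2) (hYn : Y ≤ 2 * n)
    (hbig : 1000 * lY ^ 2 ≤ c * Y) :
    (g + 1) * ℓ ≤ (52 / 1000) * (S * n / lY) := by
  have hS0 : 0 < S := by linarith
  have h3 : g * ℓ ≤ (1 / 20) * (S * n / ℓ) := by
    have h4 : g ≤ (1 / 20) * (S * n / ℓ ^ 2) := by linarith
    calc g * ℓ ≤ (1 / 20) * (S * n / ℓ ^ 2) * ℓ := mul_le_mul_of_nonneg_right h4 hℓ.le
      _ = (1 / 20) * (S * n / ℓ) := by field_simp
  have h5 : S * n / ℓ ≤ (100 / 99) * (S * n / lY) := by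
    rw [div_le_iff₀ hℓ]
    have h6 : (100 / 99) * (S * n / lY) * ((99 / 100) * lY) = S * n := by field_simp
    calc S * n = (100 / 99) * (S * n / lY) * ((99 / 100) * lY) := h6.symm
      _ ≤ (100 / 99) * (S * n / lY) * ℓ := mul_le_mul_of_nonneg_left h1 (by positivity)
  have h7 : ℓ ≤ (1 / 1000) * (S * n / lY) := by
    have h8 : 1000 * lY ^ 2 ≤ S * n := by
      refine hbig.trans ?_
      calc c * Y ≤ c * (2 * n) := mul_le_mul_of_nonneg_left hYn hc.le
        _ = (2 * c) * n := by ring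
        _ ≤ S * n := mul_le_mul_of_nonneg_right hS hn.le
    refine h2.trans ?_
    rw [← mul_div_assoc, le_div_iff₀ hlY]
    nlinarith
  have h9 : 0 ≤ S * n / lY := by positivity
  rw [add_mul, one_mul]
  linarith

open Classical in
/-- Chebyshev on one dyadic block -/
private theorem T7Final_block
    (h_low : ∃ X0 : ℕ, ∀ X : ℕ, X0 ≤ X → ∀ (q : ℕ) [NeZero q],
    (q : ℝ) ≤ (X : ℝ) ^ (4 / 5 : ℝ) → ∀ n : ℕ, X ≤ 2 * n → n ≤ X → Even n →
    (6 / 100 : ℝ) * (Pool.MP_dd84fd_nt.En.SS n * n / Real.log X) ≤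
      cv X (snu X q) (nu X (Rm X) q) n)
    : ∃ η : ℝ, 0 < η ∧ ∃ Y0 : ℕ, ∀ Y : ℕ,
    Y0 ≤ Y → ∀ (q : ℕ) [NeZero q], (q : ℝ) ≤ (Y : ℝ) ^ (4 / 5 : ℝ) → ∀ a : ZMod q,
    ∀ ξ : ℕ → ℝ, (∀ n, 0 ≤ ξ n) →
    ∑ n ∈ (Icc 1 Y).filter (fun n : ℕ => T7Final_Bd n ∧ Y < 2 * n ∧ (n : ZMod q) = a), ξ n ≤
      Real.log Y ^ 2 / (η ^ 2 * (Y : ℝ) ^ 2) * ∑ n ∈ (Icc 1 Y).filter (fun n : ℕ => (n : ZMod q) = a),
        ξ n * (cv Y (fun n => Sv Y n) (la Y) n - cv Y (snu Y q) (nu Y (Rm Y) q) n) ^ 2 := by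
  have hC := Pool.MP_dd84fd_nt.En.C2_pos
  obtain ⟨X2, hX2⟩ := h_low
  obtain ⟨X3, hX3⟩ := Filter.eventually_atTop.1 (ma_log_pow 2 1 (by norm_num)
    (1000 / Pool.MP_dd84fd_nt.En.C2))
  obtain ⟨X4, hX4⟩ := Filter.eventually_atTop.mp
    ((Real.tendsto_log_atTop.comp tendsto_natCast_atTop_atTop).eventually_ge_atTop (100 : ℝ))
  refine ⟨(8 / 1000) * Pool.MP_dd84fd_nt.En.C2, by positivity, max X2 (max X3 (max X4 4)), ?_⟩
  intro Y hY q _ hq a ξ hξ
  simp only [max_le_iff] at hY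
  obtain ⟨hY2, hY3, hY4, hY5⟩ := hY
  have hY0 : (0 : ℝ) < Y := by
    have : 0 < Y := by omega
    exact_mod_cast this
  have hlY : 100 ≤ Real.log Y := hX4 Y hY4
  have hbig : 1000 * Real.log Y ^ 2 ≤ Pool.MP_dd84fd_nt.En.C2 * Y := by
    have h1 := hX3 Y hY3
    rw [Real.rpow_one, div_mul_eq_mul_div, div_le_iff₀ hC] at h1
    linarith
  rw [Finset.mul_sum]
  refine le_trans (Finset.sum_le_sum (g := fun n => Real.log Y ^ 2 /
    (((8 / 1000) * Pool.MP_dd84fd_nt.En.C2) ^ 2 * (Y : ℝ) ^ 2) * (ξ n *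
    (cv Y (fun n => Sv Y n) (la Y) n - cv Y (snu Y q) (nu Y (Rm Y) q) n) ^ 2)) ?_)
    (Finset.sum_le_sum_of_subset_of_nonneg ?_ ?_)
  · intro n hn
    rw [mem_filter, mem_Icc] at hn
    obtain ⟨⟨hn1, hnY⟩, ⟨heven, hb⟩, h2n, -⟩ := hn
    have hn0 : (0 : ℝ) < n := by exact_mod_cast hn1
    have h2n' : (Y : ℝ) ≤ 2 * n := by exact_mod_cast h2n.le
    have hlow := hX2 Y hY2 q hq n h2n.le hnY heven
    have hSS := Pool.MP_dd84fd_nt.En.SS_ge n
    have hℓ1 : Real.log n ≤ Real.log Y := Real.log_le_log hn0 (by exact_mod_cast hnY)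
    have hℓ2 : (99 / 100) * Real.log Y ≤ Real.log n := by
      have h1 : Real.log Y ≤ Real.log (2 * n) := Real.log_le_log hY0 h2n'
      rw [Real.log_mul (by norm_num) hn0.ne'] at h1
      have h2 : Real.log 2 ≤ 1 := by
        have := Real.log_two_lt_d9
        linarith
      linarith
    have hup := T7Final_real (Pool.MP_dd84fd_nt.En.SS n) n (Real.log n) (Real.log Y)
      (Pool.MP_dd84fd_nt.En.g n) Pool.MP_dd84fd_nt.En.C2 Y hC hSS hn0 (by linarith) (by linarith)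
      hℓ2 hℓ1 hb h2n' hbig
    have hcv := (T7Final_cv Y n hnY).trans hup
    set e := cv Y (fun n => Sv Y n) (la Y) n - cv Y (snu Y q) (nu Y (Rm Y) q) n with he
    have h4 : (8 / 1000) * Pool.MP_dd84fd_nt.En.C2 * Y / Real.log Y ≤ -e := by
      have h5 : (8 / 1000) * (Pool.MP_dd84fd_nt.En.SS n * n / Real.log Y) ≤ -e := by
        rw [he]
        linarith
      refine le_trans ?_ h5
      rw [← mul_div_assoc]
      refine div_le_div_of_nonneg_right ?_ (by linarith)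
      have h6 : Pool.MP_dd84fd_nt.En.C2 * Y ≤ Pool.MP_dd84fd_nt.En.SS n * n := by
        calc Pool.MP_dd84fd_nt.En.C2 * Y ≤ Pool.MP_dd84fd_nt.En.C2 * (2 * n) :=
              mul_le_mul_of_nonneg_left h2n' hC.le
          _ = (2 * Pool.MP_dd84fd_nt.En.C2) * n := by ring
          _ ≤ Pool.MP_dd84fd_nt.En.SS n * n := mul_le_mul_of_nonneg_right hSS hn0.le
      linarith
    have hlY0 : 0 < Real.log Y := by linarith
    have h5 : ((8 / 1000) * Pool.MP_dd84fd_nt.En.C2 * Y / Real.log Y) ^ 2 ≤ e ^ 2 := by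
      rw [← neg_sq e]
      exact pow_le_pow_left₀ (by positivity) h4 2
    have h6 : 1 ≤ Real.log Y ^ 2 / (((8 / 1000) * Pool.MP_dd84fd_nt.En.C2) ^ 2 * (Y : ℝ) ^ 2) * e ^ 2 := by
      have h7 : Real.log Y ^ 2 / (((8 / 1000) * Pool.MP_dd84fd_nt.En.C2) ^ 2 * (Y : ℝ) ^ 2) *
          ((8 / 1000) * Pool.MP_dd84fd_nt.En.C2 * Y / Real.log Y) ^ 2 = 1 := by
        field_simp
      calc (1 : ℝ) = _ := h7.symm
        _ ≤ _ := mul_le_mul_of_nonneg_left h5 (by positivity)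
    calc ξ n = ξ n * 1 := (mul_one _).symm
      _ ≤ ξ n * (Real.log Y ^ 2 / (((8 / 1000) * Pool.MP_dd84fd_nt.En.C2) ^ 2 * (Y : ℝ) ^ 2) * e ^ 2) :=
          mul_le_mul_of_nonneg_left h6 (hξ n)
      _ = _ := by ring
  · intro n hn
    rw [mem_filter] at hn ⊢
    exact ⟨hn.1, hn.2.2.2⟩
  · intro n _ _
    exact mul_nonneg (by positivity) (mul_nonneg (hξ n) (sq_nonneg _))

theorem t7_final_core
    (h_scale : ∀ (ε : ℝ) (hε : 0 < ε) (hε1 : ε < 1), ∃ C : ℕ, ∀ A K : ℕ, ∃ Y0 : ℕ,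
    ∀ Y : ℕ, Y0 ≤ Y → ∀ (X N : ℕ) [NeZero N], Y ≤ X → X < N → 2 * Y < N →
    ∀ ξ : ℕ → ℝ, (∀ n, 0 ≤ ξ n) → ∑ n ∈ Icc 1 X, ξ n ≤ 1 → ∀ δ : ℝ, 0 ≤ δ →
    ∀ (q : ℕ) [NeZero q], (q : ℝ) ≤ (Y : ℝ) ^ (4 / 5 - ε) → ∀ a : ZMod q,
    (Nat.gcd a.val q : ℝ) ≤ Real.log Y ^ K →
    ∑ n ∈ (Icc 1 Y).filter (fun n : ℕ => (n : ZMod q) = a),
      ξ n * (cv Y (fun n => Sv Y n) (la Y) n - cv Y (snu Y q) (nu Y (Rm Y) q) n) ^ 2 ≤
      δ * (Y * Real.log Y ^ C) ^ 2 +
        ((Pool.MP_dd84fd_nt.LS.spec N X ξ δ).card : ℝ) / N * (Y ^ 3 / (q * Real.log Y ^ A)))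
    (h_low : ∃ X0 : ℕ, ∀ X : ℕ, X0 ≤ X → ∀ (q : ℕ) [NeZero q],
    (q : ℝ) ≤ (X : ℝ) ^ (4 / 5 : ℝ) → ∀ n : ℕ, X ≤ 2 * n → n ≤ X → Even n →
    (6 / 100 : ℝ) * (Pool.MP_dd84fd_nt.En.SS n * n / Real.log X) ≤
      cv X (snu X q) (nu X (Rm X) q) n)
    (ε₀ : ℝ) (hε₀ : 0 < ε₀) (A : ℕ) : ∃ B : ℕ, ∀ K : ℕ,
    ∃ X0 : ℕ, ∀ X : ℕ, X0 ≤ X → ∀ (N : ℕ) [NeZero N], N = 3 * X →
    ∀ q : ℕ, 1 ≤ q → (q : ℝ) ≤ (X : ℝ) ^ (4 / 5 - ε₀) → ∀ a : ℕ,
    (Nat.gcd a q : ℝ) ≤ Real.log X ^ K → ∀ ξ : ℕ → ℝ, (∀ n, 0 ≤ ξ n) →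
    (∀ n, ξ n ≠ 0 → n ≡ a [MOD q]) → ∑ n ∈ Icc 1 X, ξ n ≤ 1 →
    ((Pool.MP_dd84fd_nt.LS.spec N X ξ (1 / (Real.log X) ^ B)).card : ℝ) ≤
      q * (Real.log X) ^ K →
    ∑ n ∈ (Icc 1 X).filter (fun n => Even n ∧
      20 * (Pool.MP_dd84fd_nt.En.g n : ℝ) < Pool.MP_dd84fd_nt.En.HL n), ξ n ≤
        1 / Real.log X ^ A := by
  classical
  obtain ⟨e, he0, he1, he2⟩ : ∃ e : ℝ, 0 < e ∧ e ≤ 1 / 8 ∧ 2 * e ≤ ε₀ :=
    ⟨min (ε₀ / 2) (1 / 8), lt_min (by linarith) (by norm_num), min_le_right _ _, by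
      have := min_le_left (ε₀ / 2) (1 / 8)
      linarith⟩
  obtain ⟨C, hC⟩ := h_scale e he0 (by linarith)
  obtain ⟨η, hη, Y1, hblock⟩ := T7Final_block h_low
  refine ⟨2 * C + A + 5, fun K => ?_⟩
  obtain ⟨Y2, hscale⟩ := hC (K + A + 5) (K + 1)
  have hlog2 : 0 < Real.log 2 := Real.log_pos (by norm_num)
  set T : ℝ := 2 / η ^ 2 * (1 + 2 ^ (K + A + 5)) with hT
  have hev1 : ∀ᶠ X : ℕ in Filter.atTop, max (2048 : ℝ) (max T (2 ^ (K + 1))) ≤ Real.log X :=
    (Real.tendsto_log_atTop.comp tendsto_natCast_atTop_atTop).eventually_ge_atTop _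
  have hev2 : ∀ᶠ X : ℕ in Filter.atTop, ‖Real.log X ^ ((K + A + 2 : ℕ) : ℝ)‖ ≤
      1 / 2048 * ‖(X : ℝ) ^ (Real.log 2 * (e / 2))‖ :=
    tendsto_natCast_atTop_atTop.eventually
      ((isLittleO_log_rpow_rpow_atTop ((K + A + 2 : ℕ) : ℝ)
        (by positivity : (0 : ℝ) < Real.log 2 * (e / 2))).bound (by positivity))
  have hev3 : ∀ᶠ X : ℕ in Filter.atTop, max 4 (max (Y1 : ℝ) (Y2 : ℝ)) ≤
      (X : ℝ) ^ (3 / 40 : ℝ) :=
    ((tendsto_rpow_atTop (by norm_num : (0 : ℝ) < 3 / 40)).comp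
      tendsto_natCast_atTop_atTop).eventually_ge_atTop _
  have hev4 : ∀ᶠ X : ℕ in Filter.atTop, 2 ≤ (X : ℝ) ^ (e / 2) :=
    ((tendsto_rpow_atTop (by positivity : (0 : ℝ) < e / 2)).comp
      tendsto_natCast_atTop_atTop).eventually_ge_atTop _
  obtain ⟨X3, hX3⟩ := Filter.eventually_atTop.1 (hev1.and (hev2.and (hev3.and hev4)))
  refine ⟨max X3 1, ?_⟩
  intro X hX N _ hN q hq1 hq a ha ξ hξ hξa hsum hcard
  have hXX3 : X3 ≤ X := (le_max_left _ _).trans hX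
  have hXone : 1 ≤ X := (le_max_right _ _).trans hX
  obtain ⟨hLbig, hL2, hX4, hX5⟩ := hX3 X hXX3
  simp only [max_le_iff] at hLbig hX4
  obtain ⟨hL8, hLT, hLK⟩ := hLbig
  obtain ⟨hX4a, hX4b, hX4c⟩ := hX4
  have hX0 : (0 : ℝ) < X := by exact_mod_cast hXone
  have hX1 : (1 : ℝ) ≤ X := by exact_mod_cast hXone
  have hq0 : (0 : ℝ) < q := by exact_mod_cast hq1
  have : NeZero q := ⟨by omega⟩
  set L := Real.log X with hL
  have hL0 : 0 < L := by linarith
  have hL1 : 1 ≤ L := by linarith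
  rw [Real.rpow_natCast, Real.norm_of_nonneg (pow_nonneg hL0.le _),
    Real.norm_of_nonneg (by positivity)] at hL2
  obtain ⟨δ, hδ⟩ : ∃ δ : ℝ, δ = 1 / L ^ (2 * C + A + 5) := ⟨_, rfl⟩
  rw [← hδ] at hcard
  have hδ0 : 0 ≤ δ := by rw [hδ]; positivity
  obtain ⟨s, hs⟩ : ∃ s : ℝ, s = ((LS.spec N X ξ δ).card : ℝ) := ⟨_, rfl⟩
  rw [← hs] at hcard
  have hs0 : 0 ≤ s := by rw [hs]; positivity
  have hNX : (N : ℝ) = 3 * X := by rw [hN]; push_cast; ring
  have hN0 : (0 : ℝ) < N := by rw [hNX]; positivity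
  -- the number of blocks
  obtain ⟨m, hm⟩ : ∃ m : ℕ, m = ⌊e / 2 * L⌋₊ := ⟨_, rfl⟩
  have hm1 : (m : ℝ) ≤ e / 2 * L := by rw [hm]; exact Nat.floor_le (by positivity)
  have hm2 : e / 2 * L < m + 1 := by rw [hm]; exact Nat.lt_floor_add_one _
  have hmL : (m : ℝ) ≤ L := T7Final_r1 m e L hm1 he1 hL0.le
  have h2m : ((2 : ℝ) ^ m) ≤ (X : ℝ) ^ (e / 2) := by
    calc ((2 : ℝ) ^ m) ≤ (Real.exp 1) ^ m := by
          apply pow_le_pow_left₀ (by norm_num)
          have := Real.exp_one_gt_d9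
          linarith
      _ = Real.exp m := by rw [← Real.exp_nat_mul, mul_one]
      _ ≤ Real.exp (e / 2 * L) := Real.exp_le_exp.2 hm1
      _ = (X : ℝ) ^ (e / 2) := by
          rw [Real.rpow_def_of_pos hX0, ← hL]
          congr 1
          ring
  have h2m' : 1024 * L ^ (K + A + 2) ≤ (2 : ℝ) ^ m := by
    have h1 : (X : ℝ) ^ (Real.log 2 * (e / 2)) = (2 : ℝ) ^ (e / 2 * L) := by
      rw [Real.rpow_def_of_pos hX0, Real.rpow_def_of_pos (by norm_num : (0 : ℝ) < 2), ← hL]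
      congr 1
      ring
    have h2 : (2 : ℝ) ^ (e / 2 * L) ≤ (2 : ℝ) ^ ((m : ℝ) + 1) :=
      Real.rpow_le_rpow_of_exponent_le (by norm_num) hm2.le
    rw [Real.rpow_add (by norm_num), Real.rpow_one, Real.rpow_natCast] at h2
    rw [h1] at hL2
    linarith
  have hmpos : 1 ≤ m := by
    by_contra hcon
    have hm0 : m = 0 := by omega
    rw [hm0, pow_zero] at h2m'
    have : 1 ≤ L ^ (K + A + 2) := one_le_pow₀ hL1
    linarith
  have he3 : (X : ℝ) ^ (7 / 8 : ℝ) ≤ (X : ℝ) ^ (1 - e) :=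
    Real.rpow_le_rpow_of_exponent_le hX1 (by linarith)
  have h34 : (X : ℝ) ^ (3 / 40 : ℝ) ≤ (X : ℝ) ^ (7 / 8 : ℝ) :=
    Real.rpow_le_rpow_of_exponent_le hX1 (by norm_num)
  -- the scales
  have hYlow : ∀ i ≤ m, (X : ℝ) ^ (1 - e) ≤ ((X / 2 ^ i : ℕ) : ℝ) := by
    intro i hi
    have h1 : (X : ℝ) / 2 ^ i < ((X / 2 ^ i : ℕ) : ℝ) + 1 := by
      have h2 := Nat.lt_floor_add_one ((X : ℝ) / ((2 ^ i : ℕ) : ℝ))
      rw [Nat.floor_div_eq_div] at h2
      push_cast at h2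
      exact_mod_cast h2
    have h2 : (X : ℝ) ^ (1 - e) * 2 ≤ (X : ℝ) / 2 ^ i := by
      rw [le_div_iff₀ (by positivity)]
      have h3 : (2 : ℝ) ^ i ≤ (X : ℝ) ^ (e / 2) :=
        (pow_le_pow_right₀ (by norm_num) hi).trans h2m
      calc (X : ℝ) ^ (1 - e) * 2 * 2 ^ i ≤ (X : ℝ) ^ (1 - e) * (X : ℝ) ^ (e / 2) *
            (X : ℝ) ^ (e / 2) := by gcongr
        _ = X := by
            rw [← Real.rpow_add hX0, ← Real.rpow_add hX0]
            have : 1 - e + e / 2 + e / 2 = 1 := by ring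
            rw [this, Real.rpow_one]
    have h3 : (1 : ℝ) ≤ (X : ℝ) ^ (1 - e) := by linarith
    linarith
  have hYX : ∀ i : ℕ, X / 2 ^ i ≤ X := fun i => Nat.div_le_self _ _
  obtain ⟨M, hM⟩ : ∃ M : ℕ, M = 2 * (X / 2 ^ m) := ⟨_, rfl⟩
  have h2mN : 2 ≤ 2 ^ m := by
    calc 2 = 2 ^ 1 := by norm_num
      _ ≤ 2 ^ m := Nat.pow_le_pow_right (by norm_num) hmpos
  have hMX : M ≤ X := by
    rw [hM]
    calc 2 * (X / 2 ^ m) ≤ 2 ^ m * (X / 2 ^ m) := Nat.mul_le_mul_right _ h2mN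
      _ ≤ X := Nat.mul_div_le _ _
  have hqM : 8 * q ≤ M := by
    have h1 := hYlow m le_rfl
    have h2 : (X : ℝ) ^ (4 / 5 - ε₀) ≤ (X : ℝ) ^ (4 / 5 : ℝ) :=
      Real.rpow_le_rpow_of_exponent_le hX1 (by linarith)
    have h3 : (X : ℝ) ^ (7 / 8 : ℝ) = (X : ℝ) ^ (4 / 5 : ℝ) * (X : ℝ) ^ (3 / 40 : ℝ) := by
      rw [← Real.rpow_add hX0]
      norm_num
    have h4 : (X : ℝ) ^ (4 / 5 : ℝ) * 4 ≤ (X : ℝ) ^ (7 / 8 : ℝ) := by
      rw [h3]
      exact mul_le_mul_of_nonneg_left hX4a (by positivity)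
    have h5 : (4 : ℝ) * q ≤ ((X / 2 ^ m : ℕ) : ℝ) := by linarith
    have h6 : 4 * q ≤ X / 2 ^ m := by exact_mod_cast h5
    omega
  have hsmall := spec_small N X ξ hξ hsum δ hδ0 q M hq1 hqM (by omega) a
  rw [← hs] at hsmall
  -- decomposition
  have hdec : ∑ n ∈ (Icc 1 X).filter (fun n => Even n ∧
      20 * (Pool.MP_dd84fd_nt.En.g n : ℝ) < Pool.MP_dd84fd_nt.En.HL n), ξ n ≤
      ∑ i ∈ range m, ∑ n ∈ (Icc 1 (X / 2 ^ i)).filter
        (fun n : ℕ => T7Final_Bd n ∧ X / 2 ^ i < 2 * n ∧ (n : ZMod q) = (a : ZMod q)), ξ n +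
      ∑ n ∈ (Icc 1 X).filter (fun n => 2 * n ≤ M ∧ n ≡ a [MOD q]), ξ n := by
    have h1 : ∀ i ∈ range m, ∑ n ∈ (Icc 1 (X / 2 ^ i)).filter
        (fun n : ℕ => T7Final_Bd n ∧ X / 2 ^ i < 2 * n ∧ (n : ZMod q) = (a : ZMod q)), ξ n =
        ∑ n ∈ Icc 1 X, if n ≤ X / 2 ^ i ∧ T7Final_Bd n ∧ X / 2 ^ i < 2 * n ∧
          (n : ZMod q) = (a : ZMod q) then ξ n else 0 := by
      intro i _
      rw [← Finset.sum_filter]
      refine Finset.sum_congr ?_ fun _ _ => rfl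
      ext n
      have := hYX i
      simp only [Finset.mem_filter, Finset.mem_Icc]
      constructor
      · rintro ⟨⟨h1, h2⟩, h3⟩
        exact ⟨⟨h1, h2.trans this⟩, h2, h3⟩
      · rintro ⟨⟨h1, _⟩, h2, h3⟩
        exact ⟨⟨h1, h2⟩, h3⟩
    rw [Finset.sum_congr rfl h1, Finset.sum_comm, Finset.sum_filter, Finset.sum_filter,
      ← Finset.sum_add_distrib]
    refine Finset.sum_le_sum fun n hn => ?_
    obtain ⟨hn1, hnX⟩ := Finset.mem_Icc.1 hn
    have hnn : ∀ i ∈ range m, 0 ≤ (if n ≤ X / 2 ^ i ∧ T7Final_Bd n ∧ X / 2 ^ i < 2 * n ∧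
          (n : ZMod q) = (a : ZMod q) then ξ n else 0) := by
      intro i _
      split_ifs
      · exact hξ n
      · exact le_rfl
    have hnn2 : 0 ≤ (if 2 * n ≤ M ∧ n ≡ a [MOD q] then ξ n else 0) := by
      split_ifs
      · exact hξ n
      · exact le_rfl
    by_cases hb : Even n ∧ 20 * (Pool.MP_dd84fd_nt.En.g n : ℝ) < Pool.MP_dd84fd_nt.En.HL n
    · rw [if_pos hb]
      by_cases hz : ξ n = 0
      · rw [hz] at hnn hnn2 ⊢
        have := Finset.sum_nonneg hnn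
        linarith
      · have hmod := hξa n hz
        have hmod' : (n : ZMod q) = (a : ZMod q) := (ZMod.natCast_eq_natCast_iff _ _ _).mpr hmod
        rcases T7Final_split X n hnX m with h2 | ⟨i, hi, h2, h3⟩
        · have h4 : 2 * n ≤ M := by omega
          rw [if_pos ⟨h4, hmod⟩]
          have := Finset.sum_nonneg hnn
          linarith
        · have h4 := Finset.single_le_sum hnn (Finset.mem_range.2 hi)
          rw [if_pos ⟨h2, hb, h3, hmod'⟩] at h4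
          linarith
    · rw [if_neg hb]
      have := Finset.sum_nonneg hnn
      linarith
  refine hdec.trans ?_
  -- one block
  have hone : ∀ i ∈ range m, ∑ n ∈ (Icc 1 (X / 2 ^ i)).filter
        (fun n : ℕ => T7Final_Bd n ∧ X / 2 ^ i < 2 * n ∧ (n : ZMod q) = (a : ZMod q)), ξ n ≤
        T / 2 / L ^ (A + 3) := by
    intro i hi
    rw [mem_range] at hi
    have hlow := hYlow i hi.le
    have hYXi := hYX i
    obtain ⟨Y, hYdef⟩ : ∃ Y : ℕ, Y = X / 2 ^ i := ⟨_, rfl⟩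
    rw [← hYdef] at hlow hYXi ⊢
    have hYr : (Y : ℝ) ≤ X := by exact_mod_cast hYXi
    have hY4 : (4 : ℝ) ≤ Y := by linarith
    have hYpos : (0 : ℝ) < Y := by linarith
    have hYY1 : Y1 ≤ Y := by
      have : (Y1 : ℝ) ≤ Y := by linarith
      exact_mod_cast this
    have hYY2 : Y2 ≤ Y := by
      have : (Y2 : ℝ) ≤ Y := by linarith
      exact_mod_cast this
    have hℓL : Real.log Y ≤ L := Real.log_le_log hYpos hYr
    have hLℓ : L / 2 ≤ Real.log Y := by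
      have h4 : Real.log ((X : ℝ) ^ (1 - e)) ≤ Real.log Y := Real.log_le_log (by positivity) hlow
      rw [Real.log_rpow hX0, ← hL] at h4
      exact T7Final_r2 e L _ h4 he1 hL0.le
    obtain ⟨ℓ, hℓ⟩ : ∃ ℓ : ℝ, ℓ = Real.log Y := ⟨_, rfl⟩
    rw [← hℓ] at hℓL hLℓ
    have hℓ0 : 0 < ℓ := by linarith
    have hqY : (q : ℝ) ≤ (Y : ℝ) ^ (4 / 5 - e) := by
      have h5 : (X : ℝ) ^ (4 / 5 - ε₀) ≤ ((X : ℝ) ^ (1 - e)) ^ (4 / 5 - e) := by
        rw [← Real.rpow_mul hX0.le]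
        apply Real.rpow_le_rpow_of_exponent_le hX1
        exact T7Final_r3 e ε₀ he0 he2
      refine (hq.trans h5).trans ?_
      exact Real.rpow_le_rpow (by positivity) hlow (by linarith)
    have hqY' : (q : ℝ) ≤ (Y : ℝ) ^ (4 / 5 : ℝ) :=
      hqY.trans (Real.rpow_le_rpow_of_exponent_le (by linarith) (by linarith))
    have hgcd : (Nat.gcd (a : ZMod q).val q : ℝ) ≤ Real.log Y ^ (K + 1) := by
      rw [← hℓ, ZMod.val_natCast, ← Nat.gcd_rec, Nat.gcd_comm]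
      refine ha.trans ?_
      calc L ^ K ≤ (2 * ℓ) ^ K := pow_le_pow_left₀ hL0.le (by linarith) K
        _ = 2 ^ K * ℓ ^ K := mul_pow _ _ _
        _ ≤ ℓ * ℓ ^ K := by
            refine mul_le_mul_of_nonneg_right ?_ (by positivity)
            rw [pow_succ] at hLK
            linarith
        _ = ℓ ^ (K + 1) := by ring
    have hb := hblock Y hYY1 q hqY' (a : ZMod q) ξ hξ
    rw [← hℓ] at hb
    have hsc := hscale Y hYY2 X N hYXi (by omega) (by omega) ξ hξ hsum δ hδ0 q hqY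
      (a : ZMod q) hgcd
    rw [← hs, ← hℓ] at hsc
    refine hb.trans ((mul_le_mul_of_nonneg_left hsc (by positivity)).trans ?_)
    have e1 : δ * (Y * ℓ ^ C) ^ 2 ≤ (Y : ℝ) ^ 2 * (1 / L ^ (A + 5)) := by
      have h6 : δ * ℓ ^ (2 * C) ≤ 1 / L ^ (A + 5) := by
        rw [hδ, one_div_mul_eq_div, div_le_div_iff₀ (by positivity) (by positivity), one_mul]
        calc ℓ ^ (2 * C) * L ^ (A + 5) ≤ L ^ (2 * C) * L ^ (A + 5) := by gcongr
          _ = L ^ (2 * C + A + 5) := by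
              rw [← pow_add]
              congr 1
      calc δ * (Y * ℓ ^ C) ^ 2 = (Y : ℝ) ^ 2 * (δ * ℓ ^ (2 * C)) := by
            rw [mul_pow, ← pow_mul, mul_comm C 2]
            ring
        _ ≤ _ := mul_le_mul_of_nonneg_left h6 (by positivity)
    have e2 : s / N * (Y ^ 3 / (q * ℓ ^ (K + A + 5))) ≤
        (Y : ℝ) ^ 2 * (2 ^ (K + A + 5) / L ^ (A + 5)) := by
      have h7 : s / N * (Y ^ 3 / (q * ℓ ^ (K + A + 5))) ≤
          (q * L ^ K) / (3 * X) * (Y ^ 3 / (q * ℓ ^ (K + A + 5))) := by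
        rw [hNX]
        refine mul_le_mul_of_nonneg_right ?_ (by positivity)
        exact div_le_div_of_nonneg_right hcard (by positivity)
      have h8 : (q * L ^ K) / (3 * X) * ((Y : ℝ) ^ 3 / (q * ℓ ^ (K + A + 5))) =
          (Y : ℝ) ^ 2 * ((Y / X) / 3 * (L ^ K / ℓ ^ (K + A + 5))) := by
        field_simp
      have h9 : (Y : ℝ) / X ≤ 1 := (div_le_one hX0).mpr hYr
      have h10 : L ^ K / ℓ ^ (K + A + 5) ≤ 2 ^ (K + A + 5) / L ^ (A + 5) := by
        rw [div_le_div_iff₀ (by positivity) (by positivity)]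
        calc L ^ K * L ^ (A + 5) = L ^ (K + A + 5) := by
              rw [← pow_add]
              congr 1
          _ ≤ (2 * ℓ) ^ (K + A + 5) := pow_le_pow_left₀ hL0.le (by linarith) _
          _ = 2 ^ (K + A + 5) * ℓ ^ (K + A + 5) := mul_pow _ _ _
      have h11 : (Y : ℝ) / X / 3 * (L ^ K / ℓ ^ (K + A + 5)) ≤ 1 * (L ^ K / ℓ ^ (K + A + 5)) := by
        refine mul_le_mul_of_nonneg_right ?_ (by positivity)
        linarith
      refine h7.trans (h8.le.trans (mul_le_mul_of_nonneg_left ?_ (by positivity)))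
      linarith
    calc ℓ ^ 2 / (η ^ 2 * (Y : ℝ) ^ 2) * (δ * (Y * ℓ ^ C) ^ 2 +
          s / N * (Y ^ 3 / (q * ℓ ^ (K + A + 5))))
        ≤ L ^ 2 / (η ^ 2 * (Y : ℝ) ^ 2) * ((Y : ℝ) ^ 2 * (1 / L ^ (A + 5)) +
          (Y : ℝ) ^ 2 * (2 ^ (K + A + 5) / L ^ (A + 5))) := by
          refine mul_le_mul ?_ (add_le_add e1 e2) (by positivity) (by positivity)
          refine div_le_div_of_nonneg_right ?_ (by positivity)
          exact pow_le_pow_left₀ hℓ0.le hℓL 2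
      _ = T / 2 / L ^ (A + 3) := by
          have e3 : L ^ (A + 5) = L ^ (A + 3) * L ^ 2 := by rw [← pow_add]
          rw [hT, e3]
          field_simp
  have hsecond : ∑ i ∈ range m, ∑ n ∈ (Icc 1 (X / 2 ^ i)).filter
        (fun n : ℕ => T7Final_Bd n ∧ X / 2 ^ i < 2 * n ∧ (n : ZMod q) = (a : ZMod q)), ξ n ≤
        1 / 2 * (1 / L ^ A) := by
    refine (Finset.sum_le_sum hone).trans ?_
    rw [sum_const, card_range, nsmul_eq_mul]
    have h1 : (m : ℝ) * (T / 2 / L ^ (A + 3)) ≤ L * (L / 2 / L ^ (A + 3)) := by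
      have hT0 : 0 ≤ T := by rw [hT]; positivity
      refine mul_le_mul hmL ?_ (by positivity) hL0.le
      refine div_le_div_of_nonneg_right ?_ (by positivity)
      linarith
    refine h1.trans ?_
    have h2 : L * (L / 2 / L ^ (A + 3)) = 1 / 2 * (1 / L ^ A) * (1 / L) := by
      rw [pow_add]
      field_simp
    rw [h2]
    have h3 : 1 / L ≤ 1 := (div_le_one hL0).mpr hL1
    have h4 : 0 ≤ 1 / 2 * (1 / L ^ A) := by positivity
    exact mul_le_of_le_one_right h4 h3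
  have hfirst : ∑ n ∈ (Icc 1 X).filter (fun n => 2 * n ≤ M ∧ n ≡ a [MOD q]), ξ n ≤
      1 / 2 * (1 / L ^ A) := by
    refine hsmall.trans ?_
    have h1 : 256 * δ ≤ 1 / 8 * (1 / L ^ A) := by
      rw [hδ]
      have h2 : L ^ (2 * C + A + 5) = L ^ A * L ^ (2 * C + 5) := by
        rw [← pow_add]
        congr 1
        ring
      have h3 : (2048 : ℝ) ≤ L ^ (2 * C + 5) := by
        calc (2048 : ℝ) ≤ L := hL8
          _ = L ^ 1 := (pow_one L).symm
          _ ≤ L ^ (2 * C + 5) := pow_le_pow_right₀ hL1 (by omega)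
      have h4 : 1 / 8 * (1 / L ^ A) = 1 / (8 * L ^ A) := by
        field_simp
      rw [h2, h4, mul_one_div, div_le_div_iff₀ (by positivity) (by positivity)]
      have h5 := mul_le_mul_of_nonneg_left h3 (pow_pos hL0 A).le
      linarith
    have h2 : 256 * (s / N * (M / q)) ≤ 1 / 4 * (1 / L ^ A) := by
      have hMle : (M : ℝ) ≤ 2 * (X / 2 ^ m) := by
        have h5 : ((X / 2 ^ m : ℕ) : ℝ) ≤ X / ((2 ^ m : ℕ) : ℝ) := Nat.cast_div_le
        rw [hM]
        push_cast at h5 ⊢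
        linarith
      calc 256 * (s / N * (M / q))
          ≤ 256 * ((q * L ^ K) / (3 * X) * (2 * (X / 2 ^ m) / q)) := by
            rw [hNX]
            refine mul_le_mul_of_nonneg_left (mul_le_mul ?_ ?_ (by positivity) (by positivity))
              (by norm_num)
            · exact div_le_div_of_nonneg_right hcard (by positivity)
            · exact div_le_div_of_nonneg_right hMle (by positivity)
        _ = 512 / 3 * L ^ K / 2 ^ m := by
            field_simp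
            ring
        _ ≤ 512 / 3 * L ^ K / (1024 * L ^ (K + A + 2)) := by
            exact div_le_div_of_nonneg_left (by positivity) (by positivity) h2m'
        _ = 1 / 6 * (1 / L ^ A) * (1 / L ^ 2) := by
            have h6 : L ^ (K + A + 2) = L ^ K * L ^ A * L ^ 2 := by
              rw [← pow_add, ← pow_add]
            rw [h6]
            field_simp
            norm_num
        _ ≤ 1 / 6 * (1 / L ^ A) := by
            have h3 : 1 / L ^ 2 ≤ 1 := (div_le_one (by positivity)).mpr (one_le_pow₀ hL1)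
            exact mul_le_of_le_one_right (by positivity) h3
        _ ≤ 1 / 4 * (1 / L ^ A) := by
            have : 0 ≤ 1 / L ^ A := by positivity
            linarith
    have h3 : 0 ≤ 1 / L ^ A := by positivity
    linarith
  linarith

end Pool.MP_dd84fd_nt.T7
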