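import Pool.Agent.Lib.MP_dd84fd_nt.T7.Defs
import Pool.Agent.Lib.MP_dd84fd_nt.L2G.ClassSplit

/-!
T7-49 Fz2Split. Copy of Fz_split (L2G/ClassSplit) with two functions.
-/

set_option autoImplicit false

namespace Pool.MP_dd84fd_nt.T7

open Finset Pool.MP_67663b_nt.Odd Pool.MP_dd84fd_nt.L2G

/-- the phase `e(n c / m)` depends only on `n mod m` -/
private theorem Fz2Split_phase (m : ℕ) [NeZero m] (n : ℕ) (c : ℤ) (φ : ℝ) :
    ee ((n : ℝ) * ((c : ℝ) / (m : ℕ) + φ)) =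
      ee (((n : ZMod m).val : ℝ) * ((c : ℝ) / (m : ℕ))) * ee ((n : ℝ) * φ) := by
  rw [ZMod.val_natCast]
  have hm : (m : ℝ) ≠ 0 := by exact_mod_cast NeZero.ne m
  have h1 : (n : ℝ) = ((n % m : ℕ) : ℝ) + (m : ℝ) * ((n / m : ℕ) : ℝ) := by
    exact_mod_cast (Nat.mod_add_div n m).symm
  rw [← ee_add]
  generalize n % m = u at h1 ⊢
  generalize n / m = v at h1 ⊢
  have h2 : (n : ℝ) * ((c : ℝ) / (m : ℕ) + φ) =
      (u : ℝ) * ((c : ℝ) / (m : ℕ)) + n * φ + (((v : ℤ) * c : ℤ) : ℝ) := by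
    rw [mul_add, h1]
    push_cast
    field_simp
    ring
  rw [h2, ee_add_int]

private theorem Fz2Split_val (q t n : ℕ) :
    (((n : ZMod (q * t)).val : ℕ) : ZMod q) = (n : ZMod q) := by
  rw [ZMod.val_natCast, ZMod.natCast_eq_natCast_iff]
  exact (Nat.mod_modEq n (q * t)).of_dvd (Dvd.intro t rfl)

private theorem Fz2Split_eq (X q t : ℕ) [NeZero q] [NeZero t] (f g : ℕ → ℝ) (φ : ℝ) (c : ℤ)
    (a : ZMod q) :
    Fz2 X q f g ((c : ℝ) / (q * t : ℕ) + φ) a =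
      ∑ a' ∈ univ.filter (fun a' : ZMod (q * t) => ((a'.val : ℕ) : ZMod q) = a),
        ee ((a'.val : ℝ) * ((c : ℝ) / (q * t : ℕ))) * Fz2 X (q * t) f g φ a' := by
  have hmaps : ∀ n ∈ (range (2 * X + 1)).filter (fun n : ℕ => (n : ZMod q) = a),
      (n : ZMod (q * t)) ∈ univ.filter (fun a' : ZMod (q * t) => ((a'.val : ℕ) : ZMod q) = a) := by
    intro n hn
    rw [Finset.mem_filter] at hn ⊢
    exact ⟨Finset.mem_univ _, (Fz2Split_val q t n).trans hn.2⟩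
  unfold Fz2
  rw [← Finset.sum_fiberwise_of_maps_to hmaps]
  refine Finset.sum_congr rfl fun a' ha' => ?_
  rw [Finset.mem_filter] at ha'
  have hset : ((range (2 * X + 1)).filter (fun n : ℕ => (n : ZMod q) = a)).filter
      (fun n : ℕ => (n : ZMod (q * t)) = a') =
      (range (2 * X + 1)).filter (fun n : ℕ => (n : ZMod (q * t)) = a') := by
    ext n
    simp only [Finset.mem_filter]
    constructor
    · rintro ⟨⟨h1, _⟩, h3⟩
      exact ⟨h1, h3⟩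
    · rintro ⟨h1, h3⟩
      refine ⟨⟨h1, ?_⟩, h3⟩
      rw [← Fz2Split_val q t n, h3]
      exact ha'.2
  rw [hset, Finset.mul_sum]
  refine Finset.sum_congr rfl fun n hn => ?_
  rw [Finset.mem_filter] at hn
  rw [Fz2Split_phase (q * t) n c φ, hn.2]
  ring

theorem Fz2_split (X q t : ℕ) [NeZero q] [NeZero t] (f g f' g' : ℕ → ℝ) (φ : ℝ) (c : ℤ)
    (a : ZMod q) :
    ‖Fz2 X q f g ((c : ℝ) / (q * t : ℕ) + φ) a - Fz2 X q f' g' ((c : ℝ) / (q * t : ℕ) + φ) a‖ ≤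
      ∑ a' ∈ univ.filter (fun a' : ZMod (q * t) => ((a'.val : ℕ) : ZMod q) = a),
        ‖Fz2 X (q * t) f g φ a' - Fz2 X (q * t) f' g' φ a'‖ := by
  rw [Fz2Split_eq X q t f g φ c a, Fz2Split_eq X q t f' g' φ c a, ← Finset.sum_sub_distrib]
  refine (norm_sum_le _ _).trans (Finset.sum_le_sum fun a' _ => ?_)
  rw [← mul_sub, norm_mul, norm_ee, one_mul]

end Pool.MP_dd84fd_nt.T7
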