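import Pool.Agent.Lib.MP_dd84fd_nt.T7.Defs
import Pool.Agent.Lib.MP_dd84fd_nt.L2G.BadAlg

/-!
T7-50 BadAlg2 (compare bad_alg and the ba_ lemmas in L2G/BadAlg, which are public). For units b: fz f b = u_f(b) + v_f(b), u_f = ba_part over chi in {1} union Bf, v_f = ba_part over the rest (chi not in Bf, chi != 1); same for g; the ba_part vanish at non-units.
Sum over b of (u_f+v_f)(b) (u_g+v_g)(a-b). u_f u_g: ba_main for two functions (same computation): (1/phi^2) sum_{chi,psi} Tc f chi Tc g psi Jc(a, chi^-1, psi^-1); the pair (1,1) is the main term (ba_Jc_one), the others <= Tf Tg J/phi^2.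
The other three by Cauchy (ba_cs) and ba_part_sq: sum_b|u_f|^2 <= Gf/phi, sum_b|v_f|^2 <= Ef/phi.
-/

set_option autoImplicit false

namespace Pool.MP_dd84fd_nt.T7

open Finset Pool.MP_67663b_nt.Odd Pool.MP_dd84fd_nt.L2G

private theorem BadAlg2_main (X q : ℕ) [NeZero q] (f g : ℕ → ℝ) (θ : ℝ) (a : ZMod q)
    (P Q : DirichletCharacter ℂ q → Prop) [DecidablePred P] [DecidablePred Q] :
    ∑ b : ZMod q, ba_part X q f θ P b * ba_part X q g θ Q (a - b) =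
      ∑ χ ∈ univ.filter P, ∑ ψ ∈ univ.filter Q,
        Tc X q f θ χ * Tc X q g θ ψ * Jc q a χ⁻¹ ψ⁻¹ / (Nat.totient q : ℂ) ^ 2 := by
  classical
  have h1 : ∀ (f : ℕ → ℝ) (P : DirichletCharacter ℂ q → Prop) [DecidablePred P] (b : ZMod q),
      ba_part X q f θ P b =
      (1 / (Nat.totient q : ℂ)) * ∑ χ ∈ univ.filter P,
        (χ⁻¹ : DirichletCharacter ℂ q) b * Tc X q f θ χ := by
    intro f P _ b
    unfold ba_part
    rw [Finset.sum_filter]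
    congr 1
    refine Finset.sum_congr rfl fun χ _ => ?_
    split_ifs
    · rfl
    · rw [mul_zero]
  simp only [h1]
  have h2 : ∀ b : ZMod q, ((1 / (Nat.totient q : ℂ)) * ∑ χ ∈ univ.filter P,
        (χ⁻¹ : DirichletCharacter ℂ q) b * Tc X q f θ χ) *
      ((1 / (Nat.totient q : ℂ)) * ∑ χ ∈ univ.filter Q,
        (χ⁻¹ : DirichletCharacter ℂ q) (a - b) * Tc X q g θ χ) =
      ∑ χ ∈ univ.filter P, ∑ ψ ∈ univ.filter Q,
        (Tc X q f θ χ * Tc X q g θ ψ / (Nat.totient q : ℂ) ^ 2) *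
        ((χ⁻¹ : DirichletCharacter ℂ q) b * (ψ⁻¹ : DirichletCharacter ℂ q) (a - b)) := by
    intro b
    have h3 : ∀ x y : ℂ, ((1 / (Nat.totient q : ℂ)) * x) * ((1 / (Nat.totient q : ℂ)) * y) =
        (1 / (Nat.totient q : ℂ)) ^ 2 * (x * y) := fun x y => by ring
    rw [h3, Finset.sum_mul_sum, Finset.mul_sum]
    refine Finset.sum_congr rfl fun χ _ => ?_
    rw [Finset.mul_sum]
    refine Finset.sum_congr rfl fun ψ _ => ?_
    ring
  rw [Finset.sum_congr rfl (fun b _ => h2 b), Finset.sum_comm]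
  refine Finset.sum_congr rfl fun χ _ => ?_
  rw [Finset.sum_comm]
  refine Finset.sum_congr rfl fun ψ _ => ?_
  rw [← Finset.mul_sum]
  unfold Jc
  ring

theorem bad_alg2 (X q : ℕ) [NeZero q] (f g : ℕ → ℝ) (θ : ℝ) (a : ZMod q)
    (𝓑f 𝓑g : Finset (DirichletCharacter ℂ q)) (h1f : (1 : DirichletCharacter ℂ q) ∉ 𝓑f)
    (h1g : (1 : DirichletCharacter ℂ q) ∉ 𝓑g) (Ef Eg Gf Gg Tf Tg J : ℝ)
    (hEf : 0 ≤ Ef) (hEg : 0 ≤ Eg)
    (hTf : ∀ χ, ‖Tc X q f θ χ‖ ≤ Tf) (hTg : ∀ χ, ‖Tc X q g θ χ‖ ≤ Tg)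
    (hgf : ∑ χ ∈ univ.filter (fun χ => χ ∉ 𝓑f ∧ χ ≠ 1), ‖Tc X q f θ χ‖ ^ 2 ≤ Ef)
    (hgg : ∑ χ ∈ univ.filter (fun χ => χ ∉ 𝓑g ∧ χ ≠ 1), ‖Tc X q g θ χ‖ ^ 2 ≤ Eg)
    (hGf : ∑ χ : DirichletCharacter ℂ q, ‖Tc X q f θ χ‖ ^ 2 ≤ Gf)
    (hGg : ∑ χ : DirichletCharacter ℂ q, ‖Tc X q g θ χ‖ ^ 2 ≤ Gg)
    (hJ : ∑ x ∈ ((insert 1 𝓑f) ×ˢ (insert 1 𝓑g)).filter (fun x => x ≠ (1, 1)),
      ‖Jc q a x.1⁻¹ x.2⁻¹‖ ≤ J) :
    ‖∑ b ∈ univ.filter (fun b : ZMod q => IsUnit b ∧ IsUnit (a - b)),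
        fz X q f θ b * fz X q g θ (a - b) -
      Tc X q f θ 1 * Tc X q g θ 1 * ((Nc q a : ℝ) / (Nat.totient q : ℝ) ^ 2 : ℝ)‖ ≤
      Tf * Tg * J / (Nat.totient q : ℝ) ^ 2 +
        (Real.sqrt (Gf * Eg) + Real.sqrt (Ef * Gg) + Real.sqrt (Ef * Eg)) /
          (Nat.totient q : ℝ) := by
  classical
  have hq : 0 < q := Nat.pos_of_ne_zero (NeZero.ne q)
  have hphi : (0 : ℝ) < (Nat.totient q : ℝ) := by
    have := Nat.totient_pos.mpr hq
    exact_mod_cast this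
  have hTf0 : 0 ≤ Tf := (norm_nonneg _).trans (hTf 1)
  have hTg0 : 0 ≤ Tg := (norm_nonneg _).trans (hTg 1)
  have hGf0 : 0 ≤ Gf := le_trans (Finset.sum_nonneg fun _ _ => by positivity) hGf
  have hGg0 : 0 ≤ Gg := le_trans (Finset.sum_nonneg fun _ _ => by positivity) hGg
  set Pf : DirichletCharacter ℂ q → Prop := fun χ => χ ∈ 𝓑f ∨ χ = 1 with hPf
  set Pg : DirichletCharacter ℂ q → Prop := fun χ => χ ∈ 𝓑g ∨ χ = 1 with hPg
  have hsplit : ∀ (f : ℕ → ℝ) (P : DirichletCharacter ℂ q → Prop) [DecidablePred P]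
      [DecidablePred (fun χ => ¬ P χ)] (b : ZMod q), IsUnit b →
      fz X q f θ b = ba_part X q f θ P b + ba_part X q f θ (fun χ => ¬ P χ) b := by
    intro f P _ _ b hb
    rw [fz_char X q f θ b hb]
    unfold ba_part
    rw [← mul_add, ← Finset.sum_add_distrib]
    congr 1
    refine Finset.sum_congr rfl fun χ _ => ?_
    by_cases h : P χ
    · rw [if_pos h, if_neg (not_not.mpr h)]; ring
    · rw [if_neg h, if_pos h]; ring
  have hzero : ∀ (f : ℕ → ℝ) (P : DirichletCharacter ℂ q → Prop) [DecidablePred P] (b : ZMod q),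
      ¬ IsUnit b → ba_part X q f θ P b = 0 := by
    intro f P _ b hb
    unfold ba_part
    rw [Finset.sum_eq_zero, mul_zero]
    intro χ _
    rw [MulChar.map_nonunit _ hb, zero_mul]
  set uf : ZMod q → ℂ := ba_part X q f θ Pf with huf
  set vf : ZMod q → ℂ := ba_part X q f θ (fun χ => ¬ Pf χ) with hvf
  set ug : ZMod q → ℂ := ba_part X q g θ Pg with hug
  set vg : ZMod q → ℂ := ba_part X q g θ (fun χ => ¬ Pg χ) with hvg
  have hsum : ∑ b ∈ univ.filter (fun b : ZMod q => IsUnit b ∧ IsUnit (a - b)),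
      fz X q f θ b * fz X q g θ (a - b) =
      ∑ b : ZMod q, uf b * ug (a - b) + (∑ b : ZMod q, uf b * vg (a - b) +
        ∑ b : ZMod q, vf b * ug (a - b)) + ∑ b : ZMod q, vf b * vg (a - b) := by
    rw [Finset.sum_filter, ← Finset.sum_add_distrib, ← Finset.sum_add_distrib,
      ← Finset.sum_add_distrib]
    refine Finset.sum_congr rfl fun b _ => ?_
    by_cases h2 : IsUnit b
    · by_cases h3 : IsUnit (a - b)
      · rw [if_pos ⟨h2, h3⟩, hsplit f Pf b h2, hsplit g Pg (a - b) h3, ← huf, ← hvf, ← hug, ← hvg]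
        ring
      · rw [if_neg (fun h => h3 h.2), hug, hvg, hzero g _ _ h3, hzero g _ _ h3]
        ring
    · rw [if_neg (fun h => h2 h.1), huf, hvf, hzero f _ _ h2, hzero f _ _ h2]
      ring
  have hsqv : ∀ (f : ℕ → ℝ) (𝓑 : Finset (DirichletCharacter ℂ q)) (E : ℝ)
      [DecidablePred (fun χ => ¬ (χ ∈ 𝓑 ∨ χ = 1))],
      ∑ χ ∈ univ.filter (fun χ => χ ∉ 𝓑 ∧ χ ≠ 1), ‖Tc X q f θ χ‖ ^ 2 ≤ E →
      ∑ b : ZMod q, ‖ba_part X q f θ (fun χ => ¬ (χ ∈ 𝓑 ∨ χ = 1)) b‖ ^ 2 ≤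
        E / (Nat.totient q : ℝ) := by
    intro f 𝓑 E _ h
    rw [ba_part_sq]
    refine div_le_div_of_nonneg_right ?_ hphi.le
    refine le_trans (le_of_eq ?_) h
    refine Finset.sum_congr ?_ fun _ _ => rfl
    ext χ
    simp only [Finset.mem_filter, Finset.mem_univ, true_and, not_or]
  have hsqu : ∀ (f : ℕ → ℝ) (P : DirichletCharacter ℂ q → Prop) [DecidablePred P] (G : ℝ),
      ∑ χ : DirichletCharacter ℂ q, ‖Tc X q f θ χ‖ ^ 2 ≤ G →
      ∑ b : ZMod q, ‖ba_part X q f θ P b‖ ^ 2 ≤ G / (Nat.totient q : ℝ) := by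
    intro f P _ G h
    rw [ba_part_sq]
    refine div_le_div_of_nonneg_right ?_ hphi.le
    refine le_trans ?_ h
    exact Finset.sum_le_sum_of_subset_of_nonneg (Finset.filter_subset _ _)
      (fun _ _ _ => by positivity)
  have hvfsq : ∑ b : ZMod q, ‖vf b‖ ^ 2 ≤ Ef / (Nat.totient q : ℝ) := hsqv f 𝓑f Ef hgf
  have hvgsq : ∑ b : ZMod q, ‖vg b‖ ^ 2 ≤ Eg / (Nat.totient q : ℝ) := hsqv g 𝓑g Eg hgg
  have hufsq : ∑ b : ZMod q, ‖uf b‖ ^ 2 ≤ Gf / (Nat.totient q : ℝ) := hsqu f Pf Gf hGf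
  have hugsq : ∑ b : ZMod q, ‖ug b‖ ^ 2 ≤ Gg / (Nat.totient q : ℝ) := hsqu g Pg Gg hGg
  have hnn : ∀ u : ZMod q → ℂ, 0 ≤ ∑ b : ZMod q, ‖u b‖ ^ 2 := fun u =>
    Finset.sum_nonneg fun _ _ => by positivity
  have key : ∀ x y E S : ℝ, 0 ≤ E → 0 ≤ S → x ≤ E / (Nat.totient q : ℝ) → 0 ≤ x →
      y ≤ S / (Nat.totient q : ℝ) → 0 ≤ y →
      Real.sqrt (x * y) ≤ Real.sqrt (E * S) / (Nat.totient q : ℝ) := by
    intro x y E S hE hS hx hx0 hy hy0
    rw [Real.sqrt_le_left (by positivity), div_pow, Real.sq_sqrt (by positivity)]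
    calc x * y ≤ E / (Nat.totient q : ℝ) * (S / (Nat.totient q : ℝ)) := by
          gcongr
      _ = E * S / (Nat.totient q : ℝ) ^ 2 := by ring
  have e1 : ‖∑ b : ZMod q, uf b * vg (a - b)‖ ≤ Real.sqrt (Gf * Eg) / (Nat.totient q : ℝ) :=
    (ba_cs q uf vg a).trans (key _ _ _ _ hGf0 hEg hufsq (hnn _) hvgsq (hnn _))
  have e2 : ‖∑ b : ZMod q, vf b * ug (a - b)‖ ≤ Real.sqrt (Ef * Gg) / (Nat.totient q : ℝ) :=
    (ba_cs q vf ug a).trans (key _ _ _ _ hEf hGg0 hvfsq (hnn _) hugsq (hnn _))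
  have e3 : ‖∑ b : ZMod q, vf b * vg (a - b)‖ ≤ Real.sqrt (Ef * Eg) / (Nat.totient q : ℝ) :=
    (ba_cs q vf vg a).trans (key _ _ _ _ hEf hEg hvfsq (hnn _) hvgsq (hnn _))
  -- the main part
  have hmain := BadAlg2_main X q f g θ a Pf Pg
  have hfilf : univ.filter Pf = insert 1 𝓑f := by
    ext χ
    simp only [Finset.mem_filter, Finset.mem_univ, true_and, hPf, Finset.mem_insert]
    exact or_comm
  have hfilg : univ.filter Pg = insert 1 𝓑g := by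
    ext χ
    simp only [Finset.mem_filter, Finset.mem_univ, true_and, hPg, Finset.mem_insert]
    exact or_comm
  have e4 : ‖∑ b : ZMod q, uf b * ug (a - b) -
      Tc X q f θ 1 * Tc X q g θ 1 * ((Nc q a : ℝ) / (Nat.totient q : ℝ) ^ 2 : ℝ)‖ ≤
      Tf * Tg * J / (Nat.totient q : ℝ) ^ 2 := by
    rw [huf, hug, hmain, hfilf, hfilg, ← Finset.sum_product']
    have h11 : ((1 : DirichletCharacter ℂ q), (1 : DirichletCharacter ℂ q)) ∈
        (insert 1 𝓑f) ×ˢ (insert 1 𝓑g) := by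
      rw [Finset.mem_product]
      exact ⟨Finset.mem_insert_self _ _, Finset.mem_insert_self _ _⟩
    rw [← Finset.add_sum_erase _ _ h11]
    have h12 : Tc X q f θ (1 : DirichletCharacter ℂ q) * Tc X q g θ 1 *
        Jc q a (1 : DirichletCharacter ℂ q)⁻¹ (1 : DirichletCharacter ℂ q)⁻¹ /
          (Nat.totient q : ℂ) ^ 2 =
        Tc X q f θ 1 * Tc X q g θ 1 * ((Nc q a : ℝ) / (Nat.totient q : ℝ) ^ 2 : ℝ) := by
      rw [inv_one, ba_Jc_one]
      push_cast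
      ring
    simp only
    rw [h12, add_sub_cancel_left]
    refine (norm_sum_le _ _).trans ?_
    have h13 : ∀ x ∈ ((insert 1 𝓑f) ×ˢ (insert 1 𝓑g) :
        Finset (DirichletCharacter ℂ q × DirichletCharacter ℂ q)).erase (1, 1),
        ‖Tc X q f θ x.1 * Tc X q g θ x.2 * Jc q a x.1⁻¹ x.2⁻¹ / (Nat.totient q : ℂ) ^ 2‖ ≤
        Tf * Tg / (Nat.totient q : ℝ) ^ 2 * ‖Jc q a x.1⁻¹ x.2⁻¹‖ := by
      intro x _
      rw [norm_div, norm_mul, norm_mul, norm_pow, Complex.norm_natCast, div_mul_eq_mul_div]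
      refine div_le_div_of_nonneg_right ?_ (by positivity)
      apply mul_le_mul_of_nonneg_right _ (norm_nonneg _)
      exact mul_le_mul (hTf x.1) (hTg x.2) (norm_nonneg _) hTf0
    refine (Finset.sum_le_sum h13).trans ?_
    rw [← Finset.mul_sum]
    have h14 : ∑ x ∈ ((insert 1 𝓑f) ×ˢ (insert 1 𝓑g) :
        Finset (DirichletCharacter ℂ q × DirichletCharacter ℂ q)).erase (1, 1),
        ‖Jc q a x.1⁻¹ x.2⁻¹‖ ≤ J := by
      refine le_trans (le_of_eq ?_) hJ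
      refine Finset.sum_congr ?_ fun _ _ => rfl
      ext x
      simp only [Finset.mem_erase, Finset.mem_filter]
      exact and_comm
    calc Tf * Tg / (Nat.totient q : ℝ) ^ 2 * _ ≤ Tf * Tg / (Nat.totient q : ℝ) ^ 2 * J :=
          mul_le_mul_of_nonneg_left h14 (by positivity)
      _ = _ := by ring
  rw [hsum]
  have e5 : ∀ A B C D F : ℂ, A + (B + C) + D - F = (A - F) + (B + C) + D := fun A B C D F => by ring
  rw [e5]
  refine (norm_add_le _ _).trans ?_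
  refine (add_le_add ((norm_add_le _ _).trans (add_le_add e4 ((norm_add_le _ _).trans
    (add_le_add e1 e2)))) e3).trans (le_of_eq ?_)
  ring

end Pool.MP_dd84fd_nt.T7
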