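import Pool.Agent.Lib.MP_dd84fd_nt.T7.Defs
import Pool.Agent.Lib.MP_dd84fd_nt.L2G.PV
import Pool.Agent.Lib.MP_dd84fd_nt.L2G.CharOrth

/-!
T7-07 HM (Halasz-Montgomery). Duality. Put A(chi) = sum c_n chi(n), b_chi = conj A(chi). sum_{S}|A|^2 = sum_n c_n sum_{chi in S} b_chi chi(n) <= (sum|c_n|^2)^(1/2) (sum_{n<=N} |sum_chi b_chi chi(n)|^2)^(1/2),
and the last sum is sum_{chi,psi in S} b_chi conj b_psi sum_{n<=N} chi(n) conj psi(n): diagonal <= N sum|b|^2, off-diagonal: chi psi^-1 != 1, pv (L2G/PV, r = 1, c = 0, g = 1, G = 1, M = 1, N+1), |b b'| <= (|b|^2+|b'|^2)/2.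
Divide by (sum |A|^2)^(1/2) (if it is 0 nothing to prove).
-/

set_option autoImplicit false

namespace Pool.MP_dd84fd_nt.T7

open Finset Pool.MP_67663b_nt.Odd Pool.MP_dd84fd_nt.L2G

private theorem hm_conj (q : ℕ) [NeZero q] (ψ : DirichletCharacter ℂ q) (b : ZMod q) :
    (starRingEnd ℂ) (ψ b) = (ψ⁻¹ : DirichletCharacter ℂ q) b := by
  by_cases hb : IsUnit b
  · rw [co_char_conj q ψ b hb, co_inv_apply q ψ b hb]
  · rw [MulChar.map_nonunit ψ hb, MulChar.map_nonunit _ hb, map_zero]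

private theorem hm_pair (q : ℕ) [NeZero q] (N : ℕ) (χ ψ : DirichletCharacter ℂ q) (h : χ ≠ ψ) :
    ‖∑ n ∈ Icc 1 N, χ n * (starRingEnd ℂ) (ψ n)‖ ≤
      (q.divisors.card : ℝ) * Real.sqrt q * (1 + Real.log q) := by
  have h1 : ∑ n ∈ Icc 1 N, χ n * (starRingEnd ℂ) (ψ n) =
      ∑ n ∈ Ico 1 (N + 1), (χ * ψ⁻¹ : DirichletCharacter ℂ q) n := by
    have : Icc 1 N = Ico 1 (N + 1) := by
      ext n; simp only [mem_Icc, mem_Ico]; omega
    rw [this]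
    refine Finset.sum_congr rfl fun n _ => ?_
    rw [hm_conj, MulChar.mul_apply]
  rw [h1]
  refine PV_all q (χ * ψ⁻¹) ?_ 1 (N + 1)
  intro h2
  exact h (mul_inv_eq_one.mp h2)

theorem hm : ∃ C : ℝ, 0 < C ∧ ∀ (q : ℕ) [NeZero q] (N : ℕ) (c : ℕ → ℂ)
    (S : Finset (DirichletCharacter ℂ q)),
    ∑ χ ∈ S, ‖∑ n ∈ Icc 1 N, c n * χ n‖ ^ 2 ≤
      ((N : ℝ) + S.card * (C * (q.divisors.card : ℝ) * Real.sqrt q * (1 + Real.log q))) *
        ∑ n ∈ Icc 1 N, ‖c n‖ ^ 2 := by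
  classical
  refine ⟨1, one_pos, ?_⟩
  intro q _ N c S
  have hq0 : 0 < q := Nat.pos_of_ne_zero (NeZero.ne q)
  have hlog : 0 ≤ Real.log q := Real.log_nonneg (by exact_mod_cast hq0)
  rw [one_mul]
  set D : ℝ := (q.divisors.card : ℝ) * Real.sqrt q * (1 + Real.log q) with hD
  have hD0 : 0 ≤ D := by rw [hD]; positivity
  set A : DirichletCharacter ℂ q → ℂ := fun χ => ∑ n ∈ Icc 1 N, c n * χ n with hA
  set b : DirichletCharacter ℂ q → ℂ := fun χ => (starRingEnd ℂ) (A χ) with hb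
  set S1 : ℝ := ∑ χ ∈ S, ‖A χ‖ ^ 2 with hS1
  set W : ℝ := ∑ n ∈ Icc 1 N, ‖c n‖ ^ 2 with hW
  set T : ℝ := ∑ n ∈ Icc 1 N, ‖∑ χ ∈ S, b χ * χ n‖ ^ 2 with hT
  have hS10 : 0 ≤ S1 := Finset.sum_nonneg fun _ _ => by positivity
  have hW0 : 0 ≤ W := Finset.sum_nonneg fun _ _ => by positivity
  have hT0 : 0 ≤ T := Finset.sum_nonneg fun _ _ => by positivity
  have hbn : ∀ χ, ‖b χ‖ = ‖A χ‖ := fun χ => by rw [hb]; exact RCLike.norm_conj _
  -- first step: duality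
  have h1 : (S1 : ℂ) = ∑ n ∈ Icc 1 N, c n * ∑ χ ∈ S, b χ * χ n := by
    rw [hS1]
    push_cast
    have : ∀ χ ∈ S, ((‖A χ‖ : ℂ)) ^ 2 = ∑ n ∈ Icc 1 N, c n * (b χ * χ n) := by
      intro χ _
      have h2 : ((‖A χ‖ : ℂ)) ^ 2 = A χ * (starRingEnd ℂ) (A χ) := by
        rw [Complex.mul_conj, Complex.normSq_eq_norm_sq]
        push_cast
        rfl
      rw [h2]
      change (∑ n ∈ Icc 1 N, c n * χ n) * b χ = _
      rw [Finset.sum_mul]
      refine Finset.sum_congr rfl fun n _ => ?_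
      ring
    rw [Finset.sum_congr rfl this, Finset.sum_comm]
    refine Finset.sum_congr rfl fun n _ => ?_
    rw [Finset.mul_sum]
  have h2 : S1 ≤ ∑ n ∈ Icc 1 N, ‖c n‖ * ‖∑ χ ∈ S, b χ * χ n‖ := by
    have h3 : S1 = ‖(S1 : ℂ)‖ := by
      rw [Complex.norm_real, Real.norm_of_nonneg hS10]
    rw [h3, h1]
    refine (norm_sum_le _ _).trans (le_of_eq ?_)
    refine Finset.sum_congr rfl fun n _ => ?_
    rw [norm_mul]
  have h4 : S1 ^ 2 ≤ W * T := by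
    refine (pow_le_pow_left₀ hS10 h2 2).trans ?_
    exact Finset.sum_mul_sq_le_sq_mul_sq _ _ _
  -- second step: the double sum
  have h5 : (T : ℂ) = ∑ χ ∈ S, ∑ ψ ∈ S, b χ * (starRingEnd ℂ) (b ψ) *
      ∑ n ∈ Icc 1 N, χ n * (starRingEnd ℂ) (ψ n) := by
    rw [hT]
    push_cast
    have : ∀ n ∈ Icc 1 N, ((‖∑ χ ∈ S, b χ * χ n‖ : ℂ)) ^ 2 =
        ∑ χ ∈ S, ∑ ψ ∈ S, b χ * (starRingEnd ℂ) (b ψ) * (χ n * (starRingEnd ℂ) (ψ n)) := by
      intro n _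
      have h6 : ((‖∑ χ ∈ S, b χ * χ n‖ : ℂ)) ^ 2 =
          (∑ χ ∈ S, b χ * χ n) * (starRingEnd ℂ) (∑ χ ∈ S, b χ * χ n) := by
        rw [Complex.mul_conj, Complex.normSq_eq_norm_sq]
        push_cast
        rfl
      rw [h6, map_sum, Finset.sum_mul_sum]
      refine Finset.sum_congr rfl fun χ _ => Finset.sum_congr rfl fun ψ _ => ?_
      rw [map_mul]
      ring
    rw [Finset.sum_congr rfl this, Finset.sum_comm]
    refine Finset.sum_congr rfl fun χ _ => ?_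
    rw [Finset.sum_comm]
    refine Finset.sum_congr rfl fun ψ _ => ?_
    rw [Finset.mul_sum]
  have h6 : ∀ χ ∈ S, ∀ ψ ∈ S, ‖b χ * (starRingEnd ℂ) (b ψ) *
      ∑ n ∈ Icc 1 N, χ n * (starRingEnd ℂ) (ψ n)‖ ≤
      (‖A χ‖ ^ 2 + ‖A ψ‖ ^ 2) / 2 * (if χ = ψ then (N : ℝ) else D) := by
    intro χ _ ψ _
    have hbc : ‖(starRingEnd ℂ) (b ψ)‖ = ‖A ψ‖ := (RCLike.norm_conj (b ψ)).trans (hbn ψ)
    rw [norm_mul, norm_mul, hbc, hbn]
    have h7 : ‖A χ‖ * ‖A ψ‖ ≤ (‖A χ‖ ^ 2 + ‖A ψ‖ ^ 2) / 2 := by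
      nlinarith [sq_nonneg (‖A χ‖ - ‖A ψ‖)]
    refine mul_le_mul h7 ?_ (norm_nonneg _) (by positivity)
    split_ifs with h8
    · subst h8
      refine (norm_sum_le _ _).trans ?_
      have : ∀ n ∈ Icc 1 N, ‖χ n * (starRingEnd ℂ) (χ n)‖ ≤ 1 := by
        intro n _
        rw [norm_mul, RCLike.norm_conj]
        have := DirichletCharacter.norm_le_one χ (n : ZMod q)
        nlinarith [norm_nonneg (χ (n : ZMod q))]
      refine (Finset.sum_le_sum this).trans ?_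
      simp
    · exact hm_pair q N χ ψ h8
  have h7 : T ≤ ((N : ℝ) + S.card * D) * S1 := by
    have h8 : T = ‖(T : ℂ)‖ := by
      rw [Complex.norm_real, Real.norm_of_nonneg hT0]
    rw [h8, h5]
    refine (norm_sum_le _ _).trans ?_
    refine (Finset.sum_le_sum fun χ hχ => (norm_sum_le _ _).trans
      (Finset.sum_le_sum fun ψ hψ => h6 χ hχ ψ hψ)).trans ?_
    -- symmetrise
    have h9 : ∑ χ ∈ S, ∑ ψ ∈ S, (‖A χ‖ ^ 2 + ‖A ψ‖ ^ 2) / 2 * (if χ = ψ then (N : ℝ) else D) =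
        ∑ χ ∈ S, ‖A χ‖ ^ 2 * ∑ ψ ∈ S, (if χ = ψ then (N : ℝ) else D) := by
      have h10 : ∑ χ ∈ S, ∑ ψ ∈ S, ‖A ψ‖ ^ 2 / 2 * (if χ = ψ then (N : ℝ) else D) =
          ∑ χ ∈ S, ∑ ψ ∈ S, ‖A χ‖ ^ 2 / 2 * (if χ = ψ then (N : ℝ) else D) := by
        rw [Finset.sum_comm]
        refine Finset.sum_congr rfl fun χ _ => Finset.sum_congr rfl fun ψ _ => ?_
        by_cases h : χ = ψ
        · subst h; rfl
        · rw [if_neg h, if_neg (fun h' => h h'.symm)]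
      have h11 : ∑ χ ∈ S, ∑ ψ ∈ S, (‖A χ‖ ^ 2 + ‖A ψ‖ ^ 2) / 2 *
          (if χ = ψ then (N : ℝ) else D) =
          ∑ χ ∈ S, ∑ ψ ∈ S, ‖A χ‖ ^ 2 / 2 * (if χ = ψ then (N : ℝ) else D) +
          ∑ χ ∈ S, ∑ ψ ∈ S, ‖A ψ‖ ^ 2 / 2 * (if χ = ψ then (N : ℝ) else D) := by
        rw [← Finset.sum_add_distrib]
        refine Finset.sum_congr rfl fun χ _ => ?_
        rw [← Finset.sum_add_distrib]
        refine Finset.sum_congr rfl fun ψ _ => ?_
        ring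
      rw [h11, h10, ← Finset.sum_add_distrib]
      refine Finset.sum_congr rfl fun χ _ => ?_
      rw [← Finset.sum_add_distrib, Finset.mul_sum]
      refine Finset.sum_congr rfl fun ψ _ => ?_
      ring
    rw [h9, hS1, Finset.mul_sum]
    refine Finset.sum_le_sum fun χ hχ => ?_
    rw [mul_comm]
    refine mul_le_mul_of_nonneg_right ?_ (by positivity)
    calc ∑ ψ ∈ S, (if χ = ψ then (N : ℝ) else D) ≤
        ∑ ψ ∈ S, ((if χ = ψ then (N : ℝ) else 0) + D) := by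
          refine Finset.sum_le_sum fun ψ _ => ?_
          split_ifs
          · linarith
          · linarith
      _ = (N : ℝ) + S.card * D := by
          rw [Finset.sum_add_distrib, Finset.sum_ite_eq, if_pos hχ, Finset.sum_const,
            nsmul_eq_mul]
  -- conclusion
  have hF0 : 0 ≤ (N : ℝ) + S.card * D := by positivity
  rcases hS10.eq_or_lt with h0 | h0
  · rw [← h0]; positivity
  · have h8 : S1 * S1 ≤ (((N : ℝ) + S.card * D) * W) * S1 := by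
      calc S1 * S1 = S1 ^ 2 := (sq S1).symm
        _ ≤ W * T := h4
        _ ≤ W * (((N : ℝ) + S.card * D) * S1) := mul_le_mul_of_nonneg_left h7 hW0
        _ = _ := by ring
    exact le_of_mul_le_mul_right h8 h0

end Pool.MP_dd84fd_nt.T7
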