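import Pool.Agent.Lib.MP_dd84fd_nt.T7.LvTwoCore
import Pool.Agent.Lib.MP_dd84fd_nt.T7.HM
import Pool.Agent.Lib.MP_dd84fd_nt.L2G.CharOrth
import Pool.Agent.Lib.MP_dd84fd_nt.L2G.DivMom
import Pool.Agent.Lib.MP_dd84fd_nt.DivBound

set_option autoImplicit false

namespace Pool.MP_dd84fd_nt.T7

open Finset Pool.MP_67663b_nt.Odd Pool.MP_dd84fd_nt.L2G

theorem lv_two (ε : ℝ) (hε : 0 < ε) (hε1 : ε < 1) (A : ℕ) : ∃ A1 X0 : ℕ, ∀ X : ℕ, X0 ≤ X →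
    ∀ (q : ℕ) [NeZero q], (q : ℝ) ≤ (X : ℝ) ^ (4 / 5 - ε) → ∀ P K : ℕ,
    (X : ℝ) ^ (1 / 5 : ℝ) ≤ P → (P : ℝ) ≤ (X : ℝ) ^ (2 / 5 : ℝ) → P * K ≤ X →
    ∀ a b : ℕ → ℂ, (∀ n, 1 ≤ n → ‖a n‖ ≤ (1 + Real.log n) * (n.divisors.card : ℝ) ^ 5) →
    (∀ n, 1 ≤ n → ‖b n‖ ≤ (1 + Real.log n) * (n.divisors.card : ℝ) ^ 5) →
    ∀ 𝓖 : Finset (DirichletCharacter ℂ q),
    (∀ χ ∈ 𝓖, ‖∑ m ∈ Icc 1 (64 * P), a m * χ m‖ ≤ P / Real.log X ^ A1) →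
    ∑ χ ∈ 𝓖, ‖∑ m ∈ Icc 1 (64 * P), a m * χ m‖ ^ 2 * ‖∑ k ∈ Icc 1 K, b k * χ k‖ ^ 2 ≤
      X ^ 2 / Real.log X ^ A :=
  lv_two_core hm ε hε hε1 A

end Pool.MP_dd84fd_nt.T7
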