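import Pool.Agent.Lib.MP_dd84fd_nt.T7.BilCharCore
import Pool.Agent.Lib.MP_dd84fd_nt.T7.SepRaw
import Pool.Agent.Lib.MP_dd84fd_nt.T7.LvTwo
import Pool.Agent.Lib.MP_dd84fd_nt.L2G.MomCount
import Pool.Agent.Lib.MP_dd84fd_nt.L2G.CharOrth
import Pool.Agent.Lib.MP_dd84fd_nt.L2G.DivMom

set_option autoImplicit false

namespace Pool.MP_dd84fd_nt.T7

open Finset Pool.MP_67663b_nt.Odd Pool.MP_dd84fd_nt.L2G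

theorem bil_char (ε : ℝ) (hε : 0 < ε) (hε1 : ε < 1) (A B : ℕ) : ∃ C X0 : ℕ, ∀ X : ℕ, X0 ≤ X →
    ∀ (q : ℕ) [NeZero q], (q : ℝ) ≤ (X : ℝ) ^ (4 / 5 - ε) → ∀ (r : ℕ) (y : ℤ) (β : ℝ), 1 ≤ r →
    (r : ℝ) ≤ Real.log X ^ B → |β| ≤ Real.log X ^ B / X →
    ∀ (P : ℕ) (a b : ArithmeticFunction ℝ), (X : ℝ) ^ (1 / 24 : ℝ) ≤ P →
      (P : ℝ) ≤ (X : ℝ) ^ (2 / 5 : ℝ) → (∀ n, a n ≠ 0 → P ≤ n ∧ n ≤ 64 * P) →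
      (∀ n, 1 ≤ n → |a n| ≤ (1 + Real.log n) * (n.divisors.card : ℝ) ^ 5) →
      (∀ n, 1 ≤ n → |b n| ≤ (1 + Real.log n) * (n.divisors.card : ℝ) ^ 5) →
      ∃ 𝓑 : Finset (DirichletCharacter ℂ q), (𝓑.card : ℝ) ≤ Real.log X ^ C ∧
        ∀ 𝓖 : Finset (DirichletCharacter ℂ q), Disjoint 𝓖 𝓑 →
          ∑ χ ∈ 𝓖, ‖Tc X q (fun n => (a * b) n) (y / r + β) χ‖ ^ 2 ≤ X ^ 2 / Real.log X ^ A :=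
  bil_char_core sep_raw lv_two ε hε hε1 A B

end Pool.MP_dd84fd_nt.T7
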