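import Pool.Agent.Lib.MP_dd84fd_nt.T7.Defs
import Pool.Agent.Lib.MP_dd84fd_nt.L2G.MomCount
import Pool.Agent.Lib.MP_dd84fd_nt.L2G.CharOrth
import Pool.Agent.Lib.MP_dd84fd_nt.L2G.DivMom

/-!
T7-09 BilChar (compare L2G/BoxCharII). L = log X, H = ceil(L^A2) with A2 large (error term of h_raw <= X^2/(4L^A)), K = max 1 (X/P). V = P/L^A1; bad set = union over i < 10H, c < r of {chi : |A_{i,c}(chi)| > V}:
mom_count with k = 24, N = 64P (N^24 >= X >= q): at most 10 H r (64 L^A1)^48 (2+log N)^C'. For the good chi and P <= X^(1/5): sum |A|^2|B|^2 <= V^2 (K+q) K L^c <= L^(c-2A1)(X^2 + q X P), qP <= X^(1-eps).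
P >= X^(1/5): h_lv with a restricted to the cell and the class (extend by 0 to [1,64P]; cells beyond 64P carry no a) and A := A + enough. Choose A2 first, then A1 so large that 20 H r * 10 H r * (...) <= X^2/(4 L^A). 
The supports: a_{i,c}(m) = a m if m in the cell and m % r = c, else 0. X/P >= X^(3/5) >= 1, so K = X/P (Nat division), P*K <= X.
-/

set_option autoImplicit false

namespace Pool.MP_dd84fd_nt.T7

open Finset Pool.MP_67663b_nt.Odd Pool.MP_dd84fd_nt.L2G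

private lemma bl_large (k : ℕ) : ∃ X0 : ℕ, ∀ X : ℕ, X0 ≤ X →
    64 ≤ Real.log X ∧ Real.log X ^ k ≤ X := by
  have h1 : ∀ᶠ x : ℝ in Filter.atTop, 64 ≤ Real.log x :=
    Real.tendsto_log_atTop.eventually_ge_atTop 64
  have h2 : ∀ᶠ x : ℝ in Filter.atTop, ‖Real.log x ^ k‖ ≤ 1 * ‖x‖ :=
    (Real.isLittleO_pow_log_id_atTop (n := k)).bound one_pos
  have h3 : ∀ᶠ X : ℕ in Filter.atTop, 64 ≤ Real.log X ∧ Real.log X ^ k ≤ X := by
    filter_upwards [tendsto_natCast_atTop_atTop.eventually h1,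
      tendsto_natCast_atTop_atTop.eventually h2] with X ha hb
    refine ⟨ha, ?_⟩
    rw [Real.norm_eq_abs, Real.norm_eq_abs, one_mul, abs_of_nonneg (a := (X : ℝ)) (by positivity)]
      at hb
    exact (le_abs_self _).trans hb
  exact Filter.eventually_atTop.1 h3

/-- mean squares of coefficients -/
private lemma bl_sumsq : ∃ c : ℕ, ∀ (N : ℕ), ∀ f : ℕ → ℂ,
    (∀ n, 1 ≤ n → ‖f n‖ ≤ (1 + Real.log n) * (n.divisors.card : ℝ) ^ 5) →
    ∑ n ∈ Icc 1 N, ‖f n‖ ^ 2 ≤ N * (1 + Real.log N) ^ c := by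
  obtain ⟨C, hC⟩ := div_mom 10
  refine ⟨2 + C, fun N f hf => ?_⟩
  rcases Nat.eq_zero_or_pos N with rfl | hN
  · simp
  have hlogN : 0 ≤ Real.log N := Real.log_nonneg (by exact_mod_cast hN)
  have h1 : ∀ n ∈ Icc 1 N, ‖f n‖ ^ 2 ≤
      (1 + Real.log N) ^ 2 * (n.divisors.card : ℝ) ^ 10 := by
    intro n hn
    rw [mem_Icc] at hn
    have h2 := hf n hn.1
    have h3 : Real.log n ≤ Real.log N :=
      Real.log_le_log (by exact_mod_cast hn.1) (by exact_mod_cast hn.2)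
    have h4 : 0 ≤ Real.log n := Real.log_natCast_nonneg n
    calc ‖f n‖ ^ 2 ≤ ((1 + Real.log n) * (n.divisors.card : ℝ) ^ 5) ^ 2 :=
          pow_le_pow_left₀ (norm_nonneg _) h2 2
      _ ≤ ((1 + Real.log N) * (n.divisors.card : ℝ) ^ 5) ^ 2 := by gcongr
      _ = _ := by ring
  refine (Finset.sum_le_sum h1).trans ?_
  rw [← Finset.mul_sum]
  calc (1 + Real.log N) ^ 2 * ∑ n ∈ Icc 1 N, (n.divisors.card : ℝ) ^ 10
      ≤ (1 + Real.log N) ^ 2 * (N * (1 + Real.log N) ^ C) :=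
        mul_le_mul_of_nonneg_left (hC N hN).1 (by positivity)
    _ = _ := by rw [pow_add]; ring

/-- the coefficients restricted to one cell and one class -/
private noncomputable def blc (a : ℕ → ℝ) (P H r i c m : ℕ) : ℝ :=
  if m ∈ (Ico (cell P H i) (cell P H (i + 1))).filter (fun m => m % r = c) then a m else 0

/-- the sum over one cell and one residue class -/
private noncomputable def blA {q : ℕ} (a : ℕ → ℝ) (P H r i c : ℕ)
    (χ : DirichletCharacter ℂ q) : ℂ :=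
  ∑ m ∈ (Ico (cell P H i) (cell P H (i + 1))).filter (fun m => m % r = c), (a m : ℂ) * χ m

private lemma blc_bound (a : ℕ → ℝ) (P H r i c : ℕ)
    (ha : ∀ m, 1 ≤ m → |a m| ≤ (1 + Real.log m) * (m.divisors.card : ℝ) ^ 5) (m : ℕ)
    (hm : 1 ≤ m) : |blc a P H r i c m| ≤ (1 + Real.log m) * (m.divisors.card : ℝ) ^ 5 := by
  unfold blc
  split_ifs with h
  · exact ha m hm
  · rw [abs_zero]
    have : 0 ≤ Real.log m := Real.log_natCast_nonneg m
    positivity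

private lemma blA_eq {q : ℕ} (a : ℕ → ℝ) (P H r i c : ℕ) (hP : 1 ≤ P)
    (hsupp : ∀ n, a n ≠ 0 → P ≤ n ∧ n ≤ 64 * P) (χ : DirichletCharacter ℂ q) :
    blA a P H r i c χ = ∑ m ∈ Icc 1 (64 * P), (blc a P H r i c m : ℂ) * χ m := by
  unfold blA
  have e1 : ∑ m ∈ Icc 1 (64 * P), (blc a P H r i c m : ℂ) * χ m =
      ∑ m ∈ (Icc 1 (64 * P)).filter (fun m => m ∈ (Ico (cell P H i)
        (cell P H (i + 1))).filter (fun m => m % r = c)), (a m : ℂ) * χ m := by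
    rw [Finset.sum_filter]
    refine Finset.sum_congr rfl fun m _ => ?_
    simp only [blc]
    split_ifs
    · rfl
    · rw [Complex.ofReal_zero, zero_mul]
  rw [e1]
  symm
  apply Finset.sum_subset
  · intro m hm
    exact (mem_filter.1 hm).2
  · intro m hm hm'
    have h3 : a m = 0 := by
      by_contra h0
      obtain ⟨h4, h5⟩ := hsupp m h0
      apply hm'
      rw [mem_filter, mem_Icc]
      exact ⟨⟨by omega, h5⟩, hm⟩
    rw [h3, Complex.ofReal_zero, zero_mul]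

/-- the number of bad characters for one cell and one residue class -/
private lemma bl_count {k C q : ℕ} [NeZero q]
    (hC : ∀ (q N : ℕ) [NeZero q], 1 ≤ N → q ≤ N ^ k →
      ∀ a : ℕ → ℝ, (∀ m, 1 ≤ m → |a m| ≤ (1 + Real.log m) * (m.divisors.card : ℝ) ^ 5) →
      ∀ V : ℝ, 0 < V → ∀ 𝓑 : Finset (DirichletCharacter ℂ q),
      (∀ χ ∈ 𝓑, V < ‖∑ m ∈ Icc 1 N, (a m : ℂ) * χ m‖) →
      (𝓑.card : ℝ) ≤ (N / V) ^ (2 * k) * (2 + Real.log N) ^ C)
    (P H r i c : ℕ) (hP : 1 ≤ P) (hq : q ≤ (64 * P) ^ k) (a : ℕ → ℝ)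
    (ha : ∀ m, 1 ≤ m → |a m| ≤ (1 + Real.log m) * (m.divisors.card : ℝ) ^ 5)
    (hsupp : ∀ n, a n ≠ 0 → P ≤ n ∧ n ≤ 64 * P) (V : ℝ) (hV : 0 < V)
    (𝓑 : Finset (DirichletCharacter ℂ q)) (h𝓑 : ∀ χ ∈ 𝓑, V < ‖blA a P H r i c χ‖) :
    (𝓑.card : ℝ) ≤ (((64 * P : ℕ) : ℝ) / V) ^ (2 * k) * (2 + Real.log ((64 * P : ℕ) : ℝ)) ^ C := by
  refine hC q (64 * P) (by omega) hq (blc a P H r i c) (blc_bound a P H r i c ha) V hV 𝓑
    (fun χ hχ => ?_)
  rw [← blA_eq a P H r i c hP hsupp χ]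
  exact h𝓑 χ hχ

theorem bil_char_core
    (h_raw : ∃ C : ℕ, ∀ (X q r H P K : ℕ) [NeZero q], 2 ≤ X → q ≤ X → 1 ≤ r → r ≤ X →
    1 ≤ H → H ≤ X → 1 ≤ P → P ≤ X → 1 ≤ K → ∀ a b : ArithmeticFunction ℝ,
    (∀ n, 1 ≤ n → |a n| ≤ (1 + Real.log n) * (n.divisors.card : ℝ) ^ 5) →
    (∀ n, 1 ≤ n → |b n| ≤ (1 + Real.log n) * (n.divisors.card : ℝ) ^ 5) →
    (∀ n, a n ≠ 0 → P ≤ n ∧ n ≤ 64 * P) → (∀ k, b k ≠ 0 → P * k ≤ X → k ≤ K) →
    ∀ (y : ℤ) (β : ℝ), ∃ bc : ℕ → ℕ → ℕ → ℂ, (∀ i c k, ‖bc i c k‖ ≤ |b k|) ∧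
    ∀ 𝓖 : Finset (DirichletCharacter ℂ q),
    ∑ χ ∈ 𝓖, ‖∑ n ∈ Icc 1 X, (((a * b) n : ℝ) : ℂ) * χ n * ee (n * (y / r + β))‖ ^ 2 ≤
      20 * H * r * ∑ i ∈ range (10 * H), ∑ c ∈ range r, ∑ χ ∈ 𝓖,
        ‖∑ m ∈ (Ico (cell P H i) (cell P H (i + 1))).filter (fun m => m % r = c),
          (a m : ℂ) * χ m‖ ^ 2 * ‖∑ k ∈ Icc 1 K, bc i c k * χ k‖ ^ 2 +
      (2 + Real.log X) ^ C * (X ^ 2 * ((|β| * X / H) ^ 2 + 1 / Real.sqrt H)))
    (h_lv : ∀ (ε : ℝ) (hε : 0 < ε) (hε1 : ε < 1) (A : ℕ), ∃ A1 X0 : ℕ, ∀ X : ℕ, X0 ≤ X →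
    ∀ (q : ℕ) [NeZero q], (q : ℝ) ≤ (X : ℝ) ^ (4 / 5 - ε) → ∀ P K : ℕ,
    (X : ℝ) ^ (1 / 5 : ℝ) ≤ P → (P : ℝ) ≤ (X : ℝ) ^ (2 / 5 : ℝ) → P * K ≤ X →
    ∀ a b : ℕ → ℂ, (∀ n, 1 ≤ n → ‖a n‖ ≤ (1 + Real.log n) * (n.divisors.card : ℝ) ^ 5) →
    (∀ n, 1 ≤ n → ‖b n‖ ≤ (1 + Real.log n) * (n.divisors.card : ℝ) ^ 5) →
    ∀ 𝓖 : Finset (DirichletCharacter ℂ q),
    (∀ χ ∈ 𝓖, ‖∑ m ∈ Icc 1 (64 * P), a m * χ m‖ ≤ P / Real.log X ^ A1) →
    ∑ χ ∈ 𝓖, ‖∑ m ∈ Icc 1 (64 * P), a m * χ m‖ ^ 2 * ‖∑ k ∈ Icc 1 K, b k * χ k‖ ^ 2 ≤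
      X ^ 2 / Real.log X ^ A)
    (ε : ℝ) (hε : 0 < ε) (hε1 : ε < 1) (A B : ℕ) : ∃ C X0 : ℕ, ∀ X : ℕ, X0 ≤ X →
    ∀ (q : ℕ) [NeZero q], (q : ℝ) ≤ (X : ℝ) ^ (4 / 5 - ε) → ∀ (r : ℕ) (y : ℤ) (β : ℝ), 1 ≤ r →
    (r : ℝ) ≤ Real.log X ^ B → |β| ≤ Real.log X ^ B / X →
    ∀ (P : ℕ) (a b : ArithmeticFunction ℝ), (X : ℝ) ^ (1 / 24 : ℝ) ≤ P →
      (P : ℝ) ≤ (X : ℝ) ^ (2 / 5 : ℝ) → (∀ n, a n ≠ 0 → P ≤ n ∧ n ≤ 64 * P) →
      (∀ n, 1 ≤ n → |a n| ≤ (1 + Real.log n) * (n.divisors.card : ℝ) ^ 5) →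
      (∀ n, 1 ≤ n → |b n| ≤ (1 + Real.log n) * (n.divisors.card : ℝ) ^ 5) →
      ∃ 𝓑 : Finset (DirichletCharacter ℂ q), (𝓑.card : ℝ) ≤ Real.log X ^ C ∧
        ∀ 𝓖 : Finset (DirichletCharacter ℂ q), Disjoint 𝓖 𝓑 →
          ∑ χ ∈ 𝓖, ‖Tc X q (fun n => (a * b) n) (y / r + β) χ‖ ^ 2 ≤ X ^ 2 / Real.log X ^ A := by
  classical
  obtain ⟨C1, hC1⟩ := h_raw
  obtain ⟨C2, hC2⟩ := mom_count 24 (by norm_num)
  obtain ⟨c, hc⟩ := bl_sumsq
  obtain ⟨M, hM⟩ : ∃ M : ℕ, M = A + 2 * C1 + 1 := ⟨_, rfl⟩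
  obtain ⟨A2, hA2⟩ : ∃ A2 : ℕ, A2 = 2 * (M + B) := ⟨_, rfl⟩
  obtain ⟨A0, hA0⟩ : ∃ A0 : ℕ, A0 = A + 2 * (A2 + 1) + 2 * B + 2 := ⟨_, rfl⟩
  obtain ⟨A1', X1, hX1⟩ := h_lv ε hε hε1 A0
  obtain ⟨A1, hA1⟩ : ∃ A1 : ℕ, A1 = A1' + A0 + 2 * c + 1 := ⟨_, rfl⟩
  obtain ⟨X0, hX0⟩ := bl_large (A2 + 1 + B)
  refine ⟨1 + (A2 + 1) + B + 48 * (A1 + 1) + 2 * C2, X0 + X1 + 2, ?_⟩
  intro X hX q _ hq r y β hr1 hr hβ P a b hP1 hP2 hasupp hab1 hbb1
  obtain ⟨hL64, hLX⟩ := hX0 X (by omega)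
  have hlv := hX1 X (by omega) q hq
  obtain ⟨L, hL⟩ : ∃ L : ℝ, L = Real.log X := ⟨_, rfl⟩
  rw [← hL] at hL64 hLX hr hβ hlv ⊢
  have hX2 : 2 ≤ X := by omega
  have hXR : (2 : ℝ) ≤ X := by exact_mod_cast hX2
  have hXp : (0 : ℝ) < X := by linarith
  have hX1 : (1 : ℝ) ≤ X := by linarith
  have hL1 : 1 ≤ L := by linarith
  have hLp : 0 < L := by linarith
  have hpw : ∀ {i j : ℕ}, i ≤ j → L ^ i ≤ L ^ j := fun h => pow_le_pow_right₀ hL1 h
  have hP0 : 0 < (P : ℝ) := lt_of_lt_of_le (by positivity) hP1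
  have hPpos : 1 ≤ P := by exact_mod_cast hP0
  have hPR : (1 : ℝ) ≤ P := by exact_mod_cast hPpos
  have hPX : (P : ℝ) ≤ X := by
    refine hP2.trans ?_
    calc (X : ℝ) ^ (2 / 5 : ℝ) ≤ (X : ℝ) ^ (1 : ℝ) :=
          Real.rpow_le_rpow_of_exponent_le hX1 (by norm_num)
      _ = X := Real.rpow_one _
  have hqX : (q : ℝ) ≤ X := by
    refine hq.trans ?_
    calc (X : ℝ) ^ (4 / 5 - ε) ≤ (X : ℝ) ^ (1 : ℝ) :=
          Real.rpow_le_rpow_of_exponent_le hX1 (by linarith)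
      _ = X := Real.rpow_one _
  have hqN : q ≤ (64 * P) ^ 24 := by
    have h1 : (q : ℝ) ≤ ((64 * P : ℕ) : ℝ) ^ 24 := by
      refine hqX.trans ?_
      calc (X : ℝ) = ((X : ℝ) ^ (1 / 24 : ℝ)) ^ 24 := by
            rw [← Real.rpow_natCast, ← Real.rpow_mul hXp.le]
            norm_num
        _ ≤ ((64 * P : ℕ) : ℝ) ^ 24 := by
            refine pow_le_pow_left₀ (by positivity) (hP1.trans ?_) 24
            push_cast
            linarith
    exact_mod_cast h1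
  obtain ⟨H, hH⟩ : ∃ H : ℕ, H = ⌈L ^ A2⌉₊ := ⟨_, rfl⟩
  have hLA2 : 1 ≤ L ^ A2 := one_le_pow₀ hL1
  have hHlow : L ^ A2 ≤ H := by rw [hH]; exact Nat.le_ceil _
  have hH1 : 1 ≤ H := by
    have : (1 : ℝ) ≤ H := hLA2.trans hHlow
    exact_mod_cast this
  have hHup : (H : ℝ) ≤ L ^ (A2 + 1) := by
    rw [hH]
    have h1 := (Nat.ceil_lt_add_one (by positivity : 0 ≤ L ^ A2)).le
    rw [pow_succ]
    nlinarith
  have hHX : H ≤ X := by
    have h1 : (H : ℝ) ≤ X := hHup.trans ((hpw (by omega)).trans hLX)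
    exact_mod_cast h1
  have hrX : r ≤ X := by
    have h1 : (r : ℝ) ≤ X := hr.trans ((hpw (by omega)).trans hLX)
    exact_mod_cast h1
  obtain ⟨V, hV⟩ : ∃ V : ℝ, V = P / L ^ A1 := ⟨_, rfl⟩
  have hVp : 0 < V := by rw [hV]; positivity
  obtain ⟨K, hK⟩ : ∃ K : ℕ, K = max 1 (X / P) := ⟨_, rfl⟩
  have hK1 : 1 ≤ K := by rw [hK]; exact le_max_left _ _
  have hPKX' : P * K ≤ X := by
    rw [hK]
    rcases le_total 1 (X / P) with h | h
    · rw [max_eq_right h]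
      exact Nat.mul_div_le X P
    · rw [max_eq_left h, mul_one]
      exact_mod_cast hPX
  have hPKX : (P : ℝ) * K ≤ X := by exact_mod_cast hPKX'
  have hKX : (K : ℝ) ≤ X := by
    have h1 : K ≤ X := (Nat.le_mul_of_pos_left K hPpos).trans hPKX'
    exact_mod_cast h1
  -- the bad set
  obtain ⟨𝓑, h𝓑⟩ : ∃ 𝓑 : Finset (DirichletCharacter ℂ q), 𝓑 =
      (range (10 * H) ×ˢ range r).biUnion (fun ic =>
        univ.filter (fun χ => V < ‖blA a P H r ic.1 ic.2 χ‖)) := ⟨_, rfl⟩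
  refine ⟨𝓑, ?_, fun 𝓖 h𝓖 => ?_⟩
  · have h1 : (𝓑.card : ℝ) ≤ ∑ ic ∈ range (10 * H) ×ˢ range r,
        ((univ.filter (fun χ : DirichletCharacter ℂ q => V < ‖blA a P H r ic.1 ic.2 χ‖)).card
          : ℝ) := by
      rw [h𝓑]
      exact_mod_cast Finset.card_biUnion_le
    have hlog : 2 + Real.log ((64 * P : ℕ) : ℝ) ≤ L ^ 2 := by
      have h2 : Real.log ((64 * P : ℕ) : ℝ) ≤ Real.log 64 + L := by
        push_cast
        rw [Real.log_mul (by norm_num) (by linarith), hL]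
        exact add_le_add le_rfl (Real.log_le_log (by linarith) hPX)
      have h3 : Real.log 64 ≤ 63 := by
        have := Real.log_le_sub_one_of_pos (by norm_num : (0 : ℝ) < 64)
        linarith
      nlinarith
    have hlog0 : 0 ≤ 2 + Real.log ((64 * P : ℕ) : ℝ) := by
      have := Real.log_natCast_nonneg (64 * P)
      linarith
    have hNV : ((64 * P : ℕ) : ℝ) / V ≤ L ^ (A1 + 1) := by
      rw [hV]
      push_cast
      have h2 : (64 : ℝ) * P / (P / L ^ A1) = 64 * L ^ A1 := by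
        field_simp
      rw [h2, pow_succ, mul_comm]
      exact mul_le_mul_of_nonneg_left hL64 (by positivity)
    have h2 : ∀ ic ∈ range (10 * H) ×ˢ range r,
        ((univ.filter (fun χ : DirichletCharacter ℂ q => V < ‖blA a P H r ic.1 ic.2 χ‖)).card
          : ℝ) ≤ L ^ (48 * (A1 + 1) + 2 * C2) := by
      intro ic _
      refine (bl_count (k := 24) (C := C2) hC2 P H r ic.1 ic.2 hPpos hqN (fun n => a n) hab1
        hasupp V hVp _ (fun χ hχ => (mem_filter.1 hχ).2)).trans ?_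
      have e1 : L ^ (48 * (A1 + 1) + 2 * C2) = (L ^ (A1 + 1)) ^ (2 * 24) * (L ^ 2) ^ C2 := by
        rw [pow_add, ← pow_mul, ← pow_mul]
        congr 2
        ring
      rw [e1]
      exact mul_le_mul (pow_le_pow_left₀ (by positivity) hNV _)
        (pow_le_pow_left₀ hlog0 hlog _) (by positivity) (by positivity)
    have h3 := h1.trans (Finset.sum_le_sum h2)
    rw [Finset.sum_const, Finset.card_product, Finset.card_range, Finset.card_range,
      nsmul_eq_mul] at h3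
    push_cast at h3
    refine h3.trans ?_
    have h4 : 10 * (H : ℝ) * r ≤ L * L ^ (A2 + 1) * L ^ B :=
      mul_le_mul (mul_le_mul (by linarith) hHup (by positivity) (by positivity)) hr
        (by positivity) (by positivity)
    refine (mul_le_mul_of_nonneg_right h4 (by positivity)).trans (le_of_eq ?_)
    ring
  · have hbad : ∀ χ ∈ 𝓖, ∀ i < 10 * H, ∀ c < r, ‖blA a P H r i c χ‖ ≤ V := by
      intro χ hχ i hi c hc
      by_contra hlt
      push Not at hlt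
      refine (Finset.disjoint_left.1 h𝓖) hχ ?_
      rw [h𝓑]
      refine Finset.mem_biUnion.2 ⟨(i, c), Finset.mem_product.2 ⟨mem_range.2 hi, mem_range.2 hc⟩, ?_⟩
      exact mem_filter.2 ⟨mem_univ _, hlt⟩
    obtain ⟨bc, hbc, hmain⟩ := hC1 X q r H P K hX2 (by exact_mod_cast hqX) hr1 hrX hH1 hHX hPpos
      (by exact_mod_cast hPX) hK1 a b hab1 hbb1 hasupp (fun k _ hPk => by
        rw [hK]
        refine le_trans ?_ (le_max_right _ _)
        rw [Nat.le_div_iff_mul_le (by omega), mul_comm]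
        exact hPk) y β
    have hTc : ∑ χ ∈ 𝓖, ‖Tc X q (fun n => (a * b) n) (y / r + β) χ‖ ^ 2 =
        ∑ χ ∈ 𝓖, ‖∑ n ∈ Icc 1 X, (((a * b) n : ℝ) : ℂ) * χ n * ee (n * (y / r + β))‖ ^ 2 := by
      unfold Tc
      rfl
    rw [hTc]
    refine (hmain 𝓖).trans ?_
    rw [← hL]
    have hbcb : ∀ i c' n, 1 ≤ n →
        ‖bc i c' n‖ ≤ (1 + Real.log n) * (n.divisors.card : ℝ) ^ 5 :=
      fun i c' n hn => (hbc i c' n).trans (hbb1 n hn)
    -- one cell and one class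
    have hone : ∀ i ∈ range (10 * H), ∀ c' ∈ range r, ∑ χ ∈ 𝓖, ‖blA a P H r i c' χ‖ ^ 2 *
        ‖∑ k ∈ Icc 1 K, bc i c' k * χ k‖ ^ 2 ≤ X ^ 2 / L ^ A0 := by
      intro i hi c' hc'
      rw [mem_range] at hi hc'
      rcases le_total ((X : ℝ) ^ (1 / 5 : ℝ)) P with hP5 | hP5
      · have h1 := hlv P K hP5 hP2 hPKX' (fun m => (blc a P H r i c' m : ℂ)) (bc i c')
          (fun n hn => by
            rw [Complex.norm_real, Real.norm_eq_abs]
            exact blc_bound a P H r i c' hab1 n hn) (hbcb i c') 𝓖 (fun χ hχ => by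
            rw [← blA_eq a P H r i c' hPpos hasupp χ]
            refine (hbad χ hχ i hi c' hc').trans ?_
            rw [hV]
            exact div_le_div_of_nonneg_left hP0.le (by positivity) (hpw (by omega)))
        have h2 : ∑ χ ∈ 𝓖, ‖blA a P H r i c' χ‖ ^ 2 * ‖∑ k ∈ Icc 1 K, bc i c' k * χ k‖ ^ 2 =
            ∑ χ ∈ 𝓖, ‖∑ m ∈ Icc 1 (64 * P), (blc a P H r i c' m : ℂ) * χ m‖ ^ 2 *
              ‖∑ k ∈ Icc 1 K, bc i c' k * χ k‖ ^ 2 :=
          Finset.sum_congr rfl fun χ _ => by rw [blA_eq a P H r i c' hPpos hasupp χ]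
        rw [h2]
        exact h1
      · have hqP : (q : ℝ) * P ≤ X := by
          calc (q : ℝ) * P ≤ (X : ℝ) ^ (4 / 5 - ε) * (X : ℝ) ^ (1 / 5 : ℝ) :=
                mul_le_mul hq hP5 (by positivity) (by positivity)
            _ = (X : ℝ) ^ ((4 / 5 - ε) + 1 / 5) := (Real.rpow_add hXp _ _).symm
            _ ≤ (X : ℝ) ^ (1 : ℝ) := Real.rpow_le_rpow_of_exponent_le hX1 (by linarith)
            _ = X := Real.rpow_one _
        have h1 : ∑ χ ∈ 𝓖, ‖blA a P H r i c' χ‖ ^ 2 * ‖∑ k ∈ Icc 1 K, bc i c' k * χ k‖ ^ 2 ≤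
            V ^ 2 * ∑ χ ∈ 𝓖, ‖∑ k ∈ Icc 1 K, bc i c' k * χ k‖ ^ 2 := by
          rw [Finset.mul_sum]
          refine Finset.sum_le_sum fun χ hχ => ?_
          exact mul_le_mul_of_nonneg_right
            (pow_le_pow_left₀ (norm_nonneg _) (hbad χ hχ i hi c' hc') 2) (by positivity)
        have h2 : ∑ χ ∈ 𝓖, ‖∑ k ∈ Icc 1 K, bc i c' k * χ k‖ ^ 2 ≤
            ((K : ℝ) + q) * ∑ n ∈ Icc 1 K, ‖bc i c' n‖ ^ 2 := by
          refine (Finset.sum_le_sum_of_subset_of_nonneg (Finset.subset_univ _)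
            fun _ _ _ => by positivity).trans ?_
          have h1 := char_ms q 0 K (bc i c')
          have h2 : Ioc 0 (0 + K) = Icc 1 K := by
            ext x
            simp only [Finset.mem_Ioc, Finset.mem_Icc]
            omega
          rw [h2] at h1
          exact h1
        have h3 : ∑ n ∈ Icc 1 K, ‖bc i c' n‖ ^ 2 ≤ K * L ^ (2 * c) := by
          refine (hc K (bc i c') (hbcb i c')).trans ?_
          apply mul_le_mul_of_nonneg_left _ (by positivity)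
          have h4 : 0 ≤ Real.log K := Real.log_natCast_nonneg K
          have h5 : Real.log K ≤ L := by
            rw [hL]; exact Real.log_le_log (by exact_mod_cast hK1) hKX
          rw [pow_mul]
          exact pow_le_pow_left₀ (by positivity) (by nlinarith) _
        have h4 : ∑ χ ∈ 𝓖, ‖blA a P H r i c' χ‖ ^ 2 * ‖∑ k ∈ Icc 1 K, bc i c' k * χ k‖ ^ 2 ≤
            V ^ 2 * (((K : ℝ) + q) * (K * L ^ (2 * c))) := by
          refine h1.trans (mul_le_mul_of_nonneg_left (h2.trans ?_) (by positivity))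
          exact mul_le_mul_of_nonneg_left h3 (by positivity)
        refine h4.trans ?_
        have h5 : V ^ 2 * (((K : ℝ) + q) * (K * L ^ (2 * c))) =
            ((P * K) * (P * K) + (q * P) * (P * K)) * L ^ (2 * c) / (L ^ A1) ^ 2 := by
          rw [hV]
          field_simp
        rw [h5, div_le_div_iff₀ (by positivity) (by positivity)]
        have h6 : ((P : ℝ) * K) * (P * K) + (q * P) * (P * K) ≤ 2 * X ^ 2 := by
          have h5 : ((P : ℝ) * K) * (P * K) ≤ X * X :=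
            mul_le_mul hPKX hPKX (by positivity) hXp.le
          have h6 : ((q : ℝ) * P) * (P * K) ≤ X * X :=
            mul_le_mul hqP hPKX (by positivity) hXp.le
          nlinarith
        have h7 : 2 * (L ^ (2 * c) * L ^ A0) ≤ (L ^ A1) ^ 2 := by
          calc 2 * (L ^ (2 * c) * L ^ A0) ≤ L * (L ^ (2 * c) * L ^ A0) := by gcongr; linarith
            _ = L ^ (2 * c + A0 + 1) := by rw [pow_succ, pow_add]; ring
            _ ≤ L ^ (A1 * 2) := hpw (by omega)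
            _ = (L ^ A1) ^ 2 := pow_mul _ _ _
        calc (((P : ℝ) * K) * (P * K) + (q * P) * (P * K)) * L ^ (2 * c) * L ^ A0
            = (((P : ℝ) * K) * (P * K) + (q * P) * (P * K)) * (L ^ (2 * c) * L ^ A0) := by ring
          _ ≤ (2 * X ^ 2) * (L ^ (2 * c) * L ^ A0) :=
              mul_le_mul_of_nonneg_right h6 (by positivity)
          _ = X ^ 2 * (2 * (L ^ (2 * c) * L ^ A0)) := by ring
          _ ≤ X ^ 2 * (L ^ A1) ^ 2 := mul_le_mul_of_nonneg_left h7 (by positivity)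
    have hS1 : 20 * (H : ℝ) * r * ∑ i ∈ range (10 * H), ∑ c ∈ range r, ∑ χ ∈ 𝓖,
        ‖∑ m ∈ (Ico (cell P H i) (cell P H (i + 1))).filter (fun m => m % r = c),
          (a m : ℂ) * χ m‖ ^ 2 * ‖∑ k ∈ Icc 1 K, bc i c k * χ k‖ ^ 2 ≤
        X ^ 2 / (2 * L ^ A) := by
      have h1 : ∑ i ∈ range (10 * H), ∑ c ∈ range r, ∑ χ ∈ 𝓖,
          ‖∑ m ∈ (Ico (cell P H i) (cell P H (i + 1))).filter (fun m => m % r = c),
            (a m : ℂ) * χ m‖ ^ 2 * ‖∑ k ∈ Icc 1 K, bc i c k * χ k‖ ^ 2 ≤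
          ∑ i ∈ range (10 * H), ∑ c ∈ range r, (X : ℝ) ^ 2 / L ^ A0 :=
        Finset.sum_le_sum fun i hi => Finset.sum_le_sum fun c' hc' => hone i hi c' hc'
      have h2 : ∑ i ∈ range (10 * H), ∑ c ∈ range r, (X : ℝ) ^ 2 / L ^ A0 =
          10 * H * r * (X ^ 2 / L ^ A0) := by
        rw [Finset.sum_const, Finset.sum_const, Finset.card_range, Finset.card_range,
          nsmul_eq_mul, nsmul_eq_mul]
        push_cast
        ring
      rw [h2] at h1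
      refine (mul_le_mul_of_nonneg_left h1 (by positivity)).trans ?_
      have h3 : 20 * (H : ℝ) * r * (10 * H * r * (X ^ 2 / L ^ A0)) =
          200 * (H ^ 2 * r ^ 2) * X ^ 2 / L ^ A0 := by ring
      have h4 : (H : ℝ) ^ 2 * r ^ 2 ≤ L ^ (2 * (A2 + 1) + 2 * B) := by
        calc (H : ℝ) ^ 2 * r ^ 2 ≤ (L ^ (A2 + 1)) ^ 2 * (L ^ B) ^ 2 := by gcongr
          _ = L ^ (2 * (A2 + 1) + 2 * B) := by
              rw [← pow_mul, ← pow_mul, ← pow_add]
              congr 1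
              ring
      rw [h3, div_le_div_iff₀ (by positivity) (by positivity)]
      have h5 : 400 * L ^ (2 * (A2 + 1) + 2 * B) * L ^ A ≤ L ^ A0 := by
        have h6 : (400 : ℝ) ≤ L ^ 2 := by nlinarith
        calc 400 * L ^ (2 * (A2 + 1) + 2 * B) * L ^ A ≤
              L ^ 2 * L ^ (2 * (A2 + 1) + 2 * B) * L ^ A := by gcongr
          _ = L ^ A0 := by
              rw [← pow_add, ← pow_add]
              congr 1
              omega
      calc 200 * ((H : ℝ) ^ 2 * r ^ 2) * X ^ 2 * (2 * L ^ A) =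
            X ^ 2 * (400 * (H ^ 2 * r ^ 2) * L ^ A) := by ring
        _ ≤ X ^ 2 * (400 * L ^ (2 * (A2 + 1) + 2 * B) * L ^ A) := by gcongr
        _ ≤ X ^ 2 * L ^ A0 := mul_le_mul_of_nonneg_left h5 (by positivity)
    have hS2 : (2 + L) ^ C1 * ((X : ℝ) ^ 2 * ((|β| * X / H) ^ 2 + 1 / Real.sqrt H)) ≤
        X ^ 2 / (2 * L ^ A) := by
      have hL2 : 2 + L ≤ L ^ 2 := by nlinarith
      have hCb : (2 + L) ^ C1 ≤ L ^ (2 * C1) := by
        rw [pow_mul]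
        exact pow_le_pow_left₀ (by positivity) hL2 _
      have hT2 : (|β| * X / H) ^ 2 ≤ 1 / L ^ M := by
        have h1 : |β| * X ≤ L ^ B := by
          rw [le_div_iff₀ hXp] at hβ
          exact hβ
        have h2 : |β| * X / H ≤ 1 / L ^ M := by
          have hHp : (0 : ℝ) < H := by linarith
          rw [div_le_div_iff₀ hHp (by positivity), one_mul]
          calc |β| * X * L ^ M ≤ L ^ B * L ^ M := mul_le_mul_of_nonneg_right h1 (by positivity)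
            _ = L ^ (B + M) := (pow_add _ _ _).symm
            _ ≤ L ^ A2 := hpw (by omega)
            _ ≤ H := hHlow
        have h3 : 0 ≤ |β| * X / H := by positivity
        have h4 : (1 : ℝ) / L ^ M ≤ 1 := by
          rw [div_le_one (by positivity)]
          exact one_le_pow₀ hL1
        nlinarith
      have hT3 : 1 / Real.sqrt H ≤ 1 / L ^ M := by
        refine one_div_le_one_div_of_le (by positivity) ?_
        apply Real.le_sqrt_of_sq_le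
        calc (L ^ M) ^ 2 = L ^ (M * 2) := (pow_mul _ _ _).symm
          _ ≤ L ^ A2 := hpw (by omega)
          _ ≤ H := hHlow
      have hsum : (X : ℝ) ^ 2 * ((|β| * X / H) ^ 2 + 1 / Real.sqrt H) ≤ 2 * X ^ 2 / L ^ M := by
        have h1 : X ^ 2 * ((|β| * X / H) ^ 2 + 1 / Real.sqrt H) ≤
            (X : ℝ) ^ 2 * (1 / L ^ M + 1 / L ^ M) :=
          mul_le_mul_of_nonneg_left (add_le_add hT2 hT3) (by positivity)
        have h2 : (X : ℝ) ^ 2 * (1 / L ^ M + 1 / L ^ M) = 2 * X ^ 2 / L ^ M := by ring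
        linarith
      calc (2 + L) ^ C1 * ((X : ℝ) ^ 2 * ((|β| * X / H) ^ 2 + 1 / Real.sqrt H))
          ≤ L ^ (2 * C1) * (2 * X ^ 2 / L ^ M) :=
            mul_le_mul hCb hsum (by positivity) (by positivity)
        _ ≤ X ^ 2 / (2 * L ^ A) := by
            rw [hM, pow_add, pow_add, pow_one]
            rw [mul_div_assoc', div_le_div_iff₀ (by positivity) (by positivity)]
            have h1 : (4 : ℝ) ≤ L := by linarith
            calc L ^ (2 * C1) * (2 * X ^ 2) * (2 * L ^ A) =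
                  4 * (X ^ 2 * (L ^ A * L ^ (2 * C1))) := by ring
              _ ≤ L * (X ^ 2 * (L ^ A * L ^ (2 * C1))) :=
                  mul_le_mul_of_nonneg_right h1 (by positivity)
              _ = X ^ 2 * (L ^ A * L ^ (2 * C1) * L) := by ring
    have hfin : (X : ℝ) ^ 2 / (2 * L ^ A) + X ^ 2 / (2 * L ^ A) = X ^ 2 / L ^ A := by
      field_simp
      ring
    rw [← hfin]
    exact add_le_add hS1 hS2

end Pool.MP_dd84fd_nt.T7
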