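import Pool.Agent.Lib.MP_dd84fd_nt.L2G.HBDefs
import Pool.Agent.Lib.MP_dd84fd_nt.L2G.ConvSum
import Pool.Agent.Lib.MP_dd84fd_nt.L2G.DivMom

set_option autoImplicit false

namespace Pool.MP_dd84fd_nt.T7

open Finset Pool.MP_67663b_nt.Odd Pool.MP_dd84fd_nt.L2G

theorem t7box_ev_log (D : ℝ) (E : ℕ) (s : ℝ) (hs : 0 < s) :
    ∃ X0 : ℕ, ∀ X : ℕ, X0 ≤ X → D * Real.log X ^ E ≤ (X : ℝ) ^ s := by
  have h := (isLittleO_log_rpow_rpow_atTop (E : ℝ) hs).bound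
    (show (0 : ℝ) < 1 / (|D| + 1) by positivity)
  have h2 := tendsto_natCast_atTop_atTop (R := ℝ) |>.eventually h
  obtain ⟨N, hN⟩ := Filter.eventually_atTop.mp h2
  refine ⟨N, fun X hX => ?_⟩
  have h3 := hN X hX
  rw [Real.rpow_natCast] at h3
  have h4 : |Real.log X ^ E| ≤ 1 / (|D| + 1) * (X : ℝ) ^ s := by
    have := h3
    rw [Real.norm_eq_abs, Real.norm_eq_abs, abs_of_nonneg (Real.rpow_nonneg (Nat.cast_nonneg X) s)]
      at this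
    exact this
  have hp : 0 < |D| + 1 := by positivity
  have hX0 : (0 : ℝ) ≤ (X : ℝ) ^ s := Real.rpow_nonneg (Nat.cast_nonneg X) s
  calc D * Real.log X ^ E ≤ |D * Real.log X ^ E| := le_abs_self _
    _ = |D| * |Real.log X ^ E| := abs_mul _ _
    _ ≤ |D| * (1 / (|D| + 1) * (X : ℝ) ^ s) := mul_le_mul_of_nonneg_left h4 (abs_nonneg _)
    _ = (|D| / (|D| + 1)) * (X : ℝ) ^ s := by ring
    _ ≤ 1 * (X : ℝ) ^ s := by
        apply mul_le_mul_of_nonneg_right _ hX0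
        rw [div_le_one hp]
        linarith
    _ = (X : ℝ) ^ s := one_mul _

/-- restricting the summation of one variable -/
theorem t7box_one (X : ℕ) (T : Finset ℕ) (G : ℕ → ℂ)
    (h1 : ∀ k, k ∈ Icc 1 X → k ∉ T → G k = 0) (h2 : ∀ k ∈ T, k ∉ Icc 1 X → G k = 0) :
    ∑ k ∈ Icc 1 X, G k = ∑ k ∈ T, G k := by
  rw [← Finset.sum_filter_of_ne (s := Icc 1 X) (p := fun k => k ∈ T),
    ← Finset.sum_filter_of_ne (s := T) (p := fun k => k ∈ Icc 1 X)]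
  · congr 1
    ext k
    simp only [Finset.mem_filter]
    tauto
  · intro k hk hne
    by_contra hc
    exact hne (h2 k hk hc)
  · intro k hk hne
    by_contra hc
    exact hne (h1 k hk hc)

theorem t7box_restrict (f g1 g2 : ℕ → ℝ) (X D N1 N2 : ℕ) (hN1 : 1 ≤ N1) (hN2 : 1 ≤ N2)
    (hf : ∀ n, f n ≠ 0 → n ≤ D)
    (hg1 : ∀ n, g1 n ≠ 0 → n ∈ Ico N1 (2 * N1)) (hg2 : ∀ n, g2 n ≠ 0 → n ∈ Ico N2 (2 * N2))
    (Q : ℕ → Prop) [DecidablePred Q] (F : ℕ → ℂ) :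
    ∑ m ∈ Icc 1 X, ∑ k1 ∈ Icc 1 X, ∑ k2 ∈ Icc 1 X, (if m * k1 * k2 ≤ X ∧ Q (m * k1 * k2) then
        ((f m * (g1 k1 * g2 k2) : ℝ) : ℂ) * F (m * k1 * k2) else 0) =
    ∑ m ∈ Icc 1 D, ∑ k1 ∈ Ico N1 (2 * N1), ∑ k2 ∈ Ico N2 (2 * N2),
      (if m * k1 * k2 ≤ X ∧ Q (m * k1 * k2) then
        ((f m * (g1 k1 * g2 k2) : ℝ) : ℂ) * F (m * k1 * k2) else 0) := by
  have e2 : ∀ m k1 : ℕ, 1 ≤ m → 1 ≤ k1 → ∑ k2 ∈ Icc 1 X,
      (if m * k1 * k2 ≤ X ∧ Q (m * k1 * k2) then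
        ((f m * (g1 k1 * g2 k2) : ℝ) : ℂ) * F (m * k1 * k2) else 0) =
      ∑ k2 ∈ Ico N2 (2 * N2), (if m * k1 * k2 ≤ X ∧ Q (m * k1 * k2) then
        ((f m * (g1 k1 * g2 k2) : ℝ) : ℂ) * F (m * k1 * k2) else 0) := by
    intro m k1 hm hk1
    refine t7box_one X _ _ ?_ ?_
    · intro k _ hk2
      have : g2 k = 0 := by
        by_contra h0
        exact hk2 (hg2 k h0)
      simp [this]
    · intro k hk hk2
      rw [Finset.mem_Ico] at hk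
      rw [Finset.mem_Icc] at hk2
      rw [if_neg]
      rintro ⟨hle, _⟩
      apply hk2
      refine ⟨by omega, le_trans ?_ hle⟩
      exact Nat.le_mul_of_pos_left _ (Nat.mul_pos (by omega) (by omega))
  have e1 : ∀ m : ℕ, 1 ≤ m → ∑ k1 ∈ Icc 1 X, ∑ k2 ∈ Icc 1 X,
      (if m * k1 * k2 ≤ X ∧ Q (m * k1 * k2) then
        ((f m * (g1 k1 * g2 k2) : ℝ) : ℂ) * F (m * k1 * k2) else 0) =
      ∑ k1 ∈ Ico N1 (2 * N1), ∑ k2 ∈ Ico N2 (2 * N2), (if m * k1 * k2 ≤ X ∧ Q (m * k1 * k2) then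
        ((f m * (g1 k1 * g2 k2) : ℝ) : ℂ) * F (m * k1 * k2) else 0) := by
    intro m hm
    have s1 : ∑ k1 ∈ Icc 1 X, ∑ k2 ∈ Icc 1 X,
      (if m * k1 * k2 ≤ X ∧ Q (m * k1 * k2) then
        ((f m * (g1 k1 * g2 k2) : ℝ) : ℂ) * F (m * k1 * k2) else 0) =
      ∑ k1 ∈ Icc 1 X, ∑ k2 ∈ Ico N2 (2 * N2), (if m * k1 * k2 ≤ X ∧ Q (m * k1 * k2) then
        ((f m * (g1 k1 * g2 k2) : ℝ) : ℂ) * F (m * k1 * k2) else 0) := by
      refine Finset.sum_congr rfl fun k1 hk1 => ?_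
      rw [Finset.mem_Icc] at hk1
      exact e2 m k1 hm hk1.1
    rw [s1]
    refine t7box_one X _ _ ?_ ?_
    · intro k _ hk2
      have : g1 k = 0 := by
        by_contra h0
        exact hk2 (hg1 k h0)
      simp [this]
    · intro k hk hk2
      rw [Finset.mem_Ico] at hk
      rw [Finset.mem_Icc] at hk2
      refine Finset.sum_eq_zero fun k2 hk2' => ?_
      rw [Finset.mem_Ico] at hk2'
      rw [if_neg]
      rintro ⟨hle, _⟩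
      apply hk2
      refine ⟨by omega, le_trans ?_ hle⟩
      calc k ≤ m * k := Nat.le_mul_of_pos_left _ (by omega)
        _ ≤ m * k * k2 := Nat.le_mul_of_pos_right _ (by omega)
  have s0 : ∑ m ∈ Icc 1 X, ∑ k1 ∈ Icc 1 X, ∑ k2 ∈ Icc 1 X,
      (if m * k1 * k2 ≤ X ∧ Q (m * k1 * k2) then
        ((f m * (g1 k1 * g2 k2) : ℝ) : ℂ) * F (m * k1 * k2) else 0) =
      ∑ m ∈ Icc 1 X, ∑ k1 ∈ Ico N1 (2 * N1), ∑ k2 ∈ Ico N2 (2 * N2),
      (if m * k1 * k2 ≤ X ∧ Q (m * k1 * k2) then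
        ((f m * (g1 k1 * g2 k2) : ℝ) : ℂ) * F (m * k1 * k2) else 0) := by
    refine Finset.sum_congr rfl fun m hm => ?_
    rw [Finset.mem_Icc] at hm
    exact e1 m hm.1
  rw [s0]
  refine t7box_one X _ _ ?_ ?_
  · intro m hm hm2
    rw [Finset.mem_Icc] at hm hm2
    have : f m = 0 := by
      by_contra h0
      exact hm2 ⟨hm.1, hf m h0⟩
    simp [this]
  · intro m hm hm2
    rw [Finset.mem_Icc] at hm hm2
    refine Finset.sum_eq_zero fun k1 hk1 => Finset.sum_eq_zero fun k2 hk2 => ?_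
    rw [Finset.mem_Ico] at hk1 hk2
    rw [if_neg]
    rintro ⟨hle, _⟩
    apply hm2
    refine ⟨hm.1, le_trans ?_ hle⟩
    calc m ≤ m * k1 := Nat.le_mul_of_pos_right _ (by omega)
      _ ≤ m * k1 * k2 := Nat.le_mul_of_pos_right _ (by omega)

end Pool.MP_dd84fd_nt.T7
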