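import Pool.Agent.Lib.MP_dd84fd_nt.T7.Defs
import Pool.Agent.Lib.MP_dd84fd_nt.L2G.Classify

/-!
T7-10 Classify45 (compare L2G/Classify). Let small := 2^(v j) < X^(1/24). If the product of all small ones is >= X^(1/24): adding them one by one, the first time the product is >= X^(1/24) it is
< X^(1/12) <= X^(2/5): second alternative. Otherwise, if some non-small 2^(v j) <= X^(2/5): S = {j}. Otherwise all non-small ones are > X^(2/5): at most two (product <= X). If the whole product is > X^(19/20), then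
the product of the non-small ones is > X^(19/20-1/24), so the largest is >= X^((19/20-1/24)/2) >= X^(9/20) > X^(1/3) >= z, so j < 3: third alternative.
-/

set_option autoImplicit false

namespace Pool.MP_dd84fd_nt.T7

open Finset Pool.MP_67663b_nt.Odd Pool.MP_dd84fd_nt.L2G

private theorem classify45_sub (v : Fin 6 → ℕ) (Y : ℝ) (hY : 1 ≤ Y) (T : Finset (Fin 6)) :
    (∀ j ∈ T, ((2 ^ v j : ℕ) : ℝ) < Y) → Y ≤ ((∏ j ∈ T, 2 ^ v j : ℕ) : ℝ) →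
    ∃ S : Finset (Fin 6), Y ≤ ((∏ j ∈ S, 2 ^ v j : ℕ) : ℝ) ∧
      ((∏ j ∈ S, 2 ^ v j : ℕ) : ℝ) ≤ Y * Y := by
  induction T using Finset.induction_on with
  | empty =>
    intro _ h
    refine ⟨∅, h, ?_⟩
    rw [Finset.prod_empty]
    push_cast
    nlinarith
  | insert j T hj ih =>
    intro h1 h2
    by_cases h : Y ≤ ((∏ j ∈ T, 2 ^ v j : ℕ) : ℝ)
    · exact ih (fun i hi => h1 i (Finset.mem_insert_of_mem hi)) h
    · refine ⟨insert j T, h2, ?_⟩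
      rw [Finset.prod_insert hj, Nat.cast_mul]
      have h3 := h1 j (Finset.mem_insert_self j T)
      rw [not_le] at h
      exact mul_le_mul h3.le h.le (Nat.cast_nonneg _) (by linarith)

theorem classify45 (X z : ℕ) (hX : 2 ≤ X) (hz : (z : ℝ) ≤ (X : ℝ) ^ (1 / 3 : ℝ))
    (v : Fin 6 → ℕ) (hv : ∏ j, 2 ^ v j ≤ X) (hv2 : ∀ j : Fin 6, 3 ≤ (j : ℕ) → 2 ^ v j ≤ z) :
    (((∏ j, 2 ^ v j : ℕ) : ℝ) ≤ (X : ℝ) ^ (19 / 20 : ℝ)) ∨
    (∃ S : Finset (Fin 6), (X : ℝ) ^ (1 / 24 : ℝ) ≤ ((∏ j ∈ S, 2 ^ v j : ℕ) : ℝ) ∧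
      ((∏ j ∈ S, 2 ^ v j : ℕ) : ℝ) ≤ (X : ℝ) ^ (2 / 5 : ℝ)) ∨
    (∃ j : Fin 6, (j : ℕ) < 3 ∧ (X : ℝ) ^ (9 / 20 : ℝ) ≤ ((2 ^ v j : ℕ) : ℝ)) := by
  classical
  have hX1 : (1 : ℝ) ≤ X := by exact_mod_cast (by omega : 1 ≤ X)
  have hX1' : (1 : ℝ) < X := by exact_mod_cast (by omega : 1 < X)
  have hX0 : (0 : ℝ) < X := by linarith
  set Y : ℝ := (X : ℝ) ^ (1 / 24 : ℝ) with hYdef
  have hY0 : 0 < Y := Real.rpow_pos_of_pos hX0 _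
  have hY1 : 1 ≤ Y := Real.one_le_rpow hX1 (by norm_num)
  have hYY : Y * Y ≤ (X : ℝ) ^ (2 / 5 : ℝ) := by
    rw [hYdef, ← Real.rpow_add hX0]
    exact Real.rpow_le_rpow_of_exponent_le hX1 (by norm_num)
  set T : Finset (Fin 6) := univ.filter (fun j => ((2 ^ v j : ℕ) : ℝ) < Y) with hT
  by_cases hA : Y ≤ ((∏ j ∈ T, 2 ^ v j : ℕ) : ℝ)
  · right; left
    obtain ⟨S, h1, h2⟩ := classify45_sub v Y hY1 T
      (fun j hj => (Finset.mem_filter.mp hj).2) hA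
    exact ⟨S, h1, h2.trans hYY⟩
  rw [not_le] at hA
  by_cases hB : ∃ j : Fin 6, Y ≤ ((2 ^ v j : ℕ) : ℝ) ∧ ((2 ^ v j : ℕ) : ℝ) ≤ (X : ℝ) ^ (2 / 5 : ℝ)
  · right; left
    obtain ⟨j, h1, h2⟩ := hB
    refine ⟨{j}, ?_, ?_⟩
    · rw [Finset.prod_singleton]; exact h1
    · rw [Finset.prod_singleton]; exact h2
  by_cases hC : ∃ j : Fin 6, (X : ℝ) ^ (9 / 20 : ℝ) ≤ ((2 ^ v j : ℕ) : ℝ)
  · right; right
    obtain ⟨j, hj⟩ := hC
    refine ⟨j, ?_, hj⟩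
    by_contra h3
    have h4 : ((2 ^ v j : ℕ) : ℝ) ≤ z := by exact_mod_cast hv2 j (by omega)
    have h5 : (X : ℝ) ^ (1 / 3 : ℝ) < (X : ℝ) ^ (9 / 20 : ℝ) :=
      Real.rpow_lt_rpow_of_exponent_lt hX1' (by norm_num)
    linarith
  left
  push Not at hC
  have hN : ∀ j ∈ Tᶜ, (X : ℝ) ^ (2 / 5 : ℝ) < ((2 ^ v j : ℕ) : ℝ) := by
    intro j hj
    by_contra h
    rw [not_lt] at h
    apply hB
    refine ⟨j, ?_, h⟩
    rw [hT, Finset.mem_compl, Finset.mem_filter, not_and, not_lt] at hj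
    exact hj (Finset.mem_univ j)
  have hsplit : (∏ j ∈ T, 2 ^ v j) * (∏ j ∈ Tᶜ, 2 ^ v j) = ∏ j, 2 ^ v j :=
    Finset.prod_mul_prod_compl T _
  have hle : (∏ j ∈ Tᶜ, 2 ^ v j) ≤ X := by
    refine le_trans ?_ hv
    rw [← hsplit]
    exact Nat.le_mul_of_pos_left _ (Finset.prod_pos (fun j _ => by positivity))
  have hlow : ((X : ℝ) ^ (2 / 5 : ℝ)) ^ (Tᶜ).card ≤ (X : ℝ) := by
    have h1 : ∏ _j ∈ Tᶜ, ((X : ℝ) ^ (2 / 5 : ℝ)) ≤ ∏ j ∈ Tᶜ, ((2 ^ v j : ℕ) : ℝ) :=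
      Finset.prod_le_prod (fun j _ => (Real.rpow_pos_of_pos hX0 _).le) (fun j hj => (hN j hj).le)
    rw [Finset.prod_const] at h1
    refine h1.trans ?_
    rw [← Nat.cast_prod]
    exact_mod_cast hle
  have hcard : (Tᶜ).card ≤ 2 := by
    by_contra h
    have h3 : 3 ≤ (Tᶜ).card := by omega
    rw [← Real.rpow_natCast, ← Real.rpow_mul hX0.le] at hlow
    have h4 : (X : ℝ) < (X : ℝ) ^ (2 / 5 * ((Tᶜ).card : ℝ)) := by
      conv_lhs => rw [← Real.rpow_one (X : ℝ)]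
      apply Real.rpow_lt_rpow_of_exponent_lt hX1'
      have : (3 : ℝ) ≤ ((Tᶜ).card : ℝ) := by exact_mod_cast h3
      linarith
    linarith
  have hup : ((∏ j ∈ Tᶜ, 2 ^ v j : ℕ) : ℝ) ≤ (X : ℝ) ^ (9 / 10 : ℝ) := by
    rw [Nat.cast_prod]
    have h1 : ∏ j ∈ Tᶜ, ((2 ^ v j : ℕ) : ℝ) ≤ ∏ _j ∈ Tᶜ, ((X : ℝ) ^ (9 / 20 : ℝ)) :=
      Finset.prod_le_prod (fun j _ => Nat.cast_nonneg _) (fun j _ => (hC j).le)
    rw [Finset.prod_const] at h1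
    refine h1.trans ?_
    rw [← Real.rpow_natCast, ← Real.rpow_mul hX0.le]
    apply Real.rpow_le_rpow_of_exponent_le hX1
    have : ((Tᶜ).card : ℝ) ≤ 2 := by exact_mod_cast hcard
    linarith
  rw [← hsplit, Nat.cast_mul]
  have h1 : ((∏ j ∈ T, 2 ^ v j : ℕ) : ℝ) * ((∏ j ∈ Tᶜ, 2 ^ v j : ℕ) : ℝ) ≤
      Y * (X : ℝ) ^ (9 / 10 : ℝ) :=
    mul_le_mul hA.le hup (Nat.cast_nonneg _) hY0.le
  refine h1.trans ?_
  rw [hYdef, ← Real.rpow_add hX0]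
  exact Real.rpow_le_rpow_of_exponent_le hX1 (by norm_num)

end Pool.MP_dd84fd_nt.T7
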