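import Pool.Agent.Lib.MP_dd84fd_nt.T7.Defs

/-!
T7-40 (definition of the main term on the major arcs).
-/

set_option autoImplicit false

namespace Pool.MP_dd84fd_nt.T7

open Finset Pool.MP_67663b_nt.Odd Pool.MP_dd84fd_nt.L2G

/-- the main term on the major arcs -/
noncomputable def MT2 (X q r : ℕ) [NeZero q] (β : ℝ) (a : ZMod q) : ℂ :=
  (((((ArithmeticFunction.moebius r : ℤ) : ℝ) / (Nat.totient r : ℝ)) ^ 2 *
    ((Nc q a : ℝ) / (Nat.totient q : ℝ) ^ 2) : ℝ) : ℂ) *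
      (Se X (sd X) β * Se X (fun _ => 1) β)

end Pool.MP_dd84fd_nt.T7
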