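import Pool.Agent.Lib.MP_dd84fd_nt.T7.Defs

/-!
T7-34 DenGrid. Pure arithmetic: the first sum is 0.84198..., the second 0.08422... (265 and 286 nonzero terms). Each term is bounded from above by an integer multiple of 10^(-9).
-/

set_option autoImplicit false

namespace Pool.MP_dd84fd_nt.T7

open Finset Pool.MP_67663b_nt.Odd Pool.MP_dd84fd_nt.L2G

private def g3 (i j : ℕ) : ℕ :=
  if i ≤ j ∧ 2 * i + j ≤ 40 then
    10 ^ 11 / ((20 + i) * (20 + j) * max (58 - i - j) (20 + i)) + 1 else 0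

private def g4 (i j k : ℕ) : ℕ :=
  if i ≤ j ∧ i ≤ k ∧ i + j + 2 * k ≤ 20 then
    10 ^ 11 / ((20 + i) * (20 + j) * (20 + k) * max (37 - i - j - k) (20 + k)) + 1 else 0

private theorem g3_sum : ∑ i ∈ range 14, ∑ j ∈ range 30, g3 i j ≤ 842100000 := by
  decide +kernel

private theorem g4_sum : ∑ i ∈ range 21, ∑ j ∈ range 21, ∑ k ∈ range 21, g4 i j k ≤ 84300000 := by
  decide +kernel

private theorem div_up (D : ℕ) (hD : 0 < D) :
    100 / (D : ℝ) ≤ ((10 ^ 11 / D + 1 : ℕ) : ℝ) / 10 ^ 9 := by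
  have hDR : (0 : ℝ) < D := by exact_mod_cast hD
  have h1 : 10 ^ 11 < D * (10 ^ 11 / D + 1) := Nat.lt_mul_div_succ _ hD
  have h2 : (10 : ℝ) ^ 11 < D * ((10 ^ 11 / D + 1 : ℕ) : ℝ) := by exact_mod_cast h1
  rw [div_le_div_iff₀ hDR (by positivity)]
  linarith

theorem grid3 : ∑ i ∈ range 14, ∑ j ∈ range 30,
    (if i ≤ j ∧ 2 * i + j ≤ 40 then
      1 / ((20 + i : ℝ) * (20 + j)) * (100 / max (58 - i - j : ℝ) (20 + i)) else 0) ≤
    8421 / 10000 := by
  have hterm : ∀ i ∈ range 14, ∀ j ∈ range 30,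
      (if i ≤ j ∧ 2 * i + j ≤ 40 then
        1 / ((20 + i : ℝ) * (20 + j)) * (100 / max (58 - i - j : ℝ) (20 + i)) else 0) ≤
      ((g3 i j : ℕ) : ℝ) / 10 ^ 9 := by
    intro i hi j hj
    rw [Finset.mem_range] at hi hj
    unfold g3
    split_ifs with h
    · have hm : ((max (58 - i - j) (20 + i) : ℕ) : ℝ) = max (58 - i - j : ℝ) (20 + i) := by
        rw [Nat.cast_max, Nat.cast_sub (by omega), Nat.cast_sub (by omega)]
        push_cast
        rfl
      have hm0 : 0 < max (58 - i - j) (20 + i) := lt_of_lt_of_le (by omega) (le_max_right _ _)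
      refine le_trans (le_of_eq ?_) (div_up ((20 + i) * (20 + j) * max (58 - i - j) (20 + i))
        (by positivity))
      rw [← hm]
      push_cast
      field_simp
    · simp
  refine (Finset.sum_le_sum fun i hi => Finset.sum_le_sum fun j hj => hterm i hi j hj).trans ?_
  simp_rw [← Finset.sum_div]
  rw [div_le_iff₀ (by positivity)]
  have h := g3_sum
  have h2 : ((∑ i ∈ range 14, ∑ j ∈ range 30, g3 i j : ℕ) : ℝ) ≤ 842100000 := by exact_mod_cast h
  push_cast at h2
  linarith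

theorem grid4 : ∑ i ∈ range 21, ∑ j ∈ range 21, ∑ k ∈ range 21,
    (if i ≤ j ∧ i ≤ k ∧ i + j + 2 * k ≤ 20 then
      1 / ((20 + i : ℝ) * (20 + j) * (20 + k)) * (100 / max (37 - i - j - k : ℝ) (20 + k)) else 0) ≤
    843 / 10000 := by
  have hterm : ∀ i ∈ range 21, ∀ j ∈ range 21, ∀ k ∈ range 21,
      (if i ≤ j ∧ i ≤ k ∧ i + j + 2 * k ≤ 20 then
        1 / ((20 + i : ℝ) * (20 + j) * (20 + k)) *
          (100 / max (37 - i - j - k : ℝ) (20 + k)) else 0) ≤
      ((g4 i j k : ℕ) : ℝ) / 10 ^ 9 := by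
    intro i hi j hj k hk
    rw [Finset.mem_range] at hi hj hk
    unfold g4
    split_ifs with h
    · have hm : ((max (37 - i - j - k) (20 + k) : ℕ) : ℝ) = max (37 - i - j - k : ℝ) (20 + k) := by
        rw [Nat.cast_max, Nat.cast_sub (by omega), Nat.cast_sub (by omega),
          Nat.cast_sub (by omega)]
        push_cast
        rfl
      have hm0 : 0 < max (37 - i - j - k) (20 + k) := lt_of_lt_of_le (by omega) (le_max_right _ _)
      refine le_trans (le_of_eq ?_)
        (div_up ((20 + i) * (20 + j) * (20 + k) * max (37 - i - j - k) (20 + k))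
        (by positivity))
      rw [← hm]
      push_cast
      field_simp
    · simp
  refine (Finset.sum_le_sum fun i hi => Finset.sum_le_sum fun j hj =>
    Finset.sum_le_sum fun k hk => hterm i hi j hj k hk).trans ?_
  simp_rw [← Finset.sum_div]
  rw [div_le_iff₀ (by positivity)]
  have h := g4_sum
  have h2 : ((∑ i ∈ range 21, ∑ j ∈ range 21, ∑ k ∈ range 21, g4 i j k : ℕ) : ℝ) ≤
    84300000 := by exact_mod_cast h
  push_cast at h2
  linarith

end Pool.MP_dd84fd_nt.T7
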