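import Pool.Agent.Lib.MP_dd84fd_nt.T7.Den3Base
import Pool.Agent.Lib.MP_dd84fd_nt.T7.DenGrid

set_option autoImplicit false

namespace Pool.MP_dd84fd_nt.T7

open Finset Pool.MP_67663b_nt.Odd Pool.MP_dd84fd_nt.L2G

theorem n3_le_core
    (h_div : ∀ (η : ℝ) (hη : 0 < η), ∃ X0 : ℕ, ∀ X : ℕ, X0 ≤ X → ∀ y : ℕ, X ≤ 2 * y →
    y ≤ X → ∀ d e : ℕ, 1 ≤ d → zS X ≤ e → d * e ≤ y → ∀ α β : ℝ, 20 ≤ α →
    α * Real.log X ≤ 100 * Real.log e → 100 * Real.log d ≤ β * Real.log X →
    pc (y / d) ≤ (1 + η) * ((y : ℝ) / Real.log X) * ((1 / (d : ℝ)) *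
      (100 / max (100 - β) α)))
    (h_cS : ∀ (η : ℝ) (hη : 0 < η), ∃ X0 : ℕ, ∀ X : ℕ, X0 ≤ X → ∀ i : ℕ, i < 30 →
    cS X i ≤ 1 / (20 + i : ℝ) + η)
    : ∃ X0 : ℕ, ∀ X : ℕ, X0 ≤ X → ∀ y : ℕ, X ≤ 2 * y → y ≤ X →
    N3 X y ≤ (8425 / 10000 : ℝ) * (y / Real.log X) := by
  obtain ⟨X1, hX1⟩ := h_div (1 / 100000) (by norm_num)
  obtain ⟨X2, hX2⟩ := h_cS (1 / 10000000) (by norm_num)
  refine ⟨max (max X1 X2) 2, fun X hX y hy1 hy2 => ?_⟩
  have hXX1 : X1 ≤ X := le_trans (le_trans (le_max_left _ _) (le_max_left _ _)) hX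
  have hXX2 : X2 ≤ X := le_trans (le_trans (le_max_right _ _) (le_max_left _ _)) hX
  have hXge : 2 ≤ X := le_trans (le_max_right _ _) hX
  have hXr : (1 : ℝ) < X := by exact_mod_cast (by omega : 1 < X)
  have hL : 0 < Real.log X := Real.log_pos hXr
  have hz : 1 ≤ zS X := by
    by_contra hc
    have hc' : zS X = 0 := by omega
    have := zS_pow X
    rw [hc'] at this
    norm_num at this
    omega
  let c : ℕ → ℕ → ℝ := fun i j => if i ≤ j ∧ 2 * i + j ≤ 40 then
    100 / max (58 - i - j : ℝ) (20 + i) else 0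
  have hmax : ∀ i j : ℕ, (20 : ℝ) ≤ max (58 - i - j : ℝ) (20 + i) := fun i j =>
    le_trans (by have : (0 : ℝ) ≤ i := Nat.cast_nonneg i
                 linarith) (le_max_right _ _)
  have hc0 : ∀ i j, 0 ≤ c i j := by
    intro i j
    show 0 ≤ (if i ≤ j ∧ 2 * i + j ≤ 40 then 100 / max (58 - i - j : ℝ) (20 + i) else 0)
    split_ifs
    · have := hmax i j
      positivity
    · exact le_rfl
  have hc5 : ∀ i j, c i j ≤ 5 := by
    intro i j
    show (if i ≤ j ∧ 2 * i + j ≤ 40 then 100 / max (58 - i - j : ℝ) (20 + i) else 0) ≤ 5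
    split_ifs
    · have := hmax i j
      rw [div_le_iff₀ (by linarith)]
      linarith
    · norm_num
  set M : ℝ := (1 + 1 / 100000) * ((y : ℝ) / Real.log X) with hM
  have hM0 : 0 ≤ M := by positivity
  -- pointwise bound
  have hpt : ∀ a ∈ (Icc (zS X) X).filter Nat.Prime, ∀ p ∈ (Icc (a + 1) X).filter
      (fun p => p.Prime ∧ p ^ 2 ≤ X ∧ a ^ 2 * p ≤ y), pc (y / (a * p)) ≤
      M * ∑ i ∈ range 14, ∑ j ∈ range 30, c i j * (cg X i a * cg X j p) := by
    intro a ha p hp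
    rw [mem_filter, mem_Icc] at ha hp
    obtain ⟨⟨haz, haX⟩, hap⟩ := ha
    obtain ⟨⟨hpa, hpX⟩, hpp, hp2, hapy⟩ := hp
    have ha1 : 1 ≤ a := hap.one_lt.le
    have hzp : zS X ≤ p := by omega
    have ha2 : a ^ 2 ≤ X := le_trans (Nat.pow_le_pow_left (by omega) 2) hp2
    obtain ⟨hi1, hi2⟩ := cix_spec X a hXge haz ha2
    obtain ⟨hj1, hj2⟩ := cix_spec X p hXge hzp hp2
    have hij : cix X a ≤ cix X p := cix_mono X a p hXge ha1 (by omega)
    set i := cix X a with hi
    set j := cix X p with hj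
    have har : (0 : ℝ) < a := by exact_mod_cast hap.pos
    have hpr : (0 : ℝ) < p := by exact_mod_cast hpp.pos
    have hsum : 2 * i + j ≤ 40 := by
      have h1 : ((a : ℝ)) ^ 2 * p ≤ X := by exact_mod_cast le_trans hapy hy2
      have h2 : Real.log ((a : ℝ) ^ 2 * p) ≤ Real.log X := Real.log_le_log (by positivity) h1
      rw [Real.log_mul (by positivity) hpr.ne', Real.log_pow] at h2
      have h3 : ((2 * i + j + 60 : ℕ) : ℝ) * Real.log X ≤ 100 * Real.log X := by
        push_cast at h2 ⊢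
        linarith
      have h4 : ((2 * i + j + 60 : ℕ) : ℝ) ≤ 100 := le_of_mul_le_mul_right h3 hL
      have h5 : 2 * i + j + 60 ≤ 100 := by exact_mod_cast h4
      omega
    have hj30 : j < 30 := by
      rw [hj, cix]
      exact lt_of_le_of_lt (min_le_left _ _) (by norm_num)
    have hi14 : i < 14 := by omega
    have h1 := hX1 X hXX1 y hy1 hy2 (a * p) a (Nat.mul_pos hap.pos hpp.pos) haz
      (by calc a * p * a = a ^ 2 * p := by ring
            _ ≤ y := hapy) (20 + i) (42 + i + j)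
      (by have : (0 : ℝ) ≤ (i : ℝ) := Nat.cast_nonneg i
          linarith) hi1
      (by rw [Nat.cast_mul, Real.log_mul har.ne' hpr.ne']
          linarith)
    have h2 : c i j * (cg X i a * cg X j p) ≤
        ∑ i ∈ range 14, ∑ j ∈ range 30, c i j * (cg X i a * cg X j p) := by
      have h3 : c i j * (cg X i a * cg X j p) ≤ ∑ j ∈ range 30, c i j * (cg X i a * cg X j p) :=
        single_le_sum (f := fun j => c i j * (cg X i a * cg X j p))
          (fun j _ => mul_nonneg (hc0 _ _) (mul_nonneg (cg_nonneg _ _ _) (cg_nonneg _ _ _)))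
          (mem_range.2 hj30)
      exact h3.trans (single_le_sum (f := fun i => ∑ j ∈ range 30, c i j * (cg X i a * cg X j p))
        (fun i _ => sum_nonneg fun j _ =>
          mul_nonneg (hc0 _ _) (mul_nonneg (cg_nonneg _ _ _) (cg_nonneg _ _ _)))
        (mem_range.2 hi14))
    refine h1.trans ?_
    refine (le_of_eq ?_).trans (mul_le_mul_of_nonneg_left h2 hM0)
    have e1 : cg X i a = 1 / (a : ℝ) := cg_cix X a hXge hap haz ha2
    have e2 : cg X j p = 1 / (p : ℝ) := cg_cix X p hXge hpp hzp hp2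
    have e3 : c i j = 100 / max (58 - i - j : ℝ) (20 + i) := if_pos ⟨hij, hsum⟩
    rw [e1, e2, e3, hM]
    have e4 : (100 - (42 + (i : ℝ) + j)) = 58 - i - j := by ring
    rw [e4]
    push_cast
    field_simp
  have hG0 : ∀ a p : ℕ, 0 ≤ M * ∑ i ∈ range 14, ∑ j ∈ range 30, c i j * (cg X i a * cg X j p) :=
    fun a p => mul_nonneg hM0 (sum_nonneg fun i _ => sum_nonneg fun j _ =>
      mul_nonneg (hc0 _ _) (mul_nonneg (cg_nonneg _ _ _) (cg_nonneg _ _ _)))
  have hN : N3 X y ≤ ∑ a ∈ Icc 1 X, ∑ p ∈ Icc 1 X,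
      M * ∑ i ∈ range 14, ∑ j ∈ range 30, c i j * (cg X i a * cg X j p) := by
    unfold N3
    refine (sum_le_sum fun a ha => sum_le_sum (hpt a ha)).trans ?_
    refine (sum_le_sum (g := fun a => ∑ p ∈ Icc 1 X,
      M * ∑ i ∈ range 14, ∑ j ∈ range 30, c i j * (cg X i a * cg X j p)) fun a ha => ?_).trans
      (sum_le_sum_of_subset_of_nonneg ?_ ?_)
    · refine sum_le_sum_of_subset_of_nonneg ?_ fun p _ _ => hG0 a p
      intro p hp
      rw [mem_filter, mem_Icc] at hp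
      exact mem_Icc.2 ⟨by omega, hp.1.2⟩
    · intro a ha
      rw [mem_filter, mem_Icc] at ha
      exact mem_Icc.2 ⟨by omega, ha.1.2⟩
    · exact fun a _ _ => sum_nonneg fun p _ => hG0 a p
  have hswap : ∑ a ∈ Icc 1 X, ∑ p ∈ Icc 1 X,
      M * ∑ i ∈ range 14, ∑ j ∈ range 30, c i j * (cg X i a * cg X j p) =
      M * ∑ i ∈ range 14, ∑ j ∈ range 30, c i j * (cS X i * cS X j) := by
    simp_rw [← mul_sum]
    congr 1
    have e1 : ∀ a ∈ Icc 1 X, ∑ p ∈ Icc 1 X, ∑ i ∈ range 14, ∑ j ∈ range 30,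
        c i j * (cg X i a * cg X j p) = ∑ i ∈ range 14, ∑ j ∈ range 30,
        c i j * (cg X i a * cS X j) := by
      intro a _
      rw [sum_comm]
      refine sum_congr rfl fun i _ => ?_
      rw [sum_comm]
      refine sum_congr rfl fun j _ => ?_
      rw [cS, mul_sum, mul_sum]
    rw [sum_congr rfl e1, sum_comm]
    refine sum_congr rfl fun i _ => ?_
    rw [sum_comm]
    refine sum_congr rfl fun j _ => ?_
    rw [← mul_sum, ← sum_mul]
    rfl
  have hterm : ∀ i ∈ range 14, ∀ j ∈ range 30, c i j * (cS X i * cS X j) ≤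
      (if i ≤ j ∧ 2 * i + j ≤ 40 then
        1 / ((20 + i : ℝ) * (20 + j)) * (100 / max (58 - i - j : ℝ) (20 + i)) else 0) +
      1 / 10000000 := by
    intro i hi j hj
    have hi' := mem_range.1 hi
    have hj' := mem_range.1 hj
    have s1 := hX2 X hXX2 i (by omega)
    have s2 := hX2 X hXX2 j hj'
    have n1 := cS_nonneg X i
    have n2 := cS_nonneg X j
    have x1 : 1 / (20 + i : ℝ) ≤ 1 / 20 := by
      apply one_div_le_one_div_of_le (by norm_num)
      have : (0 : ℝ) ≤ i := Nat.cast_nonneg i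
      linarith
    have x2 : 1 / (20 + j : ℝ) ≤ 1 / 20 := by
      apply one_div_le_one_div_of_le (by norm_num)
      have : (0 : ℝ) ≤ j := Nat.cast_nonneg j
      linarith
    have x3 : 0 < 1 / (20 + i : ℝ) := by positivity
    have x4 : 0 < 1 / (20 + j : ℝ) := by positivity
    have p1 : cS X i * cS X j ≤ 1 / (20 + i : ℝ) * (1 / (20 + j : ℝ)) + 1 / 10000000 / 5 := by
      have q1 : cS X i * cS X j ≤ (1 / (20 + i : ℝ) + 1 / 10000000) *
          (1 / (20 + j : ℝ) + 1 / 10000000) := mul_le_mul s1 s2 n2 (by positivity)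
      refine q1.trans ?_
      nlinarith
    have hcc := hc0 i j
    have hcc5 := hc5 i j
    have p2 : c i j * (cS X i * cS X j) ≤
        c i j * (1 / (20 + i : ℝ) * (1 / (20 + j : ℝ)) + 1 / 10000000 / 5) :=
      mul_le_mul_of_nonneg_left p1 hcc
    refine p2.trans ?_
    have p3 : c i j * (1 / 10000000 / 5) ≤ 1 / 10000000 := by nlinarith
    have p4 : c i j * (1 / (20 + i : ℝ) * (1 / (20 + j : ℝ))) =
        (if i ≤ j ∧ 2 * i + j ≤ 40 then
        1 / ((20 + i : ℝ) * (20 + j)) * (100 / max (58 - i - j : ℝ) (20 + i)) else 0) := by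
      show (if i ≤ j ∧ 2 * i + j ≤ 40 then 100 / max (58 - i - j : ℝ) (20 + i) else 0) *
        (1 / (20 + i : ℝ) * (1 / (20 + j : ℝ))) = _
      split_ifs
      · rw [one_div_mul_one_div, mul_comm]
      · rw [zero_mul]
    rw [mul_add, p4]
    linarith
  have hgrid : ∑ i ∈ range 14, ∑ j ∈ range 30, c i j * (cS X i * cS X j) ≤ 8422 / 10000 := by
    refine (sum_le_sum fun i hi => sum_le_sum (hterm i hi)).trans ?_
    simp_rw [sum_add_distrib]
    have h1 := grid3
    have h2 : ∑ i ∈ range 14, ∑ j ∈ range 30, (1 / 10000000 : ℝ) = 42 / 1000000 := by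
      simp only [sum_const, card_range, nsmul_eq_mul]
      norm_num
    rw [h2]
    linarith
  rw [hswap] at hN
  have h3 := mul_le_mul_of_nonneg_left hgrid hM0
  refine (hN.trans h3).trans ?_
  rw [hM]
  have h4 : 0 ≤ (y : ℝ) / Real.log X := by positivity
  nlinarith

end Pool.MP_dd84fd_nt.T7
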