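import Pool.Agent.Lib.MP_dd84fd_nt.T7.Defs

/-!
T7-31 (definitions for the density of Sv).
-/

set_option autoImplicit false

namespace Pool.MP_dd84fd_nt.T7

open Finset Pool.MP_67663b_nt.Odd Pool.MP_dd84fd_nt.L2G

/-- the number of primes `≤ t` -/
noncomputable def pc (t : ℕ) : ℝ := (((Icc 1 t).filter Nat.Prime).card : ℝ)

noncomputable def N3 (X y : ℕ) : ℝ :=
  ∑ a ∈ (Icc (zS X) X).filter Nat.Prime,
    ∑ p ∈ (Icc (a + 1) X).filter (fun p => p.Prime ∧ p ^ 2 ≤ X ∧ a ^ 2 * p ≤ y), pc (y / (a * p))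

noncomputable def N4 (X y : ℕ) : ℝ :=
  ∑ a ∈ (Icc (zS X) X).filter Nat.Prime,
    ∑ p ∈ (Icc (a + 1) X).filter (fun p => p.Prime ∧ p ^ 2 ≤ X),
      ∑ b ∈ (Icc a X).filter (fun b => b.Prime ∧ a * p * b ^ 2 ≤ y), pc (y / (a * p * b))

end Pool.MP_dd84fd_nt.T7
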