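import Pool.Agent.Lib.MP_dd84fd_nt.T7.DenPiCore
import Pool.Agent.Lib.MP_dd84fd_nt.T7.DenDefs
import Pool.Agent.Lib.MP_dd84fd_nt.E2.PiSW
import Pool.Agent.Lib.MP_dd84fd_nt.SW.SWPsi

set_option autoImplicit false

namespace Pool.MP_dd84fd_nt.T7

open Finset Pool.MP_67663b_nt.Odd Pool.MP_dd84fd_nt.L2G

theorem pc_asymp (η : ℝ) (hη : 0 < η) : ∃ t0 : ℕ, ∀ t : ℕ, t0 ≤ t →
    (1 - η) * (t / Real.log t) ≤ pc t ∧ pc t ≤ (1 + η) * (t / Real.log t) :=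
  pc_asymp_core Pool.MP_dd84fd_nt.SW.sw_theta η hη

theorem mert_cell (u v η : ℝ) (hu : 0 < u) (huv : u ≤ v) (hη : 0 < η) : ∃ X0 : ℕ, ∀ X : ℕ,
    X0 ≤ X → ∑ p ∈ (Icc 1 X).filter (fun p : ℕ => p.Prime ∧ (X : ℝ) ^ u ≤ p ∧ (p : ℝ) ≤ (X : ℝ) ^ v),
      1 / (p : ℝ) ≤ (v - u) / u + η :=
  mert_cell_core Pool.MP_dd84fd_nt.SW.sw_theta u v η hu huv hη

end Pool.MP_dd84fd_nt.T7
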