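import Pool.Agent.Lib.MP_dd84fd_nt.T7.Den3Base
import Pool.Agent.Lib.MP_dd84fd_nt.T7.Den3Core
import Pool.Agent.Lib.MP_dd84fd_nt.T7.DenPi
import Pool.Agent.Lib.MP_dd84fd_nt.T7.DenGrid
import Pool.Agent.Lib.MP_dd84fd_nt.T7.SvBasic

set_option autoImplicit false

namespace Pool.MP_dd84fd_nt.T7

open Finset Pool.MP_67663b_nt.Odd Pool.MP_dd84fd_nt.L2G

theorem den_pc_div_le (η : ℝ) (hη : 0 < η) : ∃ X0 : ℕ, ∀ X : ℕ, X0 ≤ X → ∀ y : ℕ, X ≤ 2 * y →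
    y ≤ X → ∀ d e : ℕ, 1 ≤ d → zS X ≤ e → d * e ≤ y → ∀ α β : ℝ, 20 ≤ α →
    α * Real.log X ≤ 100 * Real.log e → 100 * Real.log d ≤ β * Real.log X →
    pc (y / d) ≤ (1 + η) * ((y : ℝ) / Real.log X) * ((1 / (d : ℝ)) *
      (100 / max (100 - β) α)) :=
  den_pc_div_le_core pc_asymp η hη

theorem cS_le (η : ℝ) (hη : 0 < η) : ∃ X0 : ℕ, ∀ X : ℕ, X0 ≤ X → ∀ i : ℕ, i < 30 →
    cS X i ≤ 1 / (20 + i : ℝ) + η :=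
  cS_le_core mert_cell η hη

theorem n3_le : ∃ X0 : ℕ, ∀ X : ℕ, X0 ≤ X → ∀ y : ℕ, X ≤ 2 * y → y ≤ X →
    N3 X y ≤ (8425 / 10000 : ℝ) * (y / Real.log X) :=
  n3_le_core den_pc_div_le cS_le

end Pool.MP_dd84fd_nt.T7
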