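import Pool.Agent.Lib.MP_dd84fd_nt.T7.DenDefs
import Pool.Agent.Lib.MP_dd84fd_nt.T7.SvBasic

/-!
T7-35 Den3. L = log X. Cells: for a prime a >= zS X write i = floor((log a/L - 1/5)*100), j in the same way for p, capped at 29: X^((20+i)/100) <= a <= X^((21+i)/100), X^((20+j)/100) <= p <= X^((21+j)/100) (p^2 <= X gives log p/L <= 1/2, cap 29 is fine).
For a pair (a,p) in the sum N3: a < p gives i <= j; a^2 p <= y <= X gives 2(20+i)+(20+j) <= 100, i.e. 2i+j <= 40 (so i <= 13). y/(ap) >= a (Nat division fine: a^2p <= y) and y/(ap) >= X/(4ap):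
log(y/(ap)) >= L max(20+i, 58-i-j)/100 - log 4. With h_as: pc(y/(ap)) <= (1+eta) (y/(ap))/log(y/(ap)) (t/log t monotone; or log of the floor >= log - small). So N3 <= (1+eta')(y/L) sum_{cells} (100/max(..)) S_i S_j,
S_i = sum over primes in the cell of 1/p <= 1/(20+i) + eta'' (h_mc: (v-u)/u = 1/(20+i)). Finitely many cells: choose eta'' small; grid3: <= (0.8421+small) y/L.
-/

set_option autoImplicit false

namespace Pool.MP_dd84fd_nt.T7

open Finset Pool.MP_67663b_nt.Odd Pool.MP_dd84fd_nt.L2G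

/-- `pc (y / d)` for `d * e ≤ y`, `e ≥ zS X` -/
theorem den_pc_div_le_core
    (h_as : ∀ (η : ℝ) (hη : 0 < η), ∃ t0 : ℕ, ∀ t : ℕ, t0 ≤ t →
    (1 - η) * (t / Real.log t) ≤ pc t ∧ pc t ≤ (1 + η) * (t / Real.log t))
    (η : ℝ) (hη : 0 < η) : ∃ X0 : ℕ, ∀ X : ℕ, X0 ≤ X → ∀ y : ℕ, X ≤ 2 * y →
    y ≤ X → ∀ d e : ℕ, 1 ≤ d → zS X ≤ e → d * e ≤ y → ∀ α β : ℝ, 20 ≤ α →
    α * Real.log X ≤ 100 * Real.log e → 100 * Real.log d ≤ β * Real.log X →
    pc (y / d) ≤ (1 + η) * ((y : ℝ) / Real.log X) * ((1 / (d : ℝ)) *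
      (100 / max (100 - β) α)) := by
  obtain ⟨t0, ht0⟩ := h_as (η / 2) (by positivity)
  obtain ⟨X1, hX1⟩ : ∃ X1 : ℕ, ∀ X : ℕ, X1 ≤ X → 20 * (1 + η) / η ≤ Real.log X := by
    have h := (Real.tendsto_log_atTop.comp tendsto_natCast_atTop_atTop).eventually_ge_atTop
      (20 * (1 + η) / η)
    obtain ⟨X1, hX1⟩ := Filter.eventually_atTop.1 h
    exact ⟨X1, fun X hX => hX1 X hX⟩
  refine ⟨max (max X1 ((t0 + 1) ^ 5)) 2, fun X hX y hy1 hy2 d e hd he hde α β hα h1 h2 => ?_⟩
  have hXX1 : X1 ≤ X := le_trans (le_trans (le_max_left _ _) (le_max_left _ _)) hX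
  have hXt : (t0 + 1) ^ 5 ≤ X := le_trans (le_trans (le_max_right _ _) (le_max_left _ _)) hX
  have hX2 : 2 ≤ X := le_trans (le_max_right _ _) hX
  have hL := hX1 X hXX1
  have hη20 : 0 < 20 * (1 + η) / η := by positivity
  have hLpos : 0 < Real.log X := lt_of_lt_of_le hη20 hL
  have hXr : (0 : ℝ) < X := by exact_mod_cast (by omega : 0 < X)
  have hzt : t0 + 1 ≤ zS X := by
    by_contra hc
    have hc' : zS X < t0 + 1 := not_le.1 hc
    have h3 := zS_pow X
    have h4 : (zS X) ^ 5 < (t0 + 1) ^ 5 := Nat.pow_lt_pow_left hc' (by norm_num)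
    have h5 : (X : ℝ) < ((t0 + 1 : ℕ) : ℝ) ^ 5 := lt_of_le_of_lt h3 (by exact_mod_cast h4)
    have h6 : X < (t0 + 1) ^ 5 := by exact_mod_cast h5
    omega
  set t := y / d with ht
  have het : e ≤ t := by
    rw [ht, Nat.le_div_iff_mul_le (by omega)]
    rw [mul_comm]; exact hde
  have he1 : 1 ≤ e := by omega
  have ht1 : 1 ≤ t := le_trans he1 het
  have htt0 : t0 ≤ t := by omega
  have hdr : (0 : ℝ) < d := by exact_mod_cast (by omega : 0 < d)
  have hdr1 : (1 : ℝ) ≤ d := by exact_mod_cast hd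
  have htr : (0 : ℝ) < t := by exact_mod_cast (by omega : 0 < t)
  have her : (0 : ℝ) < e := by exact_mod_cast (by omega : 0 < e)
  have hyr : (0 : ℝ) < y := by exact_mod_cast (by omega : 0 < y)
  have htle : (t : ℝ) ≤ y / d := by rw [ht]; exact Nat.cast_div_le
  have hlogte : Real.log e ≤ Real.log t := Real.log_le_log her (by exact_mod_cast het)
  have hM1 : α / 100 * Real.log X ≤ Real.log t := by nlinarith
  have hM2 : (100 - β) / 100 * Real.log X - 2 * Real.log 2 ≤ Real.log t := by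
    have h3 : (y : ℝ) < 2 * t * d := by
      have h4 : y < d * (t + 1) := by rw [ht]; exact Nat.lt_mul_div_succ y (by omega)
      have h5 : (y : ℝ) < d * (t + 1) := by exact_mod_cast h4
      have h6 : (1 : ℝ) ≤ t := by exact_mod_cast ht1
      nlinarith
    have h7 : (X : ℝ) ≤ 2 * 2 * t * d := by
      have h8 : (X : ℝ) ≤ 2 * y := by exact_mod_cast hy1
      linarith
    have h9 : Real.log X ≤ Real.log (2 * 2 * t * d) := Real.log_le_log hXr h7
    rw [Real.log_mul (by positivity) hdr.ne', Real.log_mul (by positivity) htr.ne',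
      Real.log_mul (by norm_num) (by norm_num)] at h9
    linarith
  have hlog2 : Real.log 2 ≤ 1 := by
    have := Real.log_two_lt_d9
    linarith
  have hlog2' : 0 < Real.log 2 := Real.log_pos (by norm_num)
  set m := max (100 - β) α with hm
  have hm20 : 20 ≤ m := le_trans hα (le_max_right _ _)
  have hmt : m / 100 * Real.log X - 2 * Real.log 2 ≤ Real.log t := by
    rcases le_total (100 - β) α with h | h
    · rw [hm, max_eq_right h]; linarith
    · rw [hm, max_eq_left h]; linarith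
  have hML : Real.log X / 5 ≤ m / 100 * Real.log X := by nlinarith
  have hηL : 20 * (1 + η) ≤ η * Real.log X := by
    rw [div_le_iff₀ hη] at hL
    linarith
  have hkey : (1 + η / 2) * (m / 100 * Real.log X) ≤ (1 + η) * Real.log t := by
    have h3 : (1 + η) * (m / 100 * Real.log X - 2 * Real.log 2) ≤ (1 + η) * Real.log t :=
      mul_le_mul_of_nonneg_left hmt (by positivity)
    have h4 : η * (Real.log X / 5) ≤ η * (m / 100 * Real.log X) :=
      mul_le_mul_of_nonneg_left hML hη.le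
    have h5 : (1 + η) * (2 * Real.log 2) ≤ (1 + η) * 2 := by
      have : (2 * Real.log 2) ≤ 2 := by linarith
      exact mul_le_mul_of_nonneg_left this (by positivity)
    linarith
  have hMpos : 0 < m / 100 * Real.log X := by positivity
  have hltpos : 0 < Real.log t := by
    by_contra hc
    have hc' := not_lt.1 hc
    have : 0 < (1 + η / 2) * (m / 100 * Real.log X) := by positivity
    nlinarith
  have h10 := (ht0 t htt0).2
  refine h10.trans ?_
  have h11 : (1 + η / 2) * ((t : ℝ) / Real.log t) ≤ (1 + η) * (t / (m / 100 * Real.log X)) := by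
    rw [← mul_div_assoc, ← mul_div_assoc, div_le_div_iff₀ hltpos hMpos]
    have := mul_le_mul_of_nonneg_left hkey htr.le
    linarith
  refine h11.trans ?_
  have h12 : (t : ℝ) / (m / 100 * Real.log X) ≤ (y / d) / (m / 100 * Real.log X) :=
    div_le_div_of_nonneg_right htle hMpos.le
  have h13 := mul_le_mul_of_nonneg_left h12 (show (0 : ℝ) ≤ 1 + η by positivity)
  refine h13.trans (le_of_eq ?_)
  have hm0 : (0 : ℝ) < m := by linarith
  field_simp

/-- the index of the cell -/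
noncomputable def cix (X a : ℕ) : ℕ := min 29 ⌊100 * (Real.log a / Real.log X) - 20⌋₊

theorem cix_spec (X a : ℕ) (hX : 2 ≤ X) (ha : zS X ≤ a) (ha2 : a ^ 2 ≤ X) :
    (20 + (cix X a : ℝ)) * Real.log X ≤ 100 * Real.log a ∧
      100 * Real.log a ≤ (21 + (cix X a : ℝ)) * Real.log X := by
  have hXr : (1 : ℝ) < X := by exact_mod_cast (by omega : 1 < X)
  have hL : 0 < Real.log X := Real.log_pos hXr
  have hz : 1 ≤ zS X := by
    by_contra hc
    have hc' : zS X = 0 := by omega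
    have := zS_pow X
    rw [hc'] at this
    norm_num at this
    omega
  have har : (1 : ℝ) ≤ a := by exact_mod_cast (le_trans hz ha)
  have ha0 : (0 : ℝ) < a := by linarith
  have h5 : Real.log X ≤ 5 * Real.log a := by
    have h1 := zS_pow X
    have h2 : ((zS X : ℝ)) ^ 5 ≤ (a : ℝ) ^ 5 :=
      pow_le_pow_left₀ (by positivity) (by exact_mod_cast ha) 5
    have h3 : Real.log X ≤ Real.log ((a : ℝ) ^ 5) := Real.log_le_log (by linarith) (h1.trans h2)
    rw [Real.log_pow] at h3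
    exact_mod_cast h3
  have h2 : 2 * Real.log a ≤ Real.log X := by
    have h3 : ((a : ℝ)) ^ 2 ≤ X := by exact_mod_cast ha2
    have h4 : Real.log ((a : ℝ) ^ 2) ≤ Real.log X := Real.log_le_log (by positivity) h3
    rw [Real.log_pow] at h4
    exact_mod_cast h4
  set r := 100 * (Real.log a / Real.log X) - 20 with hr
  have hrL : (r + 20) * Real.log X = 100 * Real.log a := by
    rw [hr]; field_simp; ring
  have hr0 : 0 ≤ r := by
    by_contra hc
    have hc' := not_le.1 hc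
    nlinarith
  have hr30 : r ≤ 30 := by
    by_contra hc
    have hc' := not_le.1 hc
    nlinarith
  have hf1 : (⌊r⌋₊ : ℝ) ≤ r := Nat.floor_le hr0
  have hf2 : r < ⌊r⌋₊ + 1 := Nat.lt_floor_add_one r
  rcases le_total ⌊r⌋₊ 29 with h | h
  · have hc : cix X a = ⌊r⌋₊ := by rw [cix, ← hr, min_eq_right h]
    rw [hc, ← hrL]
    constructor
    · exact mul_le_mul_of_nonneg_right (by linarith) hL.le
    · exact mul_le_mul_of_nonneg_right (by linarith) hL.le
  · have hc : cix X a = 29 := by rw [cix, ← hr, min_eq_left h]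
    rw [hc, ← hrL]
    have h29 : (29 : ℝ) ≤ (⌊r⌋₊ : ℝ) := by exact_mod_cast h
    constructor
    · exact mul_le_mul_of_nonneg_right (by push_cast; linarith) hL.le
    · exact mul_le_mul_of_nonneg_right (by push_cast; linarith) hL.le

theorem cix_mono (X a b : ℕ) (hX : 2 ≤ X) (ha : 1 ≤ a) (hab : a ≤ b) : cix X a ≤ cix X b := by
  have hXr : (1 : ℝ) < X := by exact_mod_cast (by omega : 1 < X)
  have hL : 0 < Real.log X := Real.log_pos hXr
  have ha0 : (0 : ℝ) < a := by exact_mod_cast ha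
  have h1 : Real.log a ≤ Real.log b := Real.log_le_log ha0 (by exact_mod_cast hab)
  have h2 : Real.log a / Real.log X ≤ Real.log b / Real.log X :=
    div_le_div_of_nonneg_right h1 hL.le
  unfold cix
  exact min_le_min le_rfl (Nat.floor_mono (by linarith))

/-- `1 / a` if `a` is a prime in the cell `i` -/
noncomputable def cg (X i a : ℕ) : ℝ :=
  if a.Prime ∧ (X : ℝ) ^ ((20 + i : ℝ) / 100) ≤ a ∧ (a : ℝ) ≤ (X : ℝ) ^ ((21 + i : ℝ) / 100) then
    1 / (a : ℝ) else 0

theorem cg_nonneg (X i a : ℕ) : 0 ≤ cg X i a := by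
  unfold cg
  split_ifs <;> positivity

theorem cg_cix (X a : ℕ) (hX : 2 ≤ X) (hp : a.Prime) (ha : zS X ≤ a) (ha2 : a ^ 2 ≤ X) :
    cg X (cix X a) a = 1 / (a : ℝ) := by
  have hXr : (0 : ℝ) < X := by exact_mod_cast (by omega : 0 < X)
  have ha0 : (0 : ℝ) < a := by exact_mod_cast hp.pos
  obtain ⟨h1, h2⟩ := cix_spec X a hX ha ha2
  unfold cg
  rw [if_pos]
  refine ⟨hp, ?_, ?_⟩
  · rw [Real.rpow_def_of_pos hXr]
    calc Real.exp (Real.log X * ((20 + (cix X a : ℝ)) / 100)) ≤ Real.exp (Real.log a) :=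
          Real.exp_le_exp.2 (by linarith)
      _ = a := Real.exp_log ha0
  · rw [Real.rpow_def_of_pos hXr]
    calc (a : ℝ) = Real.exp (Real.log a) := (Real.exp_log ha0).symm
      _ ≤ Real.exp (Real.log X * ((21 + (cix X a : ℝ)) / 100)) := Real.exp_le_exp.2 (by linarith)

/-- the sum over a cell -/
noncomputable def cS (X i : ℕ) : ℝ := ∑ a ∈ Icc 1 X, cg X i a

theorem cS_nonneg (X i : ℕ) : 0 ≤ cS X i := sum_nonneg fun _ _ => cg_nonneg _ _ _

theorem cS_le_core
    (h_mc : ∀ (u v η : ℝ) (hu : 0 < u) (huv : u ≤ v) (hη : 0 < η), ∃ X0 : ℕ, ∀ X : ℕ,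
    X0 ≤ X → ∑ p ∈ (Icc 1 X).filter (fun p : ℕ => p.Prime ∧ (X : ℝ) ^ u ≤ p ∧ (p : ℝ) ≤ (X : ℝ) ^ v),
      1 / (p : ℝ) ≤ (v - u) / u + η)
    (η : ℝ) (hη : 0 < η) : ∃ X0 : ℕ, ∀ X : ℕ, X0 ≤ X → ∀ i : ℕ, i < 30 →
    cS X i ≤ 1 / (20 + i : ℝ) + η := by
  have h : ∀ i : ℕ, ∃ X0 : ℕ, ∀ X : ℕ, X0 ≤ X → cS X i ≤ 1 / (20 + i : ℝ) + η := by
    intro i
    obtain ⟨X0, hX0⟩ := h_mc ((20 + i : ℝ) / 100) ((21 + i : ℝ) / 100) η (by positivity)
      (by linarith) hη
    refine ⟨X0, fun X hX => ?_⟩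
    have h1 := hX0 X hX
    have h2 : cS X i = ∑ p ∈ (Icc 1 X).filter (fun p : ℕ => p.Prime ∧
        (X : ℝ) ^ ((20 + i : ℝ) / 100) ≤ p ∧ (p : ℝ) ≤ (X : ℝ) ^ ((21 + i : ℝ) / 100)),
        1 / (p : ℝ) := by
      rw [sum_filter]; rfl
    rw [h2]
    refine h1.trans (le_of_eq ?_)
    congr 1
    have : (20 + i : ℝ) ≠ 0 := by positivity
    field_simp
    ring
  choose f hf using h
  refine ⟨(range 30).sup f, fun X hX i hi => hf i X ?_⟩
  exact le_trans (le_sup (f := f) (mem_range.2 hi)) hX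

end Pool.MP_dd84fd_nt.T7
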