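import Pool.Agent.Lib.MP_dd84fd_nt.T7.Den3
import Pool.Agent.Lib.MP_dd84fd_nt.T7.Den4Core

set_option autoImplicit false

namespace Pool.MP_dd84fd_nt.T7

open Finset Pool.MP_67663b_nt.Odd Pool.MP_dd84fd_nt.L2G

theorem n4_le : ∃ X0 : ℕ, ∀ X : ℕ, X0 ≤ X → ∀ y : ℕ, X ≤ 2 * y → y ≤ X →
    N4 X y ≤ (847 / 10000 : ℝ) * (y / Real.log X) :=
  n4_le_core den_pc_div_le cS_le

end Pool.MP_dd84fd_nt.T7
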