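import Pool.Agent.Lib.MP_dd84fd_nt.T7.DenDefs
import Pool.Agent.Lib.MP_dd84fd_nt.T7.SvBasic

/-!
T7-32 DenExpand. 2 <= zS X. Let 1 <= n <= y <= X. By sv_formula: n = 1: Sv = 1 >= 0. n prime: Sv = 1 if n^2 > X; n prime, n^2 <= X: Sv >= 0 (n >= zS: 1-1=0; else 0).
n composite and zS-rough with least prime factor a (a^2 <= n <= X): Sv X n = -#{primes p | n : p > a, p^2 <= X}. Not rough: 0. So
 sum_{n<=y} Sv >= #{primes n <= y, n^2 > X} - T, T = number of triples (a,p,m) with a<p primes >= zS, p^2 <= X, all prime factors of m >= a, a p m <= y (n = a p m).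
 #{..} >= pc y - sqrt X. T: m = 1: at most (number of primes <= sqrt X)^2 <= (C sqrt X/log X)^2 = C^2 X/L^2 (Chebyshev). m prime: m >= a and m <= y/(ap), so a^2 p <= y: at most N3. m = b b' with primes a <= b <= b': a p b^2 <= y, b' <= y/(apb): at most N4.
 m with three or more prime factors (with multiplicity): n >= a p a^3 > zS^5 >= X (zS_pow, p > a >= zS): impossible.
-/

set_option autoImplicit false

namespace Pool.MP_dd84fd_nt.T7

open Finset Pool.MP_67663b_nt.Odd Pool.MP_dd84fd_nt.L2G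

/-- the primes `p` with `p^2 ≤ X` -/
private noncomputable def dePX (X : ℕ) : Finset ℕ :=
  (Icc 1 X).filter (fun p => p.Prime ∧ p ^ 2 ≤ X)

private theorem dePX_card (X : ℕ) (hX : 2 ≤ X) :
    ((dePX X).card : ℝ) ≤ (4 * Real.log 4 + 4) * (Real.sqrt X / Real.log X) := by
  have hX1 : (1 : ℝ) < X := by exact_mod_cast hX
  have hs1 : 1 < Real.sqrt X := by
    rw [Real.lt_sqrt (by norm_num)]
    simpa using hX1
  have h1 := Chebyshev.pi_le_log4_mul_div hs1
  have h2 : (dePX X).card ≤ Nat.primeCounting ⌊Real.sqrt X⌋₊ := by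
    unfold Nat.primeCounting Nat.primeCounting'
    rw [Nat.count_eq_card_filter_range]
    refine Finset.card_le_card fun p hp => ?_
    unfold dePX at hp
    rw [Finset.mem_filter, Finset.mem_Icc] at hp
    rw [Finset.mem_filter, Finset.mem_range]
    refine ⟨Nat.lt_succ_of_le (Nat.le_floor ?_), hp.2.1⟩
    apply Real.le_sqrt_of_sq_le
    exact_mod_cast hp.2.2
  have h3 : ((dePX X).card : ℝ) ≤ Real.log 4 * Real.sqrt X / Real.log (Real.sqrt (Real.sqrt X)) +
      Real.sqrt (Real.sqrt X) := le_trans (by exact_mod_cast h2) h1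
  set t : ℝ := Real.sqrt (Real.sqrt X) with ht
  have ht1 : 1 < t := by
    rw [ht, Real.lt_sqrt (by norm_num)]
    simpa using hs1
  have hts : Real.sqrt X = t ^ 2 := by
    rw [ht, Real.sq_sqrt (Real.sqrt_nonneg _)]
  have htX : (X : ℝ) = t ^ 4 := by
    rw [show t ^ 4 = (t ^ 2) ^ 2 by ring, ← hts, Real.sq_sqrt (by positivity)]
  have hlog : Real.log X = 4 * Real.log t := by
    rw [htX, Real.log_pow]
    norm_num
  have hlt : 0 < Real.log t := Real.log_pos ht1
  have hlt2 : Real.log t ≤ t := by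
    have := Real.log_le_sub_one_of_pos (by linarith : (0 : ℝ) < t)
    linarith
  refine h3.trans ?_
  rw [hlog, hts]
  have e1 : (4 * Real.log 4 + 4) * (t ^ 2 / (4 * Real.log t)) =
      Real.log 4 * t ^ 2 / Real.log t + t ^ 2 / Real.log t := by
    field_simp
  rw [e1]
  have e2 : t ≤ t ^ 2 / Real.log t := by
    rw [le_div_iff₀ hlt]
    nlinarith
  linarith

/-- the indices `p` which are counted for composite rough `n` -/
private noncomputable def deT (X n : ℕ) : Finset ℕ :=
  n.primeFactors.filter (fun p => p ≠ n.minFac ∧ p ^ 2 ≤ X ∧ (∀ q ∈ n.primeFactors, zS X ≤ q) ∧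
    ¬ n.Prime)

private theorem zS_le_of (X n : ℕ) (hX : 1 ≤ X) (h : X < n ^ 2) : zS X ≤ n := by
  unfold zS
  refine Nat.ceil_le.2 ?_
  have h1 : (1 : ℝ) ≤ X := by exact_mod_cast hX
  have h2 : (X : ℝ) ^ (1 / 5 : ℝ) ≤ (X : ℝ) ^ (1 / 2 : ℝ) :=
    Real.rpow_le_rpow_of_exponent_le h1 (by norm_num)
  have h3 : (X : ℝ) ^ (1 / 2 : ℝ) ≤ n := by
    rw [← Real.sqrt_eq_rpow]
    apply Real.sqrt_le_iff.2
    refine ⟨Nat.cast_nonneg _, ?_⟩
    exact_mod_cast h.le
  exact h2.trans h3

private theorem sv_ge (X n : ℕ) (hn1 : 1 ≤ n) (hn : n ≤ X) :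
    (if n.Prime ∧ X < n ^ 2 then (1 : ℝ) else 0) - ((deT X n).card : ℝ) ≤ Sv X n := by
  have hX : 1 ≤ X := hn1.trans hn
  rw [sv_formula X n hn1]
  by_cases hr : ∀ p ∈ n.primeFactors, zS X ≤ p
  · rw [if_pos hr]
    by_cases hp : n.Prime
    · have h0 : (0 : ℝ) ≤ ((deT X n).card : ℝ) := Nat.cast_nonneg _
      have hcard : (n.primeFactors.filter (fun p => p ^ 2 ≤ X)).card = if n ^ 2 ≤ X then 1 else 0 := by
        rw [hp.primeFactors, Finset.filter_singleton]
        split_ifs <;> simp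
      rw [hcard]
      by_cases h2 : n ^ 2 ≤ X
      · rw [if_neg (fun h => absurd h.2 (not_lt.2 h2)), if_pos h2]
        push_cast
        linarith
      · rw [if_pos ⟨hp, not_le.1 h2⟩, if_neg h2]
        push_cast
        linarith
    · rw [if_neg (fun h => hp h.1)]
      by_cases hn' : n = 1
      · subst hn'
        have h0 : (0 : ℝ) ≤ ((deT X 1).card : ℝ) := Nat.cast_nonneg _
        simp only [Nat.primeFactors_one, Finset.filter_empty, Finset.card_empty, Nat.cast_zero]
        linarith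
      · have hmp : n.minFac.Prime := Nat.minFac_prime hn'
        have hmem : n.minFac ∈ n.primeFactors :=
          Nat.mem_primeFactors.2 ⟨hmp, Nat.minFac_dvd n, by omega⟩
        have hsq : n.minFac ^ 2 ≤ X := (Nat.minFac_sq_le_self hn1 hp).trans hn
        have e : n.primeFactors.filter (fun p => p ^ 2 ≤ X) = insert n.minFac (deT X n) := by
          ext q
          unfold deT
          rw [Finset.mem_filter, Finset.mem_insert, Finset.mem_filter]
          constructor
          · rintro ⟨h1, h2⟩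
            by_cases hq : q = n.minFac
            · exact Or.inl hq
            · exact Or.inr ⟨h1, hq, h2, hr, hp⟩
          · rintro (h1 | h1)
            · rw [h1]
              exact ⟨hmem, hsq⟩
            · exact ⟨h1.1, h1.2.2.1⟩
        rw [e, Finset.card_insert_of_notMem (by unfold deT; simp)]
        push_cast
        linarith
  · rw [if_neg hr]
    have h0 : (0 : ℝ) ≤ ((deT X n).card : ℝ) := Nat.cast_nonneg _
    have h1 : ¬ (n.Prime ∧ X < n ^ 2) := by
      rintro ⟨hp, h2⟩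
      apply hr
      intro p hpn
      rw [hp.primeFactors, Finset.mem_singleton] at hpn
      rw [hpn]
      exact zS_le_of X n hX h2
    rw [if_neg h1]
    linarith

/-- the products of three primes -/
private noncomputable def deA2 (X y : ℕ) : Finset (Σ _ : ℕ, ℕ) :=
  ((Icc (zS X) X).filter Nat.Prime).biUnion fun a =>
    ((Icc (a + 1) X).filter (fun p => p.Prime ∧ p ^ 2 ≤ X ∧ a ^ 2 * p ≤ y)).biUnion fun p =>
      ((Icc 1 (y / (a * p))).filter Nat.Prime).image (fun m => ⟨a * p * m, p⟩)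

private noncomputable def deA3 (X y : ℕ) : Finset (Σ _ : ℕ, ℕ) :=
  ((Icc (zS X) X).filter Nat.Prime).biUnion fun a =>
    ((Icc (a + 1) X).filter (fun p => p.Prime ∧ p ^ 2 ≤ X)).biUnion fun p =>
      ((Icc a X).filter (fun b => b.Prime ∧ a * p * b ^ 2 ≤ y)).biUnion fun b =>
        ((Icc 1 (y / (a * p * b))).filter Nat.Prime).image (fun m => ⟨a * p * b * m, p⟩)

private noncomputable def deA1 (X : ℕ) : Finset (Σ _ : ℕ, ℕ) :=
  (dePX X ×ˢ dePX X).image (fun q : ℕ × ℕ => ⟨q.1 * q.2, q.2⟩)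

private theorem deA2_card (X y : ℕ) : ((deA2 X y).card : ℝ) ≤ N3 X y := by
  unfold deA2 N3 pc
  have h := Finset.card_biUnion_le (s := (Icc (zS X) X).filter Nat.Prime)
    (t := fun a => ((Icc (a + 1) X).filter
      (fun p => p.Prime ∧ p ^ 2 ≤ X ∧ a ^ 2 * p ≤ y)).biUnion fun p =>
      ((Icc 1 (y / (a * p))).filter Nat.Prime).image
        (fun m => (⟨a * p * m, p⟩ : Σ _ : ℕ, ℕ)))
  have h' : ∀ a ∈ (Icc (zS X) X).filter Nat.Prime, (((Icc (a + 1) X).filter
      (fun p => p.Prime ∧ p ^ 2 ≤ X ∧ a ^ 2 * p ≤ y)).biUnion fun p =>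
      ((Icc 1 (y / (a * p))).filter Nat.Prime).image
        (fun m => (⟨a * p * m, p⟩ : Σ _ : ℕ, ℕ))).card ≤
      ∑ p ∈ (Icc (a + 1) X).filter (fun p => p.Prime ∧ p ^ 2 ≤ X ∧ a ^ 2 * p ≤ y),
        ((Icc 1 (y / (a * p))).filter Nat.Prime).card := by
    intro a _
    refine Finset.card_biUnion_le.trans (Finset.sum_le_sum fun p _ => Finset.card_image_le)
  have h2 := h.trans (Finset.sum_le_sum h')
  exact_mod_cast h2

private theorem deA3_card (X y : ℕ) : ((deA3 X y).card : ℝ) ≤ N4 X y := by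
  unfold deA3 N4 pc
  have h2 : (((Icc (zS X) X).filter Nat.Prime).biUnion fun a =>
    ((Icc (a + 1) X).filter (fun p => p.Prime ∧ p ^ 2 ≤ X)).biUnion fun p =>
      ((Icc a X).filter (fun b => b.Prime ∧ a * p * b ^ 2 ≤ y)).biUnion fun b =>
        ((Icc 1 (y / (a * p * b))).filter Nat.Prime).image
          (fun m => (⟨a * p * b * m, p⟩ : Σ _ : ℕ, ℕ))).card ≤
      ∑ a ∈ (Icc (zS X) X).filter Nat.Prime,
        ∑ p ∈ (Icc (a + 1) X).filter (fun p => p.Prime ∧ p ^ 2 ≤ X),
          ∑ b ∈ (Icc a X).filter (fun b => b.Prime ∧ a * p * b ^ 2 ≤ y),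
            ((Icc 1 (y / (a * p * b))).filter Nat.Prime).card := by
    refine Finset.card_biUnion_le.trans (Finset.sum_le_sum fun a _ => ?_)
    refine Finset.card_biUnion_le.trans (Finset.sum_le_sum fun p _ => ?_)
    refine Finset.card_biUnion_le.trans (Finset.sum_le_sum fun b _ => Finset.card_image_le)
  exact_mod_cast h2

private theorem deT_sub (X y : ℕ) (hy : y ≤ X) :
    (Icc 1 y).sigma (deT X) ⊆ deA1 X ∪ deA2 X y ∪ deA3 X y := by
  rintro ⟨n, p⟩ h
  rw [Finset.mem_sigma] at h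
  obtain ⟨hn, hp⟩ := h
  simp only at hn hp
  rw [Finset.mem_Icc] at hn
  unfold deT at hp
  rw [Finset.mem_filter] at hp
  obtain ⟨hpf, hpa, hpX, hr, hnp⟩ := hp
  obtain ⟨hpp, hpn, hn0⟩ := Nat.mem_primeFactors.1 hpf
  have hn1 : n ≠ 1 := by
    rintro rfl
    exact hpp.one_lt.ne' (Nat.dvd_one.1 hpn)
  set a := n.minFac with ha
  have hap : a.Prime := Nat.minFac_prime hn1
  have han : a ∣ n := Nat.minFac_dvd n
  have hza : zS X ≤ a := hr a (Nat.mem_primeFactors.2 ⟨hap, han, hn0⟩)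
  have hmin : ∀ q : ℕ, q.Prime → q ∣ n → a ≤ q := fun q hq hqn => Nat.minFac_le_of_dvd hq.two_le hqn
  have halt : a < p := lt_of_le_of_ne (hmin p hpp hpn) (Ne.symm hpa)
  have hcop : Nat.Coprime a p := (Nat.coprime_primes hap hpp).2 halt.ne
  obtain ⟨m, hm⟩ := hcop.mul_dvd_of_dvd_of_dvd han hpn
  have hnX : n ≤ X := hn.2.trans hy
  have haX : a ≤ X := (Nat.le_of_dvd (by omega) han).trans hnX
  have hpX' : p ≤ X := (Nat.le_of_dvd (by omega) hpn).trans hnX
  have ha0 : 0 < a := hap.pos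
  have hp0 : 0 < p := hpp.pos
  have hapos : 0 < a * p := Nat.mul_pos ha0 hp0
  rw [Finset.mem_union, Finset.mem_union]
  by_cases hm1 : m = 1
  · left; left
    unfold deA1
    rw [Finset.mem_image]
    refine ⟨(a, p), ?_, ?_⟩
    · rw [Finset.mem_product]
      unfold dePX
      simp only [Finset.mem_filter, Finset.mem_Icc]
      exact ⟨⟨⟨ha0, haX⟩, hap, (Nat.pow_le_pow_left halt.le 2).trans hpX⟩, ⟨hp0, hpX'⟩, hpp, hpX⟩
    · simp only [hm, hm1, mul_one]
  · have hm0 : m ≠ 0 := by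
      rintro rfl
      exact hn0 (by rw [hm, mul_zero])
    set b := m.minFac with hb
    have hbp : b.Prime := Nat.minFac_prime hm1
    have hbm : b ∣ m := Nat.minFac_dvd m
    have hmn : m ∣ n := ⟨a * p, by rw [hm]; ring⟩
    have hab : a ≤ b := hmin b hbp (hbm.trans hmn)
    obtain ⟨m', hm'⟩ := hbm
    have hbX : b ≤ X := (Nat.le_of_dvd (by omega) ((Nat.minFac_dvd m).trans hmn)).trans hnX
    by_cases hm1' : m' = 1
    · left; right
      have hmb : m = b := by rw [hm', hm1', mul_one]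
      unfold deA2
      rw [Finset.mem_biUnion]
      refine ⟨a, Finset.mem_filter.2 ⟨Finset.mem_Icc.2 ⟨hza, haX⟩, hap⟩, ?_⟩
      rw [Finset.mem_biUnion]
      refine ⟨p, Finset.mem_filter.2 ⟨Finset.mem_Icc.2 ⟨halt, hpX'⟩, hpp, hpX, ?_⟩, ?_⟩
      · calc a ^ 2 * p = a * p * a := by ring
          _ ≤ a * p * m := Nat.mul_le_mul_left _ (by rw [hmb]; exact hab)
          _ = n := hm.symm
          _ ≤ y := hn.2
      · rw [Finset.mem_image]
        refine ⟨m, Finset.mem_filter.2 ⟨Finset.mem_Icc.2 ⟨Nat.pos_of_ne_zero hm0, ?_⟩, hmb ▸ hbp⟩, ?_⟩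
        · rw [Nat.le_div_iff_mul_le hapos, mul_comm, ← hm]
          exact hn.2
        · rw [← hm]
    · right
      have hm0' : m' ≠ 0 := by
        rintro rfl
        exact hm0 (by rw [hm', mul_zero])
      set b' := m'.minFac with hb'
      have hbp' : b'.Prime := Nat.minFac_prime hm1'
      have hbm' : b' ∣ m' := Nat.minFac_dvd m'
      have hmm' : m' ∣ m := ⟨b, by rw [mul_comm]; exact hm'⟩
      have hbb' : b ≤ b' := Nat.minFac_le_of_dvd hbp'.two_le (hbm'.trans hmm')
      obtain ⟨m'', hm''⟩ := hbm'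
      by_cases hm1'' : m'' = 1
      · have hmb' : m' = b' := by rw [hm'', hm1'', mul_one]
        have hnn : n = a * p * b * b' := by
          rw [← hmb', mul_assoc (a * p), ← hm']
          exact hm
        unfold deA3
        rw [Finset.mem_biUnion]
        refine ⟨a, Finset.mem_filter.2 ⟨Finset.mem_Icc.2 ⟨hza, haX⟩, hap⟩, ?_⟩
        rw [Finset.mem_biUnion]
        refine ⟨p, Finset.mem_filter.2 ⟨Finset.mem_Icc.2 ⟨halt, hpX'⟩, hpp, hpX⟩, ?_⟩
        rw [Finset.mem_biUnion]
        refine ⟨b, Finset.mem_filter.2 ⟨Finset.mem_Icc.2 ⟨hab, hbX⟩, hbp, ?_⟩, ?_⟩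
        · calc a * p * b ^ 2 = a * p * b * b := by ring
            _ ≤ a * p * b * b' := Nat.mul_le_mul_left _ hbb'
            _ = n := hnn.symm
            _ ≤ y := hn.2
        · rw [Finset.mem_image]
          refine ⟨b', Finset.mem_filter.2 ⟨Finset.mem_Icc.2 ⟨hbp'.pos, ?_⟩, hbp'⟩, ?_⟩
          · rw [Nat.le_div_iff_mul_le (Nat.mul_pos hapos hbp.pos), mul_comm, ← hnn]
            exact hn.2
          · rw [← hnn]
      · exfalso
        have hm0'' : m'' ≠ 0 := by
          rintro rfl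
          exact hm0' (by rw [hm'', mul_zero])
        have hcp := Nat.minFac_prime hm1''
        have hmn'' : m'' ∣ n := (Dvd.intro_left b' hm''.symm).trans (hmm'.trans hmn)
        have hac : a ≤ m'' := (hmin _ hcp ((Nat.minFac_dvd m'').trans hmn'')).trans
          (Nat.le_of_dvd (Nat.pos_of_ne_zero hm0'') (Nat.minFac_dvd m''))
        have h1 : n = a * p * b * b' * m'' := by
          rw [hm, hm', hm'']
          ring
        have h2 : a ^ 5 < n := by
          calc a ^ 5 = a * a * a * a * a := by ring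
            _ < a * p * a * a * a := by
              have : 0 < a * a * a * a := by positivity
              nlinarith
            _ ≤ a * p * b * b' * m'' := by
              gcongr
              exact hab.trans hbb'
            _ = n := h1.symm
        have h3 : (X : ℝ) ≤ ((a ^ 5 : ℕ) : ℝ) := by
          refine (zS_pow X).trans ?_
          push_cast
          gcongr
        have h4 : X ≤ a ^ 5 := by exact_mod_cast h3
        omega

theorem den_expand : ∃ C : ℝ, ∃ X0 : ℕ, ∀ X : ℕ, X0 ≤ X → ∀ y : ℕ, X ≤ 2 * y → y ≤ X →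
    pc y - N3 X y - N4 X y - C * X / Real.log X ^ 2 ≤ ∑ n ∈ Icc 1 y, Sv X n := by
  refine ⟨2 * (4 * Real.log 4 + 4) ^ 2, 2, fun X hX y hXy hy => ?_⟩
  have h1 : ∑ n ∈ Icc 1 y, ((if n.Prime ∧ X < n ^ 2 then (1 : ℝ) else 0) - ((deT X n).card : ℝ)) ≤
      ∑ n ∈ Icc 1 y, Sv X n :=
    Finset.sum_le_sum fun n hn => sv_ge X n (Finset.mem_Icc.1 hn).1 ((Finset.mem_Icc.1 hn).2.trans hy)
  rw [Finset.sum_sub_distrib] at h1
  have h2 : ∑ n ∈ Icc 1 y, ((deT X n).card : ℝ) ≤ ((dePX X).card : ℝ) ^ 2 + N3 X y + N4 X y := by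
    have e1 : ∑ n ∈ Icc 1 y, (deT X n).card = ((Icc 1 y).sigma (deT X)).card :=
      (Finset.card_sigma _ _).symm
    have e2 : ((Icc 1 y).sigma (deT X)).card ≤ (deA1 X).card + (deA2 X y).card + (deA3 X y).card :=
      (Finset.card_le_card (deT_sub X y hy)).trans
        ((Finset.card_union_le _ _).trans (Nat.add_le_add_right (Finset.card_union_le _ _) _))
    have e3 : (deA1 X).card ≤ (dePX X).card ^ 2 := by
      unfold deA1
      refine Finset.card_image_le.trans ?_
      rw [Finset.card_product, sq]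
    have e4 : (∑ n ∈ Icc 1 y, ((deT X n).card : ℝ)) ≤
        ((deA1 X).card : ℝ) + (deA2 X y).card + (deA3 X y).card := by
      rw [← Nat.cast_sum, e1]
      exact_mod_cast e2
    have e5 : ((deA1 X).card : ℝ) ≤ ((dePX X).card : ℝ) ^ 2 := by exact_mod_cast e3
    have e6 := deA2_card X y
    have e7 := deA3_card X y
    linarith
  have h3 : pc y - (dePX X).card ≤ ∑ n ∈ Icc 1 y, (if n.Prime ∧ X < n ^ 2 then (1 : ℝ) else 0) := by
    have e1 : ∑ n ∈ Icc 1 y, (if n.Prime ∧ X < n ^ 2 then (1 : ℝ) else 0) =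
        (((Icc 1 y).filter (fun n => n.Prime ∧ X < n ^ 2)).card : ℝ) := by
      rw [Finset.sum_boole]
    rw [e1]
    unfold pc
    have e2 : ((Icc 1 y).filter Nat.Prime).card ≤
        ((Icc 1 y).filter (fun n => n.Prime ∧ X < n ^ 2)).card + (dePX X).card := by
      refine (Finset.card_le_card ?_).trans (Finset.card_union_le _ _)
      intro n hn
      rw [Finset.mem_filter, Finset.mem_Icc] at hn
      rw [Finset.mem_union]
      by_cases h : X < n ^ 2
      · left
        exact Finset.mem_filter.2 ⟨Finset.mem_Icc.2 hn.1, hn.2, h⟩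
      · right
        unfold dePX
        exact Finset.mem_filter.2 ⟨Finset.mem_Icc.2 ⟨hn.1.1, hn.1.2.trans hy⟩, hn.2, not_lt.1 h⟩
    have e3 : (((Icc 1 y).filter Nat.Prime).card : ℝ) ≤
        ((Icc 1 y).filter (fun n => n.Prime ∧ X < n ^ 2)).card + (dePX X).card := by
      exact_mod_cast e2
    linarith
  have h4 := dePX_card X hX
  have hX1 : (1 : ℝ) < X := by exact_mod_cast hX
  have hlog : 0 < Real.log X := Real.log_pos hX1
  have h5 : ((dePX X).card : ℝ) ^ 2 ≤ (4 * Real.log 4 + 4) ^ 2 * (X / Real.log X ^ 2) := by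
    have e1 : ((dePX X).card : ℝ) ^ 2 ≤ ((4 * Real.log 4 + 4) * (Real.sqrt X / Real.log X)) ^ 2 :=
      pow_le_pow_left₀ (Nat.cast_nonneg _) h4 2
    rw [mul_pow, div_pow, Real.sq_sqrt (by positivity)] at e1
    exact e1
  have h6 : ((dePX X).card : ℝ) ≤ ((dePX X).card : ℝ) ^ 2 := by
    have : (dePX X).card ≤ (dePX X).card ^ 2 := Nat.le_self_pow (by norm_num) _
    exact_mod_cast this
  have h7 : 2 * (4 * Real.log 4 + 4) ^ 2 * X / Real.log X ^ 2 =
      2 * ((4 * Real.log 4 + 4) ^ 2 * (X / Real.log X ^ 2)) := by ring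
  rw [h7]
  linarith

end Pool.MP_dd84fd_nt.T7
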