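import Pool.Agent.Lib.MP_dd84fd_nt.T7.DenDefs
import Pool.Agent.Lib.MP_dd84fd_nt.E2.Defs
import Pool.Agent.Lib.MP_dd84fd_nt.SW.Defs

/-!
T7-33 DenPi. pc_asymp_core h_sw: the prime number theorem (from pnt / sw_theta with r = 1 in SW, or E2/PiSW pi_sw with r = 1 and Li t = t/log t (1+o(1))).
mert_cell_core h_sw: Abel summation: sum_{t<p<=t'} 1/p <= pc(t')/t' + sum_{n in [t,t')} pc(n)/(n(n+1)) (the boundary term -pc(t)/(t+1) is dropped, add 1/t for p = t), pc(n) <= (1+eta) n/log n,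
 sum_{t<=n<t'} 1/(n log n) <= 1/(t log t) + log(log t'/log t) = ... + log(v/u) <= (v-u)/u + small.
-/

set_option autoImplicit false

namespace Pool.MP_dd84fd_nt.T7

open Finset Pool.MP_67663b_nt.Odd Pool.MP_dd84fd_nt.L2G

private theorem denPi_pc_eq (t : ℕ) : pc t = (Nat.primeCounting t : ℝ) := by
  unfold pc
  rw [Nat.primeCounting, Nat.primeCounting', Nat.count_eq_card_filter_range]
  congr 2
  ext p
  simp only [mem_filter, mem_Icc, mem_range]
  constructor
  · rintro ⟨⟨h1, h2⟩, h3⟩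
    exact ⟨by omega, h3⟩
  · rintro ⟨h1, h3⟩
    exact ⟨⟨h3.one_lt.le, by omega⟩, h3⟩

theorem pc_asymp_core
    (h_sw : ∀ (A B : ℕ), ∃ X0 : ℕ, ∀ X : ℕ, X0 ≤ X → ∀ r c : ℕ, 1 ≤ r →
    (r : ℝ) ≤ Real.log X ^ B → Nat.Coprime c r →
    |∑ p ∈ (Icc 1 X).filter (fun n => n.Prime ∧ n ≡ c [MOD r]), Real.log p -
      X / (Nat.totient r : ℝ)| ≤ X / Real.log X ^ A)
    (η : ℝ) (hη : 0 < η) : ∃ t0 : ℕ, ∀ t : ℕ, t0 ≤ t →
    (1 - η) * (t / Real.log t) ≤ pc t ∧ pc t ≤ (1 + η) * (t / Real.log t) := by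
  obtain ⟨X0, hX0⟩ := h_sw 1 0
  have h1 := (Chebyshev.integral_theta_div_log_sq_isLittleO.bound
    (show (0 : ℝ) < η / 2 by positivity))
  have h2 := tendsto_natCast_atTop_atTop.eventually h1
  have h3 : ∀ᶠ t : ℕ in Filter.atTop, 2 / η + 1 ≤ Real.log t :=
    (Real.tendsto_log_atTop.comp tendsto_natCast_atTop_atTop).eventually_ge_atTop _
  obtain ⟨t1, ht1⟩ := Filter.eventually_atTop.1 (h2.and h3)
  refine ⟨max X0 (max t1 2), fun t ht => ?_⟩
  have htX : X0 ≤ t := (le_max_left _ _).trans ht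
  have htt : t1 ≤ t := ((le_max_left _ _).trans (le_max_right _ _)).trans ht
  have ht2 : 2 ≤ t := ((le_max_right _ _).trans (le_max_right _ _)).trans ht
  obtain ⟨h4, h5⟩ := ht1 t htt
  have h6 := hX0 t htX 1 1 le_rfl (by simp) (by simp)
  have hη2 : 0 < 2 / η := by positivity
  have hlog : 0 < Real.log t := by linarith
  have ht0 : (0 : ℝ) < t := by positivity
  have h7 : ∑ p ∈ (Icc 1 t).filter (fun n => n.Prime ∧ n ≡ 1 [MOD 1]), Real.log p =
      Chebyshev.theta t := by
    rw [Chebyshev.theta_eq_sum_Icc, Nat.floor_natCast]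
    apply sum_congr _ (fun _ _ => rfl)
    ext p
    simp only [mem_filter, mem_Icc, Nat.modEq_one, and_true]
    constructor
    · rintro ⟨⟨h1, h2⟩, h3⟩
      exact ⟨⟨by omega, h2⟩, h3⟩
    · rintro ⟨⟨h1, h2⟩, h3⟩
      exact ⟨⟨h3.one_lt.le, h2⟩, h3⟩
  rw [h7] at h6
  simp only [Nat.totient_one, Nat.cast_one, div_one, pow_one] at h6
  rw [abs_le] at h6
  have h8 := Chebyshev.primeCounting_eq_theta_div_log_add_integral
    (show (2 : ℝ) ≤ (t : ℝ) by exact_mod_cast ht2)
  rw [Nat.floor_natCast, ← denPi_pc_eq] at h8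
  have hint0 : (0 : ℝ) ≤ ∫ s in (2 : ℝ)..t, Chebyshev.theta s / (s * Real.log s ^ 2) := by
    apply intervalIntegral.integral_nonneg (by exact_mod_cast ht2)
    intro s hs
    have : 0 ≤ Chebyshev.theta s := Chebyshev.theta_nonneg s
    have : (0 : ℝ) ≤ s := by linarith [hs.1]
    positivity
  rw [Real.norm_of_nonneg hint0, Real.norm_of_nonneg (by positivity)] at h4
  have h9 : (t : ℝ) / Real.log t / Real.log t ≤ η / 2 * (t / Real.log t) := by
    rw [div_le_iff₀ hlog]
    have : 1 ≤ η / 2 * Real.log t := by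
      have : 2 / η ≤ Real.log t := by linarith
      rw [div_le_iff₀ hη] at this
      linarith
    have h10 : 0 < (t : ℝ) / Real.log t := by positivity
    nlinarith
  have h10 : Chebyshev.theta t / Real.log t ≤ t / Real.log t + t / Real.log t / Real.log t := by
    rw [← add_div]
    gcongr
    linarith [h6.2]
  have h11 : t / Real.log t - t / Real.log t / Real.log t ≤ Chebyshev.theta t / Real.log t := by
    rw [← sub_div]
    gcongr
    linarith [h6.1]
  constructor
  · rw [h8]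
    nlinarith
  · rw [h8]
    nlinarith

private theorem denPi_succ (n : ℕ) : pc (n + 1) = pc n + if (n + 1).Prime then 1 else 0 := by
  unfold pc
  rw [← insert_Icc_right_eq_Icc_add_one (by omega : 1 ≤ n + 1), filter_insert]
  split_ifs with h
  · rw [card_insert_of_notMem]
    · push_cast
      rfl
    · simp
  · simp

private theorem denPi_abel (a : ℕ) (ha : 1 ≤ a) (b : ℕ) (hab : a ≤ b) :
    ∑ p ∈ (Icc a b).filter Nat.Prime, 1 / (p : ℝ) ≤
      pc b / b + ∑ n ∈ Ico a b, pc n / (n * (n + 1)) := by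
  induction b, hab using Nat.le_induction with
  | base =>
    simp only [Icc_self, Ico_self, sum_empty, add_zero]
    rw [filter_singleton]
    have ha0 : (0 : ℝ) < a := by exact_mod_cast ha
    split_ifs with h
    · rw [sum_singleton]
      gcongr
      unfold pc
      have : 1 ≤ ((Icc 1 a).filter Nat.Prime).card := by
        rw [Nat.one_le_iff_ne_zero, card_ne_zero]
        exact ⟨a, mem_filter.2 ⟨mem_Icc.2 ⟨ha, le_rfl⟩, h⟩⟩
      exact_mod_cast this
    · rw [sum_empty]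
      unfold pc
      positivity
  | succ b hab ih =>
    have hb0 : (0 : ℝ) < b := by
      have : 1 ≤ b := ha.trans hab
      exact_mod_cast this
    rw [← insert_Icc_right_eq_Icc_add_one (by omega : a ≤ b + 1), filter_insert, sum_Ico_succ_top hab,
      denPi_succ]
    have h1 : pc b / b = pc b / (b + 1 : ℝ) + pc b / (b * (b + 1)) := by
      field_simp
    split_ifs with h
    · rw [sum_insert (by simp)]
      push_cast
      have h2 : (pc b + 1) / ((b : ℝ) + 1) = pc b / (b + 1 : ℝ) + 1 / ((b : ℝ) + 1) := by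
        rw [add_div]
      rw [h2]
      linarith
    · push_cast
      rw [add_zero]
      linarith

private theorem denPi_loglog (η : ℝ) (hη : 0 < η) : ∃ N : ℕ, 3 ≤ N ∧ ∀ n : ℕ, N ≤ n →
    1 / (((n : ℝ) + 1) * Real.log n) ≤
      (1 + η) * (Real.log (Real.log ((n + 1 : ℕ) : ℝ)) - Real.log (Real.log n)) := by
  obtain ⟨N, hN⟩ := exists_nat_gt (1 / η)
  refine ⟨max N 3, le_max_right _ _, fun n hn => ?_⟩
  have hn3 : 3 ≤ n := (le_max_right _ _).trans hn
  have hnN : (N : ℝ) ≤ n := by exact_mod_cast (le_max_left _ _).trans hn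
  have hn0 : (0 : ℝ) < n := by positivity
  have hn3' : (3 : ℝ) ≤ n := by exact_mod_cast hn3
  have hlog1 : 1 ≤ Real.log n := by
    rw [Real.le_log_iff_exp_le hn0]
    have := Real.exp_one_lt_d9
    linarith
  have hlog : 0 < Real.log n := by linarith
  push_cast
  have hlog' : 0 < Real.log ((n : ℝ) + 1) := Real.log_pos (by linarith)
  have h1 : 1 / ((n : ℝ) + 1) ≤ Real.log ((n : ℝ) + 1) - Real.log n := by
    rw [← Real.log_div (by positivity) (by positivity)]
    have h2 := Real.one_sub_inv_le_log_of_pos (show (0 : ℝ) < ((n : ℝ) + 1) / n by positivity)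
    have h3 : 1 - (((n : ℝ) + 1) / n)⁻¹ = 1 / ((n : ℝ) + 1) := by
      field_simp
      ring
    linarith
  have h2 : Real.log ((n : ℝ) + 1) ≤ Real.log n + 1 / n := by
    have h3 := Real.log_le_sub_one_of_pos (show (0 : ℝ) < ((n : ℝ) + 1) / n by positivity)
    rw [Real.log_div (by positivity) (by positivity)] at h3
    have h4 : ((n : ℝ) + 1) / n - 1 = 1 / n := by
      field_simp
      ring
    linarith
  have h3 : Real.log ((n : ℝ) + 1) ≤ (1 + η) * Real.log n := by
    have h4 : 1 / (n : ℝ) ≤ η := by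
      rw [div_le_iff₀ hn0]
      rw [div_lt_iff₀ hη] at hN
      nlinarith
    nlinarith
  have h4 : (Real.log ((n : ℝ) + 1) - Real.log n) / Real.log ((n : ℝ) + 1) ≤
      Real.log (Real.log ((n : ℝ) + 1)) - Real.log (Real.log n) := by
    rw [← Real.log_div hlog'.ne' hlog.ne']
    have h5 := Real.one_sub_inv_le_log_of_pos
      (show (0 : ℝ) < Real.log ((n : ℝ) + 1) / Real.log n by positivity)
    rw [inv_div] at h5
    rw [sub_div, div_self hlog'.ne']
    exact h5
  have h5 : 1 / (((n : ℝ) + 1) * Real.log ((n : ℝ) + 1)) ≤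
      Real.log (Real.log ((n : ℝ) + 1)) - Real.log (Real.log n) := by
    refine le_trans ?_ h4
    rw [← div_div]
    gcongr
  calc 1 / (((n : ℝ) + 1) * Real.log n) ≤
      (1 + η) * (1 / (((n : ℝ) + 1) * Real.log ((n : ℝ) + 1))) := by
        rw [mul_one_div, div_le_div_iff₀ (by positivity) (by positivity)]
        have : (0 : ℝ) < (n : ℝ) + 1 := by positivity
        nlinarith
    _ ≤ _ := by gcongr

theorem mert_cell_core
    (h_sw : ∀ (A B : ℕ), ∃ X0 : ℕ, ∀ X : ℕ, X0 ≤ X → ∀ r c : ℕ, 1 ≤ r →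
    (r : ℝ) ≤ Real.log X ^ B → Nat.Coprime c r →
    |∑ p ∈ (Icc 1 X).filter (fun n => n.Prime ∧ n ≡ c [MOD r]), Real.log p -
      X / (Nat.totient r : ℝ)| ≤ X / Real.log X ^ A)
    (u v η : ℝ) (hu : 0 < u) (huv : u ≤ v) (hη : 0 < η) : ∃ X0 : ℕ, ∀ X : ℕ,
    X0 ≤ X → ∑ p ∈ (Icc 1 X).filter (fun p : ℕ => p.Prime ∧ (X : ℝ) ^ u ≤ p ∧ (p : ℝ) ≤ (X : ℝ) ^ v),
      1 / (p : ℝ) ≤ (v - u) / u + η := by
  set R := (v - u) / u with hR
  have hR0 : 0 ≤ R := div_nonneg (by linarith) hu.le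
  obtain ⟨δ, hδ0, hδ1, hδ⟩ : ∃ δ : ℝ, 0 < δ ∧ δ ≤ 1 ∧ (1 + δ) * (1 + δ) * R ≤ R + η / 2 := by
    refine ⟨min 1 (η / (6 * (R + 1))), lt_min one_pos (by positivity), min_le_left _ _, ?_⟩
    set δ := min 1 (η / (6 * (R + 1)))
    have h1 : δ ≤ 1 := min_le_left _ _
    have h2 : δ ≤ η / (6 * (R + 1)) := min_le_right _ _
    have h0 : 0 ≤ δ := (lt_min one_pos (by positivity)).le
    rw [le_div_iff₀ (by positivity)] at h2
    nlinarith [mul_nonneg h0 hR0, mul_nonneg (mul_nonneg h0 hR0) (sub_nonneg.2 h1)]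
  obtain ⟨t0, ht0⟩ := pc_asymp_core h_sw δ hδ0
  obtain ⟨N, hN3, hN⟩ := denPi_loglog δ hδ0
  have ev1 : ∀ᶠ X : ℕ in Filter.atTop, (max t0 N : ℝ) ≤ (X : ℝ) ^ u :=
    (tendsto_rpow_atTop hu).comp tendsto_natCast_atTop_atTop |>.eventually_ge_atTop _
  have ev2 : ∀ᶠ X : ℕ in Filter.atTop, 4 / (η * u) ≤ Real.log X :=
    (Real.tendsto_log_atTop.comp tendsto_natCast_atTop_atTop).eventually_ge_atTop _
  obtain ⟨X1, hX1⟩ := Filter.eventually_atTop.1 (ev1.and ev2)
  refine ⟨max X1 2, fun X hX => ?_⟩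
  obtain ⟨h1, h2⟩ := hX1 X ((le_max_left _ _).trans hX)
  have hX2 : 2 ≤ X := (le_max_right _ _).trans hX
  have hXpos : (0 : ℝ) < X := by positivity
  have hX1' : (1 : ℝ) < X := by exact_mod_cast hX2
  have hL : 0 < Real.log X := Real.log_pos hX1'
  set a := ⌈(X : ℝ) ^ u⌉₊ with ha
  set b := min X ⌊(X : ℝ) ^ v⌋₊ with hb
  have hsub : (Icc 1 X).filter (fun p : ℕ => p.Prime ∧ (X : ℝ) ^ u ≤ p ∧ (p : ℝ) ≤ (X : ℝ) ^ v) ⊆
      (Icc a b).filter Nat.Prime := by
    intro p hp
    rw [mem_filter, mem_Icc] at hp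
    rw [mem_filter, mem_Icc]
    refine ⟨⟨Nat.ceil_le.2 hp.2.2.1, le_min hp.1.2 (Nat.le_floor hp.2.2.2)⟩, hp.2.1⟩
  refine (sum_le_sum_of_subset_of_nonneg hsub (fun p _ _ => by positivity)).trans ?_
  rcases lt_or_ge b a with hba | hab
  · rw [Icc_eq_empty (by omega)]
    simp only [filter_empty, sum_empty]
    positivity
  have haR : (X : ℝ) ^ u ≤ a := Nat.le_ceil _
  have hat : t0 ≤ a := by
    have : (t0 : ℝ) ≤ a := ((le_max_left _ _).trans h1).trans haR
    exact_mod_cast this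
  have haN : N ≤ a := by
    have : (N : ℝ) ≤ a := ((le_max_right _ _).trans h1).trans haR
    exact_mod_cast this
  have ha3 : 3 ≤ a := hN3.trans haN
  have hb3 : 3 ≤ b := ha3.trans hab
  have ha3' : (3 : ℝ) ≤ a := by exact_mod_cast ha3
  have hb3' : (3 : ℝ) ≤ b := by exact_mod_cast hb3
  have hbR : (b : ℝ) ≤ (X : ℝ) ^ v := by
    have h3 : (b : ℝ) ≤ ⌊(X : ℝ) ^ v⌋₊ := by exact_mod_cast min_le_right _ _
    exact h3.trans (Nat.floor_le (by positivity))
  have hloga : u * Real.log X ≤ Real.log a := by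
    rw [← Real.log_rpow hXpos]
    exact Real.log_le_log (by positivity) haR
  have hlogb : Real.log b ≤ v * Real.log X := by
    rw [← Real.log_rpow hXpos]
    exact Real.log_le_log (by positivity) hbR
  have hlogab : Real.log a ≤ Real.log b :=
    Real.log_le_log (by positivity) (by exact_mod_cast hab)
  have hloga0 : 0 < Real.log a := lt_of_lt_of_le (by positivity) hloga
  have hlogb0 : 0 < Real.log b := lt_of_lt_of_le hloga0 hlogab
  refine (denPi_abel a (by omega) b hab).trans ?_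
  have h3 : pc b / b ≤ η / 2 := by
    have h4 := (ht0 b (hat.trans hab)).2
    have h5 : pc b / b ≤ (1 + δ) / Real.log b := by
      rw [div_le_div_iff₀ (by positivity) hlogb0]
      calc pc b * Real.log b ≤ (1 + δ) * (b / Real.log b) * Real.log b := by gcongr
        _ = (1 + δ) * b := by field_simp
    refine h5.trans ?_
    rw [div_le_iff₀ hlogb0]
    have h6 : 4 / η ≤ Real.log b := by
      refine le_trans ?_ (hloga.trans hlogab)
      rw [div_le_iff₀ (by positivity)] at h2 ⊢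
      linarith
    rw [div_le_iff₀ hη] at h6
    linarith
  have h4 : ∑ n ∈ Ico a b, pc n / (n * (n + 1)) ≤
      ∑ n ∈ Ico a b, (1 + δ) * (1 + δ) *
        (Real.log (Real.log ((n + 1 : ℕ) : ℝ)) - Real.log (Real.log n)) := by
    refine sum_le_sum fun n hn => ?_
    rw [mem_Ico] at hn
    have hn3 : 3 ≤ n := ha3.trans hn.1
    have hn3' : (3 : ℝ) ≤ n := by exact_mod_cast hn3
    have hn0 : (0 : ℝ) < n := by linarith
    have hlogn : 0 < Real.log n := Real.log_pos (by linarith)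
    have h5 := (ht0 n (hat.trans hn.1)).2
    have h6 := hN n (haN.trans hn.1)
    calc pc n / (n * (n + 1)) ≤ ((1 + δ) * (n / Real.log n)) / (n * (n + 1)) := by gcongr
      _ = (1 + δ) * (1 / (((n : ℝ) + 1) * Real.log n)) := by field_simp
      _ ≤ (1 + δ) * ((1 + δ) *
        (Real.log (Real.log ((n + 1 : ℕ) : ℝ)) - Real.log (Real.log n))) := by gcongr
      _ = _ := by ring
  have h5 : ∑ n ∈ Ico a b, (1 + δ) * (1 + δ) *
        (Real.log (Real.log ((n + 1 : ℕ) : ℝ)) - Real.log (Real.log n)) =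
      (1 + δ) * (1 + δ) * (Real.log (Real.log b) - Real.log (Real.log a)) := by
    rw [← mul_sum, sum_Ico_sub (fun n : ℕ => Real.log (Real.log (n : ℝ))) hab]
  have h6 : Real.log (Real.log b) - Real.log (Real.log a) ≤ R := by
    rw [← Real.log_div hlogb0.ne' hloga0.ne']
    have h7 := Real.log_le_sub_one_of_pos (show 0 < Real.log b / Real.log a by positivity)
    refine h7.trans ?_
    rw [hR, sub_div, div_self hu.ne']
    have h8 : Real.log b / Real.log a ≤ v / u := by
      rw [div_le_div_iff₀ hloga0 hu]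
      calc Real.log b * u ≤ v * Real.log X * u := by gcongr
        _ = v * (u * Real.log X) := by ring
        _ ≤ v * Real.log a := by
          have : 0 ≤ v := by linarith
          gcongr
    linarith
  have h7 : (1 + δ) * (1 + δ) * (Real.log (Real.log b) - Real.log (Real.log a)) ≤
      (1 + δ) * (1 + δ) * R := by gcongr
  linarith

end Pool.MP_dd84fd_nt.T7
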