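import Pool.Agent.Lib.MP_dd84fd_nt.T7.DenExpand
import Pool.Agent.Lib.MP_dd84fd_nt.T7.DenPi
import Pool.Agent.Lib.MP_dd84fd_nt.T7.Den3
import Pool.Agent.Lib.MP_dd84fd_nt.T7.Den4

/-!
T7-37 Density. pc y >= (1-eta) y/log y >= (1-eta) y/L, 1 - 0.8425 - 0.0847 = 0.0728; C X/L^2 <= 2C y/L^2.
-/

set_option autoImplicit false

namespace Pool.MP_dd84fd_nt.T7

open Finset Pool.MP_67663b_nt.Odd Pool.MP_dd84fd_nt.L2G

theorem density : ∃ X0 : ℕ, ∀ X : ℕ, X0 ≤ X → ∀ y : ℕ, X ≤ 2 * y → y ≤ X →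
    (7 / 100 : ℝ) * (y / Real.log X) ≤ ∑ n ∈ Icc 1 y, Sv X n := by
  obtain ⟨C, X1, hexp⟩ := den_expand
  obtain ⟨t0, hpc⟩ := pc_asymp (1 / 1000) (by norm_num)
  obtain ⟨X2, h3⟩ := n3_le
  obtain ⟨X3, h4⟩ := n4_le
  have htend : Filter.Tendsto (fun X : ℕ => Real.log (X : ℝ)) Filter.atTop Filter.atTop :=
    Real.tendsto_log_atTop.comp tendsto_natCast_atTop_atTop
  obtain ⟨X4, hlog⟩ := Filter.eventually_atTop.1
    (htend.eventually (Filter.eventually_ge_atTop (2000 * |C| + 1)))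
  refine ⟨max (max X1 X2) (max (max X3 X4) (2 * t0 + 6)), ?_⟩
  intro X hX y hXy hyX
  have hX1 : X1 ≤ X := le_trans (le_trans (le_max_left _ _) (le_max_left _ _)) hX
  have hX2 : X2 ≤ X := le_trans (le_trans (le_max_right _ _) (le_max_left _ _)) hX
  have hX34 : max (max X3 X4) (2 * t0 + 6) ≤ X := le_trans (le_max_right _ _) hX
  have hX3 : X3 ≤ X := le_trans (le_trans (le_max_left _ _) (le_max_left _ _)) hX34
  have hX4 : X4 ≤ X := le_trans (le_trans (le_max_right _ _) (le_max_left _ _)) hX34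
  have hX5 : 2 * t0 + 6 ≤ X := le_trans (le_max_right _ _) hX34
  have ht0 : t0 ≤ y := by omega
  have hy3 : 3 ≤ y := by omega
  have e1 := hexp X hX1 y hXy hyX
  have e2 := (hpc y ht0).1
  have e3 := h3 X hX2 y hXy hyX
  have e4 := h4 X hX3 y hXy hyX
  have hL := hlog X hX4
  have hC0 : 0 ≤ |C| := abs_nonneg C
  have hLpos : 0 < Real.log (X : ℝ) := by linarith
  have hy0 : (0 : ℝ) < y := by
    have : 0 < y := by omega
    exact_mod_cast this
  have hylog : 0 < Real.log (y : ℝ) := by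
    apply Real.log_pos
    have : 1 < y := by omega
    exact_mod_cast this
  have hyXr : (y : ℝ) ≤ X := by exact_mod_cast hyX
  have hlogle : Real.log (y : ℝ) ≤ Real.log X := Real.log_le_log hy0 hyXr
  have e5 : (y : ℝ) / Real.log X ≤ y / Real.log y :=
    div_le_div_of_nonneg_left hy0.le hylog hlogle
  have hXy' : (X : ℝ) ≤ 2 * y := by exact_mod_cast hXy
  have e6 : C * X / Real.log X ^ 2 ≤ (1 / 1000) * (y / Real.log X) := by
    have h1 : C * X / Real.log X ^ 2 ≤ |C| * (2 * y) / Real.log X ^ 2 := by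
      apply div_le_div_of_nonneg_right _ (by positivity)
      calc C * X ≤ |C| * X := mul_le_mul_of_nonneg_right (le_abs_self C) (Nat.cast_nonneg X)
        _ ≤ |C| * (2 * y) := mul_le_mul_of_nonneg_left hXy' hC0
    refine h1.trans ?_
    rw [pow_two, ← div_div, mul_div_assoc' (1 / 1000 : ℝ)]
    apply div_le_div_of_nonneg_right _ hLpos.le
    rw [div_le_iff₀ hLpos]
    nlinarith [mul_pos hy0 hLpos]
  have hq : 0 ≤ (y : ℝ) / Real.log X := by positivity
  have e7 : (1 - 1 / 1000 : ℝ) * (y / Real.log X) ≤ pc y :=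
    le_trans (mul_le_mul_of_nonneg_left e5 (by norm_num)) e2
  linarith

end Pool.MP_dd84fd_nt.T7
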