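import Pool.Agent.Lib.MP_dd84fd_nt.T7.Defs
import Pool.Agent.Lib.MP_dd84fd_nt.L2G.GaussJac

/-!
T7-02 GaussM. e((q/m) h b/q) = e(hb/m) depends only on b mod m.
gauss_supp: if chi does not factor through m there is a unit u = 1 mod m with chi(u) != 1 (as in L2G/GaussJac; DirichletCharacter.factorsThrough_iff_ker_unitsMap);
replacing b by ub: tG = chi(u) tG, so tG = 0.
gauss_norm: for a unit u mod q: chi(u) tG(uk) = tG(k), so |tG| is constant on the orbit of k = (q/m)h under the units, which consists of the phi(m) elements (q/m)h', h' mod m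
coprime to m; so phi(m) |tG|^2 <= sum_{h' mod m} |tG((q/m)h')|^2 = m sum_{c mod m} |sum_{b = c (m)} chi(b)|^2 <= m * (q/m) * phi(q) (Cauchy in each class: at most q/m elements b).
(All of this is inside L2G/GaussJac, private: copy it.)
gauss_twist: chi = changeLevel psi; take h' = h mod m with (h',q)=1 (ZMod.unitsMap surjective), chi(h') = psi(h), and substitute b -> h'b.
-/

set_option autoImplicit false

namespace Pool.MP_dd84fd_nt.T7

open Finset Pool.MP_67663b_nt.Odd Pool.MP_dd84fd_nt.L2G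

private theorem GaussM_expand (q : ℕ) [NeZero q] (f : ZMod q → ℂ) (S : Finset (ZMod q)) :
    ((∑ h ∈ S, ‖∑ b : ZMod q, f b * ZMod.stdAddChar (h * b)‖ ^ 2 : ℝ) : ℂ) =
      ∑ b : ZMod q, ∑ c : ZMod q, f b * (starRingEnd ℂ) (f c) *
        ∑ h ∈ S, (ZMod.stdAddChar (h * (b - c)) : ℂ) := by
  push_cast
  have h1 : ∀ h ∈ S, ((‖∑ b : ZMod q, f b * ZMod.stdAddChar (h * b)‖ : ℂ)) ^ 2 =
      ∑ b : ZMod q, ∑ c : ZMod q, f b * (starRingEnd ℂ) (f c) *
        (ZMod.stdAddChar (h * (b - c)) : ℂ) := by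
    intro h _
    rw [← Complex.mul_conj', map_sum, Finset.sum_mul_sum]
    refine Finset.sum_congr rfl fun b _ => Finset.sum_congr rfl fun c _ => ?_
    rw [map_mul (starRingEnd ℂ), ← AddChar.map_neg_eq_conj, mul_sub, sub_eq_add_neg,
      AddChar.map_add_eq_mul]
    ring
  rw [Finset.sum_congr rfl h1, Finset.sum_comm]
  refine Finset.sum_congr rfl fun b _ => ?_
  rw [Finset.sum_comm]
  refine Finset.sum_congr rfl fun c _ => ?_
  rw [Finset.mul_sum]

private theorem GaussM_card_units (q : ℕ) [NeZero q] :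
    (univ.filter (fun b : ZMod q => IsUnit b)).card ≤ Nat.totient q := by
  classical
  have h1 : (univ.filter (fun b : ZMod q => IsUnit b)) ⊆
      Finset.image (fun u : (ZMod q)ˣ => (u : ZMod q)) (Finset.univ : Finset (ZMod q)ˣ) := by
    intro b hb
    rw [Finset.mem_filter] at hb
    obtain ⟨u, hu⟩ := hb.2
    rw [Finset.mem_image]
    exact ⟨u, mem_univ u, hu⟩
  refine (Finset.card_le_card h1).trans (Finset.card_image_le.trans ?_)
  rw [Finset.card_univ, ZMod.card_units_eq_totient]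

private theorem GaussM_norm_sum (q : ℕ) [NeZero q] (χ : DirichletCharacter ℂ q) :
    ∑ b : ZMod q, ‖χ b‖ ≤ (Nat.totient q : ℝ) := by
  have h1 : ∑ b : ZMod q, ‖χ b‖ = ∑ b ∈ univ.filter (fun b : ZMod q => IsUnit b), ‖χ b‖ := by
    rw [Finset.sum_filter]
    refine Finset.sum_congr rfl fun b _ => ?_
    split_ifs with h
    · rfl
    · rw [χ.map_nonunit h, norm_zero]
  rw [h1]
  calc _ ≤ ∑ b ∈ univ.filter (fun b : ZMod q => IsUnit b), (1 : ℝ) :=
        Finset.sum_le_sum fun b _ => χ.norm_le_one b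
    _ = ((univ.filter (fun b : ZMod q => IsUnit b)).card : ℝ) := by simp
    _ ≤ _ := by exact_mod_cast GaussM_card_units q

private noncomputable def GaussM_t (q : ℕ) [NeZero q] (χ : DirichletCharacter ℂ q) (h : ZMod q) : ℂ :=
  ∑ b : ZMod q, χ b * ZMod.stdAddChar (h * b)

private theorem GaussM_t_unit (q : ℕ) [NeZero q] (χ : DirichletCharacter ℂ q) (h : ZMod q)
    (u : (ZMod q)ˣ) : χ u * GaussM_t q χ (u * h) = GaussM_t q χ h := by
  unfold GaussM_t
  rw [Finset.mul_sum]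
  refine Fintype.sum_equiv (Units.mulLeft u) _ _ fun b => ?_
  have h1 : (u : ZMod q) * h * b = h * (Units.mulLeft u b) := by
    rw [Units.mulLeft_apply]
    ring
  rw [h1, Units.mulLeft_apply, map_mul χ]
  ring

private theorem GaussM_norm_unit (q : ℕ) [NeZero q] (χ : DirichletCharacter ℂ q)
    (u : (ZMod q)ˣ) : ‖χ (u : ZMod q)‖ = 1 := by
  exact χ.unit_norm_eq_one u

private theorem GaussM_t_norm (q : ℕ) [NeZero q] (χ : DirichletCharacter ℂ q) (h : ZMod q)
    (u : (ZMod q)ˣ) : ‖GaussM_t q χ (u * h)‖ = ‖GaussM_t q χ h‖ := by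
  rw [← GaussM_t_unit q χ h u, norm_mul, GaussM_norm_unit, one_mul]

private theorem GaussM_sumS (q : ℕ) [NeZero q] (χ : DirichletCharacter ℂ q) (m g : ℕ)
    (hmg : g * m = q) :
    ∑ h ∈ univ.filter (fun h : ZMod q => m • h = 0), ‖GaussM_t q χ h‖ ^ 2 ≤
      (q : ℝ) * Nat.totient q := by
  classical
  have hm : 0 < m := Nat.pos_of_ne_zero (by
    rintro rfl
    rw [mul_zero] at hmg
    exact NeZero.ne q hmg.symm)
  have hg : 0 < g := Nat.pos_of_ne_zero (by
    rintro rfl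
    rw [zero_mul] at hmg
    exact NeZero.ne q hmg.symm)
  obtain ⟨S, hSdef⟩ : ∃ S : Finset (ZMod q), S = univ.filter (fun h : ZMod q => m • h = 0) :=
    ⟨_, rfl⟩
  rw [← hSdef]
  have hScard : S.card ≤ m := by
    rw [hSdef]
    exact IsAddCyclic.card_nsmul_eq_zero_le (α := ZMod q) hm
  have hgS : m • (g : ZMod q) = 0 := by
    rw [nsmul_eq_mul, ← Nat.cast_mul, mul_comm, hmg, ZMod.natCast_self]
  have hsum : ∀ x : ZMod q, (g : ZMod q) * x ≠ 0 →
      ∑ h ∈ S, (ZMod.stdAddChar (h * x) : ℂ) = 0 := by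
    intro x hx
    have h1 : ∑ h ∈ S, (ZMod.stdAddChar (h * x) : ℂ) =
        (ZMod.stdAddChar ((g : ZMod q) * x) : ℂ) * ∑ h ∈ S, (ZMod.stdAddChar (h * x) : ℂ) := by
      rw [Finset.mul_sum]
      refine Finset.sum_bij (fun h _ => h - g) ?_ ?_ ?_ ?_
      · intro h hh
        rw [hSdef, Finset.mem_filter] at hh ⊢
        exact ⟨mem_univ _, by rw [smul_sub, hh.2, hgS, sub_zero]⟩
      · intro h1 _ h2 _ he
        exact sub_left_injective he
      · intro h hh
        refine ⟨h + g, ?_, by ring⟩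
        rw [hSdef, Finset.mem_filter] at hh ⊢
        exact ⟨mem_univ _, by rw [smul_add, hh.2, hgS, add_zero]⟩
      · intro h _
        rw [← AddChar.map_add_eq_mul]
        congr 1
        ring
    have h2 : (ZMod.stdAddChar ((g : ZMod q) * x) : ℂ) ≠ 1 := by
      intro h3
      apply hx
      rw [← (ZMod.stdAddChar (N := q)).map_zero_eq_one] at h3
      exact ZMod.injective_stdAddChar h3
    have h3 : (1 - (ZMod.stdAddChar ((g : ZMod q) * x) : ℂ)) *
        ∑ h ∈ S, (ZMod.stdAddChar (h * x) : ℂ) = 0 := by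
      rw [sub_mul, one_mul, ← h1, sub_self]
    rcases mul_eq_zero.mp h3 with h4 | h4
    · exact absurd (sub_eq_zero.mp h4).symm h2
    · exact h4
  have hE := GaussM_expand q (fun b => χ b) S
  have hle : ∑ h ∈ S, ‖GaussM_t q χ h‖ ^ 2 ≤
      ∑ b : ZMod q, ∑ c : ZMod q, ‖χ b‖ * (if (g : ℕ) • (b - c) = 0 then (m : ℝ) else 0) := by
    have h0 : 0 ≤ ∑ h ∈ S, ‖GaussM_t q χ h‖ ^ 2 :=
      Finset.sum_nonneg fun h _ => by positivity
    have h1 : ∑ h ∈ S, ‖GaussM_t q χ h‖ ^ 2 =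
        ‖((∑ h ∈ S, ‖GaussM_t q χ h‖ ^ 2 : ℝ) : ℂ)‖ := by
      rw [Complex.norm_real, Real.norm_of_nonneg h0]
    rw [h1]
    unfold GaussM_t
    rw [hE]
    refine (norm_sum_le _ _).trans (Finset.sum_le_sum fun b _ => ?_)
    refine (norm_sum_le _ _).trans (Finset.sum_le_sum fun c _ => ?_)
    rw [norm_mul, norm_mul, RCLike.norm_conj]
    have h5 : ‖∑ h ∈ S, (ZMod.stdAddChar (h * (b - c)) : ℂ)‖ ≤
        (if (g : ℕ) • (b - c) = 0 then (m : ℝ) else 0) := by
      split_ifs with h6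
      · refine (norm_sum_le _ _).trans ?_
        calc _ = ∑ h ∈ S, (1 : ℝ) := Finset.sum_congr rfl fun h _ => AddChar.norm_apply _ _
          _ = (S.card : ℝ) := by simp
          _ ≤ m := by exact_mod_cast hScard
      · rw [hsum (b - c) (by rwa [← nsmul_eq_mul]), norm_zero]
    have h6 := χ.norm_le_one c
    have h7 := norm_nonneg (χ c)
    have h8 := norm_nonneg (χ b)
    calc ‖χ b‖ * ‖χ c‖ * ‖∑ h ∈ S, (ZMod.stdAddChar (h * (b - c)) : ℂ)‖
        ≤ ‖χ b‖ * 1 * (if (g : ℕ) • (b - c) = 0 then (m : ℝ) else 0) := by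
          gcongr
      _ = _ := by ring
  refine hle.trans ?_
  have h9 : ∀ b : ZMod q, ∑ c : ZMod q, ‖χ b‖ * (if (g : ℕ) • (b - c) = 0 then (m : ℝ) else 0) ≤
      ‖χ b‖ * q := by
    intro b
    rw [← Finset.mul_sum]
    refine mul_le_mul_of_nonneg_left ?_ (norm_nonneg _)
    rw [← Finset.sum_filter, Finset.sum_const, nsmul_eq_mul]
    have h10 : (univ.filter (fun c : ZMod q => (g : ℕ) • (b - c) = 0)).card ≤ g := by
      refine le_trans (Finset.card_le_card_of_injOn (fun c => b - c) ?_ ?_)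
        (IsAddCyclic.card_nsmul_eq_zero_le (α := ZMod q) hg)
      · intro c hc
        rw [Finset.mem_coe, Finset.mem_filter] at hc
        rw [Finset.mem_coe, Finset.mem_filter]
        exact ⟨mem_univ _, hc.2⟩
      · intro c _ d _ hcd
        exact sub_right_injective hcd
    calc ((univ.filter (fun c : ZMod q => (g : ℕ) • (b - c) = 0)).card : ℝ) * m ≤ (g : ℝ) * m := by
          gcongr
      _ = q := by exact_mod_cast hmg
  refine (Finset.sum_le_sum fun b _ => h9 b).trans ?_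
  rw [← Finset.sum_mul, mul_comm]
  exact mul_le_mul_of_nonneg_left (GaussM_norm_sum q χ) (Nat.cast_nonneg q)

private theorem GaussM_tG (q : ℕ) [NeZero q] (χ : DirichletCharacter ℂ q) (h : ℕ) :
    tG q χ h = GaussM_t q χ (h : ZMod q) := by
  unfold tG GaussM_t
  refine Finset.sum_congr rfl fun b _ => ?_
  congr 1
  have h1 : (h : ZMod q) * b = (((h * b.val : ℕ) : ℤ) : ZMod q) := by
    push_cast
    rw [ZMod.natCast_zmod_val]
  rw [h1, ZMod.stdAddChar_coe]
  unfold ee
  congr 1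
  push_cast
  ring

private theorem GaussM_smul (q : ℕ) [NeZero q] (m : ℕ) (hm : m ∣ q) (h : ℕ) :
    m • (((q / m * h : ℕ)) : ZMod q) = 0 := by
  rw [nsmul_eq_mul, ← Nat.cast_mul]
  have h1 : m * (q / m * h) = q * h := by
    rw [← mul_assoc, Nat.mul_div_cancel' hm]
  rw [h1, Nat.cast_mul, ZMod.natCast_self, zero_mul]

/-- a number divisible by `m` kills `(q/m) h` -/
private theorem GaussM_kill (q : ℕ) [NeZero q] (m : ℕ) (hm : m ∣ q) (h : ℕ) (x : ZMod q)
    (hx : (ZMod.castHom hm (ZMod m)) x = 0) : x * (((q / m * h : ℕ)) : ZMod q) = 0 := by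
  have h6 : m ∣ x.val := by
    rw [ZMod.castHom_apply, ZMod.cast_eq_val] at hx
    exact (ZMod.natCast_eq_zero_iff _ _).mp hx
  obtain ⟨k, hk⟩ := h6
  have h7 : x = (m : ZMod q) * (k : ZMod q) := by
    rw [← Nat.cast_mul, ← hk, ZMod.natCast_zmod_val]
  rw [h7]
  calc (m : ZMod q) * (k : ZMod q) * (((q / m * h : ℕ)) : ZMod q)
      = (k : ZMod q) * (m • (((q / m * h : ℕ)) : ZMod q)) := by
        rw [nsmul_eq_mul]
        ring
    _ = 0 := by rw [GaussM_smul q m hm h, mul_zero]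

private theorem GaussM_kill' (q : ℕ) [NeZero q] (m : ℕ) (hm : m ∣ q) (h : ℕ)
    (hh : Nat.Coprime h m) (x : ZMod q) (hx : x * (((q / m * h : ℕ)) : ZMod q) = 0) :
    (ZMod.castHom hm (ZMod m)) x = 0 := by
  have hq : 0 < q := NeZero.pos q
  have hm0 : 0 < m := Nat.pos_of_dvd_of_pos hm hq
  have h1 : ((x.val * (q / m * h) : ℕ) : ZMod q) = 0 := by
    rw [Nat.cast_mul, ZMod.natCast_zmod_val]
    exact hx
  rw [ZMod.natCast_eq_zero_iff] at h1
  obtain ⟨g, hg⟩ := hm
  have hg0 : 0 < g := Nat.pos_of_ne_zero (by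
    rintro rfl
    rw [mul_zero] at hg
    omega)
  have h2 : q / m = g := by
    rw [hg, Nat.mul_div_cancel_left _ hm0]
  rw [h2] at h1
  have key : ∀ y : ℕ, q ∣ y * (g * h) → m ∣ y := by
    intro y hy
    rw [hg] at hy
    have h3 : g * m ∣ g * (y * h) := by
      have e1 : g * (y * h) = y * (g * h) := by ring
      rw [e1, mul_comm g m]
      exact hy
    have h4 : m ∣ y * h := Nat.dvd_of_mul_dvd_mul_left hg0 h3
    exact Nat.Coprime.dvd_of_dvd_mul_right hh.symm h4
  have h5 : m ∣ x.val := key _ h1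
  rw [ZMod.castHom_apply, ZMod.cast_eq_val]
  exact (ZMod.natCast_eq_zero_iff _ _).mpr h5

theorem gauss_supp (q : ℕ) [NeZero q] (χ : DirichletCharacter ℂ q) (m : ℕ) (hm : m ∣ q) (h : ℕ)
    (hχ : ¬ χ.FactorsThrough m) : tG q χ (q / m * h) = 0 := by
  rw [GaussM_tG]
  rw [DirichletCharacter.factorsThrough_iff_ker_unitsMap hm] at hχ
  obtain ⟨u, hu1, hu2⟩ := SetLike.not_le_iff_exists.mp hχ
  rw [MonoidHom.mem_ker] at hu1 hu2
  have hu3 : χ (u : ZMod q) ≠ 1 := by
    intro hc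
    apply hu2
    refine Units.ext ?_
    rw [MulChar.coe_toUnitHom, hc, Units.val_one]
  obtain ⟨k, hk⟩ : ∃ k : ZMod q, k = (((q / m * h : ℕ)) : ZMod q) := ⟨_, rfl⟩
  have hu4 : (u : ZMod q) * k = k := by
    have h5 : (ZMod.castHom hm (ZMod m)) ((u : ZMod q) - 1) = 0 := by
      rw [map_sub, map_one]
      have h6 := congrArg Units.val hu1
      rw [ZMod.unitsMap_def, Units.coe_map, Units.val_one] at h6
      exact sub_eq_zero.mpr h6
    have h8 := GaussM_kill q m hm h _ h5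
    rw [← hk, sub_mul, one_mul, sub_eq_zero] at h8
    exact h8
  rw [← hk]
  have h9 := GaussM_t_unit q χ k u
  rw [hu4] at h9
  have h10 : (χ (u : ZMod q) - 1) * GaussM_t q χ k = 0 := by
    rw [sub_mul, h9, one_mul, sub_self]
  rcases mul_eq_zero.mp h10 with h12 | h12
  · exact absurd (sub_eq_zero.mp h12) hu3
  · exact h12

theorem gauss_norm (q : ℕ) [NeZero q] (χ : DirichletCharacter ℂ q) (m : ℕ) (hm : m ∣ q) (h : ℕ)
    (hh : Nat.Coprime h m) :
    ‖tG q χ (q / m * h)‖ ^ 2 * (Nat.totient m : ℝ) ≤ (q : ℝ) * (Nat.totient q : ℝ) := by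
  classical
  have hq : 0 < q := NeZero.pos q
  have hm0 : 0 < m := Nat.pos_of_dvd_of_pos hm hq
  have : NeZero m := ⟨hm0.ne'⟩
  rw [GaussM_tG]
  obtain ⟨k, hk⟩ : ∃ k : ZMod q, k = (((q / m * h : ℕ)) : ZMod q) := ⟨_, rfl⟩
  rw [← hk]
  have hsur := ZMod.unitsMap_surjective hm
  choose r hr using hsur
  have h1 := GaussM_sumS q χ m (q / m) (Nat.div_mul_cancel hm)
  refine le_trans ?_ h1
  have hinj : Function.Injective (fun v : (ZMod m)ˣ => ((r v : (ZMod q)ˣ) : ZMod q) * k) := by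
    intro v v' hvv
    simp only at hvv
    have h2 : (((r v : (ZMod q)ˣ) : ZMod q) - ((r v' : (ZMod q)ˣ) : ZMod q)) * k = 0 := by
      rw [sub_mul, hvv, sub_self]
    rw [hk] at h2
    have h3 := GaussM_kill' q m hm h hh _ h2
    rw [map_sub, sub_eq_zero] at h3
    have h4 : ZMod.unitsMap hm (r v) = ZMod.unitsMap hm (r v') := by
      refine Units.ext ?_
      rw [ZMod.unitsMap_def, Units.coe_map, Units.coe_map]
      exact h3
    rw [hr, hr] at h4
    exact h4
  have h5 : (univ : Finset (ZMod m)ˣ).image (fun v => ((r v : (ZMod q)ˣ) : ZMod q) * k) ⊆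
      univ.filter (fun h : ZMod q => m • h = 0) := by
    intro x hx
    obtain ⟨v, -, rfl⟩ := Finset.mem_image.mp hx
    rw [Finset.mem_filter]
    refine ⟨mem_univ _, ?_⟩
    rw [nsmul_eq_mul, ← mul_assoc, mul_comm (m : ZMod q), mul_assoc, ← nsmul_eq_mul, hk,
      GaussM_smul q m hm h, mul_zero]
  refine le_trans (le_of_eq ?_) (Finset.sum_le_sum_of_subset_of_nonneg h5
    fun x _ _ => by positivity)
  rw [Finset.sum_image fun x _ y _ hxy => hinj hxy]
  simp only [GaussM_t_norm]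
  rw [Finset.sum_const, Finset.card_univ, ZMod.card_units_eq_totient, nsmul_eq_mul, mul_comm]

theorem gauss_twist (q : ℕ) [NeZero q] (m : ℕ) (hm : m ∣ q) (ψ : DirichletCharacter ℂ m) (h : ℕ)
    (hh : Nat.Coprime h m) :
    ψ h * tG q (DirichletCharacter.changeLevel hm ψ) (q / m * h) =
      tG q (DirichletCharacter.changeLevel hm ψ) (q / m) := by
  obtain ⟨u, hu⟩ := ZMod.unitsMap_surjective hm (ZMod.unitOfCoprime h hh)
  have hu1 : (ZMod.castHom hm (ZMod m)) (u : ZMod q) = (h : ZMod m) := by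
    have h6 := congrArg Units.val hu
    rw [ZMod.unitsMap_def, Units.coe_map, ZMod.coe_unitOfCoprime] at h6
    exact h6
  have hψ : DirichletCharacter.changeLevel hm ψ (u : ZMod q) = ψ h := by
    rw [DirichletCharacter.changeLevel_eq_cast_of_dvd, ← hu1, ZMod.castHom_apply]
  rw [GaussM_tG, GaussM_tG, ← GaussM_t_unit q _ (((q / m : ℕ)) : ZMod q) u, hψ]
  congr 2
  have h5 : (ZMod.castHom hm (ZMod m)) ((u : ZMod q) - (h : ZMod q)) = 0 := by
    rw [map_sub, hu1, map_natCast, sub_self]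
  have h8 := GaussM_kill q m hm 1 _ h5
  rw [mul_one, sub_mul, sub_eq_zero] at h8
  rw [h8]
  push_cast
  ring

end Pool.MP_dd84fd_nt.T7
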