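import Pool.Agent.Lib.MP_dd84fd_nt.T7.FourMod
import Pool.Agent.Lib.MP_dd84fd_nt.T7.GaussM
import Pool.Agent.Lib.MP_dd84fd_nt.L2G.ModelArith
import Pool.Agent.Lib.MP_dd84fd_nt.L2G.MinSum

set_option autoImplicit false

namespace Pool.MP_dd84fd_nt.T7

open Finset Pool.MP_67663b_nt.Odd Pool.MP_dd84fd_nt.L2G

/-- Fourier coefficient of the interval `(M, M + N]` -/
private noncomputable def FourInt_c (q M N h : ℕ) : ℂ :=
  (1 / (q : ℂ)) * ∑ n ∈ Ioc M (M + N), ee (n * (-((h : ℝ) / q)))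

private theorem FourInt_std (q : ℕ) [NeZero q] (h : ℕ) (b : ZMod q) :
    ee ((h : ℝ) * (b.val : ℝ) / q) = ZMod.stdAddChar ((h : ZMod q) * b) := by
  have h1 : (h : ZMod q) * b = (((h * b.val : ℕ) : ℤ) : ZMod q) := by
    push_cast
    rw [ZMod.natCast_zmod_val]
  rw [h1, ZMod.stdAddChar_coe]
  unfold ee
  congr 1
  push_cast
  ring

private theorem FourInt_std' (q : ℕ) [NeZero q] (h n : ℕ) :
    ee (n * (-((h : ℝ) / q))) = ZMod.stdAddChar (-((h : ZMod q) * (n : ZMod q))) := by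
  have h1 : -((h : ZMod q) * (n : ZMod q)) = ((-((h * n : ℕ) : ℤ) : ℤ) : ZMod q) := by
    push_cast
    ring
  rw [h1, ZMod.stdAddChar_coe]
  unfold ee
  congr 1
  push_cast
  ring

private theorem FourInt_range (q : ℕ) [NeZero q] (F : ZMod q → ℂ) :
    ∑ h ∈ range q, F (h : ZMod q) = ∑ h : ZMod q, F h := by
  refine Finset.sum_bij' (fun h _ => (h : ZMod q)) (fun b _ => b.val) ?_ ?_ ?_ ?_ ?_
  · intro h _
    exact mem_univ _
  · intro b _
    exact Finset.mem_range.mpr (ZMod.val_lt b)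
  · intro h hh
    exact ZMod.val_cast_of_lt (Finset.mem_range.mp hh)
  · intro b _
    exact ZMod.natCast_zmod_val b
  · intro h _
    rfl

private theorem FourInt_inv (q : ℕ) [NeZero q] (χ : DirichletCharacter ℂ q) (x : ZMod q) :
    ∑ h : ZMod q, (∑ b : ZMod q, χ b * ZMod.stdAddChar (h * b)) * ZMod.stdAddChar (-(h * x)) =
      (q : ℂ) * χ x := by
  have h1 : ∀ h : ZMod q, (∑ b : ZMod q, χ b * ZMod.stdAddChar (h * b)) *
      ZMod.stdAddChar (-(h * x)) = ∑ b : ZMod q, χ b * ZMod.stdAddChar (h * (b - x)) := by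
    intro h
    rw [Finset.sum_mul]
    refine Finset.sum_congr rfl fun b _ => ?_
    have h2 : h * (b - x) = h * b + -(h * x) := by ring
    rw [h2, AddChar.map_add_eq_mul]
    ring
  rw [Finset.sum_congr rfl fun h _ => h1 h, Finset.sum_comm, Finset.sum_eq_single x]
  · rw [← Finset.mul_sum, sub_self]
    simp only [mul_zero, AddChar.map_zero_eq_one, Finset.sum_const, Finset.card_univ,
        ZMod.card, nsmul_eq_mul, mul_one]
    ring
  · intro b _ hb
    rw [← Finset.mul_sum, AddChar.sum_mulShift (b - x) (ZMod.isPrimitive_stdAddChar q),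
        if_neg (sub_ne_zero.mpr hb)]
    simp
  · intro hb
    exact absurd (mem_univ x) hb

private theorem FourInt_tG (q : ℕ) [NeZero q] (χ : DirichletCharacter ℂ q) (h : ℕ) :
    tG q χ h = ∑ b : ZMod q, χ b * ZMod.stdAddChar ((h : ZMod q) * b) := by
  unfold tG
  refine Finset.sum_congr rfl fun b _ => ?_
  rw [FourInt_std]

private theorem FourInt_expand (q : ℕ) [NeZero q] (χ : DirichletCharacter ℂ q) (M N : ℕ)
    (hχ : χ ≠ 1) :
    ∑ n ∈ Ioc M (M + N), (χ n : ℂ) = ∑ h ∈ Ico 1 q, FourInt_c q M N h * tG q χ h := by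
  have hq0 : (q : ℂ) ≠ 0 := Nat.cast_ne_zero.mpr (NeZero.ne q)
  have h0 : tG q χ 0 = 0 := by
    unfold tG
    simp only [Nat.cast_zero, zero_mul, zero_div, ee_zero, mul_one]
    exact MulChar.sum_eq_zero_of_ne_one hχ
  have h1 : ∑ h ∈ range q, FourInt_c q M N h * tG q χ h =
      ∑ h ∈ Ico 1 q, FourInt_c q M N h * tG q χ h := by
    rw [Finset.sum_range_eq_add_Ico _ (NeZero.pos q), h0, mul_zero, zero_add]
  rw [← h1]
  have h2 : ∀ h ∈ range q, FourInt_c q M N h * tG q χ h =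
      (1 / (q : ℂ)) * ∑ n ∈ Ioc M (M + N),
        (∑ b : ZMod q, χ b * ZMod.stdAddChar ((h : ZMod q) * b)) *
          ZMod.stdAddChar (-((h : ZMod q) * (n : ZMod q))) := by
    intro h _
    unfold FourInt_c
    rw [FourInt_tG, mul_assoc, ← Finset.mul_sum]
    congr 1
    rw [mul_comm]
    congr 1
    exact Finset.sum_congr rfl fun n _ => FourInt_std' q h n
  rw [Finset.sum_congr rfl h2, ← Finset.mul_sum, Finset.sum_comm]
  have h3 : ∀ n ∈ Ioc M (M + N), ∑ h ∈ range q,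
      (∑ b : ZMod q, χ b * ZMod.stdAddChar ((h : ZMod q) * b)) *
          ZMod.stdAddChar (-((h : ZMod q) * (n : ZMod q))) = (q : ℂ) * χ n := by
    intro n _
    rw [FourInt_range q (fun h => (∑ b : ZMod q, χ b * ZMod.stdAddChar (h * b)) *
          ZMod.stdAddChar (-(h * (n : ZMod q))))]
    exact FourInt_inv q χ n
  rw [Finset.sum_congr rfl h3, ← Finset.mul_sum, ← mul_assoc, one_div, inv_mul_cancel₀ hq0,
    one_mul]

private theorem FourInt_regroup (q : ℕ) (hq : 1 ≤ q) (f : ℕ → ℂ) :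
    ∑ h ∈ Ico 1 q, f h = ∑ m ∈ q.divisors,
      ∑ h ∈ (Ico 1 m).filter (fun h => Nat.Coprime h m), f (q / m * h) := by
  classical
  rw [Finset.sum_sigma']
  refine Finset.sum_bij' (fun h _ => (⟨q / Nat.gcd h q, h / Nat.gcd h q⟩ : Σ _ : ℕ, ℕ))
    (fun p _ => q / p.1 * p.2) ?_ ?_ ?_ ?_ ?_
  · intro h hh
    rw [Finset.mem_Ico] at hh
    have hg : 0 < Nat.gcd h q := Nat.gcd_pos_of_pos_right _ hq
    simp only [Finset.mem_sigma, Nat.mem_divisors, Finset.mem_filter, Finset.mem_Ico]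
    refine ⟨⟨Nat.div_dvd_of_dvd (Nat.gcd_dvd_right h q), by omega⟩, ⟨?_, ?_⟩, ?_⟩
    · exact Nat.div_pos (Nat.le_of_dvd (by omega) (Nat.gcd_dvd_left h q)) hg
    · exact Nat.div_lt_div_of_lt_of_dvd (Nat.gcd_dvd_right h q) hh.2
    · exact Nat.coprime_div_gcd_div_gcd hg
  · rintro ⟨m, h⟩ hp
    simp only [Finset.mem_sigma, Nat.mem_divisors, Finset.mem_filter, Finset.mem_Ico] at hp ⊢
    obtain ⟨⟨⟨k, hk⟩, _⟩, ⟨h1, h2⟩, h3⟩ := hp
    have hm : 0 < m := by omega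
    have hk0 : 0 < k := by
      rcases Nat.eq_zero_or_pos k with h0 | h0
      · rw [h0, mul_zero] at hk
        omega
      · exact h0
    have hqm : q / m = k := by rw [hk, Nat.mul_div_cancel_left _ hm]
    rw [hqm]
    refine ⟨Nat.mul_pos hk0 (by omega), ?_⟩
    rw [hk, mul_comm m k]
    exact Nat.mul_lt_mul_of_pos_left h2 hk0
  · intro h hh
    rw [Finset.mem_Ico] at hh
    simp only
    rw [Nat.div_div_self (Nat.gcd_dvd_right h q) (by omega),
      Nat.mul_div_cancel' (Nat.gcd_dvd_left h q)]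
  · rintro ⟨m, h⟩ hp
    simp only [Finset.mem_sigma, Nat.mem_divisors, Finset.mem_filter, Finset.mem_Ico] at hp ⊢
    obtain ⟨⟨⟨k, hk⟩, _⟩, ⟨h1, h2⟩, h3⟩ := hp
    have hm : 0 < m := by omega
    have hk0 : 0 < k := by
      rcases Nat.eq_zero_or_pos k with h0 | h0
      · rw [h0, mul_zero] at hk
        omega
      · exact h0
    have hqm : q / m = k := by rw [hk, Nat.mul_div_cancel_left _ hm]
    have hgcd : Nat.gcd (k * h) q = k := by
      rw [hk, mul_comm m k, Nat.gcd_mul_left, Nat.Coprime.gcd_eq_one h3, mul_one]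
    rw [hqm, hgcd]
    have e1 : q / k = m := by rw [hk, Nat.mul_div_cancel _ hk0]
    have e2 : k * h / k = h := Nat.mul_div_cancel_left _ hk0
    rw [e1, e2]
  · intro h hh
    rw [Finset.mem_Ico] at hh
    simp only
    rw [Nat.div_div_self (Nat.gcd_dvd_right h q) (by omega),
      Nat.mul_div_cancel' (Nat.gcd_dvd_left h q)]

private theorem FourInt_split (m : ℕ) (f : ℕ → ℂ) :
    ∑ h ∈ Ico 1 m, f h = ∑ h ∈ Icc 1 (m / 2), f h +
      ∑ h ∈ Icc 1 (m / 2), (if 2 * h < m then f (m - h) else 0) := by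
  classical
  have h1 : ∑ h ∈ Icc 1 (m / 2), (if 2 * h < m then f (m - h) else 0) =
      ∑ h ∈ Ico (m / 2 + 1) m, f h := by
    rw [← Finset.sum_filter]
    refine Finset.sum_bij' (fun h _ => m - h) (fun h _ => m - h) ?_ ?_ ?_ ?_ ?_
    · intro h hh
      rw [Finset.mem_filter, Finset.mem_Icc] at hh
      rw [Finset.mem_Ico]
      omega
    · intro h hh
      rw [Finset.mem_Ico] at hh
      rw [Finset.mem_filter, Finset.mem_Icc]
      omega
    · intro h hh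
      rw [Finset.mem_filter, Finset.mem_Icc] at hh
      omega
    · intro h hh
      rw [Finset.mem_Ico] at hh
      omega
    · intro h _
      rfl
  rw [h1]
  rcases Nat.lt_or_ge m 2 with hm | hm
  · have e1 : Ico 1 m = ∅ := Finset.Ico_eq_empty (by omega)
    have e2 : Icc 1 (m / 2) = ∅ := Finset.Icc_eq_empty (by omega)
    have e3 : Ico (m / 2 + 1) m = ∅ := Finset.Ico_eq_empty (by omega)
    rw [e1, e2, e3]
    simp
  · have e1 : Icc 1 (m / 2) = Ico 1 (m / 2 + 1) := by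
      ext h
      rw [Finset.mem_Icc, Finset.mem_Ico]
      omega
    rw [e1]
    exact (Finset.sum_Ico_consecutive _ (by omega) (by omega)).symm

private theorem FourInt_c_norm (q M N h : ℕ) [NeZero q] : ‖FourInt_c q M N h‖ ≤ N / q := by
  have hq0 : (0 : ℝ) < q := Nat.cast_pos.mpr (NeZero.pos q)
  unfold FourInt_c
  rw [norm_mul, norm_div, norm_one, Complex.norm_natCast]
  have h1 : ‖∑ n ∈ Ioc M (M + N), ee (n * (-((h : ℝ) / q)))‖ ≤ N := by
    refine (norm_sum_le _ _).trans ?_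
    simp only [norm_ee]
    rw [Finset.sum_const, Nat.card_Ioc, nsmul_eq_mul, mul_one]
    simp
  rw [div_mul_eq_mul_div, one_mul]
  exact div_le_div_of_nonneg_right h1 hq0.le

private theorem FourInt_c_far (q M N h : ℕ) [NeZero q] (s : ℕ) (hs1 : 1 ≤ s) (hs2 : s ≤ h)
    (hs3 : s ≤ q - h) (hh : h < q) : ‖FourInt_c q M N h‖ * s ≤ 1 / 2 := by
  have hq0 : (0 : ℝ) < q := Nat.cast_pos.mpr (NeZero.pos q)
  have hs0 : (0 : ℝ) < s := by exact_mod_cast hs1
  have hnrm : (s : ℝ) / q ≤ nrm (-((h : ℝ) / q)) := by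
    unfold nrm
    generalize round (-((h : ℝ) / q)) = z
    rw [div_le_iff₀ hq0]
    have h1 : |-((h : ℝ) / q) - z| * q = |-(h : ℝ) - z * q| := by
      rw [← abs_of_pos hq0, ← abs_mul, abs_of_pos hq0]
      congr 1
      field_simp
    rw [h1]
    have hs2' : (s : ℝ) ≤ h := by exact_mod_cast hs2
    have hs3' : (s : ℝ) ≤ (q : ℝ) - h := by
      rw [← Nat.cast_sub hh.le]
      exact_mod_cast hs3
    rcases le_or_gt 0 z with hz | hz
    · have hz' : (0 : ℝ) ≤ z := by exact_mod_cast hz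
      have : 0 ≤ (z : ℝ) * q := by positivity
      rw [abs_of_nonpos (by linarith)]
      linarith
    · have hz' : (z : ℝ) ≤ -1 := by
        have : z ≤ -1 := by omega
        exact_mod_cast this
      have h2 : (z : ℝ) * q ≤ -1 * q := mul_le_mul_of_nonneg_right hz' hq0.le
      refine le_trans ?_ (le_abs_self _)
      linarith
  have hn0 : 0 < nrm (-((h : ℝ) / q)) := lt_of_lt_of_le (by positivity) hnrm
  have h2 := geo_sum M (M + N) N (-((h : ℝ) / q)) (by push_cast; linarith) (Nat.cast_nonneg N)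
  have h3 : ‖∑ n ∈ Ioc M (M + N), ee (n * (-((h : ℝ) / q)))‖ ≤
      1 / (2 * nrm (-((h : ℝ) / q))) := by
    refine h2.trans ?_
    unfold mn
    split_ifs with h4
    · rw [le_div_iff₀ (by positivity)]
      linarith
    · exact le_rfl
  unfold FourInt_c
  rw [norm_mul, norm_div, norm_one, Complex.norm_natCast]
  rw [le_div_iff₀ (by positivity)] at h3
  have h5 : ‖∑ n ∈ Ioc M (M + N), ee (n * (-((h : ℝ) / q)))‖ * (2 * (s / q)) ≤ 1 := by
    refine le_trans (mul_le_mul_of_nonneg_left ?_ (norm_nonneg _)) h3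
    linarith
  generalize ‖∑ n ∈ Ioc M (M + N), ee (n * (-((h : ℝ) / q)))‖ = T at h5
  calc 1 / (q : ℝ) * T * s = T * (2 * (s / q)) / 2 := by
        field_simp
    _ ≤ 1 / 2 := by linarith


private theorem FourInt_psi (m : ℕ) [NeZero m] (c : ℕ → ℂ)
    (ψ : DirichletCharacter ℂ m) :
    ‖∑ h ∈ (Ico 1 m).filter (fun h => Nat.Coprime h m), c h * ψ h‖ ^ 4 ≤
      8 * (‖∑ h ∈ Icc 1 (m / 2), c h * ψ h‖ ^ 4 +
        ‖∑ h ∈ Icc 1 (m / 2), (if 2 * h < m then c (m - h) else 0) * ψ h‖ ^ 4) := by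
  classical
  have h1 : ∑ h ∈ (Ico 1 m).filter (fun h => Nat.Coprime h m), c h * ψ h =
      ∑ h ∈ Ico 1 m, c h * ψ h := by
    rw [Finset.sum_filter]
    refine Finset.sum_congr rfl fun h _ => ?_
    split_ifs with hc
    · rfl
    · rw [MulChar.map_nonunit ψ (fun hu => hc ((ZMod.isUnit_iff_coprime h m).mp hu)), mul_zero]
  have h2 : ∑ h ∈ Icc 1 (m / 2), (if 2 * h < m then c (m - h) * ψ ((m - h : ℕ) : ZMod m) else 0) =
      ψ (-1) * ∑ h ∈ Icc 1 (m / 2), (if 2 * h < m then c (m - h) else 0) * ψ h := by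
    rw [Finset.mul_sum]
    refine Finset.sum_congr rfl fun h _ => ?_
    split_ifs with hc
    · have h3 : ((m - h : ℕ) : ZMod m) = (-1) * (h : ZMod m) := by
        rw [Nat.cast_sub (by omega), ZMod.natCast_self]
        ring
      rw [h3, map_mul]
      ring
    · simp
  rw [h1, FourInt_split m (fun h => c h * ψ h), h2]
  have h4 : ‖ψ (-1)‖ ≤ 1 := ψ.norm_le_one _
  set A := ∑ h ∈ Icc 1 (m / 2), c h * ψ h
  set B := ∑ h ∈ Icc 1 (m / 2), (if 2 * h < m then c (m - h) else 0) * ψ h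
  have h5 : ‖A + ψ (-1) * B‖ ≤ ‖A‖ + ‖B‖ := by
    refine (norm_add_le _ _).trans ?_
    rw [norm_mul]
    have := mul_le_mul_of_nonneg_right h4 (norm_nonneg B)
    linarith
  refine (pow_le_pow_left₀ (norm_nonneg _) h5 4).trans ?_
  have ha := norm_nonneg A
  have hb := norm_nonneg B
  generalize ‖A‖ = a at ha
  generalize ‖B‖ = b at hb
  have e1 : (a + b) ^ 2 ≤ 2 * (a ^ 2 + b ^ 2) := by nlinarith [sq_nonneg (a - b)]
  have e2 : (a ^ 2 + b ^ 2) ^ 2 ≤ 2 * (a ^ 4 + b ^ 4) := by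
    nlinarith [sq_nonneg (a ^ 2 - b ^ 2)]
  calc (a + b) ^ 4 = ((a + b) ^ 2) ^ 2 := by ring
    _ ≤ (2 * (a ^ 2 + b ^ 2)) ^ 2 := pow_le_pow_left₀ (by positivity) e1 2
    _ = 4 * (a ^ 2 + b ^ 2) ^ 2 := by ring
    _ ≤ _ := by linarith

/-- the part of the expansion with `gcd(h, q) = q / m` -/
private noncomputable def FourInt_B (q : ℕ) [NeZero q] (M N m : ℕ) (χ : DirichletCharacter ℂ q) :
    ℂ :=
  ∑ h ∈ (Ico 1 m).filter (fun h => Nat.Coprime h m),
    FourInt_c q M N (q / m * h) * tG q χ (q / m * h)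

private theorem FourInt_B_supp (q : ℕ) [NeZero q] (M N m : ℕ) (hm : m ∣ q)
    (χ : DirichletCharacter ℂ q) (hχ : ¬ χ.FactorsThrough m) : FourInt_B q M N m χ = 0 := by
  unfold FourInt_B
  refine Finset.sum_eq_zero fun h _ => ?_
  rw [gauss_supp q χ m hm h hχ, mul_zero]

private theorem FourInt_B_eq (q : ℕ) [NeZero q] (M N m : ℕ) (hm : m ∣ q)
    (ψ : DirichletCharacter ℂ m) :
    FourInt_B q M N m (DirichletCharacter.changeLevel hm ψ) =
      tG q (DirichletCharacter.changeLevel hm ψ) (q / m) *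
        ∑ h ∈ (Ico 1 m).filter (fun h => Nat.Coprime h m),
          FourInt_c q M N (q / m * h) * ψ⁻¹ h := by
  unfold FourInt_B
  rw [Finset.mul_sum]
  refine Finset.sum_congr rfl fun h hh => ?_
  rw [Finset.mem_filter] at hh
  have h1 := gauss_twist q m hm ψ h hh.2
  have h2 : ψ (h : ZMod m) ≠ 0 := by
    have hu : IsUnit (h : ZMod m) := (ZMod.isUnit_iff_coprime h m).mpr hh.2
    exact (hu.map ψ).ne_zero
  rw [MulChar.inv_apply_eq_inv', ← h1]
  field_simp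

private theorem FourInt_B_sum (q : ℕ) [NeZero q] (M N m : ℕ) [NeZero m] (hm : m ∣ q) :
    ∑ χ : DirichletCharacter ℂ q, ‖FourInt_B q M N m χ‖ ^ 4 =
      ∑ ψ : DirichletCharacter ℂ m,
        ‖FourInt_B q M N m (DirichletCharacter.changeLevel hm ψ)‖ ^ 4 := by
  classical
  rw [← Finset.sum_image (s := (univ : Finset (DirichletCharacter ℂ m)))
    (g := fun ψ => DirichletCharacter.changeLevel hm ψ)
    (f := fun χ : DirichletCharacter ℂ q => ‖FourInt_B q M N m χ‖ ^ 4)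
    (fun a _ b _ hab => DirichletCharacter.changeLevel_injective hm hab)]
  symm
  refine Finset.sum_subset (Finset.subset_univ _) fun χ _ hχ => ?_
  rw [FourInt_B_supp q M N m hm χ, norm_zero]
  · norm_num
  · rintro hf
    apply hχ
    obtain ⟨_, ψ, hψ⟩ := hf
    rw [Finset.mem_image]
    exact ⟨ψ, mem_univ _, hψ.symm⟩


private theorem FourInt_hoelder (s : Finset ℕ) (x : ℕ → ℂ) :
    ‖∑ k ∈ s, x k‖ ^ 4 ≤ (s.card : ℝ) ^ 3 * ∑ k ∈ s, ‖x k‖ ^ 4 := by
  have h1 : ‖∑ k ∈ s, x k‖ ^ 4 ≤ (∑ k ∈ s, ‖x k‖) ^ 4 :=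
    pow_le_pow_left₀ (norm_nonneg _) (norm_sum_le _ _) 4
  refine h1.trans ?_
  have h2 := sq_sum_le_card_mul_sum_sq (s := s) (f := fun k => ‖x k‖)
  have h3 := sq_sum_le_card_mul_sum_sq (s := s) (f := fun k => ‖x k‖ ^ 2)
  have h5 : ∑ k ∈ s, (‖x k‖ ^ 2) ^ 2 = ∑ k ∈ s, ‖x k‖ ^ 4 :=
    Finset.sum_congr rfl fun k _ => by ring
  rw [h5] at h3
  calc (∑ k ∈ s, ‖x k‖) ^ 4 = ((∑ k ∈ s, ‖x k‖) ^ 2) ^ 2 := by ring
    _ ≤ ((s.card : ℝ) * ∑ k ∈ s, ‖x k‖ ^ 2) ^ 2 := pow_le_pow_left₀ (by positivity) h2 2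
    _ = (s.card : ℝ) ^ 2 * (∑ k ∈ s, ‖x k‖ ^ 2) ^ 2 := by ring
    _ ≤ (s.card : ℝ) ^ 2 * ((s.card : ℝ) * ∑ k ∈ s, ‖x k‖ ^ 4) :=
        mul_le_mul_of_nonneg_left h3 (by positivity)
    _ = _ := by ring

/-- the fourth moment of the part with `gcd(h, q) = q / m`, in terms of the moments mod `m` -/
private theorem FourInt_B_le (q : ℕ) [NeZero q] (M N m : ℕ) [NeZero m] (hm : m ∣ q) :
    (∑ χ : DirichletCharacter ℂ q, ‖FourInt_B q M N m χ‖ ^ 4) * (Nat.totient m : ℝ) ^ 2 ≤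
      ((q : ℝ) * (Nat.totient q : ℝ)) ^ 2 * ∑ ψ : DirichletCharacter ℂ m,
        ‖∑ h ∈ (Ico 1 m).filter (fun h => Nat.Coprime h m),
          FourInt_c q M N (q / m * h) * ψ h‖ ^ 4 := by
  rw [FourInt_B_sum q M N m hm]
  have h1 : ∑ ψ : DirichletCharacter ℂ m,
        ‖∑ h ∈ (Ico 1 m).filter (fun h => Nat.Coprime h m),
          FourInt_c q M N (q / m * h) * ψ h‖ ^ 4 =
      ∑ ψ : DirichletCharacter ℂ m,
        ‖∑ h ∈ (Ico 1 m).filter (fun h => Nat.Coprime h m),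
          FourInt_c q M N (q / m * h) * ψ⁻¹ h‖ ^ 4 :=
    (Equiv.sum_comp (Equiv.inv (DirichletCharacter ℂ m)) _).symm
  rw [h1, Finset.sum_mul, Finset.mul_sum]
  refine Finset.sum_le_sum fun ψ _ => ?_
  rw [FourInt_B_eq q M N m hm ψ, norm_mul, mul_pow]
  have h2 := gauss_norm q (DirichletCharacter.changeLevel hm ψ) m hm 1 (Nat.coprime_one_left m)
  rw [mul_one] at h2
  set T := ‖tG q (DirichletCharacter.changeLevel hm ψ) (q / m)‖
  set S := ‖∑ h ∈ (Ico 1 m).filter (fun h => Nat.Coprime h m),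
          FourInt_c q M N (q / m * h) * ψ⁻¹ h‖
  have hT : 0 ≤ T := norm_nonneg _
  calc T ^ 4 * S ^ 4 * (Nat.totient m : ℝ) ^ 2 = (T ^ 2 * (Nat.totient m : ℝ)) ^ 2 * S ^ 4 := by
        ring
    _ ≤ _ := by
        refine mul_le_mul_of_nonneg_right ?_ (by positivity)
        exact pow_le_pow_left₀ (by positivity) h2 2

/-- the moments mod `m` -/
private theorem FourInt_mod (C0 : ℕ) (hC0 : ∀ (m : ℕ) [NeZero m] (M : ℕ) (d : ℕ → ℂ) (U W : ℝ),
      1 ≤ M → 0 ≤ U → 0 ≤ W → (∀ h : ℕ, 1 ≤ h → h ≤ M → ‖d h‖ ≤ W ∧ ‖d h‖ * h ≤ U) →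
      ∑ ψ : DirichletCharacter ℂ m, ‖∑ h ∈ Icc 1 M, d h * ψ h‖ ^ 4 ≤
        C0 * (U ^ 4 + m * U ^ 2 * W ^ 2) * (1 + Real.log M) ^ C0)
    (q : ℕ) [NeZero q] (M N m : ℕ) [NeZero m] (hm : m ∣ q) (hm2 : 2 ≤ m) :
    ∑ ψ : DirichletCharacter ℂ m,
        ‖∑ h ∈ (Ico 1 m).filter (fun h => Nat.Coprime h m),
          FourInt_c q M N (q / m * h) * ψ h‖ ^ 4 ≤
      16 * (C0 * (((m : ℝ) / (2 * q)) ^ 4 + m * ((m : ℝ) / (2 * q)) ^ 2 * ((N : ℝ) / q) ^ 2) *
        (1 + Real.log q) ^ C0) := by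
  have hq0 : (0 : ℝ) < q := Nat.cast_pos.mpr (NeZero.pos q)
  have hm0 : (0 : ℝ) < m := by
    have : 0 < m := by omega
    exact_mod_cast this
  have hqm : ((q / m : ℕ) : ℝ) = q / m := Nat.cast_div hm hm0.ne'
  have hk : q / m * m = q := Nat.div_mul_cancel hm
  have hk0 : 0 < q / m := Nat.div_pos (Nat.le_of_dvd (NeZero.pos q) hm) (by omega)
  have hlog : (1 + Real.log ((m / 2 : ℕ) : ℝ)) ^ C0 ≤ (1 + Real.log q) ^ C0 := by
    have h1 : 1 ≤ m / 2 := by omega
    have h2 : (1 : ℝ) ≤ ((m / 2 : ℕ) : ℝ) := by exact_mod_cast h1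
    have h3 : ((m / 2 : ℕ) : ℝ) ≤ q := by
      have : m / 2 ≤ q := (Nat.div_le_self m 2).trans (Nat.le_of_dvd (NeZero.pos q) hm)
      exact_mod_cast this
    have h4 : 0 ≤ Real.log ((m / 2 : ℕ) : ℝ) := Real.log_nonneg h2
    refine pow_le_pow_left₀ (by linarith) ?_ C0
    have := Real.log_le_log (by linarith) h3
    linarith
  have hfar : ∀ h : ℕ, 1 ≤ h → ∀ j : ℕ, ‖FourInt_c q M N j‖ * ((q / m * h : ℕ) : ℝ) ≤ 1 / 2 →
      ‖FourInt_c q M N j‖ * h ≤ (m : ℝ) / (2 * q) := by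
    intro h _ j hj
    push_cast at hj
    rw [hqm] at hj
    rw [le_div_iff₀ (by positivity)]
    have h5 : ‖FourInt_c q M N j‖ * h * (2 * q) =
        ‖FourInt_c q M N j‖ * ((q : ℝ) / m * h) * (2 * m) := by
      field_simp
    rw [h5]
    calc _ ≤ 1 / 2 * (2 * (m : ℝ)) := mul_le_mul_of_nonneg_right hj (by positivity)
      _ = m := by ring
  have hA := hC0 m (m / 2) (fun h => FourInt_c q M N (q / m * h)) ((m : ℝ) / (2 * q))
    ((N : ℝ) / q) (by omega) (by positivity) (by positivity) (by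
      intro h h1 h2
      refine ⟨FourInt_c_norm q M N _, hfar h h1 _ ?_⟩
      have h3 : q / m * h + q / m * h ≤ q := by
        calc q / m * h + q / m * h = q / m * (2 * h) := by ring
          _ ≤ q / m * m := Nat.mul_le_mul_left _ (by omega)
          _ = q := hk
      have h4 : 1 ≤ q / m * h := Nat.mul_pos hk0 (by omega)
      exact FourInt_c_far q M N _ _ h4 le_rfl (by omega) (by omega))
  have hB := hC0 m (m / 2) (fun h => if 2 * h < m then FourInt_c q M N (q / m * (m - h)) else 0)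
    ((m : ℝ) / (2 * q)) ((N : ℝ) / q) (by omega) (by positivity) (by positivity) (by
      intro h h1 h2
      split_ifs with hh
      · refine ⟨FourInt_c_norm q M N _, hfar h h1 _ ?_⟩
        have h3 : q / m * h + q / m * h ≤ q := by
          calc q / m * h + q / m * h = q / m * (2 * h) := by ring
            _ ≤ q / m * m := Nat.mul_le_mul_left _ (by omega)
            _ = q := hk
        have h4 : 1 ≤ q / m * h := Nat.mul_pos hk0 (by omega)
        have h5 : q / m * (m - h) = q - q / m * h := by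
          rw [Nat.mul_sub, hk]
        exact FourInt_c_far q M N _ _ h4 (by omega) (by omega) (by omega)
      · rw [norm_zero]
        exact ⟨by positivity, by simp only [zero_mul]; positivity⟩)
  have hR : 0 ≤ C0 * (((m : ℝ) / (2 * q)) ^ 4 + m * ((m : ℝ) / (2 * q)) ^ 2 *
      ((N : ℝ) / q) ^ 2) := by positivity
  have hA' := hA.trans (mul_le_mul_of_nonneg_left hlog hR)
  have hB' := hB.trans (mul_le_mul_of_nonneg_left hlog hR)
  calc _ ≤ ∑ ψ : DirichletCharacter ℂ m,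
        8 * (‖∑ h ∈ Icc 1 (m / 2), FourInt_c q M N (q / m * h) * ψ h‖ ^ 4 +
        ‖∑ h ∈ Icc 1 (m / 2),
          (if 2 * h < m then FourInt_c q M N (q / m * (m - h)) else 0) * ψ h‖ ^ 4) :=
        Finset.sum_le_sum fun ψ _ => FourInt_psi m (fun h => FourInt_c q M N (q / m * h)) ψ
    _ = 8 * (∑ ψ : DirichletCharacter ℂ m,
          ‖∑ h ∈ Icc 1 (m / 2), FourInt_c q M N (q / m * h) * ψ h‖ ^ 4 +
        ∑ ψ : DirichletCharacter ℂ m, ‖∑ h ∈ Icc 1 (m / 2),
          (if 2 * h < m then FourInt_c q M N (q / m * (m - h)) else 0) * ψ h‖ ^ 4) := by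
        rw [← Finset.mul_sum, Finset.sum_add_distrib]
    _ ≤ _ := by linarith

theorem four_int : ∃ C : ℕ, ∀ (q : ℕ) [NeZero q] (M N : ℕ),
    ∑ χ ∈ univ.filter (fun χ : DirichletCharacter ℂ q => χ ≠ 1),
      ‖∑ n ∈ Ioc M (M + N), (χ n : ℂ)‖ ^ 4 ≤
      C * (q.divisors.card : ℝ) ^ 4 * (1 + Real.log q) ^ C *
        ((q : ℝ) ^ 2 + q * (N : ℝ) ^ 2) := by
  classical
  obtain ⟨C0, hC0⟩ := four_w
  refine ⟨16 * C0 + 2, ?_⟩
  intro q _ M N
  have hq0 : (0 : ℝ) < q := Nat.cast_pos.mpr (NeZero.pos q)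
  have hq1 : (1 : ℝ) ≤ q := by exact_mod_cast NeZero.pos q
  have hlog0 : 0 ≤ Real.log q := Real.log_nonneg hq1
  have hL : (1 : ℝ) ≤ 1 + Real.log q := by linarith
  set L : ℝ := 1 + Real.log q with hLdef
  set τ : ℝ := (q.divisors.card : ℝ) with hτ
  have hτ0 : 0 ≤ τ := Nat.cast_nonneg _
  -- the bound for a single `m`
  have hone : ∀ m ∈ q.divisors, ∑ χ : DirichletCharacter ℂ q, ‖FourInt_B q M N m χ‖ ^ 4 ≤
      16 * C0 * L ^ (C0 + 2) * ((q : ℝ) ^ 2 + q * (N : ℝ) ^ 2) := by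
    intro m hmd
    rw [Nat.mem_divisors] at hmd
    have hm := hmd.1
    have hmpos : 0 < m := Nat.pos_of_dvd_of_pos hm (NeZero.pos q)
    rcases Nat.lt_or_ge m 2 with hm2 | hm2
    · have h1 : m = 1 := by omega
      have h2 : ∀ χ : DirichletCharacter ℂ q, FourInt_B q M N m χ = 0 := by
        intro χ
        unfold FourInt_B
        rw [h1]
        simp
      have h3 : ∑ χ : DirichletCharacter ℂ q, ‖FourInt_B q M N m χ‖ ^ 4 = 0 := by
        refine Finset.sum_eq_zero fun χ _ => ?_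
        rw [h2 χ, norm_zero]
        norm_num
      rw [h3]
      positivity
    · have : NeZero m := ⟨by omega⟩
      have hm0 : (0 : ℝ) < m := by exact_mod_cast hmpos
      have hm1 : (1 : ℝ) ≤ m := by exact_mod_cast hmpos
      have hmq : (m : ℝ) ≤ q := by exact_mod_cast Nat.le_of_dvd (NeZero.pos q) hm
      have hphi : (0 : ℝ) < (Nat.totient m : ℝ) := by
        exact_mod_cast Nat.totient_pos.mpr hmpos
      have h1 := FourInt_B_le q M N m hm
      have h2 := FourInt_mod C0 hC0 q M N m hm hm2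
      have h3 : (Nat.totient q : ℝ) ≤ q := by exact_mod_cast Nat.totient_le q
      have h4 := totient_lower m hmpos
      have h5 : (2 + 2 * Real.log m) ≤ 2 * L := by
        have := Real.log_le_log hm0 hmq
        rw [hLdef]
        linarith
      have h6 : (m : ℝ) ≤ (Nat.totient m : ℝ) * (2 * L) :=
        h4.trans (mul_le_mul_of_nonneg_left h5 hphi.le)
      have h7 : (m : ℝ) ^ 2 ≤ (Nat.totient m : ℝ) ^ 2 * (4 * L ^ 2) := by
        calc (m : ℝ) ^ 2 ≤ ((Nat.totient m : ℝ) * (2 * L)) ^ 2 :=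
              pow_le_pow_left₀ hm0.le h6 2
          _ = _ := by ring
      have h8 : ((q : ℝ) * (Nat.totient q : ℝ)) ^ 2 ≤ (q : ℝ) ^ 4 := by
        calc ((q : ℝ) * (Nat.totient q : ℝ)) ^ 2 ≤ ((q : ℝ) * q) ^ 2 :=
              pow_le_pow_left₀ (by positivity) (mul_le_mul_of_nonneg_left h3 hq0.le) 2
          _ = _ := by ring
      refine le_of_mul_le_mul_right (h1.trans ?_) (pow_pos hphi 2)
      calc ((q : ℝ) * (Nat.totient q : ℝ)) ^ 2 * ∑ ψ : DirichletCharacter ℂ m,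
            ‖∑ h ∈ (Ico 1 m).filter (fun h => Nat.Coprime h m),
              FourInt_c q M N (q / m * h) * ψ h‖ ^ 4
          ≤ (q : ℝ) ^ 4 * (16 * (C0 * (((m : ℝ) / (2 * q)) ^ 4 +
              m * ((m : ℝ) / (2 * q)) ^ 2 * ((N : ℝ) / q) ^ 2) * L ^ C0)) := by
            refine mul_le_mul h8 h2 ?_ (by positivity)
            exact Finset.sum_nonneg fun _ _ => by positivity
        _ = C0 * L ^ C0 * (m : ℝ) ^ 2 * ((m : ℝ) ^ 2 + 4 * (m * (N : ℝ) ^ 2)) := by
            field_simp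
            ring
        _ ≤ C0 * L ^ C0 * ((Nat.totient m : ℝ) ^ 2 * (4 * L ^ 2)) *
              (4 * ((q : ℝ) ^ 2 + q * (N : ℝ) ^ 2)) := by
            refine mul_le_mul (mul_le_mul_of_nonneg_left h7 (by positivity)) ?_
              (by positivity) (by positivity)
            have e1 : (m : ℝ) ^ 2 ≤ (q : ℝ) ^ 2 := pow_le_pow_left₀ hm0.le hmq 2
            have e2 : (m : ℝ) * (N : ℝ) ^ 2 ≤ q * (N : ℝ) ^ 2 :=
              mul_le_mul_of_nonneg_right hmq (by positivity)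
            have e3 : (0 : ℝ) ≤ (q : ℝ) ^ 2 := by positivity
            linarith
        _ = _ := by ring
  have hexp : ∀ χ ∈ univ.filter (fun χ : DirichletCharacter ℂ q => χ ≠ 1),
      ‖∑ n ∈ Ioc M (M + N), (χ n : ℂ)‖ ^ 4 ≤
        τ ^ 3 * ∑ m ∈ q.divisors, ‖FourInt_B q M N m χ‖ ^ 4 := by
    intro χ hχ
    rw [Finset.mem_filter] at hχ
    rw [FourInt_expand q χ M N hχ.2, FourInt_regroup q (NeZero.pos q)]
    exact FourInt_hoelder q.divisors (fun m => FourInt_B q M N m χ)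
  have hX : 0 ≤ (q : ℝ) ^ 2 + q * (N : ℝ) ^ 2 := by positivity
  calc ∑ χ ∈ univ.filter (fun χ : DirichletCharacter ℂ q => χ ≠ 1),
      ‖∑ n ∈ Ioc M (M + N), (χ n : ℂ)‖ ^ 4
      ≤ ∑ χ ∈ univ.filter (fun χ : DirichletCharacter ℂ q => χ ≠ 1),
        τ ^ 3 * ∑ m ∈ q.divisors, ‖FourInt_B q M N m χ‖ ^ 4 := Finset.sum_le_sum hexp
    _ ≤ ∑ χ : DirichletCharacter ℂ q,
        τ ^ 3 * ∑ m ∈ q.divisors, ‖FourInt_B q M N m χ‖ ^ 4 := by
        refine Finset.sum_le_sum_of_subset_of_nonneg (Finset.filter_subset _ _) ?_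
        intro χ _ _
        exact mul_nonneg (by positivity) (Finset.sum_nonneg fun _ _ => by positivity)
    _ = τ ^ 3 * ∑ m ∈ q.divisors, ∑ χ : DirichletCharacter ℂ q, ‖FourInt_B q M N m χ‖ ^ 4 := by
        rw [← Finset.mul_sum, Finset.sum_comm]
    _ ≤ τ ^ 3 * ∑ m ∈ q.divisors, 16 * C0 * L ^ (C0 + 2) * ((q : ℝ) ^ 2 + q * (N : ℝ) ^ 2) :=
        mul_le_mul_of_nonneg_left (Finset.sum_le_sum hone) (by positivity)
    _ = (16 * C0) * τ ^ 4 * L ^ (C0 + 2) * ((q : ℝ) ^ 2 + q * (N : ℝ) ^ 2) := by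
        rw [Finset.sum_const, nsmul_eq_mul]
        ring
    _ ≤ ((16 * C0 + 2 : ℕ) : ℝ) * τ ^ 4 * L ^ (16 * C0 + 2) *
          ((q : ℝ) ^ 2 + q * (N : ℝ) ^ 2) := by
        refine mul_le_mul_of_nonneg_right ?_ hX
        refine mul_le_mul (mul_le_mul_of_nonneg_right ?_ (by positivity))
          (pow_le_pow_right₀ hL (by omega)) (by positivity) (by positivity)
        push_cast
        linarith

end Pool.MP_dd84fd_nt.T7
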