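import Pool.Agent.Lib.MP_dd84fd_nt.T7.Defs
import Pool.Agent.Lib.MP_dd84fd_nt.L2G.CharOrth
import Pool.Agent.Lib.MP_dd84fd_nt.L2G.DivMom

/-!
T7-01 FourMod. four_block: (sum_h d_h psi(h))^2 = sum_{n < 4H^2} d2(n) psi(n), |d2(n)| <= D^2 tau(n); char_ms (L2G/CharOrth, M = 0, N = 4H^2): the left side is
<= (4H^2+m) D^4 sum_{n <= 4H^2} tau(n)^2, div_mom 2 (L2G/DivMom).
four_w: extend d by 0 beyond M, cover [1,M] by the dyadic blocks [2^k, 2^(k+1)), 2^k <= M (k < K, K <= 1+2 log M); Hoelder (sum_{k<K} x_k)^4 <= K^3 sum x_k^4;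
on the block use D = min(W, U/2^k): D^4 (H^4 + m H^2) <= U^4 + m U^2 W^2 (H = 2^k: D H <= U, D <= W).
(C is a natural number that serves as constant and as exponent.)
-/

set_option autoImplicit false

namespace Pool.MP_dd84fd_nt.T7

open Finset Pool.MP_67663b_nt.Odd Pool.MP_dd84fd_nt.L2G

private theorem FourMod_sq (m : ℕ) [NeZero m] (H : ℕ) (d : ℕ → ℂ) (hH : 1 ≤ H)
    (ψ : DirichletCharacter ℂ m) :
    (∑ h ∈ Ico H (2 * H), d h * ψ h) ^ 2 =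
      ∑ n ∈ Ioc 0 (0 + 4 * H ^ 2),
        (∑ p ∈ ((Ico H (2 * H)) ×ˢ (Ico H (2 * H))).filter (fun p : ℕ × ℕ => p.1 * p.2 = n),
          d p.1 * d p.2) * ψ n := by
  classical
  rw [sq, Finset.sum_mul_sum, ← Finset.sum_product']
  rw [← Finset.sum_fiberwise_of_maps_to (s := (Ico H (2 * H)) ×ˢ (Ico H (2 * H)))
    (t := Ioc 0 (0 + 4 * H ^ 2)) (g := fun p : ℕ × ℕ => p.1 * p.2)]
  · refine Finset.sum_congr rfl fun n _ => ?_
    rw [Finset.sum_mul]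
    refine Finset.sum_congr rfl fun p hp => ?_
    have h1 : p.1 * p.2 = n := (Finset.mem_filter.mp hp).2
    rw [← h1]
    push_cast
    rw [map_mul]
    ring
  · intro p hp
    rw [Finset.mem_product, Finset.mem_Ico, Finset.mem_Ico] at hp
    obtain ⟨⟨h1, h2⟩, h3, h4⟩ := hp
    rw [Finset.mem_Ioc]
    refine ⟨Nat.mul_pos (by omega) (by omega), ?_⟩
    calc p.1 * p.2 ≤ (2 * H) * (2 * H) := Nat.mul_le_mul h2.le h4.le
      _ = 0 + 4 * H ^ 2 := by ring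

private theorem FourMod_coef (H : ℕ) (d : ℕ → ℂ) (D : ℝ) (hH : 1 ≤ H) (hD : 0 ≤ D)
    (hd : ∀ h ∈ Ico H (2 * H), ‖d h‖ ≤ D) (n : ℕ) (hn : 1 ≤ n) :
    ‖∑ p ∈ ((Ico H (2 * H)) ×ˢ (Ico H (2 * H))).filter (fun p : ℕ × ℕ => p.1 * p.2 = n),
          d p.1 * d p.2‖ ≤ D ^ 2 * (n.divisors.card : ℝ) := by
  classical
  have h1 : (((Ico H (2 * H)) ×ˢ (Ico H (2 * H))).filter (fun p : ℕ × ℕ => p.1 * p.2 = n)).card
      ≤ n.divisors.card := by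
    refine Finset.card_le_card_of_injOn Prod.fst ?_ ?_
    · intro p hp
      rw [Finset.mem_coe, Finset.mem_filter] at hp
      rw [Finset.mem_coe, Nat.mem_divisors]
      exact ⟨Dvd.intro _ hp.2, by omega⟩
    · rintro ⟨a, b⟩ hp ⟨a', b'⟩ hp' hab
      rw [Finset.mem_coe, Finset.mem_filter] at hp hp'
      simp only at hab
      subst hab
      have h3 : a * b = n := hp.2
      have h4 : a * b' = n := hp'.2
      have ha : 0 < a := by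
        rcases Nat.eq_zero_or_pos a with h0 | h0
        · rw [h0, zero_mul] at h3
          omega
        · exact h0
      have h5 : b = b' := Nat.eq_of_mul_eq_mul_left ha (h3.trans h4.symm)
      rw [h5]
  have h2 : ∀ p ∈ ((Ico H (2 * H)) ×ˢ (Ico H (2 * H))).filter (fun p : ℕ × ℕ => p.1 * p.2 = n),
      ‖d p.1 * d p.2‖ ≤ D ^ 2 := by
    intro p hp
    rw [Finset.mem_filter, Finset.mem_product] at hp
    rw [norm_mul, sq]
    exact mul_le_mul (hd _ hp.1.1) (hd _ hp.1.2) (norm_nonneg _) hD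
  calc _ ≤ ∑ p ∈ ((Ico H (2 * H)) ×ˢ (Ico H (2 * H))).filter (fun p : ℕ × ℕ => p.1 * p.2 = n),
          ‖d p.1 * d p.2‖ := norm_sum_le _ _
    _ ≤ ∑ p ∈ ((Ico H (2 * H)) ×ˢ (Ico H (2 * H))).filter (fun p : ℕ × ℕ => p.1 * p.2 = n),
          D ^ 2 := Finset.sum_le_sum h2
    _ = ((((Ico H (2 * H)) ×ˢ (Ico H (2 * H))).filter
          (fun p : ℕ × ℕ => p.1 * p.2 = n)).card : ℝ) * D ^ 2 := by
        rw [Finset.sum_const, nsmul_eq_mul]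
    _ ≤ (n.divisors.card : ℝ) * D ^ 2 :=
        mul_le_mul_of_nonneg_right (by exact_mod_cast h1) (by positivity)
    _ = _ := by ring

theorem four_block : ∃ C : ℕ, ∀ (m : ℕ) [NeZero m] (H : ℕ) (d : ℕ → ℂ) (D : ℝ), 1 ≤ H → 0 ≤ D →
    (∀ h ∈ Ico H (2 * H), ‖d h‖ ≤ D) →
    ∑ ψ : DirichletCharacter ℂ m, ‖∑ h ∈ Ico H (2 * H), d h * ψ h‖ ^ 4 ≤
      C * D ^ 4 * ((H : ℝ) ^ 4 + m * (H : ℝ) ^ 2) * (1 + Real.log H) ^ C := by
  classical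
  obtain ⟨C0, hC0⟩ := div_mom 2
  refine ⟨16 * 3 ^ C0, ?_⟩
  intro m _ H d D hH hD hd
  have hH1 : (1 : ℝ) ≤ H := by exact_mod_cast hH
  have hlog : 0 ≤ Real.log H := Real.log_nonneg hH1
  have h1 : ∀ ψ : DirichletCharacter ℂ m, ‖∑ h ∈ Ico H (2 * H), d h * ψ h‖ ^ 4 =
      ‖∑ n ∈ Ioc 0 (0 + 4 * H ^ 2),
        (∑ p ∈ ((Ico H (2 * H)) ×ˢ (Ico H (2 * H))).filter (fun p : ℕ × ℕ => p.1 * p.2 = n),
          d p.1 * d p.2) * ψ n‖ ^ 2 := by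
    intro ψ
    rw [← FourMod_sq m H d hH ψ, norm_pow, ← pow_mul]
  rw [Finset.sum_congr rfl (fun ψ _ => h1 ψ)]
  refine (char_ms m 0 (4 * H ^ 2) _).trans ?_
  have hN : 1 ≤ 4 * H ^ 2 := by
    have : 1 ≤ H ^ 2 := Nat.one_le_pow _ _ hH
    omega
  have h2 : ∑ n ∈ Ioc 0 (0 + 4 * H ^ 2),
      ‖∑ p ∈ ((Ico H (2 * H)) ×ˢ (Ico H (2 * H))).filter (fun p : ℕ × ℕ => p.1 * p.2 = n),
          d p.1 * d p.2‖ ^ 2 ≤
      D ^ 4 * ∑ n ∈ Icc 1 (4 * H ^ 2), (n.divisors.card : ℝ) ^ 2 := by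
    have h3 : Ioc 0 (0 + 4 * H ^ 2) = Icc 1 (4 * H ^ 2) := by
      ext n
      simp only [Finset.mem_Ioc, Finset.mem_Icc, zero_add]
      omega
    rw [h3, Finset.mul_sum]
    refine Finset.sum_le_sum fun n hn => ?_
    rw [Finset.mem_Icc] at hn
    have h4 := FourMod_coef H d D hH hD hd n hn.1
    calc _ ≤ (D ^ 2 * (n.divisors.card : ℝ)) ^ 2 := pow_le_pow_left₀ (norm_nonneg _) h4 2
      _ = _ := by ring
  have h5 := (hC0 (4 * H ^ 2) hN).1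
  have h6 : (1 + Real.log ((4 * H ^ 2 : ℕ) : ℝ)) ≤ 3 * (1 + Real.log H) := by
    push_cast
    rw [Real.log_mul (by norm_num) (by positivity), Real.log_pow]
    have h7 : Real.log 4 = 2 * Real.log 2 := by
      rw [show (4 : ℝ) = 2 ^ 2 by norm_num, Real.log_pow]
      norm_num
    rw [h7]
    have h8 := Real.log_two_lt_d9
    push_cast
    nlinarith
  have h6' : 0 ≤ 1 + Real.log ((4 * H ^ 2 : ℕ) : ℝ) := by
    have : 0 ≤ Real.log ((4 * H ^ 2 : ℕ) : ℝ) := Real.log_nonneg (by exact_mod_cast hN)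
    linarith
  have h9 : (1 + Real.log ((4 * H ^ 2 : ℕ) : ℝ)) ^ C0 ≤ 3 ^ C0 * (1 + Real.log H) ^ C0 := by
    rw [← mul_pow]
    exact pow_le_pow_left₀ h6' h6 C0
  have hexp : C0 ≤ 16 * 3 ^ C0 := by
    have h10 : C0 < 3 ^ C0 := Nat.lt_pow_self (by norm_num)
    omega
  have h11 : (1 + Real.log H) ^ C0 ≤ (1 + Real.log H) ^ (16 * 3 ^ C0) :=
    pow_le_pow_right₀ (by linarith) hexp
  have hmm : (0 : ℝ) ≤ m := Nat.cast_nonneg m
  calc (((4 * H ^ 2 : ℕ) : ℝ) + m) * ∑ n ∈ Ioc 0 (0 + 4 * H ^ 2),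
      ‖∑ p ∈ ((Ico H (2 * H)) ×ˢ (Ico H (2 * H))).filter (fun p : ℕ × ℕ => p.1 * p.2 = n),
          d p.1 * d p.2‖ ^ 2 ≤
      (((4 * H ^ 2 : ℕ) : ℝ) + m) * (D ^ 4 *
        (((4 * H ^ 2 : ℕ) : ℝ) * (3 ^ C0 * (1 + Real.log H) ^ (16 * 3 ^ C0)))) := by
        refine mul_le_mul_of_nonneg_left (h2.trans ?_) (by positivity)
        refine mul_le_mul_of_nonneg_left (h5.trans ?_) (by positivity)
        refine mul_le_mul_of_nonneg_left (h9.trans ?_) (by positivity)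
        exact mul_le_mul_of_nonneg_left h11 (by positivity)
    _ = (16 * (H : ℝ) ^ 4 + 4 * (m * (H : ℝ) ^ 2)) * (3 ^ C0 * D ^ 4 *
          (1 + Real.log H) ^ (16 * 3 ^ C0)) := by
        push_cast
        ring
    _ ≤ (16 * ((H : ℝ) ^ 4 + m * (H : ℝ) ^ 2)) * (3 ^ C0 * D ^ 4 *
          (1 + Real.log H) ^ (16 * 3 ^ C0)) := by
        refine mul_le_mul_of_nonneg_right ?_ (by positivity)
        have : 0 ≤ (m : ℝ) * (H : ℝ) ^ 2 := by positivity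
        linarith
    _ = _ := by
        push_cast
        ring

private theorem FourMod_cover (M : ℕ) (hM : 1 ≤ M) (f : ℕ → ℂ) :
    ∑ h ∈ Icc 1 M, f h =
      ∑ k ∈ range (Nat.log 2 M + 1), ∑ h ∈ Ico (2 ^ k) (2 * 2 ^ k), if h ≤ M then f h else 0 := by
  classical
  have h1 : ∀ K : ℕ, ∑ k ∈ range K, ∑ h ∈ Ico (2 ^ k) (2 * 2 ^ k), (if h ≤ M then f h else 0) =
      ∑ h ∈ Ico 1 (2 ^ K), if h ≤ M then f h else 0 := by
    intro K
    induction K with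
    | zero => simp
    | succ K ih =>
      rw [Finset.sum_range_succ, ih, pow_succ, mul_comm (2 ^ K) 2]
      exact Finset.sum_Ico_consecutive _ (Nat.one_le_two_pow) (by omega)
  rw [h1, ← Finset.sum_filter]
  refine Finset.sum_congr ?_ fun _ _ => rfl
  ext h
  rw [Finset.mem_filter, Finset.mem_Icc, Finset.mem_Ico]
  have h2 : M < 2 ^ (Nat.log 2 M + 1) := Nat.lt_pow_succ_log_self (by norm_num) M
  constructor
  · rintro ⟨h3, h4⟩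
    exact ⟨⟨h3, lt_of_le_of_lt h4 h2⟩, h4⟩
  · rintro ⟨⟨h3, _⟩, h4⟩
    exact ⟨h3, h4⟩

private theorem FourMod_K (M : ℕ) (hM : 1 ≤ M) :
    ((Nat.log 2 M + 1 : ℕ) : ℝ) ≤ 2 * (1 + Real.log M) := by
  have h1 : 2 ^ Nat.log 2 M ≤ M := Nat.pow_log_le_self 2 (by omega)
  have h2 : ((2 : ℝ) ^ Nat.log 2 M) ≤ M := by exact_mod_cast h1
  have h3 : (Nat.log 2 M : ℝ) * Real.log 2 ≤ Real.log M := by
    rw [← Real.log_pow]
    exact Real.log_le_log (by positivity) h2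
  have h4 := Real.log_two_gt_d9
  have h5 : (0 : ℝ) ≤ (Nat.log 2 M : ℝ) := Nat.cast_nonneg _
  have h6 : (Nat.log 2 M : ℝ) * (1 / 2) ≤ (Nat.log 2 M : ℝ) * Real.log 2 :=
    mul_le_mul_of_nonneg_left (by linarith) h5
  push_cast
  linarith

private theorem FourMod_hoelder (K : ℕ) (x : ℕ → ℂ) :
    ‖∑ k ∈ range K, x k‖ ^ 4 ≤ (K : ℝ) ^ 3 * ∑ k ∈ range K, ‖x k‖ ^ 4 := by
  have h1 : ‖∑ k ∈ range K, x k‖ ^ 4 ≤ (∑ k ∈ range K, ‖x k‖) ^ 4 :=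
    pow_le_pow_left₀ (norm_nonneg _) (norm_sum_le _ _) 4
  refine h1.trans ?_
  have h2 := sq_sum_le_card_mul_sum_sq (s := range K) (f := fun k => ‖x k‖)
  have h3 := sq_sum_le_card_mul_sum_sq (s := range K) (f := fun k => ‖x k‖ ^ 2)
  rw [Finset.card_range] at h2 h3
  have h4 : (0 : ℝ) ≤ (∑ k ∈ range K, ‖x k‖) ^ 2 := by positivity
  have h5 : ∑ k ∈ range K, (‖x k‖ ^ 2) ^ 2 = ∑ k ∈ range K, ‖x k‖ ^ 4 :=
    Finset.sum_congr rfl fun k _ => by ring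
  rw [h5] at h3
  calc (∑ k ∈ range K, ‖x k‖) ^ 4 = ((∑ k ∈ range K, ‖x k‖) ^ 2) ^ 2 := by ring
    _ ≤ ((K : ℝ) * ∑ k ∈ range K, ‖x k‖ ^ 2) ^ 2 := pow_le_pow_left₀ h4 h2 2
    _ = (K : ℝ) ^ 2 * (∑ k ∈ range K, ‖x k‖ ^ 2) ^ 2 := by ring
    _ ≤ (K : ℝ) ^ 2 * ((K : ℝ) * ∑ k ∈ range K, ‖x k‖ ^ 4) :=
        mul_le_mul_of_nonneg_left h3 (by positivity)
    _ = _ := by ring

theorem four_w : ∃ C : ℕ, ∀ (m : ℕ) [NeZero m] (M : ℕ) (d : ℕ → ℂ) (U W : ℝ), 1 ≤ M → 0 ≤ U →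
    0 ≤ W → (∀ h : ℕ, 1 ≤ h → h ≤ M → ‖d h‖ ≤ W ∧ ‖d h‖ * h ≤ U) →
    ∑ ψ : DirichletCharacter ℂ m, ‖∑ h ∈ Icc 1 M, d h * ψ h‖ ^ 4 ≤
      C * (U ^ 4 + m * U ^ 2 * W ^ 2) * (1 + Real.log M) ^ C := by
  classical
  obtain ⟨C0, hC0⟩ := four_block
  refine ⟨16 * C0 + 4, ?_⟩
  intro m _ M d U W hM hU hW hd
  have hM1 : (1 : ℝ) ≤ M := by exact_mod_cast hM
  have hlog : 0 ≤ Real.log M := Real.log_nonneg hM1
  have hmm : (0 : ℝ) ≤ m := Nat.cast_nonneg m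
  set K := Nat.log 2 M + 1 with hK
  have hKb : (K : ℝ) ≤ 2 * (1 + Real.log M) := FourMod_K M hM
  have hK0 : (0 : ℝ) ≤ K := Nat.cast_nonneg K
  have h1 : ∀ ψ : DirichletCharacter ℂ m, ‖∑ h ∈ Icc 1 M, d h * ψ h‖ ^ 4 ≤
      (K : ℝ) ^ 3 * ∑ k ∈ range K, ‖∑ h ∈ Ico (2 ^ k) (2 * 2 ^ k),
        (if h ≤ M then d h else 0) * ψ h‖ ^ 4 := by
    intro ψ
    rw [FourMod_cover M hM (fun h => d h * ψ h)]
    refine (FourMod_hoelder K _).trans (le_of_eq ?_)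
    congr 1
    refine Finset.sum_congr rfl fun k _ => ?_
    congr 2
    refine Finset.sum_congr rfl fun h _ => ?_
    split_ifs with hh
    · rfl
    · rw [zero_mul]
  have h2 : ∀ k ∈ range K, ∑ ψ : DirichletCharacter ℂ m, ‖∑ h ∈ Ico (2 ^ k) (2 * 2 ^ k),
        (if h ≤ M then d h else 0) * ψ h‖ ^ 4 ≤
      C0 * (U ^ 4 + m * U ^ 2 * W ^ 2) * (1 + Real.log M) ^ C0 := by
    intro k hk
    have hk' : k ≤ Nat.log 2 M := by
      have := Finset.mem_range.mp hk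
      omega
    have h3 : 2 ^ k ≤ M := (Nat.pow_le_pow_right (by norm_num) hk').trans
      (Nat.pow_log_le_self 2 (by omega))
    have h4 : (0 : ℝ) < (2 : ℝ) ^ k := by positivity
    set D : ℝ := min W (U / 2 ^ k) with hDdef
    have hD0 : 0 ≤ D := le_min hW (by positivity)
    have hD1 : D ≤ W := min_le_left _ _
    have hD2 : D * 2 ^ k ≤ U := by
      have : D ≤ U / 2 ^ k := min_le_right _ _
      rwa [le_div_iff₀ h4] at this
    have h5 := hC0 m (2 ^ k) (fun h => if h ≤ M then d h else 0) D Nat.one_le_two_pow hD0 (by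
      intro h hh
      rw [Finset.mem_Ico] at hh
      split_ifs with hhM
      · have h6 := hd h (le_trans Nat.one_le_two_pow hh.1) hhM
        refine le_min h6.1 ?_
        rw [le_div_iff₀ h4]
        refine le_trans ?_ h6.2
        refine mul_le_mul_of_nonneg_left ?_ (norm_nonneg _)
        exact_mod_cast hh.1
      · rw [norm_zero]
        exact hD0)
    refine h5.trans ?_
    push_cast
    have h7 : D ^ 4 * (((2 : ℝ) ^ k) ^ 4 + m * ((2 : ℝ) ^ k) ^ 2) ≤ U ^ 4 + m * U ^ 2 * W ^ 2 := by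
      have h8 : (D * 2 ^ k) ^ 4 ≤ U ^ 4 := pow_le_pow_left₀ (by positivity) hD2 4
      have h9 : (D * 2 ^ k) ^ 2 ≤ U ^ 2 := pow_le_pow_left₀ (by positivity) hD2 2
      have h10 : D ^ 2 ≤ W ^ 2 := pow_le_pow_left₀ hD0 hD1 2
      have h11 : (D * 2 ^ k) ^ 2 * D ^ 2 ≤ U ^ 2 * W ^ 2 :=
        mul_le_mul h9 h10 (by positivity) (by positivity)
      calc D ^ 4 * (((2 : ℝ) ^ k) ^ 4 + m * ((2 : ℝ) ^ k) ^ 2) =
          (D * 2 ^ k) ^ 4 + m * ((D * 2 ^ k) ^ 2 * D ^ 2) := by ring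
        _ ≤ U ^ 4 + m * (U ^ 2 * W ^ 2) := add_le_add h8 (mul_le_mul_of_nonneg_left h11 hmm)
        _ = _ := by ring
    have h12 : 0 ≤ 1 + Real.log ((2 : ℝ) ^ k) := by
      have : 0 ≤ Real.log ((2 : ℝ) ^ k) := Real.log_nonneg (one_le_pow₀ (by norm_num))
      linarith
    have h13 : Real.log ((2 : ℝ) ^ k) ≤ Real.log M :=
      Real.log_le_log h4 (by exact_mod_cast h3)
    have h14 : (1 + Real.log ((2 : ℝ) ^ k)) ^ C0 ≤ (1 + Real.log M) ^ C0 :=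
      pow_le_pow_left₀ h12 (by linarith) C0
    calc (C0 : ℝ) * D ^ 4 * (((2 : ℝ) ^ k) ^ 4 + m * ((2 : ℝ) ^ k) ^ 2) *
          (1 + Real.log ((2 : ℝ) ^ k)) ^ C0 =
        (C0 * (D ^ 4 * (((2 : ℝ) ^ k) ^ 4 + m * ((2 : ℝ) ^ k) ^ 2))) *
          (1 + Real.log ((2 : ℝ) ^ k)) ^ C0 := by ring
      _ ≤ (C0 * (U ^ 4 + m * U ^ 2 * W ^ 2)) * (1 + Real.log M) ^ C0 := by
          refine mul_le_mul (mul_le_mul_of_nonneg_left h7 (Nat.cast_nonneg _)) h14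
            (by positivity) (by positivity)
  have hX : 0 ≤ U ^ 4 + m * U ^ 2 * W ^ 2 := by positivity
  calc ∑ ψ : DirichletCharacter ℂ m, ‖∑ h ∈ Icc 1 M, d h * ψ h‖ ^ 4 ≤
      ∑ ψ : DirichletCharacter ℂ m, (K : ℝ) ^ 3 * ∑ k ∈ range K,
        ‖∑ h ∈ Ico (2 ^ k) (2 * 2 ^ k), (if h ≤ M then d h else 0) * ψ h‖ ^ 4 :=
        Finset.sum_le_sum fun ψ _ => h1 ψ
    _ = (K : ℝ) ^ 3 * ∑ k ∈ range K, ∑ ψ : DirichletCharacter ℂ m,
        ‖∑ h ∈ Ico (2 ^ k) (2 * 2 ^ k), (if h ≤ M then d h else 0) * ψ h‖ ^ 4 := by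
        rw [← Finset.mul_sum, Finset.sum_comm]
    _ ≤ (K : ℝ) ^ 3 * ∑ k ∈ range K,
        (C0 * (U ^ 4 + m * U ^ 2 * W ^ 2) * (1 + Real.log M) ^ C0) :=
        mul_le_mul_of_nonneg_left (Finset.sum_le_sum h2) (by positivity)
    _ = (K : ℝ) ^ 4 * (C0 * (U ^ 4 + m * U ^ 2 * W ^ 2) * (1 + Real.log M) ^ C0) := by
        rw [Finset.sum_const, Finset.card_range, nsmul_eq_mul]
        ring
    _ ≤ (2 * (1 + Real.log M)) ^ 4 *
        (C0 * (U ^ 4 + m * U ^ 2 * W ^ 2) * (1 + Real.log M) ^ C0) :=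
        mul_le_mul_of_nonneg_right (pow_le_pow_left₀ hK0 hKb 4) (by positivity)
    _ = ((16 * C0 : ℕ) : ℝ) * (U ^ 4 + m * U ^ 2 * W ^ 2) * (1 + Real.log M) ^ (C0 + 4) := by
        push_cast
        ring
    _ ≤ ((16 * C0 + 4 : ℕ) : ℝ) * (U ^ 4 + m * U ^ 2 * W ^ 2) *
          (1 + Real.log M) ^ (16 * C0 + 4) := by
        refine mul_le_mul (mul_le_mul_of_nonneg_right ?_ hX)
          (pow_le_pow_right₀ (by linarith) (by omega)) (by positivity) (by positivity)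
        push_cast
        linarith

end Pool.MP_dd84fd_nt.T7
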