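import Pool.Agent.Lib.MP_dd84fd_nt.T7.SmoothChar
import Pool.Agent.Lib.MP_dd84fd_nt.T7.BilChar
import Pool.Agent.Lib.MP_dd84fd_nt.T7.Classify45
import Pool.Agent.Lib.MP_dd84fd_nt.L2G.HBId
import Pool.Agent.Lib.MP_dd84fd_nt.L2G.HBBound
import Pool.Agent.Lib.MP_dd84fd_nt.L2G.CharOrth
import Pool.Agent.Lib.MP_dd84fd_nt.L2G.DivMom

/-!
T7-11 GoodBad45 (same pattern as L2G/GoodBad: copy it). z = floor(X^(1/3)), J <= 2L, (2L)^6 boxes, |cc| <= 7. Box v (with product <= X, 2^(v j) <= z for j >= 3, else TT = 0 on [1,X]): classify45.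
 (1) product <= X^(19/20): TT lives on n <= 64 X^(19/20) =: X', |TT(n)| <= (1+log n)tau(n)^5 (prod_bound): sum_chi |Tc|^2 <= (X'+q) X' L^C (char_ms; the twist ee(n theta) has absolute value 1), <= X^(1.96).
 (2) bil_char with a = prod_{S} bf, b = prod_{S^c} bf, P = prod_S 2^(v j) (prod_support: support in [P, 64P]).
 (3) smooth_char with a = bf z j (v j), P = 2^(v j), b = the product of the other five (bf_smooth, prod_bound); P <= X.
 bad set = union of the bad sets of the boxes (2). Lambda - la: prime powers, sum_chi|.|^2 <= q(2 sqrt X L^2)^2 <= X^(1.85).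
-/

set_option autoImplicit false

namespace Pool.MP_dd84fd_nt.T7

open Finset Pool.MP_67663b_nt.Odd Pool.MP_dd84fd_nt.L2G

private lemma GB45_log_pow_le (δ : ℝ) (hδ : 0 < δ) (C : ℝ) (k : ℕ) :
    ∀ᶠ X : ℕ in Filter.atTop, C * Real.log X ^ k ≤ (X : ℝ) ^ δ := by
  have h := isLittleO_log_rpow_rpow_atTop (k : ℝ) hδ
  have h2 : (fun x : ℝ => C * Real.log x ^ (k : ℝ)) =o[Filter.atTop] (fun x : ℝ => x ^ δ) :=
    h.const_mul_left C
  have h3 := (h2.bound (one_pos)).and (Filter.eventually_ge_atTop (1 : ℝ))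
  have h4 := (tendsto_natCast_atTop_atTop (R := ℝ)).eventually h3
  filter_upwards [h4] with X hX
  obtain ⟨hX1, hX2⟩ := hX
  rw [Real.norm_eq_abs, Real.norm_eq_abs, one_mul, abs_of_nonneg (a := (X : ℝ) ^ δ) (by positivity),
    Real.rpow_natCast] at hX1
  exact le_trans (le_abs_self _) hX1

private lemma GB45_log_ge (C : ℝ) : ∀ᶠ X : ℕ in Filter.atTop, C ≤ Real.log X :=
  (Real.tendsto_log_atTop.comp (tendsto_natCast_atTop_atTop (R := ℝ))).eventually
    (Filter.eventually_ge_atTop C)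

private lemma GB45_Tc_congr (X q : ℕ) (f g : ℕ → ℝ) (θ : ℝ) (χ : DirichletCharacter ℂ q)
    (h : ∀ n, 1 ≤ n → n ≤ X → f n = g n) : Tc X q f θ χ = Tc X q g θ χ := by
  unfold Tc
  refine Finset.sum_congr rfl fun n hn => ?_
  obtain ⟨h1, h2⟩ := Finset.mem_Icc.1 hn
  rw [h n h1 h2]

private lemma GB45_Tc_sum {ι : Type*} (X q : ℕ) (V : Finset ι) (a : ι → ℝ) (F : ι → ℕ → ℝ)
    (θ : ℝ) (χ : DirichletCharacter ℂ q) :
    ‖Tc X q (fun n => ∑ v ∈ V, a v * F v n) θ χ‖ ^ 2 ≤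
      (V.card : ℝ) * ∑ v ∈ V, a v ^ 2 * ‖Tc X q (F v) θ χ‖ ^ 2 := by
  have e2 : Tc X q (fun n => ∑ v ∈ V, a v * F v n) θ χ = ∑ v ∈ V, (a v : ℂ) * Tc X q (F v) θ χ := by
    unfold Tc
    simp_rw [Finset.mul_sum]
    rw [Finset.sum_comm]
    refine Finset.sum_congr rfl fun n _ => ?_
    push_cast
    rw [Finset.sum_mul, Finset.sum_mul]
    refine Finset.sum_congr rfl fun v _ => ?_
    ring
  rw [e2]
  have h1 : ‖∑ v ∈ V, (a v : ℂ) * Tc X q (F v) θ χ‖ ≤ ∑ v ∈ V, |a v| * ‖Tc X q (F v) θ χ‖ := by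
    refine le_trans (norm_sum_le _ _) (Finset.sum_le_sum fun v _ => ?_)
    rw [norm_mul, Complex.norm_real, Real.norm_eq_abs]
  calc ‖∑ v ∈ V, (a v : ℂ) * Tc X q (F v) θ χ‖ ^ 2
      ≤ (∑ v ∈ V, |a v| * ‖Tc X q (F v) θ χ‖) ^ 2 := by gcongr
    _ ≤ (V.card : ℝ) * ∑ v ∈ V, (|a v| * ‖Tc X q (F v) θ χ‖) ^ 2 := sq_sum_le_card_mul_sum_sq
    _ = _ := by
        congr 1
        refine Finset.sum_congr rfl fun v _ => ?_
        rw [mul_pow, sq_abs]

private lemma GB45_Tc_ms (X q : ℕ) [NeZero q] (f : ℕ → ℝ) (θ : ℝ)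
    (𝓖 : Finset (DirichletCharacter ℂ q)) :
    ∑ χ ∈ 𝓖, ‖Tc X q f θ χ‖ ^ 2 ≤ ((X : ℝ) + q) * ∑ n ∈ Icc 1 X, f n ^ 2 := by
  have h := char_ms q 0 X (fun n => (f n : ℂ) * ee (n * θ))
  have hI : Ioc 0 (0 + X) = Icc 1 X := by
    ext n
    simp only [Finset.mem_Ioc, Finset.mem_Icc]
    omega
  rw [hI] at h
  have e1 : ∀ χ : DirichletCharacter ℂ q,
      ∑ n ∈ Icc 1 X, (f n : ℂ) * ee (n * θ) * χ n = Tc X q f θ χ := by
    intro χ
    unfold Tc
    refine Finset.sum_congr rfl fun n _ => ?_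
    ring
  simp only [e1] at h
  have e2 : ∀ n : ℕ, ‖(f n : ℂ) * ee (n * θ)‖ ^ 2 = f n ^ 2 := by
    intro n
    have : ‖ee ((n : ℝ) * θ)‖ = 1 := by
      unfold ee
      rw [Complex.norm_exp]
      simp
    rw [norm_mul, this, mul_one, Complex.norm_real, Real.norm_eq_abs, sq_abs]
  simp only [e2] at h
  refine le_trans ?_ h
  exact Finset.sum_le_univ_sum_of_nonneg fun χ => sq_nonneg _

private lemma GB45_cc_abs (v : Fin 6 → ℕ) : cc v ^ 2 ≤ 49 := by
  unfold cc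
  split_ifs <;> norm_num

/-- a box of small total size -/
private theorem GB45_small (A : ℕ) : ∃ X0 : ℕ, ∀ X : ℕ, X0 ≤ X →
    ∀ (q : ℕ) [NeZero q], (q : ℝ) ≤ (X : ℝ) ^ (4 / 5 : ℝ) → ∀ (z : ℕ) (v : Fin 6 → ℕ),
    ((∏ j, 2 ^ v j : ℕ) : ℝ) ≤ (X : ℝ) ^ (19 / 20 : ℝ) → ∀ (θ : ℝ)
    (𝓖 : Finset (DirichletCharacter ℂ q)),
    ∑ χ ∈ 𝓖, ‖Tc X q (fun n => TT z v n) θ χ‖ ^ 2 ≤ X ^ 2 / Real.log X ^ A := by
  classical
  obtain ⟨C, hC⟩ := div_mom 10
  obtain ⟨X1, hX1⟩ := Filter.eventually_atTop.1 (((GB45_log_ge 2).and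
    (GB45_log_pow_le (1 / 10) (by norm_num) (65 * 64 * 2 ^ 2 * 6 ^ C) (2 + C + A))).and
      (Filter.eventually_ge_atTop 2))
  refine ⟨X1, fun X hX q _ hq z v hv θ 𝓖 => ?_⟩
  obtain ⟨⟨hL2, hbig⟩, hX2⟩ := hX1 X hX
  obtain ⟨L, hL⟩ : ∃ L : ℝ, L = Real.log X := ⟨_, rfl⟩
  rw [← hL] at hL2 hbig ⊢
  have hXR : (2 : ℝ) ≤ X := by exact_mod_cast hX2
  have hXp : (0 : ℝ) < X := by linarith
  have hX1' : (1 : ℝ) ≤ X := by linarith
  have hLp : 0 < L := by linarith
  obtain ⟨N, hN⟩ : ∃ N : ℕ, N = ∏ j : Fin 6, 2 ^ (v j + 1) := ⟨_, rfl⟩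
  have hN64 : N = 64 * ∏ j : Fin 6, 2 ^ v j := by
    rw [hN]
    have h3 : ∏ j : Fin 6, 2 ^ (v j + 1) = 2 ^ (Finset.univ : Finset (Fin 6)).card *
        ∏ j : Fin 6, 2 ^ v j := by
      rw [← Finset.prod_const, ← Finset.prod_mul_distrib]
      exact Finset.prod_congr rfl fun j _ => by rw [pow_succ, mul_comm]
    rw [h3]
    norm_num
  have hN1 : 1 ≤ N := by
    rw [hN]
    exact Nat.one_le_iff_ne_zero.2 (Finset.prod_ne_zero_iff.2 fun j _ => by positivity)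
  have hNX : (N : ℝ) ≤ 64 * (X : ℝ) ^ (19 / 20 : ℝ) := by
    rw [hN64]
    push_cast
    push_cast at hv
    linarith
  have hlogN : Real.log N ≤ 5 * L := by
    have h1 : (N : ℝ) ≤ 64 * X := by
      refine hNX.trans ?_
      have : (X : ℝ) ^ (19 / 20 : ℝ) ≤ X := by
        calc (X : ℝ) ^ (19 / 20 : ℝ) ≤ (X : ℝ) ^ (1 : ℝ) :=
              Real.rpow_le_rpow_of_exponent_le hX1' (by norm_num)
          _ = X := Real.rpow_one _
      linarith
    have h2 : Real.log N ≤ Real.log (64 * X) :=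
      Real.log_le_log (by exact_mod_cast hN1) h1
    rw [Real.log_mul (by norm_num) hXp.ne'] at h2
    have h3 : Real.log 64 ≤ 6 := by
      have h4 : Real.log 64 = 6 * Real.log 2 := by
        rw [show (64 : ℝ) = 2 ^ 6 by norm_num, Real.log_pow]
        norm_num
      have := Real.log_two_lt_d9
      linarith
    rw [← hL] at h2
    linarith
  have hlogN0 : 0 ≤ Real.log N := Real.log_natCast_nonneg N
  -- the mean square
  have hms := char_ms q 0 N (fun n => if n ≤ X then ((TT z v n : ℝ) : ℂ) * ee (n * θ) else 0)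
  have hI : Ioc 0 (0 + N) = Icc 1 N := by
    ext n
    simp only [Finset.mem_Ioc, Finset.mem_Icc]
    omega
  rw [hI] at hms
  have e1 : ∀ χ : DirichletCharacter ℂ q, Tc X q (fun n => TT z v n) θ χ =
      ∑ n ∈ Icc 1 N, (if n ≤ X then ((TT z v n : ℝ) : ℂ) * ee (n * θ) else 0) * χ n := by
    intro χ
    have e2 : ∑ n ∈ Icc 1 N, (if n ≤ X then ((TT z v n : ℝ) : ℂ) * ee (n * θ) else 0) * χ n =
        ∑ n ∈ (Icc 1 N).filter (fun n => n ≤ X), ((TT z v n : ℝ) : ℂ) * χ n * ee (n * θ) := by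
      rw [Finset.sum_filter]
      refine Finset.sum_congr rfl fun n _ => ?_
      split_ifs
      · ring
      · rw [zero_mul]
    rw [e2]
    unfold Tc
    symm
    apply Finset.sum_subset
    · intro n hn
      rw [Finset.mem_filter, Finset.mem_Icc] at hn
      rw [Finset.mem_Icc]
      exact ⟨hn.1.1, hn.2⟩
    · intro n hn hn'
      rw [Finset.mem_Icc] at hn
      rw [Finset.mem_filter, Finset.mem_Icc] at hn'
      have h3 : TT z v n = 0 := by
        by_contra h0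
        have h4 := (prod_support z v univ n h0).2
        rw [← hN] at h4
        exact hn' ⟨⟨hn.1, h4⟩, hn.2⟩
      rw [h3]
      simp
  have hee : ∀ n : ℕ, ‖ee ((n : ℝ) * θ)‖ = 1 := by
    intro n
    unfold ee
    rw [Complex.norm_exp]
    simp
  have hcoef : ∀ n ∈ Icc 1 N, ‖(if n ≤ X then ((TT z v n : ℝ) : ℂ) * ee (n * θ) else 0 : ℂ)‖ ^ 2 ≤
      (2 * L) ^ 2 * (n.divisors.card : ℝ) ^ 10 := by
    intro n hn
    rw [Finset.mem_Icc] at hn
    split_ifs with h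
    · have h1 := prod_bound z v univ n hn.1
      have h2 : Real.log n ≤ L := by
        rw [hL]
        exact Real.log_le_log (by exact_mod_cast hn.1) (by exact_mod_cast h)
      have h3 : 0 ≤ Real.log n := Real.log_natCast_nonneg n
      rw [norm_mul, hee, mul_one, Complex.norm_real, Real.norm_eq_abs]
      calc |TT z v n| ^ 2 ≤ ((1 + Real.log n) * (n.divisors.card : ℝ) ^ 5) ^ 2 :=
            pow_le_pow_left₀ (abs_nonneg _) h1 2
        _ ≤ ((2 * L) * (n.divisors.card : ℝ) ^ 5) ^ 2 := by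
            gcongr
            linarith
        _ = _ := by ring
    · rw [norm_zero, zero_pow two_ne_zero]
      positivity
  calc ∑ χ ∈ 𝓖, ‖Tc X q (fun n => TT z v n) θ χ‖ ^ 2
      ≤ ∑ χ : DirichletCharacter ℂ q, ‖Tc X q (fun n => TT z v n) θ χ‖ ^ 2 :=
        Finset.sum_le_univ_sum_of_nonneg fun χ => sq_nonneg _
    _ ≤ ((N : ℝ) + q) * ∑ n ∈ Icc 1 N,
        ‖(if n ≤ X then ((TT z v n : ℝ) : ℂ) * ee (n * θ) else 0 : ℂ)‖ ^ 2 := by
        rw [Finset.sum_congr rfl fun χ _ => by rw [e1 χ]]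
        exact hms
    _ ≤ ((N : ℝ) + q) * ((2 * L) ^ 2 * (N * (1 + Real.log N) ^ C)) := by
        refine mul_le_mul_of_nonneg_left ?_ (by positivity)
        refine (Finset.sum_le_sum hcoef).trans ?_
        rw [← Finset.mul_sum]
        exact mul_le_mul_of_nonneg_left (hC N hN1).1 (by positivity)
    _ ≤ (64 * (X : ℝ) ^ (19 / 20 : ℝ) + (X : ℝ) ^ (19 / 20 : ℝ)) *
        ((2 * L) ^ 2 * ((64 * (X : ℝ) ^ (19 / 20 : ℝ)) * (6 * L) ^ C)) := by
        have h1 : (q : ℝ) ≤ (X : ℝ) ^ (19 / 20 : ℝ) :=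
          hq.trans (Real.rpow_le_rpow_of_exponent_le hX1' (by norm_num))
        gcongr
        linarith
    _ = (65 * 64 * 2 ^ 2 * 6 ^ C * L ^ (2 + C + A)) *
        ((X : ℝ) ^ (19 / 20 : ℝ) * (X : ℝ) ^ (19 / 20 : ℝ)) / L ^ A := by
        rw [eq_div_iff (by positivity), mul_pow, mul_pow, pow_add, pow_add]
        ring
    _ ≤ (X : ℝ) ^ (1 / 10 : ℝ) *
        ((X : ℝ) ^ (19 / 20 : ℝ) * (X : ℝ) ^ (19 / 20 : ℝ)) / L ^ A := by gcongr
    _ = X ^ 2 / L ^ A := by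
        rw [← Real.rpow_add hXp, ← Real.rpow_add hXp, ← Real.rpow_natCast (X : ℝ) 2]
        norm_num

theorem good_bad45 (ε : ℝ) (hε : 0 < ε) (hε1 : ε < 1) (A B : ℕ) : ∃ C X0 : ℕ, ∀ X : ℕ, X0 ≤ X →
    ∀ (q : ℕ) [NeZero q], (q : ℝ) ≤ (X : ℝ) ^ (4 / 5 - ε) → ∀ (r : ℕ) (y : ℤ) (β : ℝ), 1 ≤ r →
    (r : ℝ) ≤ Real.log X ^ B → Nat.Coprime r q → |β| ≤ Real.log X ^ B / X →
      ∃ 𝓑 : Finset (DirichletCharacter ℂ q), (𝓑.card : ℝ) ≤ Real.log X ^ C ∧
        ∀ 𝓖 : Finset (DirichletCharacter ℂ q), Disjoint 𝓖 𝓑 → (1 : DirichletCharacter ℂ q) ∉ 𝓖 →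
          ∑ χ ∈ 𝓖, ‖Tc X q (la X) (y / r + β) χ‖ ^ 2 ≤ X ^ 2 / Real.log X ^ A := by
  classical
  obtain ⟨C1, X1, hB1⟩ := bil_char ε hε hε1 (A + 13) B
  obtain ⟨X2a, hB2⟩ := smooth_char (A + 13) B
  obtain ⟨X2b, hB3⟩ := GB45_small (A + 13)
  obtain ⟨X2, hX2⟩ : ∃ X2 : ℕ, X2 = max X2a X2b := ⟨_, rfl⟩
  obtain ⟨X3, hX3⟩ := Filter.eventually_atTop.1 (((GB45_log_ge (4 * (2 ^ 12 * 49))).and
    (GB45_log_pow_le (1 / 2) (by norm_num) 16 (A + 2))).and (Filter.eventually_ge_atTop 2))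
  refine ⟨C1 + 7, max X1 (max X2 X3), fun X hX q _ hqX r y β hr hrB hcop hβ => ?_⟩
  obtain ⟨⟨hL, hLX⟩, hXge⟩ := hX3 X (le_trans (le_trans (le_max_right _ _) (le_max_right _ _)) hX)
  have hbox1 := hB1 X (le_trans (le_max_left _ _) hX) q hqX r y β hr hrB hβ
  have hXX2 : X2 ≤ X := le_trans (le_trans (le_max_left _ _) (le_max_right _ _)) hX
  have hXpos : (0 : ℝ) < X := by exact_mod_cast (by omega : 0 < X)
  have hX1' : (1 : ℝ) ≤ X := by exact_mod_cast (by omega : 1 ≤ X)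
  have hq1 : 1 ≤ q := Nat.one_le_iff_ne_zero.2 (NeZero.ne q)
  have hqpos : (0 : ℝ) < q := by exact_mod_cast (by omega : 0 < q)
  have hqX45 : (q : ℝ) ≤ (X : ℝ) ^ (4 / 5 : ℝ) :=
    hqX.trans (Real.rpow_le_rpow_of_exponent_le hX1' (by linarith))
  have hqX3 : (q : ℝ) ≤ X := by
    refine hqX45.trans ?_
    calc (X : ℝ) ^ (4 / 5 : ℝ) ≤ (X : ℝ) ^ (1 : ℝ) :=
          Real.rpow_le_rpow_of_exponent_le hX1' (by norm_num)
      _ = X := Real.rpow_one _
  have hbox2 := hB2 X ((le_max_left X2a X2b).trans (hX2 ▸ hXX2)) q hqX45 r y β hr hrB hcop hβ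
  have hbox3 := hB3 X ((le_max_right X2a X2b).trans (hX2 ▸ hXX2)) q hqX45
  set L : ℝ := Real.log X with hLdef
  have hL0 : (0 : ℝ) < L := by linarith
  set z : ℕ := ⌊(X : ℝ) ^ (1 / 3 : ℝ)⌋₊ with hz
  set J : ℕ := Nat.log 2 X + 1 with hJ
  have hzle : (z : ℝ) ≤ (X : ℝ) ^ (1 / 3 : ℝ) := Nat.floor_le (by positivity)
  have hz3 : X < (z + 1) ^ 3 := by
    have h1 : (X : ℝ) ^ (1 / 3 : ℝ) < z + 1 := Nat.lt_floor_add_one _
    have h2 : (X : ℝ) < ((z : ℝ) + 1) ^ 3 := by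
      calc (X : ℝ) = ((X : ℝ) ^ (1 / 3 : ℝ)) ^ 3 := by
            rw [← Real.rpow_natCast, ← Real.rpow_mul hXpos.le]; norm_num
        _ < ((z : ℝ) + 1) ^ 3 := by gcongr
    exact_mod_cast h2
  have hJ2 : X < 2 ^ J := Nat.lt_pow_succ_log_self (by norm_num) X
  have hJL : (J : ℝ) ≤ 2 * L := by
    have h1 : ((Nat.log 2 X : ℕ) : ℝ) * Real.log 2 ≤ L := by
      rw [← Real.log_pow]
      apply Real.log_le_log (by positivity)
      exact_mod_cast Nat.pow_log_le_self 2 (by omega)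
    have h2 : (0.69 : ℝ) < Real.log 2 := by
      have := Real.log_two_gt_d9; linarith
    have h3 : (0 : ℝ) ≤ ((Nat.log 2 X : ℕ) : ℝ) := by positivity
    rw [hJ]
    push_cast
    nlinarith
  set V : Finset (Fin 6 → ℕ) := Fintype.piFinset (fun _ : Fin 6 => range J) with hV
  have hVcard : (V.card : ℝ) ≤ (2 * L) ^ 6 := by
    rw [hV, Fintype.card_piFinset]
    simp only [card_range, prod_const, card_univ, Fintype.card_fin]
    push_cast
    gcongr
  -- the bad set of one box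
  have hone : ∀ v : Fin 6 → ℕ, ∃ 𝓑 : Finset (DirichletCharacter ℂ q), (𝓑.card : ℝ) ≤ L ^ C1 ∧
      ∀ 𝓖 : Finset (DirichletCharacter ℂ q), Disjoint 𝓖 𝓑 → (1 : DirichletCharacter ℂ q) ∉ 𝓖 →
        ∑ χ ∈ 𝓖, ‖Tc X q (fun n => TT z v n) (y / r + β) χ‖ ^ 2 ≤ X ^ 2 / L ^ (A + 13) := by
    intro v
    by_cases hgood : (∏ j, 2 ^ v j ≤ X) ∧ ∀ j : Fin 6, 3 ≤ (j : ℕ) → 2 ^ v j ≤ z
    · obtain ⟨hg1, hg2⟩ := hgood
      rcases classify45 X z hXge hzle v hg1 hg2 with hsm | ⟨S, hS1, hS2⟩ | ⟨j, hj, hj2⟩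
      · refine ⟨∅, ?_, fun 𝓖 _ _ => hbox3 z v hsm _ 𝓖⟩
        rw [Finset.card_empty, Nat.cast_zero]
        positivity
      · have hab : TT z v = (∏ j ∈ S, bf z j (v j)) * ∏ j ∈ Sᶜ, bf z j (v j) :=
          (Finset.prod_mul_prod_compl S _).symm
        have hsupp : ∀ n, (∏ j ∈ S, bf z j (v j)) n ≠ 0 →
            (∏ j ∈ S, 2 ^ v j) ≤ n ∧ n ≤ 64 * ∏ j ∈ S, 2 ^ v j := by
          intro n hn
          obtain ⟨h1, h2⟩ := prod_support z v S n hn
          refine ⟨h1, h2.trans ?_⟩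
          have h3 : ∏ j ∈ S, 2 ^ (v j + 1) = 2 ^ S.card * ∏ j ∈ S, 2 ^ v j := by
            rw [← Finset.prod_const, ← Finset.prod_mul_distrib]
            exact Finset.prod_congr rfl fun j _ => by rw [pow_succ, mul_comm]
          rw [h3]
          refine Nat.mul_le_mul_right _ ?_
          have h4 : S.card ≤ 6 := by simpa using Finset.card_le_univ S
          calc 2 ^ S.card ≤ 2 ^ 6 := Nat.pow_le_pow_right (by norm_num) h4
            _ = 64 := by norm_num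
        obtain ⟨𝓑, h1, h2⟩ := hbox1 (∏ j ∈ S, 2 ^ v j) (∏ j ∈ S, bf z j (v j))
          (∏ j ∈ Sᶜ, bf z j (v j)) hS1 hS2 hsupp (fun n hn => prod_bound z v S n hn)
          (fun n hn => prod_bound z v Sᶜ n hn)
        refine ⟨𝓑, h1, fun 𝓖 hd _ => ?_⟩
        have h3 := h2 𝓖 hd
        rw [← hab] at h3
        exact h3
      · have hab : TT z v = bf z j (v j) * ∏ i ∈ ({j} : Finset (Fin 6))ᶜ, bf z i (v i) := by
          have h1 : TT z v = (∏ i ∈ ({j} : Finset (Fin 6)), bf z i (v i)) *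
              ∏ i ∈ ({j} : Finset (Fin 6))ᶜ, bf z i (v i) :=
            (Finset.prod_mul_prod_compl _ _).symm
          rw [Finset.prod_singleton] at h1
          exact h1
        have hPX : 2 ^ v j ≤ X := by
          refine le_trans ?_ hg1
          exact Finset.single_le_prod' (f := fun i => 2 ^ v i)
            (fun i _ => Nat.one_le_two_pow) (Finset.mem_univ j)
        have hsupp : ∀ n, bf z j (v j) n ≠ 0 → 2 ^ v j ≤ n ∧ n < 2 * 2 ^ v j := by
          intro n hn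
          by_contra hc
          apply hn
          unfold bf restr
          rw [ArithmeticFunction.coe_mk, if_neg]
          rw [pow_succ, mul_comm (2 ^ v j) 2]
          exact hc
        have hsm := bf_smooth z j (v j) hj
        have hmono : MonotoneOn (fun n => bf z j (v j) n) (Set.Ico (2 ^ v j) (2 * 2 ^ v j)) := by
          have h1 := hsm.2
          rw [pow_succ, mul_comm (2 ^ v j) 2] at h1
          exact h1
        refine ⟨∅, ?_, fun 𝓖 _ h1 => ?_⟩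
        · rw [Finset.card_empty, Nat.cast_zero]
          positivity
        · have h2 := hbox2 (2 ^ v j) (bf z j (v j)) (∏ i ∈ ({j} : Finset (Fin 6))ᶜ, bf z i (v i))
            hj2 hPX hsupp hsm.1 hmono (fun n hn => prod_bound z v _ n hn) 𝓖 h1
          rw [← hab] at h2
          exact h2
    · have hzero : ∀ n, 1 ≤ n → n ≤ X → TT z v n = 0 := by
        intro n hn1 hn2
        by_contra hne
        apply hgood
        constructor
        · exact le_trans (prod_support z v univ n hne).1 hn2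
        · intro j hj
          by_contra hlt
          push Not at hlt
          apply hne
          have h0 : TT z v = 0 := by
            unfold TT
            exact Finset.prod_eq_zero (Finset.mem_univ j) (bf_zero z j (v j) hj hlt)
          rw [h0]; simp
      refine ⟨∅, ?_, fun 𝓖 _ _ => ?_⟩
      · rw [Finset.card_empty, Nat.cast_zero]
        positivity
      · have h0 : ∀ χ ∈ 𝓖, ‖Tc X q (fun n => TT z v n) (y / r + β) χ‖ ^ 2 = 0 := by
          intro χ _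
          rw [GB45_Tc_congr X q _ (fun _ => 0) _ χ hzero]
          unfold Tc
          simp
        rw [Finset.sum_eq_zero h0]
        positivity
  choose bad hbad1 hbad2 using hone
  refine ⟨V.biUnion bad, ?_, fun 𝓖 hdisj h1G => ?_⟩
  · have e1 : ((V.biUnion bad).card : ℝ) ≤ ∑ v ∈ V, ((bad v).card : ℝ) := by
      exact_mod_cast Finset.card_biUnion_le
    refine e1.trans ((Finset.sum_le_sum fun v _ => hbad1 v).trans ?_)
    rw [Finset.sum_const, nsmul_eq_mul]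
    calc (V.card : ℝ) * L ^ C1 ≤ (2 * L) ^ 6 * L ^ C1 := by gcongr
      _ = 64 * (L ^ 6 * L ^ C1) := by ring
      _ ≤ L * (L ^ 6 * L ^ C1) := by
          refine mul_le_mul_of_nonneg_right ?_ (by positivity)
          linarith
      _ = L ^ (C1 + 7) := by rw [pow_add]; ring
  -- the sum over the good characters
  have hLam : ∑ χ ∈ 𝓖, ‖Tc X q (fun n => ArithmeticFunction.vonMangoldt n) (y / r + β) χ‖ ^ 2
      ≤ X ^ 2 / L ^ A / 4 := by
    have hs : ∀ χ ∈ 𝓖, ‖Tc X q (fun n => ArithmeticFunction.vonMangoldt n) (y / r + β) χ‖ ^ 2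
        ≤ (V.card : ℝ) * ∑ v ∈ V, cc v ^ 2 * ‖Tc X q (fun n => TT z v n) (y / r + β) χ‖ ^ 2 := by
      intro χ _
      rw [GB45_Tc_congr X q _ (fun n => ∑ v ∈ V, cc v * TT z v n) _ χ
        (fun n h1 h2 => hb z X J hz3 hJ2 n h1 h2)]
      exact GB45_Tc_sum X q V cc (fun v n => TT z v n) _ χ
    refine (Finset.sum_le_sum hs).trans ?_
    rw [← Finset.mul_sum, Finset.sum_comm]
    have hv : ∀ v ∈ V, ∑ χ ∈ 𝓖, cc v ^ 2 * ‖Tc X q (fun n => TT z v n) (y / r + β) χ‖ ^ 2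
        ≤ 49 * (X ^ 2 / L ^ (A + 13)) := by
      intro v hv
      rw [← Finset.mul_sum]
      have hd : Disjoint 𝓖 (bad v) :=
        Finset.disjoint_of_subset_right (Finset.subset_biUnion_of_mem bad hv) hdisj
      have := hbad2 v 𝓖 hd h1G
      exact mul_le_mul (GB45_cc_abs v) this (Finset.sum_nonneg fun χ _ => sq_nonneg _)
        (by norm_num)
    calc (V.card : ℝ) * ∑ v ∈ V, ∑ χ ∈ 𝓖, cc v ^ 2 *
          ‖Tc X q (fun n => TT z v n) (y / r + β) χ‖ ^ 2
        ≤ (V.card : ℝ) * ((V.card : ℝ) * (49 * (X ^ 2 / L ^ (A + 13)))) := by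
          refine mul_le_mul_of_nonneg_left ?_ (by positivity)
          rw [← nsmul_eq_mul, ← Finset.sum_const]
          exact Finset.sum_le_sum hv
      _ ≤ (2 * L) ^ 6 * ((2 * L) ^ 6 * (49 * (X ^ 2 / L ^ (A + 13)))) := by gcongr
      _ = (4 * (2 ^ 12 * 49) / L) * (X ^ 2 / L ^ A / 4) := by
          rw [pow_add L A 13]; field_simp
      _ ≤ 1 * (X ^ 2 / L ^ A / 4) := by
          refine mul_le_mul_of_nonneg_right ?_ (by positivity)
          rw [div_le_one hL0]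
          exact hL
      _ = _ := one_mul _
  -- prime powers
  set g : ℕ → ℝ := fun n => la X n - ArithmeticFunction.vonMangoldt n with hg
  have hgabs : ∀ n ∈ Icc 1 X, |g n| = ArithmeticFunction.vonMangoldt n -
      (if n.Prime then Real.log n else 0) := by
    intro n hn
    obtain ⟨hn1, hn2⟩ := Finset.mem_Icc.1 hn
    simp only [hg, la]
    by_cases hp : n.Prime
    · simp [hp, hn2, ArithmeticFunction.vonMangoldt_apply_prime hp]
    · simp [hp]
  have hgsum : ∑ n ∈ Icc 1 X, |g n| ≤ 2 * √X * L := by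
    rw [Finset.sum_congr rfl hgabs, Finset.sum_sub_distrib]
    have h2 := Chebyshev.psi_sub_theta_le (x := (X : ℝ)) hX1'
    have h3 : Chebyshev.psi (X : ℝ) = ∑ n ∈ Icc 1 X, ArithmeticFunction.vonMangoldt n := by
      unfold Chebyshev.psi
      rw [Nat.floor_natCast]
      rfl
    have h4 : Chebyshev.theta (X : ℝ) = ∑ n ∈ Icc 1 X, (if n.Prime then Real.log n else 0) := by
      unfold Chebyshev.theta
      rw [Nat.floor_natCast, Finset.sum_filter]
      rfl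
    rw [h3, h4] at h2
    exact h2
  have hgL : ∀ n ∈ Icc 1 X, |g n| ≤ L := by
    intro n hn
    obtain ⟨hn1, hn2⟩ := Finset.mem_Icc.1 hn
    rw [hgabs n hn]
    have e1 : ArithmeticFunction.vonMangoldt n ≤ Real.log n :=
      ArithmeticFunction.vonMangoldt_le_log
    have e2 : Real.log n ≤ L :=
      Real.log_le_log (by exact_mod_cast hn1) (by exact_mod_cast hn2)
    have e3 : (0 : ℝ) ≤ (if n.Prime then Real.log n else 0) := by
      split_ifs
      · exact Real.log_natCast_nonneg n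
      · exact le_rfl
    linarith
  have hgsq : ∑ n ∈ Icc 1 X, g n ^ 2 ≤ L * (2 * √X * L) := by
    calc ∑ n ∈ Icc 1 X, g n ^ 2 ≤ ∑ n ∈ Icc 1 X, L * |g n| := by
          refine Finset.sum_le_sum fun n hn => ?_
          rw [← sq_abs, sq]
          exact mul_le_mul_of_nonneg_right (hgL n hn) (abs_nonneg _)
      _ = L * ∑ n ∈ Icc 1 X, |g n| := by rw [Finset.mul_sum]
      _ ≤ _ := mul_le_mul_of_nonneg_left hgsum hL0.le
  have hG2 : ∑ χ ∈ 𝓖, ‖Tc X q g (y / r + β) χ‖ ^ 2 ≤ X ^ 2 / L ^ A / 4 := by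
    refine (GB45_Tc_ms X q g _ 𝓖).trans ?_
    calc ((X : ℝ) + q) * ∑ n ∈ Icc 1 X, g n ^ 2 ≤ (X + X) * (L * (2 * √X * L)) := by
          refine mul_le_mul (by linarith) hgsq (Finset.sum_nonneg fun n _ => sq_nonneg _)
            (by positivity)
      _ = (16 * L ^ (A + 2)) * (X * √X) / L ^ A / 4 := by
          rw [pow_add]
          field_simp
          ring
      _ ≤ ((X : ℝ) ^ (1 / 2 : ℝ)) * (X * √X) / L ^ A / 4 := by gcongr
      _ = X ^ 2 / L ^ A / 4 := by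
          rw [← Real.sqrt_eq_rpow]
          have : √(X : ℝ) * (X * √X) = X ^ 2 := by
            have h := Real.mul_self_sqrt hXpos.le
            calc √(X : ℝ) * (X * √X) = X * (√X * √X) := by ring
              _ = X ^ 2 := by rw [h]; ring
          rw [this]
  have hfin : ∀ χ ∈ 𝓖, ‖Tc X q (la X) (y / r + β) χ‖ ^ 2 ≤
      2 * ‖Tc X q (fun n => ArithmeticFunction.vonMangoldt n) (y / r + β) χ‖ ^ 2
        + 2 * ‖Tc X q g (y / r + β) χ‖ ^ 2 := by
    intro χ _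
    have e1 : Tc X q (la X) (y / r + β) χ
        = Tc X q (fun n => ArithmeticFunction.vonMangoldt n) (y / r + β) χ
          + Tc X q g (y / r + β) χ := by
      unfold Tc
      rw [← Finset.sum_add_distrib]
      refine Finset.sum_congr rfl fun n _ => ?_
      rw [hg]
      push_cast
      ring
    rw [e1]
    have e2 := norm_add_le (Tc X q (fun n => ArithmeticFunction.vonMangoldt n) (y / r + β) χ)
      (Tc X q g (y / r + β) χ)
    have e3 := pow_le_pow_left₀ (norm_nonneg _) e2 2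
    refine e3.trans ?_
    have e4 := sq_nonneg (‖Tc X q (fun n => ArithmeticFunction.vonMangoldt n) (y / r + β) χ‖
      - ‖Tc X q g (y / r + β) χ‖)
    linarith [e4, sq_nonneg (‖Tc X q g (y / r + β) χ‖), add_sq
      ‖Tc X q (fun n => ArithmeticFunction.vonMangoldt n) (y / r + β) χ‖
      ‖Tc X q g (y / r + β) χ‖, sub_sq
      ‖Tc X q (fun n => ArithmeticFunction.vonMangoldt n) (y / r + β) χ‖
      ‖Tc X q g (y / r + β) χ‖]
  refine (Finset.sum_le_sum hfin).trans ?_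
  rw [Finset.sum_add_distrib, ← Finset.mul_sum, ← Finset.mul_sum]
  linarith

end Pool.MP_dd84fd_nt.T7
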