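import Pool.Agent.Lib.MP_dd84fd_nt.T7.GoodBad45
import Pool.Agent.Lib.MP_dd84fd_nt.L2G.TcSmall

/-!
T7-12 LaGood45. good_bad45 with A+1 gives C and a bad set B'. Let B = {chi in B' : chi != 1 and chi factors through no d | q with d <= L^D1}. The removed chi != 1 have |Tc| <= X/L^(A'') by Tc_small (A'' = A+C+2, B'' = max(B,D1)),
their number is <= L^C. Sum over all chi not in B, chi != 1: <= X^2/L^(A+1) + L^C X^2/L^(2A'') <= X^2/L^A.
-/

set_option autoImplicit false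

namespace Pool.MP_dd84fd_nt.T7

open Finset Pool.MP_67663b_nt.Odd Pool.MP_dd84fd_nt.L2G

theorem la_good45 (ε : ℝ) (hε : 0 < ε) (hε1 : ε < 1) (A B : ℕ) : ∃ C : ℕ, ∀ D1 : ℕ, ∃ X0 : ℕ,
    ∀ X : ℕ, X0 ≤ X →
    ∀ (q : ℕ) [NeZero q], (q : ℝ) ≤ (X : ℝ) ^ (4 / 5 - ε) → ∀ (r : ℕ) (y : ℤ) (β : ℝ), 1 ≤ r →
    (r : ℝ) ≤ Real.log X ^ B → Nat.Coprime r q → |β| ≤ Real.log X ^ B / X →
      ∃ 𝓑 : Finset (DirichletCharacter ℂ q), (𝓑.card : ℝ) ≤ Real.log X ^ C ∧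
        (∀ χ ∈ 𝓑, χ ≠ 1 ∧ ∀ d : ℕ, d ∣ q → (d : ℝ) ≤ Real.log X ^ D1 → ¬ χ.FactorsThrough d) ∧
        ∑ χ ∈ univ.filter (fun χ => χ ∉ 𝓑 ∧ χ ≠ 1), ‖Tc X q (la X) (y / r + β) χ‖ ^ 2 ≤
          X ^ 2 / Real.log X ^ A := by
  classical
  obtain ⟨C, X1, h1⟩ := good_bad45 ε hε hε1 (A + 1) B
  refine ⟨C, fun D1 => ?_⟩
  obtain ⟨X2, h2⟩ := Tc_small (A + C + 1) (max B D1)
  have hev : ∀ᶠ X : ℕ in Filter.atTop, (2 : ℝ) ≤ Real.log X :=
    (Real.tendsto_log_atTop.comp tendsto_natCast_atTop_atTop).eventually_ge_atTop _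
  obtain ⟨X3, h3⟩ := Filter.eventually_atTop.1 hev
  refine ⟨max X1 (max X2 (max X3 1)), ?_⟩
  intro X hX q _ hq r y β hr hrL hrq hβ
  have hXX1 : X1 ≤ X := (le_max_left _ _).trans hX
  have hX' : max X2 (max X3 1) ≤ X := (le_max_right _ _).trans hX
  have hXX2 : X2 ≤ X := (le_max_left _ _).trans hX'
  have hX'' : max X3 1 ≤ X := (le_max_right _ _).trans hX'
  have hXX3 : X3 ≤ X := (le_max_left _ _).trans hX''
  have hXone : 1 ≤ X := (le_max_right _ _).trans hX''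
  have hX1 : (1 : ℝ) ≤ X := by exact_mod_cast hXone
  have hqX : q ≤ X := by
    have : (q : ℝ) ≤ X := by
      refine hq.trans ?_
      calc (X : ℝ) ^ (4 / 5 - ε) ≤ (X : ℝ) ^ (1 : ℝ) :=
            Real.rpow_le_rpow_of_exponent_le hX1 (by linarith)
        _ = X := Real.rpow_one _
    exact_mod_cast this
  obtain ⟨𝓑, hcard, hsum⟩ := h1 X hXX1 q hq r y β hr hrL hrq hβ
  have hL := h3 X hXX3
  obtain ⟨L, hLdef⟩ : ∃ L, L = Real.log X := ⟨_, rfl⟩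
  have h2' := h2 X hXX2 q hqX r
  rw [← hLdef] at hL hcard hsum hrL hβ h2' ⊢
  have hL1 : (1 : ℝ) ≤ L := by linarith
  have hL0 : (0 : ℝ) < L := by linarith
  have hX0 : (0 : ℝ) < X := by linarith
  obtain ⟨Q, hQ⟩ : ∃ Q : DirichletCharacter ℂ q → Prop, Q = fun χ =>
    χ ≠ 1 ∧ ∀ d : ℕ, d ∣ q → (d : ℝ) ≤ L ^ D1 → ¬ χ.FactorsThrough d := ⟨_, rfl⟩
  refine ⟨𝓑.filter Q, ?_, ?_, ?_⟩
  · refine le_trans ?_ hcard
    exact_mod_cast card_filter_le _ _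
  · intro χ hχ
    have := (mem_filter.mp hχ).2
    rw [hQ] at this
    exact this
  · have hs : (univ.filter (fun χ : DirichletCharacter ℂ q => χ ∉ 𝓑.filter Q ∧ χ ≠ 1)) ⊆
        univ.filter (fun χ : DirichletCharacter ℂ q => χ ∉ 𝓑 ∧ χ ≠ 1) ∪
          𝓑.filter (fun χ => ¬ Q χ ∧ χ ≠ 1) := by
      intro χ hχ
      rw [mem_filter, mem_filter] at hχ
      rw [mem_union, mem_filter, mem_filter]
      by_cases hb : χ ∈ 𝓑
      · exact Or.inr ⟨hb, fun hq => hχ.2.1 ⟨hb, hq⟩, hχ.2.2⟩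
      · exact Or.inl ⟨mem_univ _, hb, hχ.2.2⟩
    refine (sum_le_sum_of_subset_of_nonneg hs fun χ _ _ => by positivity).trans ?_
    have hui : ∀ s t : Finset (DirichletCharacter ℂ q),
        ∑ χ ∈ s ∪ t, ‖Tc X q (la X) (y / r + β) χ‖ ^ 2 ≤
          ∑ χ ∈ s, ‖Tc X q (la X) (y / r + β) χ‖ ^ 2 +
            ∑ χ ∈ t, ‖Tc X q (la X) (y / r + β) χ‖ ^ 2 := by
      intro s t
      have h9 := sum_union_inter (s₁ := s) (s₂ := t)
        (f := fun χ => ‖Tc X q (la X) (y / r + β) χ‖ ^ 2)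
      have h10 : 0 ≤ ∑ χ ∈ s ∩ t, ‖Tc X q (la X) (y / r + β) χ‖ ^ 2 :=
        sum_nonneg fun _ _ => by positivity
      linarith
    refine (hui _ _).trans ?_
    have hg := hsum (univ.filter (fun χ : DirichletCharacter ℂ q => χ ∉ 𝓑 ∧ χ ≠ 1))
      (by
        rw [disjoint_left]
        intro χ hχ hb
        exact (mem_filter.mp hχ).2.1 hb)
      (fun h => (mem_filter.mp h).2.2 rfl)
    have hb : ∑ χ ∈ 𝓑.filter (fun χ => ¬ Q χ ∧ χ ≠ 1), ‖Tc X q (la X) (y / r + β) χ‖ ^ 2 ≤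
        X ^ 2 / L ^ (A + 1) := by
      calc ∑ χ ∈ 𝓑.filter (fun χ => ¬ Q χ ∧ χ ≠ 1), ‖Tc X q (la X) (y / r + β) χ‖ ^ 2 ≤
          ∑ χ ∈ 𝓑.filter (fun χ => ¬ Q χ ∧ χ ≠ 1), (X / L ^ (A + C + 1)) ^ 2 := by
            refine sum_le_sum fun χ hχ => ?_
            have h4 := (mem_filter.mp hχ).2
            rw [hQ] at h4
            have h5 : ∃ d : ℕ, d ∣ q ∧ (d : ℝ) ≤ L ^ D1 ∧ χ.FactorsThrough d := by
              by_contra hcon
              push Not at hcon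
              exact h4.1 ⟨h4.2, hcon⟩
            obtain ⟨d, hd1, hd2, hd3⟩ := h5
            refine pow_le_pow_left₀ (norm_nonneg _) ?_ 2
            refine h2' d y β χ hr (hrL.trans (pow_le_pow_right₀ hL1 (le_max_left _ _))) hrq
              (hβ.trans ?_) h4.2 hd1 (hd2.trans (pow_le_pow_right₀ hL1 (le_max_right _ _))) hd3
            exact div_le_div_of_nonneg_right (pow_le_pow_right₀ hL1 (le_max_left _ _)) hX0.le
        _ = ((𝓑.filter (fun χ => ¬ Q χ ∧ χ ≠ 1)).card : ℝ) * (X / L ^ (A + C + 1)) ^ 2 := by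
            rw [sum_const, nsmul_eq_mul]
        _ ≤ L ^ C * (X / L ^ (A + C + 1)) ^ 2 := by
            refine mul_le_mul_of_nonneg_right (le_trans ?_ hcard) (by positivity)
            exact_mod_cast card_filter_le _ _
        _ ≤ X ^ 2 / L ^ (A + 1) := by
            rw [div_pow, ← mul_div_assoc, div_le_div_iff₀ (by positivity) (by positivity)]
            have h6 : L ^ C * L ^ (A + 1) ≤ (L ^ (A + C + 1)) ^ 2 := by
              rw [← pow_add, ← pow_mul]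
              exact pow_le_pow_right₀ hL1 (by omega)
            calc L ^ C * X ^ 2 * L ^ (A + 1) = X ^ 2 * (L ^ C * L ^ (A + 1)) := by ring
              _ ≤ X ^ 2 * (L ^ (A + C + 1)) ^ 2 := by gcongr
    refine (add_le_add hg hb).trans ?_
    have h7 : (X : ℝ) ^ 2 / L ^ (A + 1) = X ^ 2 / L ^ A / L := by
      rw [pow_succ L A, div_div]
    rw [h7, ← two_mul]
    have h8 : 0 ≤ (X : ℝ) ^ 2 / L ^ A := by positivity
    rw [← mul_div_assoc, div_le_iff₀ hL0]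
    nlinarith

end Pool.MP_dd84fd_nt.T7
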