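import Pool.Agent.Lib.MP_dd84fd_nt.T7.Defs
import Pool.Agent.Lib.MP_dd84fd_nt.L2G.CharOrth
import Pool.Agent.Lib.MP_dd84fd_nt.L2G.DivMom
import Pool.Agent.Lib.MP_dd84fd_nt.DivBound

/-!
T7-08 LvTwo (large values). L = log X, A(chi) = sum_{m<=64P} a_m chi(m), B(chi) = sum_{k<=K} b_k chi(k). Let D = C tau(q)(1+log q) <= X^(eps/64) (div_bound), c a constant exponent (from div_mom 10, 22) with
sum|b_k|^2 <= K L^c, sum_n |(a*a)(n)|^2 <= P^2 L^c (|(a*a)(n)| <= (..log)^2 tau(n)^11, n <= (64P)^2), also |sum|a_m|| <= P L^c.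
Put T1 = X^(eps/16) q^(1/4) P.
 Case 1: |A|^2 <= T1: sum |A|^2|B|^2 <= T1 (K+q) K L^c (char_ms) <= X^(eps/16) L^c q^(1/4) X (X/P+q) <= X^(eps/16) L^c (X^(1/5-eps/4) X^(9/5) + X^(1+(5/4)(4/5-eps))) <= 2 L^c X^(2-3eps/16). (P K <= X, P >= X^(1/5).)
 Case 2: S = {|A|^2 > T1}. h_hm for A^2 (length (64P)^2): sum_S |A|^4 <= (4096 P^2 + |S| D sqrt q) P^2 L^c; |A|^4 > T1^2 = X^(eps/8) sqrt q P^2 >= 2 D sqrt q P^2 L^c, so |S| D sqrt q P^2 L^c <= (1/2) sum_S|A|^4, hence sum_S |A|^4 <= 8192 P^4 L^c.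
  2a: |B|^2 > T2 := 2 D sqrt q K L^c: h_hm for B in the same way: sum_{2a}|B|^2 <= 2 K^2 L^c, so sum |A|^2|B|^2 <= (P/L^A1)^2 2K^2L^c <= 2 X^2 L^(c-2A1): choose A1 = A + c + 2.
  2b: |B|^2 <= T2: sum |A|^2|B|^2 <= T2 sum_S|A|^2 <= T2 T1^-1 sum_S|A|^4 <= 2 D sqrt q K L^c * 8192 P^4 L^c/(X^(eps/16) q^(1/4) P) = C D q^(1/4) (KP) P^2 L^(2c) X^(-eps/16) <= C X^(eps/64-eps/16) L^(2c) X^(1/5-eps/4) X X^(4/5).
-/

set_option autoImplicit false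

namespace Pool.MP_dd84fd_nt.T7

open Finset Pool.MP_67663b_nt.Odd Pool.MP_dd84fd_nt.L2G

private lemma lv_log (δ M : ℝ) (hδ : 0 < δ) (k : ℕ) : ∃ X0 : ℕ, ∀ X : ℕ, X0 ≤ X →
    M * Real.log X ^ k ≤ (X : ℝ) ^ δ := by
  have h1 : (fun x : ℝ => M * Real.log x ^ (k : ℝ)) =o[Filter.atTop] fun x : ℝ => x ^ δ :=
    (isLittleO_log_rpow_rpow_atTop (k : ℝ) hδ).const_mul_left M
  have h2 : ∀ᶠ x : ℝ in Filter.atTop, ‖M * Real.log x ^ (k : ℝ)‖ ≤ 1 * ‖x ^ δ‖ := h1.bound one_pos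
  have h3 : ∀ᶠ X : ℕ in Filter.atTop, M * Real.log X ^ k ≤ (X : ℝ) ^ δ := by
    filter_upwards [tendsto_natCast_atTop_atTop.eventually h2] with X hX
    rw [Real.rpow_natCast, one_mul, Real.norm_eq_abs, Real.norm_eq_abs,
      abs_of_nonneg (a := (X : ℝ) ^ δ) (by positivity)] at hX
    exact (le_abs_self _).trans hX
  exact Filter.eventually_atTop.1 h3

private lemma lv_tau (δ : ℝ) (hδ : 0 < δ) : ∃ C : ℝ, 0 < C ∧ ∀ X q : ℕ, q ≤ X → q ≠ 0 →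
    (q.divisors.card : ℝ) ≤ C * (X : ℝ) ^ δ := by
  obtain ⟨k, hk⟩ := exists_nat_gt (1 / δ)
  obtain ⟨C, hC1, hC⟩ := Pool.Agent.Lib.MP_dd84fd_nt.DivBound.div_bound (k + 1)
  refine ⟨C, by exact_mod_cast hC1, fun X q hqX hq => ?_⟩
  have h1 : (q.divisors.card : ℝ) ^ (k + 1) ≤ C * X := by
    have h2 := hC q hq
    have h3 : q.divisors.card ^ (k + 1) ≤ C * X := h2.trans (Nat.mul_le_mul_left _ hqX)
    exact_mod_cast h3
  have hX1 : (1 : ℝ) ≤ X := by exact_mod_cast (Nat.one_le_iff_ne_zero.2 hq).trans hqX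
  have hC1' : (1 : ℝ) ≤ C := by exact_mod_cast hC1
  have h4 : (C : ℝ) * X ≤ (C * (X : ℝ) ^ δ) ^ (k + 1) := by
    rw [mul_pow, ← Real.rpow_natCast ((X : ℝ) ^ δ), ← Real.rpow_mul (by linarith)]
    have h5 : (C : ℝ) ≤ (C : ℝ) ^ (k + 1) := by
      calc (C : ℝ) = (C : ℝ) ^ 1 := (pow_one _).symm
        _ ≤ (C : ℝ) ^ (k + 1) := pow_le_pow_right₀ hC1' (by omega)
    have h6 : (X : ℝ) ≤ (X : ℝ) ^ (δ * ((k + 1 : ℕ) : ℝ)) := by
      calc (X : ℝ) = (X : ℝ) ^ (1 : ℝ) := (Real.rpow_one _).symm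
        _ ≤ _ := by
            apply Real.rpow_le_rpow_of_exponent_le hX1
            push_cast
            rw [div_lt_iff₀ hδ] at hk
            nlinarith
    exact mul_le_mul h5 h6 (by positivity) (by positivity)
  exact le_of_pow_le_pow_left₀ (by omega) (by positivity) (h1.trans h4)

/-- the coefficients of the square -/
private noncomputable def lvc (N : ℕ) (a : ℕ → ℂ) (n : ℕ) : ℂ :=
  ∑ p ∈ (Icc 1 N ×ˢ Icc 1 N).filter (fun p => p.1 * p.2 = n), a p.1 * a p.2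

private lemma lvc_sq (q N : ℕ) [NeZero q] (a : ℕ → ℂ) (χ : DirichletCharacter ℂ q) :
    (∑ m ∈ Icc 1 N, a m * χ m) ^ 2 = ∑ n ∈ Icc 1 (N ^ 2), lvc N a n * χ n := by
  classical
  rw [sq, Finset.sum_mul_sum, ← Finset.sum_product']
  rw [← Finset.sum_fiberwise_of_maps_to (g := fun p : ℕ × ℕ => p.1 * p.2)
    (t := Icc 1 (N ^ 2))]
  · refine Finset.sum_congr rfl fun n _ => ?_
    unfold lvc
    rw [Finset.sum_mul]
    refine Finset.sum_congr rfl fun p hp => ?_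
    rw [mem_filter] at hp
    rw [← hp.2]
    push_cast
    rw [map_mul]
    ring
  · rintro ⟨x, y⟩ hp
    rw [mem_product, mem_Icc, mem_Icc] at hp
    simp only at hp ⊢
    rw [mem_Icc]
    exact ⟨Nat.mul_pos hp.1.1 hp.2.1, by rw [sq]; exact Nat.mul_le_mul hp.1.2 hp.2.2⟩

private lemma lvc_bound (N : ℕ) (a : ℕ → ℂ)
    (ha : ∀ n, 1 ≤ n → ‖a n‖ ≤ (1 + Real.log n) * (n.divisors.card : ℝ) ^ 5) (n : ℕ)
    (hn : 1 ≤ n) : ‖lvc N a n‖ ≤ (1 + Real.log n) ^ 2 * (n.divisors.card : ℝ) ^ 11 := by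
  classical
  have hlog : 0 ≤ Real.log n := Real.log_nonneg (by exact_mod_cast hn)
  unfold lvc
  refine (norm_sum_le _ _).trans ?_
  have h1 : ∀ p ∈ (Icc 1 N ×ˢ Icc 1 N).filter (fun p => p.1 * p.2 = n), ‖a p.1 * a p.2‖ ≤
      (1 + Real.log n) ^ 2 * (n.divisors.card : ℝ) ^ 10 := by
    rintro ⟨x, y⟩ hp
    rw [mem_filter, mem_product, mem_Icc, mem_Icc] at hp
    obtain ⟨⟨⟨hx1, hx2⟩, hy1, hy2⟩, hxy⟩ := hp
    simp only at hx1 hx2 hy1 hy2 hxy ⊢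
    have hb : ∀ z : ℕ, 1 ≤ z → z ∣ n → ‖a z‖ ≤ (1 + Real.log n) * (n.divisors.card : ℝ) ^ 5 := by
      intro z hz hzn
      refine (ha z hz).trans ?_
      have h2 : Real.log z ≤ Real.log n := Real.log_le_log (by exact_mod_cast hz)
        (by exact_mod_cast Nat.le_of_dvd hn hzn)
      have h3 : (z.divisors.card : ℝ) ≤ n.divisors.card := by
        exact_mod_cast Finset.card_le_card (Nat.divisors_subset_of_dvd (by omega) hzn)
      have h4 : 0 ≤ Real.log z := Real.log_natCast_nonneg z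
      gcongr
    rw [norm_mul]
    refine (mul_le_mul (hb x hx1 (Dvd.intro _ hxy)) (hb y hy1 (Dvd.intro_left _ hxy))
      (norm_nonneg _) (by positivity)).trans (le_of_eq ?_)
    ring
  refine (Finset.sum_le_sum h1).trans ?_
  rw [Finset.sum_const, nsmul_eq_mul]
  have h2 : (((Icc 1 N ×ˢ Icc 1 N).filter (fun p => p.1 * p.2 = n)).card : ℝ) ≤
      n.divisors.card := by
    have h3 : (Icc 1 N ×ˢ Icc 1 N).filter (fun p => p.1 * p.2 = n) ⊆ n.divisorsAntidiagonal := by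
      intro p hp
      rw [mem_filter] at hp
      rw [Nat.mem_divisorsAntidiagonal]
      exact ⟨hp.2, by omega⟩
    have h4 := Finset.card_le_card h3
    rw [← Nat.map_div_right_divisors, Finset.card_map] at h4
    exact_mod_cast h4
  calc (((Icc 1 N ×ˢ Icc 1 N).filter (fun p => p.1 * p.2 = n)).card : ℝ) *
        ((1 + Real.log n) ^ 2 * (n.divisors.card : ℝ) ^ 10)
      ≤ (n.divisors.card : ℝ) * ((1 + Real.log n) ^ 2 * (n.divisors.card : ℝ) ^ 10) :=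
        mul_le_mul_of_nonneg_right h2 (by positivity)
    _ = _ := by ring

/-- mean squares of coefficients -/
private lemma lv_sumsq (i j : ℕ) : ∃ c : ℕ, ∀ (N : ℕ), ∀ f : ℕ → ℂ,
    (∀ n, 1 ≤ n → ‖f n‖ ≤ (1 + Real.log n) ^ i * (n.divisors.card : ℝ) ^ j) →
    ∑ n ∈ Icc 1 N, ‖f n‖ ^ 2 ≤ N * (1 + Real.log N) ^ c := by
  obtain ⟨C, hC⟩ := div_mom (2 * j)
  refine ⟨2 * i + C, fun N f hf => ?_⟩
  rcases Nat.eq_zero_or_pos N with rfl | hN
  · simp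
  have hlogN : 0 ≤ Real.log N := Real.log_nonneg (by exact_mod_cast hN)
  have h1 : ∀ n ∈ Icc 1 N, ‖f n‖ ^ 2 ≤
      (1 + Real.log N) ^ (2 * i) * (n.divisors.card : ℝ) ^ (2 * j) := by
    intro n hn
    rw [mem_Icc] at hn
    have h2 := hf n hn.1
    have h3 : Real.log n ≤ Real.log N :=
      Real.log_le_log (by exact_mod_cast hn.1) (by exact_mod_cast hn.2)
    have h4 : 0 ≤ Real.log n := Real.log_natCast_nonneg n
    calc ‖f n‖ ^ 2 ≤ ((1 + Real.log n) ^ i * (n.divisors.card : ℝ) ^ j) ^ 2 :=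
          pow_le_pow_left₀ (norm_nonneg _) h2 2
      _ ≤ ((1 + Real.log N) ^ i * (n.divisors.card : ℝ) ^ j) ^ 2 := by gcongr
      _ = _ := by rw [mul_pow, ← pow_mul, ← pow_mul]; congr 2 <;> ring
  refine (Finset.sum_le_sum h1).trans ?_
  rw [← Finset.mul_sum]
  calc (1 + Real.log N) ^ (2 * i) * ∑ n ∈ Icc 1 N, (n.divisors.card : ℝ) ^ (2 * j)
      ≤ (1 + Real.log N) ^ (2 * i) * (N * (1 + Real.log N) ^ C) :=
        mul_le_mul_of_nonneg_left (hC N hN).1 (by positivity)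
    _ = _ := by rw [pow_add]; ring

/-- absorbing the off-diagonal terms -/
private lemma lv_half {ι : Type*} (S : Finset ι) (F : ι → ℝ) (T N E W : ℝ)
    (h1 : ∀ i ∈ S, T ≤ F i) (h2 : ∑ i ∈ S, F i ≤ (N + S.card * E) * W) (h3 : 2 * (E * W) ≤ T) :
    ∑ i ∈ S, F i ≤ 2 * (N * W) := by
  have h4 : (S.card : ℝ) * T ≤ ∑ i ∈ S, F i := by
    calc (S.card : ℝ) * T = ∑ i ∈ S, T := by rw [Finset.sum_const, nsmul_eq_mul]
      _ ≤ _ := Finset.sum_le_sum h1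
  have h5 : (S.card : ℝ) * (2 * (E * W)) ≤ S.card * T :=
    mul_le_mul_of_nonneg_left h3 (by positivity)
  nlinarith

/-- the combinatorial core of the large values argument -/
private lemma lv_core {ι : Type*} (G : Finset ι) (x y : ι → ℝ) (hx : ∀ i, 0 ≤ x i)
    (hy : ∀ i, 0 ≤ y i) (P K D T1 T2 U W1 W2 V : ℝ) (hT1 : 0 < T1)
    (hT2 : 0 ≤ T2)
    (hV : ∀ i ∈ G, x i ≤ V) (hV0 : 0 ≤ V)
    (hms : ∑ i ∈ G, y i ≤ U)
    (hmx : ∀ S ⊆ G, ∑ i ∈ S, x i ^ 2 ≤ (P + S.card * D) * W1)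
    (hmy : ∀ S ⊆ G, ∑ i ∈ S, y i ≤ (K + S.card * D) * W2)
    (h1 : 2 * (D * W1) ≤ T1 ^ 2) (h2 : 2 * (D * W2) ≤ T2) :
    ∑ i ∈ G, x i * y i ≤ T1 * U + V * (2 * (K * W2)) + T2 / T1 * (2 * (P * W1)) := by
  classical
  have hsplit : ∑ i ∈ G, x i * y i =
      ∑ i ∈ G.filter (fun i => x i ≤ T1), x i * y i +
      (∑ i ∈ (G.filter (fun i => ¬ x i ≤ T1)).filter (fun i => ¬ y i ≤ T2), x i * y i +
       ∑ i ∈ (G.filter (fun i => ¬ x i ≤ T1)).filter (fun i => y i ≤ T2), x i * y i) := by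
    rw [add_comm (∑ i ∈ (G.filter (fun i => ¬ x i ≤ T1)).filter (fun i => ¬ y i ≤ T2), x i * y i),
      Finset.sum_filter_add_sum_filter_not, Finset.sum_filter_add_sum_filter_not]
  have hc1 : ∑ i ∈ G.filter (fun i => x i ≤ T1), x i * y i ≤ T1 * U := by
    calc ∑ i ∈ G.filter (fun i => x i ≤ T1), x i * y i
        ≤ ∑ i ∈ G.filter (fun i => x i ≤ T1), T1 * y i := by
          refine Finset.sum_le_sum fun i hi => ?_
          exact mul_le_mul_of_nonneg_right (mem_filter.1 hi).2 (hy i)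
      _ ≤ ∑ i ∈ G, T1 * y i := Finset.sum_le_sum_of_subset_of_nonneg (Finset.filter_subset _ _)
          fun i _ _ => mul_nonneg hT1.le (hy i)
      _ = T1 * ∑ i ∈ G, y i := (Finset.mul_sum _ _ _).symm
      _ ≤ T1 * U := mul_le_mul_of_nonneg_left hms hT1.le
  have hS4 : ∑ i ∈ G.filter (fun i => ¬ x i ≤ T1), x i ^ 2 ≤ 2 * (P * W1) := by
    refine lv_half _ _ (T1 ^ 2) P D W1 (fun i hi => ?_) (hmx _ (Finset.filter_subset _ _)) h1
    have := (mem_filter.1 hi).2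
    push Not at this
    exact pow_le_pow_left₀ hT1.le this.le 2
  have hc2 : ∑ i ∈ (G.filter (fun i => ¬ x i ≤ T1)).filter (fun i => ¬ y i ≤ T2), x i * y i ≤
      V * (2 * (K * W2)) := by
    have h3 : ∑ i ∈ (G.filter (fun i => ¬ x i ≤ T1)).filter (fun i => ¬ y i ≤ T2), y i ≤
        2 * (K * W2) := by
      refine lv_half _ _ T2 K D W2 (fun i hi => ?_)
        (hmy _ ((Finset.filter_subset _ _).trans (Finset.filter_subset _ _))) h2
      have := (mem_filter.1 hi).2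
      push Not at this
      exact this.le
    calc ∑ i ∈ (G.filter (fun i => ¬ x i ≤ T1)).filter (fun i => ¬ y i ≤ T2), x i * y i
        ≤ ∑ i ∈ (G.filter (fun i => ¬ x i ≤ T1)).filter (fun i => ¬ y i ≤ T2), V * y i := by
          refine Finset.sum_le_sum fun i hi => ?_
          exact mul_le_mul_of_nonneg_right
            (hV i (mem_filter.1 (mem_filter.1 hi).1).1) (hy i)
      _ = V * ∑ i ∈ (G.filter (fun i => ¬ x i ≤ T1)).filter (fun i => ¬ y i ≤ T2), y i :=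
          (Finset.mul_sum _ _ _).symm
      _ ≤ _ := mul_le_mul_of_nonneg_left h3 hV0
  have hc3 : ∑ i ∈ (G.filter (fun i => ¬ x i ≤ T1)).filter (fun i => y i ≤ T2), x i * y i ≤
      T2 / T1 * (2 * (P * W1)) := by
    calc ∑ i ∈ (G.filter (fun i => ¬ x i ≤ T1)).filter (fun i => y i ≤ T2), x i * y i
        ≤ ∑ i ∈ (G.filter (fun i => ¬ x i ≤ T1)).filter (fun i => y i ≤ T2),
            T2 / T1 * x i ^ 2 := by
          refine Finset.sum_le_sum fun i hi => ?_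
          have h3 := (mem_filter.1 hi).2
          have h4 := (mem_filter.1 (mem_filter.1 hi).1).2
          push Not at h4
          have h5 : x i ≤ x i ^ 2 / T1 := by
            rw [le_div_iff₀ hT1, sq]
            exact mul_le_mul_of_nonneg_left h4.le (hx i)
          calc x i * y i ≤ x i * T2 := mul_le_mul_of_nonneg_left h3 (hx i)
            _ ≤ x i ^ 2 / T1 * T2 := mul_le_mul_of_nonneg_right h5 hT2
            _ = T2 / T1 * x i ^ 2 := by ring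
      _ ≤ ∑ i ∈ G.filter (fun i => ¬ x i ≤ T1), T2 / T1 * x i ^ 2 :=
          Finset.sum_le_sum_of_subset_of_nonneg (Finset.filter_subset _ _)
            fun i _ _ => by positivity
      _ = T2 / T1 * ∑ i ∈ G.filter (fun i => ¬ x i ≤ T1), x i ^ 2 :=
          (Finset.mul_sum _ _ _).symm
      _ ≤ _ := mul_le_mul_of_nonneg_left hS4 (by positivity)
  rw [hsplit]
  linarith

/-- the numerical inequalities -/
private lemma lv_num (X x Y Q p k D M1 M2 : ℝ) (hX : X = x ^ 5) (hx : 0 < x) (hY : 1 ≤ Y)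
    (hQ : 0 < Q) (hp : 0 < p) (hk : 0 ≤ k) (hxp : x ≤ p) (hpx : p ≤ x ^ 2)
    (hpk : p * k ≤ X) (hQY : Q * Y ^ 16 ≤ x) (hD : D ≤ Y * Q ^ 2) (hM1 : 1 ≤ M1) (hM2 : 1 ≤ M2)
    (hM : 49152 * (M1 ^ 2 * M2) ≤ Y) :
    (Y ^ 4 * Q * p) * ((k + Q ^ 4) * (k * M1)) ≤ X ^ 2 / (3 * M2) ∧
    (2 * (D * (k * M1))) / (Y ^ 4 * Q * p) * (2 * (4096 * p ^ 2 * (p ^ 2 * M1))) ≤
      X ^ 2 / (3 * M2) ∧
    2 * (D * (p ^ 2 * M1)) ≤ (Y ^ 4 * Q * p) ^ 2 := by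
  have hX0 : 0 < X := by rw [hX]; positivity
  have hY0 : 0 < Y := by linarith
  have hM12 : M1 ≤ M1 ^ 2 * M2 := by
    have h1 : M1 ≤ M1 ^ 2 := by nlinarith
    have h2 : M1 ^ 2 ≤ M1 ^ 2 * M2 := by nlinarith [sq_nonneg M1]
    linarith
  have hM1M2 : M1 * M2 ≤ M1 ^ 2 * M2 := by
    have h1 : M1 ≤ M1 ^ 2 := by nlinarith
    exact mul_le_mul_of_nonneg_right h1 (by linarith)
  have hkx : k ≤ x ^ 4 := by
    by_contra h
    push Not at h
    have h1 : x * x ^ 4 < p * k := by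
      have := mul_lt_mul' hxp h (by positivity) hp
      exact this
    rw [hX] at hpk
    nlinarith
  have hQk : Q * Y ^ 16 * k ≤ X := by
    calc Q * Y ^ 16 * k ≤ x * x ^ 4 := mul_le_mul hQY hkx hk hx.le
      _ = X := by rw [hX]; ring
  have hY16 : 1 ≤ Y ^ 16 := one_le_pow₀ hY
  have hQx : Q ≤ x := by
    calc Q = Q * 1 := (mul_one _).symm
      _ ≤ Q * Y ^ 16 := mul_le_mul_of_nonneg_left hY16 hQ.le
      _ ≤ x := hQY
  have hQ5 : Q * Y ^ 16 * Q ^ 4 ≤ X := by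
    calc Q * Y ^ 16 * Q ^ 4 ≤ x * x ^ 4 :=
          mul_le_mul hQY (pow_le_pow_left₀ hQ.le hQx 4) (by positivity) hx.le
      _ = X := by rw [hX]; ring
  refine ⟨?_, ?_, ?_⟩
  · rw [le_div_iff₀ (by positivity)]
    have h1 : (Y ^ 4 * Q * p) * ((k + Q ^ 4) * (k * M1)) * (3 * M2) * Y ^ 12 =
        (3 * (M1 * M2)) * (p * k) * (Q * Y ^ 16 * k + Q * Y ^ 16 * Q ^ 4) := by ring
    have h2 : (3 * (M1 * M2)) * (p * k) * (Q * Y ^ 16 * k + Q * Y ^ 16 * Q ^ 4) ≤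
        (3 * (M1 * M2)) * X * (X + X) := by
      have h3 : 0 ≤ p * k := by positivity
      gcongr
    have h4 : (3 * (M1 * M2)) * X * (X + X) ≤ X ^ 2 * Y := by
      have h5 : 6 * (M1 * M2) ≤ Y := by nlinarith
      nlinarith [mul_le_mul_of_nonneg_left h5 (sq_nonneg X)]
    have h5 : X ^ 2 * Y ≤ X ^ 2 * Y ^ 12 := by
      apply mul_le_mul_of_nonneg_left _ (sq_nonneg X)
      calc Y = Y ^ 1 := (pow_one Y).symm
        _ ≤ Y ^ 12 := pow_le_pow_right₀ hY (by norm_num)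
    have h6 : 0 < Y ^ 12 := by positivity
    exact le_of_mul_le_mul_right (by rw [h1]; linarith) h6
  · have h0 : (2 * (D * (k * M1))) / (Y ^ 4 * Q * p) ≤
        (2 * ((Y * Q ^ 2) * (k * M1))) / (Y ^ 4 * Q * p) := by
      gcongr
    refine (mul_le_mul_of_nonneg_right h0 (by positivity)).trans ?_
    have h1 : (2 * ((Y * Q ^ 2) * (k * M1))) / (Y ^ 4 * Q * p) *
        (2 * (4096 * p ^ 2 * (p ^ 2 * M1))) = 16384 * M1 ^ 2 * Q * (p * k) * p ^ 2 / Y ^ 3 := by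
      field_simp
      ring
    rw [h1, div_le_div_iff₀ (by positivity) (by positivity)]
    have h2 : 16384 * M1 ^ 2 * Q * (p * k) * p ^ 2 * (3 * M2) * Y ^ 16 =
        49152 * (M1 ^ 2 * M2) * (Q * Y ^ 16) * (p * k) * p ^ 2 := by ring
    have h3 : 49152 * (M1 ^ 2 * M2) * (Q * Y ^ 16) * (p * k) * p ^ 2 ≤
        Y * x * X * (x ^ 2) ^ 2 := by
      have h3 : 0 ≤ p * k := by positivity
      gcongr
    have h4 : Y * x * X * (x ^ 2) ^ 2 = Y * X ^ 2 := by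
      rw [hX]; ring
    have h5 : Y * X ^ 2 ≤ X ^ 2 * Y ^ 3 * Y ^ 16 := by
      have : Y ≤ Y ^ 19 := by
        calc Y = Y ^ 1 := (pow_one Y).symm
          _ ≤ Y ^ 19 := pow_le_pow_right₀ hY (by norm_num)
      nlinarith [mul_le_mul_of_nonneg_left this (sq_nonneg X)]
    have h6 : 0 < Y ^ 16 := by positivity
    exact le_of_mul_le_mul_right (by rw [h2]; linarith) h6
  · have h1 : 2 * (D * (p ^ 2 * M1)) ≤ 2 * ((Y * Q ^ 2) * (p ^ 2 * M1)) := by gcongr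
    refine h1.trans ?_
    have h2 : 2 * M1 ≤ Y := by nlinarith
    have h3 : Y * Y ≤ Y ^ 8 := by
      calc Y * Y = Y ^ 2 := by ring
        _ ≤ Y ^ 8 := pow_le_pow_right₀ hY (by norm_num)
    have h4 : 2 * ((Y * Q ^ 2) * (p ^ 2 * M1)) = (2 * M1) * Y * (Q ^ 2 * p ^ 2) := by ring
    have h5 : (Y ^ 4 * Q * p) ^ 2 = Y ^ 8 * (Q ^ 2 * p ^ 2) := by ring
    rw [h4, h5]
    apply mul_le_mul_of_nonneg_right _ (by positivity)
    nlinarith

theorem lv_two_core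
    (h_hm : ∃ C : ℝ, 0 < C ∧ ∀ (q : ℕ) [NeZero q] (N : ℕ) (c : ℕ → ℂ)
    (S : Finset (DirichletCharacter ℂ q)),
    ∑ χ ∈ S, ‖∑ n ∈ Icc 1 N, c n * χ n‖ ^ 2 ≤
      ((N : ℝ) + S.card * (C * (q.divisors.card : ℝ) * Real.sqrt q * (1 + Real.log q))) *
        ∑ n ∈ Icc 1 N, ‖c n‖ ^ 2)
    (ε : ℝ) (hε : 0 < ε) (hε1 : ε < 1) (A : ℕ) : ∃ A1 X0 : ℕ, ∀ X : ℕ, X0 ≤ X →
    ∀ (q : ℕ) [NeZero q], (q : ℝ) ≤ (X : ℝ) ^ (4 / 5 - ε) → ∀ P K : ℕ,
    (X : ℝ) ^ (1 / 5 : ℝ) ≤ P → (P : ℝ) ≤ (X : ℝ) ^ (2 / 5 : ℝ) → P * K ≤ X →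
    ∀ a b : ℕ → ℂ, (∀ n, 1 ≤ n → ‖a n‖ ≤ (1 + Real.log n) * (n.divisors.card : ℝ) ^ 5) →
    (∀ n, 1 ≤ n → ‖b n‖ ≤ (1 + Real.log n) * (n.divisors.card : ℝ) ^ 5) →
    ∀ 𝓖 : Finset (DirichletCharacter ℂ q),
    (∀ χ ∈ 𝓖, ‖∑ m ∈ Icc 1 (64 * P), a m * χ m‖ ≤ P / Real.log X ^ A1) →
    ∑ χ ∈ 𝓖, ‖∑ m ∈ Icc 1 (64 * P), a m * χ m‖ ^ 2 * ‖∑ k ∈ Icc 1 K, b k * χ k‖ ^ 2 ≤
      X ^ 2 / Real.log X ^ A := by
  classical
  obtain ⟨C, hC0, hC⟩ := h_hm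
  obtain ⟨c1, hc1⟩ := lv_sumsq 1 5
  obtain ⟨c2, hc2⟩ := lv_sumsq 2 11
  obtain ⟨Ct, hCt0, hCt⟩ := lv_tau (ε / 128) (by positivity)
  obtain ⟨c, hc⟩ : ∃ c : ℕ, c = 2 * c1 + 2 * c2 + 2 := ⟨_, rfl⟩
  obtain ⟨X1, hX1⟩ := lv_log (ε / 64) 49152 (by positivity) (2 * c + A)
  obtain ⟨X2, hX2⟩ := lv_log (ε / 128) (2 * C * Ct) (by positivity) 1
  obtain ⟨X3, hX3⟩ := Filter.eventually_atTop.1
    (tendsto_natCast_atTop_atTop.eventually
      (Real.tendsto_log_atTop.eventually_ge_atTop (64 : ℝ)))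
  refine ⟨A + c + 2, X1 + X2 + X3 + 2, ?_⟩
  intro X hX q _ hq P K hP1 hP2 hPK a b ha hb 𝓖 h𝓖
  have hL64 : 64 ≤ Real.log X := hX3 X (by omega)
  have hE1 := hX1 X (by omega)
  have hE2 := hX2 X (by omega)
  obtain ⟨L, hL⟩ : ∃ L : ℝ, L = Real.log X := ⟨_, rfl⟩
  rw [← hL] at hL64 hE1 hE2 h𝓖 ⊢
  have hXR : (2 : ℝ) ≤ X := by exact_mod_cast (by omega : 2 ≤ X)
  have hXp : (0 : ℝ) < X := by linarith
  have hX1' : (1 : ℝ) ≤ X := by linarith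
  have hL1 : 1 ≤ L := by linarith
  have hLp : 0 < L := by linarith
  have hpw : ∀ {i j : ℕ}, i ≤ j → L ^ i ≤ L ^ j := fun h => pow_le_pow_right₀ hL1 h
  have hP0 : 0 < (P : ℝ) := lt_of_lt_of_le (by positivity) hP1
  have hPN : 1 ≤ P := by exact_mod_cast hP0
  have hPX : (P : ℝ) ≤ X := by
    refine hP2.trans ?_
    calc (X : ℝ) ^ (2 / 5 : ℝ) ≤ (X : ℝ) ^ (1 : ℝ) :=
          Real.rpow_le_rpow_of_exponent_le hX1' (by norm_num)
      _ = X := Real.rpow_one _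
  have hKX : (K : ℝ) ≤ X := by
    have h1 : K ≤ X := (Nat.le_mul_of_pos_left K hPN).trans hPK
    exact_mod_cast h1
  have hq1 : (1 : ℝ) ≤ q := by exact_mod_cast Nat.one_le_iff_ne_zero.2 (NeZero.ne q)
  have hqX : (q : ℝ) ≤ X := by
    refine hq.trans ?_
    calc (X : ℝ) ^ (4 / 5 - ε) ≤ (X : ℝ) ^ (1 : ℝ) :=
          Real.rpow_le_rpow_of_exponent_le hX1' (by linarith)
      _ = X := Real.rpow_one _
  obtain ⟨x, hx⟩ : ∃ x : ℝ, x = (X : ℝ) ^ (1 / 5 : ℝ) := ⟨_, rfl⟩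
  obtain ⟨Y, hY⟩ : ∃ Y : ℝ, Y = (X : ℝ) ^ (ε / 64) := ⟨_, rfl⟩
  obtain ⟨Q, hQ⟩ : ∃ Q : ℝ, Q = (q : ℝ) ^ (1 / 4 : ℝ) := ⟨_, rfl⟩
  have hx0 : 0 < x := by rw [hx]; positivity
  have hQ0 : 0 < Q := by rw [hQ]; positivity
  have hY1 : 1 ≤ Y := by rw [hY]; exact Real.one_le_rpow hX1' (by positivity)
  have hXx : (X : ℝ) = x ^ 5 := by
    rw [hx, ← Real.rpow_natCast, ← Real.rpow_mul hXp.le]
    norm_num
  have hx2 : (X : ℝ) ^ (2 / 5 : ℝ) = x ^ 2 := by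
    rw [hx, ← Real.rpow_natCast ((X : ℝ) ^ (1 / 5 : ℝ)), ← Real.rpow_mul hXp.le]
    norm_num
  have hQ4 : (q : ℝ) = Q ^ 4 := by
    rw [hQ, ← Real.rpow_natCast, ← Real.rpow_mul (by linarith)]
    norm_num
  have hQ2 : Real.sqrt q = Q ^ 2 := by
    rw [hQ4, show Q ^ 4 = (Q ^ 2) ^ 2 by ring, Real.sqrt_sq (by positivity)]
  have hQY : Q * Y ^ 16 ≤ x := by
    have h1 : Q ≤ (X : ℝ) ^ (1 / 5 - ε / 4) := by
      rw [hQ]
      calc (q : ℝ) ^ (1 / 4 : ℝ) ≤ ((X : ℝ) ^ (4 / 5 - ε)) ^ (1 / 4 : ℝ) :=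
            Real.rpow_le_rpow (by linarith) hq (by norm_num)
        _ = (X : ℝ) ^ (1 / 5 - ε / 4) := by
            rw [← Real.rpow_mul hXp.le]
            congr 1
            ring
    have h2 : Y ^ 16 = (X : ℝ) ^ (ε / 4) := by
      rw [hY, ← Real.rpow_natCast, ← Real.rpow_mul hXp.le]
      congr 1
      push_cast
      ring
    rw [h2, hx]
    calc Q * (X : ℝ) ^ (ε / 4) ≤ (X : ℝ) ^ (1 / 5 - ε / 4) * (X : ℝ) ^ (ε / 4) :=
          mul_le_mul_of_nonneg_right h1 (by positivity)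
      _ = (X : ℝ) ^ (1 / 5 : ℝ) := by
          rw [← Real.rpow_add hXp]
          congr 1
          ring
  obtain ⟨D, hD⟩ : ∃ D : ℝ, D = C * (q.divisors.card : ℝ) * Real.sqrt q * (1 + Real.log q) :=
    ⟨_, rfl⟩
  have hlogq : 0 ≤ Real.log q := Real.log_nonneg hq1
  have hD0 : 0 ≤ D := by
    rw [hD]
    exact mul_nonneg (mul_nonneg (mul_nonneg hC0.le (Nat.cast_nonneg _)) (Real.sqrt_nonneg _))
      (by linarith)
  have hDY : D ≤ Y * Q ^ 2 := by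
    have h1 : (q.divisors.card : ℝ) ≤ Ct * (X : ℝ) ^ (ε / 128) :=
      hCt X q (by exact_mod_cast hqX) (NeZero.ne q)
    have h2 : 1 + Real.log q ≤ 2 * L := by
      have : Real.log q ≤ L := by rw [hL]; exact Real.log_le_log (by linarith) hqX
      linarith
    have h3 : (2 * C * Ct * L ^ 1) * (X : ℝ) ^ (ε / 128) ≤ Y := by
      calc (2 * C * Ct * L ^ 1) * (X : ℝ) ^ (ε / 128) ≤
            (X : ℝ) ^ (ε / 128) * (X : ℝ) ^ (ε / 128) :=
            mul_le_mul_of_nonneg_right hE2 (by positivity)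
        _ = Y := by
            rw [hY, ← Real.rpow_add hXp]
            congr 1
            ring
    rw [hD, hQ2]
    calc C * (q.divisors.card : ℝ) * Q ^ 2 * (1 + Real.log q) ≤
          C * (Ct * (X : ℝ) ^ (ε / 128)) * Q ^ 2 * (2 * L) := by gcongr
      _ = ((2 * C * Ct * L ^ 1) * (X : ℝ) ^ (ε / 128)) * Q ^ 2 := by ring
      _ ≤ Y * Q ^ 2 := mul_le_mul_of_nonneg_right h3 (by positivity)
  -- the coefficients
  have hW2 : ∑ n ∈ Icc 1 K, ‖b n‖ ^ 2 ≤ K * L ^ c := by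
    refine (hc1 K b (fun n hn => by rw [pow_one]; exact hb n hn)).trans ?_
    apply mul_le_mul_of_nonneg_left _ (by positivity)
    rcases Nat.eq_zero_or_pos K with hK | hK
    · rw [hK]
      simp only [Nat.cast_zero, Real.log_zero, add_zero, one_pow]
      exact one_le_pow₀ hL1
    · have h1 : 1 + Real.log K ≤ L ^ 2 := by
        have h2 : Real.log K ≤ L := by
          rw [hL]; exact Real.log_le_log (by exact_mod_cast hK) hKX
        nlinarith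
      have h3 : 0 ≤ Real.log K := Real.log_natCast_nonneg K
      calc (1 + Real.log K) ^ c1 ≤ (L ^ 2) ^ c1 := pow_le_pow_left₀ (by positivity) h1 _
        _ = L ^ (2 * c1) := (pow_mul _ _ _).symm
        _ ≤ L ^ c := hpw (by omega)
  have hW1 : ∑ n ∈ Icc 1 ((64 * P) ^ 2), ‖lvc (64 * P) a n‖ ^ 2 ≤ (P : ℝ) ^ 2 * L ^ c := by
    refine (hc2 ((64 * P) ^ 2) (lvc (64 * P) a) (fun n hn => lvc_bound _ a ha n hn)).trans ?_
    have h1 : Real.log (((64 * P) ^ 2 : ℕ) : ℝ) ≤ 2 * (63 + L) := by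
      push_cast
      rw [Real.log_pow, Real.log_mul (by norm_num) (by linarith)]
      have h2 : Real.log 64 ≤ 63 := by
        have := Real.log_le_sub_one_of_pos (by norm_num : (0 : ℝ) < 64)
        linarith
      have h3 : Real.log P ≤ L := by rw [hL]; exact Real.log_le_log hP0 hPX
      push_cast
      linarith
    have h2 : 0 ≤ Real.log (((64 * P) ^ 2 : ℕ) : ℝ) := Real.log_natCast_nonneg _
    have h3 : 1 + Real.log (((64 * P) ^ 2 : ℕ) : ℝ) ≤ L ^ 2 := by nlinarith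
    have h4 : (1 + Real.log (((64 * P) ^ 2 : ℕ) : ℝ)) ^ c2 ≤ L ^ (2 * c2) := by
      rw [pow_mul]
      exact pow_le_pow_left₀ (by positivity) h3 _
    have h5 : (4096 : ℝ) ≤ L ^ 2 := by nlinarith
    calc (((64 * P) ^ 2 : ℕ) : ℝ) * (1 + Real.log (((64 * P) ^ 2 : ℕ) : ℝ)) ^ c2
        ≤ (((64 * P) ^ 2 : ℕ) : ℝ) * L ^ (2 * c2) :=
          mul_le_mul_of_nonneg_left h4 (by positivity)
      _ = (P : ℝ) ^ 2 * (4096 * L ^ (2 * c2)) := by push_cast; ring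
      _ ≤ (P : ℝ) ^ 2 * (L ^ 2 * L ^ (2 * c2)) := by gcongr
      _ = (P : ℝ) ^ 2 * L ^ (2 + 2 * c2) := by rw [pow_add]
      _ ≤ (P : ℝ) ^ 2 * L ^ c := by
          apply mul_le_mul_of_nonneg_left (hpw (by omega)) (by positivity)
  -- numerical
  have hK0 : (0 : ℝ) ≤ K := by positivity
  have hPK' : (P : ℝ) * K ≤ X := by exact_mod_cast hPK
  have hMM : 49152 * ((L ^ c) ^ 2 * L ^ A) ≤ Y := by
    rw [hY, ← pow_mul, ← pow_add, mul_comm c 2]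
    exact hE1
  obtain ⟨hN1, hN3, hN4⟩ := lv_num X x Y Q P K D (L ^ c) (L ^ A) hXx hx0 hY1 hQ0 hP0 hK0
    (by rw [hx]; exact hP1) (by rw [← hx2]; exact hP2) hPK' hQY hDY (one_le_pow₀ hL1)
    (one_le_pow₀ hL1) hMM
  have hT1 : 0 < Y ^ 4 * Q * P := by positivity
  have hmain := lv_core 𝓖 (fun χ => ‖∑ m ∈ Icc 1 (64 * P), a m * χ m‖ ^ 2)
    (fun χ => ‖∑ k ∈ Icc 1 K, b k * χ k‖ ^ 2) (fun _ => by positivity) (fun _ => by positivity)
    (4096 * (P : ℝ) ^ 2) K D (Y ^ 4 * Q * P) (2 * (D * (K * L ^ c)))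
    (((K : ℝ) + Q ^ 4) * (K * L ^ c)) ((P : ℝ) ^ 2 * L ^ c) (K * L ^ c)
    ((P / L ^ (A + c + 2)) ^ 2) hT1 (by positivity)
    (fun χ hχ => pow_le_pow_left₀ (norm_nonneg _) (h𝓖 χ hχ) 2) (by positivity) ?_ ?_ ?_ hN4
    (le_refl _)
  · have hN2 : (P / L ^ (A + c + 2)) ^ 2 * (2 * (K * (K * L ^ c))) ≤
        X ^ 2 / (3 * L ^ A) := by
      have h1 : (P / L ^ (A + c + 2)) ^ 2 * (2 * (K * (K * L ^ c))) =
          2 * (P * K) ^ 2 * L ^ c / (L ^ (A + c + 2)) ^ 2 := by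
        field_simp
      rw [h1, div_le_div_iff₀ (by positivity) (by positivity)]
      have h2 : (P * K : ℝ) ^ 2 ≤ X ^ 2 := pow_le_pow_left₀ (by positivity) hPK' 2
      have h3 : 2 * L ^ c * (3 * L ^ A) ≤ (L ^ (A + c + 2)) ^ 2 := by
        calc 2 * L ^ c * (3 * L ^ A) = 6 * L ^ (A + c) := by rw [pow_add]; ring
          _ ≤ L * L ^ (A + c) := by gcongr; linarith
          _ = L ^ (A + c + 1) := by rw [pow_succ]; ring
          _ ≤ L ^ ((A + c + 2) * 2) := hpw (by omega)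
          _ = (L ^ (A + c + 2)) ^ 2 := pow_mul _ _ _
      calc 2 * (P * K : ℝ) ^ 2 * L ^ c * (3 * L ^ A) =
            (P * K : ℝ) ^ 2 * (2 * L ^ c * (3 * L ^ A)) := by ring
        _ ≤ X ^ 2 * (L ^ (A + c + 2)) ^ 2 := mul_le_mul h2 h3 (by positivity) (by positivity)
    have hfin : (X : ℝ) ^ 2 / (3 * L ^ A) + X ^ 2 / (3 * L ^ A) + X ^ 2 / (3 * L ^ A) =
        X ^ 2 / L ^ A := by
      field_simp
      ring
    refine hmain.trans ?_
    rw [← hfin]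
    exact add_le_add (add_le_add hN1 hN2) hN3
  · calc ∑ χ ∈ 𝓖, ‖∑ k ∈ Icc 1 K, b k * χ k‖ ^ 2
        ≤ ∑ χ : DirichletCharacter ℂ q, ‖∑ k ∈ Icc 1 K, b k * χ k‖ ^ 2 :=
          Finset.sum_le_sum_of_subset_of_nonneg (Finset.subset_univ _)
            fun _ _ _ => by positivity
      _ ≤ ((K : ℝ) + q) * ∑ n ∈ Icc 1 K, ‖b n‖ ^ 2 := by
          have h1 := char_ms q 0 K b
          have h2 : Ioc 0 (0 + K) = Icc 1 K := by
            ext x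
            simp only [Finset.mem_Ioc, Finset.mem_Icc]
            omega
          rw [h2] at h1
          exact h1
      _ ≤ ((K : ℝ) + Q ^ 4) * (K * L ^ c) := by
          rw [← hQ4]
          exact mul_le_mul_of_nonneg_left hW2 (by positivity)
  · intro S _
    have h1 := hC q ((64 * P) ^ 2) (lvc (64 * P) a) S
    rw [← hD] at h1
    have h2 : ∑ χ ∈ S, (‖∑ m ∈ Icc 1 (64 * P), a m * χ m‖ ^ 2) ^ 2 =
        ∑ χ ∈ S, ‖∑ n ∈ Icc 1 ((64 * P) ^ 2), lvc (64 * P) a n * χ n‖ ^ 2 := by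
      refine Finset.sum_congr rfl fun χ _ => ?_
      rw [← lvc_sq q (64 * P) a χ, norm_pow]
    rw [h2]
    refine h1.trans ?_
    have h3 : ((((64 * P) ^ 2 : ℕ) : ℝ)) = 4096 * (P : ℝ) ^ 2 := by push_cast; ring
    rw [h3]
    exact mul_le_mul_of_nonneg_left hW1
      (add_nonneg (by positivity) (mul_nonneg (Nat.cast_nonneg _) hD0))
  · intro S _
    have h1 := hC q K b S
    rw [← hD] at h1
    exact h1.trans (mul_le_mul_of_nonneg_left hW2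
      (add_nonneg hK0 (mul_nonneg (Nat.cast_nonneg _) hD0)))

end Pool.MP_dd84fd_nt.T7
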