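import Pool.Agent.Lib.MP_dd84fd_nt.T7.Defs
import Pool.Agent.Lib.MP_67663b_nt.OddB.Mert

/-!
T7-22 SvRankin (Rankin's trick). w = wS X, d = 1/log w. The sum is <= X^(-d/40) sum_{e | prod_{p<w} p} e^(d-1) = exp(-d L/40) prod_{p<w} (1 + p^(d-1)) <= exp(-dL/40 + sum_{p<w} p^(d-1)), and p^d <= e for p < w, so
sum p^(d-1) <= e sum_{p<w} 1/p <= e (log log w + C) (Mertens, OddB/Mert or a crude dyadic Chebyshev argument). log w <= L/LL^2 + 1, so d L/40 >= LL^2/41 for X large. Total <= C L^3 exp(-LL^2/41) <= L^-A.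
(Similar: E2/Rankin.lean.)
-/

set_option autoImplicit false

namespace Pool.MP_dd84fd_nt.T7

open Finset Pool.MP_67663b_nt.Odd Pool.MP_dd84fd_nt.L2G

/-- the arithmetic function `n ^ (σ - 1)` -/
noncomputable def svrF (σ : ℝ) : ArithmeticFunction ℝ :=
  ⟨fun n => if n = 0 then 0 else (n : ℝ) ^ (σ - 1), by simp⟩

theorem svrF_apply (σ : ℝ) {n : ℕ} (hn : n ≠ 0) : svrF σ n = (n : ℝ) ^ (σ - 1) := by
  show (if n = 0 then 0 else (n : ℝ) ^ (σ - 1)) = _
  rw [if_neg hn]

theorem svrF_mult (σ : ℝ) : (svrF σ).IsMultiplicative := by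
  rw [ArithmeticFunction.IsMultiplicative.iff_ne_zero]
  refine ⟨?_, fun {m n} hm hn _ => ?_⟩
  · rw [svrF_apply σ one_ne_zero]
    simp
  · rw [svrF_apply σ (mul_ne_zero hm hn), svrF_apply σ hm, svrF_apply σ hn]
    push_cast
    exact Real.mul_rpow (Nat.cast_nonneg m) (Nat.cast_nonneg n)

theorem svr_div_sum (σ : ℝ) (w : ℕ) :
    ∑ d ∈ (primorial w).divisors, (d : ℝ) ^ (σ - 1) ≤
      Real.exp (∑ p ∈ Nat.primesLE w, (p : ℝ) ^ (σ - 1)) := by
  have h2 : ∑ d ∈ (primorial w).divisors, (d : ℝ) ^ (σ - 1) =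
      ∏ p ∈ (primorial w).primeFactors, (1 + svrF σ p) := by
    rw [ArithmeticFunction.IsMultiplicative.prodPrimeFactors_one_add_of_squarefree (svrF_mult σ)
      (squarefree_primorial w)]
    refine Finset.sum_congr rfl fun d hd => ?_
    rw [svrF_apply σ (Nat.pos_of_mem_divisors hd).ne']
  rw [h2, primeFactors_primorial]
  calc ∏ p ∈ Nat.primesLE w, (1 + svrF σ p) ≤ ∏ p ∈ Nat.primesLE w, Real.exp ((p : ℝ) ^ (σ - 1)) := by
        refine Finset.prod_le_prod (fun p hp => ?_) (fun p hp => ?_)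
        · rw [svrF_apply σ (Nat.prime_of_mem_primesLE hp).ne_zero]
          have := Real.rpow_nonneg (Nat.cast_nonneg p : (0 : ℝ) ≤ p) (σ - 1)
          linarith
        · rw [svrF_apply σ (Nat.prime_of_mem_primesLE hp).ne_zero, add_comm]
          exact Real.add_one_le_exp _
    _ = Real.exp (∑ p ∈ Nat.primesLE w, (p : ℝ) ^ (σ - 1)) := (Real.exp_sum _ _).symm

theorem svr_dvd {w e : ℕ} (he : Squarefree e) (h : ∀ p ∈ e.primeFactors, p < w) :
    e ∈ (primorial w).divisors := by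
  rw [Nat.mem_divisors]
  refine ⟨?_, (squarefree_primorial w).ne_zero⟩
  rw [← Nat.prod_primeFactors_of_squarefree he, ← Nat.prod_primeFactors_of_squarefree
    (squarefree_primorial w), primeFactors_primorial]
  refine Finset.prod_dvd_prod_of_subset _ _ _ fun p hp => ?_
  rw [Nat.mem_primesLE]
  exact ⟨(h p hp).le, Nat.prime_of_mem_primeFactors hp⟩

theorem smooth_tail (A : ℕ) : ∃ X0 : ℕ, ∀ X : ℕ, X0 ≤ X →
    ∑ e ∈ (Icc 1 X).filter (fun e : ℕ => Squarefree e ∧ (X : ℝ) ^ (1 / 40 : ℝ) < e ∧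
      ∀ p ∈ e.primeFactors, p < wS X), 1 / (e : ℝ) ≤ 1 / Real.log X ^ A := by
  refine ⟨max 1 ⌈Real.exp (Real.exp (120 * (A + 24)))⌉₊, fun X hX => ?_⟩
  have hX1 : 1 ≤ X := (le_max_left _ _).trans hX
  have hXR : (0 : ℝ) < (X : ℝ) := by exact_mod_cast hX1
  have hXe : Real.exp (Real.exp (120 * (A + 24))) ≤ X := by
    have h1 := Nat.le_ceil (Real.exp (Real.exp (120 * ((A : ℝ) + 24))))
    have h2 : (⌈Real.exp (Real.exp (120 * ((A : ℝ) + 24)))⌉₊ : ℝ) ≤ X := by
      exact_mod_cast (le_max_right _ _).trans hX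
    linarith
  have hL1 : Real.exp (120 * (A + 24)) ≤ Real.log X := by
    rw [Real.le_log_iff_exp_le hXR]
    exact hXe
  have hL0 : 0 < Real.log X := (Real.exp_pos _).trans_le hL1
  have hLL1 : 120 * ((A : ℝ) + 24) ≤ Real.log (Real.log X) := by
    rw [Real.le_log_iff_exp_le hL0]
    exact hL1
  set L := Real.log X with hL
  set l := Real.log L with hl
  have hA : (0 : ℝ) ≤ A := Nat.cast_nonneg A
  have hl0 : 1 ≤ l := by linarith
  have hlL : l ^ 2 ≤ 2 * L := by
    have h1 := Real.quadratic_le_exp_of_nonneg (by linarith : 0 ≤ l)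
    rw [hl, Real.exp_log hL0] at h1
    rw [hl]
    rw [hl] at hl0
    nlinarith
  have hl2 : 0 < l ^ 2 := by positivity
  have hr : 1 / 2 ≤ L / l ^ 2 := by
    rw [div_le_div_iff₀ (by norm_num) hl2]
    linarith
  set r := L / l ^ 2 with hrdef
  have hw : (wS X : ℝ) ≤ 2 * Real.exp r := by
    have h1 : (wS X : ℝ) < Real.exp r + 1 := by
      unfold wS
      exact Nat.ceil_lt_add_one (Real.exp_pos _).le
    have h2 : 1 ≤ Real.exp r := Real.one_le_exp (by linarith)
    linarith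
  have hw1 : (1 : ℝ) ≤ wS X := by
    have h2 : 1 ≤ Real.exp r := Real.one_le_exp (by linarith)
    exact h2.trans (Nat.le_ceil _)
  have hw0 : 0 < wS X := by exact_mod_cast lt_of_lt_of_le one_pos hw1
  have hlw : Real.log (wS X) ≤ 3 * r := by
    have h1 := Real.log_le_log (by linarith) hw
    rw [Real.log_mul (by norm_num) (Real.exp_pos _).ne', Real.log_exp] at h1
    have h2 := Real.log_two_lt_d9
    linarith
  set σ := l ^ 2 / (3 * L) with hσ
  have hσ0 : 0 < σ := by positivity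
  have hσr : σ * (3 * r) = 1 := by
    rw [hσ, hrdef]
    field_simp
  -- Mertens
  obtain ⟨J, hJ1, hJw, hJL⟩ : ∃ J : ℕ, 1 ≤ J ∧ wS X ≤ 2 ^ J ∧ Real.log J ≤ l + 1 := by
    refine ⟨Nat.clog 2 (wS X) + 1, by omega, (Nat.le_pow_clog (by norm_num) _).trans
      (Nat.pow_le_pow_right (by norm_num) (by omega)), ?_⟩
    have h1 : ((Nat.clog 2 (wS X) : ℕ) : ℝ) ≤ 3 * r / Real.log 2 + 1 := by
      rcases Nat.lt_or_ge (wS X) 2 with h | h
      · rw [Nat.clog_of_right_le_one (by omega)]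
        have : 0 ≤ 3 * r / Real.log 2 := by
          have := Real.log_pos (by norm_num : (1 : ℝ) < 2)
          positivity
        push_cast
        linarith
      · have h2 := Nat.pow_pred_clog_lt_self (b := 2) (by norm_num) (x := wS X) (by omega)
        have h3 : ((2 : ℝ)) ^ (Nat.clog 2 (wS X)).pred ≤ wS X := by exact_mod_cast h2.le
        have h4 := Real.log_le_log (by positivity) h3
        rw [Real.log_pow] at h4
        have h5 : 0 < Real.log 2 := Real.log_pos (by norm_num)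
        have h6 : (((Nat.clog 2 (wS X)).pred : ℕ) : ℝ) ≤ 3 * r / Real.log 2 := by
          rw [le_div_iff₀ h5]
          linarith
        have h7 : 0 < Nat.clog 2 (wS X) := Nat.clog_pos (by norm_num) h
        have h8 : ((Nat.clog 2 (wS X) : ℕ) : ℝ) = (((Nat.clog 2 (wS X)).pred : ℕ) : ℝ) + 1 := by
          have : Nat.clog 2 (wS X) = (Nat.clog 2 (wS X)).pred + 1 := by
            simp only [Nat.pred_eq_sub_one]
            omega
          exact_mod_cast this
        linarith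
    have h5 : (0.69 : ℝ) < Real.log 2 := by
      have := Real.log_two_gt_d9
      linarith
    have h6 : 3 * r / Real.log 2 ≤ 5 * r := by
      rw [div_le_iff₀ (by linarith)]
      nlinarith
    have h7 : 5 * r + 2 ≤ 2 * L := by
      have h8 : r ≤ L / 100 := by
        rw [hrdef]
        apply div_le_div_of_nonneg_left hL0.le (by norm_num)
        nlinarith
      have h9 : 2 ≤ L := by
        nlinarith
      linarith
    have h8 : (((Nat.clog 2 (wS X) + 1 : ℕ)) : ℝ) ≤ 2 * L := by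
      push_cast
      linarith
    have h9 := Real.log_le_log (by positivity) h8
    rw [Real.log_mul (by norm_num) hL0.ne'] at h9
    have h10 := Real.log_two_lt_d9
    linarith
  have hM : ∑ p ∈ Nat.primesLE (wS X), (1 : ℝ) / p ≤ l + 7 := by
    have h1 := Pool.MP_67663b_nt.Mert.R_le J hJ1
    unfold Pool.MP_67663b_nt.Mert.R at h1
    refine le_trans (Finset.sum_le_sum_of_subset_of_nonneg ?_ fun p _ _ => by positivity)
      (h1.trans (by linarith))
    intro p hp
    rw [Nat.mem_primesLE] at hp ⊢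
    exact ⟨hp.1.trans hJw, hp.2⟩
  have hS : ∑ p ∈ Nat.primesLE (wS X), (p : ℝ) ^ (σ - 1) ≤ 3 * (l + 7) := by
    have h1 : ∀ p ∈ Nat.primesLE (wS X), (p : ℝ) ^ (σ - 1) ≤ 3 * (1 / (p : ℝ)) := by
      intro p hp
      rw [Nat.mem_primesLE] at hp
      have hp0 : (0 : ℝ) < p := by exact_mod_cast hp.2.pos
      rw [Real.rpow_sub hp0, Real.rpow_one, mul_one_div]
      apply div_le_div_of_nonneg_right _ hp0.le
      have h2 : (p : ℝ) ^ σ ≤ (wS X : ℝ) ^ σ :=
        Real.rpow_le_rpow hp0.le (by exact_mod_cast hp.1) hσ0.le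
      have h3 : (wS X : ℝ) ^ σ ≤ Real.exp 1 := by
        rw [Real.rpow_def_of_pos (by linarith), Real.exp_le_exp, ← hσr, mul_comm]
        exact mul_le_mul_of_nonneg_left hlw hσ0.le
      have h4 := Real.exp_one_lt_d9
      linarith
    calc ∑ p ∈ Nat.primesLE (wS X), (p : ℝ) ^ (σ - 1)
        ≤ ∑ p ∈ Nat.primesLE (wS X), 3 * (1 / (p : ℝ)) := Finset.sum_le_sum h1
      _ = 3 * ∑ p ∈ Nat.primesLE (wS X), (1 / (p : ℝ)) := by rw [Finset.mul_sum]
      _ ≤ 3 * (l + 7) := by linarith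
  set z : ℝ := (X : ℝ) ^ (1 / 40 : ℝ) with hz
  have hz0 : 0 < z := by positivity
  calc ∑ e ∈ (Icc 1 X).filter (fun e : ℕ => Squarefree e ∧ z < e ∧
        ∀ p ∈ e.primeFactors, p < wS X), 1 / (e : ℝ)
      ≤ ∑ e ∈ (Icc 1 X).filter (fun e : ℕ => Squarefree e ∧ z < e ∧
        ∀ p ∈ e.primeFactors, p < wS X), z ^ (-σ) * (e : ℝ) ^ (σ - 1) := by
        refine Finset.sum_le_sum fun d hd => ?_
        rw [Finset.mem_filter] at hd
        have hd0 : (0 : ℝ) < d := hz0.trans hd.2.2.1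
        have h1 : (1 : ℝ) / d = (d : ℝ) ^ (-σ) * (d : ℝ) ^ (σ - 1) := by
          rw [← Real.rpow_add hd0, one_div, ← Real.rpow_neg_one]
          congr 1
          ring
        rw [h1]
        refine mul_le_mul_of_nonneg_right ?_ (Real.rpow_nonneg hd0.le _)
        exact Real.rpow_le_rpow_of_nonpos hz0 hd.2.2.1.le (by linarith)
    _ ≤ ∑ e ∈ (primorial (wS X)).divisors, z ^ (-σ) * (e : ℝ) ^ (σ - 1) := by
        refine Finset.sum_le_sum_of_subset_of_nonneg ?_ fun d _ _ =>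
          mul_nonneg (Real.rpow_nonneg hz0.le _) (Real.rpow_nonneg (Nat.cast_nonneg d) _)
        intro d hd
        rw [Finset.mem_filter] at hd
        exact svr_dvd hd.2.1 hd.2.2.2
    _ = z ^ (-σ) * ∑ e ∈ (primorial (wS X)).divisors, (e : ℝ) ^ (σ - 1) := by
        rw [Finset.mul_sum]
    _ ≤ Real.exp (-(l ^ 2 / 120)) * Real.exp (3 * (l + 7)) := by
        have h1 : z ^ (-σ) = Real.exp (-(l ^ 2 / 120)) := by
          rw [hz, ← Real.rpow_mul hXR.le, Real.rpow_def_of_pos hXR, ← hL, hσ]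
          congr 1
          field_simp
          ring
        rw [h1]
        refine mul_le_mul_of_nonneg_left ?_ (Real.exp_pos _).le
        exact (svr_div_sum σ (wS X)).trans (Real.exp_le_exp.mpr hS)
    _ ≤ Real.exp (-(A * l)) := by
        rw [← Real.exp_add, Real.exp_le_exp]
        nlinarith
    _ = 1 / L ^ A := by
        rw [Real.exp_neg, mul_comm, Real.exp_mul, hl, Real.exp_log hL0, Real.rpow_natCast, one_div]

end Pool.MP_dd84fd_nt.T7
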