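import Pool.Agent.Lib.MP_dd84fd_nt.T7.SvBasic
import Pool.Agent.Lib.MP_dd84fd_nt.T7.SvRankin
import Pool.Agent.Lib.MP_dd84fd_nt.L2G.DivMom

/-!
T7-23 SvDecomp. w = wS X, z = zS X (w <= z, 2 <= w for X large). For 1 <= n <= X let rg_w, rg_z be the indicator functions of the w-rough, z-rough numbers.
(a) rg_w n = sum_{e | n, e squarefree, all p | e < w} mu(e) = (lS * ze)(n) + rho(n), |rho(n)| <= #{e | n : e squarefree, e > X^(1/40), all prime factors < w}.
(b) rg_z n = rg_w n - (aS * gS)(n) + e1(n), |e1(n)| <= [exists prime p >= w with p^2 | n]: if n is not w-rough everything is 0. If n is w-rough, N(n) = number of primes p | n with w <= p < z. N(n) = 0: rg_z = rg_w = 1, aS*gS = 0.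
 N(n) >= 1: rg_z = 0, rg_w = 1, (aS*gS)(n) = sum_{p | n, w<=p<z} 1/(N(n/p)+1), and N(n/p) = N(n)-1 if p^2 does not divide n (else N(n)): sum = 1 unless some p^2 | n, and it is in [0,1] always.
(c) Sv = kS*rg_z = kS*lS*ze + kS*rho - aS*(kS*gS) + kS*e1. er = kS*rho + kS*e1: |kS*rho|(n) <= tau(n) rho'(n), rho'(n) = #{e | n : ...} <= tau(n); |kS*e1|(n) <= tau(n) [p^2 | n, p >= w].
 sum_n tau(n)^2 rho'(n)^2 <= sum_n tau(n)^3 rho'(n) = sum_e sum_{e | n} tau(n)^3 <= sum_e tau(e)^3 (X/e) L^C (div_mom 3, n = em) <= X L^C (sum_{e<=X} tau(e)^6/e)^(1/2) (sum_{tail} 1/e)^(1/2) <= X L^C' L^(-A'/2) (smooth_tail).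
 sum_n tau(n)^2 [p^2 | n] <= (sum tau^4)^(1/2) (sum_{p>=w} X/p^2)^(1/2) <= X L^C w^(-1/2).
-/

set_option autoImplicit false

namespace Pool.MP_dd84fd_nt.T7

open Finset Pool.MP_67663b_nt.Odd Pool.MP_dd84fd_nt.L2G

private lemma sdc_large (K : ℕ) : ∃ X0 : ℕ, ∀ X : ℕ, X0 ≤ X →
    64 ≤ Real.log X ∧ Real.log X ^ K ≤ wS X ∧ wS X ≤ zS X := by
  have h1 : ∀ᶠ x : ℝ in Filter.atTop, 64 ≤ Real.log x :=
    Real.tendsto_log_atTop.eventually_ge_atTop 64
  have h2 : ∀ᶠ x : ℝ in Filter.atTop, ‖(K : ℝ) * Real.log x ^ 3‖ ≤ 1 * ‖x‖ :=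
    ((Real.isLittleO_pow_log_id_atTop (n := 3)).const_mul_left (K : ℝ)).bound one_pos
  have h2' := Real.tendsto_log_atTop.eventually h2
  have h3 : ∀ᶠ x : ℝ in Filter.atTop, 3 ≤ Real.log (Real.log x) :=
    (Real.tendsto_log_atTop.comp Real.tendsto_log_atTop).eventually_ge_atTop 3
  have h4 : ∀ᶠ X : ℕ in Filter.atTop, 64 ≤ Real.log X ∧ Real.log X ^ K ≤ wS X ∧
      wS X ≤ zS X := by
    filter_upwards [tendsto_natCast_atTop_atTop.eventually h1,
      tendsto_natCast_atTop_atTop.eventually h2',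
      tendsto_natCast_atTop_atTop.eventually h3, Filter.eventually_ge_atTop 1] with X ha hb hc hX
    have hL0 : 0 < Real.log X := by linarith
    have hLL : 0 < Real.log (Real.log X) := by linarith
    refine ⟨ha, ?_, ?_⟩
    · refine le_trans ?_ (Nat.le_ceil _)
      rw [Real.norm_eq_abs, Real.norm_eq_abs, one_mul, abs_of_nonneg hL0.le] at hb
      have hb' := (le_abs_self _).trans hb
      have e1 : Real.log X ^ K = Real.exp (K * Real.log (Real.log X)) := by
        rw [mul_comm, Real.exp_mul, Real.exp_log hL0, Real.rpow_natCast]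
      rw [e1]
      apply Real.exp_le_exp.2
      rw [le_div_iff₀ (by positivity)]
      calc K * Real.log (Real.log X) * Real.log (Real.log X) ^ 2 =
            K * Real.log (Real.log X) ^ 3 := by ring
        _ ≤ _ := hb'
    · unfold wS zS
      apply Nat.ceil_le_ceil
      have hX0 : (0 : ℝ) < X := by exact_mod_cast hX
      rw [Real.rpow_def_of_pos hX0]
      apply Real.exp_le_exp.2
      rw [div_le_iff₀ (by positivity)]
      have h5 : (5 : ℝ) ≤ Real.log (Real.log X) ^ 2 := by nlinarith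
      nlinarith
  exact Filter.eventually_atTop.1 h4

/-- the divisors of the product of the small primes -/
private lemma sdc_moeb (w n : ℕ) (hn : 1 ≤ n) :
    (rg w) n = ∑ e ∈ n.divisors.filter (fun e => ∀ p ∈ e.primeFactors, p < w),
      ((ArithmeticFunction.moebius e : ℤ) : ℝ) := by
  classical
  obtain ⟨S, hS⟩ : ∃ S : Finset ℕ, S = n.primeFactors.filter (fun p => p < w) := ⟨_, rfl⟩
  obtain ⟨m, hm⟩ : ∃ m : ℕ, m = ∏ p ∈ S, p := ⟨_, rfl⟩
  have hSp : ∀ p ∈ S, p.Prime := fun p hp => by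
    rw [hS, mem_filter] at hp
    exact Nat.prime_of_mem_primeFactors hp.1
  have hm0 : m ≠ 0 := by
    rw [hm]
    exact Finset.prod_ne_zero_iff.2 fun p hp => (hSp p hp).ne_zero
  have hmn : m ∣ n := by
    rw [hm]
    refine (Finset.prod_dvd_prod_of_subset S n.primeFactors _ (by rw [hS]; exact filter_subset _ _)).trans ?_
    exact Nat.prod_primeFactors_dvd n
  have hpf : m.primeFactors = S := by
    rw [hm]
    exact Nat.primeFactors_prod hSp
  have hsq : Squarefree m := by
    rw [hm]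
    apply Finset.squarefree_prod_of_pairwise_isCoprime
    · intro p hp q hq hpq
      exact Nat.coprime_iff_isRelPrime.1 ((Nat.coprime_primes (hSp p hp) (hSp q hq)).2 hpq)
    · intro p hp
      exact (hSp p hp).prime.squarefree
  have h1 : ∑ e ∈ n.divisors.filter (fun e => ∀ p ∈ e.primeFactors, p < w),
      ((ArithmeticFunction.moebius e : ℤ) : ℝ) =
      ∑ e ∈ m.divisors, ((ArithmeticFunction.moebius e : ℤ) : ℝ) := by
    symm
    apply Finset.sum_subset
    · intro e he
      rw [Nat.mem_divisors] at he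
      rw [mem_filter, Nat.mem_divisors]
      refine ⟨⟨he.1.trans hmn, by omega⟩, fun p hp => ?_⟩
      have h2 : p ∈ m.primeFactors := Nat.primeFactors_mono he.1 hm0 hp
      rw [hpf, hS, mem_filter] at h2
      exact h2.2
    · intro e he he'
      rw [mem_filter, Nat.mem_divisors] at he
      by_cases hsf : Squarefree e
      · exfalso
        apply he'
        rw [Nat.mem_divisors]
        refine ⟨?_, hm0⟩
        rw [← Nat.prod_primeFactors_of_squarefree hsf, hm]
        apply Finset.prod_dvd_prod_of_subset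
        intro p hp
        rw [hS, mem_filter]
        exact ⟨Nat.primeFactors_mono he.1.1 (by omega) hp, he.2 p hp⟩
      · rw [ArithmeticFunction.moebius_eq_zero_of_not_squarefree hsf]
        simp
  have h2 : ∑ e ∈ m.divisors, ((ArithmeticFunction.moebius e : ℤ) : ℝ) =
      if m = 1 then 1 else 0 := by
    have h3 : ∑ e ∈ m.divisors, ArithmeticFunction.moebius e =
        if m = 1 then (1 : ℤ) else 0 := by
      have := congrArg (fun f : ArithmeticFunction ℤ => f m) ArithmeticFunction.moebius_mul_coe_zeta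
      simp only [ArithmeticFunction.coe_mul_zeta_apply, ArithmeticFunction.one_apply] at this
      exact this
    have h4 := congrArg (fun t : ℤ => (t : ℝ)) h3
    push_cast at h4
    exact h4
  rw [h1, h2]
  unfold rg
  simp only [ArithmeticFunction.coe_mk]
  have h3 : (n ≠ 0 ∧ ∀ p ∈ n.primeFactors, w ≤ p) ↔ m = 1 := by
    constructor
    · rintro ⟨_, h⟩
      rw [hm]
      have : S = ∅ := by
        rw [hS, Finset.filter_eq_empty_iff]
        intro p hp
        have := h p hp
        omega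
      rw [this, Finset.prod_empty]
    · intro h
      refine ⟨by omega, fun p hp => ?_⟩
      by_contra hlt
      have h4 : p ∈ S := by
        rw [hS, mem_filter]
        exact ⟨hp, by omega⟩
      rw [← hpf, h] at h4
      simp at h4
  by_cases h : m = 1
  · rw [if_pos (h3.2 h), if_pos h]
  · rw [if_neg (fun h' => h (h3.1 h')), if_neg h]

/-- the number of large smooth squarefree divisors -/
private noncomputable def rh (X n : ℕ) : ℕ :=
  (n.divisors.filter (fun e : ℕ => Squarefree e ∧ (X : ℝ) ^ (1 / 40 : ℝ) < e ∧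
    ∀ p ∈ e.primeFactors, p < wS X)).card

private lemma sdc_R1 (X n : ℕ) (hn : 1 ≤ n) :
    |(rg (wS X) - lS X * ze) n| ≤ rh X n := by
  classical
  have h1 : (rg (wS X) - lS X * ze) n = (rg (wS X)) n - (lS X * ze) n := rfl
  have h2 : (lS X * ze) n = ∑ e ∈ n.divisors, lS X e := by
    unfold ze
    rw [ArithmeticFunction.coe_mul_zeta_apply]
  have h3 : ∑ e ∈ n.divisors, lS X e =
      ∑ e ∈ n.divisors.filter (fun e => ∀ p ∈ e.primeFactors, p < wS X),
        if (e : ℝ) ≤ (X : ℝ) ^ (1 / 40 : ℝ) then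
          ((ArithmeticFunction.moebius e : ℤ) : ℝ) else 0 := by
    rw [Finset.sum_filter]
    refine Finset.sum_congr rfl fun e he => ?_
    have he0 : e ≠ 0 := (Nat.pos_of_mem_divisors he).ne'
    unfold lS
    simp only [ArithmeticFunction.coe_mk]
    by_cases ha : ∀ p ∈ e.primeFactors, p < wS X
    · by_cases hb : (e : ℝ) ≤ (X : ℝ) ^ (1 / 40 : ℝ)
      · rw [if_pos ⟨he0, hb, ha⟩, if_pos ha, if_pos hb]
      · rw [if_neg (fun h => hb h.2.1), if_pos ha, if_neg hb]
    · rw [if_neg (fun h => ha h.2.2), if_neg ha]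
  rw [h1, h2, h3, sdc_moeb (wS X) n hn, ← Finset.sum_sub_distrib]
  refine (Finset.abs_sum_le_sum_abs _ _).trans ?_
  have h4 : ∀ e ∈ n.divisors.filter (fun e => ∀ p ∈ e.primeFactors, p < wS X),
      |((ArithmeticFunction.moebius e : ℤ) : ℝ) - (if (e : ℝ) ≤ (X : ℝ) ^ (1 / 40 : ℝ) then
          ((ArithmeticFunction.moebius e : ℤ) : ℝ) else 0)| ≤
      if Squarefree e ∧ (X : ℝ) ^ (1 / 40 : ℝ) < e then 1 else 0 := by
    intro e _
    by_cases hb : (e : ℝ) ≤ (X : ℝ) ^ (1 / 40 : ℝ)
    · rw [if_pos hb, sub_self, abs_zero]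
      split_ifs <;> norm_num
    · rw [if_neg hb, sub_zero]
      push Not at hb
      by_cases hsf : Squarefree e
      · rw [if_pos ⟨hsf, hb⟩]
        have := ArithmeticFunction.abs_moebius_le_one (n := e)
        exact_mod_cast this
      · rw [if_neg (fun h => hsf h.1), ArithmeticFunction.moebius_eq_zero_of_not_squarefree hsf]
        simp
  refine (Finset.sum_le_sum h4).trans (le_of_eq ?_)
  rw [← Finset.sum_filter, Finset.filter_filter, Finset.sum_const, nsmul_eq_mul, mul_one]
  unfold rh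
  congr 2
  ext e
  simp only [mem_filter]
  tauto

private lemma sdc_ag (X n : ℕ) (hn : 1 ≤ n) : (aS X * gS X) n =
    ∑ p ∈ n.primeFactors.filter (fun p => wS X ≤ p ∧ p < zS X), gS X (n / p) := by
  classical
  rw [ArithmeticFunction.mul_apply]
  rw [Nat.sum_divisorsAntidiagonal (fun i j => aS X i * gS X j)]
  have h1 : n.primeFactors.filter (fun p => wS X ≤ p ∧ p < zS X) ⊆ n.divisors := by
    intro p hp
    rw [mem_filter] at hp
    rw [Nat.mem_divisors]
    exact ⟨Nat.dvd_of_mem_primeFactors hp.1, by omega⟩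
  rw [← Finset.sum_subset h1]
  · refine Finset.sum_congr rfl fun p hp => ?_
    rw [mem_filter] at hp
    have h2 : aS X p = 1 := by
      unfold aS
      simp only [ArithmeticFunction.coe_mk]
      rw [if_pos ⟨Nat.prime_of_mem_primeFactors hp.1, hp.2⟩]
    rw [h2, one_mul]
  · intro p hp hp'
    have h2 : aS X p = 0 := by
      unfold aS
      simp only [ArithmeticFunction.coe_mk]
      rw [if_neg]
      rintro ⟨h3, h4⟩
      apply hp'
      rw [mem_filter, Nat.mem_primeFactors]
      exact ⟨⟨h3, Nat.dvd_of_mem_divisors hp, by omega⟩, h4⟩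
    rw [h2, zero_mul]

/-- divisibility by a large square -/
private noncomputable def sdq (X n : ℕ) : ℝ :=
  open Classical in if ∃ d, wS X ≤ d ∧ d ^ 2 ∣ n then 1 else 0

private lemma sdc_E1 (X n : ℕ) (hn : 1 ≤ n) (hwz : wS X ≤ zS X) :
    |(rg (zS X) - rg (wS X) + aS X * gS X) n| ≤ sdq X n := by
  classical
  have h1 : (rg (zS X) - rg (wS X) + aS X * gS X) n =
      rg (zS X) n - rg (wS X) n + (aS X * gS X) n := rfl
  rw [h1, sdc_ag X n hn]
  have hsq0 : 0 ≤ sdq X n := by unfold sdq; split_ifs <;> norm_num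
  by_cases hr : ∀ p ∈ n.primeFactors, wS X ≤ p
  · have hrw : rg (wS X) n = 1 := by
      unfold rg
      simp only [ArithmeticFunction.coe_mk]
      rw [if_pos ⟨by omega, hr⟩]
    obtain ⟨S, hS⟩ : ∃ S : Finset ℕ, S = n.primeFactors.filter
      (fun p => wS X ≤ p ∧ p < zS X) := ⟨_, rfl⟩
    have hS' : S = n.primeFactors.filter (fun p => p < zS X) := by
      rw [hS]
      apply Finset.filter_congr
      intro p hp
      exact ⟨fun h => h.2, fun h => ⟨hr p hp, h⟩⟩
    rw [← hS, hrw]
    rcases S.eq_empty_or_nonempty with hSe | hSn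
    · have hrz : rg (zS X) n = 1 := by
        unfold rg
        simp only [ArithmeticFunction.coe_mk]
        rw [if_pos]
        refine ⟨by omega, fun p hp => ?_⟩
        by_contra hlt
        have : p ∈ S := by
          rw [hS', mem_filter]
          exact ⟨hp, by omega⟩
        rw [hSe] at this
        simp at this
      rw [hrz, hSe, Finset.sum_empty]
      simpa using hsq0
    · have hrz : rg (zS X) n = 0 := by
        unfold rg
        simp only [ArithmeticFunction.coe_mk]
        rw [if_neg]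
        rintro ⟨_, h⟩
        obtain ⟨p, hp⟩ := hSn
        rw [hS', mem_filter] at hp
        have := h p hp.1
        omega
      have hN : 0 < (S.card : ℝ) := by exact_mod_cast hSn.card_pos
      -- the terms
      have hterm : ∀ p ∈ S, gS X (n / p) =
          1 / ((((n / p).primeFactors.filter (fun p => p < zS X)).card : ℝ) + 1) := by
        intro p hp
        rw [hS', mem_filter, Nat.mem_primeFactors] at hp
        have hnp : n / p ≠ 0 := (Nat.div_pos (Nat.le_of_dvd hn hp.1.2.1) hp.1.1.pos).ne'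
        unfold gS
        simp only [ArithmeticFunction.coe_mk]
        rw [if_pos]
        refine ⟨hnp, fun l hl => hr l ?_⟩
        exact Nat.primeFactors_mono (Nat.div_dvd_of_dvd hp.1.2.1) (by omega) hl
      have hup : ∀ p ∈ S, ((n / p).primeFactors.filter (fun p => p < zS X)).card ≤ S.card := by
        intro p hp
        rw [hS', mem_filter, Nat.mem_primeFactors] at hp
        apply Finset.card_le_card
        rw [hS']
        apply Finset.filter_subset_filter
        exact Nat.primeFactors_mono (Nat.div_dvd_of_dvd hp.1.2.1) (by omega)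
      have hlow : ∀ p ∈ S, S.card ≤
          ((n / p).primeFactors.filter (fun p => p < zS X)).card + 1 := by
        intro p hp
        have hp0 := hp
        rw [hS', mem_filter, Nat.mem_primeFactors] at hp
        have h2 : S.erase p ⊆ (n / p).primeFactors.filter (fun p => p < zS X) := by
          intro l hl
          rw [Finset.mem_erase, hS', mem_filter, Nat.mem_primeFactors] at hl
          rw [mem_filter, Nat.mem_primeFactors]
          have hnp : n / p ≠ 0 := (Nat.div_pos (Nat.le_of_dvd hn hp.1.2.1) hp.1.1.pos).ne'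
          refine ⟨⟨hl.2.1.1, ?_, hnp⟩, hl.2.2⟩
          have h3 : l ∣ p * (n / p) := by
            rw [Nat.mul_div_cancel' hp.1.2.1]
            exact hl.2.1.2.1
          rcases (Nat.Prime.dvd_mul hl.2.1.1).1 h3 with h4 | h4
          · exact absurd ((Nat.prime_dvd_prime_iff_eq hl.2.1.1 hp.1.1).1 h4) hl.1
          · exact h4
        have h3 := Finset.card_le_card h2
        rw [Finset.card_erase_of_mem hp0] at h3
        omega
      have hsumup : ∑ p ∈ S, gS X (n / p) ≤ 1 := by
        calc ∑ p ∈ S, gS X (n / p) ≤ ∑ p ∈ S, 1 / (S.card : ℝ) := by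
              refine Finset.sum_le_sum fun p hp => ?_
              rw [hterm p hp]
              apply one_div_le_one_div_of_le hN
              exact_mod_cast hlow p hp
          _ = 1 := by
              rw [Finset.sum_const, nsmul_eq_mul]
              field_simp
      have hsum0 : 0 ≤ ∑ p ∈ S, gS X (n / p) := by
        refine Finset.sum_nonneg fun p hp => ?_
        rw [hterm p hp]
        positivity
      rw [hrz]
      by_cases hsqr : ∃ d, wS X ≤ d ∧ d ^ 2 ∣ n
      · unfold sdq
        rw [if_pos hsqr, abs_le]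
        constructor <;> linarith
      · push Not at hsqr
        have hsum : ∑ p ∈ S, gS X (n / p) = 1 := by
          calc ∑ p ∈ S, gS X (n / p) = ∑ p ∈ S, 1 / (S.card : ℝ) := by
                refine Finset.sum_congr rfl fun p hp => ?_
                rw [hterm p hp]
                congr 1
                have hp0 := hp
                rw [hS, mem_filter, Nat.mem_primeFactors] at hp
                have h2 : (n / p).primeFactors.filter (fun p => p < zS X) ⊆ S.erase p := by
                  intro l hl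
                  rw [mem_filter, Nat.mem_primeFactors] at hl
                  rw [Finset.mem_erase, hS', mem_filter, Nat.mem_primeFactors]
                  refine ⟨?_, ⟨hl.1.1, hl.1.2.1.trans (Nat.div_dvd_of_dvd hp.1.2.1), by omega⟩,
                    hl.2⟩
                  rintro rfl
                  apply hsqr l hp.2.1
                  rw [sq]
                  have h3 := Nat.mul_dvd_mul_left l hl.1.2.1
                  rwa [Nat.mul_div_cancel' hp.1.2.1] at h3
                have h3 := Finset.card_le_card h2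
                rw [Finset.card_erase_of_mem hp0] at h3
                have h4 := hlow p hp0
                have h5 : 1 ≤ S.card := hSn.card_pos
                have h6 : ((n / p).primeFactors.filter (fun p => p < zS X)).card + 1 = S.card := by
                  omega
                exact_mod_cast h6
            _ = 1 := by
                rw [Finset.sum_const, nsmul_eq_mul]
                field_simp
        rw [hsum]
        simpa using hsq0
  · have hrw : rg (wS X) n = 0 := by
      unfold rg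
      simp only [ArithmeticFunction.coe_mk]
      rw [if_neg]
      rintro ⟨_, h⟩
      exact hr h
    have hrz : rg (zS X) n = 0 := by
      unfold rg
      simp only [ArithmeticFunction.coe_mk]
      rw [if_neg]
      rintro ⟨_, h⟩
      exact hr fun p hp => hwz.trans (h p hp)
    have hsum : ∑ p ∈ n.primeFactors.filter (fun p => wS X ≤ p ∧ p < zS X), gS X (n / p) = 0 := by
      refine Finset.sum_eq_zero fun p hp => ?_
      rw [mem_filter, Nat.mem_primeFactors] at hp
      unfold gS
      simp only [ArithmeticFunction.coe_mk]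
      rw [if_neg]
      rintro ⟨h2, h3⟩
      apply hr
      intro l hl
      rw [Nat.mem_primeFactors] at hl
      have h4 : l ∣ p * (n / p) := by
        rw [Nat.mul_div_cancel' hp.1.2.1]
        exact hl.2.1
      rcases (Nat.Prime.dvd_mul hl.1).1 h4 with h5 | h5
      · rw [(Nat.prime_dvd_prime_iff_eq hl.1 hp.1.1).1 h5]
        exact hp.2.1
      · exact h3 l (Nat.mem_primeFactors.2 ⟨hl.1, h5, h2⟩)
    rw [hrw, hrz, hsum]
    simpa using hsq0

private lemma sdc_conv (X n : ℕ) (hn : 1 ≤ n) (hwz : wS X ≤ zS X) :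
    |(kS X * ((rg (zS X) - rg (wS X) + aS X * gS X) + (rg (wS X) - lS X * ze))) n| ≤
      (n.divisors.card : ℝ) * (sdq X n + rh X n) := by
  classical
  rw [ArithmeticFunction.mul_apply]
  rw [Nat.sum_divisorsAntidiagonal (fun i j => kS X i *
    ((rg (zS X) - rg (wS X) + aS X * gS X) + (rg (wS X) - lS X * ze)) j)]
  refine (Finset.abs_sum_le_sum_abs _ _).trans ?_
  have h1 : ∀ d ∈ n.divisors, |kS X d *
      ((rg (zS X) - rg (wS X) + aS X * gS X) + (rg (wS X) - lS X * ze)) (n / d)| ≤
      sdq X n + rh X n := by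
    intro d hd
    rw [Nat.mem_divisors] at hd
    have hnd : 1 ≤ n / d := Nat.div_pos (Nat.le_of_dvd hn hd.1) (Nat.pos_of_dvd_of_pos hd.1 hn)
    have hdn : n / d ∣ n := Nat.div_dvd_of_dvd hd.1
    rw [abs_mul]
    have h2 : |((rg (zS X) - rg (wS X) + aS X * gS X) + (rg (wS X) - lS X * ze)) (n / d)| ≤
        sdq X (n / d) + rh X (n / d) := by
      have h3 : ((rg (zS X) - rg (wS X) + aS X * gS X) + (rg (wS X) - lS X * ze)) (n / d) =
          (rg (zS X) - rg (wS X) + aS X * gS X) (n / d) +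
            (rg (wS X) - lS X * ze) (n / d) := rfl
      rw [h3]
      exact (abs_add_le _ _).trans (add_le_add (sdc_E1 X _ hnd hwz) (sdc_R1 X _ hnd))
    have h3 : sdq X (n / d) ≤ sdq X n := by
      unfold sdq
      by_cases h : ∃ e, wS X ≤ e ∧ e ^ 2 ∣ n / d
      · obtain ⟨e, he1, he2⟩ := h
        rw [if_pos ⟨e, he1, he2⟩, if_pos ⟨e, he1, he2.trans hdn⟩]
      · rw [if_neg h]
        split_ifs <;> norm_num
    have h4 : (rh X (n / d) : ℝ) ≤ rh X n := by
      unfold rh
      exact_mod_cast Finset.card_le_card (Finset.filter_subset_filter _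
        (Nat.divisors_subset_of_dvd (by omega) hdn))
    calc |kS X d| * |((rg (zS X) - rg (wS X) + aS X * gS X) + (rg (wS X) - lS X * ze)) (n / d)|
        ≤ 1 * |((rg (zS X) - rg (wS X) + aS X * gS X) + (rg (wS X) - lS X * ze)) (n / d)| :=
          mul_le_mul_of_nonneg_right (coef_abs X d).1 (abs_nonneg _)
      _ ≤ sdq X (n / d) + rh X (n / d) := by rw [one_mul]; exact h2
      _ ≤ _ := add_le_add h3 h4
  refine (Finset.sum_le_sum h1).trans (le_of_eq ?_)
  rw [Finset.sum_const, nsmul_eq_mul]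

private lemma sdc_mult (X e : ℕ) : (((Icc 1 X).filter (fun n => e ∣ n)).card : ℝ) ≤ X / e := by
  have h1 : (Icc 1 X).filter (fun n => e ∣ n) = (Ioc 0 X).filter (fun n => e ∣ n) := by
    congr 1
  rw [h1, Nat.Ioc_filter_dvd_card_eq_div]
  exact Nat.cast_div_le

private lemma sdc_sumq (X : ℕ) (hw : 1 ≤ wS X) :
    ∑ n ∈ Icc 1 X, sdq X n ≤ X * (2 / wS X) := by
  classical
  have h1 : ∀ n ∈ Icc 1 X, sdq X n ≤
      ∑ d ∈ Icc (wS X) X, if d ^ 2 ∣ n then (1 : ℝ) else 0 := by
    intro n hn
    rw [mem_Icc] at hn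
    unfold sdq
    by_cases h : ∃ d, wS X ≤ d ∧ d ^ 2 ∣ n
    · rw [if_pos h]
      obtain ⟨d, hd1, hd2⟩ := h
      have hdX : d ≤ X := by
        have h2 := Nat.le_of_dvd (by omega) hd2
        have h3 : d ≤ d ^ 2 := Nat.le_self_pow (by norm_num) d
        omega
      have h2 := Finset.single_le_sum (f := fun d => if d ^ 2 ∣ n then (1 : ℝ) else 0)
        (fun d _ => by split_ifs <;> norm_num) (mem_Icc.2 ⟨hd1, hdX⟩)
      rw [if_pos hd2] at h2
      exact h2
    · rw [if_neg h]
      exact Finset.sum_nonneg fun d _ => by split_ifs <;> norm_num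
  refine (Finset.sum_le_sum h1).trans ?_
  rw [Finset.sum_comm]
  have h2 : ∀ d ∈ Icc (wS X) X, ∑ n ∈ Icc 1 X, (if d ^ 2 ∣ n then (1 : ℝ) else 0) ≤
      X * ((d : ℝ) ^ 2)⁻¹ := by
    intro d _
    rw [← Finset.sum_filter, Finset.sum_const, nsmul_eq_mul, mul_one]
    have := sdc_mult X (d ^ 2)
    rw [← div_eq_mul_inv]
    push_cast at this
    exact this
  refine (Finset.sum_le_sum h2).trans ?_
  rw [← Finset.mul_sum]
  apply mul_le_mul_of_nonneg_left _ (by positivity)
  have h3 : Icc (wS X) X = Ioo (wS X - 1) (X + 1) := by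
    ext x
    simp only [mem_Icc, mem_Ioo]
    omega
  rw [h3]
  refine (sum_Ioo_inv_sq_le (α := ℝ) (wS X - 1) (X + 1)).trans (le_of_eq ?_)
  congr 1
  have : wS X - 1 + 1 = wS X := by omega
  exact_mod_cast this

private lemma sdc_sumr (X : ℕ) : ∑ n ∈ Icc 1 X, (rh X n : ℝ) ≤
    X * ∑ e ∈ (Icc 1 X).filter (fun e : ℕ => Squarefree e ∧ (X : ℝ) ^ (1 / 40 : ℝ) < e ∧
      ∀ p ∈ e.primeFactors, p < wS X), 1 / (e : ℝ) := by
  classical
  have h1 : ∀ n ∈ Icc 1 X, (rh X n : ℝ) ≤
      ∑ e ∈ (Icc 1 X).filter (fun e : ℕ => Squarefree e ∧ (X : ℝ) ^ (1 / 40 : ℝ) < e ∧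
      ∀ p ∈ e.primeFactors, p < wS X), if e ∣ n then (1 : ℝ) else 0 := by
    intro n hn
    rw [mem_Icc] at hn
    rw [← Finset.sum_filter, Finset.sum_const, nsmul_eq_mul, mul_one]
    unfold rh
    have h2 : n.divisors.filter (fun e : ℕ => Squarefree e ∧ (X : ℝ) ^ (1 / 40 : ℝ) < e ∧
        ∀ p ∈ e.primeFactors, p < wS X) ⊆
        ((Icc 1 X).filter (fun e : ℕ => Squarefree e ∧ (X : ℝ) ^ (1 / 40 : ℝ) < e ∧
      ∀ p ∈ e.primeFactors, p < wS X)).filter (fun e => e ∣ n) := by
      intro e he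
      rw [mem_filter, Nat.mem_divisors] at he
      rw [mem_filter, mem_filter, mem_Icc]
      have h3 := Nat.le_of_dvd (by omega) he.1.1
      have h4 := Nat.pos_of_dvd_of_pos he.1.1 hn.1
      exact ⟨⟨⟨h4, by omega⟩, he.2⟩, he.1.1⟩
    exact_mod_cast Finset.card_le_card h2
  refine (Finset.sum_le_sum h1).trans ?_
  rw [Finset.sum_comm, Finset.mul_sum]
  refine Finset.sum_le_sum fun e _ => ?_
  rw [← Finset.sum_filter, Finset.sum_const, nsmul_eq_mul, mul_one]
  refine (sdc_mult X e).trans (le_of_eq ?_)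
  ring

theorem sv_decomp (A : ℕ) : ∃ X0 : ℕ, ∀ X : ℕ, X0 ≤ X → ∃ er : ℕ → ℝ,
    (∀ n, 1 ≤ n → n ≤ X →
      Sv X n = (kS X * lS X * ze) n - (aS X * (kS X * gS X)) n + er n) ∧
    ∑ n ∈ Icc 1 X, er n ^ 2 ≤ X / Real.log X ^ A := by
  classical
  obtain ⟨C4, hC4⟩ := div_mom 4
  obtain ⟨C7, hC7⟩ := div_mom 7
  obtain ⟨C, hC⟩ : ∃ C : ℕ, C = C4 + C7 := ⟨_, rfl⟩
  obtain ⟨D, hD⟩ : ∃ D : ℕ, D = A + 2 * C + 1 := ⟨_, rfl⟩
  obtain ⟨A', hA'⟩ : ∃ A' : ℕ, A' = A + D + 1 := ⟨_, rfl⟩
  obtain ⟨X1, hX1⟩ := smooth_tail A'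
  obtain ⟨X2, hX2⟩ := sdc_large (A' + 1)
  refine ⟨X1 + X2 + 2, fun X hX => ?_⟩
  obtain ⟨hL64, hLw, hwz⟩ := hX2 X (by omega)
  have hT := hX1 X (by omega)
  obtain ⟨L, hL⟩ : ∃ L : ℝ, L = Real.log X := ⟨_, rfl⟩
  rw [← hL] at hL64 hLw hT ⊢
  have hXR : (2 : ℝ) ≤ X := by exact_mod_cast (by omega : 2 ≤ X)
  have hL1 : 1 ≤ L := by linarith
  have hLp : 0 < L := by linarith
  have hpw : ∀ {i j : ℕ}, i ≤ j → L ^ i ≤ L ^ j := fun h => pow_le_pow_right₀ hL1 h
  have hwR : (1 : ℝ) ≤ wS X := (one_le_pow₀ hL1).trans hLw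
  have hw1 : 1 ≤ wS X := by exact_mod_cast hwR
  refine ⟨fun n => (kS X * ((rg (zS X) - rg (wS X) + aS X * gS X) +
    (rg (wS X) - lS X * ze))) n, fun n _ _ => ?_, ?_⟩
  · have h1 : Sv X = kS X * lS X * ze - aS X * (kS X * gS X) +
        kS X * ((rg (zS X) - rg (wS X) + aS X * gS X) + (rg (wS X) - lS X * ze)) := by
      unfold Sv
      ring
    have h2 := congrArg (fun f : ArithmeticFunction ℝ => f n) h1
    exact h2
  · have h1 : ∀ n ∈ Icc 1 X, ((kS X * ((rg (zS X) - rg (wS X) + aS X * gS X) +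
        (rg (wS X) - lS X * ze))) n) ^ 2 ≤
        (n.divisors.card : ℝ) ^ 4 * (1 / L ^ D) + (n.divisors.card : ℝ) ^ 7 * (1 / L ^ D) +
          (sdq X n * L ^ D + rh X n * L ^ D) := by
      intro n hn
      rw [mem_Icc] at hn
      have h2 := sdc_conv X n hn.1 hwz
      obtain ⟨t, ht⟩ : ∃ t : ℝ, t = (n.divisors.card : ℝ) := ⟨_, rfl⟩
      obtain ⟨s, hs⟩ : ∃ s : ℝ, s = sdq X n := ⟨_, rfl⟩
      obtain ⟨u, hu⟩ : ∃ u : ℝ, u = (rh X n : ℝ) := ⟨_, rfl⟩
      have hut : u ≤ t := by
        rw [hu, ht]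
        unfold rh
        exact_mod_cast Finset.card_filter_le _ _
      have hu0 : 0 ≤ u := by rw [hu]; positivity
      have ht0 : 0 ≤ t := hu0.trans hut
      have hs01 : s = 0 ∨ s = 1 := by
        rw [hs]
        unfold sdq
        split_ifs
        · right; rfl
        · left; rfl
      rw [← ht, ← hs, ← hu] at h2 ⊢
      have hs0 : 0 ≤ s := by rcases hs01 with h | h <;> (rw [h]; try norm_num)
      have hss : s ^ 2 = s := by rcases hs01 with h | h <;> rw [h] <;> norm_num
      have h3 : ((kS X * ((rg (zS X) - rg (wS X) + aS X * gS X) +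
        (rg (wS X) - lS X * ze))) n) ^ 2 ≤ (t * (s + u)) ^ 2 := by
        rw [← sq_abs]
        exact pow_le_pow_left₀ (abs_nonneg _) h2 2
      refine h3.trans ?_
      obtain ⟨d, hd⟩ : ∃ d : ℝ, d = L ^ D := ⟨_, rfl⟩
      have hd0 : 0 < d := by rw [hd]; positivity
      rw [← hd]
      have h4 : (t * (s + u)) ^ 2 ≤ 2 * (t ^ 2 * s) + 2 * (t ^ 3 * u) := by
        have h5 : (t * (s + u)) ^ 2 ≤ 2 * (t ^ 2 * s ^ 2) + 2 * (t ^ 2 * u ^ 2) := by
          nlinarith [sq_nonneg (t * (s - u))]
        have h6 : t ^ 2 * u ^ 2 ≤ t ^ 3 * u := by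
          have : t ^ 2 * u ^ 2 = t ^ 2 * (u * u) := by ring
          rw [this]
          have : t ^ 3 * u = t ^ 2 * (t * u) := by ring
          rw [this]
          exact mul_le_mul_of_nonneg_left (mul_le_mul_of_nonneg_right hut hu0) (by positivity)
        rw [hss] at h5
        linarith
      have h5 : 2 * (t ^ 2 * s) ≤ t ^ 4 * (1 / d) + s * d := by
        have h6 : 0 ≤ (t ^ 2 - s * d) ^ 2 / d := by positivity
        have h7 : (t ^ 2 - s * d) ^ 2 / d = t ^ 4 * (1 / d) - 2 * (t ^ 2 * s) + s ^ 2 * d := by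
          field_simp
          ring
        rw [h7, hss] at h6
        linarith
      have h6 : 2 * (t ^ 3 * u) ≤ t ^ 7 * (1 / d) + u * d := by
        have h6 : 0 ≤ u * ((t ^ 3 - d) ^ 2 / d) := by positivity
        have h7 : u * ((t ^ 3 - d) ^ 2 / d) = u * t ^ 6 * (1 / d) - 2 * (t ^ 3 * u) + u * d := by
          field_simp
          ring
        have h8 : u * t ^ 6 * (1 / d) ≤ t ^ 7 * (1 / d) := by
          have h9 : u * t ^ 6 ≤ t * t ^ 6 := mul_le_mul_of_nonneg_right hut (by positivity)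
          have h10 : t * t ^ 6 = t ^ 7 := by ring
          rw [h10] at h9
          exact mul_le_mul_of_nonneg_right h9 (by positivity)
        rw [h7] at h6
        linarith
      linarith
    refine (Finset.sum_le_sum h1).trans ?_
    rw [Finset.sum_add_distrib, Finset.sum_add_distrib, Finset.sum_add_distrib,
      ← Finset.sum_mul, ← Finset.sum_mul, ← Finset.sum_mul, ← Finset.sum_mul]
    have hX1 : 1 ≤ X := by omega
    have h4 := (hC4 X hX1).1
    have h7 := (hC7 X hX1).1
    rw [← hL] at h4 h7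
    have hbig : ∀ c, c ≤ C → (1 + L) ^ c ≤ L ^ (2 * C) := by
      intro c hc
      calc (1 + L) ^ c ≤ (L ^ 2) ^ c := pow_le_pow_left₀ (by positivity) (by nlinarith) _
        _ = L ^ (2 * c) := (pow_mul _ _ _).symm
        _ ≤ L ^ (2 * C) := hpw (by omega)
    have h4' : ∑ n ∈ Icc 1 X, (n.divisors.card : ℝ) ^ 4 ≤ X * L ^ (2 * C) :=
      h4.trans (mul_le_mul_of_nonneg_left (hbig C4 (by omega)) (by positivity))
    have h7' : ∑ n ∈ Icc 1 X, (n.divisors.card : ℝ) ^ 7 ≤ X * L ^ (2 * C) :=
      h7.trans (mul_le_mul_of_nonneg_left (hbig C7 (by omega)) (by positivity))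
    have hq := sdc_sumq X hw1
    have hr := sdc_sumr X
    have hq' : ∑ n ∈ Icc 1 X, sdq X n ≤ X / L ^ A' := by
      refine hq.trans ?_
      rw [div_eq_mul_one_div (X : ℝ)]
      apply mul_le_mul_of_nonneg_left _ (by positivity)
      rw [div_le_div_iff₀ (by linarith) (by positivity)]
      rw [pow_succ] at hLw
      nlinarith [pow_pos hLp A']
    have hr' : ∑ n ∈ Icc 1 X, (rh X n : ℝ) ≤ X / L ^ A' := by
      refine hr.trans ?_
      rw [div_eq_mul_one_div (X : ℝ)]
      exact mul_le_mul_of_nonneg_left hT (by positivity)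
    have hXp : (0 : ℝ) < X := by linarith
    have hLD : 0 < L ^ D := by positivity
    have hs1 : (∑ n ∈ Icc 1 X, (n.divisors.card : ℝ) ^ 4) * (1 / L ^ D) +
        (∑ n ∈ Icc 1 X, (n.divisors.card : ℝ) ^ 7) * (1 / L ^ D) ≤ X / (2 * L ^ A) := by
      have h8 : (∑ n ∈ Icc 1 X, (n.divisors.card : ℝ) ^ 4) * (1 / L ^ D) +
          (∑ n ∈ Icc 1 X, (n.divisors.card : ℝ) ^ 7) * (1 / L ^ D) ≤
          (X * L ^ (2 * C)) * (1 / L ^ D) + (X * L ^ (2 * C)) * (1 / L ^ D) := by
        gcongr
      refine h8.trans ?_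
      have h9 : (X * L ^ (2 * C)) * (1 / L ^ D) + (X * L ^ (2 * C)) * (1 / L ^ D) =
          2 * X * L ^ (2 * C) / L ^ D := by ring
      rw [h9, div_le_div_iff₀ (by positivity) (by positivity)]
      have h10 : 4 * (L ^ (2 * C) * L ^ A) ≤ L ^ D := by
        rw [hD, pow_succ, pow_add]
        have : (4 : ℝ) ≤ L := by linarith
        calc 4 * (L ^ (2 * C) * L ^ A) ≤ L * (L ^ (2 * C) * L ^ A) := by gcongr
          _ = L ^ A * L ^ (2 * C) * L := by ring
      calc 2 * X * L ^ (2 * C) * (2 * L ^ A) = X * (4 * (L ^ (2 * C) * L ^ A)) := by ring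
        _ ≤ X * L ^ D := mul_le_mul_of_nonneg_left h10 hXp.le
    have hs2 : (∑ n ∈ Icc 1 X, sdq X n) * L ^ D + (∑ n ∈ Icc 1 X, (rh X n : ℝ)) * L ^ D ≤
        X / (2 * L ^ A) := by
      have h8 : (∑ n ∈ Icc 1 X, sdq X n) * L ^ D + (∑ n ∈ Icc 1 X, (rh X n : ℝ)) * L ^ D ≤
          X / L ^ A' * L ^ D + X / L ^ A' * L ^ D := by
        gcongr
      refine h8.trans ?_
      have h9 : (X : ℝ) / L ^ A' * L ^ D + X / L ^ A' * L ^ D = 2 * X * L ^ D / L ^ A' := by ring
      rw [h9, div_le_div_iff₀ (by positivity) (by positivity)]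
      have h10 : 4 * (L ^ D * L ^ A) ≤ L ^ A' := by
        rw [hA', pow_succ, pow_add]
        have : (4 : ℝ) ≤ L := by linarith
        calc 4 * (L ^ D * L ^ A) ≤ L * (L ^ D * L ^ A) := by gcongr
          _ = L ^ A * L ^ D * L := by ring
      calc 2 * X * L ^ D * (2 * L ^ A) = X * (4 * (L ^ D * L ^ A)) := by ring
        _ ≤ X * L ^ A' := mul_le_mul_of_nonneg_left h10 hXp.le
    have hfin : (X : ℝ) / (2 * L ^ A) + X / (2 * L ^ A) = X / L ^ A := by
      field_simp
      ring
    rw [← hfin]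
    exact add_le_add hs1 hs2

end Pool.MP_dd84fd_nt.T7
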