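import Pool.Agent.Lib.MP_dd84fd_nt.T7.FourW
import Pool.Agent.Lib.MP_dd84fd_nt.T7.SepRaw
import Pool.Agent.Lib.MP_dd84fd_nt.L2G.CharOrth
import Pool.Agent.Lib.MP_dd84fd_nt.L2G.DivMom
import Pool.Agent.Lib.MP_dd84fd_nt.DivBound

/-!
T7-06 SmoothChar (uses FourW, SepRaw, char_ms, div_mom, div_bound). L = log X, H = ceil(L^A2) (A2 large in terms of A, B and the C of sep_raw: the error term of sep_raw is then <= X^2/(2L^A)), K = floor(X/P) >= 1.
For each i, c (at most 10 H r <= L^C' pairs): sum_{chi in G} |A|^2|B|^2 <= (sum_{chi != 1} |A|^4)^(1/2) (sum_chi |B|^4)^(1/2).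
(cell i) cap [P,2P) is an interval of length <= P; a is monotone on it, 0 <= a <= 1+log(2X): four_prog: sum |A|^4 <= C X^(1/1000) (q^2 + q P^2) <= 2 C X^(1/1000) q P^2, because P^2 >= X^(9/10) >= q
(tau(q)^4 <= C q^(1/2000): div_bound). B^2 = sum_{n <= K^2} b2(n) chi(n), |b2(n)| <= (1+log n)^2 tau(n)^11: char_ms: sum_chi |B|^4 <= (K^2+q) K^2 (1+L)^C''.
Product: X^(1/500) sqrt(q P^2 (K^4 + q K^2)) <= X^(1/500) (sqrt q * P K^2 + q P K) <= X^(1/500) (X^(2/5) * X * X^(11/20) + X^(4/5) * X) <= 2 X^(1.953).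
-/

set_option autoImplicit false

namespace Pool.MP_dd84fd_nt.T7

open Finset Pool.MP_67663b_nt.Odd Pool.MP_dd84fd_nt.L2G

private theorem sc_ev_log (D : ℝ) (E : ℕ) (s : ℝ) (hs : 0 < s) :
    ∃ X0 : ℕ, ∀ X : ℕ, X0 ≤ X → D * Real.log X ^ E ≤ (X : ℝ) ^ s := by
  have h := (isLittleO_log_rpow_rpow_atTop (E : ℝ) hs).bound
    (show (0 : ℝ) < 1 / (|D| + 1) by positivity)
  have h2 := tendsto_natCast_atTop_atTop (R := ℝ) |>.eventually h
  obtain ⟨N, hN⟩ := Filter.eventually_atTop.mp h2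
  refine ⟨N, fun X hX => ?_⟩
  have h3 := hN X hX
  rw [Real.rpow_natCast] at h3
  have h4 : |Real.log X ^ E| ≤ 1 / (|D| + 1) * (X : ℝ) ^ s := by
    have := h3
    rw [Real.norm_eq_abs, Real.norm_eq_abs, abs_of_nonneg (Real.rpow_nonneg (Nat.cast_nonneg X) s)]
      at this
    exact this
  have hp : 0 < |D| + 1 := by positivity
  have hX0 : (0 : ℝ) ≤ (X : ℝ) ^ s := Real.rpow_nonneg (Nat.cast_nonneg X) s
  calc D * Real.log X ^ E ≤ |D * Real.log X ^ E| := le_abs_self _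
    _ = |D| * |Real.log X ^ E| := abs_mul _ _
    _ ≤ |D| * (1 / (|D| + 1) * (X : ℝ) ^ s) := mul_le_mul_of_nonneg_left h4 (abs_nonneg _)
    _ = (|D| / (|D| + 1)) * (X : ℝ) ^ s := by ring
    _ ≤ 1 * (X : ℝ) ^ s := by
        apply mul_le_mul_of_nonneg_right _ hX0
        rw [div_le_one hp]
        linarith
    _ = (X : ℝ) ^ s := one_mul _

/-- the fourth moment of the second factor -/
private theorem sc_fourB : ∃ C : ℕ, ∀ (q K : ℕ) [NeZero q] (b : ℕ → ℝ) (bc : ℕ → ℂ), 1 ≤ K →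
    (∀ n, 1 ≤ n → |b n| ≤ (1 + Real.log n) * (n.divisors.card : ℝ) ^ 5) →
    (∀ k, ‖bc k‖ ≤ |b k|) →
    ∑ χ : DirichletCharacter ℂ q, ‖∑ k ∈ Icc 1 K, bc k * χ k‖ ^ 4 ≤
      ((K : ℝ) ^ 2 + q) * ((K : ℝ) ^ 2 * (1 + 2 * Real.log K) ^ C) := by
  classical
  obtain ⟨C, hC⟩ := div_mom 22
  refine ⟨4 + C, ?_⟩
  intro q K _ b bc hK hb hbc
  set F : ℕ → Finset (ℕ × ℕ) := fun n =>
    ((Icc 1 K) ×ˢ (Icc 1 K)).filter (fun p : ℕ × ℕ => p.1 * p.2 = n) with hF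
  set b2 : ℕ → ℂ := fun n => ∑ p ∈ F n, bc p.1 * bc p.2 with hb2
  have hlogK : 0 ≤ Real.log K := Real.log_natCast_nonneg K
  have hsq : ∀ χ : DirichletCharacter ℂ q, (∑ k ∈ Icc 1 K, bc k * χ k) ^ 2 =
      ∑ n ∈ Ioc 0 (0 + K ^ 2), b2 n * χ n := by
    intro χ
    rw [sq, Finset.sum_mul_sum, ← Finset.sum_product']
    rw [← Finset.sum_fiberwise_of_maps_to (s := (Icc 1 K) ×ˢ (Icc 1 K)) (t := Ioc 0 (0 + K ^ 2))
      (g := fun p : ℕ × ℕ => p.1 * p.2)]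
    · refine Finset.sum_congr rfl fun n _ => ?_
      rw [hb2]
      simp only
      rw [Finset.sum_mul]
      refine Finset.sum_congr rfl fun p hp => ?_
      have hp2 : p.1 * p.2 = n := (Finset.mem_filter.1 hp).2
      rw [← hp2]
      push_cast
      rw [map_mul]
      ring
    · intro p hp
      rw [Finset.mem_product, Finset.mem_Icc, Finset.mem_Icc] at hp
      rw [Finset.mem_Ioc]
      refine ⟨Nat.mul_pos (by omega) (by omega), ?_⟩
      rw [zero_add, sq]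
      exact Nat.mul_le_mul hp.1.2 hp.2.2
  have h4 : ∀ χ : DirichletCharacter ℂ q, ‖∑ k ∈ Icc 1 K, bc k * χ k‖ ^ 4 =
      ‖∑ n ∈ Ioc 0 (0 + K ^ 2), b2 n * χ n‖ ^ 2 := by
    intro χ
    rw [← hsq χ, norm_pow, ← pow_mul]
  rw [Finset.sum_congr rfl fun χ _ => h4 χ]
  refine (char_ms q 0 (K ^ 2) b2).trans ?_
  push_cast
  refine mul_le_mul_of_nonneg_left ?_ (by positivity)
  -- coefficients
  have hcoef : ∀ n ∈ Ioc 0 (0 + K ^ 2), ‖b2 n‖ ^ 2 ≤
      (1 + 2 * Real.log K) ^ 4 * (n.divisors.card : ℝ) ^ 22 := by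
    intro n hn
    rw [Finset.mem_Ioc, zero_add] at hn
    have hn0 : n ≠ 0 := by omega
    have hlogn : Real.log n ≤ 2 * Real.log K := by
      have h1 : Real.log n ≤ Real.log ((K : ℝ) ^ 2) := by
        refine Real.log_le_log (by exact_mod_cast hn.1) ?_
        exact_mod_cast hn.2
      rw [Real.log_pow] at h1
      exact_mod_cast h1
    have hlogn0 : 0 ≤ Real.log n := Real.log_natCast_nonneg n
    have h1 : ‖b2 n‖ ≤ ∑ p ∈ F n, ((1 + Real.log n) * (n.divisors.card : ℝ) ^ 5) ^ 2 := by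
      refine (norm_sum_le _ _).trans (Finset.sum_le_sum fun p hp => ?_)
      rw [hF] at hp
      simp only [Finset.mem_filter, Finset.mem_product, Finset.mem_Icc] at hp
      obtain ⟨⟨hp1, hp2⟩, hp3⟩ := hp
      have key : ∀ m : ℕ, 1 ≤ m → m ∣ n →
          ‖bc m‖ ≤ (1 + Real.log n) * (n.divisors.card : ℝ) ^ 5 := by
        intro m hm hmn
        refine (hbc m).trans ((hb m hm).trans ?_)
        have e1 : Real.log m ≤ Real.log n :=
          Real.log_le_log (by exact_mod_cast hm)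
            (by exact_mod_cast Nat.le_of_dvd (by omega) hmn)
        have e2 : (m.divisors.card : ℝ) ≤ n.divisors.card := by
          exact_mod_cast Finset.card_le_card (Nat.divisors_subset_of_dvd hn0 hmn)
        have e3 : 0 ≤ Real.log m := Real.log_natCast_nonneg m
        exact mul_le_mul (by linarith) (pow_le_pow_left₀ (by positivity) e2 5) (by positivity)
          (by positivity)
      rw [norm_mul, sq]
      exact mul_le_mul (key p.1 hp1.1 ⟨p.2, hp3.symm⟩)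
        (key p.2 hp2.1 ⟨p.1, by rw [mul_comm]; exact hp3.symm⟩) (norm_nonneg _) (by positivity)
    have h2 : ((F n).card : ℝ) ≤ n.divisors.card := by
      have : (F n).card ≤ n.divisors.card := by
        refine Finset.card_le_card_of_injOn (fun p => p.1) ?_ ?_
        · intro p hp
          rw [Finset.mem_coe, hF] at hp
          simp only [Finset.mem_filter, Finset.mem_product, Finset.mem_Icc] at hp
          rw [Finset.mem_coe, Nat.mem_divisors]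
          exact ⟨⟨p.2, hp.2.symm⟩, hn0⟩
        · intro p hp p' hp' hpp
          rw [Finset.mem_coe, hF] at hp hp'
          simp only [Finset.mem_filter, Finset.mem_product, Finset.mem_Icc] at hp hp'
          have e1 : p.1 = p'.1 := hpp
          have e2 : p.1 * p.2 = p.1 * p'.2 := by rw [hp.2, e1, hp'.2]
          have e3 : p.2 = p'.2 := Nat.eq_of_mul_eq_mul_left (by omega) e2
          exact Prod.ext e1 e3
      exact_mod_cast this
    have h3 : ‖b2 n‖ ≤ (1 + 2 * Real.log K) ^ 2 * (n.divisors.card : ℝ) ^ 11 := by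
      refine h1.trans ?_
      rw [Finset.sum_const, nsmul_eq_mul]
      calc ((F n).card : ℝ) * ((1 + Real.log n) * (n.divisors.card : ℝ) ^ 5) ^ 2
          ≤ (n.divisors.card : ℝ) * ((1 + 2 * Real.log K) * (n.divisors.card : ℝ) ^ 5) ^ 2 := by
            gcongr
        _ = _ := by ring
    calc ‖b2 n‖ ^ 2 ≤ ((1 + 2 * Real.log K) ^ 2 * (n.divisors.card : ℝ) ^ 11) ^ 2 :=
          pow_le_pow_left₀ (norm_nonneg _) h3 2
      _ = _ := by ring
  refine (Finset.sum_le_sum hcoef).trans ?_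
  rw [← Finset.mul_sum]
  have hI : Ioc 0 (0 + K ^ 2) = Icc 1 (K ^ 2) := by
    ext n
    simp only [Finset.mem_Ioc, Finset.mem_Icc]
    omega
  rw [hI]
  have h5 := (hC (K ^ 2) (Nat.one_le_pow _ _ hK)).1
  have h6 : Real.log ((K ^ 2 : ℕ) : ℝ) = 2 * Real.log K := by
    push_cast
    rw [Real.log_pow]
    norm_num
  rw [h6] at h5
  push_cast at h5
  calc (1 + 2 * Real.log K) ^ 4 * ∑ n ∈ Icc 1 (K ^ 2), (n.divisors.card : ℝ) ^ 22
      ≤ (1 + 2 * Real.log K) ^ 4 * ((K : ℝ) ^ 2 * (1 + 2 * Real.log K) ^ C) :=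
        mul_le_mul_of_nonneg_left h5 (by positivity)
    _ = (K : ℝ) ^ 2 * (1 + 2 * Real.log K) ^ (4 + C) := by rw [pow_add]; ring

/-- the fourth moment of the first factor -/
private theorem sc_fourA {C : ℕ} (hC : ∀ (q : ℕ) [NeZero q] (r c M N : ℕ) (g : ℕ → ℝ) (G : ℝ),
    Nat.Coprime r q → 1 ≤ r → 0 ≤ G → MonotoneOn g (Set.Ico M N) →
    (∀ n ∈ Ico M N, 0 ≤ g n ∧ g n ≤ G) →
    ∑ χ ∈ univ.filter (fun χ : DirichletCharacter ℂ q => χ ≠ 1),
      ‖∑ n ∈ (Ico M N).filter (fun n => n % r = c), (g n : ℂ) * χ n‖ ^ 4 ≤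
      C * G ^ 4 * (q.divisors.card : ℝ) ^ 4 * (1 + Real.log q) ^ C *
        ((q : ℝ) ^ 2 + q * ((N - M : ℕ) : ℝ) ^ 2))
    (q : ℕ) [NeZero q] (r c M N P X : ℕ) (a : ArithmeticFunction ℝ) (hrq : Nat.Coprime r q)
    (hr : 1 ≤ r) (hP1 : 1 ≤ P) (hPX : P ≤ X) (hM : P ≤ M)
    (ha : ∀ n, a n ≠ 0 → P ≤ n ∧ n < 2 * P)
    (ha2 : ∀ n, 1 ≤ n → 0 ≤ a n ∧ a n ≤ 1 + Real.log n)
    (hmon : MonotoneOn (fun n => a n) (Set.Ico P (2 * P)))
    (𝓖 : Finset (DirichletCharacter ℂ q)) (h1 : (1 : DirichletCharacter ℂ q) ∉ 𝓖) :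
    ∑ χ ∈ 𝓖, ‖∑ m ∈ (Ico M N).filter (fun m => m % r = c), (a m : ℂ) * χ m‖ ^ 4 ≤
      C * (2 + Real.log X) ^ 4 * (q.divisors.card : ℝ) ^ 4 * (1 + Real.log q) ^ C *
        ((q : ℝ) ^ 2 + q * (P : ℝ) ^ 2) := by
  classical
  have hX1 : 1 ≤ X := hP1.trans hPX
  have hL : 0 ≤ Real.log X := Real.log_nonneg (by exact_mod_cast hX1)
  have hcut : ∀ χ : DirichletCharacter ℂ q,
      ∑ m ∈ (Ico M N).filter (fun m => m % r = c), (a m : ℂ) * χ m =
      ∑ m ∈ (Ico M (min N (2 * P))).filter (fun m => m % r = c), (a m : ℂ) * χ m := by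
    intro χ
    symm
    apply Finset.sum_subset
    · intro m hm
      rw [Finset.mem_filter, Finset.mem_Ico] at hm ⊢
      exact ⟨⟨hm.1.1, hm.1.2.trans_le (min_le_left _ _)⟩, hm.2⟩
    · intro m hm hm'
      rw [Finset.mem_filter, Finset.mem_Ico] at hm hm'
      have h2 : a m = 0 := by
        by_contra h0
        obtain ⟨-, h3⟩ := ha m h0
        exact hm' ⟨⟨hm.1.1, lt_min hm.1.2 h3⟩, hm.2⟩
      rw [h2]
      simp
  have hsub : ∑ χ ∈ 𝓖, ‖∑ m ∈ (Ico M N).filter (fun m => m % r = c), (a m : ℂ) * χ m‖ ^ 4 ≤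
      ∑ χ ∈ univ.filter (fun χ : DirichletCharacter ℂ q => χ ≠ 1),
        ‖∑ m ∈ (Ico M (min N (2 * P))).filter (fun m => m % r = c), (a m : ℂ) * χ m‖ ^ 4 := by
    rw [Finset.sum_congr rfl fun χ _ => by rw [hcut χ]]
    refine Finset.sum_le_sum_of_subset_of_nonneg ?_ (fun _ _ _ => by positivity)
    intro χ hχ
    rw [Finset.mem_filter]
    refine ⟨Finset.mem_univ _, ?_⟩
    rintro rfl
    exact h1 hχ
  refine hsub.trans ?_
  have hmain := hC q r c M (min N (2 * P)) (fun n => a n) (2 + Real.log X) hrq hr (by linarith)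
    (hmon.mono (by
      intro m hm
      exact ⟨hM.trans hm.1, hm.2.trans_le (min_le_right _ _)⟩))
    (by
      intro n hn
      rw [Finset.mem_Ico] at hn
      have hn1 : 1 ≤ n := hP1.trans (hM.trans hn.1)
      obtain ⟨h3, h4⟩ := ha2 n hn1
      refine ⟨h3, h4.trans ?_⟩
      have h5 : n ≤ 2 * X := by
        have := hn.2.trans_le (min_le_right _ _)
        omega
      have h6 : Real.log n ≤ Real.log (2 * X) :=
        Real.log_le_log (by exact_mod_cast hn1) (by exact_mod_cast h5)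
      have hX0 : (X : ℝ) ≠ 0 := by
        have : X ≠ 0 := by omega
        exact_mod_cast this
      rw [Real.log_mul (by norm_num) hX0] at h6
      have h7 : Real.log 2 ≤ 1 := by
        have := Real.log_two_lt_d9
        linarith
      linarith)
  refine hmain.trans ?_
  have hNM : ((min N (2 * P) - M : ℕ) : ℝ) ≤ P := by
    have : min N (2 * P) - M ≤ P := by
      have := min_le_right N (2 * P)
      omega
    exact_mod_cast this
  have hq1 : (1 : ℝ) ≤ q := by exact_mod_cast Nat.one_le_iff_ne_zero.2 (NeZero.ne q)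
  have hlq : 0 ≤ Real.log q := Real.log_nonneg hq1
  refine mul_le_mul_of_nonneg_left ?_ (by positivity)
  gcongr

private theorem sc_tau {C : ℕ} (hC : 1 ≤ C) (q X : ℕ) (hqX : q ≤ X)
    (h : q.divisors.card ^ 100 ≤ C * q) :
    (q.divisors.card : ℝ) ^ 4 ≤ C * (X : ℝ) ^ (1 / 25 : ℝ) := by
  have h1 : ((q.divisors.card : ℝ) ^ 4) ^ (25 : ℕ) ≤ C * X := by
    rw [← pow_mul]
    calc (q.divisors.card : ℝ) ^ (4 * 25) ≤ (C : ℝ) * q := by exact_mod_cast h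
      _ ≤ C * X := by
        have : (q : ℝ) ≤ X := by exact_mod_cast hqX
        gcongr
  have hCR : (1 : ℝ) ≤ C := by exact_mod_cast hC
  have h2 : (C : ℝ) * X ≤ (C * (X : ℝ) ^ (1 / 25 : ℝ)) ^ (25 : ℕ) := by
    rw [mul_pow]
    have e1 : ((X : ℝ) ^ (1 / 25 : ℝ)) ^ (25 : ℕ) = X := by
      rw [← Real.rpow_natCast, ← Real.rpow_mul (Nat.cast_nonneg X)]
      norm_num
    rw [e1]
    refine mul_le_mul_of_nonneg_right ?_ (Nat.cast_nonneg X)
    exact le_self_pow₀ hCR (by norm_num)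
  exact le_of_pow_le_pow_left₀ (by norm_num) (by positivity) (h1.trans h2)

/-- the arithmetic of the main term -/
private theorem sc_arith (C4 C5 C6 : ℕ) (L X q P K τ : ℝ) (hL : 2 ≤ L) (hX : 1 ≤ X)
    (hq1 : 1 ≤ q) (hq : q ≤ X ^ (4 / 5 : ℝ)) (hP : X ^ (9 / 20 : ℝ) ≤ P)
    (hK0 : 1 ≤ K) (hPK : P * K ≤ X) (hτ : τ ^ 4 ≤ C6 * X ^ (1 / 25 : ℝ))
    (hlq : 0 ≤ Real.log q) (hlqL : Real.log q ≤ L) (hlK : 0 ≤ Real.log K)
    (hlKL : Real.log K ≤ L)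
    (hbig : ((C4 : ℝ) * C6 * 2 ^ (C4 + 6) * 3 ^ C5) * L ^ (4 + C4 + C5) ≤ X ^ (1 / 50 : ℝ)) :
    (C4 * (2 + L) ^ 4 * τ ^ 4 * (1 + Real.log q) ^ C4 * (q ^ 2 + q * P ^ 2)) *
      ((K ^ 2 + q) * (K ^ 2 * (1 + 2 * Real.log K) ^ C5)) ≤ (X ^ (198 / 100 : ℝ)) ^ 2 := by
  have hX0 : 0 < X := by linarith
  have hP0 : 0 < P := lt_of_lt_of_le (by positivity) hP
  have hP2 : q ≤ P ^ 2 := by
    refine hq.trans ?_
    calc X ^ (4 / 5 : ℝ) ≤ X ^ (9 / 10 : ℝ) := Real.rpow_le_rpow_of_exponent_le hX (by norm_num)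
      _ = (X ^ (9 / 20 : ℝ)) ^ 2 := by
          rw [← Real.rpow_natCast, ← Real.rpow_mul hX0.le]
          norm_num
      _ ≤ P ^ 2 := pow_le_pow_left₀ (by positivity) hP 2
  have hK : K ≤ X ^ (11 / 20 : ℝ) := by
    have h1 : X ^ (9 / 20 : ℝ) * K ≤ X ^ (9 / 20 : ℝ) * X ^ (11 / 20 : ℝ) := by
      rw [← Real.rpow_add hX0]
      norm_num
      exact (mul_le_mul_of_nonneg_right hP (by linarith)).trans hPK
    exact le_of_mul_le_mul_left h1 (by positivity)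
  have hK2 : K ^ 2 ≤ X ^ (11 / 10 : ℝ) := by
    calc K ^ 2 ≤ (X ^ (11 / 20 : ℝ)) ^ 2 := pow_le_pow_left₀ (by linarith) hK 2
      _ = X ^ (11 / 10 : ℝ) := by
          rw [← Real.rpow_natCast, ← Real.rpow_mul hX0.le]
          norm_num
  have hq2 : q ≤ X ^ (11 / 10 : ℝ) :=
    hq.trans (Real.rpow_le_rpow_of_exponent_le hX (by norm_num))
  have h1 : q ^ 2 + q * P ^ 2 ≤ 2 * (q * P ^ 2) := by nlinarith
  have h2 : (q ^ 2 + q * P ^ 2) * ((K ^ 2 + q) * K ^ 2) ≤ 4 * X ^ (39 / 10 : ℝ) := by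
    calc (q ^ 2 + q * P ^ 2) * ((K ^ 2 + q) * K ^ 2)
        ≤ (2 * (q * P ^ 2)) * ((K ^ 2 + q) * K ^ 2) := by gcongr
      _ = 2 * (q * (P * K) ^ 2 * (K ^ 2 + q)) := by ring
      _ ≤ 2 * (X ^ (4 / 5 : ℝ) * X ^ 2 * (X ^ (11 / 10 : ℝ) + X ^ (11 / 10 : ℝ))) := by
          gcongr
      _ = 4 * (X ^ (4 / 5 : ℝ) * X ^ (2 : ℝ) * X ^ (11 / 10 : ℝ)) := by
          rw [← Real.rpow_natCast X 2]
          push_cast
          ring
      _ = 4 * X ^ (39 / 10 : ℝ) := by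
          rw [← Real.rpow_add hX0, ← Real.rpow_add hX0]
          norm_num
  have h3 : (2 + L) ^ 4 * (1 + Real.log q) ^ C4 * (1 + 2 * Real.log K) ^ C5 ≤
      (2 ^ (C4 + 4) * 3 ^ C5) * L ^ (4 + C4 + C5) := by
    calc (2 + L) ^ 4 * (1 + Real.log q) ^ C4 * (1 + 2 * Real.log K) ^ C5
        ≤ (2 * L) ^ 4 * (2 * L) ^ C4 * (3 * L) ^ C5 := by
          gcongr
          · linarith
          · linarith
          · linarith
      _ = _ := by
          rw [mul_pow, mul_pow, mul_pow, pow_add, pow_add, pow_add]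
          ring
  calc (C4 * (2 + L) ^ 4 * τ ^ 4 * (1 + Real.log q) ^ C4 * (q ^ 2 + q * P ^ 2)) *
      ((K ^ 2 + q) * (K ^ 2 * (1 + 2 * Real.log K) ^ C5))
      = C4 * τ ^ 4 * ((2 + L) ^ 4 * (1 + Real.log q) ^ C4 * (1 + 2 * Real.log K) ^ C5) *
        ((q ^ 2 + q * P ^ 2) * ((K ^ 2 + q) * K ^ 2)) := by ring
    _ ≤ C4 * (C6 * X ^ (1 / 25 : ℝ)) * ((2 ^ (C4 + 4) * 3 ^ C5) * L ^ (4 + C4 + C5)) *
        (4 * X ^ (39 / 10 : ℝ)) := by gcongr
    _ = (((C4 : ℝ) * C6 * 2 ^ (C4 + 6) * 3 ^ C5) * L ^ (4 + C4 + C5)) *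
        (X ^ (1 / 25 : ℝ) * X ^ (39 / 10 : ℝ)) := by
          rw [show C4 + 6 = (C4 + 4) + 2 by ring, pow_add 2 (C4 + 4) 2]
          ring
    _ ≤ X ^ (1 / 50 : ℝ) * (X ^ (1 / 25 : ℝ) * X ^ (39 / 10 : ℝ)) := by gcongr
    _ = (X ^ (198 / 100 : ℝ)) ^ 2 := by
          rw [← Real.rpow_natCast (X ^ (198 / 100 : ℝ)) 2, ← Real.rpow_mul hX0.le,
            ← Real.rpow_add hX0, ← Real.rpow_add hX0]
          norm_num

theorem smooth_char (A B : ℕ) : ∃ X0 : ℕ, ∀ X : ℕ, X0 ≤ X →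
    ∀ (q : ℕ) [NeZero q], (q : ℝ) ≤ (X : ℝ) ^ (4 / 5 : ℝ) → ∀ (r : ℕ) (y : ℤ) (β : ℝ), 1 ≤ r →
    (r : ℝ) ≤ Real.log X ^ B → Nat.Coprime r q → |β| ≤ Real.log X ^ B / X →
    ∀ (P : ℕ) (a b : ArithmeticFunction ℝ), (X : ℝ) ^ (9 / 20 : ℝ) ≤ P → P ≤ X →
      (∀ n, a n ≠ 0 → P ≤ n ∧ n < 2 * P) → (∀ n, 1 ≤ n → 0 ≤ a n ∧ a n ≤ 1 + Real.log n) →
      MonotoneOn (fun n => a n) (Set.Ico P (2 * P)) →
      (∀ n, 1 ≤ n → |b n| ≤ (1 + Real.log n) * (n.divisors.card : ℝ) ^ 5) →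
      ∀ 𝓖 : Finset (DirichletCharacter ℂ q), (1 : DirichletCharacter ℂ q) ∉ 𝓖 →
        ∑ χ ∈ 𝓖, ‖Tc X q (fun n => (a * b) n) (y / r + β) χ‖ ^ 2 ≤ X ^ 2 / Real.log X ^ A := by
  classical
  obtain ⟨C1, hC1⟩ := sep_raw
  obtain ⟨C4, hC4⟩ := four_prog
  obtain ⟨C5, hC5⟩ := sc_fourB
  obtain ⟨C6, hC61, hC6⟩ := Pool.Agent.Lib.MP_dd84fd_nt.DivBound.div_bound 100
  obtain ⟨M, hM⟩ : ∃ M : ℕ, M = A + 2 * C1 + 2 := ⟨_, rfl⟩
  obtain ⟨A2, hA2⟩ : ∃ A2 : ℕ, A2 = 2 * (M + B) := ⟨_, rfl⟩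
  obtain ⟨X1, hX1⟩ := sc_ev_log ((C4 : ℝ) * C6 * 2 ^ (C4 + 6) * 3 ^ C5) (4 + C4 + C5) (1 / 50)
    (by norm_num)
  obtain ⟨X2, hX2⟩ := sc_ev_log 400 (2 * (A2 + 1) + 2 * B + A) (1 / 50) (by norm_num)
  obtain ⟨X3, hX3⟩ := sc_ev_log 1 (A2 + 1 + B) 1 (by norm_num)
  obtain ⟨X4, hX4⟩ : ∃ X4 : ℕ, ∀ X : ℕ, X4 ≤ X → 2 ≤ Real.log X := by
    have h := (Real.tendsto_log_atTop.comp (tendsto_natCast_atTop_atTop (R := ℝ))).eventually
      (Filter.eventually_ge_atTop 2)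
    exact Filter.eventually_atTop.1 h
  refine ⟨max (max X1 X2) (max X3 X4) + 2, ?_⟩
  intro X hX q _ hq r y β hr1 hr hcop hβ P a b hP1 hPX hasupp ha2 hmon hb 𝓖 h1G
  have hXX1 : X1 ≤ X := by
    have := le_max_left X1 X2
    have := le_max_left (max X1 X2) (max X3 X4)
    omega
  have hXX2 : X2 ≤ X := by
    have := le_max_right X1 X2
    have := le_max_left (max X1 X2) (max X3 X4)
    omega
  have hXX3 : X3 ≤ X := by
    have := le_max_left X3 X4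
    have := le_max_right (max X1 X2) (max X3 X4)
    omega
  have hXX4 : X4 ≤ X := by
    have := le_max_right X3 X4
    have := le_max_right (max X1 X2) (max X3 X4)
    omega
  have hb1 := hX1 X hXX1
  have hb2 := hX2 X hXX2
  have hb3 := hX3 X hXX3
  have hL2 := hX4 X hXX4
  rw [Real.rpow_one, one_mul] at hb3
  obtain ⟨L, hL⟩ : ∃ L : ℝ, L = Real.log X := ⟨_, rfl⟩
  rw [← hL] at hb1 hb2 hb3 hL2 hr hβ ⊢
  have hX2' : 2 ≤ X := by omega
  have hXR : (2 : ℝ) ≤ X := by exact_mod_cast hX2'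
  have hXp : (0 : ℝ) < X := by linarith
  have hX1' : (1 : ℝ) ≤ X := by linarith
  have hL1 : 1 ≤ L := by linarith
  have hLp : 0 < L := by linarith
  have hpw : ∀ {i j : ℕ}, i ≤ j → L ^ i ≤ L ^ j := fun h => pow_le_pow_right₀ hL1 h
  have hq1 : 1 ≤ q := Nat.one_le_iff_ne_zero.2 (NeZero.ne q)
  have hqX : (q : ℝ) ≤ X := by
    refine hq.trans ?_
    calc (X : ℝ) ^ (4 / 5 : ℝ) ≤ (X : ℝ) ^ (1 : ℝ) :=
          Real.rpow_le_rpow_of_exponent_le hX1' (by norm_num)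
      _ = X := Real.rpow_one _
  have hqXn : q ≤ X := by exact_mod_cast hqX
  have hPpos : 1 ≤ P := by
    have h1 : (0 : ℝ) < P := lt_of_lt_of_le (by positivity) hP1
    have h2 : 0 < P := by exact_mod_cast h1
    omega
  obtain ⟨H, hH⟩ : ∃ H : ℕ, H = ⌈L ^ A2⌉₊ := ⟨_, rfl⟩
  have hLA2 : 1 ≤ L ^ A2 := one_le_pow₀ hL1
  have hHlow : L ^ A2 ≤ H := by rw [hH]; exact Nat.le_ceil _
  have hH1 : 1 ≤ H := by
    have : (1 : ℝ) ≤ H := hLA2.trans hHlow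
    exact_mod_cast this
  have hHup : (H : ℝ) ≤ L ^ (A2 + 1) := by
    rw [hH]
    have h1 := (Nat.ceil_lt_add_one (by positivity : 0 ≤ L ^ A2)).le
    rw [pow_succ]
    nlinarith
  have hHX : H ≤ X := by
    have h1 : (H : ℝ) ≤ X := hHup.trans ((hpw (by omega)).trans hb3)
    exact_mod_cast h1
  have hrX : r ≤ X := by
    have h1 : (r : ℝ) ≤ X := hr.trans ((hpw (by omega)).trans hb3)
    exact_mod_cast h1
  obtain ⟨K, hK⟩ : ∃ K : ℕ, K = X / P := ⟨_, rfl⟩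
  have hK1 : 1 ≤ K := by
    rw [hK, Nat.one_le_div_iff (by omega)]
    exact hPX
  have hPKX : (P : ℝ) * K ≤ X := by
    have h1 : P * K ≤ X := by
      rw [hK]
      exact Nat.mul_div_le X P
    exact_mod_cast h1
  have hKX : K ≤ X := by
    rw [hK]
    exact Nat.div_le_self _ _
  have ha5 : ∀ n, 1 ≤ n → |a n| ≤ (1 + Real.log n) * (n.divisors.card : ℝ) ^ 5 := by
    intro n hn
    obtain ⟨h1, h2⟩ := ha2 n hn
    rw [abs_of_nonneg h1]
    have h3 : (1 : ℝ) ≤ n.divisors.card := by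
      have : 0 < n.divisors.card := Finset.card_pos.2 ⟨1, by
        rw [Nat.mem_divisors]; exact ⟨one_dvd _, by omega⟩⟩
      exact_mod_cast this
    have h4 : (1 : ℝ) ≤ (n.divisors.card : ℝ) ^ 5 := one_le_pow₀ h3
    have h5 : 0 ≤ Real.log n := Real.log_natCast_nonneg n
    nlinarith
  obtain ⟨bc, hbc, hmain⟩ := hC1 X q r H P K hX2' hqXn hr1 hrX hH1 hHX hPpos hPX hK1 a b ha5 hb
    (fun n hn => by
      obtain ⟨h1, h2⟩ := hasupp n hn
      exact ⟨h1, by omega⟩)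
    (fun k _ hPk => by
      rw [hK, Nat.le_div_iff_mul_le (by omega), mul_comm]
      exact hPk) y β
  have hmain2 := hmain 𝓖
  have hTc : ∑ χ ∈ 𝓖, ‖Tc X q (fun n => (a * b) n) (y / r + β) χ‖ ^ 2 =
      ∑ χ ∈ 𝓖, ‖∑ n ∈ Icc 1 X, (((a * b) n : ℝ) : ℂ) * χ n * ee (n * (y / r + β))‖ ^ 2 := rfl
  rw [hTc]
  refine hmain2.trans ?_
  rw [← hL]
  -- one pair of a cell and a class
  have hone : ∀ i c : ℕ, ∑ χ ∈ 𝓖,
      ‖∑ m ∈ (Ico (cell P H i) (cell P H (i + 1))).filter (fun m => m % r = c),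
          (a m : ℂ) * χ m‖ ^ 2 * ‖∑ k ∈ Icc 1 K, bc i c k * χ k‖ ^ 2 ≤
      (X : ℝ) ^ (198 / 100 : ℝ) := by
    intro i c
    have hMc : P ≤ cell P H i := by
      have h1 := cell_mono P H (Nat.zero_le i)
      rw [cell_zero] at h1
      exact h1
    have hA := sc_fourA (C := C4) (fun q _ => hC4 q) q r c (cell P H i) (cell P H (i + 1)) P X a hcop hr1 hPpos
      hPX hMc hasupp ha2 hmon 𝓖 h1G
    have hB := hC5 q K (fun n => b n) (bc i c) hK1 hb (hbc i c)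
    have hB2 : ∑ χ ∈ 𝓖, ‖∑ k ∈ Icc 1 K, bc i c k * χ k‖ ^ 4 ≤
        ((K : ℝ) ^ 2 + q) * ((K : ℝ) ^ 2 * (1 + 2 * Real.log K) ^ C5) :=
      (Finset.sum_le_univ_sum_of_nonneg fun χ => by positivity).trans hB
    have hCS := Finset.sum_mul_sq_le_sq_mul_sq 𝓖
      (fun χ => ‖∑ m ∈ (Ico (cell P H i) (cell P H (i + 1))).filter (fun m => m % r = c),
          (a m : ℂ) * χ m‖ ^ 2) (fun χ => ‖∑ k ∈ Icc 1 K, bc i c k * χ k‖ ^ 2)
    simp only [← pow_mul] at hCS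
    norm_num at hCS
    rw [← hL] at hA
    have hlq : 0 ≤ Real.log q := Real.log_natCast_nonneg q
    have hlqL : Real.log q ≤ L := by
      rw [hL]
      exact Real.log_le_log (by exact_mod_cast hq1) hqX
    have hlK : 0 ≤ Real.log K := Real.log_natCast_nonneg K
    have hlKL : Real.log K ≤ L := by
      rw [hL]
      exact Real.log_le_log (by exact_mod_cast hK1) (by exact_mod_cast hKX)
    have harith := sc_arith C4 C5 C6 L X q P K (q.divisors.card : ℝ) hL2 hX1'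
      (by exact_mod_cast hq1) hq hP1 (by exact_mod_cast hK1) hPKX
      (sc_tau hC61 q X hqXn (hC6 q (NeZero.ne q))) hlq hlqL hlK hlKL
      hb1
    have hprod := hCS.trans ((mul_le_mul hA hB2 (Finset.sum_nonneg fun _ _ => by positivity)
      (by positivity)).trans harith)
    exact le_of_pow_le_pow_left₀ (by norm_num) (by positivity) hprod
  have hHp : (0 : ℝ) < H := by linarith
  have hrp : (0 : ℝ) ≤ r := Nat.cast_nonneg r
  have hLA : 0 < L ^ A := by positivity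
  have hT1 : 20 * (H : ℝ) * r * ∑ i ∈ range (10 * H), ∑ c ∈ range r, ∑ χ ∈ 𝓖,
      ‖∑ m ∈ (Ico (cell P H i) (cell P H (i + 1))).filter (fun m => m % r = c),
          (a m : ℂ) * χ m‖ ^ 2 * ‖∑ k ∈ Icc 1 K, bc i c k * χ k‖ ^ 2 ≤ X ^ 2 / (2 * L ^ A) := by
    have h1 : ∑ i ∈ range (10 * H), ∑ c ∈ range r, ∑ χ ∈ 𝓖,
        ‖∑ m ∈ (Ico (cell P H i) (cell P H (i + 1))).filter (fun m => m % r = c),
          (a m : ℂ) * χ m‖ ^ 2 * ‖∑ k ∈ Icc 1 K, bc i c k * χ k‖ ^ 2 ≤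
        ∑ _i ∈ range (10 * H), ∑ _c ∈ range r, (X : ℝ) ^ (198 / 100 : ℝ) :=
      Finset.sum_le_sum fun i _ => Finset.sum_le_sum fun c _ => hone i c
    rw [Finset.sum_const, Finset.sum_const, Finset.card_range, Finset.card_range, nsmul_eq_mul,
      nsmul_eq_mul] at h1
    push_cast at h1
    have h2 : (H : ℝ) ^ 2 ≤ L ^ (2 * (A2 + 1)) := by
      calc (H : ℝ) ^ 2 ≤ (L ^ (A2 + 1)) ^ 2 := pow_le_pow_left₀ hHp.le hHup 2
        _ = L ^ (2 * (A2 + 1)) := by rw [← pow_mul, mul_comm]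
    have h3 : (r : ℝ) ^ 2 ≤ L ^ (2 * B) := by
      calc (r : ℝ) ^ 2 ≤ (L ^ B) ^ 2 := pow_le_pow_left₀ hrp hr 2
        _ = L ^ (2 * B) := by rw [← pow_mul, mul_comm]
    rw [le_div_iff₀ (by positivity)]
    calc 20 * (H : ℝ) * r * (∑ i ∈ range (10 * H), ∑ c ∈ range r, ∑ χ ∈ 𝓖,
        ‖∑ m ∈ (Ico (cell P H i) (cell P H (i + 1))).filter (fun m => m % r = c),
          (a m : ℂ) * χ m‖ ^ 2 * ‖∑ k ∈ Icc 1 K, bc i c k * χ k‖ ^ 2) * (2 * L ^ A)
        ≤ 20 * (H : ℝ) * r * (10 * H * (r * (X : ℝ) ^ (198 / 100 : ℝ))) * (2 * L ^ A) := by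
          gcongr
      _ = 400 * ((H : ℝ) ^ 2 * (r : ℝ) ^ 2 * L ^ A) * (X : ℝ) ^ (198 / 100 : ℝ) := by ring
      _ ≤ 400 * (L ^ (2 * (A2 + 1)) * L ^ (2 * B) * L ^ A) * (X : ℝ) ^ (198 / 100 : ℝ) := by
          gcongr
      _ = (400 * L ^ (2 * (A2 + 1) + 2 * B + A)) * (X : ℝ) ^ (198 / 100 : ℝ) := by
          rw [pow_add, pow_add]
      _ ≤ (X : ℝ) ^ (1 / 50 : ℝ) * (X : ℝ) ^ (198 / 100 : ℝ) := by gcongr
      _ = (X : ℝ) ^ 2 := by
          rw [← Real.rpow_add hXp, ← Real.rpow_natCast (X : ℝ) 2]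
          norm_num
  have hT2 : (|β| * X / H) ^ 2 ≤ 1 / L ^ M := by
    have h1 : |β| * X ≤ L ^ B := by
      rw [le_div_iff₀ hXp] at hβ
      exact hβ
    have h2 : |β| * X / H ≤ 1 / L ^ M := by
      rw [div_le_div_iff₀ hHp (by positivity), one_mul]
      calc |β| * X * L ^ M ≤ L ^ B * L ^ M := mul_le_mul_of_nonneg_right h1 (by positivity)
        _ = L ^ (B + M) := (pow_add _ _ _).symm
        _ ≤ L ^ A2 := hpw (by omega)
        _ ≤ H := hHlow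
    have h3 : 0 ≤ |β| * X / H := by positivity
    have h4 : (1 : ℝ) / L ^ M ≤ 1 := by
      rw [div_le_one (by positivity)]
      exact one_le_pow₀ hL1
    nlinarith
  have hT3 : 1 / Real.sqrt H ≤ 1 / L ^ M := by
    refine one_div_le_one_div_of_le (by positivity) ?_
    apply Real.le_sqrt_of_sq_le
    calc (L ^ M) ^ 2 = L ^ (M * 2) := (pow_mul _ _ _).symm
      _ ≤ L ^ A2 := hpw (by omega)
      _ ≤ H := hHlow
  have hT4 : (2 + L) ^ C1 * ((X : ℝ) ^ 2 * ((|β| * X / H) ^ 2 + 1 / Real.sqrt H)) ≤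
      X ^ 2 / (2 * L ^ A) := by
    have hCb : (2 + L) ^ C1 ≤ L ^ (2 * C1) := by
      rw [pow_mul]
      exact pow_le_pow_left₀ (by positivity) (by nlinarith) _
    have h1 : (X : ℝ) ^ 2 * ((|β| * X / H) ^ 2 + 1 / Real.sqrt H) ≤
        (X : ℝ) ^ 2 * (1 / L ^ M + 1 / L ^ M) :=
      mul_le_mul_of_nonneg_left (add_le_add hT2 hT3) (by positivity)
    calc (2 + L) ^ C1 * ((X : ℝ) ^ 2 * ((|β| * X / H) ^ 2 + 1 / Real.sqrt H))
        ≤ L ^ (2 * C1) * ((X : ℝ) ^ 2 * (1 / L ^ M + 1 / L ^ M)) :=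
          mul_le_mul hCb h1 (by positivity) (by positivity)
      _ = 2 * (L ^ (2 * C1) * (X : ℝ) ^ 2) / L ^ M := by ring
      _ ≤ X ^ 2 / (2 * L ^ A) := by
          rw [div_le_div_iff₀ (by positivity) (by positivity), hM, pow_add, pow_add]
          have h2 : (4 : ℝ) ≤ L ^ 2 := by nlinarith
          calc 2 * (L ^ (2 * C1) * (X : ℝ) ^ 2) * (2 * L ^ A)
              = 4 * (X ^ 2 * (L ^ A * L ^ (2 * C1))) := by ring
            _ ≤ L ^ 2 * (X ^ 2 * (L ^ A * L ^ (2 * C1))) :=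
                mul_le_mul_of_nonneg_right h2 (by positivity)
            _ = X ^ 2 * (L ^ A * L ^ (2 * C1) * L ^ 2) := by ring
  calc _ ≤ (X : ℝ) ^ 2 / (2 * L ^ A) + X ^ 2 / (2 * L ^ A) := add_le_add hT1 hT4
    _ = X ^ 2 / L ^ A := by
        field_simp
        norm_num

end Pool.MP_dd84fd_nt.T7
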