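import Pool.Agent.Lib.MP_dd84fd_nt.T7.SvBasic
import Pool.Agent.Lib.MP_dd84fd_nt.T7.SmoothChar
import Pool.Agent.Lib.MP_dd84fd_nt.L2G.CharOrth
import Pool.Agent.Lib.MP_dd84fd_nt.L2G.DivMom

/-!
T7-44 SvIChar: the Type I part of `Sv` against characters. On `[1,X]` the function `ze` is the sum
of its dyadic pieces; long pieces are treated by `smooth_char`, short ones by `char_ms`.
-/

set_option autoImplicit false

namespace Pool.MP_dd84fd_nt.T7

open Finset Pool.MP_67663b_nt.Odd Pool.MP_dd84fd_nt.L2G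

private theorem sic_ev_log (D : ℝ) (E : ℕ) (s : ℝ) (hs : 0 < s) :
    ∃ X0 : ℕ, ∀ X : ℕ, X0 ≤ X → D * Real.log X ^ E ≤ (X : ℝ) ^ s := by
  have h := (isLittleO_log_rpow_rpow_atTop (E : ℝ) hs).bound
    (show (0 : ℝ) < 1 / (|D| + 1) by positivity)
  have h2 := tendsto_natCast_atTop_atTop (R := ℝ) |>.eventually h
  obtain ⟨N, hN⟩ := Filter.eventually_atTop.mp h2
  refine ⟨N, fun X hX => ?_⟩
  have h3 := hN X hX
  rw [Real.rpow_natCast] at h3
  have h4 : |Real.log X ^ E| ≤ 1 / (|D| + 1) * (X : ℝ) ^ s := by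
    have := h3
    rw [Real.norm_eq_abs, Real.norm_eq_abs, abs_of_nonneg (Real.rpow_nonneg (Nat.cast_nonneg X) s)]
      at this
    exact this
  have hp : 0 < |D| + 1 := by positivity
  have hX0 : (0 : ℝ) ≤ (X : ℝ) ^ s := Real.rpow_nonneg (Nat.cast_nonneg X) s
  calc D * Real.log X ^ E ≤ |D * Real.log X ^ E| := le_abs_self _
    _ = |D| * |Real.log X ^ E| := abs_mul _ _
    _ ≤ |D| * (1 / (|D| + 1) * (X : ℝ) ^ s) := mul_le_mul_of_nonneg_left h4 (abs_nonneg _)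
    _ = (|D| / (|D| + 1)) * (X : ℝ) ^ s := by ring
    _ ≤ 1 * (X : ℝ) ^ s := by
        apply mul_le_mul_of_nonneg_right _ hX0
        rw [div_le_one hp]
        linarith
    _ = (X : ℝ) ^ s := one_mul _

private theorem sic_restr_sum (f : ArithmeticFunction ℝ) (J m : ℕ) (hm : m < 2 ^ J) :
    ∑ i ∈ range J, restr f i m = f m := by
  rcases Nat.eq_zero_or_pos m with rfl | hm0
  · simp
  · rw [Finset.sum_eq_single (Nat.log 2 m)]
    · have h1 : 2 ^ Nat.log 2 m ≤ m := Nat.pow_log_le_self 2 (by omega)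
      have h2 : m < 2 ^ (Nat.log 2 m + 1) := Nat.lt_pow_succ_log_self (by norm_num) m
      exact if_pos ⟨h1, h2⟩
    · intro i _ hi
      refine if_neg ?_
      rintro ⟨h1, h2⟩
      apply hi
      symm
      rw [Nat.log_eq_iff (Or.inr ⟨by norm_num, by omega⟩)]
      exact ⟨h1, h2⟩
    · intro h
      exfalso
      apply h
      rw [Finset.mem_range]
      exact Nat.log_lt_of_lt_pow (by omega) (by omega)

private theorem sic_conv_sum (f F : ArithmeticFunction ℝ) (J n : ℕ) (hn : n < 2 ^ J) :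
    (F * f) n = ∑ i ∈ range J, (restr f i * F) n := by
  rw [mul_comm F f, ArithmeticFunction.mul_apply]
  simp only [ArithmeticFunction.mul_apply]
  rw [Finset.sum_comm]
  refine Finset.sum_congr rfl fun p hp => ?_
  obtain ⟨h1, h2⟩ := Nat.mem_divisorsAntidiagonal.1 hp
  have h3 : p.1 ≤ n := Nat.divisor_le (Nat.mem_divisors.2 ⟨⟨p.2, h1.symm⟩, h2⟩)
  rw [← Finset.sum_mul, sic_restr_sum f J p.1 (by omega)]

/-- a square of a sum of `J` sums over characters -/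
private theorem sic_cauchy {ι : Type*} (G : Finset ι) (J : ℕ) (t : ℕ → ι → ℂ) (E : ℝ)
    (h : ∀ i < J, ∑ χ ∈ G, ‖t i χ‖ ^ 2 ≤ E) :
    ∑ χ ∈ G, ‖∑ i ∈ range J, t i χ‖ ^ 2 ≤ (J : ℝ) ^ 2 * E := by
  have h1 : ∀ χ ∈ G, ‖∑ i ∈ range J, t i χ‖ ^ 2 ≤ J * ∑ i ∈ range J, ‖t i χ‖ ^ 2 := by
    intro χ _
    calc ‖∑ i ∈ range J, t i χ‖ ^ 2 ≤ (∑ i ∈ range J, ‖t i χ‖) ^ 2 :=
          pow_le_pow_left₀ (norm_nonneg _) (norm_sum_le _ _) 2
      _ ≤ ((range J).card : ℝ) * ∑ i ∈ range J, ‖t i χ‖ ^ 2 := sq_sum_le_card_mul_sum_sq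
      _ = J * ∑ i ∈ range J, ‖t i χ‖ ^ 2 := by rw [card_range]
  calc ∑ χ ∈ G, ‖∑ i ∈ range J, t i χ‖ ^ 2 ≤ ∑ χ ∈ G, J * ∑ i ∈ range J, ‖t i χ‖ ^ 2 :=
        Finset.sum_le_sum h1
    _ = J * ∑ i ∈ range J, ∑ χ ∈ G, ‖t i χ‖ ^ 2 := by
        rw [← Finset.mul_sum, Finset.sum_comm]
    _ ≤ J * ∑ i ∈ range J, E := by
        apply mul_le_mul_of_nonneg_left _ (Nat.cast_nonneg _)
        exact Finset.sum_le_sum fun i hi => h i (Finset.mem_range.1 hi)
    _ = (J : ℝ) ^ 2 * E := by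
        rw [Finset.sum_const, card_range, nsmul_eq_mul]
        ring

/-- support of `kS * lS` -/
private theorem sic_supp (X n : ℕ) (hX : 1 ≤ X) (h : (kS X * lS X) n ≠ 0) :
    (n : ℝ) ≤ (X : ℝ) ^ (21 / 40 : ℝ) := by
  have hX0 : (0 : ℝ) < X := by exact_mod_cast hX
  rw [ArithmeticFunction.mul_apply] at h
  obtain ⟨p, hp, hp2⟩ := Finset.exists_ne_zero_of_sum_ne_zero h
  have hk : kS X p.1 ≠ 0 := left_ne_zero_of_mul hp2
  have hl : lS X p.2 ≠ 0 := right_ne_zero_of_mul hp2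
  have hn : p.1 * p.2 = n := (Nat.mem_divisorsAntidiagonal.1 hp).1
  have h1 : (p.1 : ℝ) ≤ (X : ℝ) ^ (1 / 2 : ℝ) := by
    rw [← Real.sqrt_eq_rpow]
    apply Real.le_sqrt_of_sq_le
    have h2 : p.1 ^ 2 ≤ X := by
      by_contra h3
      apply hk
      have h5 : p.1 ≠ 1 := by
        intro h6
        rw [h6] at h3
        exact h3 (by simpa using hX)
      show (if p.1 = 1 then (1 : ℝ) else if p.1.Prime ∧ zS X ≤ p.1 ∧ p.1 ^ 2 ≤ X then -1 else 0) = 0
      rw [if_neg h5, if_neg (fun h => h3 h.2.2)]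
    exact_mod_cast h2
  have h2 : (p.2 : ℝ) ≤ (X : ℝ) ^ (1 / 40 : ℝ) := by
    by_contra h3
    apply hl
    show (if p.2 ≠ 0 ∧ (p.2 : ℝ) ≤ (X : ℝ) ^ (1 / 40 : ℝ) ∧ ∀ q ∈ p.2.primeFactors, q < wS X then
      ((ArithmeticFunction.moebius p.2 : ℤ) : ℝ) else 0) = 0
    rw [if_neg (fun h => h3 h.2.1)]
  calc (n : ℝ) = (p.1 : ℝ) * p.2 := by
        rw [← hn]
        push_cast
        ring
    _ ≤ (X : ℝ) ^ (1 / 2 : ℝ) * (X : ℝ) ^ (1 / 40 : ℝ) :=
        mul_le_mul h1 h2 (Nat.cast_nonneg _) (by positivity)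
    _ = (X : ℝ) ^ (21 / 40 : ℝ) := by
        rw [← Real.rpow_add hX0]
        norm_num

private theorem sic_F_abs (X n : ℕ) : |(kS X * lS X) n| ≤ (n.divisors.card : ℝ) :=
  conv_abs _ _ (fun n => (coef_abs X n).1) (fun n => (coef_abs X n).2.1) n

private theorem sic_ze (i n : ℕ) : 0 ≤ restr ze i n ∧ restr ze i n ≤ 1 := by
  have h0 : ∀ m : ℕ, 0 ≤ ze m ∧ ze m ≤ 1 := by
    intro m
    unfold ze
    rw [ArithmeticFunction.natCoe_apply, ArithmeticFunction.zeta_apply]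
    split_ifs <;> simp
  have h1 : restr ze i n = if 2 ^ i ≤ n ∧ n < 2 ^ (i + 1) then ze n else 0 := rfl
  rw [h1]
  split_ifs
  · exact h0 n
  · exact ⟨le_rfl, zero_le_one⟩

/-- the pieces are bounded by the square of the divisor function -/
private theorem sic_piece_abs (X i n : ℕ) :
    |(restr ze i * (kS X * lS X)) n| ≤ (n.divisors.card : ℝ) ^ 2 := by
  rw [ArithmeticFunction.mul_apply]
  refine (Finset.abs_sum_le_sum_abs _ _).trans ?_
  calc ∑ p ∈ n.divisorsAntidiagonal, |restr ze i p.1 * (kS X * lS X) p.2|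
      ≤ ∑ p ∈ n.divisorsAntidiagonal, (n.divisors.card : ℝ) := by
        refine Finset.sum_le_sum fun p hp => ?_
        obtain ⟨h1, h2⟩ := Nat.mem_divisorsAntidiagonal.1 hp
        rw [abs_mul]
        have h3 : |restr ze i p.1| ≤ 1 := by
          rw [abs_of_nonneg (sic_ze i p.1).1]
          exact (sic_ze i p.1).2
        have h4 : |(kS X * lS X) p.2| ≤ (n.divisors.card : ℝ) := by
          refine (sic_F_abs X p.2).trans ?_
          have h5 : p.2.divisors.card ≤ n.divisors.card :=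
            Finset.card_le_card (Nat.divisors_subset_of_dvd h2
              (Dvd.intro_left p.1 h1))
          exact_mod_cast h5
        calc |restr ze i p.1| * |(kS X * lS X) p.2| ≤ 1 * (n.divisors.card : ℝ) :=
              mul_le_mul h3 h4 (abs_nonneg _) zero_le_one
          _ = (n.divisors.card : ℝ) := one_mul _
    _ = (n.divisors.card : ℝ) ^ 2 := by
        rw [Nat.sum_divisorsAntidiagonal (fun _ _ => (n.divisors.card : ℝ)), Finset.sum_const,
          nsmul_eq_mul, sq]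

/-- a short piece is supported on `n ≤ 2 X^(39/40)` -/
private theorem sic_piece_supp (X i n : ℕ) (hX : 1 ≤ X) (hi : ((2 ^ i : ℕ) : ℝ) < (X : ℝ) ^ (9 / 20 : ℝ))
    (h : (restr ze i * (kS X * lS X)) n ≠ 0) : (n : ℝ) ≤ 2 * (X : ℝ) ^ (39 / 40 : ℝ) := by
  have hX0 : (0 : ℝ) < X := by exact_mod_cast hX
  rw [ArithmeticFunction.mul_apply] at h
  obtain ⟨p, hp, hp2⟩ := Finset.exists_ne_zero_of_sum_ne_zero h
  have ha : restr ze i p.1 ≠ 0 := left_ne_zero_of_mul hp2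
  have hb : (kS X * lS X) p.2 ≠ 0 := right_ne_zero_of_mul hp2
  have hn : p.1 * p.2 = n := (Nat.mem_divisorsAntidiagonal.1 hp).1
  have h1 : (p.1 : ℝ) ≤ 2 * (X : ℝ) ^ (9 / 20 : ℝ) := by
    have h2 : p.1 < 2 ^ (i + 1) := by
      by_contra h3
      apply ha
      show (if 2 ^ i ≤ p.1 ∧ p.1 < 2 ^ (i + 1) then ze p.1 else 0) = 0
      rw [if_neg (fun h => h3 h.2)]
    have h3 : (p.1 : ℝ) ≤ ((2 ^ (i + 1) : ℕ) : ℝ) := by exact_mod_cast h2.le
    refine h3.trans ?_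
    push_cast at hi ⊢
    rw [pow_succ]
    linarith
  have h2 := sic_supp X p.2 hX hb
  calc (n : ℝ) = (p.1 : ℝ) * p.2 := by
        rw [← hn]
        push_cast
        ring
    _ ≤ (2 * (X : ℝ) ^ (9 / 20 : ℝ)) * (X : ℝ) ^ (21 / 40 : ℝ) :=
        mul_le_mul h1 h2 (Nat.cast_nonneg _) (by positivity)
    _ = 2 * (X : ℝ) ^ (39 / 40 : ℝ) := by
        rw [mul_assoc, ← Real.rpow_add hX0]
        norm_num

/-- the mean square of a short piece -/
private theorem sic_short (A : ℕ) : ∃ X0 : ℕ, ∀ X : ℕ, X0 ≤ X →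
    ∀ (q : ℕ) [NeZero q], (q : ℝ) ≤ (X : ℝ) ^ (4 / 5 : ℝ) → ∀ (θ : ℝ) (i : ℕ),
    ((2 ^ i : ℕ) : ℝ) < (X : ℝ) ^ (9 / 20 : ℝ) → ∀ 𝓖 : Finset (DirichletCharacter ℂ q),
    ∑ χ ∈ 𝓖, ‖Tc X q (fun n => (restr ze i * (kS X * lS X)) n) θ χ‖ ^ 2 ≤
      X ^ 2 / Real.log X ^ A := by
  obtain ⟨C, hC⟩ := div_mom 4
  obtain ⟨X1, hX1⟩ := sic_ev_log (6 * 2 ^ C) (C + A) (1 / 20) (by norm_num)
  obtain ⟨X2, hX2⟩ := sic_ev_log 2 0 (1 / 40) (by norm_num)
  refine ⟨X1 + X2 + 3, fun X hX q _ hq θ i hi 𝓖 => ?_⟩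
  have h1 := hX1 X (by omega)
  have h2 := hX2 X (by omega)
  rw [pow_zero, mul_one] at h2
  have hX1' : 1 ≤ X := by omega
  have hX0 : (0 : ℝ) < X := by exact_mod_cast hX1'
  have hXR : (1 : ℝ) ≤ X := by exact_mod_cast hX1'
  set L := Real.log (X : ℝ) with hL
  have hL1 : 1 ≤ L := by
    rw [hL, Real.le_log_iff_exp_le hX0]
    have : (3 : ℝ) ≤ X := by
      have : 3 ≤ X := by omega
      exact_mod_cast this
    linarith [Real.exp_one_lt_d9]
  set N := ⌊2 * (X : ℝ) ^ (39 / 40 : ℝ)⌋₊ with hN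
  have hN1 : (N : ℝ) ≤ 2 * (X : ℝ) ^ (39 / 40 : ℝ) := Nat.floor_le (by positivity)
  have hN2 : N ≤ X := by
    have : (N : ℝ) ≤ X := by
      calc (N : ℝ) ≤ 2 * (X : ℝ) ^ (39 / 40 : ℝ) := hN1
        _ ≤ (X : ℝ) ^ (1 / 40 : ℝ) * (X : ℝ) ^ (39 / 40 : ℝ) := by gcongr
        _ = X := by
            rw [← Real.rpow_add hX0]
            norm_num
    exact_mod_cast this
  have hN3 : 1 ≤ N := by
    rw [hN]
    apply Nat.le_floor
    have : (1 : ℝ) ≤ (X : ℝ) ^ (39 / 40 : ℝ) := Real.one_le_rpow hXR (by norm_num)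
    push_cast
    linarith
  have hT : ∀ χ : DirichletCharacter ℂ q, Tc X q (fun n => (restr ze i * (kS X * lS X)) n) θ χ =
      ∑ n ∈ Ioc 0 (0 + N), (((restr ze i * (kS X * lS X)) n : ℝ) : ℂ) * ee (n * θ) * χ n := by
    intro χ
    unfold Tc
    rw [zero_add]
    symm
    have e1 : ∑ n ∈ Ioc 0 N, (((restr ze i * (kS X * lS X)) n : ℝ) : ℂ) * ee (n * θ) * χ n =
        ∑ n ∈ Ioc 0 X, (((restr ze i * (kS X * lS X)) n : ℝ) : ℂ) * ee (n * θ) * χ n := by
      apply Finset.sum_subset (Finset.Ioc_subset_Ioc_right hN2)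
      intro n hn hn2
      rw [Finset.mem_Ioc] at hn hn2
      have h3 : (restr ze i * (kS X * lS X)) n = 0 := by
        by_contra h4
        have h5 := sic_piece_supp X i n hX1' hi h4
        have h6 : n ≤ N := Nat.le_floor h5
        omega
      rw [h3, Complex.ofReal_zero, zero_mul, zero_mul]
    rw [e1]
    refine Finset.sum_congr rfl fun n _ => ?_
    ring
  have hsum : ∑ n ∈ Ioc 0 (0 + N), ‖(((restr ze i * (kS X * lS X)) n : ℝ) : ℂ) * ee (n * θ)‖ ^ 2 ≤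
      N * (1 + Real.log N) ^ C := by
    refine le_trans ?_ (hC N hN3).1
    rw [zero_add]
    refine Finset.sum_le_sum fun n _ => ?_
    rw [norm_mul, norm_ee, mul_one, Complex.norm_real, Real.norm_eq_abs]
    calc |(restr ze i * (kS X * lS X)) n| ^ 2 ≤ ((n.divisors.card : ℝ) ^ 2) ^ 2 :=
          pow_le_pow_left₀ (abs_nonneg _) (sic_piece_abs X i n) 2
      _ = (n.divisors.card : ℝ) ^ 4 := by rw [← pow_mul]
  have hlogN : Real.log N ≤ L := Real.log_le_log (by exact_mod_cast hN3) (by exact_mod_cast hN2)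
  have hlogN0 : 0 ≤ Real.log N := Real.log_natCast_nonneg N
  calc ∑ χ ∈ 𝓖, ‖Tc X q (fun n => (restr ze i * (kS X * lS X)) n) θ χ‖ ^ 2
      ≤ ∑ χ : DirichletCharacter ℂ q, ‖Tc X q (fun n => (restr ze i * (kS X * lS X)) n) θ χ‖ ^ 2 := by
        classical
        apply Finset.sum_le_sum_of_subset_of_nonneg (Finset.subset_univ _)
        intro χ _ _
        positivity
    _ = ∑ χ : DirichletCharacter ℂ q, ‖∑ n ∈ Ioc 0 (0 + N),
          (((restr ze i * (kS X * lS X)) n : ℝ) : ℂ) * ee (n * θ) * χ n‖ ^ 2 := by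
        simp only [hT]
    _ ≤ ((N : ℝ) + q) * ∑ n ∈ Ioc 0 (0 + N),
          ‖(((restr ze i * (kS X * lS X)) n : ℝ) : ℂ) * ee (n * θ)‖ ^ 2 := char_ms q 0 N _
    _ ≤ (2 * (X : ℝ) ^ (39 / 40 : ℝ) + (X : ℝ) ^ (39 / 40 : ℝ)) *
          (2 * (X : ℝ) ^ (39 / 40 : ℝ) * (2 * L) ^ C) := by
        apply mul_le_mul _ _ (by positivity) (by positivity)
        · refine add_le_add hN1 (hq.trans ?_)
          exact Real.rpow_le_rpow_of_exponent_le hXR (by norm_num)
        · refine hsum.trans ?_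
          apply mul_le_mul hN1 _ (by positivity) (by positivity)
          exact pow_le_pow_left₀ (by linarith) (by linarith) C
    _ = (6 * 2 ^ C * L ^ C) * ((X : ℝ) ^ (39 / 40 : ℝ) * (X : ℝ) ^ (39 / 40 : ℝ)) := by
        rw [mul_pow]
        ring
    _ ≤ X ^ 2 / L ^ A := by
        rw [le_div_iff₀ (by positivity), ← Real.rpow_add hX0]
        calc (6 * 2 ^ C * L ^ C) * (X : ℝ) ^ (39 / 40 + 39 / 40 : ℝ) * L ^ A =
            (6 * 2 ^ C * L ^ (C + A)) * (X : ℝ) ^ (39 / 40 + 39 / 40 : ℝ) := by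
              rw [pow_add]
              ring
          _ ≤ (X : ℝ) ^ (1 / 20 : ℝ) * (X : ℝ) ^ (39 / 40 + 39 / 40 : ℝ) := by gcongr
          _ = (X : ℝ) ^ 2 := by
              rw [← Real.rpow_add hX0, ← Real.rpow_natCast]
              norm_num

theorem sv_I_char (A B : ℕ) : ∃ X0 : ℕ, ∀ X : ℕ, X0 ≤ X →
    ∀ (q : ℕ) [NeZero q], (q : ℝ) ≤ (X : ℝ) ^ (4 / 5 : ℝ) → ∀ (r : ℕ) (y : ℤ) (β : ℝ), 1 ≤ r →
    (r : ℝ) ≤ Real.log X ^ B → Nat.Coprime r q → |β| ≤ Real.log X ^ B / X →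
      ∀ 𝓖 : Finset (DirichletCharacter ℂ q), (1 : DirichletCharacter ℂ q) ∉ 𝓖 →
        ∑ χ ∈ 𝓖, ‖Tc X q (fun n => (kS X * lS X * ze) n) (y / r + β) χ‖ ^ 2 ≤
          X ^ 2 / Real.log X ^ A := by
  obtain ⟨X1, hX1⟩ := smooth_char (A + 4) B
  obtain ⟨X2, hX2⟩ := sic_short (A + 4)
  refine ⟨X1 + X2 + 100, fun X hX q _ hq r y β hr1 hr hcop hβ 𝓖 h1G => ?_⟩
  have hX1' : 1 ≤ X := by omega
  have hX0 : (0 : ℝ) < X := by exact_mod_cast hX1'
  have hX100 : (100 : ℝ) ≤ X := by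
    have : 100 ≤ X := by omega
    exact_mod_cast this
  set L := Real.log (X : ℝ) with hL
  have hL3 : 4 ≤ L := by
    rw [hL, Real.le_log_iff_exp_le hX0]
    have h1 : Real.exp 4 = Real.exp 1 ^ 4 := by
      rw [← Real.exp_nat_mul]
      norm_num
    rw [h1]
    have h2 := Real.exp_one_lt_d9
    have h3 : Real.exp 1 ^ 4 ≤ (2.7182818286 : ℝ) ^ 4 :=
      pow_le_pow_left₀ (Real.exp_pos _).le h2.le 4
    refine h3.trans (le_trans ?_ hX100)
    norm_num
  set J := Nat.log 2 X + 1 with hJ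
  have hJX : X < 2 ^ J := Nat.lt_pow_succ_log_self (by norm_num) X
  have hJL : (J : ℝ) ≤ L ^ 2 := by
    have h1 : (2 : ℝ) ^ (Nat.log 2 X) ≤ X := by
      have : 2 ^ Nat.log 2 X ≤ X := Nat.pow_log_le_self 2 (by omega)
      exact_mod_cast this
    have h2 : (Nat.log 2 X : ℝ) * Real.log 2 ≤ L := by
      rw [hL, ← Real.log_pow]
      exact Real.log_le_log (by positivity) h1
    have h3 := Real.log_two_gt_d9
    have h4 : (Nat.log 2 X : ℝ) ≤ 2 * L := by
      have h5 : (Nat.log 2 X : ℝ) * (1 / 2) ≤ (Nat.log 2 X : ℝ) * Real.log 2 :=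
        mul_le_mul_of_nonneg_left (by linarith) (Nat.cast_nonneg _)
      linarith
    rw [hJ]
    push_cast
    nlinarith
  have hT : ∀ χ : DirichletCharacter ℂ q,
      Tc X q (fun n => (kS X * lS X * ze) n) (y / r + β) χ =
      ∑ i ∈ range J, Tc X q (fun n => (restr ze i * (kS X * lS X)) n) (y / r + β) χ := by
    intro χ
    unfold Tc
    rw [Finset.sum_comm]
    refine Finset.sum_congr rfl fun n hn => ?_
    rw [Finset.mem_Icc] at hn
    show (((kS X * lS X * ze) n : ℝ) : ℂ) * χ n * ee (n * (y / r + β)) =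
      ∑ i ∈ range J, (((restr ze i * (kS X * lS X)) n : ℝ) : ℂ) * χ n * ee (n * (y / r + β))
    rw [sic_conv_sum ze (kS X * lS X) J n (by omega), Complex.ofReal_sum, Finset.sum_mul,
      Finset.sum_mul]
  simp only [hT]
  have hE : ∀ i < J, ∑ χ ∈ 𝓖,
      ‖Tc X q (fun n => (restr ze i * (kS X * lS X)) n) (y / r + β) χ‖ ^ 2 ≤
      X ^ 2 / L ^ (A + 4) := by
    intro i hi
    by_cases hc : ((2 ^ i : ℕ) : ℝ) < (X : ℝ) ^ (9 / 20 : ℝ)
    · exact hX2 X (by omega) q hq (y / r + β) i hc 𝓖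
    · push Not at hc
      have hPX : 2 ^ i ≤ X := by
        calc 2 ^ i ≤ 2 ^ Nat.log 2 X := Nat.pow_le_pow_right (by norm_num) (by omega)
          _ ≤ X := Nat.pow_log_le_self 2 (by omega)
      have hdef : ∀ n, restr ze i n = if 2 ^ i ≤ n ∧ n < 2 ^ (i + 1) then ze n else 0 := fun n => rfl
      refine hX1 X (by omega) q hq r y β hr1 hr hcop hβ (2 ^ i) (restr ze i) (kS X * lS X) hc hPX
        ?_ ?_ ?_ ?_ 𝓖 h1G
      · intro n hn
        by_contra h
        apply hn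
        rw [hdef, if_neg]
        rintro ⟨h2, h3⟩
        apply h
        rw [pow_succ] at h3
        exact ⟨h2, by omega⟩
      · intro n hn
        refine ⟨(sic_ze i n).1, (sic_ze i n).2.trans ?_⟩
        have : 0 ≤ Real.log n := Real.log_natCast_nonneg n
        linarith
      · intro m hm n hn _
        rw [Set.mem_Ico] at hm hn
        have hone : ∀ t : ℕ, 2 ^ i ≤ t → t < 2 * 2 ^ i → restr ze i t = 1 := by
          intro t h2 h3
          have h5 : 0 < 2 ^ i := by positivity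
          rw [hdef, if_pos ⟨h2, by rw [pow_succ]; omega⟩]
          unfold ze
          rw [ArithmeticFunction.natCoe_apply, ArithmeticFunction.zeta_apply, if_neg (by omega),
            Nat.cast_one]
        show restr ze i m ≤ restr ze i n
        rw [hone m hm.1 hm.2, hone n hn.1 hn.2]
      · intro n hn
        refine (sic_F_abs X n).trans ?_
        have h2 : 0 ≤ Real.log n := Real.log_natCast_nonneg n
        have h3 : (1 : ℝ) ≤ (n.divisors.card : ℝ) := by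
          have : 0 < n.divisors.card := Finset.card_pos.2 ⟨1, Nat.one_mem_divisors.2 (by omega)⟩
          exact_mod_cast this
        calc (n.divisors.card : ℝ) = 1 * (n.divisors.card : ℝ) ^ 1 := by rw [one_mul, pow_one]
          _ ≤ (1 + Real.log n) * (n.divisors.card : ℝ) ^ 5 := by
              apply mul_le_mul (by linarith) (pow_le_pow_right₀ h3 (by norm_num)) (by positivity)
                (by positivity)
  refine (sic_cauchy 𝓖 J _ _ hE).trans ?_
  have hL0 : 0 < L := by linarith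
  calc (J : ℝ) ^ 2 * (X ^ 2 / L ^ (A + 4)) ≤ (L ^ 2) ^ 2 * (X ^ 2 / L ^ (A + 4)) := by
        apply mul_le_mul_of_nonneg_right _ (by positivity)
        exact pow_le_pow_left₀ (Nat.cast_nonneg _) hJL 2
    _ = X ^ 2 / L ^ A := by
        rw [← pow_mul, pow_add]
        field_simp

end Pool.MP_dd84fd_nt.T7
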