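import Pool.Agent.Lib.MP_dd84fd_nt.T7.Defs
import Pool.Agent.Lib.BV.LSChar
import Pool.Agent.Lib.BV.Induce

/-!
T7-42 SmallCond. L = log X, LL = log L, Q = floor(exp(LL^4)). exp(2 LL^4) <= (wS X)/2 <= P for X large. chi in B, chi != 1 (the principal character: at most one more element): the conductor f of chi satisfies 2 <= f <= Q, f | q,
and chi is induced by the primitive psi mod f: chi(p) = psi(p) except for the primes p | q, p in s: p >= P >= wS X/2, so at most L/log P <= 2 LL^2 of them (their product is <= q <= X): |sum_s psi(p)| >= P/L^A1 - 2LL^2 >= P/(2L^A1).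
sort_cond (BV/Induce) with f r psi = 1 if r <= Q and P/(2L^A1) < |sum_s psi(p)|, else 0: number of chi <= sum_{2<=r<=Q} number of such psi in prim r <= (2L^A1/P)^2 * 13 (Q^2 + 2P) |s| (ls_char in BV/LSChar, N = 2P, r/phi(r) >= 1)
<= 4 L^(2A1) * 13 * 3P * P / P^2 = 156 L^(2A1) (|s| <= P).
-/

set_option autoImplicit false

namespace Pool.MP_dd84fd_nt.T7

open Finset Pool.MP_67663b_nt.Odd Pool.MP_dd84fd_nt.L2G

private theorem sc_omega (k : ℕ) (hk : 1 ≤ k) :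
    (k.primeFactors.card : ℝ) ≤ 2 * Real.log k := by
  have h1 : 2 ^ k.primeFactors.card ≤ k := by
    calc 2 ^ k.primeFactors.card ≤ ∏ p ∈ k.primeFactors, p := by
          rw [← prod_const]
          apply prod_le_prod'
          intro p hp
          exact (Nat.prime_of_mem_primeFactors hp).two_le
      _ ≤ k := Nat.le_of_dvd (by omega) (Nat.prod_primeFactors_dvd k)
  have h2 : ((2 : ℝ) ^ k.primeFactors.card) ≤ k := by exact_mod_cast h1
  have h3 := Real.log_le_log (by positivity) h2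
  rw [Real.log_pow] at h3
  have h4 := Real.log_two_gt_d9
  have h5 : (0 : ℝ) ≤ k.primeFactors.card := Nat.cast_nonneg _
  nlinarith

/-- the sums over `s` of `χ` and of the primitive character which induces it -/
private theorem sc_induced (q : ℕ) (hq : 1 ≤ q) (χ : DirichletCharacter ℂ q) (s : Finset ℕ)
    (hs : ∀ p ∈ s, p.Prime) :
    ‖∑ p ∈ s, (χ p : ℂ) - ∑ p ∈ s, (χ.primitiveCharacter p : ℂ)‖ ≤ 2 * Real.log q := by
  classical
  have : NeZero q := ⟨by omega⟩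
  refine le_trans ?_ (sc_omega q hq)
  rw [← sum_sub_distrib]
  have h1 : ∑ p ∈ s, ((χ p : ℂ) - (χ.primitiveCharacter p : ℂ)) =
      ∑ p ∈ s.filter (fun p => p ∣ q), ((χ p : ℂ) - (χ.primitiveCharacter p : ℂ)) := by
    symm
    apply sum_subset (filter_subset _ _)
    intro p hp hp2
    rw [mem_filter, not_and] at hp2
    have hc : Nat.Coprime p q := (Nat.Prime.coprime_iff_not_dvd (hs p hp)).2 (hp2 hp)
    have h2 : IsCoprime (p : ℤ) (q : ℤ) := Nat.isCoprime_iff_coprime.mpr hc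
    have h3 := DirichletCharacter.primitiveCharacter_apply_of_isCoprime χ h2
    push_cast at h3
    rw [h3, sub_self]
  rw [h1]
  refine (norm_sum_le _ _).trans ?_
  have h4 : ∀ p ∈ s.filter (fun p => p ∣ q), ‖(χ p : ℂ) - (χ.primitiveCharacter p : ℂ)‖ ≤ 1 := by
    intro p hp
    rw [mem_filter] at hp
    have h2 : χ p = 0 := by
      apply MulChar.map_nonunit
      rw [ZMod.isUnit_iff_coprime]
      intro hcop
      exact (Nat.Prime.coprime_iff_not_dvd (hs p hp.1)).1 hcop hp.2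
    rw [h2, zero_sub, norm_neg]
    exact DirichletCharacter.norm_le_one _ _
  refine (sum_le_sum h4).trans ?_
  rw [sum_const, nsmul_eq_mul, mul_one]
  have h5 : s.filter (fun p => p ∣ q) ⊆ q.primeFactors := by
    intro p hp
    rw [mem_filter] at hp
    exact Nat.mem_primeFactors.2 ⟨hs p hp.1, hp.2, by omega⟩
  exact_mod_cast card_le_card h5

/-- the analytic facts -/
private theorem sc_ev (A1 : ℕ) : ∃ X0 : ℕ, ∀ X : ℕ, X0 ≤ X → 1 ≤ X ∧ 6 ≤ Real.log X ∧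
    2 * Real.exp (2 * Real.log (Real.log X) ^ 4) ≤
      Real.exp (Real.log X / Real.log (Real.log X) ^ 2) ∧
    4 * Real.log X ^ (A1 + 1) ≤ Real.exp (2 * Real.log (Real.log X) ^ 4) := by
  have h1 : ∀ᶠ y : ℝ in Filter.atTop, y ^ 7 ≤ Real.exp y := by
    have h := (Real.isLittleO_pow_exp_atTop (n := 7)).bound (c := 1) one_pos
    filter_upwards [h, Filter.eventually_ge_atTop (0 : ℝ)] with y hy hy0
    rw [Real.norm_of_nonneg (by positivity), Real.norm_of_nonneg (Real.exp_pos y).le,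
      one_mul] at hy
    exact hy
  have h2 : ∀ᶠ y : ℝ in Filter.atTop, 3 ≤ y ∧ y ^ 7 ≤ Real.exp y ∧ (A1 : ℝ) + 3 ≤ y :=
    (Filter.eventually_ge_atTop 3).and (h1.and (Filter.eventually_ge_atTop _))
  have ht : Filter.Tendsto (fun X : ℕ => Real.log (Real.log X)) Filter.atTop Filter.atTop :=
    Real.tendsto_log_atTop.comp (Real.tendsto_log_atTop.comp tendsto_natCast_atTop_atTop)
  have ht' : Filter.Tendsto (fun X : ℕ => Real.log X) Filter.atTop Filter.atTop :=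
    Real.tendsto_log_atTop.comp tendsto_natCast_atTop_atTop
  obtain ⟨X0, hX0⟩ := Filter.eventually_atTop.1 ((ht.eventually h2).and
    ((ht'.eventually (Filter.eventually_ge_atTop (6 : ℝ))).and (Filter.eventually_ge_atTop 1)))
  refine ⟨X0, fun X hX => ?_⟩
  obtain ⟨⟨hy3, hy7, hyA⟩, hL6, hX1⟩ := hX0 X hX
  have hLpos : 0 < Real.log X := by linarith
  set y := Real.log (Real.log X) with hy
  have hL : Real.log X = Real.exp y := (Real.exp_log hLpos).symm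
  refine ⟨hX1, hL6, ?_, ?_⟩
  · have h3 : Real.log 2 ≤ 1 := by have := Real.log_two_lt_d9; linarith
    have h4 : (2 : ℝ) = Real.exp (Real.log 2) := (Real.exp_log (by norm_num)).symm
    rw [show 2 * Real.exp (2 * y ^ 4) = Real.exp (Real.log 2) * Real.exp (2 * y ^ 4) by
      rw [← h4], ← Real.exp_add]
    apply Real.exp_le_exp.2
    rw [le_div_iff₀ (by positivity), hL]
    refine le_trans ?_ hy7
    have h5 : Real.log 2 + 2 * y ^ 4 ≤ 3 * y ^ 4 := by
      have : (1 : ℝ) ≤ y ^ 4 := one_le_pow₀ (by linarith)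
      linarith
    calc (Real.log 2 + 2 * y ^ 4) * y ^ 2 ≤ (3 * y ^ 4) * y ^ 2 :=
          mul_le_mul_of_nonneg_right h5 (by positivity)
      _ ≤ (y * y ^ 4) * y ^ 2 := by gcongr
      _ = y ^ 7 := by ring
  · rw [hL, ← Real.exp_nat_mul]
    have h4 : (4 : ℝ) = Real.exp (Real.log 4) := (Real.exp_log (by norm_num)).symm
    have h6 : Real.log 4 ≤ 2 := by
      have : Real.log 4 = 2 * Real.log 2 := by
        rw [show (4 : ℝ) = 2 ^ 2 by norm_num, Real.log_pow]; norm_num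
      have := Real.log_two_lt_d9
      linarith
    rw [show 4 * Real.exp (((A1 + 1 : ℕ) : ℝ) * y) =
      Real.exp (Real.log 4) * Real.exp (((A1 + 1 : ℕ) : ℝ) * y) by rw [← h4], ← Real.exp_add]
    apply Real.exp_le_exp.2
    push_cast
    have h7 : Real.log 4 + ((A1 : ℝ) + 1) * y ≤ y * y := by nlinarith
    have h8 : y * y ≤ y ^ 4 := by
      have : y ^ 2 ≤ y ^ 4 := pow_le_pow_right₀ (by linarith) (by norm_num)
      nlinarith
    have h9 : (0 : ℝ) ≤ y ^ 4 := by positivity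
    linarith

theorem small_cond (A1 : ℕ) : ∃ X0 : ℕ, ∀ X : ℕ, X0 ≤ X → ∀ (q : ℕ) [NeZero q], q ≤ X →
    ∀ P : ℕ, wS X ≤ 2 * P → P ≤ X → ∀ s : Finset ℕ,
    (∀ p ∈ s, p.Prime ∧ P ≤ p ∧ p < 2 * P) → ∀ 𝓑 : Finset (DirichletCharacter ℂ q),
    (∀ χ ∈ 𝓑, P / Real.log X ^ A1 < ‖∑ p ∈ s, (χ p : ℂ)‖) →
    (∀ χ ∈ 𝓑, ∃ d : ℕ, d ∣ q ∧ (d : ℝ) ≤ Real.exp (Real.log (Real.log X) ^ 4) ∧
      χ.FactorsThrough d) →
    (𝓑.card : ℝ) ≤ Real.log X ^ (2 * A1 + 3) := by
  classical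
  obtain ⟨X0, hX0⟩ := sc_ev A1
  refine ⟨X0, fun X hX q _ hqX P hwP hPX s hs 𝓑 hB hd => ?_⟩
  obtain ⟨hX1, hL6, hexp, hL4⟩ := hX0 X hX
  set L := Real.log X with hL
  set E := Real.exp (Real.log L ^ 4) with hE
  have hE2 : E ^ 2 = Real.exp (2 * Real.log L ^ 4) := by
    rw [hE, ← Real.exp_nat_mul]
    norm_num
  have hLpos : 0 < L := by linarith
  have hq1 : 1 ≤ q := Nat.one_le_iff_ne_zero.2 (NeZero.ne q)
  have hPE : E ^ 2 ≤ P := by
    have h1 : Real.exp (L / Real.log L ^ 2) ≤ (wS X : ℝ) := Nat.le_ceil _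
    have h2 : (wS X : ℝ) ≤ 2 * P := by exact_mod_cast hwP
    rw [hE2]
    linarith
  have hP0 : (0 : ℝ) < P := by
    have : 0 < E := Real.exp_pos _
    have : 0 < E ^ 2 := by positivity
    linarith
  have hPL : 4 * L ^ (A1 + 1) ≤ P := by rw [hE2] at hPE; linarith
  set Q := ⌊E⌋₊ with hQ
  have hQE : (Q : ℝ) ≤ E := Nat.floor_le (Real.exp_pos _).le
  have hlogq : Real.log q ≤ L := Real.log_le_log (by exact_mod_cast hq1) (by exact_mod_cast hqX)
  -- the primitive characters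
  have key : ∀ χ ∈ 𝓑, χ.conductor ≤ Q ∧
      P / (2 * L ^ A1) < ‖∑ p ∈ s, (χ.primitiveCharacter p : ℂ)‖ := by
    intro χ hχ
    obtain ⟨d, hdq, hdE, hdf⟩ := hd χ hχ
    refine ⟨?_, ?_⟩
    · have h1 : χ.conductor ≤ d := Nat.sInf_le hdf
      exact h1.trans (Nat.le_floor hdE)
    · have h1 := hB χ hχ
      have h2 := sc_induced q hq1 χ s (fun p hp => (hs p hp).1)
      have h3 : ‖∑ p ∈ s, (χ p : ℂ)‖ ≤ ‖∑ p ∈ s, (χ.primitiveCharacter p : ℂ)‖ +
          ‖∑ p ∈ s, (χ p : ℂ) - ∑ p ∈ s, (χ.primitiveCharacter p : ℂ)‖ := by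
        calc ‖∑ p ∈ s, (χ p : ℂ)‖ = ‖∑ p ∈ s, (χ.primitiveCharacter p : ℂ) +
            (∑ p ∈ s, (χ p : ℂ) - ∑ p ∈ s, (χ.primitiveCharacter p : ℂ))‖ := by
              rw [add_sub_cancel]
          _ ≤ _ := norm_add_le _ _
      have h4 : 2 * L ≤ P / (2 * L ^ A1) := by
        rw [le_div_iff₀ (by positivity)]
        calc 2 * L * (2 * L ^ A1) = 4 * L ^ (A1 + 1) := by ring
          _ ≤ P := hPL
      have h5 : P / L ^ A1 = P / (2 * L ^ A1) + P / (2 * L ^ A1) := by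
        field_simp
        norm_num
      linarith
  -- counting
  let f : ∀ r : ℕ, DirichletCharacter ℂ r → ℝ := fun r ψ =>
    if r ≤ Q ∧ P / (2 * L ^ A1) < ‖∑ p ∈ s, (ψ p : ℂ)‖ then 1 else 0
  have hf : ∀ r ψ, 0 ≤ f r ψ := by
    intro r ψ
    simp only [f]
    split_ifs <;> norm_num
  have h1 : ((𝓑.erase 1).card : ℝ) ≤
      ∑ χ ∈ Pool.BV.nonpr q, f χ.conductor χ.primitiveCharacter := by
    have h2 : 𝓑.erase 1 ⊆ Pool.BV.nonpr q := by
      intro χ hχ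
      rw [Pool.BV.mem_nonpr]
      exact (mem_erase.1 hχ).1
    have h3 : ((𝓑.erase 1).card : ℝ) = ∑ χ ∈ 𝓑.erase 1, f χ.conductor χ.primitiveCharacter := by
      rw [card_eq_sum_ones]
      push_cast
      refine sum_congr rfl fun χ hχ => ?_
      have := key χ (mem_erase.1 hχ).2
      simp only [f]
      rw [if_pos this]
    rw [h3]
    exact sum_le_sum_of_subset_of_nonneg h2 fun χ _ _ => hf _ _
  have h2 := Pool.BV.sort_cond q hq1 f hf
  have h3 : ∑ r ∈ q.divisors.filter (fun r => 2 ≤ r), ∑ χ ∈ Pool.BV.prim r, f r χ ≤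
      ∑ r ∈ Icc 2 Q, ∑ χ ∈ Pool.BV.prim r, f r χ := by
    have h4 : ∑ r ∈ q.divisors.filter (fun r => 2 ≤ r), ∑ χ ∈ Pool.BV.prim r, f r χ =
        ∑ r ∈ (q.divisors.filter (fun r => 2 ≤ r)).filter (fun r => r ≤ Q),
          ∑ χ ∈ Pool.BV.prim r, f r χ := by
      symm
      apply sum_subset (filter_subset _ _)
      intro r hr hr2
      refine sum_eq_zero fun ψ _ => ?_
      simp only [f]
      rw [if_neg]
      rintro ⟨h5, -⟩
      exact hr2 (mem_filter.2 ⟨hr, h5⟩)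
    rw [h4]
    apply sum_le_sum_of_subset_of_nonneg
    · intro r hr
      rw [mem_filter, mem_filter] at hr
      exact mem_Icc.2 ⟨hr.1.2, hr.2⟩
    · intro r _ _
      exact sum_nonneg fun ψ _ => hf _ _
  -- the large sieve
  let a : ℕ → ℂ := fun n => if n ∈ s then 1 else 0
  have hsub : s ⊆ Icc 1 (2 * P) := by
    intro p hp
    obtain ⟨h4, h5, h6⟩ := hs p hp
    exact mem_Icc.2 ⟨h4.one_le, h6.le⟩
  have hasum : ∀ (r : ℕ) (ψ : DirichletCharacter ℂ r),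
      ∑ n ∈ Icc 1 (2 * P), a n * ψ n = ∑ p ∈ s, (ψ p : ℂ) := by
    intro r ψ
    simp only [a, ite_mul, one_mul, zero_mul]
    rw [← sum_filter, filter_mem_eq_inter, inter_eq_right.2 hsub]
  have hacard : ∑ n ∈ Icc 1 (2 * P), ‖a n‖ ^ 2 ≤ P := by
    have h4 : ∀ n, ‖a n‖ ^ 2 = if n ∈ s then (1 : ℝ) else 0 := by
      intro n
      simp only [a]
      split_ifs <;> norm_num
    rw [sum_congr rfl fun n _ => h4 n, ← sum_filter, filter_mem_eq_inter, inter_eq_right.2 hsub,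
      sum_const, nsmul_eq_mul, mul_one]
    have h5 : s ⊆ Ico P (2 * P) := by
      intro p hp
      obtain ⟨-, h5, h6⟩ := hs p hp
      exact mem_Ico.2 ⟨h5, h6⟩
    have h6 := card_le_card h5
    rw [Nat.card_Ico] at h6
    have h7 : s.card ≤ P := by omega
    exact_mod_cast h7
  have h5 := Pool.BV.ls_char Q (2 * P) a
  set c : ℝ := (2 * L ^ A1 / P) ^ 2 with hc
  have hcpos : 0 ≤ c := by positivity
  have h6 : ∑ r ∈ Icc 2 Q, ∑ χ ∈ Pool.BV.prim r, f r χ ≤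
      c * ∑ r ∈ Icc 2 Q, (r : ℝ) / Nat.totient r * ∑ χ ∈ Pool.BV.prim r,
        ‖∑ n ∈ Icc 1 (2 * P), a n * χ n‖ ^ 2 := by
    rw [mul_sum]
    refine sum_le_sum fun r hr => ?_
    rw [mem_Icc] at hr
    have hφ : (0 : ℝ) < Nat.totient r := by exact_mod_cast Nat.totient_pos.2 (by omega)
    have h7 : (1 : ℝ) ≤ (r : ℝ) / Nat.totient r := by
      rw [le_div_iff₀ hφ, one_mul]
      exact_mod_cast Nat.totient_le r
    have h8 : ∑ χ ∈ Pool.BV.prim r, f r χ ≤ c * ∑ χ ∈ Pool.BV.prim r,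
        ‖∑ n ∈ Icc 1 (2 * P), a n * χ n‖ ^ 2 := by
      rw [mul_sum]
      refine sum_le_sum fun ψ _ => ?_
      rw [hasum r ψ]
      simp only [f]
      split_ifs with h9
      · have h10 : 1 ≤ 2 * L ^ A1 / P * ‖∑ p ∈ s, (ψ p : ℂ)‖ := by
          have h11 := h9.2
          rw [div_lt_iff₀ (by positivity)] at h11
          rw [div_mul_eq_mul_div, le_div_iff₀ hP0, one_mul]
          linarith
        rw [hc, ← mul_pow]
        exact one_le_pow₀ h10
      · positivity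
    have h9 : 0 ≤ ∑ χ ∈ Pool.BV.prim r, ‖∑ n ∈ Icc 1 (2 * P), a n * χ n‖ ^ 2 :=
      sum_nonneg fun _ _ => by positivity
    calc ∑ χ ∈ Pool.BV.prim r, f r χ ≤ c * ∑ χ ∈ Pool.BV.prim r,
        ‖∑ n ∈ Icc 1 (2 * P), a n * χ n‖ ^ 2 := h8
      _ ≤ c * ((r : ℝ) / Nat.totient r * ∑ χ ∈ Pool.BV.prim r,
        ‖∑ n ∈ Icc 1 (2 * P), a n * χ n‖ ^ 2) := by
        apply mul_le_mul_of_nonneg_left _ hcpos
        exact le_mul_of_one_le_left h9 h7
  have h7 : 13 * ((Q : ℝ) ^ 2 + ((2 * P : ℕ) : ℝ)) * ∑ n ∈ Icc 1 (2 * P), ‖a n‖ ^ 2 ≤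
      39 * (P : ℝ) ^ 2 := by
    have h8 : (Q : ℝ) ^ 2 ≤ P := by
      refine le_trans ?_ hPE
      gcongr
    push_cast
    calc 13 * ((Q : ℝ) ^ 2 + 2 * P) * ∑ n ∈ Icc 1 (2 * P), ‖a n‖ ^ 2
        ≤ 13 * (P + 2 * P) * P := by gcongr
      _ = 39 * (P : ℝ) ^ 2 := by ring
  have h8 : c * (39 * (P : ℝ) ^ 2) = 156 * L ^ (2 * A1) := by
    rw [hc]
    field_simp
    ring
  have h9 : ((𝓑.erase 1).card : ℝ) ≤ 156 * L ^ (2 * A1) := by
    calc ((𝓑.erase 1).card : ℝ) ≤ _ := h1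
      _ ≤ _ := h2
      _ ≤ _ := h3
      _ ≤ _ := h6
      _ ≤ c * (39 * (P : ℝ) ^ 2) := mul_le_mul_of_nonneg_left (h5.trans h7) hcpos
      _ = _ := h8
  have h10 : (𝓑.card : ℝ) ≤ ((𝓑.erase 1).card : ℝ) + 1 := by
    have : 𝓑.card ≤ (𝓑.erase 1).card + 1 := by
      have := pred_card_le_card_erase (s := 𝓑) (a := 1)
      omega
    exact_mod_cast this
  have h11 : (1 : ℝ) ≤ L ^ (2 * A1) := one_le_pow₀ (by linarith)
  have h12 : (216 : ℝ) ≤ L ^ 3 := by
    calc (216 : ℝ) = 6 ^ 3 := by norm_num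
      _ ≤ L ^ 3 := by gcongr
  calc (𝓑.card : ℝ) ≤ 156 * L ^ (2 * A1) + 1 := by linarith
    _ ≤ L ^ (2 * A1) * 216 := by linarith
    _ ≤ L ^ (2 * A1) * L ^ 3 := by gcongr
    _ = L ^ (2 * A1 + 3) := by rw [pow_add]

end Pool.MP_dd84fd_nt.T7
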