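import Pool.Agent.Lib.MP_dd84fd_nt.T7.PrimeMom
import Pool.Agent.Lib.MP_dd84fd_nt.T7.SmallCond
import Pool.Agent.Lib.MP_dd84fd_nt.T7.SvBasic
import Pool.Agent.Lib.MP_dd84fd_nt.L2G.SepVar
import Pool.Agent.Lib.MP_dd84fd_nt.L2G.DivMom

/-!
T7-43 SvIIChar: the Type II part of `Sv` against characters. On `[1,X]` the indicator function of
the primes in `[wS X, zS X)` is the sum of its dyadic pieces; each piece is treated by `sep_var`.
-/

set_option autoImplicit false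

namespace Pool.MP_dd84fd_nt.T7

open Finset Pool.MP_67663b_nt.Odd Pool.MP_dd84fd_nt.L2G

private theorem sii_large (k : ℕ) : ∃ X0 : ℕ, ∀ X : ℕ, X0 ≤ X →
    64 ≤ Real.log X ∧ Real.log X ^ k ≤ X := by
  have h1 : ∀ᶠ x : ℝ in Filter.atTop, 64 ≤ Real.log x :=
    Real.tendsto_log_atTop.eventually_ge_atTop 64
  have h2 : ∀ᶠ x : ℝ in Filter.atTop, ‖Real.log x ^ k‖ ≤ 1 * ‖x‖ :=
    (Real.isLittleO_pow_log_id_atTop (n := k)).bound one_pos
  have h3 : ∀ᶠ X : ℕ in Filter.atTop, 64 ≤ Real.log X ∧ Real.log X ^ k ≤ X := by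
    filter_upwards [tendsto_natCast_atTop_atTop.eventually h1,
      tendsto_natCast_atTop_atTop.eventually h2] with X ha hb
    refine ⟨ha, ?_⟩
    rw [Real.norm_eq_abs, Real.norm_eq_abs, one_mul, abs_of_nonneg (a := (X : ℝ)) (by positivity)]
      at hb
    exact (le_abs_self _).trans hb
  exact Filter.eventually_atTop.1 h3

private theorem sii_large2 (k : ℕ) : ∃ X0 : ℕ, ∀ X : ℕ, X0 ≤ X →
    Real.log X ^ k ≤ Real.exp (Real.log (Real.log X) ^ 4 / 100) := by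
  have h0 : Filter.Tendsto (fun X : ℕ => Real.log (Real.log (X : ℝ))) Filter.atTop Filter.atTop :=
    Real.tendsto_log_atTop.comp (Real.tendsto_log_atTop.comp tendsto_natCast_atTop_atTop)
  have h1 : Filter.Tendsto (fun X : ℕ => Real.log (X : ℝ)) Filter.atTop Filter.atTop :=
    Real.tendsto_log_atTop.comp tendsto_natCast_atTop_atTop
  have ev := (h0.eventually_ge_atTop (100 * (k : ℝ) + 1)).and (h1.eventually_ge_atTop 1)
  obtain ⟨X0, hX0⟩ := Filter.eventually_atTop.1 ev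
  refine ⟨X0, fun X hX => ?_⟩
  obtain ⟨h2, h3⟩ := hX0 X hX
  set L := Real.log (X : ℝ) with hL
  have hL0 : 0 < L := by linarith
  have hk : (0 : ℝ) ≤ (k : ℝ) := Nat.cast_nonneg _
  set l := Real.log L with hl
  calc L ^ k = Real.exp (k * l) := by
        rw [hl, mul_comm, Real.exp_mul, Real.exp_log hL0, Real.rpow_natCast]
    _ ≤ Real.exp (l ^ 4 / 100) := by
        apply Real.exp_le_exp.2
        have hl1 : 1 ≤ l := by linarith
        have hl2 : l ^ 2 ≤ l ^ 4 := pow_le_pow_right₀ hl1 (by norm_num)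
        have h4 : 100 * (k : ℝ) * l ≤ l * l := mul_le_mul_of_nonneg_right (by linarith) (by linarith)
        have h5 : l * l = l ^ 2 := by ring
        linarith

private theorem sii_restr_sum (f : ArithmeticFunction ℝ) (J m : ℕ) (hm : m < 2 ^ J) :
    ∑ i ∈ range J, restr f i m = f m := by
  rcases Nat.eq_zero_or_pos m with rfl | hm0
  · simp
  · rw [Finset.sum_eq_single (Nat.log 2 m)]
    · have h1 : 2 ^ Nat.log 2 m ≤ m := Nat.pow_log_le_self 2 (by omega)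
      have h2 : m < 2 ^ (Nat.log 2 m + 1) := Nat.lt_pow_succ_log_self (by norm_num) m
      exact if_pos ⟨h1, h2⟩
    · intro i _ hi
      refine if_neg ?_
      rintro ⟨h1, h2⟩
      apply hi
      symm
      rw [Nat.log_eq_iff (Or.inr ⟨by norm_num, by omega⟩)]
      exact ⟨h1, h2⟩
    · intro h
      exfalso
      apply h
      rw [Finset.mem_range]
      exact Nat.log_lt_of_lt_pow (by omega) (by omega)

private theorem sii_conv_sum (f F : ArithmeticFunction ℝ) (J n : ℕ) (hn : n < 2 ^ J) :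
    (f * F) n = ∑ i ∈ range J, (restr f i * F) n := by
  rw [ArithmeticFunction.mul_apply]
  simp only [ArithmeticFunction.mul_apply]
  rw [Finset.sum_comm]
  refine Finset.sum_congr rfl fun p hp => ?_
  obtain ⟨h1, h2⟩ := Nat.mem_divisorsAntidiagonal.1 hp
  have h3 : p.1 ≤ n := Nat.divisor_le (Nat.mem_divisors.2 ⟨⟨p.2, h1.symm⟩, h2⟩)
  rw [← Finset.sum_mul, sii_restr_sum f J p.1 (by omega)]

private theorem sii_cauchy {ι : Type*} (G : Finset ι) (J : ℕ) (t : ℕ → ι → ℂ) (E : ℝ)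
    (h : ∀ i < J, ∑ χ ∈ G, ‖t i χ‖ ^ 2 ≤ E) :
    ∑ χ ∈ G, ‖∑ i ∈ range J, t i χ‖ ^ 2 ≤ (J : ℝ) ^ 2 * E := by
  have h1 : ∀ χ ∈ G, ‖∑ i ∈ range J, t i χ‖ ^ 2 ≤ J * ∑ i ∈ range J, ‖t i χ‖ ^ 2 := by
    intro χ _
    calc ‖∑ i ∈ range J, t i χ‖ ^ 2 ≤ (∑ i ∈ range J, ‖t i χ‖) ^ 2 :=
          pow_le_pow_left₀ (norm_nonneg _) (norm_sum_le _ _) 2
      _ ≤ ((range J).card : ℝ) * ∑ i ∈ range J, ‖t i χ‖ ^ 2 := sq_sum_le_card_mul_sum_sq
      _ = J * ∑ i ∈ range J, ‖t i χ‖ ^ 2 := by rw [card_range]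
  calc ∑ χ ∈ G, ‖∑ i ∈ range J, t i χ‖ ^ 2 ≤ ∑ χ ∈ G, J * ∑ i ∈ range J, ‖t i χ‖ ^ 2 :=
        Finset.sum_le_sum h1
    _ = J * ∑ i ∈ range J, ∑ χ ∈ G, ‖t i χ‖ ^ 2 := by
        rw [← Finset.mul_sum, Finset.sum_comm]
    _ ≤ J * ∑ i ∈ range J, E := by
        apply mul_le_mul_of_nonneg_left _ (Nat.cast_nonneg _)
        exact Finset.sum_le_sum fun i hi => h i (Finset.mem_range.1 hi)
    _ = (J : ℝ) ^ 2 * E := by
        rw [Finset.sum_const, card_range, nsmul_eq_mul]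
        ring

/-- the sum over one cell and one residue class -/
private noncomputable def siiA {q : ℕ} (a : ℕ → ℝ) (P H r i c : ℕ)
    (χ : DirichletCharacter ℂ q) : ℂ :=
  ∑ m ∈ (Ico (cell P H i) (cell P H (i + 1))).filter (fun m => m % r = c), (a m : ℂ) * χ m

private theorem sii_aS (X i n : ℕ) : restr (aS X) i n =
    if 2 ^ i ≤ n ∧ n < 2 ^ (i + 1) ∧ n.Prime ∧ wS X ≤ n ∧ n < zS X then 1 else 0 := by
  show (if 2 ^ i ≤ n ∧ n < 2 ^ (i + 1) then
    (if n.Prime ∧ wS X ≤ n ∧ n < zS X then (1 : ℝ) else 0) else 0) = _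
  by_cases h1 : 2 ^ i ≤ n ∧ n < 2 ^ (i + 1)
  · rw [if_pos h1]
    by_cases h2 : n.Prime ∧ wS X ≤ n ∧ n < zS X
    · rw [if_pos h2, if_pos ⟨h1.1, h1.2, h2⟩]
    · rw [if_neg h2, if_neg (fun h => h2 h.2.2)]
  · rw [if_neg h1, if_neg (fun h => h1 ⟨h.1, h.2.1⟩)]

/-- the sum over a cell is a sum over a set of primes -/
private theorem sii_cell {q : ℕ} (X i H r i' c : ℕ) : ∃ s : Finset ℕ,
    (∀ p ∈ s, p.Prime ∧ 2 ^ i ≤ p ∧ p < 2 * 2 ^ i) ∧ ∀ χ : DirichletCharacter ℂ q,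
      siiA (fun n => restr (aS X) i n) (2 ^ i) H r i' c χ = ∑ p ∈ s, (χ p : ℂ) := by
  classical
  refine ⟨((Ico (cell (2 ^ i) H i') (cell (2 ^ i) H (i' + 1))).filter (fun m => m % r = c)).filter
    (fun n => 2 ^ i ≤ n ∧ n < 2 ^ (i + 1) ∧ n.Prime ∧ wS X ≤ n ∧ n < zS X), ?_, ?_⟩
  · intro p hp
    obtain ⟨h1, h2, h3, _⟩ := (mem_filter.1 hp).2
    rw [pow_succ] at h2
    exact ⟨h3, h1, by omega⟩
  · intro χ
    unfold siiA
    rw [Finset.sum_filter (s := (Ico (cell (2 ^ i) H i') (cell (2 ^ i) H (i' + 1))).filter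
      (fun m => m % r = c))]
    refine Finset.sum_congr rfl fun n _ => ?_
    show ((restr (aS X) i n : ℝ) : ℂ) * χ n = _
    rw [sii_aS]
    split_ifs
    · rw [Complex.ofReal_one, one_mul]
    · rw [Complex.ofReal_zero, zero_mul]

private theorem sii_piece (ε : ℝ) (hε : 0 < ε) (hε1 : ε < 1) (A B : ℕ) :
    ∃ C X0 : ℕ, ∀ X : ℕ, X0 ≤ X →
    ∀ (q : ℕ) [NeZero q], (q : ℝ) ≤ (X : ℝ) ^ (4 / 5 - ε) → ∀ (r : ℕ) (y : ℤ) (β : ℝ), 1 ≤ r →
    (r : ℝ) ≤ Real.log X ^ B → |β| ≤ Real.log X ^ B / X → ∀ i : ℕ,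
      ∃ 𝓑 : Finset (DirichletCharacter ℂ q),
        (𝓑.card : ℝ) ≤ Real.log X ^ C * Real.exp (Real.log (Real.log X) ^ 4 / 100) ∧
        (∀ 𝓢 : Finset (DirichletCharacter ℂ q), 𝓢 ⊆ 𝓑 →
          (∀ χ ∈ 𝓢, ∃ d : ℕ, d ∣ q ∧ (d : ℝ) ≤ Real.exp (Real.log (Real.log X) ^ 4) ∧
            χ.FactorsThrough d) → (𝓢.card : ℝ) ≤ Real.log X ^ C) ∧
        ∀ 𝓖 : Finset (DirichletCharacter ℂ q), Disjoint 𝓖 𝓑 →
          ∑ χ ∈ 𝓖, ‖Tc X q (fun n => (restr (aS X) i * (kS X * gS X)) n) (y / r + β) χ‖ ^ 2 ≤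
            X ^ 2 / Real.log X ^ A := by
  classical
  obtain ⟨C1, hC1⟩ := sep_var
  obtain ⟨M, hM⟩ : ∃ M : ℕ, M = A + 2 * C1 + 2 := ⟨_, rfl⟩
  obtain ⟨A2, hA2⟩ : ∃ A2 : ℕ, A2 = 2 * (M + B) := ⟨_, rfl⟩
  obtain ⟨A1, hA1⟩ : ∃ A1 : ℕ, A1 = B + A2 + 1 + M := ⟨_, rfl⟩
  obtain ⟨X0, hX0⟩ := sii_large (A2 + 1 + B)
  obtain ⟨X1, hX1'⟩ := prime_mom A1
  obtain ⟨X2, hX2'⟩ := small_cond A1
  refine ⟨1 + (A2 + 1) + B + (2 * A1 + 3), X0 + X1 + X2 + 2, ?_⟩
  intro X hX q _ hq r y β hr1 hr hβ i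
  obtain ⟨hL64, hLX⟩ := hX0 X (by omega)
  have hPM := hX1' X (by omega)
  have hSC := hX2' X (by omega)
  clear hX1' hX2'
  obtain ⟨L, hL⟩ : ∃ L : ℝ, L = Real.log X := ⟨_, rfl⟩
  rw [← hL] at hL64 hLX hr hβ hPM hSC ⊢
  have hX2 : 2 ≤ X := by omega
  have hXR : (2 : ℝ) ≤ X := by exact_mod_cast hX2
  have hXp : (0 : ℝ) < X := by linarith
  have hX1 : (1 : ℝ) ≤ X := by linarith
  have hL1 : 1 ≤ L := by linarith
  have hLp : 0 < L := by linarith
  have hpw : ∀ {i j : ℕ}, i ≤ j → L ^ i ≤ L ^ j := fun h => pow_le_pow_right₀ hL1 h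
  by_cases hcond : wS X < 2 ^ (i + 1) ∧ 2 ^ i < zS X
  swap
  · -- the piece is empty
    have hz : ∀ n, restr (aS X) i n = 0 := by
      intro n
      rw [sii_aS, if_neg]
      rintro ⟨h1, h2, h3, h4, h5⟩
      exact hcond ⟨by omega, by omega⟩
    refine ⟨∅, ?_, ?_, ?_⟩
    · rw [Finset.card_empty, Nat.cast_zero]
      positivity
    · intro 𝓢 h𝓢 _
      rw [Finset.subset_empty.1 h𝓢, Finset.card_empty, Nat.cast_zero]
      positivity
    · intro 𝓖 _
      have h0 : ∀ χ ∈ 𝓖, ‖Tc X q (fun n => (restr (aS X) i * (kS X * gS X)) n)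
          (y / r + β) χ‖ ^ 2 = 0 := by
        intro χ _
        have h1 : Tc X q (fun n => (restr (aS X) i * (kS X * gS X)) n) (y / r + β) χ = 0 := by
          unfold Tc
          refine Finset.sum_eq_zero fun n _ => ?_
          have h2 : (restr (aS X) i * (kS X * gS X)) n = 0 := by
            rw [ArithmeticFunction.mul_apply]
            refine Finset.sum_eq_zero fun p _ => ?_
            rw [hz, zero_mul]
          show (((restr (aS X) i * (kS X * gS X)) n : ℝ) : ℂ) * χ n * ee (n * (y / r + β)) = 0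
          rw [h2, Complex.ofReal_zero, zero_mul, zero_mul]
        rw [h1, norm_zero]
        norm_num
      rw [Finset.sum_eq_zero h0]
      positivity
  obtain ⟨hcw, hcz⟩ := hcond
  -- the parameters
  obtain ⟨P, hP⟩ : ∃ P : ℕ, P = 2 ^ i := ⟨_, rfl⟩
  have hPpos : 1 ≤ P := by
    rw [hP]
    exact Nat.one_le_two_pow
  have hPR : (1 : ℝ) ≤ P := by exact_mod_cast hPpos
  have hwP : wS X ≤ 2 * P := by
    rw [hP]
    rw [pow_succ] at hcw
    omega
  have hP2 : (P : ℝ) ≤ (X : ℝ) ^ (1 / 5 : ℝ) := by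
    unfold zS at hcz
    rw [← hP, Nat.lt_ceil] at hcz
    exact hcz.le
  have hPX : (P : ℝ) ≤ X := by
    refine hP2.trans ?_
    calc (X : ℝ) ^ (1 / 5 : ℝ) ≤ (X : ℝ) ^ (1 : ℝ) :=
          Real.rpow_le_rpow_of_exponent_le hX1 (by norm_num)
      _ = X := Real.rpow_one _
  have hPXn : P ≤ X := by exact_mod_cast hPX
  have hqX : (q : ℝ) ≤ X := by
    refine hq.trans ?_
    calc (X : ℝ) ^ (4 / 5 - ε) ≤ (X : ℝ) ^ (1 : ℝ) :=
          Real.rpow_le_rpow_of_exponent_le hX1 (by linarith)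
      _ = X := Real.rpow_one _
  have hqXn : q ≤ X := by exact_mod_cast hqX
  have hqP : (q : ℝ) * P ≤ X := by
    calc (q : ℝ) * P ≤ (X : ℝ) ^ (4 / 5 - ε) * (X : ℝ) ^ (1 / 5 : ℝ) :=
          mul_le_mul hq hP2 (by positivity) (by positivity)
      _ = (X : ℝ) ^ ((4 / 5 - ε) + 1 / 5) := (Real.rpow_add hXp _ _).symm
      _ ≤ (X : ℝ) ^ (1 : ℝ) := Real.rpow_le_rpow_of_exponent_le hX1 (by linarith)
      _ = X := Real.rpow_one _
  obtain ⟨H, hH⟩ : ∃ H : ℕ, H = ⌈L ^ A2⌉₊ := ⟨_, rfl⟩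
  have hLA2 : 1 ≤ L ^ A2 := one_le_pow₀ hL1
  have hHlow : L ^ A2 ≤ H := by rw [hH]; exact Nat.le_ceil _
  have hH1 : 1 ≤ H := by
    have : (1 : ℝ) ≤ H := hLA2.trans hHlow
    exact_mod_cast this
  have hHup : (H : ℝ) ≤ L ^ (A2 + 1) := by
    rw [hH]
    have h1 := (Nat.ceil_lt_add_one (by positivity : 0 ≤ L ^ A2)).le
    rw [pow_succ]
    nlinarith
  have hHX : H ≤ X := by
    have h1 : (H : ℝ) ≤ X := hHup.trans ((hpw (by omega)).trans hLX)
    exact_mod_cast h1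
  have hrX : r ≤ X := by
    have h1 : (r : ℝ) ≤ X := hr.trans ((hpw (by omega)).trans hLX)
    exact_mod_cast h1
  obtain ⟨V, hV⟩ : ∃ V : ℝ, V = P / L ^ A1 := ⟨_, rfl⟩
  have hVp : 0 < V := by rw [hV]; positivity
  obtain ⟨K, hK⟩ : ∃ K : ℕ, K = max 1 (X / P) := ⟨_, rfl⟩
  have hK1 : 1 ≤ K := by rw [hK]; exact le_max_left _ _
  have hPKX : (P : ℝ) * K ≤ X := by
    rw [hK]
    rcases le_total 1 (X / P) with h | h
    · rw [max_eq_right h]
      have := Nat.mul_div_le X P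
      exact_mod_cast this
    · rw [max_eq_left h]
      push_cast
      linarith
  -- the arithmetic functions
  obtain ⟨a, ha⟩ : ∃ a : ArithmeticFunction ℝ, a = restr (aS X) i := ⟨_, rfl⟩
  obtain ⟨b, hb⟩ : ∃ b : ArithmeticFunction ℝ, b = kS X * gS X := ⟨_, rfl⟩
  have hgen : ∀ n : ℕ, 1 ≤ n → (1 : ℝ) ≤ (1 + Real.log n) * (n.divisors.card : ℝ) ^ 4 := by
    intro n hn
    have h2 : 0 ≤ Real.log n := Real.log_natCast_nonneg n
    have h3 : (1 : ℝ) ≤ (n.divisors.card : ℝ) := by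
      have : 0 < n.divisors.card := Finset.card_pos.2 ⟨1, Nat.one_mem_divisors.2 (by omega)⟩
      exact_mod_cast this
    exact one_le_mul_of_one_le_of_one_le (by linarith) (one_le_pow₀ h3)
  have hab1 : ∀ n, 1 ≤ n → |a n| ≤ (1 + Real.log n) * (n.divisors.card : ℝ) ^ 5 := by
    intro n hn
    have h1 : |a n| ≤ 1 := by
      rw [ha, sii_aS]
      split_ifs <;> simp
    have h3 : (1 : ℝ) ≤ (n.divisors.card : ℝ) := by
      have : 0 < n.divisors.card := Finset.card_pos.2 ⟨1, Nat.one_mem_divisors.2 (by omega)⟩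
      exact_mod_cast this
    have h4 := hgen n hn
    rw [pow_succ, ← mul_assoc]
    exact h1.trans (one_le_mul_of_one_le_of_one_le h4 h3)
  have hbb1 : ∀ n, 1 ≤ n → |b n| ≤ (1 + Real.log n) * (n.divisors.card : ℝ) ^ 5 := by
    intro n hn
    have h1 : |b n| ≤ (n.divisors.card : ℝ) := by
      rw [hb]
      exact conv_abs _ _ (fun n => (coef_abs X n).1) (fun n => (coef_abs X n).2.2.2) n
    have h4 := hgen n hn
    rw [pow_succ, ← mul_assoc]
    exact h1.trans (le_mul_of_one_le_left (Nat.cast_nonneg _) h4)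
  have hasupp : ∀ n, a n ≠ 0 → P ≤ n ∧ n ≤ 64 * P := by
    intro n hn
    rw [ha, sii_aS] at hn
    have h1 : 2 ^ i ≤ n ∧ n < 2 ^ (i + 1) := by
      by_contra h
      exact hn (if_neg (fun h' => h ⟨h'.1, h'.2.1⟩))
    rw [hP]
    refine ⟨h1.1, ?_⟩
    have h2 := h1.2
    rw [pow_succ] at h2
    omega
  -- the bad set
  obtain ⟨bad, hbadd⟩ : ∃ bad : ℕ × ℕ → Finset (DirichletCharacter ℂ q), bad =
      fun ic => univ.filter (fun χ => V < ‖siiA (fun n => a n) P H r ic.1 ic.2 χ‖) := ⟨_, rfl⟩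
  have hbadV : ∀ ic : ℕ × ℕ, ∃ s : Finset ℕ, (∀ p ∈ s, p.Prime ∧ P ≤ p ∧ p < 2 * P) ∧
      ∀ χ ∈ bad ic, P / L ^ A1 < ‖∑ p ∈ s, (χ p : ℂ)‖ := by
    intro ic
    obtain ⟨s, hs1, hs2⟩ := sii_cell (q := q) X i H r ic.1 ic.2
    refine ⟨s, ?_, fun χ hχ => ?_⟩
    · rw [hP]
      exact hs1
    · rw [hbadd] at hχ
      have h1 := (mem_filter.1 hχ).2
      rw [ha, hP, hs2 χ, hV] at h1
      exact h1
  have hcount : ∀ ic : ℕ × ℕ, ((bad ic).card : ℝ) ≤ Real.exp (Real.log L ^ 4 / 100) := by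
    intro ic
    obtain ⟨s, hs1, hs2⟩ := hbadV ic
    exact hPM q hqXn P hwP hPXn s hs1 (bad ic) hs2
  have hcount2 : ∀ ic : ℕ × ℕ, ∀ 𝓢 : Finset (DirichletCharacter ℂ q), 𝓢 ⊆ bad ic →
      (∀ χ ∈ 𝓢, ∃ d : ℕ, d ∣ q ∧ (d : ℝ) ≤ Real.exp (Real.log L ^ 4) ∧ χ.FactorsThrough d) →
      (𝓢.card : ℝ) ≤ L ^ (2 * A1 + 3) := by
    intro ic 𝓢 h𝓢 hcd
    obtain ⟨s, hs1, hs2⟩ := hbadV ic
    exact hSC q hqXn P hwP hPXn s hs1 𝓢 (fun χ hχ => hs2 χ (h𝓢 hχ)) hcd
  obtain ⟨𝓑, h𝓑⟩ : ∃ 𝓑 : Finset (DirichletCharacter ℂ q), 𝓑 =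
      (range (10 * H) ×ˢ range r).biUnion bad := ⟨_, rfl⟩
  have hnum : 10 * (H : ℝ) * r ≤ L * L ^ (A2 + 1) * L ^ B :=
    mul_le_mul (mul_le_mul (by linarith) hHup (by positivity) (by positivity)) hr
      (by positivity) (by positivity)
  refine ⟨𝓑, ?_, ?_, fun 𝓖 h𝓖 => ?_⟩
  · have h1 : (𝓑.card : ℝ) ≤ ∑ ic ∈ range (10 * H) ×ˢ range r, ((bad ic).card : ℝ) := by
      rw [h𝓑]
      exact_mod_cast Finset.card_biUnion_le
    have h3 := h1.trans (Finset.sum_le_sum fun ic _ => hcount ic)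
    rw [Finset.sum_const, Finset.card_product, Finset.card_range, Finset.card_range,
      nsmul_eq_mul] at h3
    push_cast at h3
    refine h3.trans (mul_le_mul_of_nonneg_right (hnum.trans ?_) (Real.exp_pos _).le)
    rw [← pow_succ', ← pow_add]
    exact hpw (by omega)
  · intro 𝓢 h𝓢 hcd
    have h0 : 𝓢 = (range (10 * H) ×ˢ range r).biUnion (fun ic => 𝓢 ∩ bad ic) := by
      ext χ
      constructor
      · intro hχ
        have h1 := h𝓢 hχ
        rw [h𝓑, Finset.mem_biUnion] at h1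
        obtain ⟨ic, h2, h3⟩ := h1
        exact Finset.mem_biUnion.2 ⟨ic, h2, Finset.mem_inter.2 ⟨hχ, h3⟩⟩
      · intro hχ
        obtain ⟨ic, _, h3⟩ := Finset.mem_biUnion.1 hχ
        exact (Finset.mem_inter.1 h3).1
    have h1 : (𝓢.card : ℝ) ≤ ∑ ic ∈ range (10 * H) ×ˢ range r, ((𝓢 ∩ bad ic).card : ℝ) := by
      have h2 : 𝓢.card ≤ ∑ ic ∈ range (10 * H) ×ˢ range r, (𝓢 ∩ bad ic).card := by
        calc 𝓢.card = ((range (10 * H) ×ˢ range r).biUnion (fun ic => 𝓢 ∩ bad ic)).card := by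
              rw [← h0]
          _ ≤ _ := Finset.card_biUnion_le
      exact_mod_cast h2
    have h3 := h1.trans (Finset.sum_le_sum fun ic _ => hcount2 ic (𝓢 ∩ bad ic)
      Finset.inter_subset_right (fun χ hχ => hcd χ (Finset.mem_inter.1 hχ).1))
    rw [Finset.sum_const, Finset.card_product, Finset.card_range, Finset.card_range,
      nsmul_eq_mul] at h3
    push_cast at h3
    refine h3.trans ((mul_le_mul_of_nonneg_right hnum (by positivity)).trans ?_)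
    rw [← pow_succ', ← pow_add, ← pow_add]
    exact hpw (by omega)
  · have hbad : ∀ χ ∈ 𝓖, ∀ i < 10 * H, ∀ c < r,
        ‖∑ m ∈ (Ico (cell P H i) (cell P H (i + 1))).filter (fun m => m % r = c),
          (a m : ℂ) * χ m‖ ≤ V := by
      intro χ hχ i hi c hc
      by_contra hlt
      push Not at hlt
      refine (Finset.disjoint_left.1 h𝓖) hχ ?_
      rw [h𝓑]
      refine Finset.mem_biUnion.2 ⟨(i, c), Finset.mem_product.2 ⟨mem_range.2 hi, mem_range.2 hc⟩, ?_⟩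
      rw [hbadd]
      exact mem_filter.2 ⟨mem_univ _, hlt⟩
    have hmain := hC1 X q r H P K hX2 hqXn hr1 hrX hH1 hHX hPpos
      hPXn hK1 a b hab1 hbb1 hasupp (fun k _ hPk => by
        rw [hK]
        refine le_trans ?_ (le_max_right _ _)
        rw [Nat.le_div_iff_mul_le (by omega), mul_comm]
        exact hPk) y β V 𝓖 hVp.le hbad
    have hTc : ∑ χ ∈ 𝓖, ‖Tc X q (fun n => (restr (aS X) i * (kS X * gS X)) n) (y / r + β) χ‖ ^ 2 =
        ∑ χ ∈ 𝓖, ‖∑ n ∈ Icc 1 X, (((a * b) n : ℝ) : ℂ) * χ n * ee (n * (y / r + β))‖ ^ 2 := by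
      unfold Tc
      rw [ha, hb]
    rw [hTc]
    refine hmain.trans ?_
    rw [← hL]
  -- the three terms
    have hL2 : 2 + L ≤ L ^ 2 := by nlinarith
    have hCb : (2 + L) ^ C1 ≤ L ^ (2 * C1) := by
      rw [pow_mul]
      exact pow_le_pow_left₀ (by positivity) hL2 _
    have hrHV : (r : ℝ) * H * V ≤ P / L ^ M := by
      rw [hV, hA1]
      calc (r : ℝ) * H * (P / L ^ (B + A2 + 1 + M)) ≤
            L ^ B * L ^ (A2 + 1) * (P / L ^ (B + A2 + 1 + M)) :=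
            mul_le_mul_of_nonneg_right (mul_le_mul hr hHup (by positivity) (by positivity))
              (by positivity)
        _ = P / L ^ M := by
            have e2 : L ^ (B + A2 + 1 + M) = L ^ B * L ^ (A2 + 1) * L ^ M := by
              rw [← pow_add, ← pow_add]
              congr 1
            rw [e2]
            field_simp
    have hT1 : ((r : ℝ) * H * V) ^ 2 * (K + q) * K ≤ 2 * X ^ 2 / L ^ M := by
      have h1 : ((r : ℝ) * H * V) ^ 2 ≤ (P / L ^ M) ^ 2 :=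
        pow_le_pow_left₀ (by positivity) hrHV 2
      have h2 : ((r : ℝ) * H * V) ^ 2 * (K + q) * K ≤ (P / L ^ M) ^ 2 * (K + q) * K := by
        gcongr
      refine h2.trans ?_
      have h3 : (P / L ^ M : ℝ) ^ 2 * (K + q) * K =
          ((P * K) * (P * K) + (q * P) * (P * K)) / (L ^ M) ^ 2 := by
        field_simp
      rw [h3]
      have h4 : ((P : ℝ) * K) * (P * K) + (q * P) * (P * K) ≤ 2 * X ^ 2 := by
        have h5 : ((P : ℝ) * K) * (P * K) ≤ X * X :=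
          mul_le_mul hPKX hPKX (by positivity) hXp.le
        have h6 : ((q : ℝ) * P) * (P * K) ≤ X * X :=
          mul_le_mul hqP hPKX (by positivity) hXp.le
        nlinarith
      have hLM : 1 ≤ L ^ M := one_le_pow₀ hL1
      exact div_le_div₀ (by positivity) h4 (by positivity) (by nlinarith)
    have hT2 : (|β| * X / H) ^ 2 ≤ 1 / L ^ M := by
      have h1 : |β| * X ≤ L ^ B := by
        rw [le_div_iff₀ hXp] at hβ
        exact hβ
      have h2 : |β| * X / H ≤ 1 / L ^ M := by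
        have hHp : (0 : ℝ) < H := by linarith
        rw [div_le_div_iff₀ hHp (by positivity), one_mul]
        calc |β| * X * L ^ M ≤ L ^ B * L ^ M := mul_le_mul_of_nonneg_right h1 (by positivity)
          _ = L ^ (B + M) := (pow_add _ _ _).symm
          _ ≤ L ^ A2 := hpw (by omega)
          _ ≤ H := hHlow
      have h3 : 0 ≤ |β| * X / H := by positivity
      have h4 : (1 : ℝ) / L ^ M ≤ 1 := by
        rw [div_le_one (by positivity)]
        exact one_le_pow₀ hL1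
      nlinarith
    have hT3 : 1 / Real.sqrt H ≤ 1 / L ^ M := by
      refine one_div_le_one_div_of_le (by positivity) ?_
      apply Real.le_sqrt_of_sq_le
      calc (L ^ M) ^ 2 = L ^ (M * 2) := (pow_mul _ _ _).symm
        _ ≤ L ^ A2 := hpw (by omega)
        _ ≤ H := hHlow
    have hsum : ((r : ℝ) * H * V) ^ 2 * (K + q) * K +
        X ^ 2 * ((|β| * X / H) ^ 2 + 1 / Real.sqrt H) ≤ 4 * X ^ 2 / L ^ M := by
      have h1 : X ^ 2 * ((|β| * X / H) ^ 2 + 1 / Real.sqrt H) ≤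
          (X : ℝ) ^ 2 * (1 / L ^ M + 1 / L ^ M) :=
        mul_le_mul_of_nonneg_left (add_le_add hT2 hT3) (by positivity)
      have h2 : 2 * (X : ℝ) ^ 2 / L ^ M + (X : ℝ) ^ 2 * (1 / L ^ M + 1 / L ^ M) =
          4 * X ^ 2 / L ^ M := by ring
      linarith
    calc (2 + L) ^ C1 * (((r : ℝ) * H * V) ^ 2 * (K + q) * K +
          X ^ 2 * ((|β| * X / H) ^ 2 + 1 / Real.sqrt H))
        ≤ L ^ (2 * C1) * (4 * X ^ 2 / L ^ M) :=
          mul_le_mul hCb hsum (by positivity) (by positivity)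
      _ ≤ X ^ 2 / L ^ A := by
          rw [hM, show A + 2 * C1 + 2 = A + (2 * C1) + 2 by ring, pow_add, pow_add]
          rw [mul_div_assoc', div_le_div_iff₀ (by positivity) (by positivity)]
          have h1 : (4 : ℝ) ≤ L ^ 2 := by nlinarith
          calc L ^ (2 * C1) * (4 * X ^ 2) * L ^ A = 4 * (X ^ 2 * (L ^ A * L ^ (2 * C1))) := by ring
            _ ≤ L ^ 2 * (X ^ 2 * (L ^ A * L ^ (2 * C1))) :=
                mul_le_mul_of_nonneg_right h1 (by positivity)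
            _ = X ^ 2 * (L ^ A * L ^ (2 * C1) * L ^ 2) := by ring

theorem sv_II_char (ε : ℝ) (hε : 0 < ε) (hε1 : ε < 1) (A B : ℕ) : ∃ C X0 : ℕ, ∀ X : ℕ, X0 ≤ X →
    ∀ (q : ℕ) [NeZero q], (q : ℝ) ≤ (X : ℝ) ^ (4 / 5 - ε) → ∀ (r : ℕ) (y : ℤ) (β : ℝ), 1 ≤ r →
    (r : ℝ) ≤ Real.log X ^ B → |β| ≤ Real.log X ^ B / X →
      ∃ 𝓑 : Finset (DirichletCharacter ℂ q),
        (𝓑.card : ℝ) ≤ Real.exp (Real.log (Real.log X) ^ 4 / 50) ∧
        (∀ 𝓢 : Finset (DirichletCharacter ℂ q), 𝓢 ⊆ 𝓑 →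
          (∀ χ ∈ 𝓢, ∃ d : ℕ, d ∣ q ∧ (d : ℝ) ≤ Real.exp (Real.log (Real.log X) ^ 4) ∧
            χ.FactorsThrough d) → (𝓢.card : ℝ) ≤ Real.log X ^ C) ∧
        ∀ 𝓖 : Finset (DirichletCharacter ℂ q), Disjoint 𝓖 𝓑 →
          ∑ χ ∈ 𝓖, ‖Tc X q (fun n => (aS X * (kS X * gS X)) n) (y / r + β) χ‖ ^ 2 ≤
            X ^ 2 / Real.log X ^ A := by
  classical
  obtain ⟨C, X1, hX1⟩ := sii_piece ε hε hε1 (A + 4) B
  obtain ⟨X2, hX2⟩ := sii_large2 (C + 2)
  refine ⟨C + 2, X1 + X2 + 100, fun X hX q _ hq r y β hr1 hr hβ => ?_⟩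
  have hpc := hX1 X (by omega) q hq r y β hr1 hr hβ
  have hexp := hX2 X (by omega)
  have hX1' : 1 ≤ X := by omega
  have hX0 : (0 : ℝ) < X := by exact_mod_cast hX1'
  have hX100 : (100 : ℝ) ≤ X := by
    have : 100 ≤ X := by omega
    exact_mod_cast this
  set L := Real.log (X : ℝ) with hL
  have hL3 : 4 ≤ L := by
    rw [hL, Real.le_log_iff_exp_le hX0]
    have h1 : Real.exp 4 = Real.exp 1 ^ 4 := by
      rw [← Real.exp_nat_mul]
      norm_num
    rw [h1]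
    have h2 := Real.exp_one_lt_d9
    have h3 : Real.exp 1 ^ 4 ≤ (2.7182818286 : ℝ) ^ 4 :=
      pow_le_pow_left₀ (Real.exp_pos _).le h2.le 4
    refine h3.trans (le_trans ?_ hX100)
    norm_num
  have hL0 : 0 < L := by linarith
  set J := Nat.log 2 X + 1 with hJ
  have hJX : X < 2 ^ J := Nat.lt_pow_succ_log_self (by norm_num) X
  have hJL : (J : ℝ) ≤ L ^ 2 := by
    have h1 : (2 : ℝ) ^ (Nat.log 2 X) ≤ X := by
      have : 2 ^ Nat.log 2 X ≤ X := Nat.pow_log_le_self 2 (by omega)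
      exact_mod_cast this
    have h2 : (Nat.log 2 X : ℝ) * Real.log 2 ≤ L := by
      rw [hL, ← Real.log_pow]
      exact Real.log_le_log (by positivity) h1
    have h3 := Real.log_two_gt_d9
    have h4 : (Nat.log 2 X : ℝ) ≤ 2 * L := by
      have h5 : (Nat.log 2 X : ℝ) * (1 / 2) ≤ (Nat.log 2 X : ℝ) * Real.log 2 :=
        mul_le_mul_of_nonneg_left (by linarith) (Nat.cast_nonneg _)
      linarith
    rw [hJ]
    push_cast
    nlinarith
  choose bd hbd1 hbd2 hbd3 using hpc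
  refine ⟨(range J).biUnion bd, ?_, ?_, fun 𝓖 h𝓖 => ?_⟩
  · have h1 : ((((range J).biUnion bd).card : ℕ) : ℝ) ≤ ∑ i ∈ range J, ((bd i).card : ℝ) := by
      exact_mod_cast Finset.card_biUnion_le
    have h3 := h1.trans (Finset.sum_le_sum fun i _ => hbd1 i)
    rw [Finset.sum_const, Finset.card_range, nsmul_eq_mul] at h3
    refine h3.trans ?_
    calc (J : ℝ) * (L ^ C * Real.exp (Real.log L ^ 4 / 100))
        ≤ L ^ 2 * (L ^ C * Real.exp (Real.log L ^ 4 / 100)) :=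
          mul_le_mul_of_nonneg_right hJL (by positivity)
      _ = L ^ (C + 2) * Real.exp (Real.log L ^ 4 / 100) := by
          rw [pow_add]
          ring
      _ ≤ Real.exp (Real.log L ^ 4 / 100) * Real.exp (Real.log L ^ 4 / 100) :=
          mul_le_mul_of_nonneg_right hexp (Real.exp_pos _).le
      _ = Real.exp (Real.log L ^ 4 / 50) := by
          rw [← Real.exp_add]
          congr 1
          ring
  · intro 𝓢 h𝓢 hcd
    have h0 : 𝓢 = (range J).biUnion (fun i => 𝓢 ∩ bd i) := by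
      ext χ
      constructor
      · intro hχ
        have h1 := h𝓢 hχ
        rw [Finset.mem_biUnion] at h1
        obtain ⟨i, h2, h3⟩ := h1
        exact Finset.mem_biUnion.2 ⟨i, h2, Finset.mem_inter.2 ⟨hχ, h3⟩⟩
      · intro hχ
        obtain ⟨i, _, h3⟩ := Finset.mem_biUnion.1 hχ
        exact (Finset.mem_inter.1 h3).1
    have h1 : (𝓢.card : ℝ) ≤ ∑ i ∈ range J, ((𝓢 ∩ bd i).card : ℝ) := by
      have h2 : 𝓢.card ≤ ∑ i ∈ range J, (𝓢 ∩ bd i).card := by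
        calc 𝓢.card = ((range J).biUnion (fun i => 𝓢 ∩ bd i)).card := by rw [← h0]
          _ ≤ _ := Finset.card_biUnion_le
      exact_mod_cast h2
    have h3 := h1.trans (Finset.sum_le_sum fun i _ => hbd2 i (𝓢 ∩ bd i)
      Finset.inter_subset_right (fun χ hχ => hcd χ (Finset.mem_inter.1 hχ).1))
    rw [Finset.sum_const, Finset.card_range, nsmul_eq_mul] at h3
    refine h3.trans ((mul_le_mul_of_nonneg_right hJL (by positivity)).trans (le_of_eq ?_))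
    rw [← pow_add, add_comm]
  · have hT : ∀ χ : DirichletCharacter ℂ q,
        Tc X q (fun n => (aS X * (kS X * gS X)) n) (y / r + β) χ =
        ∑ i ∈ range J, Tc X q (fun n => (restr (aS X) i * (kS X * gS X)) n) (y / r + β) χ := by
      intro χ
      unfold Tc
      rw [Finset.sum_comm]
      refine Finset.sum_congr rfl fun n hn => ?_
      rw [Finset.mem_Icc] at hn
      show (((aS X * (kS X * gS X)) n : ℝ) : ℂ) * χ n * ee (n * (y / r + β)) =
        ∑ i ∈ range J, (((restr (aS X) i * (kS X * gS X)) n : ℝ) : ℂ) * χ n *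
          ee (n * (y / r + β))
      rw [sii_conv_sum (aS X) (kS X * gS X) J n (by omega), Complex.ofReal_sum, Finset.sum_mul,
        Finset.sum_mul]
    simp only [hT]
    have hE : ∀ i < J, ∑ χ ∈ 𝓖,
        ‖Tc X q (fun n => (restr (aS X) i * (kS X * gS X)) n) (y / r + β) χ‖ ^ 2 ≤
        X ^ 2 / L ^ (A + 4) := by
      intro i hi
      refine hbd3 i 𝓖 ?_
      rw [Finset.disjoint_biUnion_right] at h𝓖
      exact h𝓖 i (Finset.mem_range.2 hi)
    refine (sii_cauchy 𝓖 J _ _ hE).trans ?_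
    calc (J : ℝ) ^ 2 * (X ^ 2 / L ^ (A + 4)) ≤ (L ^ 2) ^ 2 * (X ^ 2 / L ^ (A + 4)) := by
          apply mul_le_mul_of_nonneg_right _ (by positivity)
          exact pow_le_pow_left₀ (Nat.cast_nonneg _) hJL 2
      _ = X ^ 2 / L ^ A := by
          rw [← pow_mul, pow_add]
          field_simp

end Pool.MP_dd84fd_nt.T7
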