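import Pool.Agent.Lib.MP_dd84fd_nt.T7.SvBasic
import Pool.Agent.Lib.MP_dd84fd_nt.L2G.DivMom

/-!
T7-27 SdBasic. |(kS*lS) f|, |(kS*gS) k| <= tau (conv_abs). sum_{f<=X} tau(f)/f <= (1+L)^C. For fixed n: sum over k with wS k <= n: log(n/k) >= log wS >= 1: <= sum tau(k)/k. Variation: for fixed k the function n -> [w k <= n < z k]/log(n/k)
jumps up by <= 1 at n = wk, decreases, jumps down: total variation over the integers <= 2/log w * ... <= 2 (value <= 1/log w <= 1); times |c_k|/k, sum over k.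
-/

set_option autoImplicit false

namespace Pool.MP_dd84fd_nt.T7

open Finset Pool.MP_67663b_nt.Odd Pool.MP_dd84fd_nt.L2G

/-- the profile `[w k ≤ n < z k] / log (n / k)` -/
private noncomputable def sdb_h (w z k n : ℕ) : ℝ :=
  if w * k ≤ n ∧ n < z * k then 1 / Real.log ((n : ℝ) / k) else 0

private theorem sdb_log (w k n : ℕ) (hk : 1 ≤ k) (hw : Real.exp 1 ≤ w) (h : w * k ≤ n) :
    1 ≤ Real.log ((n : ℝ) / k) := by
  have hkR : (0 : ℝ) < k := by exact_mod_cast hk
  have h1 : (w : ℝ) ≤ (n : ℝ) / k := by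
    rw [le_div_iff₀ hkR]
    exact_mod_cast h
  have h2 : Real.exp 1 ≤ (n : ℝ) / k := hw.trans h1
  rw [Real.le_log_iff_exp_le (lt_of_lt_of_le (Real.exp_pos 1) h2)]
  exact h2

private theorem sdb_h_nonneg (w z k n : ℕ) (hk : 1 ≤ k) (hw : Real.exp 1 ≤ w) :
    0 ≤ sdb_h w z k n := by
  unfold sdb_h
  split_ifs with h
  · have := sdb_log w k n hk hw h.1
    positivity
  · exact le_rfl

private theorem sdb_h_le (w z k n : ℕ) (hk : 1 ≤ k) (hw : Real.exp 1 ≤ w) :
    sdb_h w z k n ≤ 1 := by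
  unfold sdb_h
  split_ifs with h
  · have := sdb_log w k n hk hw h.1
    rw [div_le_one (by linarith)]
    exact this
  · exact zero_le_one

private theorem sdb_h_step (w z k n : ℕ) (hk : 1 ≤ k) (hw : Real.exp 1 ≤ w) :
    |sdb_h w z k (n + 1) - sdb_h w z k n| ≤
      (sdb_h w z k n - sdb_h w z k (n + 1)) + (if n + 1 = w * k then 2 else 0) := by
  have h0 := sdb_h_nonneg w z k n hk hw
  have h1 := sdb_h_nonneg w z k (n + 1) hk hw
  have h2 := sdb_h_le w z k n hk hw
  have h3 := sdb_h_le w z k (n + 1) hk hw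
  split_ifs with h
  · have h4 : sdb_h w z k n = 0 := by
      unfold sdb_h
      rw [if_neg]
      omega
    rw [h4, sub_zero, abs_of_nonneg h1]
    linarith
  · have hmon : sdb_h w z k (n + 1) ≤ sdb_h w z k n := by
      by_cases h5 : w * k ≤ n + 1 ∧ n + 1 < z * k
      · have h6 : w * k ≤ n ∧ n < z * k := by omega
        have hl := sdb_log w k n hk hw h6.1
        have e1 : sdb_h w z k (n + 1) = 1 / Real.log (((n + 1 : ℕ) : ℝ) / k) := by
          unfold sdb_h
          rw [if_pos h5]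
        have e2 : sdb_h w z k n = 1 / Real.log ((n : ℝ) / k) := by
          unfold sdb_h
          rw [if_pos h6]
        rw [e1, e2]
        have hkR : (0 : ℝ) < k := by exact_mod_cast hk
        have hn0 : (0 : ℝ) < n := by
          have hw0 : 0 < w := by
            have : (0 : ℝ) < w := lt_of_lt_of_le (Real.exp_pos 1) hw
            exact_mod_cast this
          have : 0 < n := lt_of_lt_of_le (Nat.mul_pos hw0 hk) h6.1
          exact_mod_cast this
        refine one_div_le_one_div_of_le (by linarith) ?_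
        refine Real.log_le_log (by positivity) ?_
        push_cast
        gcongr
        linarith
      · have e1 : sdb_h w z k (n + 1) = 0 := by
          unfold sdb_h
          rw [if_neg h5]
        rw [e1]
        exact h0
    rw [abs_of_nonpos (by linarith), add_zero]
    linarith

private theorem sdb_tele (h : ℕ → ℝ) (X : ℕ) (hX : 1 ≤ X) :
    ∑ n ∈ Ico 1 X, (h n - h (n + 1)) = h 1 - h X := by
  induction X, hX using Nat.le_induction with
  | base => simp
  | succ m hm ih =>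
      rw [Finset.sum_Ico_succ_top hm, ih]
      ring

private theorem sdb_var (w z k X : ℕ) (hX : 1 ≤ X) (hk : 1 ≤ k) (hw : Real.exp 1 ≤ w) :
    ∑ n ∈ Ico 1 X, |sdb_h w z k (n + 1) - sdb_h w z k n| ≤ 3 := by
  refine (Finset.sum_le_sum fun n _ => sdb_h_step w z k n hk hw).trans ?_
  rw [Finset.sum_add_distrib, sdb_tele _ X hX]
  have h1 := sdb_h_le w z k 1 hk hw
  have h2 := sdb_h_nonneg w z k X hk hw
  have h3 : ∑ n ∈ Ico 1 X, (if n + 1 = w * k then (2 : ℝ) else 0) ≤ 2 := by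
    have h4 : ∀ n ∈ Ico 1 X, (if n + 1 = w * k then (2 : ℝ) else 0) =
        if n = w * k - 1 then (if 1 ≤ w * k then (2 : ℝ) else 0) else 0 := by
      intro n _
      by_cases h5 : n + 1 = w * k
      · rw [if_pos h5, if_pos (by omega), if_pos (by omega)]
      · rw [if_neg h5]
        by_cases h6 : n = w * k - 1
        · rw [if_pos h6, if_neg (by omega)]
        · rw [if_neg h6]
    rw [Finset.sum_congr rfl h4, Finset.sum_ite_eq']
    split_ifs <;> norm_num
  linarith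

private theorem sdb_ev : ∃ X0 : ℕ, ∀ X : ℕ, X0 ≤ X → 3 ≤ Real.log X ∧ Real.exp 1 ≤ wS X := by
  have h1 : ∀ᶠ x : ℝ in Filter.atTop, ‖Real.log x ^ 2‖ ≤ 1 * ‖x‖ :=
    (Real.isLittleO_pow_log_id_atTop (n := 2)).bound one_pos
  have h2 : ∀ᶠ x : ℝ in Filter.atTop, 3 ≤ x ∧ ‖Real.log x ^ 2‖ ≤ 1 * ‖x‖ :=
    (Filter.eventually_ge_atTop 3).and h1
  have h3 := (Real.tendsto_log_atTop.comp (tendsto_natCast_atTop_atTop (R := ℝ))).eventually h2
  obtain ⟨X0, hX0⟩ := Filter.eventually_atTop.1 h3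
  refine ⟨X0, fun X hX => ?_⟩
  obtain ⟨h4, h5⟩ := hX0 X hX
  simp only [Function.comp] at h4 h5
  refine ⟨h4, ?_⟩
  rw [one_mul, Real.norm_of_nonneg (by positivity), Real.norm_of_nonneg (by linarith)] at h5
  have h6 : 0 < Real.log (Real.log X) := Real.log_pos (by linarith)
  have h7 : 1 ≤ Real.log X / Real.log (Real.log X) ^ 2 := by
    rw [le_div_iff₀ (by positivity), one_mul]
    exact h5
  calc Real.exp 1 ≤ Real.exp (Real.log X / Real.log (Real.log X) ^ 2) := Real.exp_le_exp.2 h7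
    _ ≤ wS X := Nat.le_ceil _

private theorem sdb_eq (X n : ℕ) : sd X n = ∑ f ∈ Icc 1 X, (kS X * lS X) f / f -
    ∑ k ∈ Icc 1 X, (kS X * gS X) k / k * sdb_h (wS X) (zS X) k n := by
  unfold sd sdb_h
  congr 1
  refine Finset.sum_congr rfl fun k _ => ?_
  split_ifs
  · rw [div_mul_div_comm, mul_one]
  · rw [mul_zero]

theorem sd_bound : ∃ C X0 : ℕ, ∀ X : ℕ, X0 ≤ X → (∀ n, |sd X n| ≤ Real.log X ^ C) ∧
    ∑ n ∈ Ico 1 X, |sd X (n + 1) - sd X n| ≤ Real.log X ^ C := by
  obtain ⟨C1, hC1⟩ := div_mom 1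
  obtain ⟨X1, hX1⟩ := sdb_ev
  refine ⟨2 * C1 + 1, X1 + 1, fun X hX => ?_⟩
  obtain ⟨hL, hw⟩ := hX1 X (by omega)
  have hX1' : 1 ≤ X := by omega
  obtain ⟨L, hLdef⟩ : ∃ L : ℝ, L = Real.log X := ⟨_, rfl⟩
  rw [← hLdef] at hL ⊢
  have htau := (hC1 X hX1').2
  rw [← hLdef] at htau
  have hpow : (1 + L) ^ C1 ≤ L ^ (2 * C1) := by
    rw [pow_mul]
    exact pow_le_pow_left₀ (by linarith) (by nlinarith) _
  have h3L : 3 * (1 + L) ^ C1 ≤ L ^ (2 * C1 + 1) := by
    rw [pow_succ, mul_comm (L ^ (2 * C1)) L]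
    exact mul_le_mul hL hpow (by positivity) (by linarith)
  have hcl : ∀ k, |(kS X * lS X) k| ≤ (k.divisors.card : ℝ) := fun k =>
    conv_abs _ _ (fun n => (coef_abs X n).1) (fun n => (coef_abs X n).2.1) k
  have hcg : ∀ k, |(kS X * gS X) k| ≤ (k.divisors.card : ℝ) := fun k =>
    conv_abs _ _ (fun n => (coef_abs X n).1) (fun n => (coef_abs X n).2.2.2) k
  have hdivl : ∀ k ∈ Icc 1 X, |(kS X * lS X) k / k| ≤ (k.divisors.card : ℝ) ^ 1 / k := by
    intro k hk
    rw [pow_one, abs_div, Nat.abs_cast]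
    exact div_le_div_of_nonneg_right (hcl k) (Nat.cast_nonneg k)
  have hdivg : ∀ k ∈ Icc 1 X, |(kS X * gS X) k / k| ≤ (k.divisors.card : ℝ) ^ 1 / k := by
    intro k hk
    rw [pow_one, abs_div, Nat.abs_cast]
    exact div_le_div_of_nonneg_right (hcg k) (Nat.cast_nonneg k)
  have htau0 : 0 ≤ (1 + L) ^ C1 := by positivity
  constructor
  · intro n
    rw [sdb_eq]
    have h1 : |∑ f ∈ Icc 1 X, (kS X * lS X) f / f| ≤ (1 + L) ^ C1 :=
      (Finset.abs_sum_le_sum_abs _ _).trans ((Finset.sum_le_sum hdivl).trans htau)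
    have h2 : |∑ k ∈ Icc 1 X, (kS X * gS X) k / k * sdb_h (wS X) (zS X) k n| ≤ (1 + L) ^ C1 := by
      refine (Finset.abs_sum_le_sum_abs _ _).trans (le_trans (Finset.sum_le_sum fun k hk => ?_) htau)
      have hk1 : 1 ≤ k := (Finset.mem_Icc.1 hk).1
      rw [abs_mul, abs_of_nonneg (sdb_h_nonneg _ _ k n hk1 hw)]
      calc |(kS X * gS X) k / k| * sdb_h (wS X) (zS X) k n ≤ |(kS X * gS X) k / k| * 1 :=
            mul_le_mul_of_nonneg_left (sdb_h_le _ _ k n hk1 hw) (abs_nonneg _)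
        _ ≤ _ := by
            rw [mul_one]
            exact hdivg k hk
    refine (abs_sub _ _).trans ?_
    linarith
  · have hdiff : ∀ n, |sd X (n + 1) - sd X n| ≤ ∑ k ∈ Icc 1 X, (k.divisors.card : ℝ) ^ 1 / k *
        |sdb_h (wS X) (zS X) k (n + 1) - sdb_h (wS X) (zS X) k n| := by
      intro n
      have e1 : sd X (n + 1) - sd X n = -∑ k ∈ Icc 1 X, (kS X * gS X) k / k *
          (sdb_h (wS X) (zS X) k (n + 1) - sdb_h (wS X) (zS X) k n) := by
        rw [sdb_eq, sdb_eq]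
        simp_rw [mul_sub]
        rw [Finset.sum_sub_distrib]
        ring
      rw [e1, abs_neg]
      refine (Finset.abs_sum_le_sum_abs _ _).trans (Finset.sum_le_sum fun k hk => ?_)
      rw [abs_mul]
      exact mul_le_mul_of_nonneg_right (hdivg k hk) (abs_nonneg _)
    refine (Finset.sum_le_sum fun n _ => hdiff n).trans ?_
    rw [Finset.sum_comm]
    have h4 : ∀ k ∈ Icc 1 X, ∑ n ∈ Ico 1 X, (k.divisors.card : ℝ) ^ 1 / k *
        |sdb_h (wS X) (zS X) k (n + 1) - sdb_h (wS X) (zS X) k n| ≤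
        (k.divisors.card : ℝ) ^ 1 / k * 3 := by
      intro k hk
      rw [← Finset.mul_sum]
      exact mul_le_mul_of_nonneg_left
        (sdb_var _ _ k X hX1' (Finset.mem_Icc.1 hk).1 hw) (by positivity)
    refine (Finset.sum_le_sum h4).trans ?_
    rw [← Finset.sum_mul, mul_comm]
    exact (mul_le_mul_of_nonneg_left htau (by norm_num : (0 : ℝ) ≤ 3)).trans h3L

end Pool.MP_dd84fd_nt.T7
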