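import Pool.Agent.Lib.MP_dd84fd_nt.T7.SdPrefixCore
import Pool.Agent.Lib.MP_dd84fd_nt.T7.SvDecomp
import Pool.Agent.Lib.MP_dd84fd_nt.E2.PiSW
import Pool.Agent.Lib.MP_dd84fd_nt.L2G.ConvSum

set_option autoImplicit false

namespace Pool.MP_dd84fd_nt.T7

open Finset Pool.MP_67663b_nt.Odd Pool.MP_dd84fd_nt.L2G

theorem sd_prefix (A : ℕ) : ∃ X0 : ℕ, ∀ X : ℕ, X0 ≤ X → ∀ M : ℕ, M ≤ X →
    |∑ n ∈ Icc 1 M, Sv X n - ∑ n ∈ Icc 1 M, sd X n| ≤ X / Real.log X ^ A :=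
  sd_prefix_core sv_decomp E2.pi_sw A

end Pool.MP_dd84fd_nt.T7
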