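import Pool.Agent.Lib.MP_dd84fd_nt.T7.SvChar0
import Pool.Agent.Lib.MP_dd84fd_nt.T7.SdPrefix
import Pool.Agent.Lib.MP_dd84fd_nt.T7.SvBasic
import Pool.Agent.Lib.MP_dd84fd_nt.L2G.CharOrth

/-!
T7-30 SvEQ. Orthogonality mod m: for (c,m)=1, sum_{n<=M, n=c} Sv = (1/phi(m)) sum_chi chi^-1(c) sum_{n<=M} Sv(n)chi(n). chi != 1: sv_char0 (A+1). chi = 1: sum over (n,m)=1; if Sv n != 0 then all prime factors of n are >= zS X > L^D >= m, so (n,m)=1:
the full sum; sd_prefix.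
-/

set_option autoImplicit false

namespace Pool.MP_dd84fd_nt.T7

open Finset Pool.MP_67663b_nt.Odd Pool.MP_dd84fd_nt.L2G

private theorem sveq_ev (D : ℕ) : ∃ X1 : ℕ, ∀ X : ℕ, X1 ≤ X →
    Real.log X ^ D < (X : ℝ) ^ (1 / 5 : ℝ) ∧ 1 ≤ Real.log X := by
  have h1 : (fun x : ℝ => Real.log x ^ D) =o[Filter.atTop] fun x : ℝ => x ^ (1 / 5 : ℝ) := by
    have h := isLittleO_log_rpow_rpow_atTop (D : ℝ) (show (0 : ℝ) < 1 / 5 by norm_num)
    simpa [Real.rpow_natCast] using h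
  have h2 := h1.def (show (0 : ℝ) < 1 / 2 by norm_num)
  have h3 : ∀ᶠ X : ℕ in Filter.atTop, ‖Real.log (X : ℝ) ^ D‖ ≤ 1 / 2 * ‖(X : ℝ) ^ (1 / 5 : ℝ)‖ :=
    tendsto_natCast_atTop_atTop.eventually h2
  have h4 : ∀ᶠ X : ℕ in Filter.atTop, 1 ≤ Real.log (X : ℝ) :=
    (Real.tendsto_log_atTop.comp tendsto_natCast_atTop_atTop).eventually
      (Filter.eventually_ge_atTop 1)
  obtain ⟨X1, hX1⟩ := Filter.eventually_atTop.mp (h3.and (h4.and (Filter.eventually_ge_atTop 1)))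
  refine ⟨X1, fun X hX => ?_⟩
  obtain ⟨h5, h6, h7⟩ := hX1 X hX
  refine ⟨?_, h6⟩
  have h8 : (0 : ℝ) < (X : ℝ) ^ (1 / 5 : ℝ) :=
    Real.rpow_pos_of_pos (by exact_mod_cast (show 0 < X by omega)) _
  rw [Real.norm_of_nonneg (by positivity), Real.norm_of_nonneg h8.le] at h5
  linarith

theorem sv_eq (A D : ℕ) : ∃ X0 : ℕ, ∀ X : ℕ, X0 ≤ X → ∀ m c : ℕ, 1 ≤ m →
    (m : ℝ) ≤ Real.log X ^ D → Nat.Coprime c m → ∀ M : ℕ, M ≤ X →
    |∑ n ∈ (Icc 1 M).filter (fun n => n ≡ c [MOD m]), Sv X n -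
      (1 / (Nat.totient m : ℝ)) * ∑ n ∈ Icc 1 M, sd X n| ≤ X / Real.log X ^ A := by
  classical
  obtain ⟨X1, hX1⟩ := sv_char0 (A + 1) D
  obtain ⟨X2, hX2⟩ := sd_prefix (A + 1)
  obtain ⟨X3, hX3⟩ := sveq_ev D
  refine ⟨max X1 (max X2 X3), fun X hX m c hm hmD hc M hM => ?_⟩
  obtain ⟨hL1, hL2⟩ := hX3 X (le_trans (by simp) hX)
  have hmz : m < zS X := by
    have h1 : (m : ℝ) < (zS X : ℝ) := lt_of_lt_of_le (lt_of_le_of_lt hmD hL1) (Nat.le_ceil _)
    exact_mod_cast h1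
  have : NeZero m := ⟨by omega⟩
  have hcu : IsUnit (c : ZMod m) := (ZMod.isUnit_iff_coprime c m).mpr hc
  have htot : 0 < Nat.totient m := Nat.totient_pos.mpr (by omega)
  have htot' : (0 : ℝ) < (Nat.totient m : ℝ) := by exact_mod_cast htot
  have htotc : (Nat.totient m : ℂ) ≠ 0 := by exact_mod_cast htot.ne'
  set L := Real.log X with hL
  -- the bound
  have hB0 : (X : ℝ) / L ^ (A + 1) ≤ X / L ^ A := by
    apply div_le_div_of_nonneg_left (Nat.cast_nonneg X) (by positivity)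
    exact pow_le_pow_right₀ hL2 (Nat.le_succ A)
  -- the sum over the trivial character
  have htriv : ∑ n ∈ Icc 1 M, (Sv X n : ℂ) * (1 : DirichletCharacter ℂ m) n =
      ((∑ n ∈ Icc 1 M, Sv X n : ℝ) : ℂ) := by
    push_cast
    apply Finset.sum_congr rfl
    intro n hn
    rw [Finset.mem_Icc] at hn
    by_cases h0 : Sv X n = 0
    · rw [h0]; simp
    · have h1 := sv_supp X n h0
      have h2 : Nat.Coprime n m := by
        by_contra h3
        obtain ⟨p, hp, hp1, hp2⟩ := Nat.Prime.not_coprime_iff_dvd.mp h3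
        have h4 := h1 p (Nat.mem_primeFactors.mpr ⟨hp, hp1, by omega⟩)
        have h5 := Nat.le_of_dvd (by omega) hp2
        omega
      rw [MulChar.one_apply ((ZMod.isUnit_iff_coprime n m).mpr h2), mul_one]
  -- orthogonality
  have horth : ((∑ n ∈ (Icc 1 M).filter (fun n => n ≡ c [MOD m]), Sv X n : ℝ) : ℂ) =
      (1 / (Nat.totient m : ℂ)) * ∑ χ : DirichletCharacter ℂ m, χ (c : ZMod m)⁻¹ *
        ∑ n ∈ Icc 1 M, (Sv X n : ℂ) * χ n := by
    have h1 : ∑ χ : DirichletCharacter ℂ m, χ (c : ZMod m)⁻¹ *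
        ∑ n ∈ Icc 1 M, (Sv X n : ℂ) * χ n =
        ∑ n ∈ Icc 1 M, (Sv X n : ℂ) * ∑ χ : DirichletCharacter ℂ m, χ (c : ZMod m)⁻¹ * χ n := by
      simp only [Finset.mul_sum]
      rw [Finset.sum_comm]
      refine Finset.sum_congr rfl fun n _ => Finset.sum_congr rfl fun χ _ => ?_
      ring
    rw [h1, Finset.mul_sum]
    push_cast
    rw [Finset.sum_filter]
    refine Finset.sum_congr rfl fun n _ => ?_
    rw [DirichletCharacter.sum_char_inv_mul_char_eq ℂ hcu]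
    by_cases h2 : n ≡ c [MOD m]
    · rw [if_pos h2, if_pos ((ZMod.natCast_eq_natCast_iff c n m).mpr h2.symm)]
      field_simp
    · rw [if_neg h2, if_neg (fun h3 => h2 ((ZMod.natCast_eq_natCast_iff c n m).mp h3).symm)]
      simp
  -- split off the trivial character
  have hsplit : ((∑ n ∈ (Icc 1 M).filter (fun n => n ≡ c [MOD m]), Sv X n -
      (1 / (Nat.totient m : ℝ)) * ∑ n ∈ Icc 1 M, sd X n : ℝ) : ℂ) =
      (1 / (Nat.totient m : ℂ)) * (((∑ n ∈ Icc 1 M, Sv X n - ∑ n ∈ Icc 1 M, sd X n : ℝ) : ℂ) +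
        ∑ χ ∈ (univ : Finset (DirichletCharacter ℂ m)).erase 1, χ (c : ZMod m)⁻¹ *
        ∑ n ∈ Icc 1 M, (Sv X n : ℂ) * χ n) := by
    rw [Complex.ofReal_sub, horth, ← Finset.add_sum_erase _ _ (Finset.mem_univ
      (1 : DirichletCharacter ℂ m)), htriv]
    have h1 : (1 : DirichletCharacter ℂ m) (c : ZMod m)⁻¹ = 1 := by
      apply MulChar.one_apply
      exact ⟨⟨(c : ZMod m)⁻¹, c, by rw [mul_comm]; exact ZMod.mul_inv_of_unit _ hcu,
        ZMod.mul_inv_of_unit _ hcu⟩, rfl⟩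
    rw [h1]
    push_cast
    ring
  have hnorm : ‖((∑ n ∈ (Icc 1 M).filter (fun n => n ≡ c [MOD m]), Sv X n -
      (1 / (Nat.totient m : ℝ)) * ∑ n ∈ Icc 1 M, sd X n : ℝ) : ℂ)‖ ≤ X / L ^ (A + 1) := by
    rw [hsplit, norm_mul]
    have h1 : ‖(1 / (Nat.totient m : ℂ))‖ = 1 / (Nat.totient m : ℝ) := by
      rw [norm_div, norm_one, Complex.norm_natCast]
    have h2 : ‖((∑ n ∈ Icc 1 M, Sv X n - ∑ n ∈ Icc 1 M, sd X n : ℝ) : ℂ)‖ ≤ X / L ^ (A + 1) := by
      rw [Complex.norm_real, Real.norm_eq_abs]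
      exact hX2 X (le_trans (by simp) hX) M hM
    have h3 : ‖∑ χ ∈ (univ : Finset (DirichletCharacter ℂ m)).erase 1, χ (c : ZMod m)⁻¹ *
        ∑ n ∈ Icc 1 M, (Sv X n : ℂ) * χ n‖ ≤
        (((univ : Finset (DirichletCharacter ℂ m)).erase 1).card : ℝ) * (X / L ^ (A + 1)) := by
      refine (norm_sum_le _ _).trans ?_
      rw [← nsmul_eq_mul]
      apply Finset.sum_le_card_nsmul
      intro χ hχ
      rw [norm_mul]
      have h4 : ‖χ (c : ZMod m)⁻¹‖ ≤ 1 := DirichletCharacter.norm_le_one χ _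
      have h5 := hX1 X (le_trans (by simp) hX) m hmD χ (Finset.ne_of_mem_erase hχ) M hM
      calc ‖χ (c : ZMod m)⁻¹‖ * ‖∑ n ∈ Icc 1 M, (Sv X n : ℂ) * χ n‖ ≤ 1 * (X / L ^ (A + 1)) :=
            mul_le_mul h4 h5 (norm_nonneg _) zero_le_one
        _ = X / L ^ (A + 1) := one_mul _
    have h6 : (((univ : Finset (DirichletCharacter ℂ m)).erase 1).card : ℝ) + 1 =
        (Nat.totient m : ℝ) := by
      have h7 := Finset.card_erase_add_one (Finset.mem_univ (1 : DirichletCharacter ℂ m))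
      have h8 : (univ : Finset (DirichletCharacter ℂ m)).card = Nat.totient m := by
        rw [Finset.card_univ, ← Nat.card_eq_fintype_card]
        exact DirichletCharacter.card_eq_totient_of_hasEnoughRootsOfUnity ℂ m
      rw [h8] at h7
      exact_mod_cast h7
    rw [h1]
    calc 1 / (Nat.totient m : ℝ) * ‖((∑ n ∈ Icc 1 M, Sv X n - ∑ n ∈ Icc 1 M, sd X n : ℝ) : ℂ) +
        ∑ χ ∈ (univ : Finset (DirichletCharacter ℂ m)).erase 1, χ (c : ZMod m)⁻¹ *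
        ∑ n ∈ Icc 1 M, (Sv X n : ℂ) * χ n‖
        ≤ 1 / (Nat.totient m : ℝ) * (X / L ^ (A + 1) +
          (((univ : Finset (DirichletCharacter ℂ m)).erase 1).card : ℝ) * (X / L ^ (A + 1))) := by
          apply mul_le_mul_of_nonneg_left _ (by positivity)
          exact (norm_add_le _ _).trans (add_le_add h2 h3)
      _ = 1 / (Nat.totient m : ℝ) *
          ((((univ : Finset (DirichletCharacter ℂ m)).erase 1).card : ℝ) + 1) *
          (X / L ^ (A + 1)) := by ring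
      _ = X / L ^ (A + 1) := by
          rw [h6]
          field_simp
  rw [Complex.norm_real, Real.norm_eq_abs] at hnorm
  exact hnorm.trans hB0

end Pool.MP_dd84fd_nt.T7
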