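import Pool.Agent.Lib.MP_dd84fd_nt.T7.SvTcCore
import Pool.Agent.Lib.MP_dd84fd_nt.T7.SvEQ
import Pool.Agent.Lib.MP_dd84fd_nt.T7.VarL
import Pool.Agent.Lib.MP_dd84fd_nt.T7.SdBasic
import Pool.Agent.Lib.MP_dd84fd_nt.T7.SvBasic
import Pool.Agent.Lib.MP_dd84fd_nt.L2G.CharOrth
import Pool.Agent.Lib.MP_dd84fd_nt.L2G.ModelArith

set_option autoImplicit false

namespace Pool.MP_dd84fd_nt.T7

open Finset Pool.MP_67663b_nt.Odd Pool.MP_dd84fd_nt.L2G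

theorem sv_Tc_one (A B : ℕ) : ∃ X0 : ℕ, ∀ X : ℕ, X0 ≤ X → ∀ (q : ℕ) [NeZero q], q ≤ X →
    ∀ (r : ℕ) (y : ℤ) (β : ℝ), 1 ≤ r → (r : ℝ) ≤ Real.log X ^ B → Nat.Coprime r q →
    IsCoprime y (r : ℤ) → |β| ≤ Real.log X ^ B / X →
    ‖Tc X q (fun n => Sv X n) (y / r + β) 1 -
      ((((ArithmeticFunction.moebius r : ℤ) : ℝ) / (Nat.totient r : ℝ) : ℝ) : ℂ) *
        Se X (sd X) β‖ ≤ X / Real.log X ^ A :=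
  sv_Tc_one_core sv_eq A B

theorem sv_Tc_small (A B : ℕ) : ∃ X0 : ℕ, ∀ X : ℕ, X0 ≤ X → ∀ (q : ℕ) [NeZero q], q ≤ X →
    ∀ (r d : ℕ) (y : ℤ) (β : ℝ) (χ : DirichletCharacter ℂ q), 1 ≤ r → (r : ℝ) ≤ Real.log X ^ B →
    Nat.Coprime r q → |β| ≤ Real.log X ^ B / X → χ ≠ 1 → d ∣ q → (d : ℝ) ≤ Real.log X ^ B →
    χ.FactorsThrough d → ‖Tc X q (fun n => Sv X n) (y / r + β) χ‖ ≤ X / Real.log X ^ A :=
  sv_Tc_small_core sv_eq A B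

end Pool.MP_dd84fd_nt.T7
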