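import Pool.Agent.Lib.MP_dd84fd_nt.T7.SvGoodCore
import Pool.Agent.Lib.MP_dd84fd_nt.T7.SvIIChar
import Pool.Agent.Lib.MP_dd84fd_nt.T7.SvIChar
import Pool.Agent.Lib.MP_dd84fd_nt.T7.SvTc
import Pool.Agent.Lib.MP_dd84fd_nt.T7.SvDecomp
import Pool.Agent.Lib.MP_dd84fd_nt.L2G.CharOrth

set_option autoImplicit false

namespace Pool.MP_dd84fd_nt.T7

open Finset Pool.MP_67663b_nt.Odd Pool.MP_dd84fd_nt.L2G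

theorem sv_good (ε : ℝ) (hε : 0 < ε) (hε1 : ε < 1) (A B : ℕ) : ∃ C : ℕ, ∀ D1 : ℕ, ∃ X0 : ℕ,
    ∀ X : ℕ, X0 ≤ X →
    ∀ (q : ℕ) [NeZero q], (q : ℝ) ≤ (X : ℝ) ^ (4 / 5 - ε) → ∀ (r : ℕ) (y : ℤ) (β : ℝ), 1 ≤ r →
    (r : ℝ) ≤ Real.log X ^ B → Nat.Coprime r q → |β| ≤ Real.log X ^ B / X →
      ∃ 𝓑₁ 𝓑₂ : Finset (DirichletCharacter ℂ q), (𝓑₁.card : ℝ) ≤ Real.log X ^ C ∧
        (𝓑₂.card : ℝ) ≤ Real.exp (Real.log (Real.log X) ^ 4 / 50) ∧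
        (∀ χ ∈ 𝓑₁, χ ≠ 1 ∧ ∀ d : ℕ, d ∣ q → (d : ℝ) ≤ Real.log X ^ D1 → ¬ χ.FactorsThrough d) ∧
        (∀ χ ∈ 𝓑₂, χ ≠ 1 ∧ ∀ d : ℕ, d ∣ q → (d : ℝ) ≤ Real.exp (Real.log (Real.log X) ^ 4) →
          ¬ χ.FactorsThrough d) ∧
        ∑ χ ∈ univ.filter (fun χ => χ ∉ 𝓑₁ ∧ χ ∉ 𝓑₂ ∧ χ ≠ 1),
          ‖Tc X q (fun n => Sv X n) (y / r + β) χ‖ ^ 2 ≤ X ^ 2 / Real.log X ^ A :=
  sv_good_core sv_II_char sv_I_char sv_decomp sv_Tc_small ε hε hε1 A B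

end Pool.MP_dd84fd_nt.T7
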