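import Pool.Agent.Lib.MP_dd84fd_nt.T7.SLaMajorCore
import Pool.Agent.Lib.MP_dd84fd_nt.T7.Defs2
import Pool.Agent.Lib.MP_dd84fd_nt.T7.SvGood
import Pool.Agent.Lib.MP_dd84fd_nt.T7.LaGood45
import Pool.Agent.Lib.MP_dd84fd_nt.T7.BadAlg2
import Pool.Agent.Lib.MP_dd84fd_nt.T7.Fz2Basic
import Pool.Agent.Lib.MP_dd84fd_nt.T7.SvTc
import Pool.Agent.Lib.MP_dd84fd_nt.T7.SvBasic
import Pool.Agent.Lib.MP_dd84fd_nt.T7.SdBasic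
import Pool.Agent.Lib.MP_dd84fd_nt.L2G.GaussJac
import Pool.Agent.Lib.MP_dd84fd_nt.L2G.TcSmall
import Pool.Agent.Lib.MP_dd84fd_nt.L2G.CharOrth
import Pool.Agent.Lib.MP_dd84fd_nt.L2G.ClassAlg
import Pool.Agent.Lib.MP_dd84fd_nt.L2G.ModelArith
import Pool.Agent.Lib.MP_dd84fd_nt.L2G.ModelAux
import Pool.Agent.Lib.MP_dd84fd_nt.L2G.ModelF

set_option autoImplicit false

namespace Pool.MP_dd84fd_nt.T7

open Finset Pool.MP_67663b_nt.Odd Pool.MP_dd84fd_nt.L2G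

theorem sla_major (ε : ℝ) (hε : 0 < ε) (hε1 : ε < 1) (A B K : ℕ) : ∃ X0 : ℕ, ∀ X : ℕ, X0 ≤ X →
    ∀ (q : ℕ) [NeZero q], (q : ℝ) ≤ (X : ℝ) ^ (4 / 5 - ε) → ∀ (r : ℕ) (y : ℤ) (β : ℝ) (a : ZMod q),
    1 ≤ r → (r : ℝ) ≤ Real.log X ^ B → Nat.Coprime r q → IsCoprime y (r : ℤ) →
    |β| ≤ Real.log X ^ B / X → (Nat.gcd a.val q : ℝ) ≤ Real.log X ^ K →
    ‖Fz2 X q (fun n => Sv X n) (la X) (y / r + β) a - MT2 X q r β a‖ ≤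
      X ^ 2 / (q * Real.log X ^ A) :=
  sla_major_core sv_good la_good45 sv_Tc_one Tc_one ε hε hε1 A B K

end Pool.MP_dd84fd_nt.T7
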