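import Pool.Agent.Lib.MP_dd84fd_nt.T7.Defs
import Pool.Agent.Lib.MP_dd84fd_nt.L2G.ModelArith
import Pool.Agent.Lib.MP_dd84fd_nt.L2G.ModelAux

/-!
T7-51 NuClass (compare L2G/ModelMajor). R = Rm X. By ma_nu_P: nu = (q/phi(q)) sum over (s,t) in ma_P R q of w e(n t/s). With e(ny/r): the pair with t/s + y/r an integer is s = r, t = -y mod r (r <= L^B <= R for X large): it contributes
(q/phi(q)) (mu(r)/phi(r)) #{n <= M, n = b mod q} = mu(r)/(phi(r)phi(q)) M + O(q/phi(q)). Other pairs: nrm(q(t/s+y/r)) >= 1/(sr) >= 1/(rR) (ma_spacing), geometric series (ma_mn, ma_mn_inv with X := M): <= rR/2; the sum of the weights is <= R (ma_sum_w).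
Total error <= (2+2L)(1 + R * R * L^B) <= X^(1/25) (2+2L)(1+L^B) <= X^(1/15). (The sums are over n <= M: use the ma_ lemmas with M in place of their X, M <= X.)
-/

set_option autoImplicit false

namespace Pool.MP_dd84fd_nt.T7

open Finset Pool.MP_67663b_nt.Odd Pool.MP_dd84fd_nt.L2G

/-- one class -/
private theorem T7_NuClass_class (X R q : ℕ) [NeZero q] (b : ZMod q) (hb : IsUnit b) (r : ℕ) (y : ℤ)
    (β : ℝ) (hr : 1 ≤ r) (hrR : r ≤ R) (hrq : Nat.Coprime r q) (hy : IsCoprime y (r : ℤ))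
    (hβ : 2 * (r * R) * (q * |β|) ≤ 1) :
    ‖fz X q (nu X R q) (y / r + β) b -
      ((((ArithmeticFunction.moebius r : ℤ) : ℝ) / (Nat.totient r : ℝ) / (Nat.totient q : ℝ) : ℝ) : ℂ)
        * KI X β‖ ≤
      (q : ℝ) / (Nat.totient q : ℝ) * ((3 + 7 * (|β| * X)) + (r : ℝ) * R ^ 2) := by
  obtain ⟨κ, hκ⟩ : ∃ κ : ℝ, κ = (q : ℝ) / (Nat.totient q : ℝ) := ⟨_, rfl⟩
  rw [← hκ]
  have hq1 : 0 < q := Nat.pos_of_ne_zero (NeZero.ne q)
  have hq0 : (0 : ℝ) < q := by exact_mod_cast hq1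
  have hφ : (0 : ℝ) < Nat.totient q := by exact_mod_cast Nat.totient_pos.mpr hq1
  have hφr : (0 : ℝ) < Nat.totient r := by exact_mod_cast Nat.totient_pos.mpr hr
  have hr0 : (0 : ℝ) < r := by exact_mod_cast hr
  have hR0 : (0 : ℝ) < R := by exact_mod_cast (by omega : 0 < R)
  have hκ0 : 0 ≤ κ := by rw [hκ]; positivity
  obtain ⟨G, hG⟩ : ∃ G : ℝ → ℂ, G = fun x => ∑ n ∈ (Icc 1 X).filter
    (fun n : ℕ => (n : ZMod q) = b), ee ((n : ℝ) * x) := ⟨_, rfl⟩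
  have h1 : fz X q (nu X R q) (y / r + β) b =
      (κ : ℂ) * ∑ p ∈ ma_P R q, (ma_w p : ℂ) * G (ma_f p + (y / r + β)) := by
    unfold fz
    have h2 : ∀ n ∈ (Icc 1 X).filter (fun n : ℕ => (n : ZMod q) = b),
        ((nu X R q n : ℝ) : ℂ) * ee ((n : ℝ) * (y / r + β)) =
        (κ : ℂ) * ∑ p ∈ ma_P R q, (ma_w p : ℂ) * ee ((n : ℝ) * (ma_f p + (y / r + β))) := by
      intro n hn
      rw [mem_filter, mem_Icc] at hn
      rw [ma_nu_P X R q n hn.1.1 hn.1.2 (by rw [hn.2]; exact hb), ← hκ, mul_assoc,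
        Finset.sum_mul]
      congr 1
      refine Finset.sum_congr rfl fun p _ => ?_
      rw [mul_assoc, ← ee_add]
      congr 2
      ring
    rw [Finset.sum_congr rfl h2, ← Finset.mul_sum, Finset.sum_comm]
    congr 1
    refine Finset.sum_congr rfl fun p _ => ?_
    rw [hG, Finset.mul_sum]
  -- the special element
  obtain ⟨t0, ht0, ht0r⟩ : ∃ t0 : ℕ, (r : ℤ) ∣ t0 + y ∧ t0 < r := by
    refine ⟨((-y) % (r : ℤ)).toNat, ?_, ?_⟩
    · have h2 : (0 : ℤ) ≤ (-y) % (r : ℤ) := Int.emod_nonneg _ (by omega)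
      rw [Int.toNat_of_nonneg h2]
      have h3 := Int.emod_add_mul_ediv (-y) (r : ℤ)
      exact ⟨-((-y) / (r : ℤ)), by linarith⟩
    · have h2 : (-y) % (r : ℤ) < r := Int.emod_lt_of_pos _ (by omega)
      have h3 : (0 : ℤ) ≤ (-y) % (r : ℤ) := Int.emod_nonneg _ (by omega)
      omega
  have ht0c : Nat.Coprime r t0 := by
    rw [← Nat.isCoprime_iff_coprime]
    obtain ⟨k, hk⟩ := ht0
    have h2 : (t0 : ℤ) = -y + r * k := by linarith
    rw [h2]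
    exact (hy.symm.neg_right).add_mul_left_right k
  have hp0 : (⟨r, t0⟩ : Σ _ : ℕ, ℕ) ∈ ma_P R q := by
    rw [ma_mem_P]
    exact ⟨hr, hrR, hrq, ht0r, ht0c⟩
  have hG0 : G (ma_f ⟨r, t0⟩ + (y / r + β)) = G β := by
    obtain ⟨k, hk⟩ := ht0
    have h2 : ma_f ⟨r, t0⟩ + (y / r + β) = β + k := by
      unfold ma_f
      have h3 : (t0 : ℝ) + y = r * k := by exact_mod_cast hk
      have h4 : (t0 : ℝ) / r + y / r = k := by
        rw [← add_div, h3]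
        field_simp
      change (t0 : ℝ) / r + (y / r + β) = β + k
      linarith
    rw [h2, hG]
    refine Finset.sum_congr rfl fun n _ => ?_
    have h3 : (n : ℝ) * (β + k) = (n : ℝ) * β + (((n : ℤ) * k : ℤ) : ℝ) := by
      push_cast
      ring
    rw [h3, ee_add_int]
  -- the others
  have hoff : ∀ p ∈ ma_P R q, p ≠ ⟨r, t0⟩ →
      ‖G (ma_f p + (y / r + β))‖ ≤ (r : ℝ) * R := by
    intro p hp hne
    rw [ma_mem_P] at hp
    rw [hG]
    refine (ma_mn X q b _).trans ?_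
    have hp1 : (0 : ℝ) < p.1 := by exact_mod_cast hp.1
    have hp1' : (p.1 : ℝ) ≤ R := by exact_mod_cast hp.2.1
    have hsp := ma_spacing q p.1 r hp.1 hr hp.2.2.1 hrq (p.2 : ℤ) y
      ((Nat.isCoprime_iff_coprime.mpr hp.2.2.2.2).symm) hy (by
        rintro ⟨h3, h4⟩
        apply hne
        have h5 : ((p.2 : ℤ) - (t0 : ℤ)) = 0 := by
          refine Int.eq_zero_of_abs_lt_dvd (m := (r : ℤ)) ?_ ?_
          · have e : (p.2 : ℤ) - t0 = (p.2 + y) - (t0 + y) := by ring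
            rw [e]
            refine dvd_sub ?_ ht0
            rw [← h3]
            exact h4
          · rw [abs_lt]
            have h6 := hp.2.2.2.1
            rw [h3] at h6
            constructor <;> omega
        have h6 : p.2 = t0 := by omega
        exact Sigma.ext h3 (heq_of_eq h6))
    have e : (q : ℝ) * (ma_f p + (y / r + β)) =
        (q : ℝ) * ((((p.2 : ℕ) : ℤ) : ℝ) / p.1 + (y : ℝ) / r) + q * β := by
      unfold ma_f
      push_cast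
      ring
    have h3 : 1 / (2 * ((p.1 : ℝ) * r)) ≤ nrm (q * (ma_f p + (y / r + β))) := by
      rw [e]
      have h4 := ma_nrm_add ((q : ℝ) * ((((p.2 : ℕ) : ℤ) : ℝ) / p.1 + (y : ℝ) / r)) (q * β)
      have h5 : |(q : ℝ) * β| ≤ 1 / (2 * ((p.1 : ℝ) * r)) := by
        rw [abs_mul, abs_of_pos hq0, le_div_iff₀ (by positivity)]
        refine le_trans ?_ hβ
        have h6 : 2 * ((p.1 : ℝ) * r) ≤ 2 * (r * R) := by nlinarith
        calc (q : ℝ) * |β| * (2 * ((p.1 : ℝ) * r)) ≤ (q : ℝ) * |β| * (2 * (r * R)) :=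
              mul_le_mul_of_nonneg_left h6 (by positivity)
          _ = 2 * (r * R) * (q * |β|) := by ring
      have h6 : 1 / ((p.1 : ℝ) * r) = 1 / (2 * ((p.1 : ℝ) * r)) + 1 / (2 * ((p.1 : ℝ) * r)) := by
        field_simp
        norm_num
      linarith
    refine (ma_mn_inv _ _ _ (by positivity) h3).trans ?_
    have h6 : 1 / (2 * (1 / (2 * ((p.1 : ℝ) * r)))) = (p.1 : ℝ) * r := by
      field_simp
    rw [h6, mul_comm]
    exact mul_le_mul_of_nonneg_left hp1' hr0.le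
  have hsplit : ∑ p ∈ ma_P R q, (ma_w p : ℂ) * G (ma_f p + (y / r + β)) =
      (ma_w ⟨r, t0⟩ : ℂ) * G β + ∑ p ∈ (ma_P R q).erase ⟨r, t0⟩,
        (ma_w p : ℂ) * G (ma_f p + (y / r + β)) := by
    rw [← Finset.add_sum_erase _ _ hp0, hG0]
  have hw0 : ma_w ⟨r, t0⟩ = ((ArithmeticFunction.moebius r : ℤ) : ℝ) / (Nat.totient r : ℝ) := rfl
  have hKI := ma_KI X q b β
  have hκq : κ / q = 1 / (Nat.totient q : ℝ) := by
    rw [hκ]
    field_simp
  have e3 : (κ : ℂ) * ((ma_w ⟨r, t0⟩ : ℂ) * G β + ∑ p ∈ (ma_P R q).erase ⟨r, t0⟩,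
        (ma_w p : ℂ) * G (ma_f p + (y / r + β))) -
      ((((ArithmeticFunction.moebius r : ℤ) : ℝ) / (Nat.totient r : ℝ) / (Nat.totient q : ℝ) : ℝ) : ℂ)
        * KI X β = (κ : ℂ) * ((ma_w ⟨r, t0⟩ : ℂ) * (((1 / q : ℝ) : ℂ) * ((q : ℂ) * G β - KI X β)) +
          ∑ p ∈ (ma_P R q).erase ⟨r, t0⟩, (ma_w p : ℂ) * G (ma_f p + (y / r + β))) := by
    have h5 : ((((ArithmeticFunction.moebius r : ℤ) : ℝ) / (Nat.totient r : ℝ) /
        (Nat.totient q : ℝ) : ℝ) : ℂ) = (κ : ℂ) * ((ma_w ⟨r, t0⟩ : ℂ) * ((1 / q : ℝ) : ℂ)) := by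
      rw [hw0, ← Complex.ofReal_mul, ← Complex.ofReal_mul]
      congr 1
      rw [hκ]
      field_simp
    have h6 : ((1 / q : ℝ) : ℂ) * (q : ℂ) = 1 := by
      have : (q : ℂ) ≠ 0 := by exact_mod_cast hq1.ne'
      push_cast
      field_simp
    rw [h5]
    linear_combination (-(κ : ℂ) * (ma_w ⟨r, t0⟩ : ℂ) * G β) * h6
  rw [h1, hsplit, e3, norm_mul, Complex.norm_real, Real.norm_eq_abs, abs_of_nonneg hκ0]
  refine mul_le_mul_of_nonneg_left ?_ hκ0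
  refine (norm_add_le _ _).trans (add_le_add ?_ ?_)
  · rw [norm_mul, norm_mul, Complex.norm_real, Complex.norm_real, Real.norm_eq_abs,
      Real.norm_eq_abs, abs_of_nonneg (by positivity : (0 : ℝ) ≤ 1 / q)]
    have hw1 : |ma_w ⟨r, t0⟩| ≤ 1 := by
      have h3 := ma_mu_le r hr
      have h4 : (1 : ℝ) ≤ Nat.totient r := by exact_mod_cast Nat.totient_pos.mpr hr
      rw [← hw0] at h3
      have h6 := abs_nonneg (ma_w ⟨r, t0⟩)
      nlinarith
    have h2 : (1 / q : ℝ) * ‖(q : ℂ) * G β - KI X β‖ ≤ 3 + 7 * (|β| * X) := by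
      rw [one_div, inv_mul_eq_div, div_le_iff₀ hq0, mul_comm (3 + 7 * (|β| * (X : ℝ))) (q : ℝ), hG]
      exact hKI
    calc |ma_w ⟨r, t0⟩| * ((1 / q : ℝ) * ‖(q : ℂ) * G β - KI X β‖)
        ≤ 1 * (3 + 7 * (|β| * X)) :=
          mul_le_mul hw1 h2 (by positivity) (by norm_num)
      _ = _ := one_mul _
  · refine (norm_sum_le _ _).trans ?_
    have h3 : ∀ p ∈ (ma_P R q).erase ⟨r, t0⟩, ‖(ma_w p : ℂ) * G (ma_f p + (y / r + β))‖ ≤
        |ma_w p| * ((r : ℝ) * R) := by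
      intro p hp
      rw [mem_erase] at hp
      rw [norm_mul, Complex.norm_real, Real.norm_eq_abs]
      exact mul_le_mul_of_nonneg_left (hoff p hp.2 hp.1) (abs_nonneg _)
    refine (Finset.sum_le_sum h3).trans ?_
    rw [← Finset.sum_mul]
    have h4 : ∑ p ∈ (ma_P R q).erase ⟨r, t0⟩, |ma_w p| ≤ R :=
      le_trans (Finset.sum_le_sum_of_subset_of_nonneg (Finset.erase_subset _ _)
        fun _ _ _ => abs_nonneg _) (ma_sum_w R q)
    calc (∑ p ∈ (ma_P R q).erase ⟨r, t0⟩, |ma_w p|) * ((r : ℝ) * R) ≤ R * ((r : ℝ) * R) :=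
          mul_le_mul_of_nonneg_right h4 (by positivity)
      _ = (r : ℝ) * R ^ 2 := by ring

theorem nu_class (B : ℕ) : ∃ X0 : ℕ, ∀ X : ℕ, X0 ≤ X → ∀ (q : ℕ) [NeZero q], q ≤ X →
    ∀ (r : ℕ) (y : ℤ), 1 ≤ r → (r : ℝ) ≤ Real.log X ^ B → Nat.Coprime r q →
    IsCoprime y (r : ℤ) → ∀ b : ZMod q, IsUnit b → ∀ M : ℕ, M ≤ X →
    ‖∑ n ∈ (Icc 1 M).filter (fun n : ℕ => (n : ZMod q) = b),
        (nu X (Rm X) q n : ℂ) * ee (n * (y / r)) -
      ((((ArithmeticFunction.moebius r : ℤ) : ℝ) /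
        ((Nat.totient r : ℝ) * (Nat.totient q : ℝ)) : ℝ) : ℂ) * M‖ ≤
      (X : ℝ) ^ (1 / 15 : ℝ) := by
  obtain ⟨X1, hX1⟩ := Filter.eventually_atTop.mp (ma_log_pow B (1 / 50 : ℝ) (by norm_num) 1)
  obtain ⟨X2, hX2⟩ := Filter.eventually_atTop.mp (ma_log_pow (B + 1) (2 / 75 : ℝ) (by norm_num) 16)
  refine ⟨max (max X1 X2) 3, fun X hX q _ hqX r y hr hrB hrq hy b hb M hM => ?_⟩
  have hX1' : X1 ≤ X := (le_max_left _ _).trans ((le_max_left _ _).trans hX)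
  have hX2' : X2 ≤ X := (le_max_right _ _).trans ((le_max_left _ _).trans hX)
  have hX3 : 3 ≤ X := (le_max_right _ _).trans hX
  have hXr : (1 : ℝ) ≤ X := by exact_mod_cast (by omega : 1 ≤ X)
  have hX0 : (0 : ℝ) < X := by linarith
  have hq0 : 0 < q := Nat.pos_of_ne_zero (NeZero.ne q)
  have hlog1 : 1 ≤ Real.log X := by
    rw [Real.le_log_iff_exp_le hX0]
    have : (3 : ℝ) ≤ X := by exact_mod_cast hX3
    linarith [Real.exp_one_lt_d9]
  have hLB : Real.log X ^ B ≤ (X : ℝ) ^ (1 / 50 : ℝ) := by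
    have := hX1 X hX1'
    rwa [one_mul] at this
  have hrR : r ≤ Rm X := by
    unfold Rm
    rw [Nat.le_floor_iff (by positivity)]
    exact hrB.trans hLB
  have hcl := T7_NuClass_class M (Rm X) q b hb r y 0 hr hrR hrq hy (by simp)
  have hKI : KI M 0 = (M : ℂ) := by
    unfold KI
    simp [ee_zero]
  have hsum : ∑ n ∈ (Icc 1 M).filter (fun n : ℕ => (n : ZMod q) = b),
      (nu X (Rm X) q n : ℂ) * ee (n * (y / r)) = fz M q (nu M (Rm X) q) (y / r + 0) b := by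
    unfold fz
    refine Finset.sum_congr rfl fun n hn => ?_
    rw [mem_filter, mem_Icc] at hn
    have h1 : nu X (Rm X) q n = nu M (Rm X) q n := by
      unfold nu
      have h2 : (1 ≤ n ∧ n ≤ X ∧ Nat.Coprime n q) ↔ (1 ≤ n ∧ n ≤ M ∧ Nat.Coprime n q) :=
        ⟨fun h => ⟨h.1, hn.1.2, h.2.2⟩, fun h => ⟨h.1, hn.1.2.trans hM, h.2.2⟩⟩
      simp only [h2]
    rw [h1, add_zero]
  have hcoef : (((ArithmeticFunction.moebius r : ℤ) : ℝ) /
        ((Nat.totient r : ℝ) * (Nat.totient q : ℝ)) : ℝ) =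
      ((ArithmeticFunction.moebius r : ℤ) : ℝ) / (Nat.totient r : ℝ) / (Nat.totient q : ℝ) := by
    rw [div_div]
  rw [hsum, hcoef, ← hKI]
  refine hcl.trans ?_
  have hκ : (q : ℝ) / (Nat.totient q : ℝ) ≤ 4 * Real.log X := by
    refine (ma_ratio q X hq0 hqX).trans ?_
    linarith
  have hR : (Rm X : ℝ) ^ 2 ≤ (X : ℝ) ^ (1 / 25 : ℝ) := by
    calc (Rm X : ℝ) ^ 2 ≤ ((X : ℝ) ^ (1 / 50 : ℝ)) ^ 2 :=
          pow_le_pow_left₀ (Nat.cast_nonneg _) (ma_Rm_le X) 2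
      _ = (X : ℝ) ^ (1 / 25 : ℝ) := by
          rw [← Real.rpow_natCast, ← Real.rpow_mul hX0.le]
          norm_num
  have h25 : (1 : ℝ) ≤ (X : ℝ) ^ (1 / 25 : ℝ) := Real.one_le_rpow hXr (by norm_num)
  have hB1 : (1 : ℝ) ≤ Real.log X ^ B := one_le_pow₀ hlog1
  have h2 : (3 + 7 * (|(0 : ℝ)| * M)) + (r : ℝ) * (Rm X : ℝ) ^ 2 ≤
      4 * (Real.log X ^ B * (X : ℝ) ^ (1 / 25 : ℝ)) := by
    have h3 : (r : ℝ) * (Rm X : ℝ) ^ 2 ≤ Real.log X ^ B * (X : ℝ) ^ (1 / 25 : ℝ) :=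
      mul_le_mul hrB hR (by positivity) (by positivity)
    have h4 : (1 : ℝ) ≤ Real.log X ^ B * (X : ℝ) ^ (1 / 25 : ℝ) := by nlinarith
    rw [abs_zero, zero_mul, mul_zero, add_zero]
    linarith
  calc (q : ℝ) / (Nat.totient q : ℝ) * ((3 + 7 * (|(0 : ℝ)| * M)) + (r : ℝ) * (Rm X : ℝ) ^ 2)
      ≤ (4 * Real.log X) * (4 * (Real.log X ^ B * (X : ℝ) ^ (1 / 25 : ℝ))) :=
        mul_le_mul hκ h2 (by positivity) (by linarith)
    _ = (16 * Real.log X ^ (B + 1)) * (X : ℝ) ^ (1 / 25 : ℝ) := by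
        rw [pow_succ]
        ring
    _ ≤ (X : ℝ) ^ (2 / 75 : ℝ) * (X : ℝ) ^ (1 / 25 : ℝ) :=
        mul_le_mul_of_nonneg_right (hX2 X hX2') (by positivity)
    _ = (X : ℝ) ^ (1 / 15 : ℝ) := by
        rw [← Real.rpow_add hX0]
        norm_num


end Pool.MP_dd84fd_nt.T7
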