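import Pool.Agent.Lib.MP_dd84fd_nt.T7.Defs2
import Pool.Agent.Lib.MP_dd84fd_nt.T7.NuClass
import Pool.Agent.Lib.MP_dd84fd_nt.T7.VarL
import Pool.Agent.Lib.MP_dd84fd_nt.T7.SdBasic
import Pool.Agent.Lib.MP_dd84fd_nt.T7.Fz2Basic
import Pool.Agent.Lib.MP_dd84fd_nt.L2G.ModelArith

/-!
T7-54 SnuFz. For a unit b: fz snu b = sum_{n = b} nu(n) e(ny/r) * sd(n) e(n beta): abel_var with d(n) = [n=b] nu(n)e(ny/r) - mu(r)/(phi(r)phi(q)), w(n) = sd(n) e(n beta) (W <= L^C, V <= L^C + L^C * 7|beta|X, ee_var): 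
|fz snu b - mu(r)/(phi(r)phi(q)) Se(sd)(beta)| <= X^(1/15) L^C' <= X^(1/10); same for nu with w(n) = e(n beta) and Se(1)(beta). Non-units: both are 0. Fz2_eq: Fz2 = sum over b, a-b units (Nc of them, Nc <= phi(q)) of fz snu b * fz nu (a-b):
main Nc (mu(r)/(phi(r)phi(q)))^2 Se(sd) Se(1) = MT2; error <= phi(q) (2 (X L^C/phi(q)) X^(1/10) + X^(1/5)) <= X^(1.15) <= X^2/(q L^A) as q <= X^(4/5).
-/

set_option autoImplicit false

namespace Pool.MP_dd84fd_nt.T7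

open Finset Pool.MP_67663b_nt.Odd Pool.MP_dd84fd_nt.L2G

private theorem snf_zero (X q : ℕ) [NeZero q] (f : ℕ → ℝ) (hf : ∀ n : ℕ, ¬ IsUnit (n : ZMod q) → f n = 0)
    (θ : ℝ) (b : ZMod q) (hb : ¬ IsUnit b) : fz X q f θ b = 0 := by
  unfold fz
  refine Finset.sum_eq_zero fun n hn => ?_
  rw [mem_filter] at hn
  rw [hf n (by rw [hn.2]; exact hb)]
  simp

/-- one class -/
private theorem snf_class (X q : ℕ) [NeZero q] (hX : 1 ≤ X) (ν ω : ℕ → ℝ) (b : ZMod q) (φ β ρ E W V : ℝ)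
    (h : ∀ M : ℕ, M ≤ X → ‖∑ n ∈ (Icc 1 M).filter (fun n : ℕ => (n : ZMod q) = b),
        (ν n : ℂ) * ee (n * φ) - (ρ : ℂ) * M‖ ≤ E)
    (hW : ∀ n ∈ Icc 1 X, |ω n| ≤ W)
    (hV : ∑ n ∈ Ico 1 X, ‖(ω (n + 1) : ℂ) * ee (((n + 1 : ℕ) : ℝ) * β) - (ω n : ℂ) * ee ((n : ℝ) * β)‖
      ≤ V) :
    ‖fz X q (fun n => ω n * ν n) (φ + β) b - (ρ : ℂ) * Se X ω β‖ ≤ E * (W + V) := by
  classical
  have hab := abel_var X hX
    (fun n => (if (n : ZMod q) = b then (ν n : ℂ) * ee (n * φ) else 0) - (ρ : ℂ))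
    (fun n => (ω n : ℂ) * ee ((n : ℝ) * β)) E W V
    (by
      intro M hM
      have h1 := h M hM
      rw [Finset.sum_sub_distrib, ← Finset.sum_filter, Finset.sum_const, Nat.card_Icc,
        Nat.add_sub_cancel, nsmul_eq_mul, mul_comm (M : ℂ)]
      exact h1)
    (by
      intro n hn
      rw [norm_mul, norm_ee, mul_one, Complex.norm_real, Real.norm_eq_abs]
      exact hW n hn)
    hV
  refine le_trans (le_of_eq ?_) hab
  congr 1
  unfold fz Se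
  rw [Finset.mul_sum, Finset.sum_filter, ← Finset.sum_sub_distrib]
  refine Finset.sum_congr rfl fun n _ => ?_
  have e : ee ((n : ℝ) * (φ + β)) = ee ((n : ℝ) * φ) * ee ((n : ℝ) * β) := by
    rw [← ee_add]
    congr 1
    ring
  simp only [e]
  split_ifs
  · push_cast
    ring
  · ring

private theorem snf_ev (A B C : ℕ) : ∃ X0 : ℕ, ∀ X : ℕ, X0 ≤ X →
    3 ≤ X ∧ 1 ≤ Real.log X ∧
    (X : ℝ) ^ (1 / 15 : ℝ) * (Real.log X ^ C + (Real.log X ^ C + Real.log X ^ C *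
      (7 * Real.log X ^ B))) ≤ (X : ℝ) ^ (1 / 10 : ℝ) ∧
    (X : ℝ) ^ (1 / 15 : ℝ) * (1 + 7 * Real.log X ^ B) ≤ (X : ℝ) ^ (1 / 10 : ℝ) ∧
    ((2 + 2 * Real.log X) * (1 + Real.log X ^ C) + 1) * Real.log X ^ A ≤
      (X : ℝ) ^ (1 / 10 : ℝ) := by
  obtain ⟨X1, h1⟩ := Filter.eventually_atTop.mp
    (ma_log_pow (C + B) (1 / 30 : ℝ) (by norm_num) 9)
  obtain ⟨X2, h2⟩ := Filter.eventually_atTop.mp
    (ma_log_pow B (1 / 30 : ℝ) (by norm_num) 8)
  obtain ⟨X3, h3⟩ := Filter.eventually_atTop.mp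
    (ma_log_pow (1 + C + A) (1 / 10 : ℝ) (by norm_num) 9)
  refine ⟨X1 + X2 + X3 + 3, fun X hX => ?_⟩
  have hXr : (1 : ℝ) ≤ X := by exact_mod_cast (by omega : 1 ≤ X)
  have hX0 : (0 : ℝ) < X := by linarith
  have hlog1 : 1 ≤ Real.log X := by
    rw [Real.le_log_iff_exp_le hX0]
    have : (3 : ℝ) ≤ X := by exact_mod_cast (by omega : 3 ≤ X)
    linarith [Real.exp_one_lt_d9]
  have e1 := h1 X (by omega)
  have e2 := h2 X (by omega)
  have e3 := h3 X (by omega)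
  obtain ⟨L, hL⟩ : ∃ L : ℝ, L = Real.log X := ⟨_, rfl⟩
  rw [← hL] at e1 e2 e3 hlog1 ⊢
  have hLC : 1 ≤ L ^ C := one_le_pow₀ hlog1
  have hLB : 1 ≤ L ^ B := one_le_pow₀ hlog1
  have hLA : 1 ≤ L ^ A := one_le_pow₀ hlog1
  have e4 : (X : ℝ) ^ (1 / 10 : ℝ) = (X : ℝ) ^ (1 / 15 : ℝ) * (X : ℝ) ^ (1 / 30 : ℝ) := by
    rw [← Real.rpow_add hX0]
    norm_num
  refine ⟨by omega, hlog1, ?_, ?_, ?_⟩
  · rw [e4]
    refine mul_le_mul_of_nonneg_left (le_trans ?_ e1) (by positivity)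
    rw [pow_add]
    nlinarith [mul_nonneg (by linarith : (0 : ℝ) ≤ L ^ C) (by linarith : (0 : ℝ) ≤ L ^ B - 1)]
  · rw [e4]
    refine mul_le_mul_of_nonneg_left (le_trans ?_ e2) (by positivity)
    linarith
  · refine le_trans ?_ e3
    have e5 : (9 : ℝ) * L ^ (1 + C + A) = (9 * (L * L ^ C)) * L ^ A := by
      rw [pow_add, pow_add, pow_one]
      ring
    rw [e5]
    refine mul_le_mul_of_nonneg_right ?_ (by linarith)
    nlinarith [mul_nonneg (by linarith : (0 : ℝ) ≤ L - 1) (by linarith : (0 : ℝ) ≤ L ^ C - 1)]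

theorem snu_Fz (A B : ℕ) : ∃ X0 : ℕ, ∀ X : ℕ, X0 ≤ X →
    ∀ (q : ℕ) [NeZero q], (q : ℝ) ≤ (X : ℝ) ^ (4 / 5 : ℝ) → ∀ (r : ℕ) (y : ℤ) (β : ℝ) (a : ZMod q),
    1 ≤ r → (r : ℝ) ≤ Real.log X ^ B → Nat.Coprime r q → IsCoprime y (r : ℤ) →
    |β| ≤ Real.log X ^ B / X →
    ‖Fz2 X q (snu X q) (nu X (Rm X) q) (y / r + β) a - MT2 X q r β a‖ ≤
      X ^ 2 / (q * Real.log X ^ A) := by
  classical
  obtain ⟨C, X1, hsd⟩ := sd_bound
  obtain ⟨X2, hcl⟩ := nu_class B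
  obtain ⟨X3, hev⟩ := snf_ev A B C
  refine ⟨X1 + X2 + X3, fun X hX q _ hq r y β a hr hrB hrq hyr hβ => ?_⟩
  obtain ⟨hX3, hlog1, ev1, ev2, ev3⟩ := hev X (by omega)
  obtain ⟨hsd1, hsd2⟩ := hsd X (by omega)
  have hXr : (1 : ℝ) ≤ X := by exact_mod_cast (by omega : 1 ≤ X)
  have hX0 : (0 : ℝ) < X := by linarith
  have hq0 : 0 < q := Nat.pos_of_ne_zero (NeZero.ne q)
  have hq0' : (0 : ℝ) < q := by exact_mod_cast hq0
  have hqX : q ≤ X := by
    have h9 : (q : ℝ) ≤ X := hq.trans (by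
      calc (X : ℝ) ^ (4 / 5 : ℝ) ≤ (X : ℝ) ^ (1 : ℝ) :=
            Real.rpow_le_rpow_of_exponent_le hXr (by norm_num)
        _ = X := Real.rpow_one _)
    exact_mod_cast h9
  have hφ : (0 : ℝ) < Nat.totient q := by exact_mod_cast Nat.totient_pos.mpr hq0
  have hratio := ma_ratio q X hq0 hqX
  obtain ⟨L, hL⟩ : ∃ L : ℝ, L = Real.log X := ⟨_, rfl⟩
  rw [← hL] at hlog1 ev1 ev2 ev3 hsd1 hsd2 hratio hβ ⊢
  have hL0 : 0 < L := by linarith
  have hβX : |β| * X ≤ L ^ B := by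
    rwa [le_div_iff₀ hX0] at hβ
  obtain ⟨ρ, hρ⟩ : ∃ ρ : ℝ, ρ = ((ArithmeticFunction.moebius r : ℤ) : ℝ) /
    ((Nat.totient r : ℝ) * (Nat.totient q : ℝ)) := ⟨_, rfl⟩
  have hφr : (0 : ℝ) < Nat.totient r := by exact_mod_cast Nat.totient_pos.mpr hr
  have hρ1 : |ρ| ≤ 1 / Nat.totient q := by
    rw [hρ, abs_div, abs_of_pos (mul_pos hφr hφ), div_le_div_iff₀ (mul_pos hφr hφ) hφ, one_mul]
    have h1 : |((ArithmeticFunction.moebius r : ℤ) : ℝ)| ≤ 1 := by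
      have h2 : |ArithmeticFunction.moebius r| ≤ 1 := ArithmeticFunction.abs_moebius_le_one
      have h3 : ((|ArithmeticFunction.moebius r| : ℤ) : ℝ) ≤ ((1 : ℤ) : ℝ) := by exact_mod_cast h2
      rwa [Int.cast_abs, Int.cast_one] at h3
    have h4 : (1 : ℝ) ≤ Nat.totient r := by exact_mod_cast Nat.totient_pos.mpr hr
    exact mul_le_mul_of_nonneg_right (h1.trans h4) hφ.le
  have hee := ee_var X β
  -- the classes
  have hf : ∀ b : ZMod q, IsUnit b → ‖fz X q (snu X q) (y / r + β) b - (ρ : ℂ) * Se X (sd X) β‖ ≤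
      (X : ℝ) ^ (1 / 10 : ℝ) := by
    intro b hb
    have h1 := snf_class X q (by omega) (nu X (Rm X) q) (sd X) b ((y : ℝ) / r) β ρ
      ((X : ℝ) ^ (1 / 15 : ℝ)) (L ^ C) (L ^ C + L ^ C * (7 * L ^ B))
      (by
        intro M hM
        have h2 := hcl X (by omega) q hqX r y hr hrB hrq hyr b hb M hM
        rw [← hρ] at h2
        exact h2)
      (fun n _ => hsd1 n)
      (by
        have h2 : ∀ n ∈ Ico 1 X, ‖(sd X (n + 1) : ℂ) * ee (((n + 1 : ℕ) : ℝ) * β) -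
            (sd X n : ℂ) * ee ((n : ℝ) * β)‖ ≤ |sd X (n + 1) - sd X n| +
            L ^ C * ‖ee (((n + 1 : ℕ) : ℝ) * β) - ee ((n : ℝ) * β)‖ := by
          intro n _
          have e : (sd X (n + 1) : ℂ) * ee (((n + 1 : ℕ) : ℝ) * β) -
              (sd X n : ℂ) * ee ((n : ℝ) * β) =
              ((sd X (n + 1) - sd X n : ℝ) : ℂ) * ee (((n + 1 : ℕ) : ℝ) * β) +
              (sd X n : ℂ) * (ee (((n + 1 : ℕ) : ℝ) * β) - ee ((n : ℝ) * β)) := by
            push_cast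
            ring
          rw [e]
          refine (norm_add_le _ _).trans ?_
          rw [norm_mul, norm_mul, norm_ee, mul_one, Complex.norm_real, Complex.norm_real,
            Real.norm_eq_abs, Real.norm_eq_abs]
          exact add_le_add le_rfl (mul_le_mul_of_nonneg_right (hsd1 n) (norm_nonneg _))
        refine (Finset.sum_le_sum h2).trans ?_
        rw [Finset.sum_add_distrib, ← Finset.mul_sum]
        refine add_le_add hsd2 (mul_le_mul_of_nonneg_left ?_ (by positivity))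
        exact hee.trans (by linarith))
    have e0 : (fun n => sd X n * nu X (Rm X) q n) = snu X q := rfl
    rw [e0] at h1
    exact h1.trans ev1
  have hg : ∀ b : ZMod q, IsUnit b → ‖fz X q (nu X (Rm X) q) (y / r + β) b -
      (ρ : ℂ) * Se X (fun _ => 1) β‖ ≤ (X : ℝ) ^ (1 / 10 : ℝ) := by
    intro b hb
    have h1 := snf_class X q (by omega) (nu X (Rm X) q) (fun _ => 1) b ((y : ℝ) / r) β ρ
      ((X : ℝ) ^ (1 / 15 : ℝ)) 1 (7 * L ^ B)
      (by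
        intro M hM
        have h2 := hcl X (by omega) q hqX r y hr hrB hrq hyr b hb M hM
        rw [← hρ] at h2
        exact h2)
      (fun n _ => by norm_num)
      (by
        simp only [Complex.ofReal_one, one_mul]
        exact hee.trans (by linarith))
    have e0 : (fun n => (1 : ℝ) * nu X (Rm X) q n) = nu X (Rm X) q := by
      funext n
      rw [one_mul]
    rw [e0] at h1
    exact h1.trans ev2
  -- reduction to the units
  obtain ⟨G, hG⟩ : ∃ G : Finset (ZMod q), G = univ.filter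
    (fun b : ZMod q => IsUnit b ∧ IsUnit (a - b)) := ⟨_, rfl⟩
  have hGc : (G.card : ℝ) = (Nc q a : ℝ) := by
    rw [hG]
    rfl
  have hGq : (G.card : ℝ) ≤ q := by
    rw [hG]
    have := Finset.card_filter_le (univ : Finset (ZMod q))
      (fun b : ZMod q => IsUnit b ∧ IsUnit (a - b))
    rw [Finset.card_univ, ZMod.card] at this
    exact_mod_cast this
  obtain ⟨θ, hθ⟩ : ∃ θ : ℝ, θ = (y : ℝ) / r + β := ⟨_, rfl⟩
  rw [← hθ] at hf hg ⊢
  have hFz : Fz2 X q (snu X q) (nu X (Rm X) q) θ a =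
      ∑ b ∈ G, fz X q (snu X q) θ b * fz X q (nu X (Rm X) q) θ (a - b) := by
    rw [Fz2_eq, hG, Finset.sum_filter]
    refine Finset.sum_congr rfl fun b _ => ?_
    split_ifs with h
    · rfl
    · rcases not_and_or.mp h with h1 | h1
      · rw [snf_zero X q (snu X q) (fun n hn => by
          unfold snu
          rw [ma_nu_zero X (Rm X) q n hn, mul_zero]) θ b h1, zero_mul]
      · rw [snf_zero X q (nu X (Rm X) q) (fun n hn => ma_nu_zero X (Rm X) q n hn) θ (a - b) h1,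
          mul_zero]
  obtain ⟨S1, hS1⟩ : ∃ S : ℂ, S = Se X (sd X) β := ⟨_, rfl⟩
  obtain ⟨S2, hS2⟩ : ∃ S : ℂ, S = Se X (fun _ => 1) β := ⟨_, rfl⟩
  rw [← hS1] at hf
  rw [← hS2] at hg
  have hMT : MT2 X q r β a = ∑ _b ∈ G, ((ρ : ℂ) * S1) * ((ρ : ℂ) * S2) := by
    rw [Finset.sum_const, nsmul_eq_mul]
    have h1 : (G.card : ℂ) = ((Nc q a : ℝ) : ℂ) := by
      rw [← hGc]
      push_cast
      rfl
    rw [h1]
    unfold MT2
    rw [← hS1, ← hS2, hρ]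
    push_cast
    field_simp
  have hS1n : ‖S1‖ ≤ X * L ^ C := by
    rw [hS1]
    unfold Se
    refine (norm_sum_le _ _).trans ?_
    calc ∑ n ∈ Icc 1 X, ‖(sd X n : ℂ) * ee ((n : ℝ) * β)‖ ≤ ∑ n ∈ Icc 1 X, L ^ C := by
          refine Finset.sum_le_sum fun n _ => ?_
          rw [norm_mul, norm_ee, mul_one, Complex.norm_real, Real.norm_eq_abs]
          exact hsd1 n
      _ = X * L ^ C := by
          rw [Finset.sum_const, Nat.card_Icc, Nat.add_sub_cancel, nsmul_eq_mul]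
  have hS2n : ‖S2‖ ≤ X := by
    rw [hS2]
    unfold Se
    refine (norm_sum_le _ _).trans ?_
    calc ∑ n ∈ Icc 1 X, ‖((1 : ℝ) : ℂ) * ee ((n : ℝ) * β)‖ ≤ ∑ n ∈ Icc 1 X, (1 : ℝ) := by
          refine Finset.sum_le_sum fun n _ => ?_
          rw [norm_mul, norm_ee, mul_one, Complex.norm_real, Real.norm_eq_abs, abs_one]
      _ = X := by
          rw [Finset.sum_const, Nat.card_Icc, Nat.add_sub_cancel, nsmul_eq_mul, mul_one]
  obtain ⟨ε, hε⟩ : ∃ ε : ℝ, ε = (X : ℝ) ^ (1 / 10 : ℝ) := ⟨_, rfl⟩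
  have hε0 : 0 ≤ ε := by rw [hε]; positivity
  rw [← hε] at hf hg
  have hρS1 : ‖(ρ : ℂ) * S1‖ ≤ X * L ^ C / Nat.totient q := by
    rw [norm_mul, Complex.norm_real, Real.norm_eq_abs]
    calc |ρ| * ‖S1‖ ≤ (1 / Nat.totient q) * (X * L ^ C) :=
          mul_le_mul hρ1 hS1n (norm_nonneg _) (by positivity)
      _ = X * L ^ C / Nat.totient q := by ring
  have hρS2 : ‖(ρ : ℂ) * S2‖ ≤ X / Nat.totient q := by
    rw [norm_mul, Complex.norm_real, Real.norm_eq_abs]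
    calc |ρ| * ‖S2‖ ≤ (1 / Nat.totient q) * X :=
          mul_le_mul hρ1 hS2n (norm_nonneg _) (by positivity)
      _ = X / Nat.totient q := by ring
  have hterm : ∀ b ∈ G, ‖fz X q (snu X q) θ b * fz X q (nu X (Rm X) q) θ (a - b) -
      ((ρ : ℂ) * S1) * ((ρ : ℂ) * S2)‖ ≤
      ε * (X / Nat.totient q + ε) + X * L ^ C / Nat.totient q * ε := by
    intro b hb
    rw [hG, mem_filter] at hb
    have h1 := hf b hb.2.1
    have h2 := hg (a - b) hb.2.2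
    obtain ⟨u, hu⟩ : ∃ u, u = fz X q (snu X q) θ b := ⟨_, rfl⟩
    obtain ⟨v, hv⟩ : ∃ v, v = fz X q (nu X (Rm X) q) θ (a - b) := ⟨_, rfl⟩
    rw [← hu] at h1 ⊢
    rw [← hv] at h2 ⊢
    have e : u * v - ((ρ : ℂ) * S1) * ((ρ : ℂ) * S2) =
        (u - (ρ : ℂ) * S1) * v + ((ρ : ℂ) * S1) * (v - (ρ : ℂ) * S2) := by ring
    rw [e]
    refine (norm_add_le _ _).trans ?_
    rw [norm_mul, norm_mul]
    have hvn : ‖v‖ ≤ X / Nat.totient q + ε := by
      calc ‖v‖ = ‖(ρ : ℂ) * S2 + (v - (ρ : ℂ) * S2)‖ := by congr 1; ring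
        _ ≤ ‖(ρ : ℂ) * S2‖ + ‖v - (ρ : ℂ) * S2‖ := norm_add_le _ _
        _ ≤ _ := add_le_add hρS2 h2
    exact add_le_add (mul_le_mul h1 hvn (norm_nonneg _) hε0)
      (mul_le_mul hρS1 h2 (norm_nonneg _) (by positivity))
  rw [hFz, hMT, ← Finset.sum_sub_distrib]
  refine (norm_sum_le _ _).trans ?_
  refine (Finset.sum_le_card_nsmul _ _ _ hterm).trans ?_
  rw [nsmul_eq_mul]
  have hLC : 0 ≤ L ^ C := by positivity
  have hbig : (G.card : ℝ) * (ε * (X / Nat.totient q + ε) + X * L ^ C / Nat.totient q * ε) ≤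
      ε * X * ((2 + 2 * L) * (1 + L ^ C)) + q * ε ^ 2 := by
    calc (G.card : ℝ) * (ε * (X / Nat.totient q + ε) + X * L ^ C / Nat.totient q * ε)
        ≤ q * (ε * (X / Nat.totient q + ε) + X * L ^ C / Nat.totient q * ε) :=
          mul_le_mul_of_nonneg_right hGq (by positivity)
      _ = ε * X * ((q / Nat.totient q) * (1 + L ^ C)) + q * ε ^ 2 := by
          field_simp
          ring
      _ ≤ _ := by
          have h1 : (q : ℝ) / Nat.totient q * (1 + L ^ C) ≤ (2 + 2 * L) * (1 + L ^ C) :=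
            mul_le_mul_of_nonneg_right hratio (by positivity)
          have h2 := mul_le_mul_of_nonneg_left h1 (by positivity : 0 ≤ ε * X)
          linarith
  refine hbig.trans ?_
  have hqε : (q : ℝ) * ε ^ 2 ≤ ε * X := by
    have h1 : (q : ℝ) * ε ≤ X := by
      calc (q : ℝ) * ε ≤ (X : ℝ) ^ (4 / 5 : ℝ) * (X : ℝ) ^ (1 / 10 : ℝ) := by
            rw [hε]
            exact mul_le_mul_of_nonneg_right hq (by positivity)
        _ = (X : ℝ) ^ (4 / 5 + 1 / 10 : ℝ) := by rw [← Real.rpow_add hX0]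
        _ ≤ (X : ℝ) ^ (1 : ℝ) := Real.rpow_le_rpow_of_exponent_le hXr (by norm_num)
        _ = X := Real.rpow_one _
    calc (q : ℝ) * ε ^ 2 = ε * (q * ε) := by ring
      _ ≤ ε * X := mul_le_mul_of_nonneg_left h1 hε0
  have hLA : 0 < L ^ A := by positivity
  rw [le_div_iff₀ (mul_pos hq0' hLA)]
  have h3 : (ε * X * ((2 + 2 * L) * (1 + L ^ C)) + q * ε ^ 2) * (q * L ^ A) ≤
      (ε * X * ((2 + 2 * L) * (1 + L ^ C)) + ε * X) * (q * L ^ A) :=
    mul_le_mul_of_nonneg_right (by linarith) (by positivity)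
  refine h3.trans ?_
  have h4 : (ε * X * ((2 + 2 * L) * (1 + L ^ C)) + ε * X) * (q * L ^ A) =
      (ε * X * q) * (((2 + 2 * L) * (1 + L ^ C) + 1) * L ^ A) := by ring
  rw [h4]
  calc (ε * X * q) * (((2 + 2 * L) * (1 + L ^ C) + 1) * L ^ A)
      ≤ (ε * X * (X : ℝ) ^ (4 / 5 : ℝ)) * (X : ℝ) ^ (1 / 10 : ℝ) := by
        refine mul_le_mul ?_ ev3 (by positivity) (by positivity)
        exact mul_le_mul_of_nonneg_left hq (by positivity)
    _ = X * ((X : ℝ) ^ (1 / 10 : ℝ) * (X : ℝ) ^ (4 / 5 : ℝ) * (X : ℝ) ^ (1 / 10 : ℝ)) := by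
        rw [hε]
        ring
    _ = X * (X : ℝ) ^ (1 : ℝ) := by
        rw [← Real.rpow_add hX0, ← Real.rpow_add hX0]
        norm_num
    _ = X ^ 2 := by
        rw [Real.rpow_one]
        ring

end Pool.MP_dd84fd_nt.T7
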