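import Pool.Agent.Lib.MP_dd84fd_nt.T7.MajorAll2Core
import Pool.Agent.Lib.MP_dd84fd_nt.T7.Defs2
import Pool.Agent.Lib.MP_dd84fd_nt.T7.SLaMajor
import Pool.Agent.Lib.MP_dd84fd_nt.T7.SnuFz
import Pool.Agent.Lib.MP_dd84fd_nt.T7.Fz2Split
import Pool.Agent.Lib.MP_dd84fd_nt.L2G.ArcQ
import Pool.Agent.Lib.MP_dd84fd_nt.L2G.ModelArith

set_option autoImplicit false

namespace Pool.MP_dd84fd_nt.T7

open Finset Pool.MP_67663b_nt.Odd Pool.MP_dd84fd_nt.L2G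

theorem major_all2 (ε : ℝ) (hε : 0 < ε) (hε1 : ε < 1) (A B K : ℕ) : ∃ X0 : ℕ, ∀ X : ℕ, X0 ≤ X →
    ∀ (q : ℕ) [NeZero q], (q : ℝ) ≤ (X : ℝ) ^ (4 / 5 - ε) → ∀ (θ : ℝ) (a : ZMod q),
    θ ∈ MajQ X q B → (Nat.gcd a.val q : ℝ) ≤ Real.log X ^ K →
    ‖Fz2 X q (fun n => Sv X n) (la X) θ a - Fz2 X q (snu X q) (nu X (Rm X) q) θ a‖ ≤
      X ^ 2 / (q * Real.log X ^ A) :=
  major_all2_core sla_major snu_Fz ε hε hε1 A B K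

end Pool.MP_dd84fd_nt.T7
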