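import Pool.Agent.Lib.MP_dd84fd_nt.T7.Defs
import Pool.Agent.Lib.MP_dd84fd_nt.L2G.CharOrth

/-!
T7-41 PrimeMom. L = log X, LL = log L, k = ceil(L / log P), so P^k >= X >= q; log P >= log(wS X/2) >= L/LL^2 - 1, so k <= 2 LL^2 for X large.
(sum_{p in s} chi p)^k = sum_{n <= (2P)^k} r(n) chi(n), r(n) = number of k-tuples of elements of s with product n, r(n) <= k! (s consists of primes: the tuple is a rearrangement of the prime factorization of n), sum r(n) = |s|^k <= P^k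
(s is contained in [P,2P)). char_ms (M = 0, N = (2P)^k): sum_chi |.|^(2k) <= ((2P)^k + q) sum r(n)^2 <= 2 (2P)^k k! P^k. Hence card * (P/L^A1)^(2k) <= 2 * 2^k k! P^(2k), card <= 2 * 2^k k^k L^(2 A1 k)
<= exp(1 + k + k log k + 2 A1 k LL) <= exp(LL^4/100) for X large (k <= 2 LL^2: the exponent is O(LL^3)).
-/

set_option autoImplicit false

namespace Pool.MP_dd84fd_nt.T7

open Finset Pool.MP_67663b_nt.Odd Pool.MP_dd84fd_nt.L2G

/-- number of `k`-tuples of elements of `s` with product `n` -/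
noncomputable def pmR (s : Finset ℕ) (k n : ℕ) : ℕ :=
  ((Fintype.piFinset (fun _ : Fin k => s)).filter (fun f => ∏ i, f i = n)).card

theorem pm_R_le (s : Finset ℕ) (hs : ∀ p ∈ s, p.Prime) (k n : ℕ) : pmR s k n ≤ k.factorial := by
  classical
  unfold pmR
  rcases Finset.eq_empty_or_nonempty
    ((Fintype.piFinset (fun _ : Fin k => s)).filter (fun f => ∏ i, f i = n)) with h | h
  · rw [h, Finset.card_empty]
    exact Nat.zero_le _
  · have key : ∀ f ∈ (Fintype.piFinset (fun _ : Fin k => s)).filter (fun f => ∏ i, f i = n),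
        (List.ofFn f).Perm n.primeFactorsList := by
      intro f hf
      rw [Finset.mem_filter, Fintype.mem_piFinset] at hf
      apply Nat.primeFactorsList_unique
      · rw [List.prod_ofFn]
        exact hf.2
      · intro p hp
        rw [List.mem_ofFn] at hp
        obtain ⟨i, rfl⟩ := hp
        exact hs _ (hf.1 i)
    obtain ⟨f0, hf0⟩ := h
    have hlen : n.primeFactorsList.length = k := by
      rw [← (key f0 hf0).length_eq, List.length_ofFn]
    calc _ ≤ (n.primeFactorsList.permutations.toFinset).card := by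
          apply Finset.card_le_card_of_injOn (fun f => List.ofFn f)
          · intro f hf
            have := key f (Finset.mem_coe.mp hf)
            simp only [Finset.mem_coe, List.mem_toFinset, List.mem_permutations]
            exact this
          · intro f _ g _ hfg
            exact List.ofFn_injective hfg
      _ ≤ n.primeFactorsList.permutations.length := List.toFinset_card_le _
      _ = k.factorial := by rw [List.length_permutations, hlen]

theorem pm_pow (q : ℕ) (χ : DirichletCharacter ℂ q) (s : Finset ℕ) (P k : ℕ) (hP : 0 < P)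
    (hs : ∀ p ∈ s, P ≤ p ∧ p < 2 * P) :
    (∑ p ∈ s, (χ p : ℂ)) ^ k = ∑ n ∈ Ioc 0 (0 + (2 * P) ^ k), (pmR s k n : ℂ) * χ n := by
  classical
  rw [Finset.sum_pow']
  have hmaps : ∀ f ∈ Fintype.piFinset (fun _ : Fin k => s), ∏ i, f i ∈ Ioc 0 (0 + (2 * P) ^ k) := by
    intro f hf
    rw [Fintype.mem_piFinset] at hf
    rw [Finset.mem_Ioc]
    refine ⟨Finset.prod_pos fun i _ => lt_of_lt_of_le hP (hs _ (hf i)).1, ?_⟩
    rw [zero_add]
    calc ∏ i, f i ≤ ∏ _i : Fin k, (2 * P) := Finset.prod_le_prod' fun i _ => (hs _ (hf i)).2.le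
      _ = (2 * P) ^ k := by simp
  rw [← Finset.sum_fiberwise_of_maps_to hmaps]
  refine Finset.sum_congr rfl fun n _ => ?_
  have : ∀ f ∈ (Fintype.piFinset (fun _ : Fin k => s)).filter (fun f => ∏ i, f i = n),
      ∏ i, (χ (f i : ℕ) : ℂ) = χ n := by
    intro f hf
    rw [Finset.mem_filter] at hf
    rw [← hf.2, Nat.cast_prod, map_prod]
  rw [Finset.sum_congr rfl this, Finset.sum_const, nsmul_eq_mul]
  rfl

theorem pm_sum_R (s : Finset ℕ) (P k : ℕ) (hP : 0 < P) (hs : ∀ p ∈ s, P ≤ p ∧ p < 2 * P) :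
    ∑ n ∈ Ioc 0 (0 + (2 * P) ^ k), pmR s k n = s.card ^ k := by
  classical
  have hmaps : Set.MapsTo (fun f : Fin k → ℕ => ∏ i, f i)
      ((Fintype.piFinset (fun _ : Fin k => s) : Finset (Fin k → ℕ)) : Set (Fin k → ℕ))
      ((Ioc 0 (0 + (2 * P) ^ k) : Finset ℕ) : Set ℕ) := by
    intro f hf
    rw [Finset.mem_coe, Fintype.mem_piFinset] at hf
    rw [Finset.mem_coe, Finset.mem_Ioc]
    refine ⟨Finset.prod_pos fun i _ => lt_of_lt_of_le hP (hs _ (hf i)).1, ?_⟩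
    rw [zero_add]
    calc ∏ i, f i ≤ ∏ _i : Fin k, (2 * P) := Finset.prod_le_prod' fun i _ => (hs _ (hf i)).2.le
      _ = (2 * P) ^ k := by simp
  rw [← Fintype.card_piFinset_const, Finset.card_eq_sum_card_fiberwise hmaps]
  rfl

theorem pm_mom (q : ℕ) [NeZero q] (s : Finset ℕ) (P k : ℕ) (hP : 0 < P)
    (hs : ∀ p ∈ s, p.Prime ∧ P ≤ p ∧ p < 2 * P) (hq : q ≤ (2 * P) ^ k) :
    ∑ χ : DirichletCharacter ℂ q, ‖∑ p ∈ s, (χ p : ℂ)‖ ^ (2 * k) ≤
      2 * (2 * (P : ℝ)) ^ k * k.factorial * (P : ℝ) ^ k := by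
  classical
  have hs1 : ∀ p ∈ s, P ≤ p ∧ p < 2 * P := fun p hp => (hs p hp).2
  have hs2 : ∀ p ∈ s, p.Prime := fun p hp => (hs p hp).1
  have hcard : s.card ≤ P := by
    calc s.card ≤ (Finset.Ico P (2 * P)).card := by
          apply Finset.card_le_card
          intro p hp
          rw [Finset.mem_Ico]
          exact hs1 p hp
      _ = P := by rw [Nat.card_Ico]; omega
  have h1 := char_ms q 0 ((2 * P) ^ k) (fun n => (pmR s k n : ℂ))
  have h2 : ∀ χ : DirichletCharacter ℂ q, ‖∑ p ∈ s, (χ p : ℂ)‖ ^ (2 * k) =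
      ‖∑ n ∈ Ioc 0 (0 + (2 * P) ^ k), (pmR s k n : ℂ) * χ n‖ ^ 2 := by
    intro χ
    rw [← pm_pow q χ s P k hP hs1, norm_pow, ← pow_mul, mul_comm k 2]
  rw [Finset.sum_congr rfl fun χ _ => h2 χ]
  have hN : (((2 * P) ^ k : ℕ) : ℝ) = (2 * (P : ℝ)) ^ k := by push_cast; ring
  have hqr : (q : ℝ) ≤ (2 * (P : ℝ)) ^ k := by rw [← hN]; exact_mod_cast hq
  have h3 : ∑ n ∈ Ioc 0 (0 + (2 * P) ^ k), ‖(pmR s k n : ℂ)‖ ^ 2 ≤ k.factorial * (P : ℝ) ^ k := by
    calc ∑ n ∈ Ioc 0 (0 + (2 * P) ^ k), ‖(pmR s k n : ℂ)‖ ^ 2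
        ≤ ∑ n ∈ Ioc 0 (0 + (2 * P) ^ k), (k.factorial : ℝ) * (pmR s k n : ℝ) := by
          refine Finset.sum_le_sum fun n _ => ?_
          rw [Complex.norm_natCast, sq]
          apply mul_le_mul_of_nonneg_right _ (Nat.cast_nonneg _)
          exact_mod_cast pm_R_le s hs2 k n
      _ = (k.factorial : ℝ) * ((s.card ^ k : ℕ) : ℝ) := by
          rw [← Finset.mul_sum, ← pm_sum_R s P k hP hs1]
          push_cast
          rfl
      _ ≤ (k.factorial : ℝ) * (P : ℝ) ^ k := by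
          apply mul_le_mul_of_nonneg_left _ (Nat.cast_nonneg _)
          push_cast
          exact pow_le_pow_left₀ (Nat.cast_nonneg _) (by exact_mod_cast hcard) k
  have h4 : (0 : ℝ) ≤ ∑ n ∈ Ioc 0 (0 + (2 * P) ^ k), ‖(pmR s k n : ℂ)‖ ^ 2 :=
    Finset.sum_nonneg fun n _ => by positivity
  calc _ ≤ ((((2 * P) ^ k : ℕ) : ℝ) + q) * ∑ n ∈ Ioc 0 (0 + (2 * P) ^ k), ‖(pmR s k n : ℂ)‖ ^ 2 := h1
    _ ≤ (2 * (2 * (P : ℝ)) ^ k) * (k.factorial * (P : ℝ) ^ k) := by
        apply mul_le_mul _ h3 h4 (by positivity)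
        rw [hN]
        linarith
    _ = _ := by ring

theorem pm_num (A1 : ℕ) (y k : ℝ) (hy : 10000 + 1000 * (A1 : ℝ) ≤ y) (hk0 : 1 ≤ k)
    (hk : k ≤ 3 * y ^ 2) :
    1 + k + k * Real.log k + 2 * A1 * k * y ≤ y ^ 4 / 100 := by
  have hA : (0 : ℝ) ≤ A1 := Nat.cast_nonneg _
  have hy0 : 0 < y := by linarith
  have hy1 : 10000 ≤ y := by linarith
  have hlog : Real.log k ≤ 4 * y := by
    have h1 : Real.log k ≤ Real.log (3 * y ^ 2) := Real.log_le_log (by linarith) hk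
    have h2 : Real.log (3 * y ^ 2) ≤ Real.log ((2 * y) ^ 2) := by
      apply Real.log_le_log (by positivity)
      nlinarith
    have h3 : Real.log ((2 * y) ^ 2) = 2 * Real.log (2 * y) := by
      rw [Real.log_pow]; norm_num
    have h4 : Real.log (2 * y) ≤ 2 * y - 1 := Real.log_le_sub_one_of_pos (by positivity)
    linarith
  have hl0 : 0 ≤ Real.log k := Real.log_nonneg hk0
  have h5 : k * Real.log k ≤ 3 * y ^ 2 * (4 * y) := by
    apply mul_le_mul hk hlog hl0 (by positivity)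
  have h6 : 2 * A1 * k * y ≤ 2 * A1 * (3 * y ^ 2) * y := by
    have : 2 * A1 * k ≤ 2 * A1 * (3 * y ^ 2) := mul_le_mul_of_nonneg_left hk (by positivity)
    exact mul_le_mul_of_nonneg_right this hy0.le
  have h7 : y ^ 4 / 100 = y ^ 3 * (y / 100) := by ring
  have h8 : y ^ 3 * (100 + 10 * (A1 : ℝ)) ≤ y ^ 3 * (y / 100) := by
    apply mul_le_mul_of_nonneg_left _ (by positivity)
    linarith
  have h9 : 1 + 3 * y ^ 2 ≤ 4 * y ^ 3 := by
    have : 1 ≤ y ^ 2 := by nlinarith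
    nlinarith [mul_nonneg (by positivity : (0:ℝ) ≤ y ^ 2) (by linarith : (0:ℝ) ≤ y - 1)]
  have hy3 : 0 ≤ y ^ 3 := by positivity
  nlinarith [mul_nonneg hA hy3]

theorem prime_mom (A1 : ℕ) : ∃ X0 : ℕ, ∀ X : ℕ, X0 ≤ X → ∀ (q : ℕ) [NeZero q], q ≤ X →
    ∀ P : ℕ, wS X ≤ 2 * P → P ≤ X → ∀ s : Finset ℕ,
    (∀ p ∈ s, p.Prime ∧ P ≤ p ∧ p < 2 * P) → ∀ 𝓑 : Finset (DirichletCharacter ℂ q),
    (∀ χ ∈ 𝓑, P / Real.log X ^ A1 < ‖∑ p ∈ s, (χ p : ℂ)‖) →
    (𝓑.card : ℝ) ≤ Real.exp (Real.log (Real.log X) ^ 4 / 100) := by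
  classical
  obtain ⟨Y0, hY0⟩ : ∃ Y0 : ℝ, Y0 = 10000 + 1000 * (A1 : ℝ) := ⟨_, rfl⟩
  refine ⟨⌈Real.exp (Real.exp Y0)⌉₊, ?_⟩
  intro X hX q _ hqX P hwP hPX s hs 𝓑 hB
  have hXr : Real.exp (Real.exp Y0) ≤ X := (Nat.le_ceil _).trans (by exact_mod_cast hX)
  have hX0 : (0 : ℝ) < X := lt_of_lt_of_le (Real.exp_pos _) hXr
  obtain ⟨L, hL⟩ : ∃ L : ℝ, L = Real.log X := ⟨_, rfl⟩
  obtain ⟨y, hy⟩ : ∃ y : ℝ, y = Real.log (Real.log X) := ⟨_, rfl⟩
  have hLge : Real.exp Y0 ≤ L := by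
    rw [hL, Real.le_log_iff_exp_le hX0]
    exact hXr
  have hLpos : 0 < L := lt_of_lt_of_le (Real.exp_pos _) hLge
  have hyge : Y0 ≤ y := by
    rw [hy, Real.le_log_iff_exp_le (by rw [← hL]; exact hLpos), ← hL]
    exact hLge
  have hLy : L = Real.exp y := by
    rw [hy, Real.exp_log (by rw [← hL]; exact hLpos), hL]
  have hA : (0 : ℝ) ≤ A1 := Nat.cast_nonneg _
  have hy1 : (10000 : ℝ) ≤ y := by linarith
  have hy0 : 0 < y := by linarith
  have hL3 : y ^ 3 / 6 ≤ L := by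
    have := Real.pow_div_factorial_le_exp y hy0.le 3
    rw [hLy]
    norm_num [Nat.factorial] at this
    exact this
  have hL2 : 2 * y ^ 2 ≤ L := by
    have : 2 * y ^ 2 ≤ y ^ 3 / 6 := by nlinarith [sq_nonneg y]
    linarith
  -- lower bound for log P
  have hw : Real.exp (L / y ^ 2) ≤ 2 * (P : ℝ) := by
    have h1 : Real.exp (Real.log X / Real.log (Real.log X) ^ 2) ≤ (wS X : ℝ) := Nat.le_ceil _
    have h2 : ((wS X : ℕ) : ℝ) ≤ ((2 * P : ℕ) : ℝ) := by exact_mod_cast hwP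
    rw [hL, hy]
    push_cast at h2
    linarith
  have hLy2 : 2 ≤ L / y ^ 2 := by
    rw [le_div_iff₀ (by positivity)]
    exact hL2
  have hP0 : 0 < P := by
    rcases Nat.eq_zero_or_pos P with h | h
    · rw [h] at hw
      have := Real.exp_pos (L / y ^ 2)
      norm_num at hw
      linarith
    · exact h
  have hPr : (0 : ℝ) < P := by exact_mod_cast hP0
  have hlogP : L / (2 * y ^ 2) ≤ Real.log P := by
    have h1 : L / y ^ 2 ≤ Real.log (2 * P) := by
      rw [Real.le_log_iff_exp_le (by positivity)]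
      exact hw
    rw [Real.log_mul (by norm_num) hPr.ne'] at h1
    have h2 : Real.log 2 ≤ 1 := by
      have := Real.log_two_lt_d9
      linarith
    have h3 : L / (2 * y ^ 2) = L / y ^ 2 / 2 := by
      rw [div_div, mul_comm]
    rw [h3]
    linarith
  have hlogP0 : 0 < Real.log P := lt_of_lt_of_le (by positivity) hlogP
  obtain ⟨k, hk⟩ : ∃ k : ℕ, k = ⌈L / Real.log P⌉₊ := ⟨_, rfl⟩
  have hk1 : L / Real.log P ≤ k := by rw [hk]; exact Nat.le_ceil _
  have hkpos : 0 < k := by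
    rw [hk]
    exact Nat.ceil_pos.mpr (by positivity)
  have hk2 : (k : ℝ) ≤ 3 * y ^ 2 := by
    have h1 : (k : ℝ) < L / Real.log P + 1 := by
      rw [hk]
      exact Nat.ceil_lt_add_one (by positivity)
    have h2 : L / Real.log P ≤ 2 * y ^ 2 := by
      rw [div_le_iff₀ hlogP0]
      rw [div_le_iff₀ (by positivity)] at hlogP
      linarith
    nlinarith
  have hPk : (X : ℝ) ≤ (P : ℝ) ^ k := by
    rw [← Real.log_le_log_iff hX0 (by positivity), Real.log_pow, ← hL]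
    rw [div_le_iff₀ hlogP0] at hk1
    exact hk1
  have hq2 : q ≤ (2 * P) ^ k := by
    have h1 : (q : ℝ) ≤ (P : ℝ) ^ k := le_trans (by exact_mod_cast hqX) hPk
    have h2 : (P : ℝ) ^ k ≤ (2 * (P : ℝ)) ^ k :=
      pow_le_pow_left₀ hPr.le (by linarith) k
    have h3 : (q : ℝ) ≤ (((2 * P) ^ k : ℕ) : ℝ) := by
      push_cast
      linarith
    exact_mod_cast h3
  have hmom := pm_mom q s P k hP0 hs hq2
  have hlow : (𝓑.card : ℝ) * (P / L ^ A1) ^ (2 * k) ≤
      ∑ χ : DirichletCharacter ℂ q, ‖∑ p ∈ s, (χ p : ℂ)‖ ^ (2 * k) := by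
    calc (𝓑.card : ℝ) * (P / L ^ A1) ^ (2 * k) = ∑ _χ ∈ 𝓑, (P / L ^ A1) ^ (2 * k) := by
          rw [Finset.sum_const, nsmul_eq_mul]
      _ ≤ ∑ χ ∈ 𝓑, ‖∑ p ∈ s, (χ p : ℂ)‖ ^ (2 * k) := by
          refine Finset.sum_le_sum fun χ hχ => ?_
          apply pow_le_pow_left₀ (by positivity)
          rw [hL]
          exact (hB χ hχ).le
      _ ≤ _ := Finset.sum_le_sum_of_subset_of_nonneg (Finset.subset_univ _)
          fun χ _ _ => by positivity
  have hfac : (k.factorial : ℝ) ≤ (k : ℝ) ^ k := by exact_mod_cast Nat.factorial_le_pow k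
  have hmain : (𝓑.card : ℝ) ≤ 2 * 2 ^ k * (k : ℝ) ^ k * L ^ (2 * A1 * k) := by
    have h1 : (𝓑.card : ℝ) * (P / L ^ A1) ^ (2 * k) ≤
        2 * (2 * (P : ℝ)) ^ k * (k : ℝ) ^ k * (P : ℝ) ^ k := by
      refine (hlow.trans hmom).trans ?_
      gcongr
    have h2 : (P / L ^ A1) ^ (2 * k) = (P : ℝ) ^ (2 * k) / L ^ (2 * A1 * k) := by
      rw [div_pow, ← pow_mul]
      congr 2
      ring
    rw [h2, mul_div_assoc', div_le_iff₀ (by positivity)] at h1
    have h3 : 2 * (2 * (P : ℝ)) ^ k * (k : ℝ) ^ k * (P : ℝ) ^ k * L ^ (2 * A1 * k) =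
        (2 * 2 ^ k * (k : ℝ) ^ k * L ^ (2 * A1 * k)) * (P : ℝ) ^ (2 * k) := by
      rw [mul_pow, two_mul k, pow_add]
      ring
    rw [h3] at h1
    exact le_of_mul_le_mul_right h1 (by positivity)
  refine hmain.trans ?_
  have hkr : (1 : ℝ) ≤ k := by exact_mod_cast hkpos
  have hkr0 : (0 : ℝ) < k := by linarith
  have e1 : (2 : ℝ) ≤ Real.exp 1 := by
    have := Real.add_one_le_exp (1 : ℝ)
    linarith
  have e2 : (2 : ℝ) ^ k ≤ Real.exp k := by
    have : Real.exp (k : ℝ) = Real.exp 1 ^ k := by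
      rw [← Real.exp_nat_mul, mul_one]
    rw [this]
    exact pow_le_pow_left₀ (by norm_num) e1 k
  have e3 : (k : ℝ) ^ k = Real.exp (k * Real.log k) := by
    rw [Real.exp_nat_mul, Real.exp_log hkr0]
  have e4 : L ^ (2 * A1 * k) = Real.exp (2 * A1 * k * y) := by
    rw [hLy, ← Real.exp_nat_mul]
    push_cast
    ring_nf
  rw [e3, e4, ← hy]
  calc 2 * 2 ^ k * Real.exp (k * Real.log k) * Real.exp (2 * A1 * k * y)
      ≤ Real.exp 1 * Real.exp k * Real.exp (k * Real.log k) * Real.exp (2 * A1 * k * y) := by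
        gcongr
    _ = Real.exp (1 + k + k * Real.log k + 2 * A1 * k * y) := by
        rw [Real.exp_add, Real.exp_add, Real.exp_add]
    _ ≤ _ := by
        apply Real.exp_le_exp.mpr
        exact pm_num A1 y k (by linarith) hkr hk2

end Pool.MP_dd84fd_nt.T7
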