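import Pool.Agent.Lib.MP_dd84fd_nt.T7.Defs2
import Pool.Agent.Lib.MP_dd84fd_nt.T7.BadAlg2
import Pool.Agent.Lib.MP_dd84fd_nt.T7.Fz2Basic
import Pool.Agent.Lib.MP_dd84fd_nt.T7.SvBasic
import Pool.Agent.Lib.MP_dd84fd_nt.T7.SdBasic
import Pool.Agent.Lib.MP_dd84fd_nt.L2G.GaussJac
import Pool.Agent.Lib.MP_dd84fd_nt.L2G.CharOrth
import Pool.Agent.Lib.MP_dd84fd_nt.L2G.ClassAlg
import Pool.Agent.Lib.MP_dd84fd_nt.L2G.ModelArith
import Pool.Agent.Lib.MP_dd84fd_nt.L2G.ModelAux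
import Pool.Agent.Lib.MP_dd84fd_nt.L2G.ModelF

/-!
T7-55 SLaMajor (compare L2G/LaMajor). L = log X, LL = log L. f = Sv, g = la. h_good and h_la with A' = 2A+10 give C1, C2, then D1 = 4(C1+C2+K+A+10). Bf = B1 union B2, Bg. Fz2_eq; units b, a-b: bad_alg2 with Tf = 4X, Tg = 2X (sum_la_le), Gf = 32X^2, Gg = 4X^2 L
(char_ms, sum_la_sq_le), Ef = Eg = X^2/L^A': the last term is <= X^2 L^(2-A'/2)/phi(q) <= X^2/(6 q L^A).
J: pairs with chi in B2 (psi in {1} union Bg): <= exp(LL^4/50) (1+L^C2) of them, Jc_bound with D = floor(exp(LL^4)): |Jc| <= sqrt(2L^K) q D^(-1/4) <= q exp(-LL^4/5) L^K; chi in B1: <= L^C1 (1+L^C2) pairs with |Jc| <= sqrt(2 L^K) q (floor L^D1)^(-1/4);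
chi = 1, psi in Bg: the same with Jc symmetric (ba_Jc_comm). (chi^-1 factors through d iff chi does.) Sum: J <= q L^(-A-4)/100, Tf Tg J/phi^2 <= X^2/(6 q L^A) (totient_lower).
Main term: Tc f 1 = mu(r)/phi(r) Se(sd)(beta) + O(X/L^A'') (h_sone), Tc g 1 = mu(r)/phi(r) KI X beta + O(X/L^A'') (h_one), KI X beta = Se X 1 beta + O(3+7|beta|X) (ma_KI with q = 1), |Se(sd)(beta)| <= X L^C (sd_bound), Nc <= phi(q).
Other classes: sum over b non-unit of |fz Sv b||fz la (a-b)| <= (sum_{b non-unit}|fz Sv b|^2)^(1/2) VA(la)^(1/2); VA(la) <= (X/q+1) 2XL (VA_trivial); the first: Cauchy in each class: (X/q+1) * 16 * #{n <= X: (n,q) > 1, Sv n != 0} <= (2X/q) * 16 * 5X/z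
(n is divisible by a prime p >= z = zS X dividing q: at most 5 of them): total <= X^(2-1/12)/q. a-b non-unit: sum_{c non-unit}|fz la c|^2 <= log^2 q (VA_la_le, or its proof), VA(Sv) <= (X/q+1)16X: total <= 6 X L/sqrt q <= X^2/(6qL^A).
-/

set_option autoImplicit false

namespace Pool.MP_dd84fd_nt.T7

open Finset Pool.MP_67663b_nt.Odd Pool.MP_dd84fd_nt.L2G

private theorem slm_card (X q : ℕ) (hz : 2 ≤ zS X) (hq : 1 ≤ q) (hqX : q ≤ X) :
    (q.primeFactors.filter (fun p => zS X ≤ p)).card ≤ 5 := by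
  by_contra hcon
  push Not at hcon
  have h1 : zS X ^ (q.primeFactors.filter (fun p => zS X ≤ p)).card ≤
      ∏ p ∈ q.primeFactors.filter (fun p => zS X ≤ p), p := by
    rw [← Finset.prod_const]
    exact Finset.prod_le_prod' fun p hp => (Finset.mem_filter.1 hp).2
  have h2 : ∏ p ∈ q.primeFactors.filter (fun p => zS X ≤ p), p ≤ q := by
    apply Nat.le_of_dvd hq
    exact (Finset.prod_dvd_prod_of_subset _ _ _ (Finset.filter_subset _ _)).trans
      (Nat.prod_primeFactors_dvd q)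
  have h3 : X ≤ zS X ^ 5 := by exact_mod_cast zS_pow X
  have h4 : zS X ^ 6 ≤ zS X ^ (q.primeFactors.filter (fun p => zS X ≤ p)).card :=
    Nat.pow_le_pow_right (by omega) hcon
  have h5 : zS X ^ 5 < zS X ^ 6 := Nat.pow_lt_pow_right (by omega) (by norm_num)
  omega

/-- the part of the minorant on the numbers which are not coprime to `q` -/
private theorem slm_noncop (X q : ℕ) (hz : 2 ≤ zS X) (hq : 1 ≤ q) (hqX : q ≤ X) :
    ∑ n ∈ (Icc 1 X).filter (fun n => ¬ Nat.Coprime n q), |Sv X n| ≤ 20 * (X / (zS X : ℝ)) := by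
  classical
  have hz0 : (0 : ℝ) < (zS X : ℝ) := by exact_mod_cast (by omega : 0 < zS X)
  have h1 : ∑ n ∈ (Icc 1 X).filter (fun n => ¬ Nat.Coprime n q), |Sv X n| ≤
      ∑ n ∈ (Icc 1 X), ∑ p ∈ q.primeFactors.filter (fun p => zS X ≤ p),
        if p ∣ n then (4 : ℝ) else 0 := by
    refine (Finset.sum_le_sum (g := fun n => ∑ p ∈ q.primeFactors.filter (fun p => zS X ≤ p),
      if p ∣ n then (4 : ℝ) else 0) ?_).trans
      (Finset.sum_le_sum_of_subset_of_nonneg (Finset.filter_subset _ _) fun n _ _ =>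
        Finset.sum_nonneg fun p _ => by split_ifs <;> norm_num)
    intro n hn
    rw [Finset.mem_filter, Finset.mem_Icc] at hn
    by_cases h0 : Sv X n = 0
    · rw [h0, abs_zero]
      exact Finset.sum_nonneg fun p _ => by split_ifs <;> norm_num
    · obtain ⟨p, hp, hp1, hp2⟩ := Nat.Prime.not_coprime_iff_dvd.mp hn.2
      have h2 := sv_supp X n h0 p (Nat.mem_primeFactors.mpr ⟨hp, hp1, by omega⟩)
      have h3 : p ∈ q.primeFactors.filter (fun p => zS X ≤ p) :=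
        Finset.mem_filter.2 ⟨Nat.mem_primeFactors.mpr ⟨hp, hp2, by omega⟩, h2⟩
      refine (sv_abs X n hn.1.2).trans ?_
      have h4 := Finset.single_le_sum (f := fun p => if p ∣ n then (4 : ℝ) else 0)
        (fun p _ => by split_ifs <;> norm_num) h3
      simpa [hp1] using h4
  refine h1.trans ?_
  rw [Finset.sum_comm]
  have h2 : ∀ p ∈ q.primeFactors.filter (fun p => zS X ≤ p),
      ∑ n ∈ Icc 1 X, (if p ∣ n then (4 : ℝ) else 0) ≤ 4 * (X / (zS X : ℝ)) := by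
    intro p hp
    have hpz : (zS X : ℝ) ≤ (p : ℝ) := by exact_mod_cast (Finset.mem_filter.1 hp).2
    rw [← Finset.sum_filter, Finset.sum_const, nsmul_eq_mul, mul_comm]
    have h3 : ((Icc 1 X).filter (fun n => p ∣ n)).card = X / p := by
      have h4 : Icc 1 X = Ioc 0 X := by
        ext n
        simp only [Finset.mem_Icc, Finset.mem_Ioc]
        omega
      rw [h4]
      exact Nat.Ioc_filter_dvd_card_eq_div X p
    rw [h3]
    apply mul_le_mul_of_nonneg_left _ (by norm_num)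
    refine (Nat.cast_div_le (m := X) (n := p)).trans ?_
    exact div_le_div_of_nonneg_left (Nat.cast_nonneg X) hz0 hpz
  refine (Finset.sum_le_sum h2).trans ?_
  rw [Finset.sum_const, nsmul_eq_mul]
  have h3 : (((q.primeFactors.filter (fun p => zS X ≤ p)).card : ℕ) : ℝ) ≤ 5 := by
    exact_mod_cast slm_card X q hz hq hqX
  calc (((q.primeFactors.filter (fun p => zS X ≤ p)).card : ℕ) : ℝ) * (4 * (X / (zS X : ℝ)))
      ≤ 5 * (4 * (X / (zS X : ℝ))) := mul_le_mul_of_nonneg_right h3 (by positivity)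
    _ = 20 * (X / (zS X : ℝ)) := by ring

private lemma slm_norm_ee (x : ℝ) : ‖ee x‖ = 1 := by
  unfold ee
  rw [Complex.norm_exp]
  simp

private lemma slm_la_nonneg (X n : ℕ) : 0 ≤ la X n := by
  unfold la
  split_ifs
  · exact Real.log_natCast_nonneg n
  · exact le_rfl

private lemma slm_la_le (X n : ℕ) : la X n ≤ Real.log X := by
  unfold la
  split_ifs with h
  · exact Real.log_le_log (by exact_mod_cast h.1.pos) (by exact_mod_cast h.2)
  · exact Real.log_natCast_nonneg X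

private lemma slm_norm_fz (X q : ℕ) (θ : ℝ) (b : ZMod q) :
    ‖fz X q (la X) θ b‖ ≤ ∑ n ∈ (Icc 1 X).filter (fun n : ℕ => (n : ZMod q) = b), la X n := by
  unfold fz
  refine (norm_sum_le _ _).trans (le_of_eq (Finset.sum_congr rfl fun n _ => ?_))
  rw [norm_mul, slm_norm_ee, mul_one, Complex.norm_real, Real.norm_eq_abs,
    abs_of_nonneg (slm_la_nonneg X n)]

private lemma slm_norm_fz_sv (X q : ℕ) (θ : ℝ) (b : ZMod q) :
    ‖fz X q (fun n => Sv X n) θ b‖ ≤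
      ∑ n ∈ (Icc 1 X).filter (fun n : ℕ => (n : ZMod q) = b), |Sv X n| := by
  unfold fz
  refine (norm_sum_le _ _).trans (le_of_eq (Finset.sum_congr rfl fun n _ => ?_))
  rw [norm_mul, slm_norm_ee, mul_one, Complex.norm_real, Real.norm_eq_abs]

private lemma slm_fz_le (X q : ℕ) [NeZero q] (θ : ℝ) (b : ZMod q) :
    ‖fz X q (la X) θ b‖ ≤ ((X : ℝ) / q + 1) * Real.log X := by
  refine (slm_norm_fz X q θ b).trans ?_
  refine (Finset.sum_le_sum fun n _ => slm_la_le X n).trans ?_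
  rw [Finset.sum_const, nsmul_eq_mul]
  refine mul_le_mul_of_nonneg_right ?_ (Real.log_natCast_nonneg X)
  have h := co_card q 0 X b
  rw [zero_add] at h
  exact h

private lemma slm_fz_sv_le (X q : ℕ) [NeZero q] (θ : ℝ) (b : ZMod q) :
    ‖fz X q (fun n => Sv X n) θ b‖ ≤ ((X : ℝ) / q + 1) * 4 := by
  refine (slm_norm_fz_sv X q θ b).trans ?_
  refine (Finset.sum_le_sum (g := fun _ => (4 : ℝ)) fun n hn =>
    sv_abs X n (Finset.mem_Icc.1 (Finset.mem_filter.1 hn).1).2).trans ?_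
  rw [Finset.sum_const, nsmul_eq_mul]
  refine mul_le_mul_of_nonneg_right ?_ (by norm_num)
  have h := co_card q 0 X b
  rw [zero_add] at h
  exact h

private lemma slm_sum_log (q : ℕ) (hq : q ≠ 0) :
    ∑ p ∈ q.primeFactors, Real.log p ≤ Real.log q := by
  have h1 : ∑ p ∈ q.primeFactors, Real.log p = Real.log ((∏ p ∈ q.primeFactors, p : ℕ) : ℝ) := by
    push_cast
    rw [Real.log_prod]
    intro p hp
    exact_mod_cast (Nat.prime_of_mem_primeFactors hp).ne_zero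
  rw [h1]
  refine Real.log_le_log ?_ ?_
  · exact_mod_cast Finset.prod_pos fun p hp => (Nat.prime_of_mem_primeFactors hp).pos
  · exact_mod_cast Nat.le_of_dvd (Nat.pos_of_ne_zero hq) (Nat.prod_primeFactors_dvd q)

private lemma slm_nonunit (X q : ℕ) [NeZero q] (θ : ℝ) :
    ∑ b ∈ univ.filter (fun b : ZMod q => ¬ IsUnit b), ‖fz X q (la X) θ b‖ ≤ Real.log q := by
  classical
  have hq : q ≠ 0 := NeZero.ne q
  calc ∑ b ∈ univ.filter (fun b : ZMod q => ¬ IsUnit b), ‖fz X q (la X) θ b‖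
      ≤ ∑ b ∈ univ.filter (fun b : ZMod q => ¬ IsUnit b),
        ∑ n ∈ (Icc 1 X).filter (fun n : ℕ => (n : ZMod q) = b),
          (if n ∈ q.primeFactors then Real.log n else 0) := by
        refine Finset.sum_le_sum fun b hb => ?_
        refine (slm_norm_fz X q θ b).trans (Finset.sum_le_sum fun n hn => ?_)
        rw [Finset.mem_filter] at hb hn
        unfold la
        by_cases hp : n.Prime ∧ n ≤ X
        · rw [if_pos hp]
          have h3 : n ∈ q.primeFactors := by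
            rw [Nat.mem_primeFactors]
            refine ⟨hp.1, ?_, hq⟩
            by_contra h4
            apply hb.2
            rw [← hn.2, ZMod.isUnit_iff_coprime]
            exact (Nat.Prime.coprime_iff_not_dvd hp.1).2 h4
          rw [if_pos h3]
        · rw [if_neg hp]
          split_ifs
          · exact Real.log_natCast_nonneg n
          · exact le_rfl
    _ ≤ ∑ b : ZMod q, ∑ n ∈ (Icc 1 X).filter (fun n : ℕ => (n : ZMod q) = b),
          (if n ∈ q.primeFactors then Real.log n else 0) := by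
        refine Finset.sum_le_sum_of_subset_of_nonneg (Finset.filter_subset _ _) ?_
        intro b _ _
        refine Finset.sum_nonneg fun n _ => ?_
        split_ifs
        · exact Real.log_natCast_nonneg n
        · exact le_rfl
    _ = ∑ n ∈ Icc 1 X, (if n ∈ q.primeFactors then Real.log n else 0) :=
        Finset.sum_fiberwise (Icc 1 X) (fun n : ℕ => (n : ZMod q)) _
    _ = ∑ n ∈ (Icc 1 X).filter (fun n => n ∈ q.primeFactors), Real.log n := by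
        rw [Finset.sum_filter]
    _ ≤ ∑ n ∈ q.primeFactors, Real.log n := by
        refine Finset.sum_le_sum_of_subset_of_nonneg ?_ fun n _ _ => Real.log_natCast_nonneg n
        intro n hn
        exact (Finset.mem_filter.1 hn).2
    _ ≤ Real.log q := slm_sum_log q hq

private lemma slm_nonunit_sv (X q : ℕ) [NeZero q] (hz : 2 ≤ zS X) (hqX : q ≤ X) (θ : ℝ) :
    ∑ b ∈ univ.filter (fun b : ZMod q => ¬ IsUnit b), ‖fz X q (fun n => Sv X n) θ b‖ ≤
      20 * (X / (zS X : ℝ)) := by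
  classical
  have hq : q ≠ 0 := NeZero.ne q
  calc ∑ b ∈ univ.filter (fun b : ZMod q => ¬ IsUnit b), ‖fz X q (fun n => Sv X n) θ b‖
      ≤ ∑ b ∈ univ.filter (fun b : ZMod q => ¬ IsUnit b),
        ∑ n ∈ (Icc 1 X).filter (fun n : ℕ => (n : ZMod q) = b),
          (if ¬ Nat.Coprime n q then |Sv X n| else 0) := by
        refine Finset.sum_le_sum fun b hb => ?_
        refine (slm_norm_fz_sv X q θ b).trans (Finset.sum_le_sum fun n hn => ?_)
        rw [Finset.mem_filter] at hb hn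
        rw [if_pos]
        intro h
        apply hb.2
        rw [← hn.2, ZMod.isUnit_iff_coprime]
        exact h
    _ ≤ ∑ b : ZMod q, ∑ n ∈ (Icc 1 X).filter (fun n : ℕ => (n : ZMod q) = b),
          (if ¬ Nat.Coprime n q then |Sv X n| else 0) := by
        refine Finset.sum_le_sum_of_subset_of_nonneg (Finset.filter_subset _ _) ?_
        intro b _ _
        refine Finset.sum_nonneg fun n _ => ?_
        split_ifs <;> first | exact abs_nonneg _ | exact le_rfl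
    _ = ∑ n ∈ Icc 1 X, (if ¬ Nat.Coprime n q then |Sv X n| else 0) :=
        Finset.sum_fiberwise (Icc 1 X) (fun n : ℕ => (n : ZMod q)) _
    _ = ∑ n ∈ (Icc 1 X).filter (fun n => ¬ Nat.Coprime n q), |Sv X n| := by
        rw [Finset.sum_filter]
    _ ≤ 20 * (X / (zS X : ℝ)) := slm_noncop X q hz (Nat.pos_of_ne_zero hq) hqX

/-- restriction to pairs of units -/
private lemma slm_units (X q : ℕ) [NeZero q] (hz : 2 ≤ zS X) (hqX : q ≤ X) (θ : ℝ) (a : ZMod q) :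
    ‖Fz2 X q (fun n => Sv X n) (la X) θ a -
      ∑ b ∈ univ.filter (fun b : ZMod q => IsUnit b ∧ IsUnit (a - b)),
      fz X q (fun n => Sv X n) θ b * fz X q (la X) θ (a - b)‖ ≤
      20 * (X / (zS X : ℝ)) * (((X : ℝ) / q + 1) * Real.log X) +
        Real.log q * (((X : ℝ) / q + 1) * 4) := by
  classical
  rw [Fz2_eq, ← Finset.sum_filter_add_sum_filter_not univ
    (fun b : ZMod q => IsUnit b ∧ IsUnit (a - b)), add_sub_cancel_left]
  obtain ⟨M, hM⟩ : ∃ M : ℝ, M = ((X : ℝ) / q + 1) * Real.log X := ⟨_, rfl⟩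
  obtain ⟨M', hM'⟩ : ∃ M' : ℝ, M' = ((X : ℝ) / q + 1) * 4 := ⟨_, rfl⟩
  have hM0 : 0 ≤ M := by
    rw [hM]
    have := Real.log_natCast_nonneg X
    positivity
  have hM0' : 0 ≤ M' := by
    rw [hM']
    positivity
  rw [← hM, ← hM']
  refine (norm_sum_le _ _).trans ?_
  have h1 : ∑ b ∈ univ.filter (fun b : ZMod q => ¬ (IsUnit b ∧ IsUnit (a - b))),
      ‖fz X q (fun n => Sv X n) θ b * fz X q (la X) θ (a - b)‖ ≤
      ∑ b ∈ univ.filter (fun b : ZMod q => ¬ IsUnit b),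
        ‖fz X q (fun n => Sv X n) θ b * fz X q (la X) θ (a - b)‖ +
      ∑ b ∈ univ.filter (fun b : ZMod q => ¬ IsUnit (a - b)),
        ‖fz X q (fun n => Sv X n) θ b * fz X q (la X) θ (a - b)‖ := by
    rw [Finset.sum_filter, Finset.sum_filter, Finset.sum_filter, ← Finset.sum_add_distrib]
    refine Finset.sum_le_sum fun b _ => ?_
    obtain ⟨t, ht⟩ : ∃ t : ℝ, t = ‖fz X q (fun n => Sv X n) θ b * fz X q (la X) θ (a - b)‖ :=
      ⟨_, rfl⟩
    have h0 : 0 ≤ t := by rw [ht]; exact norm_nonneg _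
    rw [← ht]
    by_cases h2 : IsUnit b <;> by_cases h3 : IsUnit (a - b) <;> simp [h2, h3, h0]
  refine h1.trans ?_
  have h2 : ∑ b ∈ univ.filter (fun b : ZMod q => ¬ IsUnit b),
      ‖fz X q (fun n => Sv X n) θ b * fz X q (la X) θ (a - b)‖ ≤ 20 * (X / (zS X : ℝ)) * M := by
    calc ∑ b ∈ univ.filter (fun b : ZMod q => ¬ IsUnit b),
          ‖fz X q (fun n => Sv X n) θ b * fz X q (la X) θ (a - b)‖
        ≤ ∑ b ∈ univ.filter (fun b : ZMod q => ¬ IsUnit b),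
          ‖fz X q (fun n => Sv X n) θ b‖ * M := by
          refine Finset.sum_le_sum fun b _ => ?_
          rw [norm_mul, hM]
          exact mul_le_mul_of_nonneg_left (slm_fz_le X q θ _) (norm_nonneg _)
      _ = (∑ b ∈ univ.filter (fun b : ZMod q => ¬ IsUnit b),
          ‖fz X q (fun n => Sv X n) θ b‖) * M := by
          rw [Finset.sum_mul]
      _ ≤ 20 * (X / (zS X : ℝ)) * M :=
          mul_le_mul_of_nonneg_right (slm_nonunit_sv X q hz hqX θ) hM0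
  have h3 : ∑ b ∈ univ.filter (fun b : ZMod q => ¬ IsUnit (a - b)),
      ‖fz X q (fun n => Sv X n) θ b * fz X q (la X) θ (a - b)‖ =
      ∑ b ∈ univ.filter (fun b : ZMod q => ¬ IsUnit b),
      ‖fz X q (la X) θ b * fz X q (fun n => Sv X n) θ (a - b)‖ := by
    rw [Finset.sum_filter, Finset.sum_filter]
    refine Fintype.sum_equiv (Equiv.subLeft a) _ _ fun b => ?_
    rw [Equiv.subLeft_apply, sub_sub_cancel, mul_comm]
  have h4 : ∑ b ∈ univ.filter (fun b : ZMod q => ¬ IsUnit b),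
      ‖fz X q (la X) θ b * fz X q (fun n => Sv X n) θ (a - b)‖ ≤ Real.log q * M' := by
    calc ∑ b ∈ univ.filter (fun b : ZMod q => ¬ IsUnit b),
          ‖fz X q (la X) θ b * fz X q (fun n => Sv X n) θ (a - b)‖
        ≤ ∑ b ∈ univ.filter (fun b : ZMod q => ¬ IsUnit b), ‖fz X q (la X) θ b‖ * M' := by
          refine Finset.sum_le_sum fun b _ => ?_
          rw [norm_mul, hM']
          exact mul_le_mul_of_nonneg_left (slm_fz_sv_le X q θ _) (norm_nonneg _)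
      _ = (∑ b ∈ univ.filter (fun b : ZMod q => ¬ IsUnit b), ‖fz X q (la X) θ b‖) * M' := by
          rw [Finset.sum_mul]
      _ ≤ Real.log q * M' := mul_le_mul_of_nonneg_right (slm_nonunit X q θ) hM0'
  rw [h3]
  linarith

private lemma slm_Nc_le (q : ℕ) [NeZero q] (a : ZMod q) : Nc q a ≤ Nat.totient q := by
  classical
  unfold Nc
  have h1 : univ.filter (fun b : ZMod q => IsUnit b ∧ IsUnit (a - b)) ⊆
      (univ : Finset (ZMod q)ˣ).image Units.val := by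
    intro b hb
    rw [mem_filter] at hb
    obtain ⟨u, hu⟩ := hb.2.1
    exact Finset.mem_image.2 ⟨u, mem_univ _, hu⟩
  refine (Finset.card_le_card h1).trans ?_
  refine Finset.card_image_le.trans ?_
  rw [Finset.card_univ, ZMod.card_units_eq_totient]

private lemma slm_Tc_le (X q : ℕ) [NeZero q] (θ : ℝ) (χ : DirichletCharacter ℂ q) :
    ‖Tc X q (la X) θ χ‖ ≤ 2 * X := by
  unfold Tc
  refine (norm_sum_le _ _).trans (le_trans (Finset.sum_le_sum fun n _ => ?_) (sum_la_le X))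
  rw [norm_mul, norm_mul, slm_norm_ee, mul_one, Complex.norm_real, Real.norm_eq_abs,
    abs_of_nonneg (slm_la_nonneg X n)]
  exact mul_le_of_le_one_right (slm_la_nonneg X n) (DirichletCharacter.norm_le_one χ _)

private lemma slm_Tc_sv_le (X q : ℕ) [NeZero q] (θ : ℝ) (χ : DirichletCharacter ℂ q) :
    ‖Tc X q (fun n => Sv X n) θ χ‖ ≤ 4 * X := by
  unfold Tc
  have h1 : ∑ n ∈ Icc 1 X, (4 : ℝ) = 4 * X := by
    rw [Finset.sum_const, Nat.card_Icc, nsmul_eq_mul, Nat.add_sub_cancel]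
    ring
  rw [← h1]
  refine (norm_sum_le _ _).trans (Finset.sum_le_sum fun n hn => ?_)
  rw [norm_mul, norm_mul, slm_norm_ee, mul_one, Complex.norm_real, Real.norm_eq_abs]
  calc |Sv X n| * ‖χ n‖ ≤ 4 * 1 := mul_le_mul (sv_abs X n (Finset.mem_Icc.1 hn).2)
        (DirichletCharacter.norm_le_one χ _) (norm_nonneg _) (by norm_num)
    _ = 4 := by norm_num

private lemma slm_Tc_sq (X q : ℕ) [NeZero q] (hq : q ≤ X) (f : ℕ → ℝ) (θ : ℝ) :
    ∑ χ : DirichletCharacter ℂ q, ‖Tc X q f θ χ‖ ^ 2 ≤ 2 * X * ∑ n ∈ Icc 1 X, f n ^ 2 := by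
  have h1 := char_ms q 0 X (fun n => (f n : ℂ) * ee (n * θ))
  rw [zero_add] at h1
  have h2 : ∀ χ : DirichletCharacter ℂ q, Tc X q f θ χ =
      ∑ n ∈ Ioc 0 X, ((f n : ℂ) * ee (n * θ)) * χ n := by
    intro χ
    unfold Tc
    have e : Icc 1 X = Ioc 0 X := by
      ext n
      simp only [mem_Icc, mem_Ioc]
      omega
    rw [e]
    exact Finset.sum_congr rfl fun n _ => by ring
  have h3 : ∑ n ∈ Ioc 0 X, ‖(f n : ℂ) * ee (n * θ)‖ ^ 2 = ∑ n ∈ Icc 1 X, f n ^ 2 := by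
    have e : Icc 1 X = Ioc 0 X := by
      ext n
      simp only [mem_Icc, mem_Ioc]
      omega
    rw [e]
    refine Finset.sum_congr rfl fun n _ => ?_
    rw [norm_mul, slm_norm_ee, mul_one, Complex.norm_real, Real.norm_eq_abs, sq_abs]
  rw [h3] at h1
  simp only [h2]
  refine h1.trans ?_
  have h5 : (X : ℝ) + q ≤ 2 * X := by
    have : (q : ℝ) ≤ X := by exact_mod_cast hq
    linarith
  have h6 : 0 ≤ ∑ n ∈ Icc 1 X, f n ^ 2 := Finset.sum_nonneg fun n _ => sq_nonneg _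
  exact mul_le_mul_of_nonneg_right h5 h6

private lemma slm_sum_sv_sq (X : ℕ) : ∑ n ∈ Icc 1 X, Sv X n ^ 2 ≤ 16 * X := by
  have h1 : ∑ n ∈ Icc 1 X, (16 : ℝ) = 16 * X := by
    rw [Finset.sum_const, Nat.card_Icc, nsmul_eq_mul, Nat.add_sub_cancel]
    ring
  rw [← h1]
  refine Finset.sum_le_sum fun n hn => ?_
  have h2 := sv_abs X n (Finset.mem_Icc.1 hn).2
  rw [← sq_abs]
  calc |Sv X n| ^ 2 ≤ 4 ^ 2 := pow_le_pow_left₀ (abs_nonneg _) h2 2
    _ = 16 := by norm_num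

private lemma slm_large (k : ℕ) : ∃ X0 : ℕ, ∀ X : ℕ, X0 ≤ X →
    64 ≤ Real.log X ∧ Real.log X ^ k ≤ X ∧ Real.log X ^ k ≤ (zS X : ℝ) ∧ 2 ≤ zS X ∧
    Real.log X ^ k ≤ Real.exp (Real.log (Real.log X) ^ 4 / 10) := by
  have h1 : ∀ᶠ x : ℝ in Filter.atTop, 64 ≤ Real.log x :=
    Real.tendsto_log_atTop.eventually_ge_atTop 64
  have h2 : ∀ᶠ x : ℝ in Filter.atTop, ‖Real.log x ^ k‖ ≤ 1 * ‖x‖ :=
    (Real.isLittleO_pow_log_id_atTop (n := k)).bound one_pos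
  have h3 : ∀ᶠ x : ℝ in Filter.atTop, ‖Real.log x ^ k‖ ≤ 1 * ‖x ^ (1 / 5 : ℝ)‖ := by
    have h := isLittleO_log_rpow_rpow_atTop (k : ℝ) (show (0 : ℝ) < 1 / 5 by norm_num)
    simp only [Real.rpow_natCast] at h
    exact h.bound one_pos
  have h4 : ∀ᶠ x : ℝ in Filter.atTop, 1 + 10 * (k : ℝ) ≤ Real.log (Real.log x) :=
    (Real.tendsto_log_atTop.comp Real.tendsto_log_atTop).eventually_ge_atTop _
  have h5 : ∀ᶠ x : ℝ in Filter.atTop, (2 : ℝ) ^ 5 ≤ x := Filter.eventually_ge_atTop _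
  have h6 : ∀ᶠ X : ℕ in Filter.atTop, 64 ≤ Real.log X ∧ Real.log X ^ k ≤ X ∧
      Real.log X ^ k ≤ (zS X : ℝ) ∧ 2 ≤ zS X ∧
      Real.log X ^ k ≤ Real.exp (Real.log (Real.log X) ^ 4 / 10) := by
    filter_upwards [tendsto_natCast_atTop_atTop.eventually h1,
      tendsto_natCast_atTop_atTop.eventually h2, tendsto_natCast_atTop_atTop.eventually h3,
      tendsto_natCast_atTop_atTop.eventually h4, tendsto_natCast_atTop_atTop.eventually h5]
      with X ha hb hc hd he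
    have hX0 : (0 : ℝ) ≤ X := Nat.cast_nonneg X
    refine ⟨ha, ?_, ?_, ?_, ?_⟩
    · rw [Real.norm_eq_abs, Real.norm_eq_abs, one_mul, abs_of_nonneg hX0] at hb
      exact (le_abs_self _).trans hb
    · rw [Real.norm_eq_abs, Real.norm_eq_abs, one_mul,
        abs_of_nonneg (Real.rpow_nonneg hX0 _)] at hc
      exact ((le_abs_self _).trans hc).trans (Nat.le_ceil _)
    · have h7 : (2 : ℝ) ≤ (X : ℝ) ^ (1 / 5 : ℝ) := by
        calc (2 : ℝ) = ((2 : ℝ) ^ 5) ^ (1 / 5 : ℝ) := by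
              rw [← Real.rpow_natCast, ← Real.rpow_mul (by norm_num)]
              norm_num
          _ ≤ (X : ℝ) ^ (1 / 5 : ℝ) := Real.rpow_le_rpow (by norm_num) he (by norm_num)
      have h8 : (2 : ℝ) ≤ (zS X : ℝ) := h7.trans (Nat.le_ceil _)
      exact_mod_cast h8
    · have hL : 0 < Real.log X := by linarith
      obtain ⟨LL, hLL⟩ : ∃ LL : ℝ, LL = Real.log (Real.log X) := ⟨_, rfl⟩
      rw [← hLL] at hd ⊢
      have e1 : Real.log X ^ k = Real.exp (k * LL) := by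
        rw [hLL, Real.exp_nat_mul, Real.exp_log hL]
      rw [e1, Real.exp_le_exp]
      have hk : (0 : ℝ) ≤ k := Nat.cast_nonneg k
      have hLL1 : 1 ≤ LL := by linarith
      have h7 : 1 ≤ LL ^ 2 := one_le_pow₀ hLL1
      have h8 : 10 * (k : ℝ) ≤ LL := by linarith
      have h9 : 10 * (k : ℝ) * LL ≤ LL * LL := mul_le_mul_of_nonneg_right h8 (by linarith)
      have h10 : LL * LL ≤ LL ^ 4 := by
        calc LL * LL = LL ^ 2 * 1 := by ring
          _ ≤ LL ^ 2 * LL ^ 2 := mul_le_mul_of_nonneg_left h7 (by positivity)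
          _ = LL ^ 4 := by ring
      linarith
  exact Filter.eventually_atTop.1 h6

private lemma slm_card_ite {α : Type*} [DecidableEq α] (S T : Finset α) (J : ℝ) (hJ : 0 ≤ J) :
    ∑ x ∈ S, (if x ∈ T then J else 0) ≤ (T.card : ℝ) * J := by
  rw [← Finset.sum_filter, Finset.sum_const, nsmul_eq_mul]
  apply mul_le_mul_of_nonneg_right _ hJ
  have h1 : (S.filter (fun x => x ∈ T)).card ≤ T.card :=
    Finset.card_le_card fun x hx => (Finset.mem_filter.1 hx).2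
  exact_mod_cast h1

private lemma slm_Jsum (q : ℕ) [NeZero q] [DecidableEq (DirichletCharacter ℂ q)] (a : ZMod q)
    (B1 B2 Bg : Finset (DirichletCharacter ℂ q)) (J1 J2 : ℝ) (hJ1 : 0 ≤ J1) (hJ2 : 0 ≤ J2)
    (h1 : ∀ χ ∈ B1, ∀ ψ : DirichletCharacter ℂ q, ‖Jc q a χ⁻¹ ψ‖ ≤ J1)
    (hg : ∀ χ ∈ Bg, ∀ ψ : DirichletCharacter ℂ q, ‖Jc q a χ⁻¹ ψ‖ ≤ J1)
    (h2 : ∀ χ ∈ B2, ∀ ψ : DirichletCharacter ℂ q, ‖Jc q a χ⁻¹ ψ‖ ≤ J2) :
    ∑ x ∈ ((insert 1 (B1 ∪ B2)) ×ˢ (insert 1 Bg)).filter (fun x => x ≠ (1, 1)),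
      ‖Jc q a x.1⁻¹ x.2⁻¹‖ ≤
      ((B1.card : ℝ) + 1) * ((Bg.card : ℝ) + 1) * J1 + (B2.card : ℝ) * ((Bg.card : ℝ) + 1) * J2 := by
  have hterm : ∀ x ∈ ((insert 1 (B1 ∪ B2)) ×ˢ (insert 1 Bg)).filter (fun x => x ≠ (1, 1)),
      ‖Jc q a x.1⁻¹ x.2⁻¹‖ ≤ (if x.1 ∈ insert 1 B1 then J1 else 0) +
        (if x.1 ∈ B2 then J2 else 0) := by
    intro x hx
    rw [Finset.mem_filter, Finset.mem_product, Finset.mem_insert, Finset.mem_insert,
      Finset.mem_union] at hx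
    obtain ⟨⟨hx1, hx2⟩, hx3⟩ := hx
    by_cases hB2 : x.1 ∈ B2
    · rw [if_pos hB2]
      have h3 := h2 x.1 hB2 x.2⁻¹
      split_ifs <;> linarith
    · rw [if_neg hB2, add_zero]
      have hins : x.1 ∈ insert 1 B1 := by
        rw [Finset.mem_insert]
        rcases hx1 with h | h | h
        · exact Or.inl h
        · exact Or.inr h
        · exact absurd h hB2
      rw [if_pos hins]
      rcases Finset.mem_insert.1 hins with h | h
      · rcases hx2 with h' | h'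
        · exact absurd (Prod.ext h h') hx3
        · rw [ba_Jc_comm]
          exact hg x.2 h' x.1⁻¹
      · exact h1 x.1 h x.2⁻¹
  refine (Finset.sum_le_sum hterm).trans ?_
  refine (Finset.sum_le_sum_of_subset_of_nonneg (Finset.filter_subset _ _) fun x _ _ => by
    split_ifs <;> positivity).trans ?_
  rw [Finset.sum_product]
  have e : ∀ x ∈ insert 1 (B1 ∪ B2), ∑ y ∈ insert 1 Bg,
      ((if ((x, y) : DirichletCharacter ℂ q × DirichletCharacter ℂ q).1 ∈ insert 1 B1 then J1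
        else 0) + (if ((x, y) : DirichletCharacter ℂ q × DirichletCharacter ℂ q).1 ∈ B2 then J2
        else 0)) =
      (((insert 1 Bg).card : ℕ) : ℝ) *
        ((if x ∈ insert 1 B1 then J1 else 0) + (if x ∈ B2 then J2 else 0)) := by
    intro x _
    rw [← nsmul_eq_mul, ← Finset.sum_const]
  rw [Finset.sum_congr rfl e, ← Finset.mul_sum, Finset.sum_add_distrib]
  have hc1 : (((insert 1 Bg).card : ℕ) : ℝ) ≤ (Bg.card : ℝ) + 1 := by
    exact_mod_cast Finset.card_insert_le 1 Bg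
  have hc2 : (((insert 1 B1).card : ℕ) : ℝ) ≤ (B1.card : ℝ) + 1 := by
    exact_mod_cast Finset.card_insert_le 1 B1
  have h3 := slm_card_ite (insert 1 (B1 ∪ B2)) (insert 1 B1) J1 hJ1
  have h4 := slm_card_ite (insert 1 (B1 ∪ B2)) B2 J2 hJ2
  have h5 : (((insert 1 B1).card : ℕ) : ℝ) * J1 ≤ ((B1.card : ℝ) + 1) * J1 :=
    mul_le_mul_of_nonneg_right hc2 hJ1
  calc (((insert 1 Bg).card : ℕ) : ℝ) * (∑ x ∈ insert 1 (B1 ∪ B2), (if x ∈ insert 1 B1 then J1 else 0) +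
        ∑ x ∈ insert 1 (B1 ∪ B2), (if x ∈ B2 then J2 else 0))
      ≤ ((Bg.card : ℝ) + 1) * (((B1.card : ℝ) + 1) * J1 + (B2.card : ℝ) * J2) := by
        apply mul_le_mul hc1 (by linarith) _ (by positivity)
        apply add_nonneg <;> exact Finset.sum_nonneg fun x _ => by split_ifs <;> positivity
    _ = _ := by ring

private lemma slm_Jc (q : ℕ) [NeZero q] (a : ZMod q) (Q J : ℝ) (hQ : 0 ≤ Q)
    (χ ψ : DirichletCharacter ℂ q)
    (hχ : ∀ d : ℕ, d ∣ q → (d : ℝ) ≤ Q → ¬ χ.FactorsThrough d) (hJ : 0 ≤ J)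
    (hs : 0 < Real.sqrt (⌊Q⌋₊ : ℝ))
    (h : 2 * (Nat.gcd a.val q : ℝ) * (q : ℝ) ^ 2 ≤ J ^ 2 * Real.sqrt (⌊Q⌋₊ : ℝ)) :
    ‖Jc q a χ⁻¹ ψ‖ ≤ J := by
  have h1 := Jc_bound q ⌊Q⌋₊ χ⁻¹ ψ (fun d hdq hdD hf => by
    refine hχ d hdq ?_ ?_
    · exact le_trans (by exact_mod_cast hdD) (Nat.floor_le hQ)
    · obtain ⟨h, χ0, h0⟩ := hf
      refine ⟨h, χ0⁻¹, ?_⟩
      rw [map_inv, ← h0, inv_inv]) a
  have h3 : ‖Jc q a χ⁻¹ ψ‖ ^ 2 ≤ J ^ 2 := le_of_mul_le_mul_right (h1.trans h) hs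
  exact le_of_pow_le_pow_left₀ (by norm_num) hJ h3

private lemma slm_Se_one (X : ℕ) (β : ℝ) :
    ‖Se X (fun _ => 1) β - KI X β‖ ≤ 3 + 7 * (|β| * X) := by
  have h := ma_KI X 1 0 β
  have e : ((1 : ℕ) : ℂ) * ∑ n ∈ (Icc 1 X).filter (fun n : ℕ => (n : ZMod 1) = 0), ee (n * β) =
      Se X (fun _ => 1) β := by
    unfold Se
    rw [Finset.filter_true_of_mem fun n _ => Subsingleton.elim _ _, Nat.cast_one, one_mul]
    refine Finset.sum_congr rfl fun n _ => ?_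
    push_cast
    ring
  rw [e] at h
  simpa using h

private lemma slm_Se_sd (X C : ℕ) (β : ℝ) (h : ∀ n, |sd X n| ≤ Real.log X ^ C) :
    ‖Se X (sd X) β‖ ≤ X * Real.log X ^ C := by
  unfold Se
  have h1 : ∑ n ∈ Icc 1 X, Real.log X ^ C = X * Real.log X ^ C := by
    rw [Finset.sum_const, Nat.card_Icc, nsmul_eq_mul, Nat.add_sub_cancel]
  rw [← h1]
  refine (norm_sum_le _ _).trans (Finset.sum_le_sum fun n _ => ?_)
  rw [norm_mul, slm_norm_ee, mul_one, Complex.norm_real, Real.norm_eq_abs]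
  exact h n

private theorem slm_r1 (x L : ℝ) (h : x ≤ L) (hL : 64 ≤ L) : 2 + 2 * x ≤ L ^ 2 := by nlinarith

private theorem slm_r2 (g L d f : ℝ) (h2 : d < f + 1) (h3 : g * L = d) (h4 : 1 ≤ g)
    (hL : 64 ≤ L) : g ≤ f := by nlinarith

private theorem slm_r3 (x p L : ℝ) (h : x ≤ p) (hp : 0 ≤ p) (hL : 64 ≤ L) : 2 * x ≤ p * L := by
  nlinarith

private theorem slm_r4 (x p L : ℝ) (h : x ≤ p) (hp : 1 ≤ p) (hL : 64 ≤ L) : x + 1 ≤ p * L := by
  nlinarith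

private theorem slm_r5 (L : ℝ) (hL : 1 ≤ L) : L ≤ L ^ 2 := by nlinarith

private theorem slm_r6 (n p : ℝ) (h : n ≤ p) (hp : 0 < p) : n * p ≤ 1 * p ^ 2 := by nlinarith

theorem sla_major_core
    (h_good : ∀ (ε : ℝ) (hε : 0 < ε) (hε1 : ε < 1) (A B : ℕ), ∃ C : ℕ, ∀ D1 : ℕ, ∃ X0 : ℕ,
    ∀ X : ℕ, X0 ≤ X →
    ∀ (q : ℕ) [NeZero q], (q : ℝ) ≤ (X : ℝ) ^ (4 / 5 - ε) → ∀ (r : ℕ) (y : ℤ) (β : ℝ), 1 ≤ r →
    (r : ℝ) ≤ Real.log X ^ B → Nat.Coprime r q → |β| ≤ Real.log X ^ B / X →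
      ∃ 𝓑₁ 𝓑₂ : Finset (DirichletCharacter ℂ q), (𝓑₁.card : ℝ) ≤ Real.log X ^ C ∧
        (𝓑₂.card : ℝ) ≤ Real.exp (Real.log (Real.log X) ^ 4 / 50) ∧
        (∀ χ ∈ 𝓑₁, χ ≠ 1 ∧ ∀ d : ℕ, d ∣ q → (d : ℝ) ≤ Real.log X ^ D1 → ¬ χ.FactorsThrough d) ∧
        (∀ χ ∈ 𝓑₂, χ ≠ 1 ∧ ∀ d : ℕ, d ∣ q → (d : ℝ) ≤ Real.exp (Real.log (Real.log X) ^ 4) →
          ¬ χ.FactorsThrough d) ∧
        ∑ χ ∈ univ.filter (fun χ => χ ∉ 𝓑₁ ∧ χ ∉ 𝓑₂ ∧ χ ≠ 1),
          ‖Tc X q (fun n => Sv X n) (y / r + β) χ‖ ^ 2 ≤ X ^ 2 / Real.log X ^ A)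
    (h_la : ∀ (ε : ℝ) (hε : 0 < ε) (hε1 : ε < 1) (A B : ℕ), ∃ C : ℕ, ∀ D1 : ℕ, ∃ X0 : ℕ,
    ∀ X : ℕ, X0 ≤ X →
    ∀ (q : ℕ) [NeZero q], (q : ℝ) ≤ (X : ℝ) ^ (4 / 5 - ε) → ∀ (r : ℕ) (y : ℤ) (β : ℝ), 1 ≤ r →
    (r : ℝ) ≤ Real.log X ^ B → Nat.Coprime r q → |β| ≤ Real.log X ^ B / X →
      ∃ 𝓑 : Finset (DirichletCharacter ℂ q), (𝓑.card : ℝ) ≤ Real.log X ^ C ∧
        (∀ χ ∈ 𝓑, χ ≠ 1 ∧ ∀ d : ℕ, d ∣ q → (d : ℝ) ≤ Real.log X ^ D1 → ¬ χ.FactorsThrough d) ∧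
        ∑ χ ∈ univ.filter (fun χ => χ ∉ 𝓑 ∧ χ ≠ 1), ‖Tc X q (la X) (y / r + β) χ‖ ^ 2 ≤
          X ^ 2 / Real.log X ^ A)
    (h_sone : ∀ (A B : ℕ), ∃ X0 : ℕ, ∀ X : ℕ, X0 ≤ X → ∀ (q : ℕ) [NeZero q], q ≤ X →
    ∀ (r : ℕ) (y : ℤ) (β : ℝ), 1 ≤ r → (r : ℝ) ≤ Real.log X ^ B → Nat.Coprime r q →
    IsCoprime y (r : ℤ) → |β| ≤ Real.log X ^ B / X →
    ‖Tc X q (fun n => Sv X n) (y / r + β) 1 -
      ((((ArithmeticFunction.moebius r : ℤ) : ℝ) / (Nat.totient r : ℝ) : ℝ) : ℂ) *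
        Se X (sd X) β‖ ≤ X / Real.log X ^ A)
    (h_one : ∀ (A B : ℕ), ∃ X0 : ℕ, ∀ X : ℕ, X0 ≤ X → ∀ (q : ℕ) [NeZero q], q ≤ X →
    ∀ (r : ℕ) (y : ℤ) (β : ℝ), 1 ≤ r → (r : ℝ) ≤ Real.log X ^ B → Nat.Coprime r q →
    IsCoprime y (r : ℤ) → |β| ≤ Real.log X ^ B / X →
    ‖Tc X q (la X) (y / r + β) 1 -
      ((((ArithmeticFunction.moebius r : ℤ) : ℝ) / (Nat.totient r : ℝ) : ℝ) : ℂ) * KI X β‖ ≤
      X / Real.log X ^ A)
    (ε : ℝ) (hε : 0 < ε) (hε1 : ε < 1) (A B K : ℕ) : ∃ X0 : ℕ, ∀ X : ℕ, X0 ≤ X →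
    ∀ (q : ℕ) [NeZero q], (q : ℝ) ≤ (X : ℝ) ^ (4 / 5 - ε) → ∀ (r : ℕ) (y : ℤ) (β : ℝ) (a : ZMod q),
    1 ≤ r → (r : ℝ) ≤ Real.log X ^ B → Nat.Coprime r q → IsCoprime y (r : ℤ) →
    |β| ≤ Real.log X ^ B / X → (Nat.gcd a.val q : ℝ) ≤ Real.log X ^ K →
    ‖Fz2 X q (fun n => Sv X n) (la X) (y / r + β) a - MT2 X q r β a‖ ≤
      X ^ 2 / (q * Real.log X ^ A) := by
  classical
  obtain ⟨C0, X1, hsd⟩ := sd_bound
  obtain ⟨C1, hC1⟩ := h_good ε hε hε1 (2 * (A + 5)) B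
  obtain ⟨C2, hC2⟩ := h_la ε hε hε1 (2 * (A + 5)) B
  obtain ⟨M0, hM0⟩ : ∃ M0 : ℕ, M0 = A + 7 := ⟨_, rfl⟩
  obtain ⟨M, hM⟩ : ∃ M : ℕ, M = (C1 + 1) + (C2 + 1) + M0 := ⟨_, rfl⟩
  obtain ⟨G, hG⟩ : ∃ G : ℕ, G = K + 1 + 2 * M := ⟨_, rfl⟩
  obtain ⟨D1, hD1⟩ : ∃ D1 : ℕ, D1 = 2 * G + 1 := ⟨_, rfl⟩
  obtain ⟨X2, hsg⟩ := hC1 D1
  obtain ⟨X3, hlg⟩ := hC2 D1
  obtain ⟨X4, hT1⟩ := h_sone (C0 + A + 5) B
  obtain ⟨X5, hT2⟩ := h_one (C0 + A + 5) B
  obtain ⟨k, hk⟩ : ∃ k : ℕ, k = A + B + C0 + K + M + 10 := ⟨_, rfl⟩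
  obtain ⟨X6, hlarge⟩ := slm_large k
  refine ⟨X1 + X2 + X3 + X4 + X5 + X6 + 2, fun X hX q _ hq r y β a hr1 hr hrq hy hβ hgcd => ?_⟩
  obtain ⟨hL64, hLX, hLz, hz2, hLe⟩ := hlarge X (by omega)
  obtain ⟨hsdX, -⟩ := hsd X (by omega)
  obtain ⟨B1, B2, hB1c, hB2c, hB1, hB2, hEf⟩ := hsg X (by omega) q hq r y β hr1 hr hrq hβ
  obtain ⟨Bg, hBgc, hBg, hEg⟩ := hlg X (by omega) q hq r y β hr1 hr hrq hβ
  have hX2 : 2 ≤ X := by omega
  have hXR : (2 : ℝ) ≤ X := by exact_mod_cast hX2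
  have hXp : (0 : ℝ) < X := by linarith
  have hX1 : (1 : ℝ) ≤ X := by linarith
  have hqX' : (q : ℝ) ≤ X := by
    refine hq.trans ?_
    calc (X : ℝ) ^ (4 / 5 - ε) ≤ (X : ℝ) ^ (1 : ℝ) :=
          Real.rpow_le_rpow_of_exponent_le hX1 (by linarith)
      _ = X := Real.rpow_one _
  have hqX : q ≤ X := by exact_mod_cast hqX'
  have hq1 : 1 ≤ q := Nat.one_le_iff_ne_zero.2 (NeZero.ne q)
  have hqp : (0 : ℝ) < q := by exact_mod_cast hq1
  have hT1' := hT1 X (by omega) q hqX r y β hr1 hr hrq hy hβ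
  have hT2' := hT2 X (by omega) q hqX r y β hr1 hr hrq hy hβ
  have hlogq : Real.log q ≤ Real.log X :=
    Real.log_le_log hqp hqX'
  have hlogq0 : 0 ≤ Real.log q := Real.log_natCast_nonneg q
  have hφ : (0 : ℝ) < Nat.totient q := by exact_mod_cast Nat.totient_pos.2 hq1
  have htot := totient_lower q hq1
  have hGf : ∑ χ : DirichletCharacter ℂ q, ‖Tc X q (fun n => Sv X n) (y / r + β) χ‖ ^ 2 ≤
      32 * (X : ℝ) ^ 2 := by
    refine (slm_Tc_sq X q hqX (fun n => Sv X n) (y / r + β)).trans ?_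
    calc 2 * (X : ℝ) * ∑ n ∈ Icc 1 X, (fun n => Sv X n) n ^ 2 ≤ 2 * X * (16 * X) :=
          mul_le_mul_of_nonneg_left (slm_sum_sv_sq X) (by positivity)
      _ = 32 * (X : ℝ) ^ 2 := by ring
  have hGg : ∑ χ : DirichletCharacter ℂ q, ‖Tc X q (la X) (y / r + β) χ‖ ^ 2 ≤
      4 * (X : ℝ) ^ 2 * Real.log X := by
    refine (slm_Tc_sq X q hqX (la X) (y / r + β)).trans ?_
    calc 2 * (X : ℝ) * ∑ n ∈ Icc 1 X, la X n ^ 2 ≤ 2 * X * (2 * X * Real.log X) :=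
          mul_le_mul_of_nonneg_left (sum_la_sq_le X) (by positivity)
      _ = 4 * (X : ℝ) ^ 2 * Real.log X := by ring
  have hunits := slm_units X q hz2 hqX (y / r + β) a
  have hTf := fun χ => slm_Tc_sv_le X q (y / r + β) χ
  have hTg := fun χ => slm_Tc_le X q (y / r + β) χ
  have hKI := slm_Se_one X β
  have hSsd := slm_Se_sd X C0 β hsdX
  obtain ⟨L, hL⟩ : ∃ L : ℝ, L = Real.log X := ⟨_, rfl⟩
  obtain ⟨LL, hLL⟩ : ∃ LL : ℝ, LL = Real.log L := ⟨_, rfl⟩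
  obtain ⟨θ, hθ⟩ : ∃ θ : ℝ, θ = y / r + β := ⟨_, rfl⟩
  rw [← hL] at hL64 hLX hLz hLe hr hβ hgcd hB1c hB2c hEf hBgc hEg hT1' hT2' hlogq hGg
  rw [← hL] at hunits hSsd hB1 hB2 hBg ⊢
  rw [← hLL] at hLe hB2c hB2
  rw [← hθ] at hEf hEg hT1' hT2' hGf hGg hunits hTf hTg ⊢
  have hL1 : 1 ≤ L := by linarith
  have hLp : 0 < L := by linarith
  have hpw : ∀ {i j : ℕ}, i ≤ j → L ^ i ≤ L ^ j := fun h => pow_le_pow_right₀ hL1 h
  -- the totient
  have hφq : (q : ℝ) ≤ Nat.totient q * L ^ 2 := by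
    refine htot.trans (mul_le_mul_of_nonneg_left ?_ hφ.le)
    exact slm_r1 _ _ hlogq hL64
  have hφi : 1 / (Nat.totient q : ℝ) ≤ L ^ 2 / q := by
    rw [div_le_div_iff₀ hφ hqp]
    linarith
  have hφi0 : 0 ≤ 1 / (Nat.totient q : ℝ) := by positivity
  -- the target
  obtain ⟨Y, hY⟩ : ∃ Y : ℝ, Y = X ^ 2 / (q * L ^ (A + 1)) := ⟨_, rfl⟩
  have hY0 : 0 ≤ Y := by rw [hY]; positivity
  have hYfin : 8 * Y ≤ X ^ 2 / (q * L ^ A) := by
    rw [hY, mul_div_assoc', div_le_div_iff₀ (by positivity) (by positivity), pow_succ]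
    have h1 : (8 : ℝ) ≤ L := by linarith
    calc 8 * (X : ℝ) ^ 2 * (q * L ^ A) = 8 * (X ^ 2 * (q * L ^ A)) := by ring
      _ ≤ L * (X ^ 2 * (q * L ^ A)) := mul_le_mul_of_nonneg_right h1 (by positivity)
      _ = X ^ 2 * (q * (L ^ A * L)) := by ring
  -- a bound of the form `c X² L^i / (q L^j)` is at most `Y`
  have hYb : ∀ (c : ℝ) (i : ℕ), 0 ≤ c → c ≤ 64 → c * X ^ 2 / (q * L ^ (A + 2 + i)) ≤ Y := by
    intro c i hc0 hc
    rw [hY, div_le_div_iff₀ (by positivity) (by positivity)]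
    have h1 : c * L ^ (A + 1) ≤ L ^ (A + 2 + i) := by
      calc c * L ^ (A + 1) ≤ L * L ^ (A + 1) :=
            mul_le_mul_of_nonneg_right (by linarith) (by positivity)
        _ = L ^ (A + 2) := by ring
        _ ≤ L ^ (A + 2 + i) := hpw (by omega)
    calc c * (X : ℝ) ^ 2 * (q * L ^ (A + 1)) = (X ^ 2 * q) * (c * L ^ (A + 1)) := by ring
      _ ≤ (X ^ 2 * q) * L ^ (A + 2 + i) := mul_le_mul_of_nonneg_left h1 (by positivity)
      _ = X ^ 2 * (q * L ^ (A + 2 + i)) := by ring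
  -- the Jacobi sums
  obtain ⟨J1, hJ1⟩ : ∃ J1 : ℝ, J1 = q / L ^ M := ⟨_, rfl⟩
  have hJ10 : 0 ≤ J1 := by rw [hJ1]; positivity
  have hsmall : ∀ χ : DirichletCharacter ℂ q,
      (∀ d : ℕ, d ∣ q → (d : ℝ) ≤ L ^ D1 → ¬ χ.FactorsThrough d) →
      ∀ ψ : DirichletCharacter ℂ q, ‖Jc q a χ⁻¹ ψ‖ ≤ J1 := by
    intro χ hχf ψ
    have hDge : L ^ G ≤ Real.sqrt (⌊L ^ D1⌋₊ : ℝ) := by
      apply Real.le_sqrt_of_sq_le
      have h2 : L ^ D1 < (⌊L ^ D1⌋₊ : ℝ) + 1 := Nat.lt_floor_add_one _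
      have h3 : (L ^ G) ^ 2 * L = L ^ D1 := by
        rw [hD1, ← pow_mul, ← pow_succ, mul_comm G 2]
      have h4 : 1 ≤ (L ^ G) ^ 2 := one_le_pow₀ (one_le_pow₀ hL1)
      exact slm_r2 _ _ _ _ h2 h3 h4 hL64
    have hsD : 0 < Real.sqrt (⌊L ^ D1⌋₊ : ℝ) := lt_of_lt_of_le (by positivity) hDge
    refine slm_Jc q a (L ^ D1) J1 (by positivity) χ ψ hχf hJ10 hsD ?_
    have h3 : J1 ^ 2 * L ^ G = L ^ (K + 1) * (q : ℝ) ^ 2 := by
      rw [hJ1, hG, pow_add L (K + 1) (2 * M), div_pow, ← pow_mul, mul_comm M 2]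
      field_simp
    have h4 : J1 ^ 2 * L ^ G ≤ J1 ^ 2 * Real.sqrt (⌊L ^ D1⌋₊ : ℝ) :=
      mul_le_mul_of_nonneg_left hDge (by positivity)
    have h5 : 2 * (Nat.gcd a.val q : ℝ) ≤ L ^ (K + 1) := by
      rw [pow_succ]
      have : 0 ≤ L ^ K := by positivity
      exact slm_r3 _ _ _ hgcd this hL64
    have h6 := mul_le_mul_of_nonneg_right h5 (by positivity : (0 : ℝ) ≤ (q : ℝ) ^ 2)
    linarith
  obtain ⟨J2, hJ2⟩ : ∃ J2 : ℝ, J2 = q * Real.exp (-(LL ^ 4 / 5)) := ⟨_, rfl⟩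
  have hJ20 : 0 ≤ J2 := by rw [hJ2]; positivity
  have hlargeJ : ∀ χ ∈ B2, ∀ ψ : DirichletCharacter ℂ q, ‖Jc q a χ⁻¹ ψ‖ ≤ J2 := by
    intro χ hχ ψ
    obtain ⟨-, hχf⟩ := hB2 χ hχ
    have hDge : Real.exp (LL ^ 4 / 2) / 2 ≤ Real.sqrt (⌊Real.exp (LL ^ 4)⌋₊ : ℝ) := by
      apply Real.le_sqrt_of_sq_le
      have h2 : Real.exp (LL ^ 4) < (⌊Real.exp (LL ^ 4)⌋₊ : ℝ) + 1 := Nat.lt_floor_add_one _
      have h3 : (Real.exp (LL ^ 4 / 2) / 2) ^ 2 = Real.exp (LL ^ 4) / 4 := by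
        rw [div_pow, ← Real.exp_nat_mul]
        norm_num
        ring_nf
      have h4 : 2 ≤ Real.exp (LL ^ 4) := by
        have h5 : Real.exp (LL ^ 4 / 10) ≤ Real.exp (LL ^ 4) := by
          rw [Real.exp_le_exp]
          have : 0 ≤ LL ^ 4 := by positivity
          linarith
        have h6 : L ^ 1 ≤ L ^ k := hpw (by omega)
        rw [pow_one] at h6
        linarith
      rw [h3]
      linarith
    have hsD : 0 < Real.sqrt (⌊Real.exp (LL ^ 4)⌋₊ : ℝ) := lt_of_lt_of_le (by positivity) hDge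
    refine slm_Jc q a (Real.exp (LL ^ 4)) J2 (by positivity) χ ψ hχf hJ20 hsD ?_
    have h3 : J2 ^ 2 * (Real.exp (LL ^ 4 / 2) / 2) = Real.exp (LL ^ 4 / 10) / 2 * (q : ℝ) ^ 2 := by
      rw [hJ2, mul_pow, ← Real.exp_nat_mul]
      have e : Real.exp (LL ^ 4 / 10) = Real.exp (((2 : ℕ) : ℝ) * -(LL ^ 4 / 5)) *
          Real.exp (LL ^ 4 / 2) := by
        rw [← Real.exp_add]
        congr 1
        push_cast
        ring
      rw [e]
      ring
    have h4 : J2 ^ 2 * (Real.exp (LL ^ 4 / 2) / 2) ≤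
        J2 ^ 2 * Real.sqrt (⌊Real.exp (LL ^ 4)⌋₊ : ℝ) :=
      mul_le_mul_of_nonneg_left hDge (by positivity)
    have h5 : 2 * (Nat.gcd a.val q : ℝ) ≤ Real.exp (LL ^ 4 / 10) / 2 := by
      have h6 : L ^ (K + 1) ≤ L ^ k := hpw (by omega)
      have h7 : 4 * L ^ K ≤ L ^ (K + 1) := by
        rw [pow_succ, mul_comm]
        exact mul_le_mul_of_nonneg_left (by linarith) (by positivity)
      linarith
    have h6 := mul_le_mul_of_nonneg_right h5 (by positivity : (0 : ℝ) ≤ (q : ℝ) ^ 2)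
    linarith
  have hJsum := slm_Jsum q a B1 B2 Bg J1 J2 hJ10 hJ20 (fun χ hχ => hsmall χ (hB1 χ hχ).2)
    (fun χ hχ => hsmall χ (hBg χ hχ).2) hlargeJ
  obtain ⟨J, hJ⟩ : ∃ J : ℝ, J = 2 * (q / L ^ M0) := ⟨_, rfl⟩
  have hJ0 : 0 ≤ J := by rw [hJ]; positivity
  have hc1 : (B1.card : ℝ) + 1 ≤ L ^ (C1 + 1) := by
    have h3 : 1 ≤ L ^ C1 := one_le_pow₀ hL1
    rw [pow_succ]
    exact slm_r4 _ _ _ hB1c h3 hL64
  have hcg : (Bg.card : ℝ) + 1 ≤ L ^ (C2 + 1) := by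
    have h3 : 1 ≤ L ^ C2 := one_le_pow₀ hL1
    rw [pow_succ]
    exact slm_r4 _ _ _ hBgc h3 hL64
  have hJJ : ((B1.card : ℝ) + 1) * ((Bg.card : ℝ) + 1) * J1 +
      (B2.card : ℝ) * ((Bg.card : ℝ) + 1) * J2 ≤ J := by
    have h1 : ((B1.card : ℝ) + 1) * ((Bg.card : ℝ) + 1) * J1 ≤ q / L ^ M0 := by
      calc ((B1.card : ℝ) + 1) * ((Bg.card : ℝ) + 1) * J1 ≤
            L ^ (C1 + 1) * L ^ (C2 + 1) * J1 := by
            apply mul_le_mul_of_nonneg_right _ hJ10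
            exact mul_le_mul hc1 hcg (by positivity) (by positivity)
        _ = q / L ^ M0 := by
            rw [hJ1, hM, pow_add L (C1 + 1 + (C2 + 1)) M0, pow_add L (C1 + 1) (C2 + 1)]
            field_simp
    have h2 : (B2.card : ℝ) * ((Bg.card : ℝ) + 1) * J2 ≤ q / L ^ M0 := by
      have h3 : (B2.card : ℝ) * Real.exp (-(LL ^ 4 / 5)) ≤ 1 / L ^ (C2 + 1 + M0) := by
        have h4 : Real.exp (LL ^ 4 / 50) * Real.exp (-(LL ^ 4 / 5)) ≤
            Real.exp (-(LL ^ 4 / 10)) := by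
          rw [← Real.exp_add, Real.exp_le_exp]
          have : 0 ≤ LL ^ 4 := by positivity
          linarith
        have h5 : Real.exp (-(LL ^ 4 / 10)) ≤ 1 / L ^ (C2 + 1 + M0) := by
          rw [Real.exp_neg, ← one_div]
          apply one_div_le_one_div_of_le (by positivity)
          exact (hpw (by omega)).trans hLe
        exact (mul_le_mul_of_nonneg_right hB2c (by positivity)).trans (h4.trans h5)
      calc (B2.card : ℝ) * ((Bg.card : ℝ) + 1) * J2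
          = ((Bg.card : ℝ) + 1) * q * ((B2.card : ℝ) * Real.exp (-(LL ^ 4 / 5))) := by
            rw [hJ2]; ring
        _ ≤ L ^ (C2 + 1) * q * (1 / L ^ (C2 + 1 + M0)) := by
            apply mul_le_mul _ h3 (by positivity) (by positivity)
            exact mul_le_mul_of_nonneg_right hcg hqp.le
        _ = q / L ^ M0 := by
            rw [pow_add L (C2 + 1) M0]
            field_simp
    rw [hJ]
    linarith
  -- the main estimate
  obtain ⟨E, hE⟩ : ∃ E : ℝ, E = X ^ 2 / L ^ (2 * (A + 5)) := ⟨_, rfl⟩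
  have hE0 : 0 ≤ E := by rw [hE]; positivity
  have h1f : (1 : DirichletCharacter ℂ q) ∉ B1 ∪ B2 := by
    rw [Finset.mem_union]
    rintro (h | h)
    · exact (hB1 1 h).1 rfl
    · exact (hB2 1 h).1 rfl
  have h1g : (1 : DirichletCharacter ℂ q) ∉ Bg := fun h => (hBg 1 h).1 rfl
  have hEf' : ∑ χ ∈ univ.filter (fun χ => χ ∉ B1 ∪ B2 ∧ χ ≠ 1),
      ‖Tc X q (fun n => Sv X n) θ χ‖ ^ 2 ≤ E := by
    rw [hE]
    refine le_trans (le_of_eq ?_) hEf
    refine Finset.sum_congr ?_ fun _ _ => rfl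
    ext χ
    simp only [Finset.mem_filter, Finset.mem_univ, true_and, Finset.mem_union, not_or, and_assoc]
  rw [← hE] at hEg
  have hbad := bad_alg2 X q (fun n => Sv X n) (la X) θ a (B1 ∪ B2) Bg h1f h1g E E
    (32 * (X : ℝ) ^ 2) (4 * (X : ℝ) ^ 2 * L) (4 * X) (2 * X) J hE0 hE0 hTf hTg
    (by convert hEf') (by convert hEg) hGf hGg (by convert hJsum.trans hJJ)
  have hterm1 : (4 * X) * (2 * X) * J / (Nat.totient q : ℝ) ^ 2 ≤ Y := by
    have h2 : J / (Nat.totient q : ℝ) ^ 2 ≤ 2 * (L ^ 4 / (q * L ^ M0)) := by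
      have h3 : J / (Nat.totient q : ℝ) ^ 2 = J * (1 / (Nat.totient q : ℝ)) ^ 2 := by
        field_simp
      rw [h3]
      refine (mul_le_mul_of_nonneg_left (pow_le_pow_left₀ hφi0 hφi 2) hJ0).trans (le_of_eq ?_)
      rw [hJ]
      field_simp
    calc (4 * X) * (2 * X) * J / (Nat.totient q : ℝ) ^ 2
        = (8 * X ^ 2) * (J / (Nat.totient q : ℝ) ^ 2) := by ring
      _ ≤ (8 * X ^ 2) * (2 * (L ^ 4 / (q * L ^ M0))) :=
          mul_le_mul_of_nonneg_left h2 (by positivity)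
      _ = 16 * X ^ 2 / (q * L ^ (A + 2 + 1)) := by
          have e1 : L ^ M0 = L ^ 4 * L ^ (A + 2 + 1) := by
            rw [hM0, ← pow_add]
            congr 1
            ring
          rw [e1, mul_div_assoc', mul_div_assoc', div_eq_div_iff (by positivity) (by positivity)]
          ring
      _ ≤ Y := hYb 16 1 (by norm_num) (by norm_num)
  have hterm2 : (Real.sqrt (32 * (X : ℝ) ^ 2 * E) + Real.sqrt (E * (4 * (X : ℝ) ^ 2 * L)) +
      Real.sqrt (E * E)) / (Nat.totient q : ℝ) ≤ Y := by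
    obtain ⟨P, hP⟩ : ∃ P : ℝ, P = L ^ (A + 5) := ⟨_, rfl⟩
    have hP1 : 1 ≤ P := by rw [hP]; exact one_le_pow₀ hL1
    have hEP : E = X ^ 2 / P ^ 2 := by rw [hE, hP, ← pow_mul, mul_comm 2 (A + 5)]
    have h1 : Real.sqrt (32 * (X : ℝ) ^ 2 * E) ≤ 6 * X ^ 2 / P := by
      rw [Real.sqrt_le_left (by positivity), hEP]
      have e1 : 32 * (X : ℝ) ^ 2 * (X ^ 2 / P ^ 2) = 32 * (X ^ 2 / P) ^ 2 := by
        field_simp
      have e2 : (6 * (X : ℝ) ^ 2 / P) ^ 2 = 36 * (X ^ 2 / P) ^ 2 := by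
        field_simp
        ring
      rw [e1, e2]
      have : 0 ≤ ((X : ℝ) ^ 2 / P) ^ 2 := by positivity
      linarith
    have h2 : Real.sqrt (E * (4 * (X : ℝ) ^ 2 * L)) ≤ 2 * X ^ 2 * L / P := by
      rw [Real.sqrt_le_left (by positivity), hEP]
      have e1 : (X : ℝ) ^ 2 / P ^ 2 * (4 * X ^ 2 * L) = 4 * (X ^ 2 / P) ^ 2 * L := by
        field_simp
      have e2 : (2 * (X : ℝ) ^ 2 * L / P) ^ 2 = 4 * (X ^ 2 / P) ^ 2 * L ^ 2 := by
        field_simp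
        ring
      rw [e1, e2]
      apply mul_le_mul_of_nonneg_left _ (by positivity)
      exact slm_r5 _ hL1
    have h3 : Real.sqrt (E * E) ≤ X ^ 2 / P := by
      rw [Real.sqrt_mul_self hE0, hEP]
      apply div_le_div_of_nonneg_left (by positivity) (by positivity)
      exact slm_r5 _ hP1
    have h4 : Real.sqrt (32 * (X : ℝ) ^ 2 * E) + Real.sqrt (E * (4 * (X : ℝ) ^ 2 * L)) +
        Real.sqrt (E * E) ≤ 9 * X ^ 2 * L / P := by
      have e1 : 6 * (X : ℝ) ^ 2 / P ≤ 6 * X ^ 2 * L / P := by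
        apply div_le_div_of_nonneg_right _ (by positivity)
        exact le_mul_of_one_le_right (by positivity) hL1
      have e2 : (X : ℝ) ^ 2 / P ≤ X ^ 2 * L / P := by
        apply div_le_div_of_nonneg_right _ (by positivity)
        exact le_mul_of_one_le_right (by positivity) hL1
      have e3 : 9 * (X : ℝ) ^ 2 * L / P = 6 * X ^ 2 * L / P + 2 * X ^ 2 * L / P +
          X ^ 2 * L / P := by ring
      rw [e3]
      linarith
    calc (Real.sqrt (32 * (X : ℝ) ^ 2 * E) + Real.sqrt (E * (4 * (X : ℝ) ^ 2 * L)) +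
          Real.sqrt (E * E)) / (Nat.totient q : ℝ)
        = (Real.sqrt (32 * (X : ℝ) ^ 2 * E) + Real.sqrt (E * (4 * (X : ℝ) ^ 2 * L)) +
          Real.sqrt (E * E)) * (1 / (Nat.totient q : ℝ)) := by ring
      _ ≤ (9 * X ^ 2 * L / P) * (L ^ 2 / q) :=
          mul_le_mul h4 hφi hφi0 (by positivity)
      _ = 9 * X ^ 2 / (q * L ^ (A + 2 + 0)) := by
          have e1 : P = L ^ 3 * L ^ (A + 2 + 0) := by
            rw [hP, ← pow_add]
            congr 1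
            ring
          rw [e1]
          field_simp
      _ ≤ Y := hYb 9 0 (by norm_num) (by norm_num)
  -- the principal character
  obtain ⟨U, hU⟩ : ∃ U : ℂ, U = Tc X q (fun n => Sv X n) θ 1 := ⟨_, rfl⟩
  obtain ⟨V, hV⟩ : ∃ V : ℂ, V = Tc X q (la X) θ 1 := ⟨_, rfl⟩
  obtain ⟨m, hm⟩ : ∃ m : ℝ, m = ((ArithmeticFunction.moebius r : ℤ) : ℝ) / (Nat.totient r : ℝ) :=
    ⟨_, rfl⟩
  rw [← hU, ← hm] at hT1'
  rw [← hV, ← hm] at hT2'
  have hm1 : |m| ≤ 1 := by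
    rw [hm, abs_div]
    have hr0 : (1 : ℝ) ≤ Nat.totient r := by
      have : 1 ≤ Nat.totient r := Nat.totient_pos.2 hr1
      exact_mod_cast this
    rw [div_le_one (by rw [abs_of_nonneg (by positivity)]; linarith),
      abs_of_nonneg (by positivity : (0 : ℝ) ≤ Nat.totient r)]
    have h1 : |((ArithmeticFunction.moebius r : ℤ) : ℝ)| ≤ 1 := by
      have := ArithmeticFunction.abs_moebius_le_one (n := r)
      exact_mod_cast this
    linarith
  have hVle : ‖V‖ ≤ 2 * X := by rw [hV]; exact hTg 1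
  obtain ⟨S1, hS1⟩ : ∃ S1 : ℂ, S1 = Se X (fun _ => 1) β := ⟨_, rfl⟩
  obtain ⟨Ss, hSs⟩ : ∃ Ss : ℂ, Ss = Se X (sd X) β := ⟨_, rfl⟩
  obtain ⟨KK, hKK⟩ : ∃ KK : ℂ, KK = KI X β := ⟨_, rfl⟩
  rw [← hSs] at hT1' hSsd
  rw [← hKK] at hT2' hKI
  rw [← hS1] at hKI
  obtain ⟨nc, hnc⟩ : ∃ nc : ℝ, nc = (Nc q a : ℝ) / (Nat.totient q : ℝ) ^ 2 := ⟨_, rfl⟩
  have hnc0 : 0 ≤ nc := by rw [hnc]; positivity
  have hnc1 : nc ≤ L ^ 2 / q := by
    refine le_trans ?_ hφi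
    rw [hnc, div_le_div_iff₀ (by positivity) hφ]
    have h1 : (Nc q a : ℝ) ≤ Nat.totient q := by exact_mod_cast slm_Nc_le q a
    exact slm_r6 _ _ h1 hφ
  have hMT : MT2 X q r β a = ((m : ℂ) * Ss) * ((m : ℂ) * S1) * (nc : ℂ) := by
    unfold MT2
    rw [hSs, hS1, ← hm, ← hnc]
    push_cast
    ring
  obtain ⟨R, hR⟩ : ∃ R : ℝ, R = X / L ^ (C0 + A + 5) := ⟨_, rfl⟩
  have hR0 : 0 ≤ R := by rw [hR]; positivity
  rw [← hR] at hT1' hT2'
  have hmS : ‖(m : ℂ) * Ss‖ ≤ X * L ^ C0 := by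
    rw [norm_mul, Complex.norm_real, Real.norm_eq_abs]
    calc |m| * ‖Ss‖ ≤ 1 * (X * L ^ C0) := mul_le_mul hm1 hSsd (norm_nonneg _) zero_le_one
      _ = X * L ^ C0 := one_mul _
  have hVm : ‖V - (m : ℂ) * S1‖ ≤ 2 * R := by
    have e1 : V - (m : ℂ) * S1 = (V - (m : ℂ) * KK) - (m : ℂ) * (S1 - KK) := by ring
    have h1 : ‖(m : ℂ) * (S1 - KK)‖ ≤ R := by
      rw [norm_mul, Complex.norm_real, Real.norm_eq_abs]
      have h2 : |m| * ‖S1 - KK‖ ≤ 1 * (3 + 7 * (|β| * X)) :=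
        mul_le_mul hm1 hKI (norm_nonneg _) zero_le_one
      have h3 : |β| * X ≤ L ^ B := by
        rw [le_div_iff₀ hXp] at hβ
        exact hβ
      have h4 : 1 ≤ L ^ B := one_le_pow₀ hL1
      have h5 : 10 * L ^ B ≤ R := by
        rw [hR, le_div_iff₀ (by positivity)]
        calc 10 * L ^ B * L ^ (C0 + A + 5) = 10 * L ^ (B + (C0 + A + 5)) := by
              rw [pow_add L B]; ring
          _ ≤ L * L ^ (B + (C0 + A + 5)) :=
              mul_le_mul_of_nonneg_right (by linarith) (by positivity)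
          _ = L ^ (B + (C0 + A + 5) + 1) := by ring
          _ ≤ L ^ k := hpw (by omega)
          _ ≤ X := hLX
      linarith
    rw [e1]
    refine (norm_sub_le _ _).trans ?_
    linarith
  have hterm3 : ‖U * V * (nc : ℂ) - MT2 X q r β a‖ ≤ Y := by
    rw [hMT]
    have e1 : U * V * (nc : ℂ) - ((m : ℂ) * Ss) * ((m : ℂ) * S1) * (nc : ℂ) =
        ((U - (m : ℂ) * Ss) * V + ((m : ℂ) * Ss) * (V - (m : ℂ) * S1)) * (nc : ℂ) := by ring
    rw [e1, norm_mul, Complex.norm_real, Real.norm_eq_abs, abs_of_nonneg hnc0]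
    have hLC : 1 ≤ L ^ C0 := one_le_pow₀ hL1
    have h1 : ‖(U - (m : ℂ) * Ss) * V + ((m : ℂ) * Ss) * (V - (m : ℂ) * S1)‖ ≤
        4 * (R * X * L ^ C0) := by
      refine (norm_add_le _ _).trans ?_
      rw [norm_mul, norm_mul]
      have h2 : ‖U - (m : ℂ) * Ss‖ * ‖V‖ ≤ R * (2 * X) :=
        mul_le_mul hT1' hVle (norm_nonneg _) hR0
      have h3 : ‖(m : ℂ) * Ss‖ * ‖V - (m : ℂ) * S1‖ ≤ (X * L ^ C0) * (2 * R) :=
        mul_le_mul hmS hVm (norm_nonneg _) (by positivity)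
      have h4 : R * X * 1 ≤ R * X * L ^ C0 := mul_le_mul_of_nonneg_left hLC (by positivity)
      linarith
    calc ‖(U - (m : ℂ) * Ss) * V + ((m : ℂ) * Ss) * (V - (m : ℂ) * S1)‖ * nc
        ≤ 4 * (R * X * L ^ C0) * (L ^ 2 / q) :=
          mul_le_mul h1 hnc1 hnc0 (by positivity)
      _ = 4 * X ^ 2 / (q * L ^ (A + 2 + 1)) := by
          have e1 : L ^ (C0 + A + 5) = L ^ C0 * L ^ 2 * L ^ (A + 2 + 1) := by
            rw [← pow_add, ← pow_add]
            congr 1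
            ring
          rw [hR, e1]
          field_simp
      _ ≤ Y := hYb 4 1 (by norm_num) (by norm_num)
  -- the non-units
  have hXq : (X : ℝ) / q + 1 ≤ 2 * X / q := by
    have : 1 ≤ (X : ℝ) / q := by rw [le_div_iff₀ hqp]; linarith
    have e : 2 * (X : ℝ) / q = X / q + X / q := by ring
    linarith
  have hzp : (0 : ℝ) < (zS X : ℝ) := by exact_mod_cast (by omega : 0 < zS X)
  have hterm4 : 20 * (X / (zS X : ℝ)) * (((X : ℝ) / q + 1) * L) ≤ Y := by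
    calc 20 * (X / (zS X : ℝ)) * (((X : ℝ) / q + 1) * L)
        ≤ 20 * (X / (zS X : ℝ)) * ((2 * X / q) * L) := by
          refine mul_le_mul_of_nonneg_left ?_ (by positivity)
          exact mul_le_mul_of_nonneg_right hXq hLp.le
      _ = 40 * X ^ 2 * L / (q * (zS X : ℝ)) := by
          field_simp
          ring
      _ ≤ Y := by
          rw [hY, div_le_div_iff₀ (by positivity) (by positivity)]
          have h2 : 40 * L ^ (A + 2) ≤ (zS X : ℝ) := by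
            refine le_trans ?_ ((hpw (by omega : A + 3 ≤ k)).trans hLz)
            rw [show A + 3 = (A + 2) + 1 by ring, pow_succ L (A + 2), mul_comm]
            exact mul_le_mul_of_nonneg_left (by linarith) (by positivity)
          calc 40 * (X : ℝ) ^ 2 * L * (q * L ^ (A + 1)) = (X ^ 2 * q) * (40 * L ^ (A + 2)) := by
                ring
            _ ≤ (X ^ 2 * q) * (zS X : ℝ) := mul_le_mul_of_nonneg_left h2 (by positivity)
            _ = X ^ 2 * (q * (zS X : ℝ)) := by ring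
  have hterm5 : Real.log q * (((X : ℝ) / q + 1) * 4) ≤ Y := by
    calc Real.log q * (((X : ℝ) / q + 1) * 4) ≤ L * ((2 * X / q) * 4) := by
          refine mul_le_mul hlogq ?_ (by positivity) hLp.le
          exact mul_le_mul_of_nonneg_right hXq (by norm_num)
      _ = 8 * (X * L) / q := by ring
      _ ≤ Y := by
          rw [hY, div_le_div_iff₀ hqp (by positivity)]
          have h2 : 8 * L ^ (A + 2) ≤ X := by
            refine le_trans ?_ ((hpw (by omega : A + 3 ≤ k)).trans hLX)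
            rw [show A + 3 = (A + 2) + 1 by ring, pow_succ L (A + 2), mul_comm]
            exact mul_le_mul_of_nonneg_left (by linarith) (by positivity)
          calc 8 * ((X : ℝ) * L) * (q * L ^ (A + 1)) = (X * q) * (8 * L ^ (A + 2)) := by ring
            _ ≤ (X * q) * X := mul_le_mul_of_nonneg_left h2 (by positivity)
            _ = X ^ 2 * q := by ring
  -- conclusion
  rw [← hU, ← hV] at hbad
  obtain ⟨S, hS⟩ : ∃ S : ℂ, S = ∑ b ∈ univ.filter (fun b : ZMod q => IsUnit b ∧ IsUnit (a - b)),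
    fz X q (fun n => Sv X n) θ b * fz X q (la X) θ (a - b) := ⟨_, rfl⟩
  rw [← hS] at hunits hbad
  rw [← hnc] at hbad
  have e1 : Fz2 X q (fun n => Sv X n) (la X) θ a - MT2 X q r β a =
      (Fz2 X q (fun n => Sv X n) (la X) θ a - S) + (S - U * V * (nc : ℂ)) +
      (U * V * (nc : ℂ) - MT2 X q r β a) := by ring
  rw [e1]
  have h1 := norm_add_le ((Fz2 X q (fun n => Sv X n) (la X) θ a - S) + (S - U * V * (nc : ℂ)))
    (U * V * (nc : ℂ) - MT2 X q r β a)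
  have h2 := norm_add_le (Fz2 X q (fun n => Sv X n) (la X) θ a - S) (S - U * V * (nc : ℂ))
  linarith

end Pool.MP_dd84fd_nt.T7
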