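import Pool.Agent.Lib.MP_dd84fd_nt.T7.SvBasic
import Pool.Agent.Lib.MP_dd84fd_nt.L2G.DivMom
import Pool.Agent.Lib.MP_dd84fd_nt.E2.Defs
import Pool.Agent.Lib.MP_dd84fd_nt.L2G.ConvSum

/-!
T7-29 SdPrefix: prefix sums of `Sv` and of its smooth density `sd` agree up to `X / log^A X`.
-/

set_option autoImplicit false

namespace Pool.MP_dd84fd_nt.T7

open Finset Pool.MP_67663b_nt.Odd Pool.MP_dd84fd_nt.L2G

private theorem sdp_ev (K N : ℕ) : ∃ X0 : ℕ, ∀ X : ℕ, X0 ≤ X →
    N ≤ wS X ∧ Real.log X ^ K ≤ (wS X : ℝ) ∧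
      Real.sqrt (Real.log X) ≤ Real.log ((wS X : ℕ) : ℝ) ∧ (N : ℝ) ≤ Real.log X ∧
      Real.log X ^ K ≤ (X : ℝ) ^ (19 / 40 : ℝ) := by
  have hlog : Filter.Tendsto (fun X : ℕ => Real.log (X : ℝ)) Filter.atTop Filter.atTop :=
    Real.tendsto_log_atTop.comp tendsto_natCast_atTop_atTop
  have e1 : ∀ᶠ l : ℝ in Filter.atTop, Real.log l ^ 4 ≤ l := by
    have h := (Real.isLittleO_pow_log_id_atTop (n := 4)).bound one_pos
    filter_upwards [h, Filter.eventually_ge_atTop (1 : ℝ)] with l hl hl1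
    have h0 : 0 ≤ Real.log l := Real.log_nonneg hl1
    rw [Real.norm_of_nonneg (by positivity), id, one_mul, Real.norm_of_nonneg (by linarith)] at hl
    exact hl
  have e2 : ∀ᶠ l : ℝ in Filter.atTop, (K : ℝ) * Real.log l ≤ Real.sqrt l := by
    have h1 : (fun x : ℝ => Real.log x) =o[Filter.atTop] fun x : ℝ => x ^ ((1 : ℝ) / 2) :=
      isLittleO_log_rpow_atTop (by norm_num)
    have h := h1.bound (c := 1 / ((K : ℝ) + 1)) (by positivity)
    filter_upwards [h, Filter.eventually_ge_atTop (1 : ℝ)] with l hl hl1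
    have h0 : 0 ≤ Real.log l := Real.log_nonneg hl1
    rw [Real.norm_of_nonneg h0, Real.norm_of_nonneg (by positivity), ← Real.sqrt_eq_rpow] at hl
    have hK : (0 : ℝ) < (K : ℝ) + 1 := by positivity
    rw [one_div, ← div_eq_inv_mul, le_div_iff₀ hK] at hl
    nlinarith
  have e3 : ∀ᶠ x : ℝ in Filter.atTop, Real.log x ^ K ≤ x ^ (19 / 40 : ℝ) := by
    have h1 : (fun x : ℝ => Real.log x ^ (K : ℝ)) =o[Filter.atTop] fun x : ℝ => x ^ ((19 : ℝ) / 40) :=
      isLittleO_log_rpow_rpow_atTop _ (by norm_num)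
    filter_upwards [h1.bound one_pos, Filter.eventually_ge_atTop (1 : ℝ)] with x hx hx1
    have h4 : 0 ≤ Real.log x := Real.log_nonneg hx1
    rw [Real.rpow_natCast, Real.norm_of_nonneg (by positivity), one_mul,
      Real.norm_of_nonneg (by positivity)] at hx
    exact hx
  have ev := ((hlog.eventually e1).and (hlog.eventually e2)).and
    ((tendsto_natCast_atTop_atTop.eventually e3).and
      (hlog.eventually_ge_atTop ((N : ℝ) ^ 2 + 3)))
  obtain ⟨X0, hX0⟩ := Filter.eventually_atTop.1 ev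
  refine ⟨X0, fun X hX => ?_⟩
  obtain ⟨⟨h1, h2⟩, h3, h4⟩ := hX0 X hX
  set l := Real.log (X : ℝ) with hl
  have hN0 : (0 : ℝ) ≤ (N : ℝ) := Nat.cast_nonneg _
  have hl3 : 3 ≤ l := by nlinarith
  have hl0 : 0 < l := by linarith
  have hll : 0 < Real.log l := Real.log_pos (by linarith)
  have hsq : Real.sqrt l ≤ l / Real.log l ^ 2 := by
    rw [le_div_iff₀ (by positivity)]
    have h5 : Real.log l ^ 2 ≤ Real.sqrt l := by
      apply Real.le_sqrt_of_sq_le
      calc (Real.log l ^ 2) ^ 2 = Real.log l ^ 4 := by ring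
        _ ≤ l := h1
    calc Real.sqrt l * Real.log l ^ 2 ≤ Real.sqrt l * Real.sqrt l :=
          mul_le_mul_of_nonneg_left h5 (Real.sqrt_nonneg _)
      _ = l := Real.mul_self_sqrt hl0.le
  have hw : Real.exp (l / Real.log l ^ 2) ≤ (wS X : ℝ) := by
    unfold wS
    exact Nat.le_ceil _
  have hw2 : Real.exp (Real.sqrt l) ≤ (wS X : ℝ) := (Real.exp_le_exp.2 hsq).trans hw
  have hsN : (N : ℝ) ≤ Real.sqrt l := by
    apply Real.le_sqrt_of_sq_le
    linarith
  refine ⟨?_, ?_, ?_, ?_, h3⟩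
  · have h6 : (N : ℝ) ≤ (wS X : ℝ) := by
      have := Real.add_one_le_exp (Real.sqrt l)
      linarith
    exact_mod_cast h6
  · refine le_trans ?_ hw2
    calc l ^ K = Real.exp (K * Real.log l) := by
          rw [mul_comm, Real.exp_mul, Real.exp_log hl0, Real.rpow_natCast]
      _ ≤ Real.exp (Real.sqrt l) := Real.exp_le_exp.2 h2
  · rw [Real.le_log_iff_exp_le (lt_of_lt_of_le (Real.exp_pos _) hw2)]
    exact hw2
  · nlinarith

private theorem sdp_block (g : ℕ → ℝ) (k w v : ℕ) (hk : 1 ≤ k) (hwv : w ≤ v) :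
    ∑ n ∈ Ico (w * k) (v * k), g (n / k) = k * ∑ m ∈ Ico w v, g m := by
  induction v, hwv using Nat.le_induction with
  | base => simp
  | succ v hv ih =>
    rw [← Finset.sum_Ico_consecutive _ (Nat.mul_le_mul_right k hv)
      (Nat.mul_le_mul_right k (Nat.le_succ v)), ih, Finset.sum_Ico_succ_top hv, mul_add]
    congr 1
    have h : ∀ n ∈ Ico (v * k) ((v + 1) * k), g (n / k) = g v := by
      intro n hn
      rw [Finset.mem_Ico] at hn
      rw [Nat.div_eq_of_lt_le hn.1 hn.2]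
    rw [Finset.sum_congr rfl h, Finset.sum_const, Nat.card_Ico, nsmul_eq_mul]
    congr 2
    have : (v + 1) * k - v * k = k := by
      rw [Nat.add_mul, one_mul]
      omega
    rw [this]

/-- the count in the smooth model against the sum of `1 / log m` -/
private theorem sdp_Q (M k w z : ℕ) (hk : 1 ≤ k) (hw : 3 ≤ w) (hz : w < z) (hM : w ≤ M / k) :
    ∑ n ∈ (Icc 1 M).filter (fun n => w * k ≤ n ∧ n < z * k),
        1 / ((k : ℝ) * Real.log ((n : ℝ) / k)) ≤
      ∑ m ∈ Ico w (min (M / k) (z - 1) + 1), 1 / Real.log (m : ℝ) ∧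
    ∑ m ∈ Ico w (min (M / k) (z - 1) + 1), 1 / Real.log (m : ℝ) - 1 ≤
      ∑ n ∈ (Icc 1 M).filter (fun n => w * k ≤ n ∧ n < z * k),
        1 / ((k : ℝ) * Real.log ((n : ℝ) / k)) := by
  set v := min (M / k) (z - 1) with hv
  have hwv : w ≤ v := by
    rw [hv]
    exact le_min hM (by omega)
  have hk0 : (0 : ℝ) < (k : ℝ) := by exact_mod_cast hk
  have hdM : M < (M / k + 1) * k := by
    rw [mul_comm]
    exact Nat.lt_mul_div_succ M (by omega)
  have hnn : ∀ n : ℕ, w * k ≤ n → w ≤ n / k := fun n hn => (Nat.le_div_iff_mul_le (by omega)).2 hn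
  have hw0 : (3 : ℝ) ≤ (w : ℝ) := by exact_mod_cast hw
  have hcl : ∀ n : ℕ, ((n / k : ℕ) : ℝ) ≤ (n : ℝ) / k := fun n => Nat.cast_div_le
  have hcu : ∀ n : ℕ, (n : ℝ) / k ≤ ((n / k : ℕ) : ℝ) + 1 := by
    intro n
    rw [div_le_iff₀ hk0]
    have h : n < k * (n / k + 1) := Nat.lt_mul_div_succ n (by omega)
    have h' : (n : ℝ) ≤ ((k * (n / k + 1) : ℕ) : ℝ) := by exact_mod_cast h.le
    rw [Nat.cast_mul, mul_comm, Nat.cast_add, Nat.cast_one] at h'
    exact h'
  have hlw : 1 ≤ Real.log (w : ℝ) := by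
    rw [Real.le_log_iff_exp_le (by linarith)]
    linarith [Real.exp_one_lt_d9]
  have hlogn : ∀ n : ℕ, w * k ≤ n → 1 ≤ Real.log ((n / k : ℕ) : ℝ) := by
    intro n hn
    have h1 : (w : ℝ) ≤ ((n / k : ℕ) : ℝ) := by exact_mod_cast hnn n hn
    exact hlw.trans (Real.log_le_log (by linarith) h1)
  have hlogn2 : ∀ n : ℕ, w * k ≤ n → Real.log ((n / k : ℕ) : ℝ) ≤ Real.log ((n : ℝ) / k) := by
    intro n hn
    have h1 : (w : ℝ) ≤ ((n / k : ℕ) : ℝ) := by exact_mod_cast hnn n hn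
    exact Real.log_le_log (by linarith) (hcl n)
  have hlogn3 : ∀ n : ℕ, w * k ≤ n →
      Real.log ((n : ℝ) / k) ≤ Real.log (((n / k : ℕ) : ℝ) + 1) := by
    intro n hn
    have h1 : (w : ℝ) ≤ ((n / k : ℕ) : ℝ) := by exact_mod_cast hnn n hn
    have h2 := hcl n
    exact Real.log_le_log (by linarith) (hcu n)
  constructor
  · calc ∑ n ∈ (Icc 1 M).filter (fun n => w * k ≤ n ∧ n < z * k),
          1 / ((k : ℝ) * Real.log ((n : ℝ) / k))
        ≤ ∑ n ∈ (Icc 1 M).filter (fun n => w * k ≤ n ∧ n < z * k),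
          1 / (k : ℝ) * (1 / Real.log ((n / k : ℕ) : ℝ)) := by
          refine Finset.sum_le_sum fun n hn => ?_
          rw [Finset.mem_filter] at hn
          have h1 := hlogn n hn.2.1
          have h2 := hlogn2 n hn.2.1
          rw [one_div_mul_one_div]
          apply one_div_le_one_div_of_le (by positivity)
          exact mul_le_mul_of_nonneg_left h2 hk0.le
      _ ≤ ∑ n ∈ Ico (w * k) ((v + 1) * k), 1 / (k : ℝ) * (1 / Real.log ((n / k : ℕ) : ℝ)) := by
          apply Finset.sum_le_sum_of_subset_of_nonneg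
          · intro n hn
            rw [Finset.mem_filter, Finset.mem_Icc] at hn
            rw [Finset.mem_Ico]
            refine ⟨hn.2.1, ?_⟩
            rcases le_total (M / k) (z - 1) with h | h
            · rw [hv, min_eq_left h]
              omega
            · rw [hv, min_eq_right h]
              have h3 : z - 1 + 1 = z := by omega
              rw [h3]
              exact hn.2.2
          · intro n hn _
            rw [Finset.mem_Ico] at hn
            have h1 := hlogn n hn.1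
            positivity
      _ = ∑ m ∈ Ico w (v + 1), 1 / Real.log (m : ℝ) := by
          rw [← Finset.mul_sum, sdp_block (fun m => 1 / Real.log (m : ℝ)) k w (v + 1) hk (by omega),
            ← mul_assoc, one_div_mul_cancel hk0.ne', one_mul]
  · calc ∑ m ∈ Ico w (v + 1), 1 / Real.log (m : ℝ) - 1
        ≤ ∑ m ∈ Ico w v, 1 / Real.log ((m : ℝ) + 1) := by
          rw [Finset.sum_eq_sum_Ico_succ_bot (by omega)]
          have h1 : ∑ m ∈ Ico w v, 1 / Real.log ((m : ℝ) + 1) =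
              ∑ m ∈ Ico (w + 1) (v + 1), 1 / Real.log (m : ℝ) := by
            rw [← Finset.sum_Ico_add' (fun m : ℕ => 1 / Real.log (m : ℝ)) w v 1]
            refine Finset.sum_congr rfl fun m _ => ?_
            push_cast
            ring
          have h2 : 1 / Real.log (w : ℝ) ≤ 1 := by
            rw [div_le_one (by linarith)]
            exact hlw
          linarith
      _ = ∑ n ∈ Ico (w * k) (v * k), 1 / (k : ℝ) * (1 / Real.log (((n / k : ℕ) : ℝ) + 1)) := by
          rw [← Finset.mul_sum, sdp_block (fun m => 1 / Real.log ((m : ℝ) + 1)) k w v hk hwv,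
            ← mul_assoc, one_div_mul_cancel hk0.ne', one_mul]
      _ ≤ ∑ n ∈ Ico (w * k) (v * k), 1 / ((k : ℝ) * Real.log ((n : ℝ) / k)) := by
          refine Finset.sum_le_sum fun n hn => ?_
          rw [Finset.mem_Ico] at hn
          have h1 := hlogn n hn.1
          have h2 := hlogn2 n hn.1
          have h3 := hlogn3 n hn.1
          have h7 : 0 < Real.log ((n : ℝ) / k) := by linarith
          rw [one_div_mul_one_div]
          apply one_div_le_one_div_of_le (by positivity)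
          exact mul_le_mul_of_nonneg_left h3 hk0.le
      _ ≤ ∑ n ∈ (Icc 1 M).filter (fun n => w * k ≤ n ∧ n < z * k),
          1 / ((k : ℝ) * Real.log ((n : ℝ) / k)) := by
          apply Finset.sum_le_sum_of_subset_of_nonneg
          · intro n hn
            rw [Finset.mem_Ico] at hn
            rw [Finset.mem_filter, Finset.mem_Icc]
            have h4 : v * k ≤ M := by
              calc v * k ≤ (M / k) * k := Nat.mul_le_mul_right k (min_le_left _ _)
                _ ≤ M := Nat.div_mul_le_self M k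
            have h5 : v * k ≤ z * k := Nat.mul_le_mul_right k ((min_le_right _ _).trans (by omega))
            have h6 : 1 ≤ w * k := Nat.mul_pos (by omega) hk
            exact ⟨⟨by omega, by omega⟩, hn.1, by omega⟩
          · intro n hn _
            rw [Finset.mem_filter] at hn
            have h1 := hlogn n hn.2.1
            have h2 := hlogn2 n hn.2.1
            have h7 : 0 < Real.log ((n : ℝ) / k) := by linarith
            positivity

/-- the number of primes in `[w, z)` up to `u` -/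
private theorem sdp_P (u w z : ℕ) (hw : 3 ≤ w) (hz : w < z) (hu : w ≤ u) (E : ℝ)
    (hE : ∀ t : ℕ, t ≤ min u (z - 1) →
      |(((Icc 1 t).filter (fun n => n.Prime ∧ n ≡ 0 [MOD 1])).card : ℝ) -
        E2.Li t / (Nat.totient 1 : ℝ)| ≤ E) :
    |∑ p ∈ Icc 1 u, (if p.Prime ∧ w ≤ p ∧ p < z then (1 : ℝ) else 0) -
      ∑ m ∈ Ico w (min u (z - 1) + 1), 1 / Real.log (m : ℝ)| ≤ 2 * E := by
  set v := min u (z - 1) with hv
  have hwv : w ≤ v := by
    rw [hv]
    exact le_min hu (by omega)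
  have h1 := hE v le_rfl
  have h2 := hE (w - 1) (by omega)
  have hm : ∀ t : ℕ, (Icc 1 t).filter (fun n => n.Prime ∧ n ≡ 0 [MOD 1]) =
      (Icc 1 t).filter (fun n => n.Prime) := by
    intro t
    refine Finset.filter_congr fun n _ => ?_
    exact ⟨fun h => h.1, fun h => ⟨h, Nat.modEq_one⟩⟩
  rw [hm, Nat.totient_one, Nat.cast_one, div_one] at h1 h2
  have h3 : ∑ p ∈ Icc 1 u, (if p.Prime ∧ w ≤ p ∧ p < z then (1 : ℝ) else 0) =
      (((Icc 1 v).filter (fun n => n.Prime)).card : ℝ) -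
        (((Icc 1 (w - 1)).filter (fun n => n.Prime)).card : ℝ) := by
    rw [← Finset.sum_filter, Finset.sum_const, nsmul_eq_mul, mul_one, eq_sub_iff_add_eq]
    rw [← Nat.cast_add, ← Finset.card_union_of_disjoint]
    · congr 2
      ext p
      simp only [Finset.mem_union, Finset.mem_filter, Finset.mem_Icc]
      constructor
      · rintro (⟨⟨h4, h5⟩, h6, h7, h8⟩ | ⟨⟨h4, h5⟩, h6⟩)
        · refine ⟨⟨h4, ?_⟩, h6⟩
          rw [hv]
          exact le_min h5 (by omega)
        · exact ⟨⟨h4, by omega⟩, h6⟩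
      · rintro ⟨⟨h4, h5⟩, h6⟩
        rw [hv] at h5
        have h7 := le_min_iff.1 h5
        by_cases h8 : w ≤ p
        · exact Or.inl ⟨⟨h4, h7.1⟩, h6, h8, by omega⟩
        · exact Or.inr ⟨⟨h4, by omega⟩, h6⟩
    · rw [Finset.disjoint_left]
      intro p hp hq
      simp only [Finset.mem_filter, Finset.mem_Icc] at hp hq
      omega
  have h4 : ∑ m ∈ Ico w (v + 1), 1 / Real.log (m : ℝ) = E2.Li v - E2.Li (w - 1) := by
    unfold E2.Li
    rw [eq_sub_iff_add_eq, add_comm]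
    have h5 : Icc 2 (w - 1) = Ico 2 w := by
      ext x
      simp only [Finset.mem_Icc, Finset.mem_Ico]
      omega
    have h6 : Icc 2 v = Ico 2 (v + 1) := by
      ext x
      simp only [Finset.mem_Icc, Finset.mem_Ico]
      omega
    rw [h5, h6, Finset.sum_Ico_consecutive _ (by omega) (by omega)]
  rw [h3, h4]
  rw [abs_le] at h1 h2 ⊢
  constructor <;> linarith [h1.1, h1.2, h2.1, h2.2]

/-- the total mass of `kS * lS` -/
private theorem sdp_f (X : ℕ) (hX : 1 ≤ X) : ∑ m ∈ Icc 1 X, |(kS X * lS X) m| ≤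
    (X : ℝ) ^ (21 / 40 : ℝ) := by
  have hX0 : (0 : ℝ) < X := by exact_mod_cast hX
  have hXn : (1 : ℝ) ≤ X := by exact_mod_cast hX
  set k' : ArithmeticFunction ℝ := ⟨fun n => |kS X n|, by simp⟩ with hk'
  set l' : ArithmeticFunction ℝ := ⟨fun n => |lS X n|, by simp⟩ with hl'
  have h1 : ∀ m, |(kS X * lS X) m| ≤ (k' * l') m := by
    intro m
    rw [ArithmeticFunction.mul_apply, ArithmeticFunction.mul_apply]
    refine (Finset.abs_sum_le_sum_abs _ _).trans (le_of_eq ?_)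
    refine Finset.sum_congr rfl fun p _ => ?_
    rw [abs_mul]
    rfl
  have hIcc : Icc 1 X = Ioc 0 X := rfl
  have hk0 : ∀ n, 0 ≤ k' n := fun n => abs_nonneg _
  have hl0 : ∀ n, 0 ≤ l' n := fun n => abs_nonneg _
  have hk1 : ∑ n ∈ Ioc 0 X, k' n ≤ (X : ℝ) ^ (1 / 2 : ℝ) := by
    have h2 : ∀ n ∈ Ioc 0 X, k' n ≤ if n ∈ Ioc 0 (Nat.sqrt X) then (1 : ℝ) else 0 := by
      intro n hn
      rw [Finset.mem_Ioc] at hn
      by_cases h3 : n ^ 2 ≤ X
      · rw [if_pos]
        · exact (coef_abs X n).1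
        · rw [Finset.mem_Ioc]
          refine ⟨hn.1, Nat.le_sqrt.2 ?_⟩
          rw [← sq]
          exact h3
      · rw [if_neg]
        · have h4 : kS X n = 0 := by
            have h5 : n ≠ 1 := by
              rintro rfl
              exact h3 (by simpa using hX)
            show (if n = 1 then (1 : ℝ) else if n.Prime ∧ zS X ≤ n ∧ n ^ 2 ≤ X then -1 else 0) = 0
            rw [if_neg h5, if_neg (fun h => h3 h.2.2)]
          show |kS X n| ≤ 0
          rw [h4, abs_zero]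
        · intro h5
          rw [Finset.mem_Ioc, Nat.le_sqrt, ← sq] at h5
          exact h3 h5.2
    refine (Finset.sum_le_sum h2).trans ?_
    rw [← Finset.sum_filter, Finset.sum_const, nsmul_eq_mul, mul_one]
    have h6 : (((Ioc 0 X).filter (fun n => n ∈ Ioc 0 (Nat.sqrt X))).card : ℝ) ≤ (Nat.sqrt X : ℝ) := by
      have h7 : ((Ioc 0 X).filter (fun n => n ∈ Ioc 0 (Nat.sqrt X))).card ≤
          (Ioc 0 (Nat.sqrt X)).card := by
        apply Finset.card_le_card
        intro n hn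
        exact (Finset.mem_filter.1 hn).2
      rw [Nat.card_Ioc] at h7
      exact_mod_cast h7
    refine h6.trans ?_
    rw [← Real.sqrt_eq_rpow]
    apply Real.le_sqrt_of_sq_le
    have h8 : Nat.sqrt X ^ 2 ≤ X := Nat.sqrt_le' X
    exact_mod_cast h8
  have hl1 : ∑ n ∈ Ioc 0 X, l' n ≤ (X : ℝ) ^ (1 / 40 : ℝ) := by
    have h2 : ∀ n ∈ Ioc 0 X, l' n ≤
        if n ∈ Ioc 0 ⌊(X : ℝ) ^ (1 / 40 : ℝ)⌋₊ then (1 : ℝ) else 0 := by
      intro n hn
      rw [Finset.mem_Ioc] at hn
      by_cases h3 : (n : ℝ) ≤ (X : ℝ) ^ (1 / 40 : ℝ)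
      · rw [if_pos]
        · exact (coef_abs X n).2.1
        · rw [Finset.mem_Ioc]
          exact ⟨hn.1, Nat.le_floor h3⟩
      · rw [if_neg]
        · have h4 : lS X n = 0 := by
            show (if n ≠ 0 ∧ (n : ℝ) ≤ (X : ℝ) ^ (1 / 40 : ℝ) ∧ ∀ p ∈ n.primeFactors, p < wS X then
              ((ArithmeticFunction.moebius n : ℤ) : ℝ) else 0) = 0
            rw [if_neg (fun h => h3 h.2.1)]
          show |lS X n| ≤ 0
          rw [h4, abs_zero]
        · intro h5
          rw [Finset.mem_Ioc] at h5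
          exact h3 ((Nat.le_floor_iff (by positivity)).1 h5.2)
    refine (Finset.sum_le_sum h2).trans ?_
    rw [← Finset.sum_filter, Finset.sum_const, nsmul_eq_mul, mul_one]
    have h7 : ((Ioc 0 X).filter (fun n => n ∈ Ioc 0 ⌊(X : ℝ) ^ (1 / 40 : ℝ)⌋₊)).card ≤
        (Ioc 0 ⌊(X : ℝ) ^ (1 / 40 : ℝ)⌋₊).card := by
      apply Finset.card_le_card
      intro n hn
      exact (Finset.mem_filter.1 hn).2
    rw [Nat.card_Ioc, Nat.sub_zero] at h7
    have h8 : (((Ioc 0 X).filter (fun n => n ∈ Ioc 0 ⌊(X : ℝ) ^ (1 / 40 : ℝ)⌋₊)).card : ℝ) ≤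
        (⌊(X : ℝ) ^ (1 / 40 : ℝ)⌋₊ : ℝ) := by exact_mod_cast h7
    exact h8.trans (Nat.floor_le (by positivity))
  calc ∑ m ∈ Icc 1 X, |(kS X * lS X) m| ≤ ∑ m ∈ Ioc 0 X, (k' * l') m := by
        rw [hIcc]
        exact Finset.sum_le_sum fun m _ => h1 m
    _ = ∑ n ∈ Ioc 0 X, k' n * ∑ m ∈ Ioc 0 (X / n), l' m :=
        ArithmeticFunction.sum_Ioc_mul_eq_sum_sum k' l' X
    _ ≤ ∑ n ∈ Ioc 0 X, k' n * (X : ℝ) ^ (1 / 40 : ℝ) := by
        refine Finset.sum_le_sum fun n _ => mul_le_mul_of_nonneg_left ?_ (hk0 n)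
        refine le_trans ?_ hl1
        apply Finset.sum_le_sum_of_subset_of_nonneg
        · exact Finset.Ioc_subset_Ioc_right (Nat.div_le_self X n)
        · intro m _ _
          exact hl0 m
    _ ≤ (X : ℝ) ^ (1 / 2 : ℝ) * (X : ℝ) ^ (1 / 40 : ℝ) := by
        rw [← Finset.sum_mul]
        exact mul_le_mul_of_nonneg_right hk1 (by positivity)
    _ = (X : ℝ) ^ (21 / 40 : ℝ) := by
        rw [← Real.rpow_add hX0]
        norm_num

private theorem sdp_conv (f g : ArithmeticFunction ℝ) (M X : ℕ) (hM : M ≤ X) :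
    ∑ n ∈ Icc 1 M, (f * g) n = ∑ k ∈ Icc 1 X, f k * ∑ m ∈ Icc 1 (M / k), g m := by
  have h := ArithmeticFunction.sum_Ioc_mul_eq_sum_sum f g M
  have h1 : ∀ t : ℕ, Icc 1 t = Ioc 0 t := fun t => rfl
  simp only [h1]
  rw [h]
  apply Finset.sum_subset (Finset.Ioc_subset_Ioc_right hM)
  intro k hk hk2
  rw [Finset.mem_Ioc] at hk hk2
  have h3 : M / k = 0 := Nat.div_eq_of_lt (by omega)
  rw [h3]
  simp

private theorem sdp_er (X M : ℕ) (hM : M ≤ X) (er : ℕ → ℝ) (L : ℝ) (hL : 0 < L) (A : ℕ)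
    (h : ∑ n ∈ Icc 1 X, er n ^ 2 ≤ X / L ^ (2 * A + 2)) :
    |∑ n ∈ Icc 1 M, er n| ≤ X / L ^ (A + 1) := by
  have h1 : |∑ n ∈ Icc 1 M, er n| ≤ ∑ n ∈ Icc 1 X, |er n| := by
    refine (Finset.abs_sum_le_sum_abs _ _).trans ?_
    apply Finset.sum_le_sum_of_subset_of_nonneg
    · exact Finset.Icc_subset_Icc_right hM
    · intro n _ _
      exact abs_nonneg _
  have h2 : (∑ n ∈ Icc 1 X, |er n|) ^ 2 ≤ (X / L ^ (A + 1)) ^ 2 := by
    refine (sq_sum_le_card_mul_sum_sq).trans ?_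
    rw [Nat.card_Icc, Nat.add_sub_cancel]
    have h3 : ∑ n ∈ Icc 1 X, |er n| ^ 2 = ∑ n ∈ Icc 1 X, er n ^ 2 :=
      Finset.sum_congr rfl fun n _ => sq_abs _
    rw [h3]
    calc (X : ℝ) * ∑ n ∈ Icc 1 X, er n ^ 2 ≤ X * (X / L ^ (2 * A + 2)) :=
          mul_le_mul_of_nonneg_left h (Nat.cast_nonneg _)
      _ = (X / L ^ (A + 1)) ^ 2 := by
          rw [div_pow, ← pow_mul]
          have : (A + 1) * 2 = 2 * A + 2 := by ring
          rw [this]
          ring
  have h5 : 0 ≤ ∑ n ∈ Icc 1 X, |er n| := Finset.sum_nonneg fun n _ => abs_nonneg _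
  exact h1.trans ((sq_le_sq₀ h5 (by positivity)).1 h2)

private theorem sdp_main (X M : ℕ) (hM : M ≤ X) (er : ℕ → ℝ)
    (her : ∀ n, 1 ≤ n → n ≤ X →
      Sv X n = (kS X * lS X * ze) n - (aS X * (kS X * gS X)) n + er n) :
    |∑ n ∈ Icc 1 M, Sv X n - ∑ n ∈ Icc 1 M, sd X n| ≤
      ∑ k ∈ Icc 1 X, |(kS X * lS X) k| +
      ∑ k ∈ Icc 1 X, |(kS X * gS X) k| *
        |∑ p ∈ Icc 1 (M / k), (if p.Prime ∧ wS X ≤ p ∧ p < zS X then (1 : ℝ) else 0) -
          ∑ n ∈ (Icc 1 M).filter (fun n => wS X * k ≤ n ∧ n < zS X * k),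
            1 / ((k : ℝ) * Real.log ((n : ℝ) / k))| + |∑ n ∈ Icc 1 M, er n| := by
  have s1 : ∑ n ∈ Icc 1 M, Sv X n = ∑ n ∈ Icc 1 M, (kS X * lS X * ze) n -
      ∑ n ∈ Icc 1 M, (aS X * (kS X * gS X)) n + ∑ n ∈ Icc 1 M, er n := by
    rw [← Finset.sum_sub_distrib, ← Finset.sum_add_distrib]
    refine Finset.sum_congr rfl fun n hn => ?_
    rw [Finset.mem_Icc] at hn
    exact her n hn.1 (hn.2.trans hM)
  have s2 : ∑ n ∈ Icc 1 M, (kS X * lS X * ze) n =
      ∑ k ∈ Icc 1 X, (kS X * lS X) k * ((M / k : ℕ) : ℝ) := by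
    rw [sdp_conv _ _ M X hM]
    refine Finset.sum_congr rfl fun k _ => ?_
    congr 1
    have h1 : ∀ m ∈ Icc 1 (M / k), ze m = 1 := by
      intro m hm
      rw [Finset.mem_Icc] at hm
      unfold ze
      rw [ArithmeticFunction.natCoe_apply, ArithmeticFunction.zeta_apply, if_neg (by omega),
        Nat.cast_one]
    rw [Finset.sum_congr rfl h1, Finset.sum_const, Nat.card_Icc, Nat.add_sub_cancel, nsmul_eq_mul,
      mul_one]
  have s3 : ∑ n ∈ Icc 1 M, (aS X * (kS X * gS X)) n = ∑ k ∈ Icc 1 X, (kS X * gS X) k *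
      ∑ p ∈ Icc 1 (M / k), (if p.Prime ∧ wS X ≤ p ∧ p < zS X then (1 : ℝ) else 0) := by
    rw [mul_comm (aS X), sdp_conv _ _ M X hM]
    rfl
  have s4 : ∑ n ∈ Icc 1 M, sd X n = ∑ k ∈ Icc 1 X, (kS X * lS X) k * ((M : ℝ) / k) -
      ∑ k ∈ Icc 1 X, (kS X * gS X) k *
        ∑ n ∈ (Icc 1 M).filter (fun n => wS X * k ≤ n ∧ n < zS X * k),
            1 / ((k : ℝ) * Real.log ((n : ℝ) / k)) := by
    unfold sd
    rw [Finset.sum_sub_distrib, Finset.sum_const, Nat.card_Icc, Nat.add_sub_cancel, nsmul_eq_mul,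
      Finset.mul_sum, Finset.sum_comm]
    congr 1
    · refine Finset.sum_congr rfl fun k _ => ?_
      ring
    · refine Finset.sum_congr rfl fun k _ => ?_
      rw [Finset.mul_sum, Finset.sum_filter]
      refine Finset.sum_congr rfl fun n _ => ?_
      split_ifs
      · rw [mul_one_div]
      · rfl
  have s5 : ∑ n ∈ Icc 1 M, Sv X n - ∑ n ∈ Icc 1 M, sd X n =
      ∑ k ∈ Icc 1 X, (kS X * lS X) k * (((M / k : ℕ) : ℝ) - (M : ℝ) / k) -
      ∑ k ∈ Icc 1 X, (kS X * gS X) k *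
        (∑ p ∈ Icc 1 (M / k), (if p.Prime ∧ wS X ≤ p ∧ p < zS X then (1 : ℝ) else 0) -
          ∑ n ∈ (Icc 1 M).filter (fun n => wS X * k ≤ n ∧ n < zS X * k),
            1 / ((k : ℝ) * Real.log ((n : ℝ) / k))) + ∑ n ∈ Icc 1 M, er n := by
    rw [s1, s2, s3, s4]
    simp only [mul_sub, Finset.sum_sub_distrib]
    ring
  rw [s5]
  refine (abs_add_le _ _).trans ?_
  refine add_le_add ?_ le_rfl
  refine (abs_sub _ _).trans ?_
  refine add_le_add ?_ ?_
  · refine (Finset.abs_sum_le_sum_abs _ _).trans ?_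
    refine Finset.sum_le_sum fun k hk => ?_
    rw [Finset.mem_Icc] at hk
    rw [abs_mul]
    refine mul_le_of_le_one_right (abs_nonneg _) ?_
    have hk0 : (0 : ℝ) < (k : ℝ) := by exact_mod_cast hk.1
    have h1 : ((M / k : ℕ) : ℝ) ≤ (M : ℝ) / k := Nat.cast_div_le
    have h2 : (M : ℝ) / k ≤ ((M / k : ℕ) : ℝ) + 1 := by
      rw [div_le_iff₀ hk0]
      have h : M < k * (M / k + 1) := Nat.lt_mul_div_succ M (by omega)
      have h' : (M : ℝ) ≤ ((k * (M / k + 1) : ℕ) : ℝ) := by exact_mod_cast h.le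
      rw [Nat.cast_mul, mul_comm, Nat.cast_add, Nat.cast_one] at h'
      exact h'
    rw [abs_le]
    constructor <;> linarith
  · refine (Finset.abs_sum_le_sum_abs _ _).trans ?_
    refine Finset.sum_le_sum fun k hk => ?_
    rw [abs_mul]

theorem sd_prefix_core
    (h_dec : ∀ (A : ℕ), ∃ X0 : ℕ, ∀ X : ℕ, X0 ≤ X → ∃ er : ℕ → ℝ,
    (∀ n, 1 ≤ n → n ≤ X →
      Sv X n = (kS X * lS X * ze) n - (aS X * (kS X * gS X)) n + er n) ∧
    ∑ n ∈ Icc 1 X, er n ^ 2 ≤ X / Real.log X ^ A)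
    (h_pi : ∀ (A B : ℕ), ∃ X0 : ℕ, ∀ X : ℕ, X0 ≤ X → ∀ r c : ℕ, 1 ≤ r →
    (r : ℝ) ≤ (Real.log X) ^ B → Nat.Coprime c r → ∀ t : ℕ, t ≤ X →
    |(((Icc 1 t).filter (fun n => n.Prime ∧ n ≡ c [MOD r])).card : ℝ) -
      E2.Li t / (Nat.totient r : ℝ)| ≤ X / (Real.log X) ^ A)
    (A : ℕ) : ∃ X0 : ℕ, ∀ X : ℕ, X0 ≤ X → ∀ M : ℕ, M ≤ X →
    |∑ n ∈ Icc 1 M, Sv X n - ∑ n ∈ Icc 1 M, sd X n| ≤ X / Real.log X ^ A := by
  obtain ⟨C, hC⟩ := div_mom 1
  obtain ⟨X1, hX1⟩ := h_dec (2 * A + 2)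
  obtain ⟨X2, hX2⟩ := h_pi (2 * (2 * C + A + 2)) 0
  obtain ⟨X3, hX3⟩ := sdp_ev (2 * C + A + 2) (X2 + 6)
  refine ⟨X1 + X3 + 3, fun X hX M hM => ?_⟩
  obtain ⟨er, her1, her2⟩ := hX1 X (by omega)
  obtain ⟨hw1, hw2, hw3, hL6, hL7⟩ := hX3 X (by omega)
  have hXpos : (0 : ℝ) < X := by
    have : 0 < X := by omega
    exact_mod_cast this
  set L := Real.log (X : ℝ) with hL
  have hL6' : (6 : ℝ) ≤ L := by
    push_cast at hL6
    have : (0 : ℝ) ≤ (X2 : ℝ) := Nat.cast_nonneg _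
    linarith
  have hL0 : 0 < L := by linarith
  have hwpos : (0 : ℝ) < (wS X : ℝ) := by
    have : 0 < wS X := by omega
    exact_mod_cast this
  have hmain := sdp_main X M hM er her1
  have b3 := sdp_er X M hM er L hL0 A her2
  have b1 : ∑ k ∈ Icc 1 X, |(kS X * lS X) k| ≤ X / L ^ (A + 1) := by
    refine (sdp_f X (by omega)).trans ?_
    rw [le_div_iff₀ (by positivity)]
    calc (X : ℝ) ^ (21 / 40 : ℝ) * L ^ (A + 1) ≤ (X : ℝ) ^ (21 / 40 : ℝ) * L ^ (2 * C + A + 2) := by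
          apply mul_le_mul_of_nonneg_left _ (by positivity)
          exact pow_le_pow_right₀ (by linarith) (by omega)
      _ ≤ (X : ℝ) ^ (21 / 40 : ℝ) * (X : ℝ) ^ (19 / 40 : ℝ) :=
          mul_le_mul_of_nonneg_left hL7 (by positivity)
      _ = X := by
          rw [← Real.rpow_add hXpos]
          norm_num
  have hc : ∀ k, |(kS X * gS X) k| ≤ (k.divisors.card : ℝ) := fun k =>
    conv_abs _ _ (fun n => (coef_abs X n).1) (fun n => (coef_abs X n).2.2.2) k
  have hk : ∀ k ∈ Icc 1 X, |(kS X * gS X) k| *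
        |∑ p ∈ Icc 1 (M / k), (if p.Prime ∧ wS X ≤ p ∧ p < zS X then (1 : ℝ) else 0) -
          ∑ n ∈ (Icc 1 M).filter (fun n => wS X * k ≤ n ∧ n < zS X * k),
            1 / ((k : ℝ) * Real.log ((n : ℝ) / k))| ≤
      (if k ∈ Icc 1 (X / wS X) then (k.divisors.card : ℝ) else 0) +
        (k.divisors.card : ℝ) / k * (2 * (X / L ^ (2 * C + A + 2))) := by
    intro k hk
    rw [Finset.mem_Icc] at hk
    have hk0 : (0 : ℝ) < (k : ℝ) := by exact_mod_cast hk.1
    have hr0 : 0 ≤ (k.divisors.card : ℝ) / k * (2 * (X / L ^ (2 * C + A + 2))) := by positivity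
    have hr1 : 0 ≤ (if k ∈ Icc 1 (X / wS X) then (k.divisors.card : ℝ) else 0) := by
      split_ifs <;> positivity
    by_cases hcase : wS X < zS X ∧ wS X ≤ M / k
    · obtain ⟨hz, hu⟩ := hcase
      have hwk : wS X * k ≤ M := (Nat.le_div_iff_mul_le (by omega)).1 hu
      have hkm : k ∈ Icc 1 (X / wS X) := by
        rw [Finset.mem_Icc]
        refine ⟨hk.1, (Nat.le_div_iff_mul_le (by omega)).2 ?_⟩
        rw [mul_comm]
        exact hwk.trans hM
      rw [if_pos hkm]
      obtain ⟨q1, q2⟩ := sdp_Q M k (wS X) (zS X) hk.1 (by omega) hz hu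
      set v := min (M / k) (zS X - 1) with hv
      have hwv : wS X ≤ v := by
        rw [hv]
        exact le_min hu (by omega)
      have hvM : (v : ℝ) ≤ (X : ℝ) / k := by
        calc (v : ℝ) ≤ ((M / k : ℕ) : ℝ) := by
              have : v ≤ M / k := min_le_left _ _
              exact_mod_cast this
          _ ≤ (M : ℝ) / k := Nat.cast_div_le
          _ ≤ (X : ℝ) / k := by
              have : (M : ℝ) ≤ X := by exact_mod_cast hM
              gcongr
      have hlv : Real.sqrt L ≤ Real.log (v : ℝ) := by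
        refine hw3.trans (Real.log_le_log hwpos ?_)
        exact_mod_cast hwv
      have hE : (v : ℝ) / Real.log (v : ℝ) ^ (2 * (2 * C + A + 2)) ≤
          X / L ^ (2 * C + A + 2) / k := by
        have h1 : L ^ (2 * C + A + 2) ≤ Real.log (v : ℝ) ^ (2 * (2 * C + A + 2)) := by
          calc L ^ (2 * C + A + 2) = (Real.sqrt L ^ 2) ^ (2 * C + A + 2) := by
                rw [Real.sq_sqrt hL0.le]
            _ = Real.sqrt L ^ (2 * (2 * C + A + 2)) := by rw [← pow_mul]
            _ ≤ Real.log (v : ℝ) ^ (2 * (2 * C + A + 2)) :=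
                pow_le_pow_left₀ (Real.sqrt_nonneg _) hlv _
        calc (v : ℝ) / Real.log (v : ℝ) ^ (2 * (2 * C + A + 2)) ≤
            (v : ℝ) / L ^ (2 * C + A + 2) :=
              div_le_div_of_nonneg_left (Nat.cast_nonneg _) (by positivity) h1
          _ ≤ ((X : ℝ) / k) / L ^ (2 * C + A + 2) :=
              div_le_div_of_nonneg_right hvM (by positivity)
          _ = X / L ^ (2 * C + A + 2) / k := by rw [div_div, div_div, mul_comm]
      have hP := sdp_P (M / k) (wS X) (zS X) (by omega) hz hu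
        (X / L ^ (2 * C + A + 2) / k) (fun t ht => by
          refine (hX2 v (by omega) 1 0 le_rfl (by simp) (by simp) t ht).trans hE)
      rw [← hv] at hP
      have hPQ : |∑ p ∈ Icc 1 (M / k), (if p.Prime ∧ wS X ≤ p ∧ p < zS X then (1 : ℝ) else 0) -
          ∑ n ∈ (Icc 1 M).filter (fun n => wS X * k ≤ n ∧ n < zS X * k),
            1 / ((k : ℝ) * Real.log ((n : ℝ) / k))| ≤
          1 + 2 * (X / L ^ (2 * C + A + 2) / k) := by
        have hnn : 0 ≤ X / L ^ (2 * C + A + 2) / k := by positivity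
        rw [abs_le] at hP ⊢
        constructor <;> linarith [hP.1, hP.2]
      calc _ ≤ (k.divisors.card : ℝ) * (1 + 2 * (X / L ^ (2 * C + A + 2) / k)) :=
            mul_le_mul (hc k) hPQ (abs_nonneg _) (Nat.cast_nonneg _)
        _ = _ := by ring
    · have hP0 : ∑ p ∈ Icc 1 (M / k), (if p.Prime ∧ wS X ≤ p ∧ p < zS X then (1 : ℝ) else 0) = 0 := by
        apply Finset.sum_eq_zero
        intro p hp
        rw [Finset.mem_Icc] at hp
        rw [if_neg]
        rintro ⟨_, h2, h3⟩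
        exact hcase ⟨by omega, by omega⟩
      have hQ0 : ∑ n ∈ (Icc 1 M).filter (fun n => wS X * k ≤ n ∧ n < zS X * k),
            1 / ((k : ℝ) * Real.log ((n : ℝ) / k)) = 0 := by
        apply Finset.sum_eq_zero
        intro n hn
        rw [Finset.mem_filter, Finset.mem_Icc] at hn
        exfalso
        apply hcase
        refine ⟨?_, (Nat.le_div_iff_mul_le (by omega)).2 (hn.2.1.trans hn.1.2)⟩
        have h1 := lt_of_le_of_lt hn.2.1 hn.2.2
        exact Nat.lt_of_mul_lt_mul_right h1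
      rw [hP0, hQ0, sub_zero, abs_zero, mul_zero]
      linarith
  have b2 : ∑ k ∈ Icc 1 X, |(kS X * gS X) k| *
        |∑ p ∈ Icc 1 (M / k), (if p.Prime ∧ wS X ≤ p ∧ p < zS X then (1 : ℝ) else 0) -
          ∑ n ∈ (Icc 1 M).filter (fun n => wS X * k ≤ n ∧ n < zS X * k),
            1 / ((k : ℝ) * Real.log ((n : ℝ) / k))| ≤ 3 * (X / L ^ (A + 2)) := by
    refine (Finset.sum_le_sum hk).trans ?_
    rw [Finset.sum_add_distrib, ← Finset.sum_mul]
    have hLL : 1 + L ≤ L ^ 2 := by nlinarith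
    have hLC : (1 + L) ^ C ≤ L ^ (2 * C) := by
      rw [pow_mul]
      exact pow_le_pow_left₀ (by linarith) hLL C
    have c1 : ∑ k ∈ Icc 1 X, (if k ∈ Icc 1 (X / wS X) then (k.divisors.card : ℝ) else 0) ≤
        X / L ^ (A + 2) := by
      have h1 : ∑ k ∈ Icc 1 X, (if k ∈ Icc 1 (X / wS X) then (k.divisors.card : ℝ) else 0) =
          ∑ k ∈ Icc 1 (X / wS X), (k.divisors.card : ℝ) ^ 1 := by
        rw [← Finset.sum_filter]
        refine Finset.sum_congr ?_ fun k _ => (pow_one _).symm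
        ext k
        simp only [Finset.mem_filter, Finset.mem_Icc]
        constructor
        · exact fun h => h.2
        · intro h
          exact ⟨⟨h.1, h.2.trans (Nat.div_le_self _ _)⟩, h⟩
      rw [h1]
      rcases Nat.eq_zero_or_pos (X / wS X) with h0 | h0
      · rw [h0]
        simp only [Finset.Icc_eq_empty_of_lt (Nat.zero_lt_one), Finset.sum_empty]
        positivity
      · refine ((hC (X / wS X) h0).1).trans ?_
        have h2 : Real.log ((X / wS X : ℕ) : ℝ) ≤ L := by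
          apply Real.log_le_log (by exact_mod_cast h0)
          exact_mod_cast Nat.div_le_self X (wS X)
        have h2' : 0 ≤ Real.log ((X / wS X : ℕ) : ℝ) := Real.log_nonneg (by exact_mod_cast h0)
        have h3 : ((X / wS X : ℕ) : ℝ) ≤ X / L ^ (2 * C + A + 2) := by
          refine (Nat.cast_div_le).trans ?_
          exact div_le_div_of_nonneg_left hXpos.le (by positivity) hw2
        calc ((X / wS X : ℕ) : ℝ) * (1 + Real.log ((X / wS X : ℕ) : ℝ)) ^ C
            ≤ (X / L ^ (2 * C + A + 2)) * L ^ (2 * C) := by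
              apply mul_le_mul h3 _ (by positivity) (by positivity)
              exact (pow_le_pow_left₀ (by linarith) (by linarith) C).trans hLC
          _ = X / L ^ (A + 2) := by
              have : L ^ (2 * C + A + 2) = L ^ (2 * C) * L ^ (A + 2) := by
                rw [← pow_add]
                ring_nf
              rw [this]
              field_simp
    have c2 : (∑ k ∈ Icc 1 X, (k.divisors.card : ℝ) / k) * (2 * (X / L ^ (2 * C + A + 2))) ≤
        2 * (X / L ^ (A + 2)) := by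
      have h1 := (hC X (by omega)).2
      simp only [pow_one] at h1
      calc (∑ k ∈ Icc 1 X, (k.divisors.card : ℝ) / k) * (2 * (X / L ^ (2 * C + A + 2)))
          ≤ L ^ (2 * C) * (2 * (X / L ^ (2 * C + A + 2))) := by
            apply mul_le_mul_of_nonneg_right (h1.trans hLC) (by positivity)
        _ = 2 * (X / L ^ (A + 2)) := by
            have : L ^ (2 * C + A + 2) = L ^ (2 * C) * L ^ (A + 2) := by
              rw [← pow_add]
              ring_nf
            rw [this]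
            field_simp
    linarith
  have e1 : (X : ℝ) / L ^ (A + 1) = X / L ^ A / L := by rw [pow_succ, div_div]
  have e2 : (X : ℝ) / L ^ (A + 2) = X / L ^ A / L / L := by
    rw [pow_succ, pow_succ, div_div, div_div, mul_assoc]
  have e0 : 0 ≤ (X : ℝ) / L ^ A := by positivity
  have e3 : X / L ^ A / L ≤ X / L ^ A / 6 :=
    div_le_div_of_nonneg_left e0 (by norm_num) hL6'
  have e4 : X / L ^ A / L / L ≤ X / L ^ A / 6 / 6 := by
    refine (div_le_div_of_nonneg_right e3 hL0.le).trans ?_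
    exact div_le_div_of_nonneg_left (by positivity) (by norm_num) hL6'
  rw [e1] at b1 b3
  rw [e2] at b2
  linarith

end Pool.MP_dd84fd_nt.T7
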