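import Pool.Agent.Lib.MP_dd84fd_nt.T7.SnuLowerCore
import Pool.Agent.Lib.MP_dd84fd_nt.T7.NuConv45
import Pool.Agent.Lib.MP_dd84fd_nt.T7.VarL
import Pool.Agent.Lib.MP_dd84fd_nt.T7.SdBasic
import Pool.Agent.Lib.MP_dd84fd_nt.T7.SdPrefix
import Pool.Agent.Lib.MP_dd84fd_nt.T7.SvBasic
import Pool.Agent.Lib.MP_dd84fd_nt.T7.Density
import Pool.Agent.Lib.MP_dd84fd_nt.L2G.SingSer
import Pool.Agent.Lib.MP_dd84fd_nt.En.Sing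

set_option autoImplicit false

namespace Pool.MP_dd84fd_nt.T7

open Finset Pool.MP_67663b_nt.Odd Pool.MP_dd84fd_nt.L2G

theorem snu_lower : ∃ X0 : ℕ, ∀ X : ℕ, X0 ≤ X → ∀ (q : ℕ) [NeZero q],
    (q : ℝ) ≤ (X : ℝ) ^ (4 / 5 : ℝ) → ∀ n : ℕ, X ≤ 2 * n → n ≤ X → Even n →
    (6 / 100 : ℝ) * (Pool.MP_dd84fd_nt.En.SS n * n / Real.log X) ≤
      cv X (snu X q) (nu X (Rm X) q) n :=
  snu_lower_core sd_prefix density 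

end Pool.MP_dd84fd_nt.T7
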