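import Pool.Agent.Lib.MP_dd84fd_nt.T7.NuConv45
import Pool.Agent.Lib.MP_dd84fd_nt.T7.VarL
import Pool.Agent.Lib.MP_dd84fd_nt.T7.SdBasic
import Pool.Agent.Lib.MP_dd84fd_nt.T7.SvBasic
import Pool.Agent.Lib.MP_dd84fd_nt.L2G.SingSer
import Pool.Agent.Lib.MP_dd84fd_nt.En.Sing

/-!
T7-58 SnuLower. For n <= X: cv X snu nu n = sum_{1<=m<=n-1} sd(m) nu(m) nu(n-m). kappa = q Nc/phi^2 SR. abel_var on [1,n-1] with d(m) = nu(m)nu(n-m) - kappa (nu_conv_prefix: E = X^(9/10)), w = sd (sd_bound: W+V <= 2L^C): cv = kappa sum_{m<n} sd(m) + O(2 X^(9/10) L^C).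
sing_ser: |kappa - SS n| <= X^(-1/200), SS n >= 2 C2 > 0 (SS_ge, C2_pos in En/Sing): kappa >= 0.99 SS n for X large.
sum_{m<n} sd(m) >= sum_{m<=n-1} Sv(m) - X/L^2 (h_pre, A = 2) >= sum_{m<=n} Sv(m) - 4 - X/L^2 (sv_abs) >= 0.07 n/L - 4 - 2n/L^2 >= 0.065 n/L (h_den with y = n: X <= 2n). 0.99 * 0.065 > 0.064; error <= 0.004 * SS n * n/L.
-/

set_option autoImplicit false

namespace Pool.MP_dd84fd_nt.T7

open Finset Pool.MP_67663b_nt.Odd Pool.MP_dd84fd_nt.L2G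

private theorem snl_cv (X : ℕ) (f g : ℕ → ℝ) (n : ℕ) (hn : n ≤ X) :
    cv X f g n = ∑ m ∈ Icc 1 (n - 1), f m * g (n - m) := by
  unfold cv
  have h1 : ∀ m ∈ Icc 1 X, ∑ k ∈ Icc 1 X, (if m + k = n then f m * g k else 0) =
      if m ∈ Icc 1 (n - 1) then f m * g (n - m) else 0 := by
    intro m hm
    rw [mem_Icc] at hm
    by_cases h : m ∈ Icc 1 (n - 1)
    · rw [if_pos h]
      rw [mem_Icc] at h
      rw [Finset.sum_eq_single (n - m)]
      · rw [if_pos (by omega)]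
      · intro k hk hne
        rw [mem_Icc] at hk
        rw [if_neg (by omega)]
      · intro h2
        exact absurd (mem_Icc.mpr ⟨by omega, by omega⟩) h2
    · rw [if_neg h]
      rw [mem_Icc] at h
      refine Finset.sum_eq_zero fun k hk => ?_
      rw [mem_Icc] at hk
      rw [if_neg (by omega)]
  rw [Finset.sum_congr rfl h1, ← Finset.sum_filter]
  refine Finset.sum_congr ?_ fun _ _ => rfl
  ext m
  simp only [mem_filter, mem_Icc]
  omega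

private theorem snl_ev (C : ℕ) (c : ℝ) (hc : 0 < c) : ∃ X0 : ℕ, ∀ X : ℕ, X0 ≤ X →
    3 ≤ X ∧ 2000 ≤ Real.log X ∧ 8000 * Real.log X ≤ X ∧ (X : ℝ) ^ (-(1 / 200) : ℝ) ≤ c / 100 ∧
    (X : ℝ) ^ (9 / 10 : ℝ) * (Real.log X ^ C + Real.log X ^ C) ≤
      (7 / 1000) * (c * (X / 2) / Real.log X) := by
  obtain ⟨X1, h1⟩ := Filter.eventually_atTop.mp (ma_log_pow 1 (1 / 2 : ℝ) (by norm_num) 8000)
  obtain ⟨X2, h2⟩ := Filter.eventually_atTop.mp
    (ma_log_pow (C + 1) (1 / 10 : ℝ) (by norm_num) (4000 / (7 * c)))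
  obtain ⟨X3, h3⟩ := Filter.eventually_atTop.mp (ma_log_pow 0 (1 / 200 : ℝ) (by norm_num) (100 / c))
  have htend : Filter.Tendsto (fun X : ℕ => Real.log (X : ℝ)) Filter.atTop Filter.atTop :=
    Real.tendsto_log_atTop.comp tendsto_natCast_atTop_atTop
  obtain ⟨X4, h4⟩ := Filter.eventually_atTop.1
    (htend.eventually (Filter.eventually_ge_atTop (2000 : ℝ)))
  refine ⟨X1 + X2 + X3 + X4 + 3, fun X hX => ?_⟩
  have hL := h4 X (by omega)
  have hXr : (1 : ℝ) ≤ X := by exact_mod_cast (by omega : 1 ≤ X)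
  have hX0 : (0 : ℝ) < X := by linarith
  have hL0 : 0 < Real.log X := by linarith
  refine ⟨by omega, hL, ?_, ?_, ?_⟩
  · have e1 := h1 X (by omega)
    rw [pow_one] at e1
    refine e1.trans ?_
    calc (X : ℝ) ^ (1 / 2 : ℝ) ≤ (X : ℝ) ^ (1 : ℝ) :=
          Real.rpow_le_rpow_of_exponent_le hXr (by norm_num)
      _ = X := Real.rpow_one _
  · have e1 := h3 X (by omega)
    rw [pow_zero, mul_one] at e1
    rw [Real.rpow_neg hX0.le]
    have e2 : 0 < 100 / c := by positivity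
    calc ((X : ℝ) ^ (1 / 200 : ℝ))⁻¹ ≤ (100 / c)⁻¹ := inv_anti₀ e2 e1
      _ = c / 100 := by rw [inv_div]
  · have e1 := h2 X (by omega)
    have e3 : (X : ℝ) = (X : ℝ) ^ (9 / 10 : ℝ) * (X : ℝ) ^ (1 / 10 : ℝ) := by
      rw [← Real.rpow_add hX0]
      norm_num
    have e4 : (7 / 1000) * (c * ((X : ℝ) / 2) / Real.log X) =
        (X : ℝ) ^ (9 / 10 : ℝ) * ((7 * c / 2000) * (X : ℝ) ^ (1 / 10 : ℝ) / Real.log X) := by
      have e6 : (X : ℝ) / 2 = ((X : ℝ) ^ (9 / 10 : ℝ) * (X : ℝ) ^ (1 / 10 : ℝ)) / 2 := by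
        rw [← e3]
      rw [e6]
      ring
    rw [e4]
    refine mul_le_mul_of_nonneg_left ?_ (by positivity)
    rw [le_div_iff₀ hL0]
    have e5 : (7 * c / 2000) * ((4000 / (7 * c)) * Real.log X ^ (C + 1)) ≤
        (7 * c / 2000) * (X : ℝ) ^ (1 / 10 : ℝ) := mul_le_mul_of_nonneg_left e1 (by positivity)
    refine le_trans (le_of_eq ?_) e5
    rw [pow_succ]
    field_simp
    ring

theorem snu_lower_core
    (h_pre : ∀ (A : ℕ), ∃ X0 : ℕ, ∀ X : ℕ, X0 ≤ X → ∀ M : ℕ, M ≤ X →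
    |∑ n ∈ Icc 1 M, Sv X n - ∑ n ∈ Icc 1 M, sd X n| ≤ X / Real.log X ^ A)
    (h_den : ∃ X0 : ℕ, ∀ X : ℕ, X0 ≤ X → ∀ y : ℕ, X ≤ 2 * y → y ≤ X →
    (7 / 100 : ℝ) * (y / Real.log X) ≤ ∑ n ∈ Icc 1 y, Sv X n)
    : ∃ X0 : ℕ, ∀ X : ℕ, X0 ≤ X → ∀ (q : ℕ) [NeZero q],
    (q : ℝ) ≤ (X : ℝ) ^ (4 / 5 : ℝ) → ∀ n : ℕ, X ≤ 2 * n → n ≤ X → Even n →
    (6 / 100 : ℝ) * (Pool.MP_dd84fd_nt.En.SS n * n / Real.log X) ≤
      cv X (snu X q) (nu X (Rm X) q) n := by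
  obtain ⟨C, X1, hsd⟩ := sd_bound
  obtain ⟨X2, hpre⟩ := h_pre 2
  obtain ⟨X3, hden⟩ := h_den
  obtain ⟨X4, hconv⟩ := nu_conv_prefix
  obtain ⟨X5, hss⟩ := sing_ser
  have hC2 := Pool.MP_dd84fd_nt.En.C2_pos
  obtain ⟨X6, hev⟩ := snl_ev C (2 * Pool.MP_dd84fd_nt.En.C2) (by positivity)
  refine ⟨X1 + X2 + X3 + X4 + X5 + X6, fun X hX q _ hq n hXn hnX he => ?_⟩
  obtain ⟨hX3, hL, hLX, hsmall, herr⟩ := hev X (by omega)
  obtain ⟨hsd1, hsd2⟩ := hsd X (by omega)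
  have hp := hpre X (by omega) (n - 1) (by omega)
  have hd := hden X (by omega) n hXn hnX
  have hXr : (1 : ℝ) ≤ X := by exact_mod_cast (by omega : 1 ≤ X)
  have hX0 : (0 : ℝ) < X := by linarith
  have hL0 : 0 < Real.log X := by linarith
  have hqX : q ≤ X := by
    have h9 : (q : ℝ) ≤ X := hq.trans (by
      calc (X : ℝ) ^ (4 / 5 : ℝ) ≤ (X : ℝ) ^ (1 : ℝ) :=
            Real.rpow_le_rpow_of_exponent_le hXr (by norm_num)
        _ = X := Real.rpow_one _)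
    exact_mod_cast h9
  have hs := hss X (by omega) q hqX n (by omega) hnX he
  obtain ⟨κ, hκ⟩ : ∃ κ : ℝ, κ = (q : ℝ) * (Nc q (n : ZMod q) : ℝ) / (Nat.totient q : ℝ) ^ 2 *
    SR (Rm X) q n := ⟨_, rfl⟩
  rw [← hκ] at hs
  have hSS := Pool.MP_dd84fd_nt.En.SS_ge n
  obtain ⟨T, hT⟩ : ∃ T : ℝ, T = Pool.MP_dd84fd_nt.En.SS n := ⟨_, rfl⟩
  rw [← hT] at hs hSS ⊢
  obtain ⟨c, hc⟩ : ∃ c : ℝ, c = 2 * Pool.MP_dd84fd_nt.En.C2 := ⟨_, rfl⟩
  rw [← hc] at hSS hsmall herr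
  have hc0 : 0 < c := by rw [hc]; positivity
  have hT0 : 0 < T := by linarith
  have hnR : (X : ℝ) ≤ 2 * n := by exact_mod_cast hXn
  have hn0 : (0 : ℝ) < n := by linarith
  -- Abel summation
  have hab := abel_var (n - 1) (by omega)
    (fun m => ((nu X (Rm X) q m * nu X (Rm X) q (n - m) - κ : ℝ) : ℂ))
    (fun m => ((sd X m : ℝ) : ℂ)) ((X : ℝ) ^ (9 / 10 : ℝ)) (Real.log X ^ C) (Real.log X ^ C)
    (by
      intro M hM
      have h1 := hconv X (by omega) q hq n M hnX (by omega)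
      rw [← hκ] at h1
      rw [← Complex.ofReal_sum, Complex.norm_real, Real.norm_eq_abs, Finset.sum_sub_distrib,
        Finset.sum_const, Nat.card_Icc, Nat.add_sub_cancel, nsmul_eq_mul, mul_comm (M : ℝ) κ]
      exact h1)
    (by
      intro m _
      rw [Complex.norm_real, Real.norm_eq_abs]
      exact hsd1 m)
    (by
      refine le_trans ?_ hsd2
      have h1 : ∀ m ∈ Ico 1 (n - 1), ‖((sd X (m + 1) : ℝ) : ℂ) - ((sd X m : ℝ) : ℂ)‖ =
          |sd X (m + 1) - sd X m| := by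
        intro m _
        rw [← Complex.ofReal_sub, Complex.norm_real, Real.norm_eq_abs]
      rw [Finset.sum_congr rfl h1]
      exact Finset.sum_le_sum_of_subset_of_nonneg
        (Finset.Ico_subset_Ico_right (by omega)) fun _ _ _ => abs_nonneg _)
  have hcvm : cv X (snu X q) (nu X (Rm X) q) n - κ * ∑ m ∈ Icc 1 (n - 1), sd X m =
      ∑ m ∈ Icc 1 (n - 1), (nu X (Rm X) q m * nu X (Rm X) q (n - m) - κ) * sd X m := by
    rw [snl_cv X _ _ n hnX, Finset.mul_sum, ← Finset.sum_sub_distrib]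
    refine Finset.sum_congr rfl fun m _ => ?_
    unfold snu
    ring
  have habs : |cv X (snu X q) (nu X (Rm X) q) n - κ * ∑ m ∈ Icc 1 (n - 1), sd X m| ≤
      (X : ℝ) ^ (9 / 10 : ℝ) * (Real.log X ^ C + Real.log X ^ C) := by
    rw [hcvm]
    have h1 : ∑ m ∈ Icc 1 (n - 1), ((nu X (Rm X) q m * nu X (Rm X) q (n - m) - κ : ℝ) : ℂ) *
        ((sd X m : ℝ) : ℂ) =
        ((∑ m ∈ Icc 1 (n - 1), (nu X (Rm X) q m * nu X (Rm X) q (n - m) - κ) * sd X m : ℝ) : ℂ) := by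
      push_cast
      rfl
    have hab' := hab
    rw [h1, Complex.norm_real, Real.norm_eq_abs] at hab'
    exact hab'
  -- the sum of the h_den
  have hSv : ∑ m ∈ Icc 1 n, Sv X m = ∑ m ∈ Icc 1 (n - 1), Sv X m + Sv X n := by
    have e : n = (n - 1) + 1 := by omega
    conv_lhs => rw [e, Finset.sum_Icc_succ_top (by omega)]
    rw [← e]
  have h4 := sv_abs X n hnX
  have hD : (68 / 1000 : ℝ) * (n / Real.log X) ≤ ∑ m ∈ Icc 1 (n - 1), sd X m := by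
    have a1 := abs_le.mp hp
    have a2 := abs_le.mp h4
    have a3 : (4 : ℝ) ≤ (1 / 1000) * (n / Real.log X) := by
      rw [mul_div_assoc', le_div_iff₀ hL0]
      linarith
    have a4 : (X : ℝ) / Real.log X ^ 2 ≤ (1 / 1000) * (n / Real.log X) := by
      rw [pow_two, ← div_div, mul_div_assoc' (1 / 1000 : ℝ)]
      refine div_le_div_of_nonneg_right ?_ hL0.le
      rw [div_le_iff₀ hL0]
      nlinarith
    linarith [a1.2, a2.2]
  have hκT : (99 / 100) * T ≤ κ := by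
    have a1 := (abs_le.mp hs).1
    linarith
  have hκ0 : 0 ≤ κ := by linarith
  have hq0 : 0 ≤ (n : ℝ) / Real.log X := by positivity
  have hprod : (99 / 100 * T) * ((68 / 1000 : ℝ) * (n / Real.log X)) ≤
      κ * ∑ m ∈ Icc 1 (n - 1), sd X m :=
    mul_le_mul hκT hD (by positivity) hκ0
  have herr2 : (7 / 1000) * (c * ((X : ℝ) / 2) / Real.log X) ≤
      (7 / 1000) * (T * (n / Real.log X)) := by
    refine mul_le_mul_of_nonneg_left ?_ (by norm_num)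
    have e7 : T * ((n : ℝ) / Real.log X) = T * n / Real.log X := by ring
    rw [e7]
    refine div_le_div_of_nonneg_right ?_ hL0.le
    exact mul_le_mul hSS (by linarith) (by positivity) hT0.le
  have a5 := (abs_le.mp habs).1
  have e6 : T * n / Real.log X = T * (n / Real.log X) := by ring
  rw [e6]
  have hTn : 0 ≤ T * (n / Real.log X) := by positivity
  nlinarith

end Pool.MP_dd84fd_nt.T7
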