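import Pool.Agent.Lib.MP_dd84fd_nt.T7.SvDecomp
import Pool.Agent.Lib.MP_dd84fd_nt.E2.PiSW
import Pool.Agent.Lib.MP_dd84fd_nt.L2G.ConvSum
import Pool.Agent.Lib.MP_dd84fd_nt.L2G.PV

/-!
T7-28 SvChar0. m <= L^D, chi != 1 mod m, M <= X. Use sv_decomp (A' = 2A+2): sum |er| <= (X sum er^2)^(1/2) <= X/L^(A+1).
Type I: sum_f (kS*lS)(f) chi(f) sum_{k <= M/f} chi(k), inner sum <= m in absolute value, (kS*lS)(f) = 0 for f > X^(1/2+1/40) and |.| <= tau: <= L^D X^(0.53).
Type II: sum_k (kS*gS)(k) chi(k) sum_{p in [w,z), p <= M/k} chi(p). For t >= w-1 (t <= X): |sum_{p<=t} chi(p)| <= m * t/L^A'': pi_sw (E2/PiSW) at X := t, with A := 2A'', B := 2D: m <= L^D <= (log t)^(2D) because log t >= L/LL^2 - 1 >= sqrt L;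
 sum over c mod m coprime of chi(c) (Li t/phi(m) + O(t/(log t)^(2A''))) = O(m t/L^A''). Total <= sum_{k <= X/w} tau(k) * 4 m (M/k)/L^A'' <= X L^(C+D-A'').
-/

set_option autoImplicit false

namespace Pool.MP_dd84fd_nt.T7

open Finset Pool.MP_67663b_nt.Odd Pool.MP_dd84fd_nt.L2G

private theorem SvChar0_ev (K : ℕ) (s : ℝ) (hs : 0 < s) :
    ∀ᶠ x : ℝ in Filter.atTop, Real.log x ^ K ≤ x ^ s := by
  have h1 : (fun x : ℝ => Real.log x ^ (K : ℝ)) =o[Filter.atTop] fun x : ℝ => x ^ s :=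
    isLittleO_log_rpow_rpow_atTop _ hs
  have h2 := (h1.bound one_pos)
  filter_upwards [h2, Filter.eventually_ge_atTop (1 : ℝ)] with x hx hx1
  have h4 : 0 ≤ Real.log x := Real.log_nonneg hx1
  rw [Real.rpow_natCast, Real.norm_of_nonneg (by positivity), one_mul,
    Real.norm_of_nonneg (by positivity)] at hx
  exact hx

private theorem SvChar0_loglim :
    Filter.Tendsto (fun X : ℕ => Real.log (X : ℝ)) Filter.atTop Filter.atTop :=
  Real.tendsto_log_atTop.comp tendsto_natCast_atTop_atTop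

/-- numbers `≥ wS X - 1` have large logarithms -/
private theorem SvChar0_logt : ∀ᶠ X : ℕ in Filter.atTop, ∀ t : ℕ, wS X ≤ t + 1 →
    Real.sqrt (Real.log X) ≤ Real.log t := by
  have h1 : ∀ᶠ y : ℝ in Filter.atTop, Real.sqrt y + 1 ≤ y / Real.log y ^ 2 := by
    filter_upwards [SvChar0_ev 3 (1 / 2) (by norm_num), Filter.eventually_ge_atTop (Real.exp 2)]
      with y hy hy2
    have hy0 : 0 < y := (Real.exp_pos 2).trans_le hy2
    have hl : 2 ≤ Real.log y := by
      rw [← Real.log_exp 2]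
      exact Real.log_le_log (Real.exp_pos 2) hy2
    have hs : Real.sqrt y = y ^ (1 / 2 : ℝ) := Real.sqrt_eq_rpow y
    have h3 : 2 * Real.log y ^ 2 ≤ Real.sqrt y := by
      rw [hs]
      refine le_trans ?_ hy
      rw [pow_succ (Real.log y) 2]
      nlinarith [sq_nonneg (Real.log y)]
    have h4 : 1 ≤ Real.sqrt y := by nlinarith
    rw [le_div_iff₀ (by positivity)]
    calc (Real.sqrt y + 1) * Real.log y ^ 2 ≤ (2 * Real.sqrt y) * Real.log y ^ 2 := by
          apply mul_le_mul_of_nonneg_right _ (by positivity)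
          linarith
      _ = Real.sqrt y * (2 * Real.log y ^ 2) := by ring
      _ ≤ Real.sqrt y * Real.sqrt y := mul_le_mul_of_nonneg_left h3 (Real.sqrt_nonneg _)
      _ = y := Real.mul_self_sqrt hy0.le
  filter_upwards [SvChar0_loglim.eventually h1] with X hX t ht
  obtain ⟨y, hy⟩ : ∃ y : ℝ, y = Real.log X / Real.log (Real.log X) ^ 2 := ⟨_, rfl⟩
  rw [← hy] at hX
  have h2 : Real.exp y ≤ t + 1 := by
    have h3 : Real.exp y ≤ (wS X : ℝ) := by
      unfold wS
      rw [← hy]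
      exact Nat.le_ceil _
    have h4 : ((wS X : ℕ) : ℝ) ≤ ((t + 1 : ℕ) : ℝ) := by exact_mod_cast ht
    push_cast at h4
    linarith
  have h0 := Real.sqrt_nonneg (Real.log X)
  have h5 : Real.exp (y - 1) ≤ t := by
    have h6 : Real.exp y = Real.exp (y - 1) * Real.exp 1 := by
      rw [← Real.exp_add]
      congr 1
      ring
    have h7 : (2 : ℝ) ≤ Real.exp 1 := by
      have := Real.add_one_le_exp (1 : ℝ)
      linarith
    have h8 : 1 ≤ Real.exp (y - 1) := Real.one_le_exp (by linarith)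
    nlinarith
  have h9 : y - 1 ≤ Real.log t := by
    rw [Real.le_log_iff_exp_le ((Real.exp_pos _).trans_le h5)]
    exact h5
  linarith

/-- primes against a character of small modulus -/
private theorem SvChar0_prime (A D : ℕ) : ∃ X0 : ℕ, ∀ X : ℕ, X0 ≤ X → ∀ (m : ℕ) [NeZero m],
    (m : ℝ) ≤ Real.log X ^ D → ∀ χ : DirichletCharacter ℂ m, χ ≠ 1 → ∀ t : ℕ, wS X ≤ t + 1 →
    ‖∑ p ∈ (Icc 1 t).filter Nat.Prime, χ p‖ ≤ Real.log X ^ D * t / Real.log X ^ A := by
  classical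
  obtain ⟨X1, hX1⟩ := Pool.MP_dd84fd_nt.E2.pi_sw (2 * A) (2 * D)
  obtain ⟨X0, hX0⟩ := Filter.eventually_atTop.1 (SvChar0_logt.and
    (SvChar0_loglim.eventually_ge_atTop ((X1 : ℝ) ^ 2 + 1)))
  refine ⟨X0, fun X hX m _ hm χ hχ t ht => ?_⟩
  obtain ⟨h1, h2⟩ := hX0 X hX
  have h3 := h1 t ht
  have hL0 : 1 ≤ Real.log X := by nlinarith [sq_nonneg (X1 : ℝ)]
  have hLpos : 0 < Real.log X := by linarith
  have hs1 : (X1 : ℝ) ≤ Real.sqrt (Real.log X) := by
    apply Real.le_sqrt_of_sq_le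
    linarith
  have hs0 : 1 ≤ Real.sqrt (Real.log X) := by
    rw [Real.one_le_sqrt]
    exact hL0
  have ht0 : (0 : ℝ) < t := by
    rcases Nat.eq_zero_or_pos t with h | h
    · rw [h] at h3
      simp only [Nat.cast_zero, Real.log_zero] at h3
      linarith
    · exact_mod_cast h
  have hlt : Real.log t ≤ t := by
    have := Real.log_le_sub_one_of_pos ht0
    linarith
  have htX1 : X1 ≤ t := by
    have : (X1 : ℝ) ≤ t := by linarith
    exact_mod_cast this
  have hlogt0 : 0 < Real.log t := by linarith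
  have hsq : Real.log X ≤ Real.log t ^ 2 := by
    calc Real.log X = Real.sqrt (Real.log X) ^ 2 := (Real.sq_sqrt hLpos.le).symm
      _ ≤ Real.log t ^ 2 := pow_le_pow_left₀ (Real.sqrt_nonneg _) h3 2
  have hpow : ∀ k : ℕ, Real.log X ^ k ≤ Real.log t ^ (2 * k) := by
    intro k
    rw [pow_mul]
    exact pow_le_pow_left₀ hLpos.le hsq k
  have hm1 : 1 ≤ m := NeZero.one_le
  have hpi : ∀ c : ℕ, Nat.Coprime c m →
      |(((Icc 1 t).filter (fun n => n.Prime ∧ n ≡ c [MOD m])).card : ℝ) -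
        Pool.MP_dd84fd_nt.E2.Li t / (Nat.totient m : ℝ)| ≤ t / Real.log X ^ A := by
    intro c hc
    refine (hX1 t htX1 m c hm1 (hm.trans (hpow D)) hc t le_rfl).trans ?_
    apply div_le_div_of_nonneg_left ht0.le (by positivity) (hpow A)
  -- group by residue classes
  have hsum0 : ∑ c : ZMod m, χ c = 0 := MulChar.sum_eq_zero_of_ne_one hχ
  have hgrp : ∑ p ∈ (Icc 1 t).filter Nat.Prime, χ p =
      ∑ c : ZMod m, χ c * ((((Icc 1 t).filter (fun n : ℕ => n.Prime ∧ (n : ZMod m) = c)).card : ℝ) -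
        Pool.MP_dd84fd_nt.E2.Li t / (Nat.totient m : ℝ) : ℝ) := by
    have e1 : ∑ c : ZMod m, χ c *
        ((((Icc 1 t).filter (fun n : ℕ => n.Prime ∧ (n : ZMod m) = c)).card : ℝ) -
        Pool.MP_dd84fd_nt.E2.Li t / (Nat.totient m : ℝ) : ℝ) =
        ∑ c : ZMod m, χ c *
        (((((Icc 1 t).filter (fun n : ℕ => n.Prime ∧ (n : ZMod m) = c)).card : ℕ)) : ℂ) := by
      have e2 : ∑ c : ZMod m, χ c *
        ((((Icc 1 t).filter (fun n : ℕ => n.Prime ∧ (n : ZMod m) = c)).card : ℝ) -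
        Pool.MP_dd84fd_nt.E2.Li t / (Nat.totient m : ℝ) : ℝ) =
        (∑ c : ZMod m, χ c *
          (((((Icc 1 t).filter (fun n : ℕ => n.Prime ∧ (n : ZMod m) = c)).card : ℕ)) : ℂ)) -
          (∑ c : ZMod m, χ c) * ((Pool.MP_dd84fd_nt.E2.Li t / (Nat.totient m : ℝ) : ℝ) : ℂ) := by
        rw [Finset.sum_mul, ← Finset.sum_sub_distrib]
        refine Finset.sum_congr rfl fun c _ => ?_
        rw [Complex.ofReal_sub, mul_sub, Complex.ofReal_natCast]
      rw [e2, hsum0, zero_mul, sub_zero]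
    rw [e1, ← Finset.sum_fiberwise_of_maps_to (s := (Icc 1 t).filter Nat.Prime)
      (t := (univ : Finset (ZMod m))) (g := fun p : ℕ => (p : ZMod m)) (fun _ _ => mem_univ _)]
    refine Finset.sum_congr rfl fun c _ => ?_
    rw [Finset.filter_filter]
    rw [Finset.sum_congr rfl (g := fun _ => χ c)
      (fun p hp => by rw [(Finset.mem_filter.mp hp).2.2]), Finset.sum_const, nsmul_eq_mul, mul_comm]
  rw [hgrp]
  have hterm : ∀ c : ZMod m, ‖χ c *
      ((((Icc 1 t).filter (fun n : ℕ => n.Prime ∧ (n : ZMod m) = c)).card : ℝ) -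
        Pool.MP_dd84fd_nt.E2.Li t / (Nat.totient m : ℝ) : ℝ)‖ ≤ t / Real.log X ^ A := by
    intro c
    by_cases hc : IsUnit c
    · have hcop : Nat.Coprime c.val m := by
        rw [← ZMod.isUnit_iff_coprime, ZMod.natCast_zmod_val]
        exact hc
      have hset : (Icc 1 t).filter (fun n : ℕ => n.Prime ∧ (n : ZMod m) = c) =
          (Icc 1 t).filter (fun n => n.Prime ∧ n ≡ c.val [MOD m]) := by
        refine Finset.filter_congr fun n _ => ?_
        rw [← ZMod.natCast_eq_natCast_iff, ZMod.natCast_zmod_val]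
      rw [hset, norm_mul, Complex.norm_real, Real.norm_eq_abs]
      calc ‖χ c‖ * _ ≤ 1 * _ :=
            mul_le_mul_of_nonneg_right (DirichletCharacter.norm_le_one χ c) (abs_nonneg _)
        _ ≤ _ := by
            rw [one_mul]
            exact hpi c.val hcop
    · rw [MulChar.map_nonunit χ hc, zero_mul, norm_zero]
      positivity
  refine (norm_sum_le _ _).trans ((Finset.sum_le_sum fun c _ => hterm c).trans ?_)
  rw [Finset.sum_const, Finset.card_univ, ZMod.card, nsmul_eq_mul, mul_div_assoc]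
  exact mul_le_mul_of_nonneg_right hm (by positivity)

private theorem SvChar0_ks (X M : ℕ) (hX : 1 ≤ X) :
    ∑ a ∈ Icc 1 M, |kS X a| ≤ Real.sqrt X := by
  have h1 : ∀ a ∈ Icc 1 M, |kS X a| ≤ if a ∈ Icc 1 (Nat.sqrt X) then (1 : ℝ) else 0 := by
    intro a ha
    rw [Finset.mem_Icc] at ha
    split_ifs with h
    · exact (coef_abs X a).1
    · have h2 : kS X a = 0 := by
        show (if a = 1 then (1 : ℝ) else if a.Prime ∧ zS X ≤ a ∧ a ^ 2 ≤ X then -1 else 0) = 0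
        have h3 : ¬ a ≤ Nat.sqrt X := fun h' => h (Finset.mem_Icc.2 ⟨ha.1, h'⟩)
        rw [Nat.le_sqrt'] at h3
        have h4 : a ≠ 1 := by
          rintro rfl
          exact h3 (by simpa using hX)
        rw [if_neg h4, if_neg (fun h' => h3 h'.2.2)]
      rw [h2, abs_zero]
  refine (Finset.sum_le_sum h1).trans ?_
  rw [← Finset.sum_filter, Finset.sum_const, nsmul_eq_mul, mul_one]
  have h2 : ((Icc 1 M).filter (fun a => a ∈ Icc 1 (Nat.sqrt X))).card ≤ Nat.sqrt X := by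
    refine (Finset.card_le_card (t := Icc 1 (Nat.sqrt X)) ?_).trans (by simp)
    intro a ha
    exact (Finset.mem_filter.1 ha).2
  have h3 : (((Icc 1 M).filter (fun a => a ∈ Icc 1 (Nat.sqrt X))).card : ℝ) ≤ (Nat.sqrt X : ℝ) := by
    exact_mod_cast h2
  exact h3.trans Real.nat_sqrt_le_real_sqrt

private theorem SvChar0_ls (X M : ℕ) :
    ∑ b ∈ Icc 1 M, |lS X b| ≤ (X : ℝ) ^ (1 / 40 : ℝ) := by
  have h0 : (0 : ℝ) ≤ (X : ℝ) ^ (1 / 40 : ℝ) := by positivity
  have h1 : ∀ a ∈ Icc 1 M, |lS X a| ≤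
      if a ∈ Icc 1 (⌊(X : ℝ) ^ (1 / 40 : ℝ)⌋₊) then (1 : ℝ) else 0 := by
    intro a ha
    rw [Finset.mem_Icc] at ha
    split_ifs with h
    · exact (coef_abs X a).2.1
    · have h2 : lS X a = 0 := by
        show (if a ≠ 0 ∧ (a : ℝ) ≤ (X : ℝ) ^ (1 / 40 : ℝ) ∧ ∀ p ∈ a.primeFactors, p < wS X then
          ((ArithmeticFunction.moebius a : ℤ) : ℝ) else 0) = 0
        rw [if_neg]
        rintro ⟨-, h3, -⟩
        exact h (Finset.mem_Icc.2 ⟨ha.1, Nat.le_floor h3⟩)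
      rw [h2, abs_zero]
  refine (Finset.sum_le_sum h1).trans ?_
  rw [← Finset.sum_filter, Finset.sum_const, nsmul_eq_mul, mul_one]
  have h2 : ((Icc 1 M).filter (fun a => a ∈ Icc 1 (⌊(X : ℝ) ^ (1 / 40 : ℝ)⌋₊))).card ≤
      ⌊(X : ℝ) ^ (1 / 40 : ℝ)⌋₊ := by
    refine (Finset.card_le_card (t := Icc 1 (⌊(X : ℝ) ^ (1 / 40 : ℝ)⌋₊)) ?_).trans (by simp)
    intro a ha
    exact (Finset.mem_filter.1 ha).2
  have h3 : (((Icc 1 M).filter (fun a => a ∈ Icc 1 (⌊(X : ℝ) ^ (1 / 40 : ℝ)⌋₊))).card : ℝ) ≤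
      (⌊(X : ℝ) ^ (1 / 40 : ℝ)⌋₊ : ℝ) := by
    exact_mod_cast h2
  exact h3.trans (Nat.floor_le h0)

/-- short character sums -/
private theorem SvChar0_pv (m : ℕ) [NeZero m] (χ : DirichletCharacter ℂ m) (hχ : χ ≠ 1) (T : ℕ) :
    ‖∑ n ∈ Icc 1 T, χ n‖ ≤ (m : ℝ) ^ 3 := by
  have h1 := PV_all m χ hχ 1 (T + 1)
  have h2 : Ico 1 (T + 1) = Icc 1 T := by
    ext n
    rw [Finset.mem_Ico, Finset.mem_Icc]
    omega
  rw [h2] at h1
  refine h1.trans ?_
  have hm1 : (1 : ℝ) ≤ m := by exact_mod_cast NeZero.one_le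
  have e1 : (m.divisors.card : ℝ) ≤ m := by exact_mod_cast Nat.card_divisors_le_self m
  have e2 : Real.sqrt m ≤ m := by
    rw [Real.sqrt_le_left (by positivity)]
    nlinarith
  have e3 : 1 + Real.log m ≤ m := by
    have := Real.log_le_sub_one_of_pos (by linarith : (0 : ℝ) < m)
    linarith
  have e4 : 0 ≤ Real.log m := Real.log_nonneg hm1
  calc (m.divisors.card : ℝ) * Real.sqrt m * (1 + Real.log m) ≤ m * m * m :=
        mul_le_mul (mul_le_mul e1 e2 (Real.sqrt_nonneg _) (by positivity)) e3 (by positivity)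
          (by positivity)
    _ = (m : ℝ) ^ 3 := by ring

/-- the sums of type I -/
private theorem SvChar0_one (X : ℕ) (hX : 1 ≤ X) (m : ℕ) [NeZero m] (χ : DirichletCharacter ℂ m)
    (hχ : χ ≠ 1) (M : ℕ) :
    ‖∑ n ∈ Icc 1 M, (((kS X * lS X * ze) n : ℝ) : ℂ) * χ n‖ ≤
      Real.sqrt X * (X : ℝ) ^ (1 / 40 : ℝ) * (m : ℝ) ^ 3 := by
  have h1 := conv_three (kS X) (lS X) ze M (fun _ => True) (fun n => χ n)
  rw [Finset.filter_true, ← mul_assoc] at h1
  rw [h1]
  have h2 : ∀ a ∈ Icc 1 M, ∀ b ∈ Icc 1 M, ‖∑ c ∈ Icc 1 M, if a * b * c ≤ M ∧ True then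
      ((kS X a * (lS X b * ze c) : ℝ) : ℂ) * χ ((a * b * c : ℕ) : ZMod m) else 0‖ ≤
      |kS X a| * |lS X b| * (m : ℝ) ^ 3 := by
    intro a ha b hb
    rw [Finset.mem_Icc] at ha hb
    have hab : 0 < a * b := Nat.mul_pos (by omega) (by omega)
    have e1 : ∑ c ∈ Icc 1 M, (if a * b * c ≤ M ∧ True then
      ((kS X a * (lS X b * ze c) : ℝ) : ℂ) * χ ((a * b * c : ℕ) : ZMod m) else 0) =
      ((kS X a * lS X b : ℝ) : ℂ) * χ ((a * b : ℕ) : ZMod m) *
        ∑ c ∈ Icc 1 (M / (a * b)), χ c := by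
      rw [← Finset.sum_filter, Finset.mul_sum]
      have e2 : (Icc 1 M).filter (fun c => a * b * c ≤ M ∧ True) = Icc 1 (M / (a * b)) := by
        ext c
        rw [Finset.mem_filter, Finset.mem_Icc, Finset.mem_Icc, Nat.le_div_iff_mul_le hab,
          mul_comm c]
        constructor
        · rintro ⟨⟨h1, -⟩, h2, -⟩
          exact ⟨h1, h2⟩
        · rintro ⟨h1, h2⟩
          exact ⟨⟨h1, (Nat.le_mul_of_pos_left c hab).trans h2⟩, h2, trivial⟩
      rw [e2]
      refine Finset.sum_congr rfl fun c hc => ?_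
      rw [Finset.mem_Icc] at hc
      have e3 : (ze c : ℝ) = 1 := by
        unfold ze
        rw [ArithmeticFunction.natCoe_apply, ArithmeticFunction.zeta_apply_ne (by omega)]
        simp
      rw [e3]
      push_cast
      rw [map_mul]
      ring
    rw [e1, norm_mul, norm_mul, Complex.norm_real, Real.norm_eq_abs, abs_mul]
    have h3 := DirichletCharacter.norm_le_one χ ((a * b : ℕ) : ZMod m)
    have h4 := SvChar0_pv m χ hχ (M / (a * b))
    calc |kS X a| * |lS X b| * ‖χ ((a * b : ℕ) : ZMod m)‖ * ‖∑ c ∈ Icc 1 (M / (a * b)), χ c‖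
        ≤ |kS X a| * |lS X b| * 1 * (m : ℝ) ^ 3 :=
          mul_le_mul (mul_le_mul_of_nonneg_left h3 (by positivity)) h4 (norm_nonneg _)
            (by positivity)
      _ = _ := by ring
  calc ‖∑ a ∈ Icc 1 M, ∑ b ∈ Icc 1 M, ∑ c ∈ Icc 1 M, if a * b * c ≤ M ∧ True then
      ((kS X a * (lS X b * ze c) : ℝ) : ℂ) * χ ((a * b * c : ℕ) : ZMod m) else 0‖
      ≤ ∑ a ∈ Icc 1 M, ∑ b ∈ Icc 1 M, |kS X a| * |lS X b| * (m : ℝ) ^ 3 := by
        refine (norm_sum_le _ _).trans (Finset.sum_le_sum fun a ha => ?_)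
        exact (norm_sum_le _ _).trans (Finset.sum_le_sum fun b hb => h2 a ha b hb)
    _ = (∑ a ∈ Icc 1 M, |kS X a|) * (∑ b ∈ Icc 1 M, |lS X b|) * (m : ℝ) ^ 3 := by
        rw [Finset.sum_mul_sum, Finset.sum_mul]
        refine Finset.sum_congr rfl fun a _ => ?_
        rw [Finset.sum_mul]
    _ ≤ _ := by
        apply mul_le_mul_of_nonneg_right _ (by positivity)
        exact mul_le_mul (SvChar0_ks X M hX) (SvChar0_ls X M)
          (Finset.sum_nonneg fun _ _ => abs_nonneg _) (Real.sqrt_nonneg _)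

/-- the sums of type II -/
private theorem SvChar0_two (X : ℕ) (m : ℕ) [NeZero m] (χ : DirichletCharacter ℂ m) (M : ℕ)
    (Q : ℝ) (hQ : 0 ≤ Q)
    (hP : ∀ t : ℕ, wS X ≤ t + 1 → ‖∑ p ∈ (Icc 1 t).filter Nat.Prime, χ p‖ ≤ Q * t) :
    ‖∑ n ∈ Icc 1 M, (((aS X * (kS X * gS X)) n : ℝ) : ℂ) * χ n‖ ≤
      2 * Q * M * ∑ k ∈ Icc 1 M, (k.divisors.card : ℝ) / k := by
  classical
  have h1 := conv_two (aS X) (kS X * gS X) M (fun _ => True) (fun n => χ n)
  rw [Finset.filter_true, Finset.sum_comm] at h1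
  rw [h1]
  have hin : ∀ k ∈ Icc 1 M, ‖∑ p ∈ (Icc 1 (M / k)).filter
      (fun p => p.Prime ∧ wS X ≤ p ∧ p < zS X), χ p‖ ≤ 2 * Q * (M / k : ℝ) := by
    intro k hk
    rw [Finset.mem_Icc] at hk
    have hk0 : (0 : ℝ) < k := by exact_mod_cast hk.1
    obtain ⟨T, hT⟩ : ∃ T, T = min (zS X - 1) (M / k) := ⟨_, rfl⟩
    have hTM : (T : ℝ) ≤ (M / k : ℝ) := by
      have e1 : T ≤ M / k := by
        rw [hT]
        exact min_le_right _ _
      calc (T : ℝ) ≤ ((M / k : ℕ) : ℝ) := by exact_mod_cast e1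
        _ ≤ _ := Nat.cast_div_le
    rcases lt_or_ge T (wS X) with h | h
    · have e1 : (Icc 1 (M / k)).filter (fun p => p.Prime ∧ wS X ≤ p ∧ p < zS X) = ∅ := by
        rw [Finset.filter_eq_empty_iff]
        rintro p hp ⟨-, h2, h3⟩
        rw [Finset.mem_Icc] at hp
        have : p ≤ T := by
          rw [hT]
          exact le_min (by omega) hp.2
        omega
      rw [e1, Finset.sum_empty, norm_zero]
      positivity
    · have e1 : (Icc 1 T).filter Nat.Prime =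
          (Icc 1 (wS X - 1)).filter Nat.Prime ∪
            (Icc 1 (M / k)).filter (fun p => p.Prime ∧ wS X ≤ p ∧ p < zS X) := by
        ext p
        simp only [Finset.mem_union, Finset.mem_filter, Finset.mem_Icc]
        have hT1 : T ≤ zS X - 1 := by
          rw [hT]
          exact min_le_left _ _
        have hT2 : T ≤ M / k := by
          rw [hT]
          exact min_le_right _ _
        constructor
        · rintro ⟨⟨h2, h3⟩, h4⟩
          rcases lt_or_ge p (wS X) with h5 | h5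
          · exact Or.inl ⟨⟨h2, by omega⟩, h4⟩
          · exact Or.inr ⟨⟨h2, by omega⟩, h4, h5, by omega⟩
        · rintro (⟨⟨h2, h3⟩, h4⟩ | ⟨⟨h2, h3⟩, h4, h5, h6⟩)
          · exact ⟨⟨h2, by omega⟩, h4⟩
          · refine ⟨⟨h2, ?_⟩, h4⟩
            rw [hT]
            exact le_min (by omega) h3
      have e2 : Disjoint ((Icc 1 (wS X - 1)).filter Nat.Prime)
          ((Icc 1 (M / k)).filter (fun p => p.Prime ∧ wS X ≤ p ∧ p < zS X)) := by
        rw [Finset.disjoint_left]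
        intro p hp hp'
        simp only [Finset.mem_filter, Finset.mem_Icc] at hp hp'
        omega
      have e3 : ∑ p ∈ (Icc 1 (M / k)).filter (fun p => p.Prime ∧ wS X ≤ p ∧ p < zS X), χ p =
          ∑ p ∈ (Icc 1 T).filter Nat.Prime, χ p -
            ∑ p ∈ (Icc 1 (wS X - 1)).filter Nat.Prime, χ p := by
        rw [e1, Finset.sum_union e2]
        ring
      rw [e3]
      have h2 := hP T (by omega)
      have h3 := hP (wS X - 1) (by omega)
      have h4 : ((wS X - 1 : ℕ) : ℝ) ≤ T := by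
        have : wS X - 1 ≤ T := by omega
        exact_mod_cast this
      have h5 : Q * ((wS X - 1 : ℕ) : ℝ) ≤ Q * T := mul_le_mul_of_nonneg_left h4 hQ
      have h6 : Q * T ≤ Q * (M / k : ℝ) := mul_le_mul_of_nonneg_left hTM hQ
      refine (norm_sub_le _ _).trans ?_
      linarith
  have h2 : ∀ k ∈ Icc 1 M, ‖∑ p ∈ Icc 1 M, if p * k ≤ M ∧ True then
      ((aS X p * (kS X * gS X) k : ℝ) : ℂ) * χ ((p * k : ℕ) : ZMod m) else 0‖ ≤
      2 * Q * M * ((k.divisors.card : ℝ) / k) := by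
    intro k hk
    have hk' := Finset.mem_Icc.1 hk
    have hk0 : (0 : ℝ) < k := by exact_mod_cast hk'.1
    have e1 : ∑ p ∈ Icc 1 M, (if p * k ≤ M ∧ True then
      ((aS X p * (kS X * gS X) k : ℝ) : ℂ) * χ ((p * k : ℕ) : ZMod m) else 0) =
      (((kS X * gS X) k : ℝ) : ℂ) * χ k *
        ∑ p ∈ (Icc 1 (M / k)).filter (fun p => p.Prime ∧ wS X ≤ p ∧ p < zS X), χ p := by
      rw [← Finset.sum_filter, Finset.mul_sum]
      have e2 : (Icc 1 M).filter (fun p => p * k ≤ M ∧ True) = Icc 1 (M / k) := by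
        ext p
        rw [Finset.mem_filter, Finset.mem_Icc, Finset.mem_Icc, Nat.le_div_iff_mul_le hk'.1]
        constructor
        · rintro ⟨⟨h1, -⟩, h2, -⟩
          exact ⟨h1, h2⟩
        · rintro ⟨h1, h2⟩
          exact ⟨⟨h1, (Nat.le_mul_of_pos_right p hk'.1).trans h2⟩, h2, trivial⟩
      rw [e2, Finset.sum_filter]
      refine Finset.sum_congr rfl fun p _ => ?_
      have e3 : aS X p = if p.Prime ∧ wS X ≤ p ∧ p < zS X then (1 : ℝ) else 0 := rfl
      rw [e3]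
      split_ifs with h
      · push_cast
        rw [map_mul]
        ring
      · simp
    rw [e1, norm_mul, norm_mul, Complex.norm_real, Real.norm_eq_abs]
    have h3 := DirichletCharacter.norm_le_one χ (k : ZMod m)
    have h4 := conv_abs (kS X) (gS X) (fun n => (coef_abs X n).1) (fun n => (coef_abs X n).2.2.2) k
    have h5 := hin k hk
    calc |(kS X * gS X) k| * ‖χ (k : ZMod m)‖ * _ ≤
          (k.divisors.card : ℝ) * 1 * (2 * Q * (M / k : ℝ)) :=
          mul_le_mul (mul_le_mul h4 h3 (norm_nonneg _) (by positivity)) h5 (norm_nonneg _)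
            (by positivity)
      _ = _ := by ring
  refine (norm_sum_le _ _).trans ((Finset.sum_le_sum h2).trans (le_of_eq ?_))
  rw [Finset.mul_sum]

theorem sv_char0 (A D : ℕ) : ∃ X0 : ℕ, ∀ X : ℕ, X0 ≤ X → ∀ (m : ℕ) [NeZero m],
    (m : ℝ) ≤ Real.log X ^ D → ∀ χ : DirichletCharacter ℂ m, χ ≠ 1 → ∀ M : ℕ, M ≤ X →
    ‖∑ n ∈ Icc 1 M, (Sv X n : ℂ) * χ n‖ ≤ X / Real.log X ^ A := by
  obtain ⟨X1, hX1⟩ := sv_decomp (2 * (A + 1))
  obtain ⟨C, hC⟩ := div_mom 1
  obtain ⟨X2, hX2⟩ := SvChar0_prime (A + 1 + D + C + 1) D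
  have hev := (SvChar0_ev (3 * D + A + 1) (19 / 40) (by norm_num))
  have hev2 : ∀ᶠ X : ℕ in Filter.atTop, Real.log (X : ℝ) ^ (3 * D + A + 1) ≤
      (X : ℝ) ^ (19 / 40 : ℝ) := tendsto_natCast_atTop_atTop.eventually hev
  obtain ⟨X3, hX3⟩ := Filter.eventually_atTop.1 (hev2.and
    (SvChar0_loglim.eventually_ge_atTop ((2 : ℝ) * 2 ^ C + 3)))
  refine ⟨X1 + X2 + X3 + 1, fun X hX m _ hm χ hχ M hM => ?_⟩
  obtain ⟨er, her, her2⟩ := hX1 X (by omega)
  have hprime := hX2 X (by omega) m hm χ hχ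
  obtain ⟨hpow, hlog⟩ := hX3 X (by omega)
  have h2C : (0 : ℝ) < 2 ^ C := by positivity
  have hX1' : 1 ≤ X := by omega
  have hXr : (1 : ℝ) ≤ X := by exact_mod_cast hX1'
  have hXpos : (0 : ℝ) < X := by linarith
  obtain ⟨L, hL⟩ : ∃ L : ℝ, L = Real.log X := ⟨_, rfl⟩
  rw [← hL] at hm her2 hprime hpow hlog ⊢
  have hL3 : 3 ≤ L := by linarith
  have hL0 : 0 < L := by linarith
  rcases Nat.eq_zero_or_pos M with hM0 | hM0
  · rw [hM0]
    simp only [show Icc 1 0 = (∅ : Finset ℕ) from by simp, Finset.sum_empty, norm_zero]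
    positivity
  -- the error
  have hE : ‖∑ n ∈ Icc 1 M, (er n : ℂ) * χ n‖ ≤ X / L ^ (A + 1) := by
    have h1 : ‖∑ n ∈ Icc 1 M, (er n : ℂ) * χ n‖ ≤ ∑ n ∈ Icc 1 X, |er n| := by
      refine (norm_sum_le _ _).trans ?_
      have h2 : ∑ n ∈ Icc 1 M, ‖(er n : ℂ) * χ n‖ ≤ ∑ n ∈ Icc 1 M, |er n| := by
        refine Finset.sum_le_sum fun n _ => ?_
        rw [norm_mul, Complex.norm_real, Real.norm_eq_abs]
        exact mul_le_of_le_one_right (abs_nonneg _) (DirichletCharacter.norm_le_one χ _)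
      refine h2.trans (Finset.sum_le_sum_of_subset_of_nonneg ?_ fun _ _ _ => abs_nonneg _)
      intro n hn
      rw [Finset.mem_Icc] at hn ⊢
      omega
    have h2 : (∑ n ∈ Icc 1 X, |er n|) ^ 2 ≤ (X / L ^ (A + 1)) ^ 2 := by
      have h3 := sq_sum_le_card_mul_sum_sq (s := Icc 1 X) (f := fun n => |er n|)
      simp only [sq_abs, Nat.card_Icc, Nat.add_sub_cancel] at h3
      refine h3.trans ?_
      calc (X : ℝ) * ∑ n ∈ Icc 1 X, er n ^ 2 ≤ X * (X / L ^ (2 * (A + 1))) :=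
            mul_le_mul_of_nonneg_left her2 hXpos.le
        _ = (X / L ^ (A + 1)) ^ 2 := by
            rw [div_pow, ← pow_mul, mul_comm (A + 1) 2]
            ring
    exact h1.trans (abs_le_of_sq_le_sq' h2 (by positivity)).2
  -- type I
  have hI := SvChar0_one X hX1' m χ hχ M
  have hI2 : Real.sqrt X * (X : ℝ) ^ (1 / 40 : ℝ) * (m : ℝ) ^ 3 ≤ X / L ^ (A + 1) := by
    rw [le_div_iff₀ (by positivity)]
    have h1 : (m : ℝ) ^ 3 ≤ L ^ (3 * D) := by
      rw [mul_comm 3 D, pow_mul]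
      exact pow_le_pow_left₀ (Nat.cast_nonneg _) hm 3
    calc Real.sqrt X * (X : ℝ) ^ (1 / 40 : ℝ) * (m : ℝ) ^ 3 * L ^ (A + 1)
        ≤ Real.sqrt X * (X : ℝ) ^ (1 / 40 : ℝ) * L ^ (3 * D) * L ^ (A + 1) := by
          apply mul_le_mul_of_nonneg_right _ (by positivity)
          exact mul_le_mul_of_nonneg_left h1 (by positivity)
      _ = Real.sqrt X * (X : ℝ) ^ (1 / 40 : ℝ) * L ^ (3 * D + A + 1) := by
          rw [add_assoc, pow_add L (3 * D) (A + 1)]
          ring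
      _ ≤ Real.sqrt X * (X : ℝ) ^ (1 / 40 : ℝ) * (X : ℝ) ^ (19 / 40 : ℝ) :=
          mul_le_mul_of_nonneg_left hpow (by positivity)
      _ = X := by
          rw [Real.sqrt_eq_rpow, ← Real.rpow_add hXpos, ← Real.rpow_add hXpos]
          norm_num
  -- type II
  have hII := SvChar0_two X m χ M (L ^ D / L ^ (A + 1 + D + C + 1)) (by positivity) (by
    intro t ht
    refine (hprime t ht).trans (le_of_eq ?_)
    ring)
  have hII2 : 2 * (L ^ D / L ^ (A + 1 + D + C + 1)) * M *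
      ∑ k ∈ Icc 1 M, (k.divisors.card : ℝ) / k ≤ X / L ^ (A + 1) := by
    have h1 := (hC M hM0).2
    simp only [pow_one] at h1
    have hMr : (1 : ℝ) ≤ M := by exact_mod_cast hM0
    have hMX : (M : ℝ) ≤ X := by exact_mod_cast hM
    have h2 : Real.log M ≤ L := by
      rw [hL]
      exact Real.log_le_log (by linarith) hMX
    have h3 : (1 + Real.log M) ^ C ≤ (2 * L) ^ C := by
      have h4 : 0 ≤ Real.log M := Real.log_nonneg hMr
      exact pow_le_pow_left₀ (by linarith) (by linarith) C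
    have h4 : ∑ k ∈ Icc 1 M, (k.divisors.card : ℝ) / k ≤ (2 * L) ^ C := h1.trans h3
    rw [le_div_iff₀ (by positivity)]
    calc 2 * (L ^ D / L ^ (A + 1 + D + C + 1)) * M *
          (∑ k ∈ Icc 1 M, (k.divisors.card : ℝ) / k) * L ^ (A + 1)
        ≤ 2 * (L ^ D / L ^ (A + 1 + D + C + 1)) * X * (2 * L) ^ C * L ^ (A + 1) := by
          apply mul_le_mul_of_nonneg_right _ (by positivity)
          exact mul_le_mul (mul_le_mul_of_nonneg_left hMX (by positivity)) h4
            (Finset.sum_nonneg fun _ _ => by positivity) (by positivity)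
      _ = X * (2 * 2 ^ C) / L := by
          rw [mul_pow]
          have e1 : L ^ (A + 1 + D + C + 1) = L ^ D * L ^ C * L ^ (A + 1) * L := by
            rw [← pow_add, ← pow_add, ← pow_succ]
            congr 1
            ring
          rw [e1]
          field_simp
      _ ≤ X := by
          rw [div_le_iff₀ hL0]
          apply mul_le_mul_of_nonneg_left _ hXpos.le
          linarith
  -- everything
  have hsum : ∑ n ∈ Icc 1 M, (Sv X n : ℂ) * χ n =
      ∑ n ∈ Icc 1 M, (((kS X * lS X * ze) n : ℝ) : ℂ) * χ n -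
      ∑ n ∈ Icc 1 M, (((aS X * (kS X * gS X)) n : ℝ) : ℂ) * χ n +
      ∑ n ∈ Icc 1 M, (er n : ℂ) * χ n := by
    rw [← Finset.sum_sub_distrib, ← Finset.sum_add_distrib]
    refine Finset.sum_congr rfl fun n hn => ?_
    rw [Finset.mem_Icc] at hn
    rw [her n hn.1 (by omega)]
    push_cast
    ring
  rw [hsum]
  have h1 := norm_add_le (∑ n ∈ Icc 1 M, (((kS X * lS X * ze) n : ℝ) : ℂ) * χ n -
      ∑ n ∈ Icc 1 M, (((aS X * (kS X * gS X)) n : ℝ) : ℂ) * χ n) (∑ n ∈ Icc 1 M, (er n : ℂ) * χ n)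
  have h2 := norm_sub_le (∑ n ∈ Icc 1 M, (((kS X * lS X * ze) n : ℝ) : ℂ) * χ n)
      (∑ n ∈ Icc 1 M, (((aS X * (kS X * gS X)) n : ℝ) : ℂ) * χ n)
  have h3 : 3 * (X / L ^ (A + 1)) ≤ X / L ^ A := by
    rw [pow_succ, ← div_div, ← mul_div_assoc, div_le_iff₀ hL0, mul_comm 3]
    exact mul_le_mul_of_nonneg_left hL3 (by positivity)
  linarith

end Pool.MP_dd84fd_nt.T7
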