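import Pool.Agent.Lib.MP_dd84fd_nt.T7.SvBasic
import Pool.Agent.Lib.MP_dd84fd_nt.L2G.CharOrth
import Pool.Agent.Lib.MP_dd84fd_nt.L2G.DivMom

/-!
T7-47 SvGood. h_II with A+3 gives C0 and B'. C = C0. B2 = {chi in B' : chi factors through no d | q, d <= exp(LL^4)}; S = B' \ B2 (card <= L^C0 by the second property); B1 = {chi in S : chi != 1, chi factors through no d | q with d <= L^D1}.
(1 factors through d = 1, so 1 is not in B1, B2.) Removed: chi in S, chi != 1, factoring through some d <= L^D1: |Tc| <= X/L^(A+C0+2) (h_small with B'' = max B D1), at most L^C0 of them.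
chi not in B', chi != 1: Sv = I - II + er (h_dec with A' = A+4), |x-y+z|^2 <= 3(..): h_I (A+3), h_II, and er: char_ms: <= (X+q) sum er^2 <= 2X^2/L^(A+4).
-/

set_option autoImplicit false

namespace Pool.MP_dd84fd_nt.T7

open Finset Pool.MP_67663b_nt.Odd Pool.MP_dd84fd_nt.L2G

theorem sv_good_core
    (h_II : ∀ (ε : ℝ) (hε : 0 < ε) (hε1 : ε < 1) (A B : ℕ), ∃ C X0 : ℕ, ∀ X : ℕ, X0 ≤ X →
    ∀ (q : ℕ) [NeZero q], (q : ℝ) ≤ (X : ℝ) ^ (4 / 5 - ε) → ∀ (r : ℕ) (y : ℤ) (β : ℝ), 1 ≤ r →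
    (r : ℝ) ≤ Real.log X ^ B → |β| ≤ Real.log X ^ B / X →
      ∃ 𝓑 : Finset (DirichletCharacter ℂ q),
        (𝓑.card : ℝ) ≤ Real.exp (Real.log (Real.log X) ^ 4 / 50) ∧
        (∀ 𝓢 : Finset (DirichletCharacter ℂ q), 𝓢 ⊆ 𝓑 →
          (∀ χ ∈ 𝓢, ∃ d : ℕ, d ∣ q ∧ (d : ℝ) ≤ Real.exp (Real.log (Real.log X) ^ 4) ∧
            χ.FactorsThrough d) → (𝓢.card : ℝ) ≤ Real.log X ^ C) ∧
        ∀ 𝓖 : Finset (DirichletCharacter ℂ q), Disjoint 𝓖 𝓑 →
          ∑ χ ∈ 𝓖, ‖Tc X q (fun n => (aS X * (kS X * gS X)) n) (y / r + β) χ‖ ^ 2 ≤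
            X ^ 2 / Real.log X ^ A)
    (h_I : ∀ (A B : ℕ), ∃ X0 : ℕ, ∀ X : ℕ, X0 ≤ X →
    ∀ (q : ℕ) [NeZero q], (q : ℝ) ≤ (X : ℝ) ^ (4 / 5 : ℝ) → ∀ (r : ℕ) (y : ℤ) (β : ℝ), 1 ≤ r →
    (r : ℝ) ≤ Real.log X ^ B → Nat.Coprime r q → |β| ≤ Real.log X ^ B / X →
      ∀ 𝓖 : Finset (DirichletCharacter ℂ q), (1 : DirichletCharacter ℂ q) ∉ 𝓖 →
        ∑ χ ∈ 𝓖, ‖Tc X q (fun n => (kS X * lS X * ze) n) (y / r + β) χ‖ ^ 2 ≤
          X ^ 2 / Real.log X ^ A)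
    (h_dec : ∀ (A : ℕ), ∃ X0 : ℕ, ∀ X : ℕ, X0 ≤ X → ∃ er : ℕ → ℝ,
    (∀ n, 1 ≤ n → n ≤ X →
      Sv X n = (kS X * lS X * ze) n - (aS X * (kS X * gS X)) n + er n) ∧
    ∑ n ∈ Icc 1 X, er n ^ 2 ≤ X / Real.log X ^ A)
    (h_small : ∀ (A B : ℕ), ∃ X0 : ℕ, ∀ X : ℕ, X0 ≤ X → ∀ (q : ℕ) [NeZero q], q ≤ X →
    ∀ (r d : ℕ) (y : ℤ) (β : ℝ) (χ : DirichletCharacter ℂ q), 1 ≤ r → (r : ℝ) ≤ Real.log X ^ B →
    Nat.Coprime r q → |β| ≤ Real.log X ^ B / X → χ ≠ 1 → d ∣ q → (d : ℝ) ≤ Real.log X ^ B →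
    χ.FactorsThrough d → ‖Tc X q (fun n => Sv X n) (y / r + β) χ‖ ≤ X / Real.log X ^ A)
    (ε : ℝ) (hε : 0 < ε) (hε1 : ε < 1) (A B : ℕ) : ∃ C : ℕ, ∀ D1 : ℕ, ∃ X0 : ℕ,
    ∀ X : ℕ, X0 ≤ X →
    ∀ (q : ℕ) [NeZero q], (q : ℝ) ≤ (X : ℝ) ^ (4 / 5 - ε) → ∀ (r : ℕ) (y : ℤ) (β : ℝ), 1 ≤ r →
    (r : ℝ) ≤ Real.log X ^ B → Nat.Coprime r q → |β| ≤ Real.log X ^ B / X →
      ∃ 𝓑₁ 𝓑₂ : Finset (DirichletCharacter ℂ q), (𝓑₁.card : ℝ) ≤ Real.log X ^ C ∧
        (𝓑₂.card : ℝ) ≤ Real.exp (Real.log (Real.log X) ^ 4 / 50) ∧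
        (∀ χ ∈ 𝓑₁, χ ≠ 1 ∧ ∀ d : ℕ, d ∣ q → (d : ℝ) ≤ Real.log X ^ D1 → ¬ χ.FactorsThrough d) ∧
        (∀ χ ∈ 𝓑₂, χ ≠ 1 ∧ ∀ d : ℕ, d ∣ q → (d : ℝ) ≤ Real.exp (Real.log (Real.log X) ^ 4) →
          ¬ χ.FactorsThrough d) ∧
        ∑ χ ∈ univ.filter (fun χ => χ ∉ 𝓑₁ ∧ χ ∉ 𝓑₂ ∧ χ ≠ 1),
          ‖Tc X q (fun n => Sv X n) (y / r + β) χ‖ ^ 2 ≤ X ^ 2 / Real.log X ^ A := by
  classical
  obtain ⟨C0, X1, h1⟩ := h_II ε hε hε1 (A + 3) B
  obtain ⟨X2, h2⟩ := h_I (A + 3) B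
  obtain ⟨X3, h3⟩ := h_dec (A + 4)
  refine ⟨C0, fun D1 => ?_⟩
  obtain ⟨X4, h4⟩ := h_small (A + C0 + 2) (max B D1)
  obtain ⟨X5, h5⟩ := Filter.eventually_atTop.1
    ((Real.tendsto_log_atTop.comp (tendsto_natCast_atTop_atTop (R := ℝ))).eventually
      (Filter.eventually_ge_atTop (4 : ℝ)))
  refine ⟨X1 + X2 + X3 + X4 + X5 + 2, fun X hX q _ hq r y β hr hrB hrq hβ => ?_⟩
  obtain ⟨𝓑, hB1, hB2, hB3⟩ := h1 X (by omega) q hq r y β hr hrB hβ
  obtain ⟨er, her1, her2⟩ := h3 X (by omega)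
  have hL4 : (4 : ℝ) ≤ Real.log X := h5 X (by omega)
  have hXr : (1 : ℝ) ≤ X := by exact_mod_cast (by omega : 1 ≤ X)
  have hX0 : (0 : ℝ) < X := by linarith
  have hL0 : (0 : ℝ) < Real.log X := by linarith
  have hL1 : (1 : ℝ) ≤ Real.log X := by linarith
  have hq45 : (q : ℝ) ≤ (X : ℝ) ^ (4 / 5 : ℝ) :=
    hq.trans (Real.rpow_le_rpow_of_exponent_le hXr (by linarith))
  have hqX : (q : ℝ) ≤ X := by
    refine hq45.trans ?_
    calc (X : ℝ) ^ (4 / 5 : ℝ) ≤ (X : ℝ) ^ (1 : ℝ) :=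
          Real.rpow_le_rpow_of_exponent_le hXr (by norm_num)
      _ = X := Real.rpow_one _
  have hqX' : q ≤ X := by exact_mod_cast hqX
  have hq1 : 1 ≤ q := Nat.one_le_iff_ne_zero.2 (NeZero.ne q)
  have hrB' : (r : ℝ) ≤ Real.log X ^ max B D1 :=
    hrB.trans (pow_le_pow_right₀ hL1 (le_max_left _ _))
  have hβ' : |β| ≤ Real.log X ^ max B D1 / X :=
    hβ.trans (div_le_div_of_nonneg_right (pow_le_pow_right₀ hL1 (le_max_left _ _)) hX0.le)
  set P : DirichletCharacter ℂ q → Prop := fun χ => ∃ d : ℕ, d ∣ q ∧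
    (d : ℝ) ≤ Real.exp (Real.log (Real.log X) ^ 4) ∧ χ.FactorsThrough d with hP
  set Q : DirichletCharacter ℂ q → Prop := fun χ => ∃ d : ℕ, d ∣ q ∧
    (d : ℝ) ≤ Real.log X ^ D1 ∧ χ.FactorsThrough d with hQ
  have hP1 : P 1 := by
    refine ⟨1, one_dvd q, ?_, ?_⟩
    · rw [Nat.cast_one]
      exact Real.one_le_exp (by positivity)
    · exact (DirichletCharacter.factorsThrough_one_iff _).2 rfl
  have hScard : ((𝓑.filter P).card : ℝ) ≤ Real.log X ^ C0 := by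
    refine hB2 _ (filter_subset _ _) fun χ hχ => ?_
    rw [mem_filter] at hχ
    exact hχ.2
  refine ⟨(𝓑.filter P).filter (fun χ => χ ≠ 1 ∧ ¬ Q χ), 𝓑.filter (fun χ => ¬ P χ), ?_, ?_, ?_, ?_, ?_⟩
  · refine le_trans ?_ hScard
    exact_mod_cast Finset.card_le_card (filter_subset _ _)
  · refine le_trans ?_ hB1
    exact_mod_cast Finset.card_le_card (filter_subset _ _)
  · intro χ hχ
    rw [mem_filter] at hχ
    refine ⟨hχ.2.1, fun d hd hdL hf => hχ.2.2 ⟨d, hd, hdL, hf⟩⟩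
  · intro χ hχ
    rw [mem_filter] at hχ
    refine ⟨fun h => hχ.2 (h ▸ hP1), fun d hd hdL hf => hχ.2 ⟨d, hd, hdL, hf⟩⟩
  · set F := univ.filter (fun χ : DirichletCharacter ℂ q =>
      χ ∉ (𝓑.filter P).filter (fun χ => χ ≠ 1 ∧ ¬ Q χ) ∧ χ ∉ 𝓑.filter (fun χ => ¬ P χ) ∧ χ ≠ 1) with hF
    have hbad : ∑ χ ∈ F.filter (fun χ => χ ∈ 𝓑), ‖Tc X q (fun n => Sv X n) (y / r + β) χ‖ ^ 2 ≤
        X ^ 2 / Real.log X ^ A / 2 := by
      have hsub : F.filter (fun χ => χ ∈ 𝓑) ⊆ 𝓑.filter P := by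
        intro χ hχ
        rw [mem_filter, hF, mem_filter] at hχ
        rw [mem_filter]
        refine ⟨hχ.2, ?_⟩
        by_contra hcon
        exact hχ.1.2.2.1 (mem_filter.2 ⟨hχ.2, hcon⟩)
      have hterm : ∀ χ ∈ F.filter (fun χ => χ ∈ 𝓑),
          ‖Tc X q (fun n => Sv X n) (y / r + β) χ‖ ^ 2 ≤ (X / Real.log X ^ (A + C0 + 2)) ^ 2 := by
        intro χ hχ
        have hχP := hsub hχ
        rw [mem_filter, hF, mem_filter] at hχ
        have hχQ : Q χ := by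
          by_contra hcon
          exact hχ.1.2.1 (mem_filter.2 ⟨hχP, hχ.1.2.2.2, hcon⟩)
        obtain ⟨d, hd, hdL, hf⟩ := hχQ
        have h6 := h4 X (by omega) q hqX' r d y β χ hr hrB' hrq hβ' hχ.1.2.2.2 hd
          (hdL.trans (pow_le_pow_right₀ hL1 (le_max_right _ _))) hf
        exact pow_le_pow_left₀ (norm_nonneg _) h6 2
      refine (Finset.sum_le_card_nsmul _ _ _ hterm).trans ?_
      rw [nsmul_eq_mul]
      have h7 : ((F.filter (fun χ => χ ∈ 𝓑)).card : ℝ) ≤ Real.log X ^ C0 := by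
        refine le_trans ?_ hScard
        exact_mod_cast Finset.card_le_card hsub
      have h8 : (2 : ℝ) ≤ Real.log X ^ (A + C0 + 4) := by
        calc (2 : ℝ) ≤ Real.log X ^ 1 := by rw [pow_one]; linarith
          _ ≤ Real.log X ^ (A + C0 + 4) := pow_le_pow_right₀ hL1 (by omega)
      calc ((F.filter (fun χ => χ ∈ 𝓑)).card : ℝ) * (X / Real.log X ^ (A + C0 + 2)) ^ 2
          ≤ Real.log X ^ C0 * (X / Real.log X ^ (A + C0 + 2)) ^ 2 :=
            mul_le_mul_of_nonneg_right h7 (by positivity)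
        _ = X ^ 2 / Real.log X ^ A / Real.log X ^ (A + C0 + 4) := by
            have e : Real.log X ^ A * Real.log X ^ (A + C0 + 4) * Real.log X ^ C0 =
                (Real.log X ^ (A + C0 + 2)) ^ 2 := by
              ring
            rw [div_div, div_pow, ← e]
            field_simp
        _ ≤ X ^ 2 / Real.log X ^ A / 2 :=
            div_le_div_of_nonneg_left (by positivity) (by norm_num) h8
    have hgood : ∑ χ ∈ F.filter (fun χ => χ ∉ 𝓑), ‖Tc X q (fun n => Sv X n) (y / r + β) χ‖ ^ 2 ≤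
        X ^ 2 / Real.log X ^ A / 2 := by
      have h1G : (1 : DirichletCharacter ℂ q) ∉ F.filter (fun χ => χ ∉ 𝓑) := by
        intro h
        rw [mem_filter, hF, mem_filter] at h
        exact h.1.2.2.2 rfl
      have hdis : Disjoint (F.filter (fun χ => χ ∉ 𝓑)) 𝓑 := by
        rw [Finset.disjoint_left]
        intro χ hχ
        rw [mem_filter] at hχ
        exact hχ.2
      have hI := h2 X (by omega) q hq45 r y β hr hrB hrq hβ _ h1G
      have hII := hB3 _ hdis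
      have hE : ∑ χ ∈ F.filter (fun χ => χ ∉ 𝓑), ‖Tc X q er (y / r + β) χ‖ ^ 2 ≤
          ((X : ℝ) + q) * ∑ n ∈ Icc 1 X, er n ^ 2 := by
        have h := char_ms q 0 X (fun n => (er n : ℂ) * ee (n * (y / r + β)))
        have hI' : Ioc 0 (0 + X) = Icc 1 X := by
          ext n
          simp only [Finset.mem_Ioc, Finset.mem_Icc]
          omega
        rw [hI'] at h
        have e1 : ∀ χ : DirichletCharacter ℂ q,
            ∑ n ∈ Icc 1 X, (er n : ℂ) * ee (n * (y / r + β)) * χ n = Tc X q er (y / r + β) χ := by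
          intro χ
          unfold Tc
          refine Finset.sum_congr rfl fun n _ => ?_
          ring
        simp only [e1] at h
        have e2 : ∀ n : ℕ, ‖(er n : ℂ) * ee (n * (y / r + β))‖ ^ 2 = er n ^ 2 := by
          intro n
          rw [norm_mul, norm_ee, mul_one, Complex.norm_real, Real.norm_eq_abs, sq_abs]
        simp only [e2] at h
        exact (Finset.sum_le_sum_of_subset_of_nonneg (Finset.subset_univ _)
          fun _ _ _ => sq_nonneg _).trans h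
      have hE' : ∑ χ ∈ F.filter (fun χ => χ ∉ 𝓑), ‖Tc X q er (y / r + β) χ‖ ^ 2 ≤
          2 * (X ^ 2 / Real.log X ^ (A + 4)) := by
        refine hE.trans ?_
        calc ((X : ℝ) + q) * ∑ n ∈ Icc 1 X, er n ^ 2 ≤ (X + X) * (X / Real.log X ^ (A + 4)) :=
              mul_le_mul (by linarith) her2 (Finset.sum_nonneg fun n _ => sq_nonneg _)
                (by positivity)
          _ = 2 * (X ^ 2 / Real.log X ^ (A + 4)) := by ring
      have hsplit : ∀ χ ∈ F.filter (fun χ => χ ∉ 𝓑), ‖Tc X q (fun n => Sv X n) (y / r + β) χ‖ ^ 2 ≤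
          3 * (‖Tc X q (fun n => (kS X * lS X * ze) n) (y / r + β) χ‖ ^ 2 +
            ‖Tc X q (fun n => (aS X * (kS X * gS X)) n) (y / r + β) χ‖ ^ 2 +
            ‖Tc X q er (y / r + β) χ‖ ^ 2) := by
        intro χ _
        have e1 : Tc X q (fun n => Sv X n) (y / r + β) χ =
            Tc X q (fun n => (kS X * lS X * ze) n) (y / r + β) χ -
            Tc X q (fun n => (aS X * (kS X * gS X)) n) (y / r + β) χ +
            Tc X q er (y / r + β) χ := by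
          unfold Tc
          rw [← Finset.sum_sub_distrib, ← Finset.sum_add_distrib]
          refine Finset.sum_congr rfl fun n hn => ?_
          rw [mem_Icc] at hn
          simp only [her1 n hn.1 hn.2]
          push_cast
          ring
        rw [e1]
        generalize Tc X q (fun n => (kS X * lS X * ze) n) (y / r + β) χ = a
        generalize Tc X q (fun n => (aS X * (kS X * gS X)) n) (y / r + β) χ = b
        generalize Tc X q er (y / r + β) χ = c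
        have e2 : ‖a - b + c‖ ≤ ‖a‖ + ‖b‖ + ‖c‖ :=
          (norm_add_le _ _).trans (by linarith [norm_sub_le a b])
        have e3 := pow_le_pow_left₀ (norm_nonneg _) e2 2
        nlinarith [sq_nonneg (‖a‖ - ‖b‖), sq_nonneg (‖b‖ - ‖c‖), sq_nonneg (‖a‖ - ‖c‖)]
      refine (Finset.sum_le_sum hsplit).trans ?_
      rw [← Finset.mul_sum, Finset.sum_add_distrib, Finset.sum_add_distrib]
      have e4 : (X : ℝ) ^ 2 / Real.log X ^ (A + 3) ≤ X ^ 2 / Real.log X ^ A / 64 := by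
        rw [pow_add, ← div_div]
        refine div_le_div_of_nonneg_left (by positivity) (by norm_num) ?_
        calc (64 : ℝ) = 4 ^ 3 := by norm_num
          _ ≤ Real.log X ^ 3 := pow_le_pow_left₀ (by norm_num) hL4 3
      have e5 : (X : ℝ) ^ 2 / Real.log X ^ (A + 4) ≤ X ^ 2 / Real.log X ^ A / 256 := by
        rw [pow_add, ← div_div]
        refine div_le_div_of_nonneg_left (by positivity) (by norm_num) ?_
        calc (256 : ℝ) = 4 ^ 4 := by norm_num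
          _ ≤ Real.log X ^ 4 := pow_le_pow_left₀ (by norm_num) hL4 4
      have e6 : 0 ≤ (X : ℝ) ^ 2 / Real.log X ^ A := by positivity
      linarith
    have hfin := Finset.sum_filter_add_sum_filter_not F (fun χ => χ ∈ 𝓑)
      (fun χ => ‖Tc X q (fun n => Sv X n) (y / r + β) χ‖ ^ 2)
    have : ∑ χ ∈ F, ‖Tc X q (fun n => Sv X n) (y / r + β) χ‖ ^ 2 ≤ X ^ 2 / Real.log X ^ A := by
      rw [← hfin]
      linarith
    convert this using 2

end Pool.MP_dd84fd_nt.T7
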