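import Pool.Agent.Lib.MP_dd84fd_nt.T7.SvMinICore
import Pool.Agent.Lib.MP_dd84fd_nt.T7.SvBasic
import Pool.Agent.Lib.MP_dd84fd_nt.T7.AI2x
import Pool.Agent.Lib.MP_dd84fd_nt.L2G.BoxI2
import Pool.Agent.Lib.MP_dd84fd_nt.L2G.ClassAlg

set_option autoImplicit false

namespace Pool.MP_dd84fd_nt.T7

open Finset Pool.MP_67663b_nt.Odd Pool.MP_dd84fd_nt.L2G

theorem sv_minI (A : ℕ) : ∃ B0 : ℕ, ∀ B : ℕ, B0 ≤ B → ∃ X0 : ℕ, ∀ X : ℕ, X0 ≤ X →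
    ∀ q : ℕ, 1 ≤ q → (q : ℝ) ≤ (X : ℝ) ^ (4 / 5 : ℝ) → ∀ (θ : ℝ) (r : ℕ) (c : ℤ),
    MinorHyp X q B θ r c →
    VQ X q (fun n => (kS X * lS X * ze) n) θ ≤ X ^ 2 / (q * Real.log X ^ A) :=
  sv_minI_core a_I2x A

end Pool.MP_dd84fd_nt.T7
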