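import Pool.Agent.Lib.MP_dd84fd_nt.T7.BoxAux
import Pool.Agent.Lib.MP_dd84fd_nt.T7.SvBasic
import Pool.Agent.Lib.MP_dd84fd_nt.L2G.HBDefs
import Pool.Agent.Lib.MP_dd84fd_nt.L2G.ConvSum
import Pool.Agent.Lib.MP_dd84fd_nt.L2G.DivMom
import Pool.Agent.Lib.MP_dd84fd_nt.L2G.ClassAlg

/-!
T7-24 SvMinI. kS*lS*ze = lS*(ze*kS); conv_three: m <-> lS, k1 <-> ze, k2 <-> kS. Split k1 in [2^i,2^(i+1)), k2 in [2^j,2^(j+1)), i,j <= 2L (Cauchy: factor (2L+2)^2).
 If 2^j <= 2^i X^(1/20): empty unless 2^(i+j) <= X; h_a with eps = 1/5 (q <= X^(4/5) = X^(1-eps), eps/4 = 1/20), D = floor(X^(1/40)), N1 = 2^i, N2 = 2^j, g1 = 1, g2 = kS, alpha = lS, sum alpha^2/m <= 1+L.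
 If 2^j > 2^i X^(1/20): then j >= 1 and kS(k2) != 0 gives 2^(2j) <= k2^2 <= X, so n = m k1 k2 <= X^(1/40) 2^(i+1) 2^(j+1) <= 4 X^(1/40) 2^(2j) X^(-1/20) <= 4 X^(39/40): trivially, by Cauchy, a class mod q has <= X/q+1 <= 2X/q elements <= X:
 VQ <= (2X/q) sum_{n <= 4X^(39/40)} tau(n)^4.
-/

set_option autoImplicit false

namespace Pool.MP_dd84fd_nt.T7

open Finset Pool.MP_67663b_nt.Odd Pool.MP_dd84fd_nt.L2G

private lemma mi_units (X q : ℕ) [NeZero q] (f : ℕ → ℝ) (θ : ℝ) :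
    ∑ b ∈ univ.filter (fun b : ZMod q => IsUnit b), ‖fz X q f θ b‖ ^ 2 = VQ X q f θ := by
  classical
  unfold VQ
  refine Finset.sum_bij (fun b _ => ZMod.val b) ?_ ?_ ?_ ?_
  · intro b hb
    rw [Finset.mem_filter] at hb
    rw [Finset.mem_filter, Finset.mem_range]
    refine ⟨ZMod.val_lt b, ?_⟩
    have h1 := hb.2
    rw [← ZMod.natCast_zmod_val b, ZMod.isUnit_iff_coprime] at h1
    exact h1.symm
  · intro b _ c _ h
    exact ZMod.val_injective q h
  · intro k hk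
    rw [Finset.mem_filter, Finset.mem_range] at hk
    refine ⟨(k : ZMod q), ?_, ZMod.val_cast_of_lt hk.1⟩
    rw [Finset.mem_filter]
    exact ⟨Finset.mem_univ _, (ZMod.isUnit_iff_coprime k q).2 hk.2.symm⟩
  · intro b _
    unfold fz
    congr 2
    refine Finset.sum_congr ?_ fun _ _ => rfl
    ext n
    rw [Finset.mem_filter, Finset.mem_filter]
    refine and_congr_right fun _ => ?_
    constructor
    · intro h
      rw [← h, ZMod.val_natCast]
    · intro h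
      rw [← ZMod.natCast_zmod_val b, ← h, ZMod.natCast_mod]

private lemma mi_trivial (X q : ℕ) (hq : 1 ≤ q) (f : ℕ → ℝ) (θ : ℝ) :
    VQ X q f θ ≤ ((X : ℝ) / q + 1) * ∑ n ∈ Icc 1 X, f n ^ 2 := by
  have : NeZero q := ⟨by omega⟩
  refine le_trans ?_ (VA_trivial X q f θ)
  rw [← mi_units]
  unfold VA
  exact Finset.sum_le_sum_of_subset_of_nonneg (Finset.filter_subset _ _)
    fun _ _ _ => by positivity

private lemma mi_congr (X q : ℕ) (f g : ℕ → ℝ) (θ : ℝ)
    (h : ∀ n, 1 ≤ n → n ≤ X → f n = g n) : VQ X q f θ = VQ X q g θ := by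
  unfold VQ
  refine Finset.sum_congr rfl fun b _ => ?_
  congr 2
  refine Finset.sum_congr rfl fun n hn => ?_
  obtain ⟨h1, h2⟩ := Finset.mem_Icc.1 (Finset.mem_filter.1 hn).1
  rw [h n h1 h2]

private lemma mi_VQ {ι : Type*} (X q : ℕ) (s : Finset ι) (f : ι → ℕ → ℝ) (θ : ℝ) :
    VQ X q (fun n => ∑ i ∈ s, f i n) θ ≤ s.card * ∑ i ∈ s, VQ X q (f i) θ := by
  classical
  unfold VQ
  rw [Finset.sum_comm, Finset.mul_sum]
  refine Finset.sum_le_sum fun b _ => ?_
  have h1 : ∑ n ∈ (Icc 1 X).filter (fun n => n % q = b), ((∑ i ∈ s, f i n : ℝ) : ℂ) *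
      ee (n * θ) = ∑ i ∈ s, ∑ n ∈ (Icc 1 X).filter (fun n => n % q = b),
        (f i n : ℂ) * ee (n * θ) := by
    rw [Finset.sum_comm]
    refine Finset.sum_congr rfl fun n _ => ?_
    push_cast
    rw [Finset.sum_mul]
  rw [h1]
  calc ‖∑ i ∈ s, ∑ n ∈ (Icc 1 X).filter (fun n => n % q = b), (f i n : ℂ) * ee (n * θ)‖ ^ 2 ≤
        (∑ i ∈ s, ‖∑ n ∈ (Icc 1 X).filter (fun n => n % q = b), (f i n : ℂ) * ee (n * θ)‖) ^ 2 :=
        pow_le_pow_left₀ (norm_nonneg _) (norm_sum_le _ _) 2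
    _ ≤ _ := sq_sum_le_card_mul_sum_sq

private lemma mi_log (X : ℕ) (hX : 1 ≤ X) (hL : 2 ≤ Real.log X) :
    ((Nat.log 2 X + 1 : ℕ) : ℝ) ≤ 2 * Real.log X := by
  have h1 : 2 ^ Nat.log 2 X ≤ X := Nat.pow_log_le_self 2 (by omega)
  have h2 : (Nat.log 2 X : ℝ) * Real.log 2 ≤ Real.log X := by
    rw [← Real.log_pow]
    apply Real.log_le_log (by positivity)
    exact_mod_cast h1
  have h3 : (0.69 : ℝ) < Real.log 2 := by
    have := Real.log_two_gt_d9
    linarith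
  push_cast
  nlinarith [Nat.cast_nonneg (α := ℝ) (Nat.log 2 X)]

private lemma mi_sum_apply {ι : Type*} (s : Finset ι) (f : ι → ArithmeticFunction ℝ) (n : ℕ) :
    (∑ i ∈ s, f i) n = ∑ i ∈ s, f i n := by
  classical
  induction s using Finset.induction_on with
  | empty => simp
  | insert a s ha ih => rw [Finset.sum_insert ha, Finset.sum_insert ha, ← ih]; rfl

/-- dyadic decomposition -/
private lemma mi_restr (f : ArithmeticFunction ℝ) (X n : ℕ) (hn : n ≤ X) :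
    (∑ i ∈ range (Nat.log 2 X + 1), restr f i) n = f n := by
  classical
  rw [mi_sum_apply]
  by_cases hn0 : n = 0
  · rw [hn0]
    simp
  rw [Finset.sum_eq_single (Nat.log 2 n)]
  · unfold restr
    simp only [ArithmeticFunction.coe_mk]
    rw [if_pos ⟨Nat.pow_log_le_self 2 hn0, Nat.lt_pow_succ_log_self (by norm_num) n⟩]
  · intro i _ hi
    unfold restr
    simp only [ArithmeticFunction.coe_mk]
    rw [if_neg]
    rintro ⟨h1, h2⟩
    apply hi
    exact (Nat.log_eq_of_pow_le_of_lt_pow h1 h2).symm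
  · intro h
    exfalso
    apply h
    rw [mem_range]
    have := Nat.log_mono_right (b := 2) hn
    omega

private lemma mi_mul_congr (f f' g g' : ArithmeticFunction ℝ) (X : ℕ)
    (hf : ∀ n, n ≤ X → f n = f' n) (hg : ∀ n, n ≤ X → g n = g' n) (n : ℕ) (hn : n ≤ X) :
    (f * g) n = (f' * g') n := by
  rw [ArithmeticFunction.mul_apply, ArithmeticFunction.mul_apply]
  refine Finset.sum_congr rfl fun p hp => ?_
  rw [Nat.mem_divisorsAntidiagonal] at hp
  have h1 : p.1 ≤ n := Nat.le_of_dvd (by omega) (Dvd.intro _ hp.1)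
  have h2 : p.2 ≤ n := Nat.le_of_dvd (by omega) (Dvd.intro_left _ hp.1)
  rw [hf _ (h1.trans hn), hg _ (h2.trans hn)]

private lemma mi_restr_ne (f : ArithmeticFunction ℝ) (i n : ℕ) (h : restr f i n ≠ 0) :
    2 ^ i ≤ n ∧ n < 2 * 2 ^ i ∧ f n ≠ 0 := by
  unfold restr at h
  simp only [ArithmeticFunction.coe_mk] at h
  split_ifs at h with h1
  · rw [pow_succ] at h1
    exact ⟨h1.1, by omega, h⟩
  · exact absurd rfl h

private lemma mi_restr_abs (f : ArithmeticFunction ℝ) (hf : ∀ n, |f n| ≤ 1) (i n : ℕ) :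
    |restr f i n| ≤ 1 := by
  unfold restr
  simp only [ArithmeticFunction.coe_mk]
  split_ifs
  · exact hf n
  · rw [abs_zero]; norm_num

private lemma mi_ze (n : ℕ) : |ze n| ≤ 1 := by
  unfold ze
  rw [ArithmeticFunction.natCoe_apply]
  by_cases h : n = 0
  · rw [h]; simp
  · rw [ArithmeticFunction.zeta_apply_ne h]; simp

private lemma mi_ze_one (n : ℕ) (hn : n ≠ 0) : ze n = 1 := by
  unfold ze
  rw [ArithmeticFunction.natCoe_apply, ArithmeticFunction.zeta_apply_ne hn]; simp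

/-- the size of one box -/
private lemma mi_abs (X i j n : ℕ) (hn : 1 ≤ n) :
    |(lS X * (restr ze i * restr (kS X) j)) n| ≤ (n.divisors.card : ℝ) ^ 2 := by
  classical
  rw [ArithmeticFunction.mul_apply]
  rw [Nat.sum_divisorsAntidiagonal (fun a b => lS X a * (restr ze i * restr (kS X) j) b)]
  refine (Finset.abs_sum_le_sum_abs _ _).trans ?_
  have h1 : ∀ d ∈ n.divisors, |lS X d * (restr ze i * restr (kS X) j) (n / d)| ≤
      (n.divisors.card : ℝ) := by
    intro d hd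
    rw [Nat.mem_divisors] at hd
    rw [abs_mul]
    have h2 : |(restr ze i * restr (kS X) j) (n / d)| ≤ ((n / d).divisors.card : ℝ) :=
      conv_abs _ _ (mi_restr_abs _ mi_ze i) (mi_restr_abs _ (fun n => (coef_abs X n).1) j) _
    have h3 : ((n / d).divisors.card : ℝ) ≤ n.divisors.card := by
      exact_mod_cast Finset.card_le_card (Nat.divisors_subset_of_dvd (by omega)
        (Nat.div_dvd_of_dvd hd.1))
    calc |lS X d| * |(restr ze i * restr (kS X) j) (n / d)| ≤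
          1 * |(restr ze i * restr (kS X) j) (n / d)| :=
          mul_le_mul_of_nonneg_right (coef_abs X d).2.1 (abs_nonneg _)
      _ ≤ _ := by rw [one_mul]; exact h2.trans h3
  refine (Finset.sum_le_sum h1).trans (le_of_eq ?_)
  rw [Finset.sum_const, nsmul_eq_mul, sq]

/-- the support of one box with long second factor -/
private lemma mi_supp (X i j n : ℕ) (hX : 1 ≤ X)
    (hij : (2 : ℝ) ^ i * (X : ℝ) ^ (1 / 20 : ℝ) < 2 ^ j)
    (h : (lS X * (restr ze i * restr (kS X) j)) n ≠ 0) :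
    (n : ℝ) ≤ 4 * (X : ℝ) ^ (39 / 40 : ℝ) := by
  classical
  have hXp : (0 : ℝ) < X := by exact_mod_cast hX
  have hX1 : (1 : ℝ) ≤ X := by exact_mod_cast hX
  rw [ArithmeticFunction.mul_apply] at h
  obtain ⟨⟨m, k⟩, hp, hne⟩ := Finset.exists_ne_zero_of_sum_ne_zero h
  rw [Nat.mem_divisorsAntidiagonal] at hp
  simp only at hp hne
  have hm : lS X m ≠ 0 := left_ne_zero_of_mul hne
  have hk : (restr ze i * restr (kS X) j) k ≠ 0 := right_ne_zero_of_mul hne
  rw [ArithmeticFunction.mul_apply] at hk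
  obtain ⟨⟨k1, k2⟩, hp', hne'⟩ := Finset.exists_ne_zero_of_sum_ne_zero hk
  rw [Nat.mem_divisorsAntidiagonal] at hp'
  simp only at hp' hne'
  obtain ⟨a1, a2, _⟩ := mi_restr_ne _ _ _ (left_ne_zero_of_mul hne')
  obtain ⟨b1, b2, b3⟩ := mi_restr_ne _ _ _ (right_ne_zero_of_mul hne')
  have hm' : (m : ℝ) ≤ (X : ℝ) ^ (1 / 40 : ℝ) := by
    unfold lS at hm
    simp only [ArithmeticFunction.coe_mk] at hm
    split_ifs at hm with h1
    · exact h1.2.1
    · exact absurd rfl hm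
  have hX20 : (1 : ℝ) ≤ (X : ℝ) ^ (1 / 20 : ℝ) := Real.one_le_rpow hX1 (by norm_num)
  have hj1 : (1 : ℝ) < 2 ^ j := by
    have h1 : (1 : ℝ) ≤ 2 ^ i := one_le_pow₀ (by norm_num)
    nlinarith
  have hk2 : 2 ≤ k2 := by
    have h1 : 1 < 2 ^ j := by exact_mod_cast hj1
    omega
  have hk2X : k2 ^ 2 ≤ X := by
    unfold kS at b3
    simp only [ArithmeticFunction.coe_mk] at b3
    rw [if_neg (by omega)] at b3
    split_ifs at b3 with h1
    · exact h1.2.2
    · exact absurd rfl b3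
  have hjX : ((2 : ℝ) ^ j) * 2 ^ j ≤ X := by
    have h1 : (2 ^ j) * 2 ^ j ≤ X := by
      calc (2 ^ j) * 2 ^ j ≤ k2 * k2 := Nat.mul_le_mul b1 b1
        _ = k2 ^ 2 := (sq k2).symm
        _ ≤ X := hk2X
    exact_mod_cast h1
  have e1 : (n : ℝ) = m * (k1 * k2) := by
    rw [← hp.1, ← hp'.1]
    push_cast
    ring
  have hk1' : (k1 : ℝ) ≤ 2 * 2 ^ i := by exact_mod_cast a2.le
  have hk2' : (k2 : ℝ) ≤ 2 * 2 ^ j := by exact_mod_cast b2.le
  have e2 : (X : ℝ) ^ (1 / 40 : ℝ) * (X : ℝ) ^ (39 / 40 : ℝ) = X := by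
    rw [← Real.rpow_add hXp]
    norm_num
  have e3 : (X : ℝ) ^ (1 / 20 : ℝ) = (X : ℝ) ^ (1 / 40 : ℝ) * (X : ℝ) ^ (1 / 40 : ℝ) := by
    rw [← Real.rpow_add hXp]
    norm_num
  have hu : 0 < (X : ℝ) ^ (1 / 40 : ℝ) := by positivity
  have e4 : (n : ℝ) * (X : ℝ) ^ (1 / 40 : ℝ) ≤ (4 * (X : ℝ) ^ (39 / 40 : ℝ)) *
      (X : ℝ) ^ (1 / 40 : ℝ) := by
    rw [e1]
    calc (m : ℝ) * (k1 * k2) * (X : ℝ) ^ (1 / 40 : ℝ) ≤
          (X : ℝ) ^ (1 / 40 : ℝ) * ((2 * 2 ^ i) * (2 * 2 ^ j)) * (X : ℝ) ^ (1 / 40 : ℝ) := by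
          gcongr
      _ = 4 * ((2 ^ i * ((X : ℝ) ^ (1 / 40 : ℝ) * (X : ℝ) ^ (1 / 40 : ℝ))) * 2 ^ j) := by ring
      _ ≤ 4 * (2 ^ j * 2 ^ j) := by
          rw [← e3]
          gcongr
      _ ≤ 4 * X := by linarith
      _ = (4 * (X : ℝ) ^ (39 / 40 : ℝ)) * (X : ℝ) ^ (1 / 40 : ℝ) := by
          rw [mul_assoc, mul_comm ((X : ℝ) ^ (39 / 40 : ℝ)), e2]
  exact le_of_mul_le_mul_right e4 hu

theorem sv_minI_core
    (h_a : ∀ (ε : ℝ) (hε : 0 < ε) (hε1 : ε < 1) (A : ℕ), ∃ B0 : ℕ, ∀ B : ℕ, B0 ≤ B →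
    ∃ X0 : ℕ, ∀ X : ℕ, X0 ≤ X → ∀ q : ℕ, 1 ≤ q → (q : ℝ) ≤ (X : ℝ) ^ (1 - ε) →
    ∀ (θ : ℝ) (r : ℕ) (c : ℤ), MinorHyp X q B θ r c →
    ∀ (D N1 N2 : ℕ) (α g1 g2 : ℕ → ℝ), (D : ℝ) ≤ (X : ℝ) ^ (ε / 4) → 1 ≤ N1 → 1 ≤ N2 →
    (N2 : ℝ) ≤ N1 * (X : ℝ) ^ (ε / 4) →
    N1 * N2 ≤ X → (∀ k ∈ Ico N1 (2 * N1), 0 ≤ g1 k ∧ g1 k ≤ 2 + Real.log X) →
    MonotoneOn g1 (Set.Ico N1 (2 * N1)) → (∀ k ∈ Ico N2 (2 * N2), |g2 k| ≤ 2 + Real.log X) →
    ∑ b ∈ (range q).filter (Nat.Coprime q),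
      ‖∑ m ∈ Icc 1 D, ∑ k1 ∈ Ico N1 (2 * N1), ∑ k2 ∈ Ico N2 (2 * N2),
        if m * k1 * k2 ≤ X ∧ (m * k1 * k2) % q = b then
          ((α m * (g1 k1 * g2 k2) : ℝ) : ℂ) * ee (((m * k1 * k2 : ℕ) : ℝ) * θ) else 0‖ ^ 2 ≤
      (∑ m ∈ Icc 1 D, α m ^ 2 / m) * (X ^ 2 / (q * Real.log X ^ A)))
    (A : ℕ) : ∃ B0 : ℕ, ∀ B : ℕ, B0 ≤ B → ∃ X0 : ℕ, ∀ X : ℕ, X0 ≤ X →
    ∀ q : ℕ, 1 ≤ q → (q : ℝ) ≤ (X : ℝ) ^ (4 / 5 : ℝ) → ∀ (θ : ℝ) (r : ℕ) (c : ℤ),
    MinorHyp X q B θ r c →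
    VQ X q (fun n => (kS X * lS X * ze) n) θ ≤ X ^ 2 / (q * Real.log X ^ A) := by
  classical
  obtain ⟨C0, hC0⟩ := div_mom 0
  obtain ⟨C4, hC4⟩ := div_mom 4
  obtain ⟨Ax, hAx⟩ : ∃ Ax : ℕ, Ax = A + 5 + 2 * C0 := ⟨_, rfl⟩
  obtain ⟨B0, hB0⟩ := h_a (1 / 5) (by norm_num) (by norm_num) Ax
  refine ⟨B0, fun B hB => ?_⟩
  obtain ⟨X1, hX1⟩ := hB0 B hB
  obtain ⟨X2, hX2⟩ := t7box_ev_log 4 0 (1 / 40) (by norm_num)
  obtain ⟨X3, hX3⟩ := t7box_ev_log 8 (2 * C4 + (A + 5)) (1 / 40) (by norm_num)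
  obtain ⟨X4, hX4⟩ := Filter.eventually_atTop.1
    (tendsto_natCast_atTop_atTop.eventually
      (Real.tendsto_log_atTop.eventually_ge_atTop (64 : ℝ)))
  refine ⟨X1 + X2 + X3 + X4 + 2, fun X hX q hq hqX θ r c hmin => ?_⟩
  have hI2 := hX1 X (by omega) q hq (by
    refine hqX.trans (le_of_eq ?_)
    congr 1
    norm_num) θ r c hmin
  have k2 := hX2 X (by omega)
  have k3 := hX3 X (by omega)
  have hL64 := hX4 X (by omega)
  rw [pow_zero, mul_one] at k2
  have hXR : (2 : ℝ) ≤ X := by exact_mod_cast (by omega : 2 ≤ X)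
  have hX0 : (0 : ℝ) < X := by linarith
  have hX1' : (1 : ℝ) ≤ X := by linarith
  have hJ := mi_log X (by omega) (by linarith)
  obtain ⟨L, hL⟩ : ∃ L : ℝ, L = Real.log X := ⟨_, rfl⟩
  rw [← hL] at hL64 k3 hI2 hJ ⊢
  have hL1 : 1 ≤ L := by linarith
  have hL0 : 0 < L := by linarith
  have hqR : (1 : ℝ) ≤ q := by exact_mod_cast hq
  have hq0 : (0 : ℝ) < q := by linarith
  have hqX' : (q : ℝ) ≤ X := by
    refine hqX.trans ?_
    calc (X : ℝ) ^ (4 / 5 : ℝ) ≤ (X : ℝ) ^ (1 : ℝ) :=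
          Real.rpow_le_rpow_of_exponent_le hX1' (by norm_num)
      _ = X := Real.rpow_one _
  obtain ⟨D, hD⟩ : ∃ D : ℕ, D = ⌊(X : ℝ) ^ (1 / 40 : ℝ)⌋₊ := ⟨_, rfl⟩
  have hD1 : 1 ≤ D := by
    rw [hD]
    exact Nat.le_floor (by
      push_cast
      exact Real.one_le_rpow hX1' (by norm_num))
  have hDX : (D : ℝ) ≤ (X : ℝ) ^ (1 / 40 : ℝ) := by
    rw [hD]
    exact Nat.floor_le (by positivity)
  have hDX2 : (D : ℝ) ≤ (X : ℝ) ^ ((1 / 5 : ℝ) / 4) :=
    hDX.trans (Real.rpow_le_rpow_of_exponent_le hX1' (by norm_num))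
  have hDX3 : (D : ℝ) ≤ X := by
    refine hDX.trans ?_
    calc (X : ℝ) ^ (1 / 40 : ℝ) ≤ (X : ℝ) ^ (1 : ℝ) :=
          Real.rpow_le_rpow_of_exponent_le hX1' (by norm_num)
      _ = X := Real.rpow_one _
  have hlogle : ∀ N : ℕ, 1 ≤ N → (N : ℝ) ≤ X → 1 + Real.log N ≤ L ^ 2 := by
    intro N h1 h2
    have h3 : (0 : ℝ) < N := by exact_mod_cast h1
    have : Real.log N ≤ L := by rw [hL]; exact Real.log_le_log h3 h2
    nlinarith
  have hsumD : ∑ m ∈ Icc 1 D, (lS X m) ^ 2 / m ≤ L ^ (2 * C0) := by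
    have h1 := (hC0 D hD1).2
    have h2 : ∑ m ∈ Icc 1 D, (lS X m) ^ 2 / m ≤
        ∑ n ∈ Icc 1 D, (n.divisors.card : ℝ) ^ 0 / n := by
      refine Finset.sum_le_sum fun m _ => ?_
      rw [pow_zero]
      have h3 := (coef_abs X m).2.1
      have h4 : (lS X m) ^ 2 ≤ 1 := by
        rw [← sq_abs]
        have := abs_nonneg (lS X m)
        nlinarith
      exact div_le_div_of_nonneg_right h4 (by positivity)
    refine h2.trans (h1.trans ?_)
    rw [pow_mul]
    have h3 : 0 ≤ Real.log D := Real.log_natCast_nonneg D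
    exact pow_le_pow_left₀ (by positivity) (hlogle D hD1 hDX3) _
  -- one box
  have hbox : ∀ i j : ℕ, VQ X q (fun n => (lS X * (restr ze i * restr (kS X) j)) n) θ ≤
      X ^ 2 / (q * L ^ (A + 5)) := by
    intro i j
    by_cases hcase : (2 : ℝ) ^ j ≤ 2 ^ i * (X : ℝ) ^ ((1 / 5 : ℝ) / 4)
    · have hVQ : VQ X q (fun n => (lS X * (restr ze i * restr (kS X) j)) n) θ =
          ∑ b ∈ (range q).filter (Nat.Coprime q),
          ‖∑ m ∈ Icc 1 D, ∑ k1 ∈ Ico (2 ^ i) (2 * 2 ^ i), ∑ k2 ∈ Ico (2 ^ j) (2 * 2 ^ j),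
            if m * k1 * k2 ≤ X ∧ (m * k1 * k2) % q = b then
              ((lS X m * (restr ze i k1 * restr (kS X) j k2) : ℝ) : ℂ) *
                ee (((m * k1 * k2 : ℕ) : ℝ) * θ) else 0‖ ^ 2 := by
        unfold VQ
        refine Finset.sum_congr rfl fun b _ => ?_
        rw [conv_three (lS X) (restr ze i) (restr (kS X) j) X (fun n => n % q = b)
          (fun n => ee ((n : ℝ) * θ))]
        rw [t7box_restrict (fun n => lS X n) (fun n => restr ze i n)
          (fun n => restr (kS X) j n) X D (2 ^ i) (2 ^ j) Nat.one_le_two_pow Nat.one_le_two_pow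
          ?_ ?_ ?_ (fun n => n % q = b) (fun n => ee ((n : ℝ) * θ))]
        · intro n hn
          unfold lS at hn
          simp only [ArithmeticFunction.coe_mk] at hn
          split_ifs at hn with h1
          · rw [hD]
            exact Nat.le_floor h1.2.1
          · exact absurd rfl hn
        · intro n hn
          obtain ⟨h1, h2, _⟩ := mi_restr_ne _ _ _ hn
          exact mem_Ico.2 ⟨h1, h2⟩
        · intro n hn
          obtain ⟨h1, h2, _⟩ := mi_restr_ne _ _ _ hn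
          exact mem_Ico.2 ⟨h1, h2⟩
      rw [hVQ]
      by_cases hprod : 2 ^ i * 2 ^ j ≤ X
      · have h1 := hI2 D (2 ^ i) (2 ^ j) (fun n => lS X n) (fun n => restr ze i n)
          (fun n => restr (kS X) j n) hDX2 Nat.one_le_two_pow Nat.one_le_two_pow
          (by push_cast; exact hcase) hprod ?_ ?_ ?_
        · refine h1.trans ?_
          have h2 : (∑ m ∈ Icc 1 D, (lS X m) ^ 2 / m) * ((X : ℝ) ^ 2 / (q * L ^ Ax)) ≤
              L ^ (2 * C0) * (X ^ 2 / (q * L ^ Ax)) :=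
            mul_le_mul_of_nonneg_right hsumD (by positivity)
          refine h2.trans (le_of_eq ?_)
          rw [hAx, pow_add L (A + 5)]
          field_simp
        · intro k hk
          rw [mem_Ico] at hk
          have h2 : restr ze i k = 1 := by
            unfold restr
            simp only [ArithmeticFunction.coe_mk]
            rw [if_pos ⟨hk.1, by rw [pow_succ]; omega⟩]
            have h3 : 1 ≤ 2 ^ i := Nat.one_le_two_pow
            exact mi_ze_one k (by omega)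
          simp only [h2]
          exact ⟨by norm_num, by linarith⟩
        · intro k hk l hl _
          have h2 : ∀ k ∈ Set.Ico (2 ^ i) (2 * 2 ^ i), restr ze i k = 1 := by
            intro k hk
            rw [Set.mem_Ico] at hk
            unfold restr
            simp only [ArithmeticFunction.coe_mk]
            rw [if_pos ⟨hk.1, by rw [pow_succ]; omega⟩]
            have h3 : 1 ≤ 2 ^ i := Nat.one_le_two_pow
            exact mi_ze_one k (by omega)
          simp only [h2 k hk, h2 l hl, le_refl]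
        · intro k _
          have := mi_restr_abs (kS X) (fun n => (coef_abs X n).1) j k
          linarith
      · have h1 : ∑ b ∈ (range q).filter (Nat.Coprime q),
          ‖∑ m ∈ Icc 1 D, ∑ k1 ∈ Ico (2 ^ i) (2 * 2 ^ i), ∑ k2 ∈ Ico (2 ^ j) (2 * 2 ^ j),
            if m * k1 * k2 ≤ X ∧ (m * k1 * k2) % q = b then
              ((lS X m * (restr ze i k1 * restr (kS X) j k2) : ℝ) : ℂ) *
                ee (((m * k1 * k2 : ℕ) : ℝ) * θ) else 0‖ ^ 2 = 0 := by
          refine Finset.sum_eq_zero fun b _ => ?_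
          have h2 : ∑ m ∈ Icc 1 D, ∑ k1 ∈ Ico (2 ^ i) (2 * 2 ^ i),
              ∑ k2 ∈ Ico (2 ^ j) (2 * 2 ^ j), (if m * k1 * k2 ≤ X ∧ (m * k1 * k2) % q = b then
              ((lS X m * (restr ze i k1 * restr (kS X) j k2) : ℝ) : ℂ) *
                ee (((m * k1 * k2 : ℕ) : ℝ) * θ) else 0) = 0 := by
            refine Finset.sum_eq_zero fun m hm => Finset.sum_eq_zero fun k1 hk1 =>
              Finset.sum_eq_zero fun k2 hk2 => ?_
            rw [mem_Icc] at hm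
            rw [mem_Ico] at hk1 hk2
            rw [if_neg]
            rintro ⟨h3, _⟩
            apply hprod
            calc 2 ^ i * 2 ^ j ≤ k1 * k2 := Nat.mul_le_mul hk1.1 hk2.1
              _ ≤ m * (k1 * k2) := Nat.le_mul_of_pos_left _ (by omega)
              _ = m * k1 * k2 := by ring
              _ ≤ X := h3
          rw [h2]
          simp
        rw [h1]
        positivity
    · push Not at hcase
      have hcase' : (2 : ℝ) ^ i * (X : ℝ) ^ (1 / 20 : ℝ) < 2 ^ j := by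
        have e : ((1 : ℝ) / 5) / 4 = 1 / 20 := by norm_num
        rw [e] at hcase
        exact hcase
      refine (mi_trivial X q hq _ θ).trans ?_
      obtain ⟨N, hN⟩ : ∃ N : ℕ, N = ⌊4 * (X : ℝ) ^ (39 / 40 : ℝ)⌋₊ := ⟨_, rfl⟩
      have hNX : (N : ℝ) ≤ 4 * (X : ℝ) ^ (39 / 40 : ℝ) := by
        rw [hN]
        exact Nat.floor_le (by positivity)
      have hN1 : 1 ≤ N := by
        rw [hN]
        apply Nat.le_floor
        push_cast
        have := Real.one_le_rpow hX1' (by norm_num : (0 : ℝ) ≤ 39 / 40)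
        linarith
      have e2 : (X : ℝ) ^ (1 / 40 : ℝ) * (X : ℝ) ^ (39 / 40 : ℝ) = X := by
        rw [← Real.rpow_add hX0]
        norm_num
      have hNX' : (N : ℝ) ≤ X := by
        refine hNX.trans ?_
        calc 4 * (X : ℝ) ^ (39 / 40 : ℝ) ≤ (X : ℝ) ^ (1 / 40 : ℝ) * (X : ℝ) ^ (39 / 40 : ℝ) :=
              mul_le_mul_of_nonneg_right k2 (by positivity)
          _ = X := e2
      have hsum : ∑ n ∈ Icc 1 X, ((lS X * (restr ze i * restr (kS X) j)) n) ^ 2 ≤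
          4 * (X : ℝ) ^ (39 / 40 : ℝ) * L ^ (2 * C4) := by
        have h1 : ∑ n ∈ Icc 1 X, ((lS X * (restr ze i * restr (kS X) j)) n) ^ 2 ≤
            ∑ n ∈ Icc 1 X, if n ≤ N then (n.divisors.card : ℝ) ^ 4 else 0 := by
          refine Finset.sum_le_sum fun n hn => ?_
          rw [mem_Icc] at hn
          by_cases h0 : (lS X * (restr ze i * restr (kS X) j)) n = 0
          · rw [h0, zero_pow (by norm_num)]
            split_ifs
            · positivity
            · norm_num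
          · have h2 : n ≤ N := by
              rw [hN]
              exact Nat.le_floor (mi_supp X i j n (by omega) hcase' h0)
            rw [if_pos h2, ← sq_abs]
            calc |(lS X * (restr ze i * restr (kS X) j)) n| ^ 2 ≤
                  ((n.divisors.card : ℝ) ^ 2) ^ 2 :=
                  pow_le_pow_left₀ (abs_nonneg _) (mi_abs X i j n hn.1) 2
              _ = _ := by ring
        refine h1.trans ?_
        rw [← Finset.sum_filter]
        have h2 : ∑ n ∈ (Icc 1 X).filter (fun n => n ≤ N), (n.divisors.card : ℝ) ^ 4 ≤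
            ∑ n ∈ Icc 1 N, (n.divisors.card : ℝ) ^ 4 := by
          apply Finset.sum_le_sum_of_subset_of_nonneg
          · intro n hn
            rw [mem_filter, mem_Icc] at hn
            exact mem_Icc.2 ⟨hn.1.1, hn.2⟩
          · intro n _ _
            positivity
        refine h2.trans ((hC4 N hN1).1.trans ?_)
        have h3 : 0 ≤ Real.log N := Real.log_natCast_nonneg N
        have h4 : (1 + Real.log N) ^ C4 ≤ L ^ (2 * C4) := by
          rw [pow_mul]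
          exact pow_le_pow_left₀ (by positivity) (hlogle N hN1 hNX') _
        exact mul_le_mul hNX h4 (by positivity) (by positivity)
      have h5 : (X : ℝ) / q + 1 ≤ 2 * X / q := by
        rw [le_div_iff₀ hq0, add_mul, div_mul_cancel₀ _ hq0.ne']
        linarith
      calc ((X : ℝ) / q + 1) * ∑ n ∈ Icc 1 X, ((lS X * (restr ze i * restr (kS X) j)) n) ^ 2 ≤
            (2 * X / q) * (4 * (X : ℝ) ^ (39 / 40 : ℝ) * L ^ (2 * C4)) :=
            mul_le_mul h5 hsum (Finset.sum_nonneg fun n _ => sq_nonneg _) (by positivity)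
        _ ≤ X ^ 2 / (q * L ^ (A + 5)) := by
            rw [le_div_iff₀ (by positivity)]
            have h6 : (2 * (X : ℝ) / q) * (4 * (X : ℝ) ^ (39 / 40 : ℝ) * L ^ (2 * C4)) *
                (q * L ^ (A + 5)) = X * ((8 * L ^ (2 * C4 + (A + 5))) *
                  (X : ℝ) ^ (39 / 40 : ℝ)) := by
              rw [pow_add L (2 * C4)]
              field_simp
              ring
            rw [h6]
            calc (X : ℝ) * ((8 * L ^ (2 * C4 + (A + 5))) * (X : ℝ) ^ (39 / 40 : ℝ)) ≤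
                  X * ((X : ℝ) ^ (1 / 40 : ℝ) * (X : ℝ) ^ (39 / 40 : ℝ)) := by gcongr
              _ = X ^ 2 := by rw [e2]; ring
  -- the decomposition
  have hfun : ∀ n, 1 ≤ n → n ≤ X → (kS X * lS X * ze) n =
      ∑ ij ∈ range (Nat.log 2 X + 1) ×ˢ range (Nat.log 2 X + 1),
        (lS X * (restr ze ij.1 * restr (kS X) ij.2)) n := by
    intro n _ hnX
    have h1 : kS X * lS X * ze = lS X * (ze * kS X) := by ring
    rw [h1]
    have h2 : (lS X * (ze * kS X)) n =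
        (lS X * ((∑ i ∈ range (Nat.log 2 X + 1), restr ze i) *
          (∑ j ∈ range (Nat.log 2 X + 1), restr (kS X) j))) n := by
      refine mi_mul_congr _ _ _ _ X (fun _ _ => rfl) (fun m hm => ?_) n hnX
      exact mi_mul_congr _ _ _ _ X (fun k hk => (mi_restr ze X k hk).symm)
        (fun k hk => (mi_restr (kS X) X k hk).symm) m hm
    rw [h2, Finset.sum_mul_sum, Finset.mul_sum]
    simp_rw [Finset.mul_sum]
    rw [← Finset.sum_product', mi_sum_apply]
  rw [mi_congr X q _ (fun n => ∑ ij ∈ range (Nat.log 2 X + 1) ×ˢ range (Nat.log 2 X + 1),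
        (lS X * (restr ze ij.1 * restr (kS X) ij.2)) n) θ hfun]
  refine (mi_VQ X q (range (Nat.log 2 X + 1) ×ˢ range (Nat.log 2 X + 1))
    (fun ij n => (lS X * (restr ze ij.1 * restr (kS X) ij.2)) n) θ).trans ?_
  have h1 := Finset.sum_le_sum (s := range (Nat.log 2 X + 1) ×ˢ range (Nat.log 2 X + 1))
    (fun ij _ => hbox ij.1 ij.2)
  rw [Finset.sum_const, nsmul_eq_mul] at h1
  refine (mul_le_mul_of_nonneg_left h1 (Nat.cast_nonneg _)).trans ?_
  rw [Finset.card_product, Finset.card_range, Nat.cast_mul]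
  calc (((Nat.log 2 X + 1 : ℕ) : ℝ) * ((Nat.log 2 X + 1 : ℕ) : ℝ)) *
        ((((Nat.log 2 X + 1 : ℕ) : ℝ) * ((Nat.log 2 X + 1 : ℕ) : ℝ)) *
        (X ^ 2 / (q * L ^ (A + 5)))) ≤
        ((2 * L) * (2 * L)) * (((2 * L) * (2 * L)) * (X ^ 2 / (q * L ^ (A + 5)))) := by
        gcongr
    _ ≤ X ^ 2 / (q * L ^ A) := by
        have h2 : ((2 * L) * (2 * L)) * (((2 * L) * (2 * L)) * (X ^ 2 / (q * L ^ (A + 5)))) =
            16 * X ^ 2 / (q * L ^ A * L) := by
          field_simp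
          ring
        rw [h2, div_le_div_iff₀ (by positivity) (by positivity)]
        have h3 : 0 ≤ (X : ℝ) ^ 2 * (q * L ^ A) := by positivity
        nlinarith

end Pool.MP_dd84fd_nt.T7
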