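import Pool.Agent.Lib.MP_dd84fd_nt.T7.SvBasic
import Pool.Agent.Lib.MP_dd84fd_nt.L2G.BoxII

/-!
T7-25 SvMinII (compare L2G/BoxII). aS = sum over dyadic pieces a_i (primes in [2^i, 2^(i+1))), wS X / 2 < 2^i < zS X: at most 2L pieces. For one piece, P = 2^i: conv_two, a_II with M = 2P, K = X/P, alpha = a_i, beta = kS*gS (|beta| <= tau, div_mom 2):
 |q theta - c/r| <= q L^B/(rX) <= 1/r^2 as r <= X/(qL^B). V <= C P K L^C (K/(qr)+1)(2P+r(1+L)) <= C L^C X [X/(qr) + X/(qP) + P + r] (PK <= X), and r > L^B, P >= wS X/2 >= L^(A') for X large, q P <= 2 X^(4/5-eps+1/5) = 2 X^(1-eps), r <= X/(q L^B).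
-/

set_option autoImplicit false

namespace Pool.MP_dd84fd_nt.T7

open Finset Pool.MP_67663b_nt.Odd Pool.MP_dd84fd_nt.L2G

private lemma m2_large (K : ℕ) : ∃ X0 : ℕ, ∀ X : ℕ, X0 ≤ X →
    64 ≤ Real.log X ∧ Real.log X ^ K ≤ wS X := by
  have h1 : ∀ᶠ x : ℝ in Filter.atTop, 64 ≤ Real.log x :=
    Real.tendsto_log_atTop.eventually_ge_atTop 64
  have h2 : ∀ᶠ x : ℝ in Filter.atTop, ‖(K : ℝ) * Real.log x ^ 3‖ ≤ 1 * ‖x‖ :=
    ((Real.isLittleO_pow_log_id_atTop (n := 3)).const_mul_left (K : ℝ)).bound one_pos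
  have h2' := Real.tendsto_log_atTop.eventually h2
  have h3 : ∀ᶠ x : ℝ in Filter.atTop, 3 ≤ Real.log (Real.log x) :=
    (Real.tendsto_log_atTop.comp Real.tendsto_log_atTop).eventually_ge_atTop 3
  have h4 : ∀ᶠ X : ℕ in Filter.atTop, 64 ≤ Real.log X ∧ Real.log X ^ K ≤ wS X := by
    filter_upwards [tendsto_natCast_atTop_atTop.eventually h1,
      tendsto_natCast_atTop_atTop.eventually h2',
      tendsto_natCast_atTop_atTop.eventually h3, Filter.eventually_ge_atTop 1] with X ha hb hc hX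
    have hL0 : 0 < Real.log X := by linarith
    have hLL : 0 < Real.log (Real.log X) := by linarith
    refine ⟨ha, ?_⟩
    refine le_trans ?_ (Nat.le_ceil _)
    rw [Real.norm_eq_abs, Real.norm_eq_abs, one_mul, abs_of_nonneg hL0.le] at hb
    have hb' := (le_abs_self _).trans hb
    have e1 : Real.log X ^ K = Real.exp (K * Real.log (Real.log X)) := by
      rw [mul_comm, Real.exp_mul, Real.exp_log hL0, Real.rpow_natCast]
    rw [e1]
    apply Real.exp_le_exp.2
    rw [le_div_iff₀ (by positivity)]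
    calc K * Real.log (Real.log X) * Real.log (Real.log X) ^ 2 =
          K * Real.log (Real.log X) ^ 3 := by ring
      _ ≤ _ := hb'
  exact Filter.eventually_atTop.1 h4

/-- dyadic decomposition of a function supported on `[1, X]` -/
private lemma m2_restr (f : ArithmeticFunction ℝ) (X : ℕ) (hf : ∀ n, f n ≠ 0 → n ≤ X) :
    f = ∑ i ∈ range (Nat.log 2 X + 1), restr f i := by
  classical
  ext n
  have h0 : (∑ i ∈ range (Nat.log 2 X + 1), restr f i) n =
      ∑ i ∈ range (Nat.log 2 X + 1), restr f i n := by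
    induction (range (Nat.log 2 X + 1)) using Finset.induction_on with
    | empty => simp
    | insert a s ha ih => rw [Finset.sum_insert ha, Finset.sum_insert ha, ← ih]; rfl
  rw [h0]
  by_cases hn : f n = 0
  · rw [hn]
    symm
    refine Finset.sum_eq_zero fun i _ => ?_
    unfold restr
    simp only [ArithmeticFunction.coe_mk]
    rw [hn]
    simp
  · have hn0 : n ≠ 0 := by
      rintro rfl
      simp at hn
    rw [Finset.sum_eq_single (Nat.log 2 n)]
    · unfold restr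
      simp only [ArithmeticFunction.coe_mk]
      rw [if_pos ⟨Nat.pow_log_le_self 2 hn0, Nat.lt_pow_succ_log_self (by norm_num) n⟩]
    · intro i _ hi
      unfold restr
      simp only [ArithmeticFunction.coe_mk]
      rw [if_neg]
      rintro ⟨h1, h2⟩
      apply hi
      exact (Nat.log_eq_of_pow_le_of_lt_pow h1 h2).symm
    · intro h
      exfalso
      apply h
      rw [mem_range]
      have := Nat.log_mono_right (b := 2) (hf n hn)
      omega

private lemma m2_VQ (X q : ℕ) (s : Finset ℕ) (f : ℕ → ℕ → ℝ) (θ : ℝ) :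
    VQ X q (fun n => ∑ i ∈ s, f i n) θ ≤ s.card * ∑ i ∈ s, VQ X q (f i) θ := by
  classical
  unfold VQ
  rw [Finset.sum_comm, Finset.mul_sum]
  refine Finset.sum_le_sum fun b _ => ?_
  have h1 : ∑ n ∈ (Icc 1 X).filter (fun n => n % q = b), ((∑ i ∈ s, f i n : ℝ) : ℂ) *
      ee (n * θ) = ∑ i ∈ s, ∑ n ∈ (Icc 1 X).filter (fun n => n % q = b),
        (f i n : ℂ) * ee (n * θ) := by
    rw [Finset.sum_comm]
    refine Finset.sum_congr rfl fun n _ => ?_
    push_cast
    rw [Finset.sum_mul]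
  rw [h1]
  calc ‖∑ i ∈ s, ∑ n ∈ (Icc 1 X).filter (fun n => n % q = b), (f i n : ℂ) * ee (n * θ)‖ ^ 2 ≤
        (∑ i ∈ s, ‖∑ n ∈ (Icc 1 X).filter (fun n => n % q = b), (f i n : ℂ) * ee (n * θ)‖) ^ 2 :=
        pow_le_pow_left₀ (norm_nonneg _) (norm_sum_le _ _) 2
    _ ≤ _ := sq_sum_le_card_mul_sum_sq

private lemma m2_log (X : ℕ) (hX : 1 ≤ X) (hL : 2 ≤ Real.log X) :
    ((Nat.log 2 X + 1 : ℕ) : ℝ) ≤ 2 * Real.log X := by
  have h1 : 2 ^ Nat.log 2 X ≤ X := Nat.pow_log_le_self 2 (by omega)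
  have h2 : (Nat.log 2 X : ℝ) * Real.log 2 ≤ Real.log X := by
    rw [← Real.log_pow]
    apply Real.log_le_log (by positivity)
    exact_mod_cast h1
  have h3 : (0.69 : ℝ) < Real.log 2 := by
    have := Real.log_two_gt_d9
    linarith
  push_cast
  nlinarith [Nat.cast_nonneg (α := ℝ) (Nat.log 2 X)]

theorem sv_minII (ε : ℝ) (hε : 0 < ε) (hε1 : ε < 1) (A : ℕ) : ∃ B0 : ℕ, ∀ B : ℕ, B0 ≤ B →
    ∃ X0 : ℕ, ∀ X : ℕ, X0 ≤ X → ∀ q : ℕ, 1 ≤ q → (q : ℝ) ≤ (X : ℝ) ^ (4 / 5 - ε) →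
    ∀ (θ : ℝ) (r : ℕ) (c : ℤ), MinorHyp X q B θ r c →
    VQ X q (fun n => (aS X * (kS X * gS X)) n) θ ≤ X ^ 2 / (q * Real.log X ^ A) := by
  classical
  obtain ⟨C, hC, hII⟩ := a_II
  obtain ⟨c0, hc0⟩ := div_mom 10
  obtain ⟨D, hD⟩ : ∃ D : ℝ, D = 4 * (64 ^ 2 * C * 2 ^ (2 * (c0 + 2))) := ⟨_, rfl⟩
  obtain ⟨E, hE⟩ : ∃ E : ℕ, E = 2 * (c0 + 2) + 1 + (A + 3) := ⟨_, rfl⟩
  have hD0 : 0 < D := by rw [hD]; positivity
  refine ⟨E + 1, fun B hB => ?_⟩
  obtain ⟨X2, hX2⟩ := boxII_ev_log (2 * D) E ε hε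
  obtain ⟨X3, hX3⟩ := boxII_ev_log 128 0 (4 / 5) (by norm_num)
  obtain ⟨X4, hX4⟩ : ∃ X4 : ℕ, ∀ X : ℕ, X4 ≤ X → max 1 D ≤ Real.log X := by
    have h2 := (Real.tendsto_log_atTop.comp (tendsto_natCast_atTop_atTop (R := ℝ)))
      |>.eventually (Filter.eventually_ge_atTop (max 1 D))
    exact Filter.eventually_atTop.mp h2
  obtain ⟨X5, hX5⟩ := m2_large (E + 2)
  refine ⟨X2 + X3 + X4 + X5 + 3, ?_⟩
  intro X hX q hq hqX θ r c hmin
  have k2 := hX2 X (by omega)
  have k3 := hX3 X (by omega)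
  have k4 := hX4 X (by omega)
  obtain ⟨hL64, k5⟩ := hX5 X (by omega)
  rw [pow_zero, mul_one] at k3
  have hLD : D ≤ Real.log X := le_trans (le_max_right _ _) k4
  have hX0 : (0 : ℝ) < X := by
    have : 0 < X := by omega
    exact_mod_cast this
  have hX1' : (1 : ℝ) ≤ X := by
    have : 1 ≤ X := by omega
    exact_mod_cast this
  have hJ := m2_log X (by omega) (by linarith)
  obtain ⟨L, hL⟩ : ∃ L : ℝ, L = Real.log X := ⟨_, rfl⟩
  unfold MinorHyp at hmin
  rw [← hL] at hL64 k2 k5 hLD hmin hJ ⊢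
  have hL1 : 1 ≤ L := by linarith
  have hL0 : 0 < L := by linarith
  obtain ⟨m1, m2, m3, m4⟩ := hmin
  have hLB : 0 < L ^ B := by positivity
  have hqR : (1 : ℝ) ≤ q := by exact_mod_cast hq
  have hq0 : (0 : ℝ) < q := by linarith
  have hr0 : (0 : ℝ) < r := lt_trans hLB m1
  have hr1 : 1 ≤ r := by
    have : 0 < r := by exact_mod_cast hr0
    omega
  have hLBE : D * L ^ E ≤ L ^ B := by
    calc D * L ^ E ≤ L * L ^ E := mul_le_mul_of_nonneg_right hLD (by positivity)
      _ = L ^ (E + 1) := by ring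
      _ ≤ L ^ B := pow_le_pow_right₀ hL1 hB
  have hrq : (r : ℝ) * (q * L ^ B) ≤ X := by
    rw [le_div_iff₀ (by positivity)] at m2
    exact m2
  have hrX : (r : ℝ) ≤ X := by
    have h1 : (1 : ℝ) ≤ q * L ^ B := by
      have : (1 : ℝ) ≤ L ^ B := one_le_pow₀ hL1
      nlinarith
    nlinarith
  -- the approximation
  have happ : |(q : ℝ) * θ - c / r| ≤ 1 / (r : ℝ) ^ 2 := by
    refine le_trans m4 ?_
    rw [div_le_div_iff₀ (by positivity) (by positivity)]
    have : (q : ℝ) * L ^ B * (r : ℝ) ^ 2 = ((r : ℝ) * (q * L ^ B)) * r := by ring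
    rw [this]
    nlinarith
  have hzS : (zS X : ℝ) ≤ 2 * (X : ℝ) ^ (1 / 5 : ℝ) := by
    unfold zS
    have h1 := (Nat.ceil_lt_add_one (by positivity : 0 ≤ (X : ℝ) ^ (1 / 5 : ℝ))).le
    have h2 : (1 : ℝ) ≤ (X : ℝ) ^ (1 / 5 : ℝ) := Real.one_le_rpow hX1' (by norm_num)
    linarith
  have hzX : 64 * zS X ≤ X := by
    have h1 : (64 : ℝ) * zS X ≤ X := by
      calc (64 : ℝ) * zS X ≤ 128 * (X : ℝ) ^ (1 / 5 : ℝ) := by linarith
        _ ≤ (X : ℝ) ^ (4 / 5 : ℝ) * (X : ℝ) ^ (1 / 5 : ℝ) :=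
            mul_le_mul_of_nonneg_right k3 (by positivity)
        _ = (X : ℝ) ^ (1 : ℝ) := by
            rw [← Real.rpow_add hX0]
            congr 1
            norm_num
        _ = X := Real.rpow_one _
    exact_mod_cast h1
  have hlogle : ∀ N : ℕ, 1 ≤ N → N ≤ X → 1 + Real.log N ≤ 2 * L := by
    intro N h1 h2
    have h3 : (0 : ℝ) < N := by
      have : 0 < N := by omega
      exact_mod_cast this
    have : Real.log N ≤ L := by rw [hL]; exact Real.log_le_log h3 (by exact_mod_cast h2)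
    linarith
  obtain ⟨β, hβ⟩ : ∃ β : ArithmeticFunction ℝ, β = kS X * gS X := ⟨_, rfl⟩
  have hτ1 : ∀ n : ℕ, 1 ≤ n → (1 : ℝ) ≤ (n.divisors.card : ℝ) := by
    intro n hn
    have : 0 < n.divisors.card := Finset.card_pos.2 ⟨1, Nat.one_mem_divisors.2 (by omega)⟩
    exact_mod_cast this
  have hβb : ∀ n : ℕ, 1 ≤ n → |β n| ≤ (1 + Real.log n) * (n.divisors.card : ℝ) ^ 5 := by
    intro n hn
    have h1 : |β n| ≤ (n.divisors.card : ℝ) := by
      rw [hβ]
      exact conv_abs _ _ (fun n => (coef_abs X n).1) (fun n => (coef_abs X n).2.2.2) n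
    have h2 := hτ1 n hn
    have h3 : 0 ≤ Real.log n := Real.log_natCast_nonneg n
    have h4 : (n.divisors.card : ℝ) ≤ (n.divisors.card : ℝ) ^ 5 := by
      calc (n.divisors.card : ℝ) = (n.divisors.card : ℝ) ^ 1 := (pow_one _).symm
        _ ≤ _ := pow_le_pow_right₀ h2 (by norm_num)
    nlinarith
  -- one piece
  have hpiece : ∀ i : ℕ, VQ X q (fun n => (restr (aS X) i * β) n) θ ≤
      X ^ 2 / (q * L ^ (A + 3)) := by
    intro i
    by_cases hne : restr (aS X) i = 0
    · have h1 : VQ X q (fun n => (restr (aS X) i * β) n) θ = 0 := by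
        unfold VQ
        refine Finset.sum_eq_zero fun b _ => ?_
        rw [hne, zero_mul]
        simp
      rw [h1]
      positivity
    · obtain ⟨p, hp⟩ : ∃ p, restr (aS X) i p ≠ 0 := by
        by_contra h
        push Not at h
        exact hne (ArithmeticFunction.ext h)
      have hp' : 2 ^ i ≤ p ∧ p < 2 ^ (i + 1) ∧ wS X ≤ p ∧ p < zS X := by
        unfold restr at hp
        simp only [ArithmeticFunction.coe_mk] at hp
        split_ifs at hp with h1
        · unfold aS at hp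
          simp only [ArithmeticFunction.coe_mk] at hp
          split_ifs at hp with h2
          · exact ⟨h1.1, h1.2, h2.2.1, h2.2.2⟩
          · exact absurd rfl hp
        · exact absurd rfl hp
      obtain ⟨P, hP⟩ : ∃ P : ℕ, P = 2 ^ i := ⟨_, rfl⟩
      have hP1 : 1 ≤ P := by rw [hP]; exact Nat.one_le_two_pow
      have hPz : P ≤ zS X := by rw [hP]; omega
      have hPw : wS X ≤ 2 * P := by rw [hP, ← pow_succ']; omega
      have hM : 64 * P ≤ X := by omega
      obtain ⟨K, hK⟩ : ∃ K : ℕ, K = X / P := ⟨_, rfl⟩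
      have hK1 : 1 ≤ K := by
        rw [hK]
        exact (Nat.one_le_div_iff (by omega)).2 (by omega)
      have hKX : K ≤ X := by rw [hK]; exact Nat.div_le_self _ _
      obtain ⟨α, hα⟩ : ∃ α : ArithmeticFunction ℝ, α = restr (aS X) i := ⟨_, rfl⟩
      rw [← hα]
      have hsup : ∀ n, α n ≠ 0 → P ≤ n ∧ n ≤ 64 * P := by
        intro n hn
        rw [hα] at hn
        unfold restr at hn
        simp only [ArithmeticFunction.coe_mk] at hn
        split_ifs at hn with h1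
        · rw [hP]
          rw [pow_succ] at h1
          omega
        · exact absurd rfl hn
      have hαb : ∀ n : ℕ, 1 ≤ n → |α n| ≤ (1 + Real.log n) * (n.divisors.card : ℝ) ^ 5 := by
        intro n hn
        have h1 : |α n| ≤ 1 := by
          rw [hα]
          unfold restr
          simp only [ArithmeticFunction.coe_mk]
          split_ifs
          · exact (coef_abs X n).2.2.1
          · rw [abs_zero]; norm_num
        have h2 := hτ1 n hn
        have h3 : 0 ≤ Real.log n := Real.log_natCast_nonneg n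
        have h4 : (1 : ℝ) ≤ (n.divisors.card : ℝ) ^ 5 := one_le_pow₀ h2
        nlinarith
      have hSa : ∑ n ∈ Icc 1 (64 * P), α n ^ 2 ≤ ((64 * P : ℕ) : ℝ) * (2 * L) ^ (c0 + 2) :=
        boxII_sq α hαb c0 (64 * P) (by omega)
          (hc0 (64 * P) (by omega)).1 (2 * L) (hlogle _ (by omega) hM)
      have hSb : ∑ n ∈ Icc 1 K, β n ^ 2 ≤ (K : ℝ) * (2 * L) ^ (c0 + 2) :=
        boxII_sq β hβb c0 K hK1
          (hc0 K hK1).1 (2 * L) (hlogle _ hK1 hKX)
      have hVQ : VQ X q (fun n => (α * β) n) θ =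
          ∑ b ∈ (range q).filter (Nat.Coprime q),
          ‖∑ m ∈ Icc 1 (64 * P), ∑ k ∈ Icc 1 K, if m * k ≤ X ∧ (m * k) % q = b then
            ((α m * β k : ℝ) : ℂ) * ee (((m * k : ℕ) : ℝ) * θ) else 0‖ ^ 2 := by
        unfold VQ
        refine Finset.sum_congr rfl fun b _ => ?_
        rw [hK]
        rw [conv_two α β X (fun n => n % q = b) (fun n => ee ((n : ℝ) * θ))]
        rw [boxII_restrict (fun n => α n) (fun n => β n) X P (64 * P) hP1 hsup
          (fun n => n % q = b) (fun n => ee ((n : ℝ) * θ))]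
      rw [hVQ]
      have hmain := hII q X (64 * P) K α β θ c r hq (by omega) hr1 m3 happ
      have hPK : (P : ℝ) * (K : ℝ) ≤ X := by
        have : P * (X / P) ≤ X := Nat.mul_div_le X P
        rw [← hK] at this
        exact_mod_cast this
      have g1 : (D * L ^ E) * ((P : ℝ) * q) ≤ X := by
        have h1 : (P : ℝ) ≤ 2 * (X : ℝ) ^ (1 / 5 : ℝ) := le_trans (by exact_mod_cast hPz) hzS
        calc D * L ^ E * (P * q) ≤ D * L ^ E * ((2 * (X : ℝ) ^ (1 / 5 : ℝ)) *
              (X : ℝ) ^ (4 / 5 - ε)) := by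
              gcongr
          _ = (2 * D * L ^ E) * ((X : ℝ) ^ (1 / 5 : ℝ) * (X : ℝ) ^ (4 / 5 - ε)) := by ring
          _ ≤ (X : ℝ) ^ ε * ((X : ℝ) ^ (1 / 5 : ℝ) * (X : ℝ) ^ (4 / 5 - ε)) :=
              mul_le_mul_of_nonneg_right k2 (by positivity)
          _ = (X : ℝ) ^ (1 : ℝ) := by
              rw [← Real.rpow_add hX0, ← Real.rpow_add hX0]
              congr 1
              ring
          _ = X := Real.rpow_one _
      have g2 : (D * L ^ E) * ((r : ℝ) * q) ≤ X := by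
        calc D * L ^ E * (r * q) ≤ L ^ B * (r * q) := by gcongr
          _ = (r : ℝ) * (q * L ^ B) := by ring
          _ ≤ X := hrq
      have g3 : (D * L ^ E) ≤ (r : ℝ) := le_trans hLBE m1.le
      have g4 : (D * L ^ E) ≤ (P : ℝ) := by
        have h1 : (wS X : ℝ) ≤ 2 * P := by exact_mod_cast hPw
        have h2 : 2 * (D * L ^ E) ≤ L ^ (E + 2) := by
          calc 2 * (D * L ^ E) ≤ L * (L * L ^ E) := by gcongr; linarith
            _ = L ^ (E + 2) := by ring
        linarith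
      have g5 : (1 : ℝ) + Real.log r ≤ 2 * L := hlogle r hr1 (by exact_mod_cast hrX)
      have g6 : (0 : ℝ) ≤ ∑ n ∈ Icc 1 (64 * P), α n ^ 2 :=
        Finset.sum_nonneg fun n _ => sq_nonneg _
      have g7 : (0 : ℝ) ≤ ∑ n ∈ Icc 1 K, β n ^ 2 := Finset.sum_nonneg fun n _ => sq_nonneg _
      have hP0 : (0 : ℝ) < P := by exact_mod_cast hP1
      have hlogr := Real.log_natCast_nonneg r
      rw [Nat.cast_mul, Nat.cast_ofNat] at hmain hSa
      exact boxII_arith C X q r P K L _ (∑ n ∈ Icc 1 (64 * P), α n ^ 2)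
        (∑ n ∈ Icc 1 K, β n ^ 2)
        (D * L ^ E) (1 + Real.log r) (c0 + 2) (A + 3) hC hX0 hqR hr0 hP0 (Nat.cast_nonneg _) hL1
        g6 g7 hmain (by linarith) g5 hSa hSb hPK (by rw [hD, hE]) g3 g4 g1 g2
  -- the sum of the pieces
  have haS : aS X = ∑ i ∈ range (Nat.log 2 X + 1), restr (aS X) i := by
    apply m2_restr
    intro n hn
    unfold aS at hn
    simp only [ArithmeticFunction.coe_mk] at hn
    split_ifs at hn with h1
    · omega
    · exact absurd rfl hn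
  have hfun : (fun n => (aS X * (kS X * gS X)) n) =
      fun n => ∑ i ∈ range (Nat.log 2 X + 1), (restr (aS X) i * β) n := by
    funext n
    have h1 : aS X * (kS X * gS X) = ∑ i ∈ range (Nat.log 2 X + 1), restr (aS X) i * β := by
      rw [← Finset.sum_mul, ← haS, hβ]
    rw [h1]
    induction (range (Nat.log 2 X + 1)) using Finset.induction_on with
    | empty => simp
    | insert a s ha ih => rw [Finset.sum_insert ha, Finset.sum_insert ha, ← ih]; rfl
  rw [hfun]
  refine (m2_VQ X q (range (Nat.log 2 X + 1)) (fun i n => (restr (aS X) i * β) n) θ).trans ?_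
  have h1 := Finset.sum_le_sum (s := range (Nat.log 2 X + 1)) (fun i _ => hpiece i)
  rw [Finset.sum_const, nsmul_eq_mul] at h1
  refine (mul_le_mul_of_nonneg_left h1 (Nat.cast_nonneg _)).trans ?_
  rw [Finset.card_range]
  calc ((Nat.log 2 X + 1 : ℕ) : ℝ) * (((Nat.log 2 X + 1 : ℕ) : ℝ) *
        (X ^ 2 / (q * L ^ (A + 3)))) ≤ (2 * L) * ((2 * L) * (X ^ 2 / (q * L ^ (A + 3)))) := by
        gcongr
    _ ≤ X ^ 2 / (q * L ^ A) := by
        have h2 : (2 * L) * ((2 * L) * (X ^ 2 / (q * L ^ (A + 3)))) =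
            4 * X ^ 2 / (q * L ^ A * L) := by
          field_simp
          ring
        rw [h2, div_le_div_iff₀ (by positivity) (by positivity)]
        have h3 : 0 ≤ (X : ℝ) ^ 2 * (q * L ^ A) := by positivity
        nlinarith

end Pool.MP_dd84fd_nt.T7
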