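import Pool.Agent.Lib.MP_dd84fd_nt.T7.SvMinI
import Pool.Agent.Lib.MP_dd84fd_nt.T7.SvMinII
import Pool.Agent.Lib.MP_dd84fd_nt.T7.SvDecomp
import Pool.Agent.Lib.MP_dd84fd_nt.L2G.ClassAlg

/-!
T7-26 SvMinor. Unit classes (b coprime to q): sv_decomp, (x+y+z)^2 <= 3(x^2+y^2+z^2), sv_minI, sv_minII (B0 = max of both), and VA_trivial for er (extended by 0): (X/q+1) X/L^A' <= 2X^2/(q L^A').
Other classes: n = b mod q with gcd(b,q) > 1 and Sv X n != 0: n has a prime factor p | q, p >= zS X (sv_supp); Cauchy: sum_b |.|^2 <= (X/q+1) sum_{n: exists p | (n,q), p >= z} 16 <= (2X/q) * 16 * (number of primes p >= z dividing q, <= 5) * X/z.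
-/

set_option autoImplicit false

namespace Pool.MP_dd84fd_nt.T7

open Finset Pool.MP_67663b_nt.Odd Pool.MP_dd84fd_nt.L2G

private lemma mn_units (X q : ℕ) [NeZero q] (f : ℕ → ℝ) (θ : ℝ) :
    ∑ b ∈ univ.filter (fun b : ZMod q => IsUnit b), ‖fz X q f θ b‖ ^ 2 = VQ X q f θ := by
  classical
  unfold VQ
  refine Finset.sum_bij (fun b _ => ZMod.val b) ?_ ?_ ?_ ?_
  · intro b hb
    rw [Finset.mem_filter] at hb
    rw [Finset.mem_filter, Finset.mem_range]
    refine ⟨ZMod.val_lt b, ?_⟩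
    have h1 := hb.2
    rw [← ZMod.natCast_zmod_val b, ZMod.isUnit_iff_coprime] at h1
    exact h1.symm
  · intro b _ c _ h
    exact ZMod.val_injective q h
  · intro k hk
    rw [Finset.mem_filter, Finset.mem_range] at hk
    refine ⟨(k : ZMod q), ?_, ZMod.val_cast_of_lt hk.1⟩
    rw [Finset.mem_filter]
    exact ⟨Finset.mem_univ _, (ZMod.isUnit_iff_coprime k q).2 hk.2.symm⟩
  · intro b _
    unfold fz
    congr 2
    refine Finset.sum_congr ?_ fun _ _ => rfl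
    ext n
    rw [Finset.mem_filter, Finset.mem_filter]
    refine and_congr_right fun _ => ?_
    constructor
    · intro h
      rw [← h, ZMod.val_natCast]
    · intro h
      rw [← ZMod.natCast_zmod_val b, ← h, ZMod.natCast_mod]

private lemma mn_trivial (X q : ℕ) [NeZero q] (f : ℕ → ℝ) (θ : ℝ) :
    VQ X q f θ ≤ ((X : ℝ) / q + 1) * ∑ n ∈ Icc 1 X, f n ^ 2 := by
  refine le_trans ?_ (VA_trivial X q f θ)
  rw [← mn_units]
  unfold VA
  exact Finset.sum_le_sum_of_subset_of_nonneg (Finset.filter_subset _ _)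
    fun _ _ _ => by positivity

private lemma mn_congr (X q : ℕ) (f g : ℕ → ℝ) (θ : ℝ)
    (h : ∀ n, 1 ≤ n → n ≤ X → f n = g n) : VQ X q f θ = VQ X q g θ := by
  unfold VQ
  refine Finset.sum_congr rfl fun b _ => ?_
  congr 2
  refine Finset.sum_congr rfl fun n hn => ?_
  obtain ⟨h1, h2⟩ := Finset.mem_Icc.1 (Finset.mem_filter.1 hn).1
  rw [h n h1 h2]

private lemma mn_three (X q : ℕ) (f g h : ℕ → ℝ) (θ : ℝ) :
    VQ X q (fun n => f n - g n + h n) θ ≤
      4 * VQ X q f θ + 4 * VQ X q g θ + 2 * VQ X q h θ := by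
  unfold VQ
  rw [Finset.mul_sum, Finset.mul_sum, Finset.mul_sum, ← Finset.sum_add_distrib,
    ← Finset.sum_add_distrib]
  refine Finset.sum_le_sum fun b _ => ?_
  obtain ⟨a, ha⟩ : ∃ a, a = ∑ n ∈ (Icc 1 X).filter (fun n => n % q = b), (f n : ℂ) * ee (n * θ) :=
    ⟨_, rfl⟩
  obtain ⟨c, hc⟩ : ∃ c, c = ∑ n ∈ (Icc 1 X).filter (fun n => n % q = b), (g n : ℂ) * ee (n * θ) :=
    ⟨_, rfl⟩
  obtain ⟨d, hd⟩ : ∃ d, d = ∑ n ∈ (Icc 1 X).filter (fun n => n % q = b), (h n : ℂ) * ee (n * θ) :=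
    ⟨_, rfl⟩
  have e : ∑ n ∈ (Icc 1 X).filter (fun n => n % q = b), ((f n - g n + h n : ℝ) : ℂ) *
      ee (n * θ) = a - c + d := by
    rw [ha, hc, hd, ← Finset.sum_sub_distrib, ← Finset.sum_add_distrib]
    refine Finset.sum_congr rfl fun n _ => ?_
    push_cast
    ring
  rw [e, ← ha, ← hc, ← hd]
  have h1 : ‖a - c + d‖ ≤ ‖a‖ + ‖c‖ + ‖d‖ :=
    (norm_add_le _ _).trans (add_le_add (norm_sub_le _ _) le_rfl)
  have h2 : ‖a - c + d‖ ^ 2 ≤ (‖a‖ + ‖c‖ + ‖d‖) ^ 2 := pow_le_pow_left₀ (norm_nonneg _) h1 2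
  nlinarith [sq_nonneg (‖a‖ + ‖c‖ - ‖d‖), sq_nonneg (‖a‖ - ‖c‖)]

private lemma mn_mult (X e : ℕ) : (((Icc 1 X).filter (fun n => e ∣ n)).card : ℝ) ≤ X / e := by
  have h1 : (Icc 1 X).filter (fun n => e ∣ n) = (Ioc 0 X).filter (fun n => e ∣ n) := by
    congr 1
  rw [h1, Nat.Ioc_filter_dvd_card_eq_div]
  exact Nat.cast_div_le

private lemma mn_cardp (q : ℕ) (hq : q ≠ 0) : (q.primeFactors.card : ℝ) ≤ 2 * Real.log q := by
  have h1 : 2 ^ q.primeFactors.card ≤ q := by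
    calc 2 ^ q.primeFactors.card = ∏ p ∈ q.primeFactors, 2 := by rw [Finset.prod_const]
      _ ≤ ∏ p ∈ q.primeFactors, p :=
          Finset.prod_le_prod' fun p hp => (Nat.prime_of_mem_primeFactors hp).two_le
      _ ≤ q := Nat.le_of_dvd (Nat.pos_of_ne_zero hq) (Nat.prod_primeFactors_dvd q)
  have h2 : (q.primeFactors.card : ℝ) * Real.log 2 ≤ Real.log q := by
    rw [← Real.log_pow]
    apply Real.log_le_log (by positivity)
    exact_mod_cast h1
  have h3 : (0.69 : ℝ) < Real.log 2 := by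
    have := Real.log_two_gt_d9
    linarith
  nlinarith [Nat.cast_nonneg (α := ℝ) q.primeFactors.card]

/-- the classes not coprime to `q` -/
private lemma mn_non (X q : ℕ) [NeZero q] (θ : ℝ) (hz : 1 ≤ zS X) :
    ∑ b ∈ univ.filter (fun b : ZMod q => ¬ IsUnit b), ‖fz X q (fun n => Sv X n) θ b‖ ^ 2 ≤
      ((X : ℝ) / q + 1) * (16 * (2 * Real.log q * (X / zS X))) := by
  classical
  have hq : q ≠ 0 := NeZero.ne q
  have h1 : ∑ b ∈ univ.filter (fun b : ZMod q => ¬ IsUnit b),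
      ‖fz X q (fun n => Sv X n) θ b‖ ^ 2 =
      ∑ b ∈ univ.filter (fun b : ZMod q => ¬ IsUnit b),
        ‖fz X q (fun n => if Nat.Coprime n q then 0 else Sv X n) θ b‖ ^ 2 := by
    refine Finset.sum_congr rfl fun b hb => ?_
    rw [mem_filter] at hb
    congr 2
    unfold fz
    refine Finset.sum_congr rfl fun n hn => ?_
    rw [mem_filter] at hn
    simp only
    rw [if_neg]
    intro hc
    apply hb.2
    rw [← hn.2, ZMod.isUnit_iff_coprime]
    exact hc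
  rw [h1]
  have h2 : ∑ b ∈ univ.filter (fun b : ZMod q => ¬ IsUnit b),
        ‖fz X q (fun n => if Nat.Coprime n q then 0 else Sv X n) θ b‖ ^ 2 ≤
      VA X q (fun n => if Nat.Coprime n q then 0 else Sv X n) θ := by
    unfold VA
    exact Finset.sum_le_sum_of_subset_of_nonneg (Finset.filter_subset _ _)
      fun _ _ _ => by positivity
  refine h2.trans ((VA_trivial X q _ θ).trans ?_)
  apply mul_le_mul_of_nonneg_left _ (by positivity)
  have h3 : ∀ n ∈ Icc 1 X, (if Nat.Coprime n q then 0 else Sv X n) ^ 2 ≤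
      ∑ p ∈ q.primeFactors.filter (fun p => zS X ≤ p), if p ∣ n then (16 : ℝ) else 0 := by
    intro n hn
    rw [mem_Icc] at hn
    have h0 : 0 ≤ ∑ p ∈ q.primeFactors.filter (fun p => zS X ≤ p),
        (if p ∣ n then (16 : ℝ) else 0) :=
      Finset.sum_nonneg fun p _ => by split_ifs <;> norm_num
    by_cases hc : Nat.Coprime n q
    · rw [if_pos hc, zero_pow (by norm_num)]
      exact h0
    · rw [if_neg hc]
      by_cases hs : Sv X n = 0
      · rw [hs, zero_pow (by norm_num)]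
        exact h0
      · obtain ⟨p, hp, hpn, hpq⟩ := Nat.Prime.not_coprime_iff_dvd.1 hc
        have h4 : zS X ≤ p := sv_supp X n hs p (Nat.mem_primeFactors.2 ⟨hp, hpn, by omega⟩)
        have h5 := Finset.single_le_sum (f := fun p => if p ∣ n then (16 : ℝ) else 0)
          (s := q.primeFactors.filter (fun p => zS X ≤ p))
          (fun d _ => by split_ifs <;> norm_num) (mem_filter.2
            ⟨Nat.mem_primeFactors.2 ⟨hp, hpq, hq⟩, h4⟩)
        rw [if_pos hpn] at h5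
        refine le_trans ?_ h5
        rw [← sq_abs]
        have h6 := sv_abs X n hn.2
        nlinarith [abs_nonneg (Sv X n)]
  refine (Finset.sum_le_sum h3).trans ?_
  rw [Finset.sum_comm]
  have hz0 : (0 : ℝ) < zS X := by exact_mod_cast hz
  have h4 : ∀ p ∈ q.primeFactors.filter (fun p => zS X ≤ p),
      ∑ n ∈ Icc 1 X, (if p ∣ n then (16 : ℝ) else 0) ≤ 16 * (X / zS X) := by
    intro p hp
    rw [mem_filter] at hp
    rw [← Finset.sum_filter, Finset.sum_const, nsmul_eq_mul, mul_comm]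
    have h5 := mn_mult X p
    have h6 : (X : ℝ) / p ≤ X / zS X := by
      apply div_le_div_of_nonneg_left (by positivity) hz0
      exact_mod_cast hp.2
    linarith
  refine (Finset.sum_le_sum h4).trans ?_
  rw [Finset.sum_const, nsmul_eq_mul]
  have h5 : ((q.primeFactors.filter (fun p => zS X ≤ p)).card : ℝ) ≤ 2 * Real.log q := by
    refine le_trans ?_ (mn_cardp q hq)
    exact_mod_cast Finset.card_filter_le _ _
  calc ((q.primeFactors.filter (fun p => zS X ≤ p)).card : ℝ) * (16 * (X / zS X)) ≤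
        (2 * Real.log q) * (16 * (X / zS X)) := mul_le_mul_of_nonneg_right h5 (by positivity)
    _ = _ := by ring

theorem sv_minor (ε : ℝ) (hε : 0 < ε) (hε1 : ε < 1) (A : ℕ) : ∃ B0 : ℕ, ∀ B : ℕ, B0 ≤ B →
    ∃ X0 : ℕ, ∀ X : ℕ, X0 ≤ X → ∀ (q : ℕ) [NeZero q], (q : ℝ) ≤ (X : ℝ) ^ (4 / 5 - ε) →
    ∀ (θ : ℝ) (r : ℕ) (c : ℤ), MinorHyp X q B θ r c →
    VA X q (fun n => Sv X n) θ ≤ X ^ 2 / (q * Real.log X ^ A) := by
  classical
  obtain ⟨B1, hB1⟩ := sv_minI (A + 1)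
  obtain ⟨B2, hB2⟩ := sv_minII ε hε hε1 (A + 1)
  obtain ⟨X3, hX3⟩ := sv_decomp (A + 1)
  obtain ⟨X4, hX4⟩ := boxII_ev_log 128 (A + 1) (1 / 5) (by norm_num)
  obtain ⟨X5, hX5⟩ := Filter.eventually_atTop.1
    (tendsto_natCast_atTop_atTop.eventually
      (Real.tendsto_log_atTop.eventually_ge_atTop (64 : ℝ)))
  refine ⟨max B1 B2, fun B hB => ?_⟩
  obtain ⟨X1, hX1⟩ := hB1 B ((le_max_left _ _).trans hB)
  obtain ⟨X2, hX2⟩ := hB2 B ((le_max_right _ _).trans hB)
  refine ⟨X1 + X2 + X3 + X4 + X5 + 2, fun X hX q _ hq θ r c hmin => ?_⟩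
  have hq1 : 1 ≤ q := Nat.one_le_iff_ne_zero.2 (NeZero.ne q)
  have hXR : (2 : ℝ) ≤ X := by exact_mod_cast (by omega : 2 ≤ X)
  have hX0 : (0 : ℝ) < X := by linarith
  have hX1' : (1 : ℝ) ≤ X := by linarith
  have hq45 : (q : ℝ) ≤ (X : ℝ) ^ (4 / 5 : ℝ) :=
    hq.trans (Real.rpow_le_rpow_of_exponent_le hX1' (by linarith))
  have k1 := hX1 X (by omega) q hq1 hq45 θ r c hmin
  have k2 := hX2 X (by omega) q hq1 hq θ r c hmin
  obtain ⟨er, her, hers⟩ := hX3 X (by omega)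
  have k4 := hX4 X (by omega)
  have hL64 := hX5 X (by omega)
  obtain ⟨L, hL⟩ : ∃ L : ℝ, L = Real.log X := ⟨_, rfl⟩
  rw [← hL] at k1 k2 hers k4 hL64 ⊢
  have hL1 : 1 ≤ L := by linarith
  have hL0 : 0 < L := by linarith
  have hqR : (1 : ℝ) ≤ q := by exact_mod_cast hq1
  have hq0 : (0 : ℝ) < q := by linarith
  have hqX : (q : ℝ) ≤ X := by
    refine hq45.trans ?_
    calc (X : ℝ) ^ (4 / 5 : ℝ) ≤ (X : ℝ) ^ (1 : ℝ) :=
          Real.rpow_le_rpow_of_exponent_le hX1' (by norm_num)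
      _ = X := Real.rpow_one _
  have hzX : (X : ℝ) ^ (1 / 5 : ℝ) ≤ zS X := Nat.le_ceil _
  have hzR : (1 : ℝ) ≤ zS X := (Real.one_le_rpow hX1' (by norm_num)).trans hzX
  have hz1 : 1 ≤ zS X := by exact_mod_cast hzR
  have hlogq0 : 0 ≤ Real.log q := Real.log_nonneg hqR
  have hlogq : Real.log q ≤ L := by rw [hL]; exact Real.log_le_log hq0 hqX
  have hXq : (X : ℝ) / q + 1 ≤ 2 * X / q := by
    rw [le_div_iff₀ hq0, add_mul, div_mul_cancel₀ _ hq0.ne']
    linarith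
  have hsplit : VA X q (fun n => Sv X n) θ =
      ∑ b ∈ univ.filter (fun b : ZMod q => IsUnit b), ‖fz X q (fun n => Sv X n) θ b‖ ^ 2 +
      ∑ b ∈ univ.filter (fun b : ZMod q => ¬ IsUnit b), ‖fz X q (fun n => Sv X n) θ b‖ ^ 2 := by
    unfold VA
    rw [Finset.sum_filter_add_sum_filter_not]
  have hunit : VQ X q (fun n => Sv X n) θ ≤ 12 * (X ^ 2 / (q * L ^ (A + 1))) := by
    rw [mn_congr X q _ (fun n => (kS X * lS X * ze) n - (aS X * (kS X * gS X)) n + er n) θ her]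
    refine (mn_three X q _ _ _ θ).trans ?_
    have h1 : VQ X q er θ ≤ 2 * (X ^ 2 / (q * L ^ (A + 1))) := by
      refine (mn_trivial X q er θ).trans ?_
      calc ((X : ℝ) / q + 1) * ∑ n ∈ Icc 1 X, er n ^ 2 ≤
            (2 * X / q) * (X / L ^ (A + 1)) :=
            mul_le_mul hXq hers (Finset.sum_nonneg fun n _ => sq_nonneg _) (by positivity)
        _ = 2 * (X ^ 2 / (q * L ^ (A + 1))) := by
            field_simp
    linarith
  have hnon : ∑ b ∈ univ.filter (fun b : ZMod q => ¬ IsUnit b),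
      ‖fz X q (fun n => Sv X n) θ b‖ ^ 2 ≤ X ^ 2 / (2 * (q * L ^ A)) := by
    refine (mn_non X q θ hz1).trans ?_
    have h1 : 16 * (2 * Real.log q * (X / zS X)) ≤ 32 * L * (X / (X : ℝ) ^ (1 / 5 : ℝ)) := by
      have h2 : (X : ℝ) / zS X ≤ X / (X : ℝ) ^ (1 / 5 : ℝ) :=
        div_le_div_of_nonneg_left hX0.le (by positivity) hzX
      calc 16 * (2 * Real.log q * (X / zS X)) ≤ 16 * (2 * L * (X / (X : ℝ) ^ (1 / 5 : ℝ))) := by
            gcongr
        _ = _ := by ring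
    calc ((X : ℝ) / q + 1) * (16 * (2 * Real.log q * (X / zS X))) ≤
          (2 * X / q) * (32 * L * (X / (X : ℝ) ^ (1 / 5 : ℝ))) :=
          mul_le_mul hXq h1 (by positivity) (by positivity)
      _ = 64 * L * X ^ 2 / (q * (X : ℝ) ^ (1 / 5 : ℝ)) := by
          field_simp
          ring
      _ ≤ X ^ 2 / (2 * (q * L ^ A)) := by
          rw [div_le_div_iff₀ (by positivity) (by positivity)]
          have h3 : 64 * L * X ^ 2 * (2 * (q * L ^ A)) = X ^ 2 * q * (128 * L ^ (A + 1)) := by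
            rw [pow_succ]
            ring
          rw [h3]
          calc (X : ℝ) ^ 2 * q * (128 * L ^ (A + 1)) ≤ X ^ 2 * q * (X : ℝ) ^ (1 / 5 : ℝ) :=
                mul_le_mul_of_nonneg_left k4 (by positivity)
            _ = X ^ 2 * (q * (X : ℝ) ^ (1 / 5 : ℝ)) := by ring
  have hfin1 : 12 * ((X : ℝ) ^ 2 / (q * L ^ (A + 1))) ≤ X ^ 2 / (2 * (q * L ^ A)) := by
    rw [mul_div_assoc', div_le_div_iff₀ (by positivity) (by positivity)]
    have h1 : 12 * (X : ℝ) ^ 2 * (2 * (q * L ^ A)) = 24 * (X ^ 2 * (q * L ^ A)) := by ring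
    have h2 : (X : ℝ) ^ 2 * (q * L ^ (A + 1)) = L * (X ^ 2 * (q * L ^ A)) := by
      rw [pow_succ]
      ring
    rw [h1, h2]
    exact mul_le_mul_of_nonneg_right (by linarith) (by positivity)
  have hfin2 : (X : ℝ) ^ 2 / (2 * (q * L ^ A)) + X ^ 2 / (2 * (q * L ^ A)) =
      X ^ 2 / (q * L ^ A) := by
    field_simp
    ring
  rw [hsplit, mn_units, ← hfin2]
  exact add_le_add (hunit.trans hfin1) hnon

end Pool.MP_dd84fd_nt.T7
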