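import Pool.Agent.Lib.MP_dd84fd_nt.T7.VarL
import Pool.Agent.Lib.MP_dd84fd_nt.T7.SdBasic
import Pool.Agent.Lib.MP_dd84fd_nt.T7.SvBasic
import Pool.Agent.Lib.MP_dd84fd_nt.L2G.CharOrth
import Pool.Agent.Lib.MP_dd84fd_nt.L2G.ModelArith

/-!
T7-46 SvTc (compare L2G/TcSmall, which does the same for la). L = log X, z = zS X. The n <= X with (n,q) > 1 and Sv X n != 0 are divisible by a prime p >= z dividing q (sv_supp): at most 5 such primes (p^5 >= X >= q), so they contribute <= 4 * 5 * X/z.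
n with (n,r) > 1: Sv X n = 0 (r <= L^B < z).
sv_Tc_one_core h_eq: sum_n Sv(n) e(nθ) = sum_{c mod r, (c,r)=1} e(yc/r) sum_{n = c mod r} Sv(n) e(n beta); abel_var with d(n) = Sv(n) 1_{n = c mod r} - sd(n)/phi(r) (h_eq with A' = A + 2B + 2), w(n) = e(n beta) (W = 1, ee_var: V <= 7 L^B);
sum_c e(yc/r) = mu(r) (cn_eq_cr or as in TcSmall).
sv_Tc_small_core h_eq: chi is induced by psi mod d, psi != 1; for (n,q) = 1 chi(n) = psi(n). Classes c mod m = r d <= L^(2B), (c,m)=1: sum_c psi(c) e(yc/r) * (1/phi(m)) Se(sd)(beta) = 0 because (r,d)=1 (r coprime to q) and psi != 1 (CRT).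
h_eq with m = r d.
-/

set_option autoImplicit false

namespace Pool.MP_dd84fd_nt.T7

open Finset Pool.MP_67663b_nt.Odd Pool.MP_dd84fd_nt.L2G

private theorem svtc_ev (D : ℕ) : ∃ X1 : ℕ, ∀ X : ℕ, X1 ≤ X →
    Real.log X ^ D < (X : ℝ) ^ (1 / 5 : ℝ) ∧ 2 ≤ Real.log X ∧ 1 ≤ X := by
  have h1 : (fun x : ℝ => Real.log x ^ D) =o[Filter.atTop] fun x : ℝ => x ^ (1 / 5 : ℝ) := by
    have h := isLittleO_log_rpow_rpow_atTop (D : ℝ) (show (0 : ℝ) < 1 / 5 by norm_num)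
    simpa [Real.rpow_natCast] using h
  have h2 := h1.def (show (0 : ℝ) < 1 / 2 by norm_num)
  have h3 : ∀ᶠ X : ℕ in Filter.atTop, ‖Real.log (X : ℝ) ^ D‖ ≤ 1 / 2 * ‖(X : ℝ) ^ (1 / 5 : ℝ)‖ :=
    tendsto_natCast_atTop_atTop.eventually h2
  have h4 : ∀ᶠ X : ℕ in Filter.atTop, 2 ≤ Real.log (X : ℝ) :=
    (Real.tendsto_log_atTop.comp tendsto_natCast_atTop_atTop).eventually
      (Filter.eventually_ge_atTop 2)
  obtain ⟨X1, hX1⟩ := Filter.eventually_atTop.mp (h3.and (h4.and (Filter.eventually_ge_atTop 1)))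
  refine ⟨X1, fun X hX => ?_⟩
  obtain ⟨h5, h6, h7⟩ := hX1 X hX
  refine ⟨?_, h6, h7⟩
  have h8 : (0 : ℝ) < (X : ℝ) ^ (1 / 5 : ℝ) :=
    Real.rpow_pos_of_pos (by exact_mod_cast (show 0 < X by omega)) _
  rw [Real.norm_of_nonneg (by positivity), Real.norm_of_nonneg h8.le] at h5
  linarith

private theorem svtc_card (X q : ℕ) (hz : 2 ≤ zS X) (hq : 1 ≤ q) (hqX : q ≤ X) :
    (q.primeFactors.filter (fun p => zS X ≤ p)).card ≤ 5 := by
  by_contra hcon
  push Not at hcon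
  have h1 : zS X ^ (q.primeFactors.filter (fun p => zS X ≤ p)).card ≤
      ∏ p ∈ q.primeFactors.filter (fun p => zS X ≤ p), p := by
    rw [← Finset.prod_const]
    exact Finset.prod_le_prod' fun p hp => (Finset.mem_filter.1 hp).2
  have h2 : ∏ p ∈ q.primeFactors.filter (fun p => zS X ≤ p), p ≤ q := by
    apply Nat.le_of_dvd hq
    exact (Finset.prod_dvd_prod_of_subset _ _ _ (Finset.filter_subset _ _)).trans
      (Nat.prod_primeFactors_dvd q)
  have h3 : X ≤ zS X ^ 5 := by exact_mod_cast zS_pow X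
  have h4 : zS X ^ 6 ≤ zS X ^ (q.primeFactors.filter (fun p => zS X ≤ p)).card :=
    Nat.pow_le_pow_right (by omega) hcon
  have h5 : zS X ^ 5 < zS X ^ 6 := Nat.pow_lt_pow_right (by omega) (by norm_num)
  omega

/-- the part of the minorant on the numbers which are not coprime to `q` -/
private theorem svtc_noncop (X q : ℕ) (hz : 2 ≤ zS X) (hq : 1 ≤ q) (hqX : q ≤ X) :
    ∑ n ∈ (Icc 1 X).filter (fun n => ¬ Nat.Coprime n q), |Sv X n| ≤ 20 * (X / (zS X : ℝ)) := by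
  classical
  have hz0 : (0 : ℝ) < (zS X : ℝ) := by exact_mod_cast (by omega : 0 < zS X)
  have h1 : ∑ n ∈ (Icc 1 X).filter (fun n => ¬ Nat.Coprime n q), |Sv X n| ≤
      ∑ n ∈ (Icc 1 X), ∑ p ∈ q.primeFactors.filter (fun p => zS X ≤ p),
        if p ∣ n then (4 : ℝ) else 0 := by
    refine (Finset.sum_le_sum (g := fun n => ∑ p ∈ q.primeFactors.filter (fun p => zS X ≤ p),
      if p ∣ n then (4 : ℝ) else 0) ?_).trans
      (Finset.sum_le_sum_of_subset_of_nonneg (Finset.filter_subset _ _) fun n _ _ =>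
        Finset.sum_nonneg fun p _ => by split_ifs <;> norm_num)
    intro n hn
    rw [Finset.mem_filter, Finset.mem_Icc] at hn
    by_cases h0 : Sv X n = 0
    · rw [h0, abs_zero]
      exact Finset.sum_nonneg fun p _ => by split_ifs <;> norm_num
    · obtain ⟨p, hp, hp1, hp2⟩ := Nat.Prime.not_coprime_iff_dvd.mp hn.2
      have h2 := sv_supp X n h0 p (Nat.mem_primeFactors.mpr ⟨hp, hp1, by omega⟩)
      have h3 : p ∈ q.primeFactors.filter (fun p => zS X ≤ p) :=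
        Finset.mem_filter.2 ⟨Nat.mem_primeFactors.mpr ⟨hp, hp2, by omega⟩, h2⟩
      refine (sv_abs X n hn.1.2).trans ?_
      have h4 := Finset.single_le_sum (f := fun p => if p ∣ n then (4 : ℝ) else 0)
        (fun p _ => by split_ifs <;> norm_num) h3
      simpa [hp1] using h4
  refine h1.trans ?_
  rw [Finset.sum_comm]
  have h2 : ∀ p ∈ q.primeFactors.filter (fun p => zS X ≤ p),
      ∑ n ∈ Icc 1 X, (if p ∣ n then (4 : ℝ) else 0) ≤ 4 * (X / (zS X : ℝ)) := by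
    intro p hp
    have hpz : (zS X : ℝ) ≤ (p : ℝ) := by exact_mod_cast (Finset.mem_filter.1 hp).2
    rw [← Finset.sum_filter, Finset.sum_const, nsmul_eq_mul, mul_comm]
    have h3 : ((Icc 1 X).filter (fun n => p ∣ n)).card = X / p := by
      have h4 : Icc 1 X = Ioc 0 X := by
        ext n
        simp only [Finset.mem_Icc, Finset.mem_Ioc]
        omega
      rw [h4]
      exact Nat.Ioc_filter_dvd_card_eq_div X p
    rw [h3]
    apply mul_le_mul_of_nonneg_left _ (by norm_num)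
    refine (Nat.cast_div_le (m := X) (n := p)).trans ?_
    exact div_le_div_of_nonneg_left (Nat.cast_nonneg X) hz0 hpz
  refine (Finset.sum_le_sum h2).trans ?_
  rw [Finset.sum_const, nsmul_eq_mul]
  have h3 : (((q.primeFactors.filter (fun p => zS X ≤ p)).card : ℕ) : ℝ) ≤ 5 := by
    exact_mod_cast svtc_card X q hz hq hqX
  calc (((q.primeFactors.filter (fun p => zS X ≤ p)).card : ℕ) : ℝ) * (4 * (X / (zS X : ℝ)))
      ≤ 5 * (4 * (X / (zS X : ℝ))) := mul_le_mul_of_nonneg_right h3 (by positivity)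
    _ = 20 * (X / (zS X : ℝ)) := by ring

/-- one reduced class -/
private theorem svtc_class
    (h_eq : ∀ (A D : ℕ), ∃ X0 : ℕ, ∀ X : ℕ, X0 ≤ X → ∀ m c : ℕ, 1 ≤ m →
    (m : ℝ) ≤ Real.log X ^ D → Nat.Coprime c m → ∀ M : ℕ, M ≤ X →
    |∑ n ∈ (Icc 1 M).filter (fun n => n ≡ c [MOD m]), Sv X n -
      (1 / (Nat.totient m : ℝ)) * ∑ n ∈ Icc 1 M, sd X n| ≤ X / Real.log X ^ A)
    (A B : ℕ) : ∃ X0 : ℕ, ∀ X : ℕ, X0 ≤ X → ∀ (m c : ℕ) (β : ℝ),
    1 ≤ m → (m : ℝ) ≤ Real.log X ^ B → |β| ≤ Real.log X ^ B / X → Nat.Coprime c m →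
    ‖∑ n ∈ (Icc 1 X).filter (fun n => n ≡ c [MOD m]), (Sv X n : ℂ) * ee (n * β) -
      Se X (sd X) β / (Nat.totient m : ℂ)‖ ≤ X / Real.log X ^ A * (1 + 7 * Real.log X ^ B) := by
  classical
  obtain ⟨X1, hX1⟩ := h_eq A B
  obtain ⟨X2, hX2⟩ := svtc_ev 0
  refine ⟨max X1 X2, fun X hX m c β hm hmL hβ hc => ?_⟩
  obtain ⟨-, hL2, hX1'⟩ := hX2 X ((le_max_right _ _).trans hX)
  have hX0 : (0 : ℝ) < X := by exact_mod_cast hX1'
  have h1 := hX1 X ((le_max_left _ _).trans hX) m c hm hmL hc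
  have h2 := abel_var X hX1'
    (fun n => (if n ≡ c [MOD m] then (Sv X n : ℂ) else 0) - (sd X n : ℂ) / (Nat.totient m : ℂ))
    (fun n => ee ((n : ℝ) * β)) (X / Real.log X ^ A) 1 (7 * (|β| * X)) ?_ ?_ (ee_var X β)
  · have h3 : ∑ n ∈ Icc 1 X, ((fun n => (if n ≡ c [MOD m] then (Sv X n : ℂ) else 0) -
        (sd X n : ℂ) / (Nat.totient m : ℂ)) n) * ((fun n : ℕ => ee ((n : ℝ) * β)) n) =
        ∑ n ∈ (Icc 1 X).filter (fun n => n ≡ c [MOD m]), (Sv X n : ℂ) * ee (n * β) -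
        Se X (sd X) β / (Nat.totient m : ℂ) := by
      unfold Se
      rw [Finset.sum_filter, Finset.sum_div, ← Finset.sum_sub_distrib]
      refine Finset.sum_congr rfl fun n _ => ?_
      beta_reduce
      split_ifs <;> ring
    rw [h3] at h2
    refine h2.trans ?_
    apply mul_le_mul_of_nonneg_left _ (by positivity)
    have h4 : |β| * X ≤ Real.log X ^ B := by
      rw [le_div_iff₀ hX0] at hβ
      exact hβ
    linarith
  · intro M hM
    have h3 : ∑ n ∈ Icc 1 M, ((fun n => (if n ≡ c [MOD m] then (Sv X n : ℂ) else 0) -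
        (sd X n : ℂ) / (Nat.totient m : ℂ)) n) =
        ((∑ n ∈ (Icc 1 M).filter (fun n => n ≡ c [MOD m]), Sv X n -
          (1 / (Nat.totient m : ℝ)) * ∑ n ∈ Icc 1 M, sd X n : ℝ) : ℂ) := by
      push_cast
      rw [Finset.sum_filter, Finset.mul_sum, ← Finset.sum_sub_distrib]
      refine Finset.sum_congr rfl fun n _ => ?_
      beta_reduce
      split_ifs <;> ring
    rw [h3, Complex.norm_real, Real.norm_eq_abs]
    exact h1 M hM
  · intro n _
    beta_reduce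
    exact (norm_ee _).le

/-- the minorant twisted by a periodic function -/
private theorem svtc_per
    (h_eq : ∀ (A D : ℕ), ∃ X0 : ℕ, ∀ X : ℕ, X0 ≤ X → ∀ m c : ℕ, 1 ≤ m →
    (m : ℝ) ≤ Real.log X ^ D → Nat.Coprime c m → ∀ M : ℕ, M ≤ X →
    |∑ n ∈ (Icc 1 M).filter (fun n => n ≡ c [MOD m]), Sv X n -
      (1 / (Nat.totient m : ℝ)) * ∑ n ∈ Icc 1 M, sd X n| ≤ X / Real.log X ^ A)
    (A B : ℕ) : ∃ X0 : ℕ, ∀ X : ℕ, X0 ≤ X → ∀ (m : ℕ) (β : ℝ)
    (ψ : ℕ → ℂ), 1 ≤ m → (m : ℝ) ≤ Real.log X ^ B → |β| ≤ Real.log X ^ B / X →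
    (∀ n, ‖ψ n‖ ≤ 1) → (∀ n, ψ n = ψ (n % m)) →
    ‖∑ n ∈ Icc 1 X, (Sv X n : ℂ) * ψ n * ee (n * β) -
      (∑ c ∈ (range m).filter (Nat.Coprime m), ψ c) / (Nat.totient m : ℂ) * Se X (sd X) β‖ ≤
      X / Real.log X ^ A := by
  classical
  obtain ⟨X1, hX1⟩ := svtc_class h_eq (A + B + B + 3) B
  obtain ⟨X2, hX2⟩ := svtc_ev B
  refine ⟨max X1 X2, ?_⟩
  intro X hX m β ψ hm hmL hβ hψ hper
  have hXX1 : X1 ≤ X := (le_max_left _ _).trans hX
  obtain ⟨hLz, hL2, hXone⟩ := hX2 X ((le_max_right _ _).trans hX)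
  have hX0 : (0 : ℝ) < X := by exact_mod_cast hXone
  have hsw := hX1 X hXX1
  have hmz : m < zS X := by
    have h1 : (m : ℝ) < (zS X : ℝ) := lt_of_lt_of_le (lt_of_le_of_lt hmL hLz) (Nat.le_ceil _)
    exact_mod_cast h1
  set L := Real.log X with hL
  have hL0 : 0 < L := by linarith
  have hm0 : (0 : ℝ) < m := by exact_mod_cast hm
  -- the part not coprime to `m`
  have hnc : ∑ n ∈ (Icc 1 X).filter (fun n => ¬ Nat.Coprime n m),
      (Sv X n : ℂ) * ψ n * ee (n * β) = 0 := by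
    refine Finset.sum_eq_zero fun n hn => ?_
    rw [Finset.mem_filter, Finset.mem_Icc] at hn
    have h0 : Sv X n = 0 := by
      by_contra h0
      obtain ⟨p, hp, hp1, hp2⟩ := Nat.Prime.not_coprime_iff_dvd.mp hn.2
      have h2 := sv_supp X n h0 p (Nat.mem_primeFactors.mpr ⟨hp, hp1, by omega⟩)
      have h3 := Nat.le_of_dvd (by omega) hp2
      omega
    rw [h0]
    simp
  -- the part coprime to `m`
  have hco : ∑ n ∈ (Icc 1 X).filter (fun n => Nat.Coprime n m), (Sv X n : ℂ) * ψ n * ee (n * β) =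
      ∑ c ∈ (range m).filter (Nat.Coprime m), ψ c *
        ∑ n ∈ (Icc 1 X).filter (fun n => n ≡ c [MOD m]), (Sv X n : ℂ) * ee (n * β) := by
    rw [← Finset.sum_fiberwise_of_maps_to (s := (Icc 1 X).filter (fun n => Nat.Coprime n m))
      (t := (range m).filter (Nat.Coprime m)) (g := fun n => n % m)]
    · refine Finset.sum_congr rfl fun c hc => ?_
      have hcm : c < m := Finset.mem_range.1 (Finset.mem_filter.1 hc).1
      have hcc : Nat.Coprime m c := (Finset.mem_filter.1 hc).2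
      rw [Finset.mul_sum]
      refine Finset.sum_congr ?_ fun n hn => ?_
      · ext n
        rw [Finset.mem_filter, Finset.mem_filter, Finset.mem_filter, Nat.ModEq,
          Nat.mod_eq_of_lt hcm]
        constructor
        · rintro ⟨⟨h1, _⟩, h3⟩
          exact ⟨h1, h3⟩
        · rintro ⟨h1, h3⟩
          refine ⟨⟨h1, ?_⟩, h3⟩
          rw [← h3, Nat.Coprime, Nat.gcd_comm, ← Nat.gcd_rec] at hcc
          exact Nat.coprime_comm.1 hcc
      · rw [Finset.mem_filter, Nat.ModEq, Nat.mod_eq_of_lt hcm] at hn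
        rw [hper n, hn.2]
        ring
    · intro n hn
      rw [Finset.mem_filter] at hn
      rw [Finset.mem_filter, Finset.mem_range]
      refine ⟨Nat.mod_lt _ hm, ?_⟩
      rw [Nat.Coprime, Nat.gcd_comm, ← Nat.gcd_rec]
      exact Nat.coprime_comm.1 hn.2
  have hcard : (((range m).filter (Nat.Coprime m)).card : ℝ) ≤ m := by
    have h1 : ((range m).filter (Nat.Coprime m)).card ≤ m := by
      calc ((range m).filter (Nat.Coprime m)).card ≤ (range m).card := card_filter_le _ _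
        _ = m := card_range m
    exact_mod_cast h1
  have hmain : ‖∑ n ∈ (Icc 1 X).filter (fun n => Nat.Coprime n m),
      (Sv X n : ℂ) * ψ n * ee (n * β) -
      (∑ c ∈ (range m).filter (Nat.Coprime m), ψ c) / (Nat.totient m : ℂ) * Se X (sd X) β‖ ≤
      m * (X / L ^ (A + B + B + 3) * (1 + 7 * L ^ B)) := by
    rw [hco, div_mul_eq_mul_div, mul_div_assoc, Finset.sum_mul, ← Finset.sum_sub_distrib]
    refine (norm_sum_le _ _).trans ?_
    calc ∑ c ∈ (range m).filter (Nat.Coprime m), ‖ψ c *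
          ∑ n ∈ (Icc 1 X).filter (fun n => n ≡ c [MOD m]), (Sv X n : ℂ) * ee (n * β) -
          ψ c * (Se X (sd X) β / (Nat.totient m : ℂ))‖ ≤
          ∑ c ∈ (range m).filter (Nat.Coprime m), X / L ^ (A + B + B + 3) * (1 + 7 * L ^ B) := by
            refine Finset.sum_le_sum fun c hc => ?_
            rw [← mul_sub, norm_mul]
            have h1 := hsw m c β hm hmL hβ (Nat.coprime_comm.1 (Finset.mem_filter.1 hc).2)
            calc _ ≤ 1 * (X / L ^ (A + B + B + 3) * (1 + 7 * L ^ B)) :=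
                  mul_le_mul (hψ c) h1 (norm_nonneg _) zero_le_one
              _ = _ := one_mul _
      _ = (((range m).filter (Nat.Coprime m)).card : ℝ) *
          (X / L ^ (A + B + B + 3) * (1 + 7 * L ^ B)) := by
            rw [Finset.sum_const, nsmul_eq_mul]
      _ ≤ m * (X / L ^ (A + B + B + 3) * (1 + 7 * L ^ B)) :=
            mul_le_mul_of_nonneg_right hcard (by positivity)
  rw [← Finset.sum_filter_add_sum_filter_not (Icc 1 X) (fun n => Nat.Coprime n m), hnc, add_zero]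
  refine hmain.trans ?_
  have hLB : 1 ≤ L ^ B := one_le_pow₀ (by linarith)
  calc m * (X / L ^ (A + B + B + 3) * (1 + 7 * L ^ B))
      ≤ L ^ B * (X / L ^ (A + B + B + 3) * (8 * L ^ B)) := by
        apply mul_le_mul hmL _ (by positivity) (by positivity)
        apply mul_le_mul_of_nonneg_left _ (by positivity)
        linarith
    _ = 8 / L ^ 3 * (X / L ^ A) := by
        rw [pow_add, pow_add, pow_add]
        field_simp
    _ ≤ 1 * (X / L ^ A) := by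
        apply mul_le_mul_of_nonneg_right _ (by positivity)
        rw [div_le_one (by positivity)]
        calc (8 : ℝ) = 2 ^ 3 := by norm_num
          _ ≤ L ^ 3 := pow_le_pow_left₀ (by norm_num) hL2 3
    _ = X / L ^ A := one_mul _

/-- removing the numbers which are not coprime to `q` -/
private theorem svtc_rem (X q : ℕ) [NeZero q] (hz : 2 ≤ zS X) (hqX : q ≤ X)
    (χ : DirichletCharacter ℂ q) (θ : ℝ)
    (ψ : ℕ → ℂ) (hψ : ∀ n, ‖ψ n‖ ≤ 1) (h : ∀ n, Nat.Coprime n q → χ n = ψ n) :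
    ‖Tc X q (fun n => Sv X n) θ χ - ∑ n ∈ Icc 1 X, (Sv X n : ℂ) * ψ n * ee (n * θ)‖ ≤
      20 * (X / (zS X : ℝ)) := by
  classical
  unfold Tc
  rw [← Finset.sum_sub_distrib,
    ← Finset.sum_filter_add_sum_filter_not (Icc 1 X) (fun n => Nat.Coprime n q)]
  have h1 : ∑ n ∈ (Icc 1 X).filter (fun n => Nat.Coprime n q), ((Sv X n : ℂ) * χ n * ee (n * θ) -
      (Sv X n : ℂ) * ψ n * ee (n * θ)) = 0 := by
    refine Finset.sum_eq_zero fun n hn => ?_
    rw [h n (Finset.mem_filter.1 hn).2, sub_self]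
  rw [h1, zero_add]
  refine (norm_sum_le _ _).trans (le_trans (Finset.sum_le_sum fun n hn => ?_)
    (svtc_noncop X q hz (Nat.pos_of_ne_zero (NeZero.ne q)) hqX))
  have h2 : χ n = 0 :=
    MulChar.map_nonunit _ (fun h' => (Finset.mem_filter.1 hn).2 ((ZMod.isUnit_iff_coprime n q).1 h'))
  rw [h2, mul_zero, zero_mul, zero_sub, norm_neg, norm_mul, norm_mul, norm_ee, mul_one,
    Complex.norm_real, Real.norm_eq_abs]
  calc |Sv X n| * ‖ψ n‖ ≤ |Sv X n| * 1 :=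
        mul_le_mul_of_nonneg_left (hψ n) (abs_nonneg _)
    _ = |Sv X n| := mul_one _

/-- the size of the remainder -/
private theorem svtc_small (A : ℕ) : ∃ X0 : ℕ, ∀ X : ℕ, X0 ≤ X → 2 ≤ zS X ∧
    2 ≤ Real.log X ∧ 1 ≤ X ∧ 20 * (X / (zS X : ℝ)) ≤ 1 / 2 * (X / Real.log X ^ A) := by
  obtain ⟨X1, hX1⟩ := svtc_ev (A + 6)
  refine ⟨X1, fun X hX => ?_⟩
  obtain ⟨h1, h2, h3⟩ := hX1 X hX
  have h4 : Real.log X ^ (A + 6) < (zS X : ℝ) := lt_of_lt_of_le h1 (Nat.le_ceil _)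
  have hX0 : (0 : ℝ) < X := by exact_mod_cast h3
  have hA : 1 ≤ Real.log X ^ A := one_le_pow₀ (by linarith)
  have h6 : 64 * Real.log X ^ A ≤ Real.log X ^ (A + 6) := by
    rw [pow_add, mul_comm]
    apply mul_le_mul_of_nonneg_left _ (by positivity)
    calc (64 : ℝ) = 2 ^ 6 := by norm_num
      _ ≤ Real.log X ^ 6 := pow_le_pow_left₀ (by norm_num) h2 6
  refine ⟨?_, h2, h3, ?_⟩
  · have h5 : (2 : ℝ) ≤ (zS X : ℝ) := by linarith
    exact_mod_cast h5
  · have hz : (0 : ℝ) < (zS X : ℝ) := by linarith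
    have h7 : 40 * Real.log X ^ A ≤ (zS X : ℝ) := by linarith
    rw [← mul_div_assoc, ← mul_div_assoc, div_le_div_iff₀ hz (by positivity)]
    calc 20 * (X : ℝ) * Real.log X ^ A = 1 / 2 * X * (40 * Real.log X ^ A) := by ring
      _ ≤ 1 / 2 * X * (zS X : ℝ) := mul_le_mul_of_nonneg_left h7 (by positivity)

private theorem svtc_ee_mod (r m n : ℕ) (hr : 1 ≤ r) (h : r ∣ m) (y : ℤ) :
    ee (n * ((y : ℝ) / r)) = ee ((n % m : ℕ) * ((y : ℝ) / r)) := by
  have hr0 : (r : ℝ) ≠ 0 := by positivity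
  obtain ⟨k, hk⟩ := h
  obtain ⟨s, hs⟩ : ∃ s : ℕ, n = n % m + m * s := ⟨n / m, (Nat.mod_add_div n m).symm⟩
  have h1 : (n : ℝ) = (n % m : ℕ) + (m : ℝ) * s := by
    exact_mod_cast hs
  have h2 : (n : ℝ) * ((y : ℝ) / r) = (n % m : ℕ) * ((y : ℝ) / r) +
      (((k : ℤ) * (s : ℤ) * y : ℤ) : ℝ) := by
    conv_lhs => rw [h1]
    have hm : (m : ℝ) = r * k := by exact_mod_cast hk
    rw [hm]
    push_cast
    field_simp
  rw [h2, ee_add_int]

private theorem svtc_cr (r : ℕ) (hr : 1 ≤ r) (y : ℤ) (hy : IsCoprime y (r : ℤ)) :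
    ∑ c ∈ (range r).filter (Nat.Coprime r), ee (c * ((y : ℝ) / r)) =
      ((((ArithmeticFunction.moebius r : ℤ) : ℝ) : ℝ) : ℂ) := by
  have hr0 : (r : ℝ) ≠ 0 := by positivity
  have hrz : (r : ℤ) ≠ 0 := by exact_mod_cast (by omega : r ≠ 0)
  obtain ⟨n, hn⟩ : ∃ n : ℕ, (n : ℤ) = y % r := ⟨(y % r).toNat, by
    rw [Int.toNat_of_nonneg (Int.emod_nonneg _ hrz)]⟩
  have hyn : y = n + r * (y / r) := by
    rw [hn]
    exact (Int.emod_add_mul_ediv y r).symm
  have hcop : Nat.gcd r n = 1 := by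
    have h1 : IsCoprime ((n : ℤ) + r * (y / r)) (r : ℤ) := by rwa [← hyn]
    have h2 : IsCoprime (n : ℤ) (r : ℤ) := by
      have h3 := h1.add_mul_left_left (-(y / r))
      have h4 : (n : ℤ) + r * (y / r) + r * (-(y / r)) = n := by ring
      rwa [h4] at h3
    exact Nat.coprime_comm.1 (Nat.isCoprime_iff_coprime.1 h2)
  have h1 : cn r n = ((ArithmeticFunction.moebius r : ℤ) : ℝ) := by
    unfold cn
    rw [hcop]
    simp
  rw [← h1, cn_eq_cr r n hr]
  unfold cr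
  refine Finset.sum_congr rfl fun c _ => ?_
  have h2 : (c : ℝ) * ((y : ℝ) / r) = (((n : ℕ) : ℤ) : ℝ) * c / r + (((c : ℤ) * (y / r) : ℤ) : ℝ) := by
    have h3 : (y : ℝ) = n + r * ((y / r : ℤ) : ℝ) := by exact_mod_cast congrArg (fun z : ℤ => (z : ℝ)) hyn
    conv_lhs => rw [h3]
    push_cast
    field_simp
  rw [h2, ee_add_int]

private theorem svtc_units (m : ℕ) [NeZero m] (f : ℕ → ℂ) :
    ∑ u : (ZMod m)ˣ, f ((u : ZMod m).val) = ∑ c ∈ (range m).filter (Nat.Coprime m), f c := by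
  refine Finset.sum_bij (fun u _ => (u : ZMod m).val) ?_ ?_ ?_ ?_
  · intro u _
    rw [Finset.mem_filter, Finset.mem_range]
    exact ⟨ZMod.val_lt _, Nat.coprime_comm.1 (ZMod.val_coe_unit_coprime u)⟩
  · intro u _ v _ h
    exact Units.ext (ZMod.val_injective m h)
  · intro c hc
    rw [Finset.mem_filter, Finset.mem_range] at hc
    refine ⟨ZMod.unitOfCoprime c (Nat.coprime_comm.1 hc.2), Finset.mem_univ _, ?_⟩
    rw [ZMod.coe_unitOfCoprime, ZMod.val_cast_of_lt hc.1]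
  · intro u _
    rfl

/-- the sum over the reduced classes vanishes -/
private theorem svtc_zero (d r : ℕ) [NeZero d] [NeZero r] (hdr : Nat.Coprime d r)
    (χ : DirichletCharacter ℂ d) (hχ : χ ≠ 1) (y : ℤ) :
    ∑ c ∈ (range (d * r)).filter (Nat.Coprime (d * r)), χ c * ee (c * ((y : ℝ) / r)) = 0 := by
  have hr : 1 ≤ r := Nat.pos_of_ne_zero (NeZero.ne r)
  obtain ⟨u, hu⟩ := MulChar.ne_one_iff.1 hχ
  -- lift
  have huc := ZMod.val_coe_unit_coprime u
  obtain ⟨v, hv1, hv2⟩ := Nat.chineseRemainder hdr (u : ZMod d).val 1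
  have hvd : Nat.Coprime v d := by
    have h1 : Nat.gcd v d = Nat.gcd (u : ZMod d).val d := hv1.gcd_eq
    rw [Nat.Coprime, h1]
    exact huc
  have hvr : Nat.Coprime v r := by
    have h1 : Nat.gcd v r = Nat.gcd 1 r := hv2.gcd_eq
    rw [Nat.Coprime, h1, Nat.gcd_one_left]
  have hvm : Nat.Coprime v (d * r) := Nat.Coprime.mul_right hvd hvr
  let w : (ZMod (d * r))ˣ := ZMod.unitOfCoprime v hvm
  have hχv : χ ((v : ℕ) : ZMod d) = χ u := by
    congr 1
    have h1 : ((v : ℕ) : ZMod d) = (((u : ZMod d).val : ℕ) : ZMod d) :=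
      (ZMod.natCast_eq_natCast_iff _ _ _).2 hv1
    rw [h1, ZMod.natCast_zmod_val]
  have hper : ∀ a b : ℕ, a ≡ b [MOD (d * r)] → χ a * ee (a * ((y : ℝ) / r)) =
      χ b * ee (b * ((y : ℝ) / r)) := by
    intro a b hab
    have h1 : ((a : ℕ) : ZMod d) = ((b : ℕ) : ZMod d) :=
      (ZMod.natCast_eq_natCast_iff _ _ _).2 (Nat.ModEq.of_mul_right r hab)
    rw [h1, svtc_ee_mod r (d * r) a hr (dvd_mul_left r d) y,
      svtc_ee_mod r (d * r) b hr (dvd_mul_left r d) y, hab]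
  have hmul : ∀ c : ℕ, χ ((v * c : ℕ) : ZMod d) * ee ((v * c : ℕ) * ((y : ℝ) / r)) =
      χ u * (χ c * ee (c * ((y : ℝ) / r))) := by
    intro c
    have h1 : ee ((v * c : ℕ) * ((y : ℝ) / r)) = ee (c * ((y : ℝ) / r)) := by
      rw [svtc_ee_mod r r (v * c) hr dvd_rfl y, svtc_ee_mod r r c hr dvd_rfl y]
      have h2 : v * c ≡ 1 * c [MOD r] := hv2.mul_right c
      rw [one_mul] at h2
      rw [h2]
    rw [h1, Nat.cast_mul, map_mul, hχv, mul_assoc]
  rw [← svtc_units (d * r) (fun c => χ c * ee (c * ((y : ℝ) / r)))]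
  set S := ∑ u : (ZMod (d * r))ˣ, (fun c : ℕ => χ c * ee (c * ((y : ℝ) / r)))
    ((u : ZMod (d * r)).val) with hS
  have hshift : S = χ u * S := by
    rw [hS, Finset.mul_sum]
    have h1 : ∑ x : (ZMod (d * r))ˣ, (fun c : ℕ => χ c * ee (c * ((y : ℝ) / r)))
        ((x : ZMod (d * r)).val) =
        ∑ x : (ZMod (d * r))ˣ, (fun c : ℕ => χ c * ee (c * ((y : ℝ) / r)))
        (((w * x : (ZMod (d * r))ˣ) : ZMod (d * r)).val) :=
      (Equiv.sum_comp (Equiv.mulLeft w) (fun x : (ZMod (d * r))ˣ =>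
        (fun c : ℕ => χ c * ee (c * ((y : ℝ) / r))) ((x : ZMod (d * r)).val))).symm
    refine h1.trans (Finset.sum_congr rfl fun x _ => ?_)
    have h2 : ((w * x : (ZMod (d * r))ˣ) : ZMod (d * r)).val ≡
        v * (x : ZMod (d * r)).val [MOD (d * r)] := by
      rw [← ZMod.natCast_eq_natCast_iff, ZMod.natCast_zmod_val, Units.val_mul]
      push_cast
      rw [ZMod.natCast_zmod_val, ZMod.coe_unitOfCoprime]
    exact (hper _ _ h2).trans (hmul _)
  have h3 : (1 - χ u) * S = 0 := by linear_combination hshift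
  exact (mul_eq_zero.1 h3).resolve_left (sub_ne_zero.2 (Ne.symm hu))

theorem sv_Tc_one_core
    (h_eq : ∀ (A D : ℕ), ∃ X0 : ℕ, ∀ X : ℕ, X0 ≤ X → ∀ m c : ℕ, 1 ≤ m →
    (m : ℝ) ≤ Real.log X ^ D → Nat.Coprime c m → ∀ M : ℕ, M ≤ X →
    |∑ n ∈ (Icc 1 M).filter (fun n => n ≡ c [MOD m]), Sv X n -
      (1 / (Nat.totient m : ℝ)) * ∑ n ∈ Icc 1 M, sd X n| ≤ X / Real.log X ^ A)
    (A B : ℕ) : ∃ X0 : ℕ, ∀ X : ℕ, X0 ≤ X → ∀ (q : ℕ) [NeZero q], q ≤ X →
    ∀ (r : ℕ) (y : ℤ) (β : ℝ), 1 ≤ r → (r : ℝ) ≤ Real.log X ^ B → Nat.Coprime r q →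
    IsCoprime y (r : ℤ) → |β| ≤ Real.log X ^ B / X →
    ‖Tc X q (fun n => Sv X n) (y / r + β) 1 -
      ((((ArithmeticFunction.moebius r : ℤ) : ℝ) / (Nat.totient r : ℝ) : ℝ) : ℂ) *
        Se X (sd X) β‖ ≤ X / Real.log X ^ A := by
  obtain ⟨X1, hX1⟩ := svtc_per h_eq (A + 1) B
  obtain ⟨X2, hX2⟩ := svtc_small A
  refine ⟨max X1 X2, ?_⟩
  intro X hX q _ hqX r y β hr hrL hrq hy hβ
  have hXX1 : X1 ≤ X := (le_max_left _ _).trans hX
  have hXX2 : X2 ≤ X := (le_max_right _ _).trans hX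
  obtain ⟨hz, hL1, hXone, hL2⟩ := hX2 X hXX2
  have hX0 : (0 : ℝ) < X := by exact_mod_cast hXone
  have hr0 : (r : ℝ) ≠ 0 := by positivity
  have h1 := hX1 X hXX1 r β (fun n => ee (n * ((y : ℝ) / r))) hr hrL hβ (fun n => (norm_ee _).le)
    (fun n => svtc_ee_mod r r n hr dvd_rfl y)
  rw [svtc_cr r hr y hy] at h1
  have h2 := svtc_rem X q hz hqX 1 (y / r + β) (fun _ => 1) (fun _ => by simp) (fun n hn =>
    MulChar.one_apply ((ZMod.isUnit_iff_coprime n q).2 hn))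
  have h3 : ∑ n ∈ Icc 1 X, (Sv X n : ℂ) * (fun _ : ℕ => (1 : ℂ)) n * ee (n * (y / r + β)) =
      ∑ n ∈ Icc 1 X, (Sv X n : ℂ) * ee (n * ((y : ℝ) / r)) * ee (n * β) := by
    refine Finset.sum_congr rfl fun n _ => ?_
    rw [mul_one, mul_assoc, ← ee_add]
    congr 2
    ring
  rw [h3] at h2
  set L := Real.log X with hL
  have hL0 : 0 < L := by linarith
  have h4 : ((((ArithmeticFunction.moebius r : ℤ) : ℝ) / (Nat.totient r : ℝ) : ℝ) : ℂ) *
      Se X (sd X) β =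
      ((((ArithmeticFunction.moebius r : ℤ) : ℝ) : ℝ) : ℂ) / (Nat.totient r : ℂ) *
        Se X (sd X) β := by
    push_cast
    ring
  rw [h4]
  have h5 := norm_sub_le_norm_sub_add_norm_sub (Tc X q (fun n => Sv X n) (y / r + β) 1)
    (∑ n ∈ Icc 1 X, (Sv X n : ℂ) * ee (n * ((y : ℝ) / r)) * ee (n * β))
    (((((ArithmeticFunction.moebius r : ℤ) : ℝ) : ℝ) : ℂ) / (Nat.totient r : ℂ) * Se X (sd X) β)
  refine h5.trans ((add_le_add (h2.trans hL2) h1).trans ?_)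
  have h6 : X / L ^ (A + 1) ≤ 1 / 2 * (X / L ^ A) := by
    rw [pow_succ, ← div_div]
    have h2 : 0 ≤ X / L ^ A := by positivity
    have h3 : X / L ^ A / L ≤ X / L ^ A / 2 := div_le_div_of_nonneg_left h2 (by norm_num) hL1
    linarith
  linarith

theorem sv_Tc_small_core
    (h_eq : ∀ (A D : ℕ), ∃ X0 : ℕ, ∀ X : ℕ, X0 ≤ X → ∀ m c : ℕ, 1 ≤ m →
    (m : ℝ) ≤ Real.log X ^ D → Nat.Coprime c m → ∀ M : ℕ, M ≤ X →
    |∑ n ∈ (Icc 1 M).filter (fun n => n ≡ c [MOD m]), Sv X n -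
      (1 / (Nat.totient m : ℝ)) * ∑ n ∈ Icc 1 M, sd X n| ≤ X / Real.log X ^ A)
    (A B : ℕ) : ∃ X0 : ℕ, ∀ X : ℕ, X0 ≤ X → ∀ (q : ℕ) [NeZero q], q ≤ X →
    ∀ (r d : ℕ) (y : ℤ) (β : ℝ) (χ : DirichletCharacter ℂ q), 1 ≤ r → (r : ℝ) ≤ Real.log X ^ B →
    Nat.Coprime r q → |β| ≤ Real.log X ^ B / X → χ ≠ 1 → d ∣ q → (d : ℝ) ≤ Real.log X ^ B →
    χ.FactorsThrough d → ‖Tc X q (fun n => Sv X n) (y / r + β) χ‖ ≤ X / Real.log X ^ A := by
  obtain ⟨X1, hX1⟩ := svtc_per h_eq (A + 1) (B + B)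
  obtain ⟨X2, hX2⟩ := svtc_small A
  refine ⟨max X1 X2, ?_⟩
  intro X hX q _ hqX r d y β χ hr hrL hrq hβ hχ hdq hdL hfac
  have hXX1 : X1 ≤ X := (le_max_left _ _).trans hX
  have hXX2 : X2 ≤ X := (le_max_right _ _).trans hX
  obtain ⟨hz, hL1, hXone, hL2⟩ := hX2 X hXX2
  have hX0 : (0 : ℝ) < X := by exact_mod_cast hXone
  have hq00 : 0 < q := Nat.pos_of_ne_zero (NeZero.ne q)
  have hq0 : (0 : ℝ) < q := by exact_mod_cast hq00
  have hd00 : 0 < d := Nat.pos_of_dvd_of_pos hdq hq00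
  have : NeZero d := ⟨hd00.ne'⟩
  have : NeZero r := ⟨by omega⟩
  obtain ⟨hdq', χ0, hχ0⟩ := hfac
  have hχ01 : χ0 ≠ 1 := by
    rintro rfl
    apply hχ
    rw [hχ0, map_one]
  have hdr : Nat.Coprime d r := (Nat.Coprime.coprime_dvd_left hdq (Nat.coprime_comm.1 hrq))
  set ψ : ℕ → ℂ := fun n => χ0 n * ee (n * ((y : ℝ) / r)) with hψ
  have hψ1 : ∀ n, ‖ψ n‖ ≤ 1 := by
    intro n
    rw [hψ]
    simp only
    rw [norm_mul, norm_ee, mul_one]
    exact DirichletCharacter.norm_le_one χ0 _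
  have hψper : ∀ n, ψ n = ψ (n % (d * r)) := by
    intro n
    rw [hψ]
    simp only
    rw [svtc_ee_mod r (d * r) n hr (dvd_mul_left r d) y]
    congr 2
    rw [ZMod.natCast_eq_natCast_iff]
    exact Nat.ModEq.of_mul_right r (Nat.mod_modEq n (d * r)).symm
  set L := Real.log X with hL
  have hL0 : 0 < L := by linarith
  have hm1 : 1 ≤ d * r := Nat.mul_pos hd00 hr
  have hmL : ((d * r : ℕ) : ℝ) ≤ L ^ (B + B) := by
    push_cast
    rw [pow_add]
    exact mul_le_mul hdL hrL (by positivity) (by positivity)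
  have hβ' : |β| ≤ L ^ (B + B) / X := by
    refine hβ.trans ?_
    apply div_le_div_of_nonneg_right _ hX0.le
    exact pow_le_pow_right₀ (by linarith) (by omega)
  have h1 := hX1 X hXX1 (d * r) β ψ hm1 hmL hβ' hψ1 hψper
  rw [hψ, svtc_zero d r hdr χ0 hχ01 y, zero_div, zero_mul, sub_zero] at h1
  have h2 := svtc_rem X q hz hqX χ (y / r + β) (fun n => χ0 n)
    (fun n => DirichletCharacter.norm_le_one χ0 _) (fun n hn => by
      rw [hχ0]
      have hu : IsUnit ((n : ℕ) : ZMod q) := (ZMod.isUnit_iff_coprime n q).2 hn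
      have hcl := DirichletCharacter.changeLevel_eq_cast_of_dvd χ0 hdq' hu.unit
      rw [IsUnit.unit_spec] at hcl
      rw [hcl]
      congr 1
      exact ZMod.cast_natCast hdq' n)
  have h3 : ∑ n ∈ Icc 1 X, (Sv X n : ℂ) * (fun n : ℕ => χ0 n) n * ee (n * (y / r + β)) =
      ∑ n ∈ Icc 1 X, (Sv X n : ℂ) * (χ0 n * ee (n * ((y : ℝ) / r))) * ee (n * β) := by
    refine Finset.sum_congr rfl fun n _ => ?_
    have h4 : ee (n * ((y : ℝ) / r + β)) = ee (n * ((y : ℝ) / r)) * ee (n * β) := by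
      rw [← ee_add]
      congr 1
      ring
    rw [h4]
    ring
  rw [h3] at h2
  have h5 : ‖Tc X q (fun n => Sv X n) (y / r + β) χ‖ ≤
      20 * (X / (zS X : ℝ)) + X / L ^ (A + 1) := by
    have h6 := norm_sub_norm_le (Tc X q (fun n => Sv X n) (y / r + β) χ)
      (∑ n ∈ Icc 1 X, (Sv X n : ℂ) * (χ0 n * ee (n * ((y : ℝ) / r))) * ee (n * β))
    linarith
  refine h5.trans ?_
  have h6 : X / L ^ (A + 1) ≤ 1 / 2 * (X / L ^ A) := by
    rw [pow_succ, ← div_div]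
    have h2 : 0 ≤ X / L ^ A := by positivity
    have h3 : X / L ^ A / L ≤ X / L ^ A / 2 := div_le_div_of_nonneg_left h2 (by norm_num) hL1
    linarith
  linarith

end Pool.MP_dd84fd_nt.T7
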