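import Pool.Agent.Lib.MP_dd84fd_nt.T7.T7L2Core
import Pool.Agent.Lib.MP_dd84fd_nt.T7.MajorAll2
import Pool.Agent.Lib.MP_dd84fd_nt.T7.SvMinor
import Pool.Agent.Lib.MP_dd84fd_nt.T7.NuMinor45
import Pool.Agent.Lib.MP_dd84fd_nt.T7.Fz2Basic
import Pool.Agent.Lib.MP_dd84fd_nt.T7.SvBasic
import Pool.Agent.Lib.MP_dd84fd_nt.T7.SdBasic
import Pool.Agent.Lib.MP_dd84fd_nt.L2G.ArcQ
import Pool.Agent.Lib.MP_dd84fd_nt.L2G.ClassAlg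
import Pool.Agent.Lib.MP_dd84fd_nt.L2G.ModelArith
import Pool.Agent.Lib.MP_dd84fd_nt.L2G.CvBasic
import Pool.Agent.Lib.MP_dd84fd_nt.L2G.Avg

set_option autoImplicit false

namespace Pool.MP_dd84fd_nt.T7

open Finset Pool.MP_67663b_nt.Odd Pool.MP_dd84fd_nt.L2G

theorem t7_L2 (ε : ℝ) (hε : 0 < ε) (hε1 : ε < 1) (A K : ℕ) : ∃ X0 : ℕ, ∀ X : ℕ, X0 ≤ X →
    ∀ (q : ℕ) [NeZero q], (q : ℝ) ≤ (X : ℝ) ^ (4 / 5 - ε) → ∀ a : ZMod q,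
    (Nat.gcd a.val q : ℝ) ≤ Real.log X ^ K →
    ∑ n ∈ (range (2 * X + 1)).filter (fun n : ℕ => (n : ZMod q) = a),
      (cv X (fun n => Sv X n) (la X) n - cv X (snu X q) (nu X (Rm X) q) n) ^ 2 ≤
      X ^ 3 / (q * Real.log X ^ A) :=
  t7_L2_core major_all2 sv_minor nu_minor45 ε hε hε1 A K

end Pool.MP_dd84fd_nt.T7
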