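import Pool.Agent.Lib.MP_dd84fd_nt.T7.T7ScaleCore
import Pool.Agent.Lib.MP_dd84fd_nt.T7.T7L2
import Pool.Agent.Lib.MP_dd84fd_nt.T7.Fz2Basic
import Pool.Agent.Lib.MP_dd84fd_nt.T7.SvBasic
import Pool.Agent.Lib.MP_dd84fd_nt.T7.SdBasic
import Pool.Agent.Lib.MP_dd84fd_nt.L2G.SpecScale
import Pool.Agent.Lib.MP_dd84fd_nt.L2G.ClassAlg
import Pool.Agent.Lib.MP_dd84fd_nt.L2G.ModelArith
import Pool.Agent.Lib.MP_dd84fd_nt.L2G.CvBasic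

set_option autoImplicit false

namespace Pool.MP_dd84fd_nt.T7

open Finset Pool.MP_67663b_nt.Odd Pool.MP_dd84fd_nt.L2G

theorem t7_scale (ε : ℝ) (hε : 0 < ε) (hε1 : ε < 1) : ∃ C : ℕ, ∀ A K : ℕ, ∃ Y0 : ℕ,
    ∀ Y : ℕ, Y0 ≤ Y → ∀ (X N : ℕ) [NeZero N], Y ≤ X → X < N → 2 * Y < N →
    ∀ ξ : ℕ → ℝ, (∀ n, 0 ≤ ξ n) → ∑ n ∈ Icc 1 X, ξ n ≤ 1 → ∀ δ : ℝ, 0 ≤ δ →
    ∀ (q : ℕ) [NeZero q], (q : ℝ) ≤ (Y : ℝ) ^ (4 / 5 - ε) → ∀ a : ZMod q,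
    (Nat.gcd a.val q : ℝ) ≤ Real.log Y ^ K →
    ∑ n ∈ (Icc 1 Y).filter (fun n : ℕ => (n : ZMod q) = a),
      ξ n * (cv Y (fun n => Sv Y n) (la Y) n - cv Y (snu Y q) (nu Y (Rm Y) q) n) ^ 2 ≤
      δ * (Y * Real.log Y ^ C) ^ 2 +
        ((Pool.MP_dd84fd_nt.LS.spec N X ξ δ).card : ℝ) / N * (Y ^ 3 / (q * Real.log Y ^ A)) :=
  t7_scale_core t7_L2 ε hε hε1

end Pool.MP_dd84fd_nt.T7
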