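import Pool.Agent.Lib.MP_dd84fd_nt.T7.T7FinalCore
import Pool.Agent.Lib.MP_dd84fd_nt.T7.T7Scale
import Pool.Agent.Lib.MP_dd84fd_nt.T7.SnuLower
import Pool.Agent.Lib.MP_dd84fd_nt.T7.SvBasic
import Pool.Agent.Lib.MP_dd84fd_nt.L2G.SpecFinal
import Pool.Agent.Lib.MP_dd84fd_nt.L2G.SpecSmall
import Pool.Agent.Lib.MP_dd84fd_nt.L2G.CvBasic
import Pool.Agent.Lib.MP_dd84fd_nt.L2G.GHL
import Pool.Agent.Lib.MP_dd84fd_nt.En.Sing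

set_option autoImplicit false

namespace Pool.MP_dd84fd_nt.T7

open Finset Pool.MP_67663b_nt.Odd Pool.MP_dd84fd_nt.L2G

theorem t7_final (ε₀ : ℝ) (hε₀ : 0 < ε₀) (A : ℕ) : ∃ B : ℕ, ∀ K : ℕ,
    ∃ X0 : ℕ, ∀ X : ℕ, X0 ≤ X → ∀ (N : ℕ) [NeZero N], N = 3 * X →
    ∀ q : ℕ, 1 ≤ q → (q : ℝ) ≤ (X : ℝ) ^ (4 / 5 - ε₀) → ∀ a : ℕ,
    (Nat.gcd a q : ℝ) ≤ Real.log X ^ K → ∀ ξ : ℕ → ℝ, (∀ n, 0 ≤ ξ n) →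
    (∀ n, ξ n ≠ 0 → n ≡ a [MOD q]) → ∑ n ∈ Icc 1 X, ξ n ≤ 1 →
    ((Pool.MP_dd84fd_nt.LS.spec N X ξ (1 / (Real.log X) ^ B)).card : ℝ) ≤
      q * (Real.log X) ^ K →
    ∑ n ∈ (Icc 1 X).filter (fun n => Even n ∧
      20 * (Pool.MP_dd84fd_nt.En.g n : ℝ) < Pool.MP_dd84fd_nt.En.HL n), ξ n ≤
        1 / Real.log X ^ A :=
  t7_final_core t7_scale snu_lower ε₀ hε₀ A

end Pool.MP_dd84fd_nt.T7
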