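import Pool.Agent.Lib.MP_dd84fd_nt.T7.Fz2Basic
import Pool.Agent.Lib.MP_dd84fd_nt.T7.SvBasic
import Pool.Agent.Lib.MP_dd84fd_nt.T7.SdBasic
import Pool.Agent.Lib.MP_dd84fd_nt.L2G.ArcQ
import Pool.Agent.Lib.MP_dd84fd_nt.L2G.ClassAlg
import Pool.Agent.Lib.MP_dd84fd_nt.L2G.ModelArith
import Pool.Agent.Lib.MP_dd84fd_nt.L2G.CvBasic
import Pool.Agent.Lib.MP_dd84fd_nt.L2G.Avg

/-!
T7-57 T7L2 (compare L2G/T2L2). Fz2_pars. B = max of the B0 of h_sv and h_nu (with A' = A + C + 4, C from nu_L2). θ outside MajQ X q B: minor_hyp gives MinorHyp; |Fz2 Sv la|^2 <= VA(Sv) VA(la) <= X^2/(q L^A') VA(la) (Fz2_sq, h_sv), average of VA(la) = sum la^2 <= 2XL (av_VA, sum_la_sq_le);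
|Fz2 snu nu|^2 <= VA(snu) VA(nu) <= X^2/(qL^A') VA(nu), average of VA(nu) <= X L^C (nu_L2). θ in MajQ X q B: h_maj with A'' = A + 2B + 6: sup^2 * major_measure (16 q L^(2B)/X) <= 16 X^3 L^(2B - 2A'')/q.
-/

set_option autoImplicit false

namespace Pool.MP_dd84fd_nt.T7

open Finset Pool.MP_67663b_nt.Odd Pool.MP_dd84fd_nt.L2G

private theorem T7L2_VA_nonneg (X q : ℕ) [NeZero q] (f : ℕ → ℝ) (θ : ℝ) : 0 ≤ VA X q f θ :=
  sum_nonneg fun b _ => by positivity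

private theorem T7L2_arith {L : ℝ} (hL : 8 ≤ L) (A B C : ℕ) {X q : ℝ} (hX : 0 < X) (hq : 0 < q) :
    (X ^ 2 / (q * L ^ (A + B + 3))) ^ 2 * (16 * q * L ^ (2 * B) / X) +
      2 * (X ^ 2 / (q * L ^ (A + C + 3))) * (2 * X * L + X * L ^ C) ≤ X ^ 3 / (q * L ^ A) := by
  have hL0 : 0 < L := by linarith
  have e1 : (X ^ 2 / (q * L ^ (A + B + 3))) ^ 2 * (16 * q * L ^ (2 * B) / X) =
      X ^ 3 / (q * L ^ A) * (16 / L ^ (A + 6)) := by
    have : L ^ (A + B + 3) * L ^ (A + B + 3) = L ^ A * L ^ (A + 6) * L ^ (2 * B) := by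
      rw [← pow_add, ← pow_add, ← pow_add]
      congr 1
      ring
    rw [div_pow, mul_pow, sq (L ^ (A + B + 3)), this]
    field_simp
  have e2 : 2 * (X ^ 2 / (q * L ^ (A + C + 3))) * (2 * X * L + X * L ^ C) =
      X ^ 3 / (q * L ^ A) * ((4 * L + 2 * L ^ C) / L ^ (C + 3)) := by
    have : L ^ (A + C + 3) = L ^ A * L ^ (C + 3) := by
      rw [← pow_add]
      congr 1
    rw [this]
    field_simp
    ring
  rw [e1, e2, ← mul_add]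
  have h1 : 16 / L ^ (A + 6) ≤ 1 / 2 := by
    rw [div_le_iff₀ (by positivity)]
    have : (2 : ℝ) ^ 6 ≤ L ^ (A + 6) := by
      calc (2 : ℝ) ^ 6 ≤ L ^ 6 := by gcongr; linarith
        _ ≤ L ^ (A + 6) := pow_le_pow_right₀ (by linarith) (by omega)
    linarith
  have h2 : (4 * L + 2 * L ^ C) / L ^ (C + 3) ≤ 1 / 2 := by
    rw [div_le_iff₀ (by positivity)]
    have h3 : L ^ (C + 3) = L ^ C * L ^ 3 := pow_add _ _ _
    have h4 : (1 : ℝ) ≤ L ^ C := one_le_pow₀ (by linarith)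
    rw [h3]
    have hLL : 64 ≤ L * L := by nlinarith
    have h5 : 64 * L ≤ L ^ 3 := by
      calc 64 * L ≤ (L * L) * L := mul_le_mul_of_nonneg_right hLL hL0.le
        _ = L ^ 3 := by ring
    have h6 : (512 : ℝ) ≤ L ^ 3 := by linarith
    have h7 : 1 * (64 * L) ≤ L ^ C * L ^ 3 := mul_le_mul h4 h5 (by positivity) (by positivity)
    have h8 : L ^ C * 512 ≤ L ^ C * L ^ 3 := mul_le_mul_of_nonneg_left h6 (by positivity)
    linarith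
  calc X ^ 3 / (q * L ^ A) * (16 / L ^ (A + 6) + (4 * L + 2 * L ^ C) / L ^ (C + 3))
      ≤ X ^ 3 / (q * L ^ A) * 1 := by
        gcongr
        linarith
    _ = _ := mul_one _

theorem t7_L2_core
    (h_maj : ∀ (ε : ℝ) (hε : 0 < ε) (hε1 : ε < 1) (A B K : ℕ), ∃ X0 : ℕ, ∀ X : ℕ, X0 ≤ X →
    ∀ (q : ℕ) [NeZero q], (q : ℝ) ≤ (X : ℝ) ^ (4 / 5 - ε) → ∀ (θ : ℝ) (a : ZMod q),
    θ ∈ MajQ X q B → (Nat.gcd a.val q : ℝ) ≤ Real.log X ^ K →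
    ‖Fz2 X q (fun n => Sv X n) (la X) θ a - Fz2 X q (snu X q) (nu X (Rm X) q) θ a‖ ≤
      X ^ 2 / (q * Real.log X ^ A))
    (h_sv : ∀ (ε : ℝ) (hε : 0 < ε) (hε1 : ε < 1) (A : ℕ), ∃ B0 : ℕ, ∀ B : ℕ, B0 ≤ B →
    ∃ X0 : ℕ, ∀ X : ℕ, X0 ≤ X → ∀ (q : ℕ) [NeZero q], (q : ℝ) ≤ (X : ℝ) ^ (4 / 5 - ε) →
    ∀ (θ : ℝ) (r : ℕ) (c : ℤ), MinorHyp X q B θ r c →
    VA X q (fun n => Sv X n) θ ≤ X ^ 2 / (q * Real.log X ^ A))
    (h_nu : ∀ (A : ℕ), ∃ B0 : ℕ, ∀ B : ℕ, B0 ≤ B → ∃ X0 : ℕ, ∀ X : ℕ, X0 ≤ X →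
    ∀ (q : ℕ) [NeZero q], (q : ℝ) ≤ (X : ℝ) ^ (4 / 5 : ℝ) → ∀ (θ : ℝ) (r : ℕ) (c : ℤ),
    MinorHyp X q B θ r c → VA X q (snu X q) θ ≤ X ^ 2 / (q * Real.log X ^ A))
    (ε : ℝ) (hε : 0 < ε) (hε1 : ε < 1) (A K : ℕ) : ∃ X0 : ℕ, ∀ X : ℕ, X0 ≤ X →
    ∀ (q : ℕ) [NeZero q], (q : ℝ) ≤ (X : ℝ) ^ (4 / 5 - ε) → ∀ a : ZMod q,
    (Nat.gcd a.val q : ℝ) ≤ Real.log X ^ K →
    ∑ n ∈ (range (2 * X + 1)).filter (fun n : ℕ => (n : ZMod q) = a),
      (cv X (fun n => Sv X n) (la X) n - cv X (snu X q) (nu X (Rm X) q) n) ^ 2 ≤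
      X ^ 3 / (q * Real.log X ^ A) := by
  obtain ⟨C, hC⟩ := nu_L2
  obtain ⟨B1, hB1⟩ := h_sv ε hε hε1 (A + C + 3)
  obtain ⟨B2, hB2⟩ := h_nu (A + C + 3)
  obtain ⟨B, hBB1, hBB2⟩ : ∃ B, B1 ≤ B ∧ B2 ≤ B := ⟨max B1 B2, le_max_left _ _, le_max_right _ _⟩
  obtain ⟨X1, hsv⟩ := hB1 B hBB1
  obtain ⟨X4, hnm⟩ := hB2 B hBB2
  obtain ⟨X2, hmaj⟩ := h_maj ε hε hε1 (A + B + 3) B K
  have hev : ∀ᶠ X : ℕ in Filter.atTop, 8 ≤ Real.log X :=
    (Real.tendsto_log_atTop.comp tendsto_natCast_atTop_atTop).eventually_ge_atTop 8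
  obtain ⟨X3, hX3⟩ := Filter.eventually_atTop.1 hev
  have hevB : ∀ᶠ X : ℕ in Filter.atTop, Real.log (X : ℝ) ^ B ≤ (X : ℝ) ^ (1 / 5 : ℝ) := by
    have h := (isLittleO_log_rpow_rpow_atTop (B : ℝ)
      (by norm_num : (0 : ℝ) < 1 / 5)).bound one_pos
    have h2 := tendsto_natCast_atTop_atTop.eventually (α := ℕ) (β := ℝ) h
    filter_upwards [h2, Filter.eventually_ge_atTop 1] with X hX hX1
    have hX1r : (1 : ℝ) ≤ (X : ℝ) := by exact_mod_cast hX1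
    have hl : 0 ≤ Real.log (X : ℝ) := Real.log_nonneg hX1r
    rw [Real.norm_of_nonneg (Real.rpow_nonneg hl _),
      Real.norm_of_nonneg (Real.rpow_nonneg (by linarith) _), one_mul, Real.rpow_natCast] at hX
    exact hX
  obtain ⟨X5, hX5⟩ := Filter.eventually_atTop.1 hevB
  refine ⟨max (max (max X1 X4) X2) (max (max X3 X5) 3), ?_⟩
  intro X hX q _ hq a ha
  have hXl : max (max X1 X4) X2 ≤ X := (le_max_left _ _).trans hX
  have hXr : max (max X3 X5) 3 ≤ X := (le_max_right _ _).trans hX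
  have hXa : X1 ≤ X := (le_max_left _ _).trans ((le_max_left _ _).trans hXl)
  have hXf : X4 ≤ X := (le_max_right _ _).trans ((le_max_left _ _).trans hXl)
  have hXb : X2 ≤ X := (le_max_right _ _).trans hXl
  have hXc : X3 ≤ X := (le_max_left _ _).trans ((le_max_left _ _).trans hXr)
  have hXe : X5 ≤ X := (le_max_right _ _).trans ((le_max_left _ _).trans hXr)
  have hXd : 3 ≤ X := (le_max_right _ _).trans hXr
  have hL8 := hX3 X hXc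
  have hLB := hX5 X hXe
  have hq1 : 1 ≤ q := NeZero.one_le
  have hX1 : (1 : ℝ) ≤ X := by
    have : 1 ≤ X := by omega
    exact_mod_cast this
  have hX0 : (0 : ℝ) < X := by linarith
  have hq0 : (0 : ℝ) < q := by exact_mod_cast hq1
  have hq45 : (q : ℝ) ≤ (X : ℝ) ^ (4 / 5 : ℝ) :=
    hq.trans (Real.rpow_le_rpow_of_exponent_le hX1 (by linarith))
  have hqX : q ≤ X := by
    have h1 : (q : ℝ) ≤ X := by
      refine hq45.trans ?_
      calc (X : ℝ) ^ (4 / 5 : ℝ) ≤ (X : ℝ) ^ (1 : ℝ) :=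
            Real.rpow_le_rpow_of_exponent_le hX1 (by norm_num)
        _ = X := Real.rpow_one _
    exact_mod_cast h1
  have hqB : (q : ℝ) * Real.log X ^ B ≤ X := by
    calc (q : ℝ) * Real.log X ^ B ≤ (X : ℝ) ^ (4 / 5 : ℝ) * (X : ℝ) ^ (1 / 5 : ℝ) :=
          mul_le_mul hq45 hLB (by positivity) (by positivity)
      _ = X := by
          rw [← Real.rpow_add hX0]
          norm_num
  have hRX : Rm X ≤ X := by
    unfold Rm
    have h1 : ((⌊(X : ℝ) ^ (1 / 50 : ℝ)⌋₊ : ℕ) : ℝ) ≤ X := by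
      refine (Nat.floor_le (by positivity)).trans ?_
      calc (X : ℝ) ^ (1 / 50 : ℝ) ≤ (X : ℝ) ^ (1 : ℝ) :=
            Real.rpow_le_rpow_of_exponent_le hX1 (by norm_num)
        _ = X := Real.rpow_one _
    exact_mod_cast h1
  have hnu := hC X (Rm X) q hXd hRX hq1 hqX
  have hla := sum_la_sq_le X
  have hmeas := major_measure X q B hXd hq1
  set L : ℝ := Real.log X with hL
  set fl : ℕ → ℝ := la X with hfl
  set fs : ℕ → ℝ := (fun n => Sv X n) with hfs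
  set fm : ℕ → ℝ := snu X q with hfm
  set fn : ℕ → ℝ := nu X (Rm X) q with hfn
  set M1 : ℝ := (X ^ 2 / (q * L ^ (A + B + 3))) ^ 2 with hM1
  set M0 : ℝ := X ^ 2 / (q * L ^ (A + C + 3)) with hM0
  have hL0 : 0 ≤ L := by linarith
  have hM00 : 0 ≤ M0 := by
    rw [hM0]
    positivity
  rw [Fz2_pars]
  -- pointwise bound
  have hpt : ∀ θ : ℝ, ‖Fz2 X q fs fl θ a - Fz2 X q fm fn θ a‖ ^ 2 ≤
      M1 * (MajQ X q B).indicator (fun _ => 1) θ + (2 * M0) * (VA X q fl θ + VA X q fn θ) := by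
    intro θ
    have hv1 := T7L2_VA_nonneg X q fl θ
    have hv2 := T7L2_VA_nonneg X q fn θ
    by_cases h : θ ∈ MajQ X q B
    · rw [Set.indicator_of_mem h, mul_one]
      have h1 := hmaj X hXb q hq θ a h ha
      have h2 : ‖Fz2 X q fs fl θ a - Fz2 X q fm fn θ a‖ ^ 2 ≤ M1 := by
        rw [hM1]
        exact pow_le_pow_left₀ (norm_nonneg _) h1 2
      have h3 : 0 ≤ (2 * M0) * (VA X q fl θ + VA X q fn θ) :=
        mul_nonneg (by linarith) (by linarith)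
      linarith
    · rw [Set.indicator_of_notMem h, mul_zero, zero_add]
      obtain ⟨r, c, hrc⟩ := minor_hyp X q B hXd hq1 hqB θ h
      have g1 : VA X q fs θ ≤ M0 := hsv X hXa q hq θ r c hrc
      have g2 : VA X q fm θ ≤ M0 := hnm X hXf q hq45 θ r c hrc
      have h3 := Fz2_sq X q fs fl θ a
      have h4 := Fz2_sq X q fm fn θ a
      have h5 : VA X q fs θ * VA X q fl θ ≤ M0 * VA X q fl θ :=
        mul_le_mul_of_nonneg_right g1 hv1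
      have h6 : VA X q fm θ * VA X q fn θ ≤ M0 * VA X q fn θ :=
        mul_le_mul_of_nonneg_right g2 hv2
      have h7 : ‖Fz2 X q fs fl θ a - Fz2 X q fm fn θ a‖ ≤
          ‖Fz2 X q fs fl θ a‖ + ‖Fz2 X q fm fn θ a‖ := norm_sub_le _ _
      have h8 : ‖Fz2 X q fs fl θ a - Fz2 X q fm fn θ a‖ ^ 2 ≤
          (‖Fz2 X q fs fl θ a‖ + ‖Fz2 X q fm fn θ a‖) ^ 2 :=
        pow_le_pow_left₀ (norm_nonneg _) h7 2
      nlinarith [sq_nonneg (‖Fz2 X q fs fl θ a‖ - ‖Fz2 X q fm fn θ a‖)]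
  refine (av_mono hpt).trans ?_
  rw [av_add, av_mul_left, av_mul_left, av_add, av_VA, av_VA]
  have hM10 : 0 ≤ M1 := by rw [hM1]; positivity
  calc M1 * av (gr X) ((MajQ X q B).indicator fun _ => 1) +
        (2 * M0) * (∑ n ∈ Icc 1 X, fl n ^ 2 + ∑ n ∈ Icc 1 X, fn n ^ 2)
      ≤ M1 * (16 * q * L ^ (2 * B) / X) + (2 * M0) * (2 * X * L + X * L ^ C) := by
        gcongr
    _ ≤ X ^ 3 / (q * L ^ A) := by
        rw [hM1, hM0]
        exact T7L2_arith hL8 A B C hX0 hq0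

end Pool.MP_dd84fd_nt.T7
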