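import Pool.Agent.Lib.MP_dd84fd_nt.T7.Fz2Basic
import Pool.Agent.Lib.MP_dd84fd_nt.T7.SvBasic
import Pool.Agent.Lib.MP_dd84fd_nt.T7.SdBasic
import Pool.Agent.Lib.MP_dd84fd_nt.LS.SpecBound
import Pool.Agent.Lib.MP_dd84fd_nt.LS.Four
import Pool.Agent.Lib.MP_dd84fd_nt.L2G.ChDefs
import Pool.Agent.Lib.MP_dd84fd_nt.L2G.ClassAlg
import Pool.Agent.Lib.MP_dd84fd_nt.L2G.ModelArith
import Pool.Agent.Lib.MP_dd84fd_nt.L2G.CvBasic
import Pool.Agent.Lib.MP_dd84fd_nt.L2G.Avg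

/-!
T7-59 T7Scale (copy of L2G/SpecScale). The only change is the L1 bound: |r_j| <= |Fz2 Sv la| + |Fz2 snu nu| <= (VA(Sv) + VA(la))/2 + (VA(snu) + VA(nu))/2 (Fz2_sq and AM-GM); averages: sum Sv^2 <= 16Y (sv_abs), sum la^2 <= 2YL, sum snu^2 <= L^(2C1) sum nu^2 (sd_bound), sum nu^2 <= Y L^C (nu_L2).
L2 from h_L2.
-/

set_option autoImplicit false

namespace Pool.MP_dd84fd_nt.T7

open Finset Pool.MP_67663b_nt.Odd Pool.MP_dd84fd_nt.L2G

private theorem T7Scale_av (N : ℕ) [NeZero N] (f : ℝ → ℝ) :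
    (1 / (N : ℝ)) * ∑ j : ZMod N, f ((j.val : ℝ) / N) = av N f := by
  have h : ∑ j : ZMod N, f ((j.val : ℝ) / N) = ∑ j ∈ range N, f ((j : ℝ) / N) := by
    refine Finset.sum_nbij' (i := fun j : ZMod N => j.val) (j := fun k : ℕ => (k : ZMod N))
      ?_ ?_ ?_ ?_ ?_
    · intro j _
      exact mem_range.mpr (ZMod.val_lt j)
    · intro k _
      exact mem_univ _
    · intro j _
      exact ZMod.natCast_zmod_val j
    · intro k hk
      exact ZMod.val_natCast_of_lt (mem_range.mp hk)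
    · intro j _
      rfl
  rw [h, av]
  ring

private theorem T7Scale_VA (N X q : ℕ) [NeZero q] (hN : X < N) (f : ℕ → ℝ) :
    av N (fun θ => VA X q f θ) = ∑ n ∈ Icc 1 X, f n ^ 2 := by
  unfold VA
  rw [av_sum, ← Finset.sum_fiberwise (Icc 1 X) (fun n : ℕ => (n : ZMod q)) (fun n => f n ^ 2)]
  refine Finset.sum_congr rfl fun b _ => ?_
  have h := parseval (N := N) ((Icc 1 X).filter (fun n : ℕ => (n : ZMod q) = b)) (fun n hn => by
    have h1 := (Finset.mem_Icc.1 (Finset.mem_filter.1 hn).1).2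
    omega) (fun n => (f n : ℂ))
  unfold fz
  rw [h]
  refine Finset.sum_congr rfl fun n _ => ?_
  rw [Complex.norm_real, Real.norm_eq_abs, sq_abs]

private theorem T7Scale_co (N : ℕ) [NeZero N] (s : Finset ℕ) (hs : ∀ m ∈ s, m < N) (u : ℕ → ℝ)
    (n : ℕ) (hn : n ∈ s) :
    Pool.MP_dd84fd_nt.LS.co N (fun j => ∑ m ∈ s, (u m : ℂ) * ZMod.stdAddChar ((m : ZMod N) * j)) n = (u n : ℂ) := by
  have hN0 : (N : ℂ) ≠ 0 := by exact_mod_cast NeZero.ne N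
  unfold Pool.MP_dd84fd_nt.LS.co
  have h1 : ∀ j ∈ (univ : Finset (ZMod N)),
      (∑ m ∈ s, (u m : ℂ) * ZMod.stdAddChar ((m : ZMod N) * j)) *
        ZMod.stdAddChar (-((n : ZMod N) * j)) =
      ∑ m ∈ s, (u m : ℂ) * ZMod.stdAddChar (((m : ZMod N) - (n : ZMod N)) * j) := by
    intro j _
    rw [Finset.sum_mul]
    refine Finset.sum_congr rfl (fun m _ => ?_)
    have : ((m : ZMod N) - (n : ZMod N)) * j = (m : ZMod N) * j + (-((n : ZMod N) * j)) := by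
      ring
    rw [this, AddChar.map_add_eq_mul]
    ring
  rw [Finset.sum_congr rfl h1, Finset.sum_comm, Finset.sum_eq_single n]
  · rw [← Finset.mul_sum, Pool.MP_dd84fd_nt.LS.sum_chi, if_pos (sub_self _)]
    field_simp
  · intro m hm hne
    rw [← Finset.mul_sum, Pool.MP_dd84fd_nt.LS.sum_chi, if_neg, mul_zero]
    intro h0
    exact hne (Pool.MP_dd84fd_nt.LS.cast_eq_small (hs m hm) (hs n hn) (sub_eq_zero.1 h0))
  · intro h
    exact absurd hn h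

private theorem T7Scale_VA_nonneg (X q : ℕ) [NeZero q] (f : ℕ → ℝ) (θ : ℝ) : 0 ≤ VA X q f θ := by
  unfold VA
  exact Finset.sum_nonneg fun b _ => sq_nonneg _

private theorem T7Scale_Fz2_le (X q : ℕ) [NeZero q] (f g : ℕ → ℝ) (θ : ℝ) (a : ZMod q) :
    ‖Fz2 X q f g θ a‖ ≤ (VA X q f θ + VA X q g θ) / 2 := by
  have h1 := Fz2_sq X q f g θ a
  have h2 := T7Scale_VA_nonneg X q f θ
  have h3 := T7Scale_VA_nonneg X q g θ
  refine abs_le_of_sq_le_sq' ?_ (by linarith) |>.2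
  nlinarith [sq_nonneg (VA X q f θ - VA X q g θ)]

theorem t7_scale_core
    (h_L2 : ∀ (ε : ℝ) (hε : 0 < ε) (hε1 : ε < 1) (A K : ℕ), ∃ X0 : ℕ, ∀ X : ℕ, X0 ≤ X →
    ∀ (q : ℕ) [NeZero q], (q : ℝ) ≤ (X : ℝ) ^ (4 / 5 - ε) → ∀ a : ZMod q,
    (Nat.gcd a.val q : ℝ) ≤ Real.log X ^ K →
    ∑ n ∈ (range (2 * X + 1)).filter (fun n : ℕ => (n : ZMod q) = a),
      (cv X (fun n => Sv X n) (la X) n - cv X (snu X q) (nu X (Rm X) q) n) ^ 2 ≤
      X ^ 3 / (q * Real.log X ^ A))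
    (ε : ℝ) (hε : 0 < ε) (hε1 : ε < 1) : ∃ C : ℕ, ∀ A K : ℕ, ∃ Y0 : ℕ,
    ∀ Y : ℕ, Y0 ≤ Y → ∀ (X N : ℕ) [NeZero N], Y ≤ X → X < N → 2 * Y < N →
    ∀ ξ : ℕ → ℝ, (∀ n, 0 ≤ ξ n) → ∑ n ∈ Icc 1 X, ξ n ≤ 1 → ∀ δ : ℝ, 0 ≤ δ →
    ∀ (q : ℕ) [NeZero q], (q : ℝ) ≤ (Y : ℝ) ^ (4 / 5 - ε) → ∀ a : ZMod q,
    (Nat.gcd a.val q : ℝ) ≤ Real.log Y ^ K →
    ∑ n ∈ (Icc 1 Y).filter (fun n : ℕ => (n : ZMod q) = a),
      ξ n * (cv Y (fun n => Sv Y n) (la Y) n - cv Y (snu Y q) (nu Y (Rm Y) q) n) ^ 2 ≤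
      δ * (Y * Real.log Y ^ C) ^ 2 +
        ((Pool.MP_dd84fd_nt.LS.spec N X ξ δ).card : ℝ) / N * (Y ^ 3 / (q * Real.log Y ^ A)) := by
  obtain ⟨C, hC⟩ := nu_L2
  obtain ⟨C1, Y4, hsd⟩ := sd_bound
  refine ⟨2 * C1 + C + 3, fun A K => ?_⟩
  obtain ⟨Y1, hL2⟩ := h_L2 ε hε hε1 A K
  have hev : ∀ᶠ X : ℕ in Filter.atTop, 8 ≤ Real.log X :=
    (Real.tendsto_log_atTop.comp tendsto_natCast_atTop_atTop).eventually_ge_atTop 8
  obtain ⟨Y2, hY2⟩ := Filter.eventually_atTop.1 hev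
  refine ⟨max Y1 (max Y2 (max 3 Y4)), ?_⟩
  intro Y hY X N _ hYX hXN hYN ξ hξ hsum δ hδ q _ hq a ha
  have hYa : Y1 ≤ Y := (le_max_left _ _).trans hY
  have hYb : Y2 ≤ Y := ((le_max_left _ _).trans (le_max_right _ _)).trans hY
  have hYc : 3 ≤ Y :=
    ((le_max_left _ _).trans ((le_max_right _ _).trans (le_max_right _ _))).trans hY
  have hYd : Y4 ≤ Y :=
    ((le_max_right _ _).trans ((le_max_right _ _).trans (le_max_right _ _))).trans hY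
  have hL8 := hY2 Y hYb
  have hq1 : 1 ≤ q := NeZero.one_le
  have hY1 : (1 : ℝ) ≤ Y := by
    have : 1 ≤ Y := by omega
    exact_mod_cast this
  have hY0 : (0 : ℝ) < Y := by linarith
  have hNr : (0 : ℝ) < N := by exact_mod_cast Nat.pos_of_ne_zero (NeZero.ne N)
  have hqY : q ≤ Y := by
    have h1 : (q : ℝ) ≤ Y := by
      refine hq.trans ?_
      calc (Y : ℝ) ^ (4 / 5 - ε) ≤ (Y : ℝ) ^ (1 : ℝ) :=
            Real.rpow_le_rpow_of_exponent_le hY1 (by linarith)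
        _ = Y := Real.rpow_one _
    exact_mod_cast h1
  have hRY : Rm Y ≤ Y := by
    unfold Rm
    have h1 : ((⌊(Y : ℝ) ^ (1 / 50 : ℝ)⌋₊ : ℕ) : ℝ) ≤ Y := by
      refine (Nat.floor_le (by positivity)).trans ?_
      calc (Y : ℝ) ^ (1 / 50 : ℝ) ≤ (Y : ℝ) ^ (1 : ℝ) :=
            Real.rpow_le_rpow_of_exponent_le hY1 (by norm_num)
        _ = Y := Real.rpow_one _
    exact_mod_cast h1
  have hnu := hC Y (Rm Y) q hYc hRY hq1 hqY
  have hla := sum_la_sq_le Y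
  have hsv : ∑ n ∈ Icc 1 Y, Sv Y n ^ 2 ≤ 16 * Y := by
    have h1 : ∀ n ∈ Icc 1 Y, Sv Y n ^ 2 ≤ 16 := by
      intro n hn
      have h2 := sv_abs Y n (Finset.mem_Icc.1 hn).2
      rw [← sq_abs]
      have h3 := abs_nonneg (Sv Y n)
      nlinarith
    refine (Finset.sum_le_sum h1).trans (le_of_eq ?_)
    rw [Finset.sum_const, Nat.card_Icc, nsmul_eq_mul]
    push_cast [Nat.add_sub_cancel]
    ring
  have hsn : ∑ n ∈ Icc 1 Y, snu Y q n ^ 2 ≤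
      (Real.log Y ^ C1) ^ 2 * (Y * Real.log Y ^ C) := by
    refine le_trans ?_ (mul_le_mul_of_nonneg_left hnu (by positivity))
    rw [Finset.mul_sum]
    refine Finset.sum_le_sum fun n _ => ?_
    unfold snu
    rw [mul_pow]
    refine mul_le_mul_of_nonneg_right ?_ (sq_nonneg _)
    rw [← sq_abs (sd Y n)]
    exact pow_le_pow_left₀ (abs_nonneg _) ((hsd Y hYd).1 n) 2
  have hE2 := hL2 Y hYa q hq a ha
  set L : ℝ := Real.log Y with hL
  set fv : ℕ → ℝ := fun n => Sv Y n with hfv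
  set fl : ℕ → ℝ := la Y with hfl
  set fs : ℕ → ℝ := snu Y q with hfs
  set fn : ℕ → ℝ := nu Y (Rm Y) q with hfn
  set u : ℕ → ℝ := fun n => cv Y fv fl n - cv Y fs fn n with hu
  set s : Finset ℕ := (range (2 * Y + 1)).filter (fun n : ℕ => (n : ZMod q) = a) with hs
  have hsN : ∀ m ∈ s, m < N := by
    intro m hm
    have h1 := mem_range.1 (mem_filter.1 hm).1
    omega
  set r : ZMod N → ℂ := fun j => ∑ m ∈ s, (u m : ℂ) * ZMod.stdAddChar ((m : ZMod N) * j) with hr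
  have hrF : ∀ j : ZMod N, r j =
      Fz2 Y q fv fl ((j.val : ℝ) / N) a - Fz2 Y q fs fn ((j.val : ℝ) / N) a := by
    intro j
    rw [hr]
    unfold Fz2
    rw [← sum_sub_distrib]
    refine sum_congr rfl fun n _ => ?_
    rw [Pool.MP_dd84fd_nt.LS.chi_ee, hu]
    push_cast
    ring
  have hrS : ∀ j : ZMod N, r j = ∑ m ∈ s, (u m : ℂ) * ee (m * ((j.val : ℝ) / N)) := by
    intro j
    rw [hr]
    exact sum_congr rfl fun n _ => by rw [Pool.MP_dd84fd_nt.LS.chi_ee]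
  -- L2
  have hr2 : (1 / (N : ℝ)) * ∑ j, ‖r j‖ ^ 2 ≤ Y ^ 3 / (q * L ^ A) := by
    have h1 : ∀ j : ZMod N, ‖r j‖ ^ 2 =
        (fun θ : ℝ => ‖∑ m ∈ s, (u m : ℂ) * ee (m * θ)‖ ^ 2) ((j.val : ℝ) / N) := by
      intro j
      rw [hrS]
    have h2 := T7Scale_av N (fun θ : ℝ => ‖∑ m ∈ s, (u m : ℂ) * ee (m * θ)‖ ^ 2)
    rw [sum_congr rfl fun j _ => h1 j, h2, parseval s hsN]
    refine le_trans (le_of_eq ?_) hE2
    refine sum_congr rfl fun n _ => ?_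
    rw [Complex.norm_real, Real.norm_eq_abs, sq_abs]
  -- L1
  have hr1 : (1 / (N : ℝ)) * ∑ j, ‖r j‖ ≤ Y * L ^ (2 * C1 + C + 3) := by
    have h1 : ∑ j, ‖r j‖ ≤ ∑ j : ZMod N,
        (fun θ : ℝ => (VA Y q fv θ + VA Y q fl θ) * (1 / 2) +
          (VA Y q fs θ + VA Y q fn θ) * (1 / 2)) ((j.val : ℝ) / N) := by
      refine sum_le_sum fun j _ => ?_
      rw [hrF]
      refine (norm_sub_le _ _).trans (add_le_add ?_ ?_)
      · exact (T7Scale_Fz2_le _ _ _ _ _ _).trans (le_of_eq (by ring))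
      · exact (T7Scale_Fz2_le _ _ _ _ _ _).trans (le_of_eq (by ring))
    refine (mul_le_mul_of_nonneg_left h1 (by positivity)).trans ?_
    have e1 : (1 / (N : ℝ)) * ∑ j : ZMod N,
        (fun θ : ℝ => (VA Y q fv θ + VA Y q fl θ) * (1 / 2) +
          (VA Y q fs θ + VA Y q fn θ) * (1 / 2)) ((j.val : ℝ) / N) =
        ((∑ n ∈ Icc 1 Y, fv n ^ 2 + ∑ n ∈ Icc 1 Y, fl n ^ 2) +
          (∑ n ∈ Icc 1 Y, fs n ^ 2 + ∑ n ∈ Icc 1 Y, fn n ^ 2)) * (1 / 2) := by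
      rw [← T7Scale_VA N Y q (by omega) fv, ← T7Scale_VA N Y q (by omega) fl,
        ← T7Scale_VA N Y q (by omega) fs, ← T7Scale_VA N Y q (by omega) fn,
        ← T7Scale_av N (fun θ : ℝ => VA Y q fv θ), ← T7Scale_av N (fun θ : ℝ => VA Y q fl θ),
        ← T7Scale_av N (fun θ : ℝ => VA Y q fs θ), ← T7Scale_av N (fun θ : ℝ => VA Y q fn θ)]
      rw [← mul_add, ← mul_add, ← mul_add, ← Finset.sum_add_distrib, ← Finset.sum_add_distrib,
        ← Finset.sum_add_distrib, mul_assoc, Finset.sum_mul]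
      congr 1
      refine Finset.sum_congr rfl fun j _ => ?_
      ring
    rw [e1]
    have h3 : L ^ (2 * C1 + C + 3) = L ^ (2 * C1) * L ^ C * L ^ 3 := by
      rw [pow_add, pow_add]
    have h4 : (1 : ℝ) ≤ L ^ C := one_le_pow₀ (by linarith)
    have h5 : (1 : ℝ) ≤ L ^ (2 * C1) := one_le_pow₀ (by linarith)
    have h6 : (L ^ C1) ^ 2 = L ^ (2 * C1) := by rw [← pow_mul, mul_comm]
    rw [h6] at hsn
    have h7 : L ^ C ≤ L ^ (2 * C1) * L ^ C := le_mul_of_one_le_left (by linarith) h5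
    have h8 : 1 ≤ L ^ (2 * C1) * L ^ C := h4.trans h7
    have h9 : 2 * L + 1 ≤ L ^ 3 := by
      have h51 : 0 ≤ L := by linarith
      have h50 : 0 ≤ L ^ 2 - 4 := by nlinarith
      nlinarith [mul_nonneg h51 h50]
    have h10 : (16 + 2 * L + L ^ (2 * C1) * L ^ C + L ^ C) * (1 / 2) ≤
        L ^ (2 * C1) * L ^ C * L ^ 3 := by
      have h11 : L ^ (2 * C1) * L ^ C * (2 * L + 1) ≤ L ^ (2 * C1) * L ^ C * L ^ 3 :=
        mul_le_mul_of_nonneg_left h9 (by linarith)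
      have h12 : 2 * L ≤ L ^ (2 * C1) * L ^ C * (2 * L) :=
        le_mul_of_one_le_left (by linarith) h8
      linarith
    rw [h3]
    have h13 : (∑ n ∈ Icc 1 Y, fv n ^ 2 + ∑ n ∈ Icc 1 Y, fl n ^ 2) +
          (∑ n ∈ Icc 1 Y, fs n ^ 2 + ∑ n ∈ Icc 1 Y, fn n ^ 2) ≤
        Y * (16 + 2 * L + L ^ (2 * C1) * L ^ C + L ^ C) := by
      linarith
    have h14 := mul_le_mul_of_nonneg_left h10 hY0.le
    linarith
  have hsb := Pool.MP_dd84fd_nt.LS.spec_bound N X ξ hξ hsum r δ hδ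
  have hlow : ∑ n ∈ (Icc 1 Y).filter (fun n : ℕ => (n : ZMod q) = a), ξ n * u n ^ 2 ≤
      ∑ n ∈ Icc 1 X, ξ n * ‖Pool.MP_dd84fd_nt.LS.co N r n‖ ^ 2 := by
    refine le_trans (Finset.sum_le_sum (g := fun n => ξ n * ‖Pool.MP_dd84fd_nt.LS.co N r n‖ ^ 2) ?_)
      (Finset.sum_le_sum_of_subset_of_nonneg ?_
        (fun n _ _ => mul_nonneg (hξ n) (sq_nonneg _)))
    · intro n hn
      rw [mem_filter, mem_Icc] at hn
      have hns : n ∈ s := by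
        rw [hs, mem_filter, mem_range]
        exact ⟨by omega, hn.2⟩
      rw [hr, T7Scale_co N s hsN u n hns, Complex.norm_real, Real.norm_eq_abs, sq_abs]
    · intro n hn
      rw [mem_filter, mem_Icc] at hn
      rw [mem_Icc]
      omega
  refine hlow.trans (hsb.trans ?_)
  refine add_le_add ?_ ?_
  · refine mul_le_mul_of_nonneg_left ?_ hδ
    exact pow_le_pow_left₀ (mul_nonneg (by positivity)
      (Finset.sum_nonneg fun j _ => norm_nonneg _)) hr1 2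
  · exact mul_le_mul_of_nonneg_left hr2 (by positivity)

end Pool.MP_dd84fd_nt.T7
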